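import Mathlib

/-!
# The infinite cube
-/

set_option autoImplicit false

namespace Pool.Agent.Helper76.Freq

/-- the infinite cube -/
abbrev Q : Type := ℕ → unitInterval

/-- insert the coordinate `e` at place `i` -/
def ins (i : ℕ) (e : unitInterval) (x : Q) : Q :=
  fun j => if j < i then x j else if j = i then e else x (j - 1)

/-- truncate after the first `p` coordinates -/
def tr (p : ℕ) (x : Q) : Q := fun j => if j < p then x j else 0

/-- forget the first `p` coordinates -/
def sh (p : ℕ) (x : Q) : Q := fun j => x (j + p)

theorem continuous_ins (i : ℕ) (e : unitInterval) : Continuous (ins i e) := by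
  refine continuous_pi fun j => ?_
  unfold ins
  split_ifs
  · exact continuous_apply j
  · exact continuous_const
  · exact continuous_apply (j - 1)

theorem continuous_tr (p : ℕ) : Continuous (tr p) := by
  refine continuous_pi fun j => ?_
  unfold tr
  split_ifs
  · exact continuous_apply j
  · exact continuous_const

theorem continuous_sh (p : ℕ) : Continuous (sh p) :=
  continuous_pi fun j => continuous_apply (j + p)

end Pool.Agent.Helper76.Freq
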