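import Pool.Agent.Helper76.Freq.Defs
import Pool.Agent.Helper76.Freq.Cube

/-!
# Cubical chains with bundled cubes, cross products
-/

set_option autoImplicit false

namespace Pool.Agent.Helper76.Freq

open Finset

section

variable {Y Y' Y₁ Y₂ : Type*} [TopologicalSpace Y] [TopologicalSpace Y'] [TopologicalSpace Y₁]
  [TopologicalSpace Y₂] {G : Type*} [Field G]

/-- face of a cube -/
def faceN (i : ℕ) (e : unitInterval) (c : C(Q, Y)) : C(Q, Y) := c.comp ⟨ins i e, continuous_ins i e⟩

/-- boundary of `d`-dimensional chains -/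
noncomputable def bdN (G : Type*) [Field G] (d : ℕ) : (C(Q, Y) →₀ G) →ₗ[G] (C(Q, Y) →₀ G) :=
  Finsupp.linearCombination G (fun c => ∑ i ∈ range d,
    (-1 : G) ^ i • (Finsupp.single (faceN i 1 c) (1 : G) - Finsupp.single (faceN i 0 c) (1 : G)))

/-- degenerate chains of dimension `d` -/
def degN (G : Type*) [Field G] (d : ℕ) : Submodule G (C(Q, Y) →₀ G) :=
  Finsupp.supported G G {c | ∃ i < d, ∀ x x' : Q, (∀ j, j ≠ i → x j = x' j) → c x = c x'}

/-- cross product of cubes -/
def crossC (p : ℕ) (c₁ : C(Q, Y₁)) (c₂ : C(Q, Y₂)) : C(Q, Y₁ × Y₂) :=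
  ⟨fun x => (c₁ (tr p x), c₂ (sh p x)),
    (c₁.continuous.comp (continuous_tr p)).prodMk (c₂.continuous.comp (continuous_sh p))⟩

/-- cross product of chains -/
noncomputable def cross (p : ℕ) (z₁ : C(Q, Y₁) →₀ G) (z₂ : C(Q, Y₂) →₀ G) : C(Q, Y₁ × Y₂) →₀ G :=
  z₁.sum fun c₁ r₁ => z₂.sum fun c₂ r₂ => Finsupp.single (crossC p c₁ c₂) (r₁ * r₂)

theorem cross_single_single (p : ℕ) (c₁ : C(Q, Y₁)) (c₂ : C(Q, Y₂)) (r₁ r₂ : G) :
    cross p (Finsupp.single c₁ r₁) (Finsupp.single c₂ r₂) =
      Finsupp.single (crossC p c₁ c₂) (r₁ * r₂) := by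
  unfold cross
  rw [Finsupp.sum_single_index, Finsupp.sum_single_index]
  · simp
  · simp

theorem cross_zero_left (p : ℕ) (z₂ : C(Q, Y₂) →₀ G) :
    cross p (0 : C(Q, Y₁) →₀ G) z₂ = 0 := by
  unfold cross; rw [Finsupp.sum_zero_index]

theorem cross_zero_right (p : ℕ) (z₁ : C(Q, Y₁) →₀ G) :
    cross p z₁ (0 : C(Q, Y₂) →₀ G) = 0 := by
  unfold cross; simp

theorem cross_add_left (p : ℕ) (z z' : C(Q, Y₁) →₀ G) (z₂ : C(Q, Y₂) →₀ G) :
    cross p (z + z') z₂ = cross p z z₂ + cross p z' z₂ := by
  classical
  unfold cross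
  rw [Finsupp.sum_add_index']
  · intro c; simp
  · intro c r r'
    rw [← Finsupp.sum_add]
    refine Finsupp.sum_congr fun c₂ _ => ?_
    rw [add_mul, Finsupp.single_add]

theorem cross_add_right (p : ℕ) (z₁ : C(Q, Y₁) →₀ G) (z z' : C(Q, Y₂) →₀ G) :
    cross p z₁ (z + z') = cross p z₁ z + cross p z₁ z' := by
  classical
  unfold cross
  rw [← Finsupp.sum_add]
  refine Finsupp.sum_congr fun c₁ _ => ?_
  rw [Finsupp.sum_add_index']
  · intro c; simp
  · intro c r r'
    rw [mul_add, Finsupp.single_add]

theorem cross_smul_left (p : ℕ) (r : G) (z₁ : C(Q, Y₁) →₀ G) (z₂ : C(Q, Y₂) →₀ G) :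
    cross p (r • z₁) z₂ = r • cross p z₁ z₂ := by
  induction z₁ using Finsupp.induction_linear with
  | zero => rw [smul_zero, cross_zero_left, smul_zero]
  | add f g hf hg => rw [smul_add, cross_add_left, cross_add_left, hf, hg, smul_add]
  | single c s =>
    induction z₂ using Finsupp.induction_linear with
    | zero => rw [cross_zero_right, cross_zero_right, smul_zero]
    | add f g hf hg => rw [cross_add_right, cross_add_right, hf, hg, smul_add]
    | single c' s' =>
      rw [Finsupp.smul_single, cross_single_single, cross_single_single, Finsupp.smul_single,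
        smul_eq_mul, smul_eq_mul, mul_assoc]

theorem cross_smul_right (p : ℕ) (r : G) (z₁ : C(Q, Y₁) →₀ G) (z₂ : C(Q, Y₂) →₀ G) :
    cross p z₁ (r • z₂) = r • cross p z₁ z₂ := by
  induction z₁ using Finsupp.induction_linear with
  | zero => rw [cross_zero_left, cross_zero_left, smul_zero]
  | add f g hf hg => rw [cross_add_left, cross_add_left, hf, hg, smul_add]
  | single c s =>
    induction z₂ using Finsupp.induction_linear with
    | zero => rw [smul_zero, cross_zero_right, smul_zero]
    | add f g hf hg => rw [smul_add, cross_add_right, cross_add_right, hf, hg, smul_add]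
    | single c' s' =>
      rw [Finsupp.smul_single, cross_single_single, cross_single_single, Finsupp.smul_single,
        smul_eq_mul, smul_eq_mul, mul_left_comm]

theorem cross_sum_left {ι : Type*} (p : ℕ) (s : Finset ι) (z₁ : ι → C(Q, Y₁) →₀ G)
    (z₂ : C(Q, Y₂) →₀ G) : cross p (∑ i ∈ s, z₁ i) z₂ = ∑ i ∈ s, cross p (z₁ i) z₂ :=
  map_sum (⟨⟨fun z => cross p z z₂, cross_zero_left p z₂⟩, fun z z' => cross_add_left p z z' z₂⟩ :
    (C(Q, Y₁) →₀ G) →+ (C(Q, Y₁ × Y₂) →₀ G)) z₁ s

theorem cross_sum_right {ι : Type*} (p : ℕ) (s : Finset ι) (z₁ : C(Q, Y₁) →₀ G)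
    (z₂ : ι → C(Q, Y₂) →₀ G) : cross p z₁ (∑ i ∈ s, z₂ i) = ∑ i ∈ s, cross p z₁ (z₂ i) :=
  map_sum (⟨⟨fun z => cross p z₁ z, cross_zero_right p z₁⟩, fun z z' => cross_add_right p z₁ z z'⟩ :
    (C(Q, Y₂) →₀ G) →+ (C(Q, Y₁ × Y₂) →₀ G)) z₂ s

theorem cross_sub_left (p : ℕ) (z z' : C(Q, Y₁) →₀ G) (z₂ : C(Q, Y₂) →₀ G) :
    cross p (z - z') z₂ = cross p z z₂ - cross p z' z₂ :=
  map_sub (⟨⟨fun z => cross p z z₂, cross_zero_left p z₂⟩, fun z z' => cross_add_left p z z' z₂⟩ :
    (C(Q, Y₁) →₀ G) →+ (C(Q, Y₁ × Y₂) →₀ G)) z z'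

theorem cross_sub_right (p : ℕ) (z₁ : C(Q, Y₁) →₀ G) (z z' : C(Q, Y₂) →₀ G) :
    cross p z₁ (z - z') = cross p z₁ z - cross p z₁ z' :=
  map_sub (⟨⟨fun z => cross p z₁ z, cross_zero_right p z₁⟩, fun z z' => cross_add_right p z₁ z z'⟩ :
    (C(Q, Y₂) →₀ G) →+ (C(Q, Y₁ × Y₂) →₀ G)) z z'

theorem bdN_single (d : ℕ) (c : C(Q, Y)) (r : G) : bdN G d (Finsupp.single c r) =
    r • ∑ i ∈ range d, (-1 : G) ^ i •
      (Finsupp.single (faceN i 1 c) (1 : G) - Finsupp.single (faceN i 0 c) (1 : G)) := by
  unfold bdN
  rw [Finsupp.linearCombination_single]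

theorem faceN_crossC_left (p i : ℕ) (hi : i < p) (e : unitInterval) (c₁ : C(Q, Y₁))
    (c₂ : C(Q, Y₂)) : faceN i e (crossC p c₁ c₂) = crossC (p - 1) (faceN i e c₁) c₂ := by
  ext x : 1
  change (c₁ (tr p (ins i e x)), c₂ (sh p (ins i e x))) =
    (c₁ (ins i e (tr (p - 1) x)), c₂ (sh (p - 1) x))
  have h1 : tr p (ins i e x) = ins i e (tr (p - 1) x) := by
    funext j
    change (if j < p then (if j < i then x j else if j = i then e else x (j - 1)) else 0) =
      if j < i then (if j < p - 1 then x j else 0) else if j = i then e else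
        (if j - 1 < p - 1 then x (j - 1) else 0)
    split_ifs <;> first | rfl | omega
  have h2 : sh p (ins i e x) = sh (p - 1) x := by
    funext j
    unfold sh ins
    rw [if_neg (by omega), if_neg (by omega)]
    congr 1
    omega
  rw [h1, h2]

theorem faceN_crossC_right (p i : ℕ) (e : unitInterval) (c₁ : C(Q, Y₁))
    (c₂ : C(Q, Y₂)) : faceN (p + i) e (crossC p c₁ c₂) = crossC p c₁ (faceN i e c₂) := by
  ext x : 1
  change (c₁ (tr p (ins (p + i) e x)), c₂ (sh p (ins (p + i) e x))) =
    (c₁ (tr p x), c₂ (ins i e (sh p x)))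
  have h1 : tr p (ins (p + i) e x) = tr p x := by
    funext j
    change (if j < p then (if j < p + i then x j else if j = p + i then e else x (j - 1)) else 0) =
      if j < p then x j else 0
    split_ifs <;> first | rfl | omega
  have h2 : sh p (ins (p + i) e x) = ins i e (sh p x) := by
    funext j
    unfold sh ins
    by_cases h : j < i
    · rw [if_pos (by omega), if_pos h]
    · by_cases h' : j = i
      · rw [if_neg (by omega), if_pos (by omega), if_neg h, if_pos h']
      · rw [if_neg (by omega), if_neg (by omega), if_neg h, if_neg h']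
        congr 1
        omega
  rw [h1, h2]

theorem leibniz (p q : ℕ) (z₁ : C(Q, Y₁) →₀ G) (z₂ : C(Q, Y₂) →₀ G) :
    bdN G (p + q) (cross p z₁ z₂) =
      cross (p - 1) (bdN G p z₁) z₂ + (-1 : G) ^ p • cross p z₁ (bdN G q z₂) := by
  induction z₁ using Finsupp.induction_linear with
  | zero => simp [cross_zero_left]
  | add f g hf hg =>
    rw [cross_add_left, map_add, hf, hg, map_add, cross_add_left, cross_add_left, smul_add]
    abel
  | single c₁ r₁ =>
    induction z₂ using Finsupp.induction_linear with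
    | zero => simp [cross_zero_right]
    | add f g hf hg =>
      rw [cross_add_right, map_add, hf, hg, map_add, cross_add_right, cross_add_right, smul_add]
      abel
    | single c₂ r₂ =>
      rw [cross_single_single, bdN_single, bdN_single, bdN_single, cross_smul_left,
        cross_smul_right, cross_sum_left, cross_sum_right, Finset.sum_range_add, smul_add]
      congr 1
      · rw [Finset.smul_sum, Finset.smul_sum]
        refine Finset.sum_congr rfl fun i hi => ?_
        rw [Finset.mem_range] at hi
        rw [cross_smul_left, cross_sub_left, cross_single_single, cross_single_single,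
          faceN_crossC_left p i hi, faceN_crossC_left p i hi, smul_sub, smul_sub, smul_sub,
          smul_sub]
        simp only [Finsupp.smul_single, smul_eq_mul, one_mul, mul_one]
        congr 2 <;> ring
      · rw [Finset.smul_sum, Finset.smul_sum, Finset.smul_sum]
        refine Finset.sum_congr rfl fun i _ => ?_
        rw [cross_smul_right, cross_sub_right, cross_single_single, cross_single_single,
          faceN_crossC_right, faceN_crossC_right, smul_sub, smul_sub, smul_sub, smul_sub,
          smul_sub]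
        simp only [Finsupp.smul_single, smul_eq_mul, one_mul, mul_one]
        congr 2 <;> ring

/-- put a point in front of a sequence -/
def consC : C(Y × (ℕ → Y), ℕ → Y) :=
  ⟨fun y n => Nat.casesOn n y.1 y.2, by
    refine continuous_pi fun n => ?_
    cases n with
    | zero => exact continuous_fst
    | succ n => exact (continuous_apply n).comp continuous_snd⟩

/-- the `m`-fold cross power of a `q`-dimensional chain -/
noncomputable def pw [Nonempty Y] (q : ℕ) : (m : ℕ) → (C(Q, Y) →₀ G) → (C(Q, ℕ → Y) →₀ G)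
  | 0, _ => Finsupp.single (ContinuousMap.const Q fun _ => Classical.arbitrary Y) 1
  | m + 1, z => (cross q z (pw q m z)).mapDomain fun c => consC.comp c

/-- the boundary commutes with push forward -/
theorem bdN_mapDomain (d : ℕ) (h : C(Y, Y')) (z : C(Q, Y) →₀ G) :
    bdN G d (z.mapDomain fun c => h.comp c) = (bdN G d z).mapDomain fun c => h.comp c := by
  induction z using Finsupp.induction_linear with
  | zero => simp
  | add f g hf hg => rw [Finsupp.mapDomain_add, map_add, hf, hg, map_add, Finsupp.mapDomain_add]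
  | single c r =>
    rw [Finsupp.mapDomain_single, bdN_single, bdN_single, Finsupp.mapDomain_smul,
      Finsupp.mapDomain_finsetSum]
    congr 1
    refine Finset.sum_congr rfl fun i _ => ?_
    rw [Finsupp.mapDomain_smul]
    congr 1
    have h2 : ∀ a b : C(Q, Y) →₀ G, (a - b).mapDomain (fun c => h.comp c) =
        a.mapDomain (fun c => h.comp c) - b.mapDomain (fun c => h.comp c) := fun a b =>
      map_sub (Finsupp.mapDomain.addMonoidHom (M := G) fun c : C(Q, Y) => h.comp c) a b
    rw [h2, Finsupp.mapDomain_single, Finsupp.mapDomain_single]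
    rfl

theorem single_mem_degN {d : ℕ} {c : C(Q, Y)} (r : G)
    (hc : ∃ i < d, ∀ x x' : Q, (∀ j, j ≠ i → x j = x' j) → c x = c x') :
    Finsupp.single c r ∈ degN G (Y := Y) d :=
  Finsupp.single_mem_supported G r hc

theorem degN_induction {d : ℕ} {p : (C(Q, Y) →₀ G) → Prop} (h0 : p 0)
    (hadd : ∀ a b, p a → p b → p (a + b))
    (hs : ∀ c : C(Q, Y), (∃ i < d, ∀ x x' : Q, (∀ j, j ≠ i → x j = x' j) → c x = c x') →
      ∀ r : G, p (Finsupp.single c r)) (z : C(Q, Y) →₀ G) (hz : z ∈ degN G d) : p z := by
  have h1 : z = ∑ c ∈ z.support, Finsupp.single c (z c) := by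
    conv_lhs => rw [← Finsupp.sum_single z]
    rfl
  rw [h1]
  have h2 : ∀ s : Finset (C(Q, Y)), s ⊆ z.support → p (∑ c ∈ s, Finsupp.single c (z c)) := by
    classical
    intro s
    induction s using Finset.induction_on with
    | empty => intro _; simpa using h0
    | insert c s hc ih =>
      intro hsub
      rw [Finset.sum_insert hc]
      exact hadd _ _ (hs c (hz (Finset.mem_coe.2 (hsub (Finset.mem_insert_self c s)))) _)
        (ih fun x hx => hsub (Finset.mem_insert_of_mem hx))
  exact h2 _ (Finset.Subset.refl _)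

theorem mapDomain_mem_degN (d : ℕ) (h : C(Y, Y')) (z : C(Q, Y) →₀ G) (hz : z ∈ degN G d) :
    (z.mapDomain fun c => h.comp c) ∈ degN G (Y := Y') d := by
  refine degN_induction (p := fun z => (z.mapDomain fun c => h.comp c) ∈ degN G (Y := Y') d)
    ?_ ?_ ?_ z hz
  · rw [Finsupp.mapDomain_zero]; exact Submodule.zero_mem _
  · intro a b ha hb
    rw [Finsupp.mapDomain_add]
    exact Submodule.add_mem _ ha hb
  · rintro c ⟨i, hi, hc⟩ r
    rw [Finsupp.mapDomain_single]
    exact single_mem_degN r ⟨i, hi, fun x x' hx => congrArg h (hc x x' hx)⟩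

theorem cross_mem_degN_left (p d : ℕ) (z₁ : C(Q, Y₁) →₀ G) (z₂ : C(Q, Y₂) →₀ G)
    (h₁ : z₁ ∈ degN G p) (hd : p ≤ d) : cross p z₁ z₂ ∈ degN G (Y := Y₁ × Y₂) d := by
  refine degN_induction (p := fun z => cross p z z₂ ∈ degN G (Y := Y₁ × Y₂) d) ?_ ?_ ?_ z₁ h₁
  · rw [cross_zero_left]; exact Submodule.zero_mem _
  · intro a b ha hb
    rw [cross_add_left]
    exact Submodule.add_mem _ ha hb
  · rintro c ⟨i, hi, hc⟩ r
    induction z₂ using Finsupp.induction_linear with
    | zero => rw [cross_zero_right]; exact Submodule.zero_mem _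
    | add f g hf hg => rw [cross_add_right]; exact Submodule.add_mem _ hf hg
    | single c' s =>
      rw [cross_single_single]
      refine single_mem_degN _ ⟨i, by omega, fun x x' hx => ?_⟩
      change (c (tr p x), c' (sh p x)) = (c (tr p x'), c' (sh p x'))
      have h1 : c (tr p x) = c (tr p x') := by
        refine hc _ _ fun j hj => ?_
        unfold tr
        rw [hx j hj]
      have h2 : sh p x = sh p x' := by
        funext j
        exact hx (j + p) (by omega)
      rw [h1, h2]

theorem cross_mem_degN_right (p q d : ℕ) (z₁ : C(Q, Y₁) →₀ G) (z₂ : C(Q, Y₂) →₀ G)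
    (h₂ : z₂ ∈ degN G q) (hd : 0 < q → p + q ≤ d) :
    cross p z₁ z₂ ∈ degN G (Y := Y₁ × Y₂) d := by
  refine degN_induction (p := fun z => cross p z₁ z ∈ degN G (Y := Y₁ × Y₂) d) ?_ ?_ ?_ z₂ h₂
  · rw [cross_zero_right]; exact Submodule.zero_mem _
  · intro a b ha hb
    rw [cross_add_right]
    exact Submodule.add_mem _ ha hb
  · rintro c ⟨i, hi, hc⟩ r
    have hd' := hd (by omega)
    induction z₁ using Finsupp.induction_linear with
    | zero => rw [cross_zero_left]; exact Submodule.zero_mem _
    | add f g hf hg => rw [cross_add_left]; exact Submodule.add_mem _ hf hg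
    | single c' s =>
      rw [cross_single_single]
      refine single_mem_degN _ ⟨p + i, by omega, fun x x' hx => ?_⟩
      change (c' (tr p x), c (sh p x)) = (c' (tr p x'), c (sh p x'))
      have h1 : c (sh p x) = c (sh p x') := by
        refine hc _ _ fun j hj => ?_
        exact hx (j + p) (by omega)
      have h2 : tr p x = tr p x' := by
        funext j
        unfold tr
        split_ifs with h
        · exact hx j (by omega)
        · rfl
      rw [h1, h2]

theorem bdN_pw [Nonempty Y] (q m : ℕ) (z : C(Q, Y) →₀ G) (hq : 0 < q)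
    (hz : bdN G q z ∈ degN G (q - 1)) : bdN G (q * m) (pw q m z) ∈ degN G (q * m - 1) := by
  induction m with
  | zero =>
    have : bdN G (q * 0) (pw q 0 z) = 0 := by
      rw [mul_zero]
      change bdN G 0 (Finsupp.single _ 1) = 0
      rw [bdN_single]
      simp
    rw [this]
    exact Submodule.zero_mem _
  | succ m ih =>
    change bdN G (q * (m + 1)) ((cross q z (pw q m z)).mapDomain fun c => consC.comp c) ∈ _
    rw [bdN_mapDomain]
    apply mapDomain_mem_degN
    have h1 : q * (m + 1) = q + q * m := by ring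
    rw [h1, leibniz]
    refine Submodule.add_mem _ ?_ (Submodule.smul_mem _ _ ?_)
    · exact cross_mem_degN_left _ _ _ _ hz (by omega)
    · exact cross_mem_degN_right _ _ _ _ _ ih (fun h => by omega)

/-- extend a point of the `d`-cube by zeros -/
def ext (d : ℕ) (s : Fin d → unitInterval) : Q := fun j => if h : j < d then s ⟨j, h⟩ else 0

theorem continuous_ext (d : ℕ) : Continuous (ext d) := by
  refine continuous_pi fun j => ?_
  unfold ext
  split_ifs with h
  · exact continuous_apply _
  · exact continuous_const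

theorem ext_insertNth (d : ℕ) (i : Fin (d + 1)) (e : unitInterval) (s : Fin d → unitInterval) :
    ext (d + 1) (Fin.insertNth (α := fun _ => unitInterval) i e s) = ins i e (ext d s) := by
  funext j
  change (if h : j < d + 1 then Fin.insertNth (α := fun _ => unitInterval) i e s ⟨j, h⟩ else 0) =
    if j < (i : ℕ) then (if h : j < d then s ⟨j, h⟩ else 0) else if j = (i : ℕ) then e else
      (if h : j - 1 < d then s ⟨j - 1, h⟩ else 0)
  by_cases h1 : j < (i : ℕ)
  · rw [if_pos h1, dif_pos (by omega), dif_pos (by omega)]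
    have : (⟨j, by omega⟩ : Fin (d + 1)) = i.succAbove ⟨j, by omega⟩ := by
      rw [Fin.succAbove_of_castSucc_lt]
      · rfl
      · exact h1
    rw [this, Fin.insertNth_apply_succAbove]
  · by_cases h2 : j = (i : ℕ)
    · rw [if_neg h1, if_pos h2, dif_pos (by omega)]
      have : (⟨j, by omega⟩ : Fin (d + 1)) = i := Fin.ext h2
      rw [this, Fin.insertNth_apply_same]
    · rw [if_neg h1, if_neg h2]
      by_cases h3 : j < d + 1
      · rw [dif_pos h3, dif_pos (by omega)]
        have : (⟨j, h3⟩ : Fin (d + 1)) = i.succAbove ⟨j - 1, by omega⟩ := by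
          rw [Fin.succAbove_of_le_castSucc]
          · apply Fin.ext
            change j = j - 1 + 1
            omega
          · change (i : ℕ) ≤ j - 1
            omega
        rw [this, Fin.insertNth_apply_succAbove]
      · rw [dif_neg h3, dif_neg (by omega)]

/-- restriction to `d`-dimensional cubes, followed by a map -/
noncomputable def res {X : Type*} (d : ℕ) (f : Y → X) (z : C(Q, Y) →₀ G) : Cube X d →₀ G :=
  z.mapDomain fun c s => f (c (ext d s))

theorem res_add {X : Type*} (d : ℕ) (f : Y → X) (z z' : C(Q, Y) →₀ G) :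
    res d f (z + z') = res d f z + res d f z' := Finsupp.mapDomain_add

theorem res_sub {X : Type*} (d : ℕ) (f : Y → X) (z z' : C(Q, Y) →₀ G) :
    res d f (z - z') = res d f z - res d f z' :=
  map_sub (Finsupp.mapDomain.addMonoidHom (M := G) fun (c : C(Q, Y)) (s : Fin d → unitInterval) =>
    f (c (ext d s))) z z'

theorem res_single {X : Type*} (d : ℕ) (f : Y → X) (c : C(Q, Y)) (r : G) :
    res d f (Finsupp.single c r) = Finsupp.single (fun s => f (c (ext d s))) r :=
  Finsupp.mapDomain_single

theorem bdry_res {X : Type*} (d : ℕ) (f : Y → X) (z : C(Q, Y) →₀ G) :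
    bdry X G d (res (d + 1) f z) = res d f (bdN G (d + 1) z) := by
  induction z using Finsupp.induction_linear with
  | zero => simp [res]
  | add a b ha hb => rw [res_add, map_add, ha, hb, map_add, res_add]
  | single c r =>
    rw [res_single, bdN_single]
    unfold bdry
    rw [Finsupp.linearCombination_single]
    unfold res
    rw [Finsupp.mapDomain_smul, Finsupp.mapDomain_finsetSum]
    congr 1
    rw [Finset.sum_range]
    refine Finset.sum_congr rfl fun i _ => ?_
    rw [Finsupp.mapDomain_smul]
    congr 1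
    have h := res_sub d f (Finsupp.single (faceN i 1 c) (1 : G)) (Finsupp.single (faceN i 0 c) 1)
    unfold res at h
    rw [h, Finsupp.mapDomain_single, Finsupp.mapDomain_single]
    have h2 : ∀ e : unitInterval, (fun s : Fin d → unitInterval =>
        f (c (ext (d + 1) (Fin.insertNth (α := fun _ => unitInterval) i e s)))) =
        fun s => f ((faceN i e c) (ext d s)) := by
      intro e
      funext s
      rw [ext_insertNth]
      rfl
    rw [← h2, ← h2]

theorem res_mem_chains {X : Type*} [TopologicalSpace X] (d : ℕ) (f : Y → X) (hf : Continuous f)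
    (S : Set X) (hS : ∀ y, f y ∈ S) (z : C(Q, Y) →₀ G) : res d f z ∈ chains X G S d := by
  induction z using Finsupp.induction_linear with
  | zero => unfold res; rw [Finsupp.mapDomain_zero]; exact Submodule.zero_mem _
  | add a b ha hb => rw [res_add]; exact Submodule.add_mem _ ha hb
  | single c r =>
    rw [res_single]
    exact Finsupp.single_mem_supported G r
      ⟨hf.comp (c.continuous.comp (continuous_ext d)), fun s => hS _⟩

theorem res_mem_degen {X : Type*} [TopologicalSpace X] (d : ℕ) (f : Y → X) (hf : Continuous f)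
    (S : Set X) (hS : ∀ y, f y ∈ S) (z : C(Q, Y) →₀ G) (hz : z ∈ degN G d) :
    res d f z ∈ degen X G S d := by
  refine degN_induction (p := fun z => res d f z ∈ degen X G S d) ?_ ?_ ?_ z hz
  · unfold res; rw [Finsupp.mapDomain_zero]; exact Submodule.zero_mem _
  · intro a b ha hb
    rw [res_add]; exact Submodule.add_mem _ ha hb
  · rintro c ⟨i, hi, hc⟩ r
    rw [res_single]
    refine Finsupp.single_mem_supported G r
      ⟨⟨hf.comp (c.continuous.comp (continuous_ext d)), fun s => hS _⟩, ⟨i, hi⟩, fun s s' hs => ?_⟩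
    change f (c (ext d s)) = f (c (ext d s'))
    congr 1
    refine hc _ _ fun j hj => ?_
    unfold ext
    split_ifs with h
    · exact hs _ fun hh => hj (congrArg Fin.val hh)
    · rfl

theorem res_mem_cycles {X : Type*} [TopologicalSpace X] (d : ℕ) (f : Y → X) (hf : Continuous f)
    (S : Set X) (hS : ∀ y, f y ∈ S) (z : C(Q, Y) →₀ G) (hz : bdN G d z ∈ degN G (d - 1)) :
    res d f z ∈ cycles X G S d := by
  cases d with
  | zero => exact res_mem_chains 0 f hf S hS z
  | succ d =>
    refine ⟨res_mem_chains (d + 1) f hf S hS z, ?_⟩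
    change bdry X G d (res (d + 1) f z) ∈ degen X G S d
    rw [bdry_res]
    exact res_mem_degen d f hf S hS _ hz

/-- the push forward of the cross power is a cycle -/
theorem res_pw_mem_cycles [Nonempty Y] {X : Type*} [TopologicalSpace X] (q m : ℕ) (hq : 0 < q)
    (f : (ℕ → Y) → X) (hf : Continuous f) (S : Set X) (hS : ∀ y, f y ∈ S) (z : C(Q, Y) →₀ G)
    (hz : bdN G q z ∈ degN G (q - 1)) : res (q * m) f (pw q m z) ∈ cycles X G S (q * m) :=
  res_mem_cycles (q * m) f hf S hS _ (bdN_pw q m z hq hz)

end

end Pool.Agent.Helper76.Freq
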