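import Pool.Agent.Helper76.Freq.Coch

/-!
# Evaluation of cochains on grids in cubes
-/

set_option autoImplicit false

namespace Pool.Agent.Helper76.Freq

open Finset

variable {R : Type*} [CommRing R]

/-- evaluation of a cochain of degree `d` on the grid of a `d`-dimensional cube -/
noncomputable def ev : (d : ℕ) → {Y : Type} → (ℕ → ℕ) → ((ℕ → Y) → R) → (Q → Y) → R
  | 0, _, _, Φ, c => Φ (fun _ => c (fun _ => 0))
  | d + 1, _, Ms, Φ, c => ∑ j ∈ range (Ms 0), ev d (fun i => Ms (i + 1)) (Pr (d + 1) Φ)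
      (fun x => (c (ins 0 (gr (Ms 0) j) x), c (ins 0 (gr (Ms 0) (j + 1)) x)))

section linear

variable {Y Y' : Type} {d : ℕ} {Ms : ℕ → ℕ}

theorem ev_zero (c : Q → Y) : ev d Ms (fun _ => (0 : R)) c = 0 := by
  induction d generalizing Y Ms with
  | zero => rfl
  | succ d ih =>
    simp only [ev]
    refine sum_eq_zero fun j _ => ?_
    have : Pr (d + 1) (fun _ : ℕ → Y => (0 : R)) = fun _ => 0 := by
      funext z; simp [Pr]
    rw [this, ih]

theorem ev_add (Φ Ψ : (ℕ → Y) → R) (c : Q → Y) :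
    ev d Ms (fun y => Φ y + Ψ y) c = ev d Ms Φ c + ev d Ms Ψ c := by
  induction d generalizing Y Ms with
  | zero => rfl
  | succ d ih =>
    simp only [ev]
    rw [← sum_add_distrib]
    refine sum_congr rfl fun j _ => ?_
    have : Pr (d + 1) (fun y => Φ y + Ψ y) = fun z => Pr (d + 1) Φ z + Pr (d + 1) Ψ z := by
      funext z; simp only [Pr, mul_add, sum_add_distrib]
    rw [this, ih]

theorem ev_mul (r : R) (Φ : (ℕ → Y) → R) (c : Q → Y) :
    ev d Ms (fun y => r * Φ y) c = r * ev d Ms Φ c := by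
  induction d generalizing Y Ms with
  | zero => rfl
  | succ d ih =>
    simp only [ev]
    rw [mul_sum]
    refine sum_congr rfl fun j _ => ?_
    have : Pr (d + 1) (fun y => r * Φ y) = fun z => r * Pr (d + 1) Φ z := by
      funext z
      simp only [Pr, mul_sum]
      exact sum_congr rfl fun i _ => by ring
    rw [this, ih]

theorem ev_neg (Φ : (ℕ → Y) → R) (c : Q → Y) :
    ev d Ms (fun y => - Φ y) c = - ev d Ms Φ c := by
  have := ev_mul (d := d) (Ms := Ms) (-1 : R) Φ c
  simpa using this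

theorem ev_sub (Φ Ψ : (ℕ → Y) → R) (c : Q → Y) :
    ev d Ms (fun y => Φ y - Ψ y) c = ev d Ms Φ c - ev d Ms Ψ c := by
  have h := ev_add (d := d) (Ms := Ms) Φ (fun y => - Ψ y) c
  rw [ev_neg] at h
  simp only [sub_eq_add_neg]
  exact h

theorem ev_sum {ι : Type*} (s : Finset ι) (Φ : ι → (ℕ → Y) → R) (c : Q → Y) :
    ev d Ms (fun y => ∑ i ∈ s, Φ i y) c = ∑ i ∈ s, ev d Ms (Φ i) c := by
  classical
  induction s using Finset.induction_on with
  | empty => simp [ev_zero]
  | insert a s ha ih =>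
    simp only [sum_insert ha]
    rw [ev_add, ih]

theorem mix_map (f : Y → Y') (i : ℕ) (z : ℕ → Y × Y) :
    (fun j => f (mix i z j)) = mix i (fun j => (f (z j).1, f (z j).2)) := by
  funext j
  simp only [mix]
  split <;> rfl

theorem pr_pull (f : Y → Y') (n : ℕ) (Φ : (ℕ → Y') → R) (z : ℕ → Y × Y) :
    Pr n (fun y : ℕ → Y => Φ (fun j => f (y j))) z =
      Pr n Φ (fun j => (f (z j).1, f (z j).2)) := by
  simp only [Pr]
  refine sum_congr rfl fun i _ => ?_
  rw [← mix_map]

theorem ev_pull (f : Y → Y') (Φ : (ℕ → Y') → R) (c : Q → Y) :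
    ev d Ms (fun y => Φ (fun j => f (y j))) c = ev d Ms Φ (fun x => f (c x)) := by
  induction d generalizing Y Y' Ms with
  | zero => rfl
  | succ d ih =>
    simp only [ev]
    refine sum_congr rfl fun j _ => ?_
    have : Pr (d + 1) (fun y => Φ (fun j => f (y j))) =
        fun z => Pr (d + 1) Φ (fun j => (fun w : Y × Y => (f w.1, f w.2)) (z j)) := by
      funext z; exact pr_pull f _ Φ z
    rw [this, ih (fun w : Y × Y => (f w.1, f w.2)) (Pr (d + 1) Φ)]

end linear

section path

variable {Y : Type}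

/-- the `j`-th vertex of a simplex of the grid: `k` is the cell, coordinate `l` moves in
step `pos l` -/
noncomputable def gp (d : ℕ) (Ms k pos : ℕ → ℕ) (j : ℕ) : Q :=
  fun l => if l < d then gr (Ms l) (k l + if pos l < j then 1 else 0) else 0

/-- admissible cells and orders -/
structure Adm (d : ℕ) (Ms k pos : ℕ → ℕ) : Prop where
  cell : ∀ l < d, k l < Ms l
  lt : ∀ l < d, pos l < d
  inj : ∀ l < d, ∀ l' < d, pos l = pos l' → l = l'

/-- the order of the steps with the new coordinate at place `i` -/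
def consP (i : ℕ) (pos : ℕ → ℕ) : ℕ → ℕ
  | 0 => i
  | l + 1 => pos l + if i ≤ pos l then 1 else 0

/-- the new cell -/
def consK (j : ℕ) (k : ℕ → ℕ) : ℕ → ℕ
  | 0 => j
  | l + 1 => k l

/-- the sign of an order -/
def sg : ℕ → (ℕ → ℕ) → R
  | 0, _ => 1
  | d + 1, pos => (-1) ^ (pos 0) *
      sg d (fun l => if pos 0 < pos (l + 1) then pos (l + 1) - 1 else pos (l + 1))

theorem sg_consP (d i : ℕ) (pos : ℕ → ℕ) :
    (sg (d + 1) (consP i pos) : R) = (-1) ^ i * sg d pos := by
  simp only [sg, consP]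
  congr 2
  funext l
  split_ifs <;> omega

theorem Adm.cons {d : ℕ} {Ms k pos : ℕ → ℕ} (h : Adm d (fun i => Ms (i + 1)) k pos) {i j : ℕ}
    (hi : i < d + 1) (hj : j < Ms 0) : Adm (d + 1) Ms (consK j k) (consP i pos) where
  cell := by
    rintro (_ | l) hl
    · exact hj
    · exact h.cell l (by omega)
  lt := by
    rintro (_ | l) hl
    · exact hi
    · have := h.lt l (by omega)
      simp only [consP]
      split_ifs <;> omega
  inj := by
    rintro (_ | l) hl (_ | l') hl' he
    · rfl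
    · simp only [consP] at he
      split_ifs at he <;> omega
    · simp only [consP] at he
      split_ifs at he <;> omega
    · simp only [consP] at he
      have := h.inj l (by omega) l' (by omega) (by split_ifs at he <;> omega)
      rw [this]

theorem mix_gp (d : ℕ) (Ms k pos : ℕ → ℕ) (i j₀ : ℕ) (c : Q → Y) :
    mix i (fun j => (c (ins 0 (gr (Ms 0) j₀) (gp d (fun i => Ms (i + 1)) k pos j)),
      c (ins 0 (gr (Ms 0) (j₀ + 1)) (gp d (fun i => Ms (i + 1)) k pos j)))) =
    fun j => c (gp (d + 1) Ms (consK j₀ k) (consP i pos) j) := by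
  funext j
  simp only [mix]
  split_ifs with h
  · congr 1
    funext l
    rcases l with _ | l
    · have : ¬ (i < j) := by omega
      simp [ins, gp, consP, consK, this]
    · simp only [ins, gp, consP, consK, Nat.not_lt_zero, if_false, Nat.succ_ne_zero,
        Nat.add_sub_cancel, Nat.add_lt_add_iff_right]
      split_ifs <;> first | rfl | (exfalso; omega)
  · congr 1
    funext l
    rcases l with _ | l
    · have : i < j := by omega
      simp [ins, gp, consP, consK, this]
    · simp only [ins, gp, consP, consK, Nat.not_lt_zero, if_false, Nat.succ_ne_zero,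
        Nat.add_sub_cancel, Nat.add_lt_add_iff_right]
      split_ifs <;> first | rfl | (exfalso; omega)

/-- if the evaluation is not zero then the cochain does not vanish on some simplex of the grid -/
theorem exists_path {d : ℕ} {Ms : ℕ → ℕ} {Φ : (ℕ → Y) → R} {c : Q → Y} (h : ev d Ms Φ c ≠ 0) :
    ∃ k pos, Adm d Ms k pos ∧ Φ (fun j => c (gp d Ms k pos j)) ≠ 0 := by
  induction d generalizing Y Ms with
  | zero =>
    refine ⟨fun _ => 0, fun _ => 0, ⟨by simp, by simp, by simp⟩, ?_⟩
    have : (fun j => c (gp 0 Ms (fun _ => 0) (fun _ => 0) j)) = fun _ => c (fun _ => 0) := by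
      funext j; congr 1
    rw [this]
    exact h
  | succ d ih =>
    simp only [ev] at h
    obtain ⟨j₀, hj₀, h1⟩ := exists_ne_zero_of_sum_ne_zero h
    obtain ⟨k, pos, hadm, h2⟩ := ih h1
    simp only [Pr] at h2
    obtain ⟨i, hi, h3⟩ := exists_ne_zero_of_sum_ne_zero h2
    refine ⟨consK j₀ k, consP i pos, hadm.cons (mem_range.1 hi) (mem_range.1 hj₀), ?_⟩
    rw [← mix_gp]
    exact right_ne_zero_of_mul h3

theorem ev_eq_zero {d : ℕ} {Ms : ℕ → ℕ} {Φ : (ℕ → Y) → R} {c : Q → Y}
    (h : ∀ k pos, Adm d Ms k pos → Φ (fun j => c (gp d Ms k pos j)) = 0) : ev d Ms Φ c = 0 := by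
  by_contra h1
  obtain ⟨k, pos, h2, h3⟩ := exists_path h1
  exact h3 (h k pos h2)

theorem ev_congr {d : ℕ} {Ms : ℕ → ℕ} {Φ Ψ : (ℕ → Y) → R} {c : Q → Y}
    (h : ∀ k pos, Adm d Ms k pos →
      Φ (fun j => c (gp d Ms k pos j)) = Ψ (fun j => c (gp d Ms k pos j))) :
    ev d Ms Φ c = ev d Ms Ψ c := by
  rw [← sub_eq_zero, ← ev_sub]
  exact ev_eq_zero fun k pos hk => by rw [h k pos hk, sub_self]

theorem ev_id (d : ℕ) (Ms : ℕ → ℕ) (Φ : (ℕ → Y) → R) (c : Q → Y) :
    ev d Ms Φ c = ev d Ms (fun y : ℕ → Q => Φ (fun j => c (y j))) (fun x => x) :=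
  (ev_pull c Φ fun x => x).symm

/-- only the points with vanishing coordinates `l ≥ d` matter -/
theorem ev_congr_cube {d : ℕ} {Ms : ℕ → ℕ} {Φ : (ℕ → Y) → R} {c c' : Q → Y}
    (h : ∀ x : Q, (∀ l, d ≤ l → x l = 0) → c x = c' x) : ev d Ms Φ c = ev d Ms Φ c' := by
  rw [ev_id d Ms Φ c, ev_id d Ms Φ c']
  refine ev_congr fun k pos _ => ?_
  congr 1
  funext j
  apply h
  intro l hl
  simp [gp, not_lt.2 hl]

/-- pull back to `Q` of a cochain, on the image of a cube -/
theorem ev_congr_image {d : ℕ} {Ms : ℕ → ℕ} {Φ Ψ : (ℕ → Y) → R} {c : Q → Y}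
    (h : ∀ x : ℕ → Q, Φ (fun j => c (x j)) = Ψ (fun j => c (x j))) :
    ev d Ms Φ c = ev d Ms Ψ c :=
  ev_congr fun _ _ _ => h _

/-- normalised cochains vanish on degenerate cubes -/
theorem ev_degenerate {d : ℕ} {Ms : ℕ → ℕ} {Φ : (ℕ → Y) → R} {c : Q → Y} (hΦ : Nrm d Φ) {i : ℕ}
    (hi : i < d) (hc : ∀ x x' : Q, (∀ j, j ≠ i → x j = x' j) → c x = c x') : ev d Ms Φ c = 0 := by
  refine ev_eq_zero fun k pos h => hΦ _ ⟨pos i, h.lt i hi, ?_⟩
  apply hc
  intro l hl
  simp only [gp]
  by_cases h1 : l < d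
  · have : pos l ≠ pos i := fun he => hl (h.inj l h1 i hi he)
    have h2 : (pos l < pos i) ↔ (pos l < pos i + 1) := by omega
    simp only [h1, if_true, h2]
  · simp [h1]

theorem ins_succ_ins_zero (i : ℕ) (e g : unitInterval) (x : Q) :
    ins (i + 1) e (ins 0 g x) = ins 0 g (ins i e x) := by
  funext l
  rcases l with _ | l
  · simp [ins]
  · simp only [ins, Nat.not_lt_zero, if_false, Nat.succ_ne_zero, Nat.add_sub_cancel]
    by_cases h1 : l < i
    · have h2 : l + 1 < i + 1 := by omega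
      simp [h1, h2]
    · by_cases h3 : l = i
      · subst h3; simp
      · have h2 : ¬ (l + 1 < i + 1) := by omega
        have h4 : ¬ (l + 1 = i + 1) := by omega
        have h5 : l ≠ 0 := by omega
        simp [h1, h3, h5]

/-- Stokes' formula -/
theorem stokes {d : ℕ} {Ms : ℕ → ℕ} (hM : ∀ i, 0 < Ms i) {Φ : (ℕ → Y) → R} (hΦ : Dep d Φ)
    (c : Q → Y) : ev (d + 1) Ms (cobd d Φ) c =
      ∑ i ∈ range (d + 1), (-1) ^ i *
        (ev d (fun l => Ms (sk i l)) Φ (fun x => c (ins i 1 x)) -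
          ev d (fun l => Ms (sk i l)) Φ (fun x => c (ins i 0 x))) := by
  induction d generalizing Y Ms with
  | zero =>
    rw [ev]
    simp only [ev, prism_zero hΦ]
    rw [sum_range_sub (fun j => Φ (fun _ => c (ins 0 (gr (Ms 0) j) fun _ => 0))), gr_zero,
      gr_self (hM 0)]
    simp
  | succ d ih =>
    rw [ev]
    have e1 : Pr (d + 2) (cobd (d + 1) Φ) = fun z =>
        (Φ (fun j => (z j).2) - Φ (fun j => (z j).1)) - cobd d (Pr (d + 1) Φ) z := by
      funext z
      rw [← prism_succ hΦ z]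
      ring
    have e2 : ∀ j, ev (d + 1) (fun i => Ms (i + 1)) (Pr (d + 2) (cobd (d + 1) Φ))
        (fun x => (c (ins 0 (gr (Ms 0) j) x), c (ins 0 (gr (Ms 0) (j + 1)) x))) =
        (ev (d + 1) (fun i => Ms (i + 1)) Φ (fun x => c (ins 0 (gr (Ms 0) (j + 1)) x)) -
          ev (d + 1) (fun i => Ms (i + 1)) Φ (fun x => c (ins 0 (gr (Ms 0) j) x))) -
        ∑ i ∈ range (d + 1), (-1) ^ i *
        (ev d (fun l => Ms (sk i l + 1)) (Pr (d + 1) Φ)
            (fun x => (c (ins 0 (gr (Ms 0) j) (ins i 1 x)),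
              c (ins 0 (gr (Ms 0) (j + 1)) (ins i 1 x)))) -
          ev d (fun l => Ms (sk i l + 1)) (Pr (d + 1) Φ)
            (fun x => (c (ins 0 (gr (Ms 0) j) (ins i 0 x)),
              c (ins 0 (gr (Ms 0) (j + 1)) (ins i 0 x))))) := by
      intro j
      rw [e1, ev_sub, ev_sub,
        ih (Ms := fun i => Ms (i + 1)) (fun i => hM _) hΦ.pr]
      congr 1
      congr 1
      · exact ev_pull (fun w : Y × Y => w.2) Φ _
      · exact ev_pull (fun w : Y × Y => w.1) Φ _
    rw [sum_congr rfl fun j _ => e2 j, sum_sub_distrib,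
      sum_range_sub (fun j => ev (d + 1) (fun i => Ms (i + 1)) Φ
        (fun x => c (ins 0 (gr (Ms 0) j) x))), gr_zero, gr_self (hM 0), sum_comm,
      sum_range_succ' _ (d + 1)]
    have e3 : ∀ i ∈ range (d + 1), ∀ e : unitInterval,
        ev (d + 1) (fun l => Ms (sk (i + 1) l)) Φ (fun x => c (ins (i + 1) e x)) =
        ∑ j ∈ range (Ms 0), ev d (fun l => Ms (sk i l + 1)) (Pr (d + 1) Φ)
            (fun x => (c (ins 0 (gr (Ms 0) j) (ins i e x)),
              c (ins 0 (gr (Ms 0) (j + 1)) (ins i e x)))) := by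
      intro i hi e
      rw [ev]
      have a0 : sk (i + 1) 0 = 0 := by simp [sk]
      have a1 : ∀ l, sk (i + 1) (l + 1) = sk i l + 1 := by
        intro l
        simp only [sk]
        split_ifs <;> omega
      simp only [a0, a1, ins_succ_ins_zero]
    have e4 : ∀ i ∈ range (d + 1), (-1 : R) ^ (i + 1) *
        (ev (d + 1) (fun l => Ms (sk (i + 1) l)) Φ (fun x => c (ins (i + 1) 1 x)) -
          ev (d + 1) (fun l => Ms (sk (i + 1) l)) Φ (fun x => c (ins (i + 1) 0 x))) =
        - ∑ j ∈ range (Ms 0), (-1) ^ i *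
        (ev d (fun l => Ms (sk i l + 1)) (Pr (d + 1) Φ)
            (fun x => (c (ins 0 (gr (Ms 0) j) (ins i 1 x)),
              c (ins 0 (gr (Ms 0) (j + 1)) (ins i 1 x)))) -
          ev d (fun l => Ms (sk i l + 1)) (Pr (d + 1) Φ)
            (fun x => (c (ins 0 (gr (Ms 0) j) (ins i 0 x)),
              c (ins 0 (gr (Ms 0) (j + 1)) (ins i 0 x))))) := by
      intro i hi
      rw [e3 i hi, e3 i hi, ← mul_sum, sum_sub_distrib]
      ring
    rw [sum_congr rfl e4, sum_neg_distrib]
    have a0 : ∀ l, sk 0 l = l + 1 := fun l => sk_of_le (Nat.zero_le _)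
    simp only [a0, pow_zero, one_mul]
    ring

/-- Stokes for closed cochains and constant grids -/
theorem stokes_closed {d M : ℕ} (hM : 0 < M) {Φ : (ℕ → Y) → R} (hΦ : Dep d Φ) (c : Q → Y)
    (h : ∀ k pos, Adm (d + 1) (fun _ => M) k pos →
      cobd d Φ (fun j => c (gp (d + 1) (fun _ => M) k pos j)) = 0) :
    ∑ i ∈ range (d + 1), (-1) ^ i *
        (ev d (fun _ => M) Φ (fun x => c (ins i 1 x)) -
          ev d (fun _ => M) Φ (fun x => c (ins i 0 x))) = 0 := by
  rw [← stokes (Ms := fun _ => M) (fun _ => hM) hΦ c]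
  exact ev_eq_zero h

end path

section positivity

variable {Y : Type}

/-- positivity -/
theorem ev_nonneg {Φ : (ℕ → Y) → ℚ} {d : ℕ} {Ms : ℕ → ℕ} {c : Q → Y}
    (h : ∀ k pos, Adm d Ms k pos → 0 ≤ sg d pos * Φ (fun j => c (gp d Ms k pos j))) :
    0 ≤ ev d Ms Φ c := by
  induction d generalizing Y Ms with
  | zero =>
    have := h (fun _ => 0) (fun _ => 0) ⟨by simp, by simp, by simp⟩
    have e : (fun j => c (gp 0 Ms (fun _ => 0) (fun _ => 0) j)) = fun _ => c (fun _ => 0) := by
      funext j; congr 1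
    rw [e] at this
    simpa [sg, ev] using this
  | succ d ih =>
    rw [ev]
    refine sum_nonneg fun j hj => ih fun k pos hadm => ?_
    simp only [Pr, mul_sum]
    refine sum_nonneg fun i hi => ?_
    have := h _ _ (hadm.cons (mem_range.1 hi) (mem_range.1 hj))
    rw [sg_consP, ← mix_gp] at this
    calc (0 : ℚ) ≤ _ := this
      _ = _ := by ring

theorem ev_pos {Φ : (ℕ → Y) → ℚ} {d : ℕ} {Ms : ℕ → ℕ} {c : Q → Y}
    (h : ∀ k pos, Adm d Ms k pos → 0 ≤ sg d pos * Φ (fun j => c (gp d Ms k pos j)))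
    (k : ℕ → ℕ) (hk : ∀ l < d, k l < Ms l) (hpos : 0 < Φ (fun j => c (gp d Ms k id j))) :
    0 < ev d Ms Φ c := by
  induction d generalizing Y Ms k with
  | zero =>
    have e : (fun j => c (gp 0 Ms k id j)) = fun _ => c (fun _ => 0) := by
      funext j; congr 1
    rw [e] at hpos
    exact hpos
  | succ d ih =>
    rw [ev]
    have h1 : ∀ j ∈ range (Ms 0), ∀ k pos, Adm d (fun i => Ms (i + 1)) k pos →
        0 ≤ sg d pos * Pr (d + 1) Φ (fun j' =>
          (fun x => (c (ins 0 (gr (Ms 0) j) x), c (ins 0 (gr (Ms 0) (j + 1)) x)))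
            (gp d (fun i => Ms (i + 1)) k pos j')) := by
      intro j hj k pos hadm
      simp only [Pr, mul_sum]
      refine sum_nonneg fun i hi => ?_
      have := h _ _ (hadm.cons (mem_range.1 hi) (mem_range.1 hj))
      rw [sg_consP, ← mix_gp] at this
      calc (0 : ℚ) ≤ _ := this
        _ = _ := by ring
    refine sum_pos' (fun j hj => ev_nonneg (h1 j hj)) ⟨k 0, mem_range.2 (hk 0 (by omega)), ?_⟩
    refine ih (h1 (k 0) (mem_range.2 (hk 0 (by omega)))) (fun l => k (l + 1))
      (fun l hl => hk (l + 1) (by omega)) ?_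
    simp only [Pr]
    have hadm : Adm d (fun i => Ms (i + 1)) (fun l => k (l + 1)) id :=
      ⟨fun l hl => hk (l + 1) (by omega), fun l hl => hl, fun l _ l' _ h => h⟩
    have hge : ∀ i ∈ range (d + 1), 0 ≤ (-1 : ℚ) ^ i * Φ (mix i fun j' =>
          (c (ins 0 (gr (Ms 0) (k 0)) (gp d (fun i => Ms (i + 1)) (fun l => k (l + 1)) id j')),
            c (ins 0 (gr (Ms 0) (k 0 + 1)) (gp d (fun i => Ms (i + 1)) (fun l => k (l + 1)) id j')))) := by
      intro i hi
      have := h _ _ (hadm.cons (mem_range.1 hi) (hk 0 (by omega)))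
      rw [sg_consP, ← mix_gp] at this
      have hs : (sg d id : ℚ) = 1 := by
        clear * -
        induction d with
        | zero => rfl
        | succ d ih =>
          simp only [sg, id]
          have : (fun l => if 0 < l + 1 then l + 1 - 1 else l + 1) = (id : ℕ → ℕ) := by
            funext l; simp
          rw [this, ih]
          simp
      rw [hs] at this
      calc (0 : ℚ) ≤ _ := this
        _ = _ := by ring
    refine sum_pos' hge ⟨0, by simp, ?_⟩
    rw [pow_zero, one_mul, mix_gp]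
    have e1 : ∀ j, c (gp (d + 1) Ms (consK (k 0) fun l => k (l + 1)) (consP 0 id) j) =
        c (gp (d + 1) Ms k id j) := by
      intro j
      congr 1
      funext l
      rcases l with _ | l
      · simp only [gp, consK, consP, id]
        rfl
      · simp only [gp, consK, consP, id, Nat.zero_le, if_true]
    simp only [e1]
    exact hpos

end positivity

end Pool.Agent.Helper76.Freq
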