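import Pool.Agent.Helper76.Freq.Defs
import Pool.Agent.Helper76.Freq.Ev
import Pool.Agent.Helper76.Freq.Chain

/-!
# The letters, and the explicit cubes
-/

set_option autoImplicit false

namespace Pool.Agent.Helper76.Freq

open scoped RealInnerProductSpace Classical
open Finset

/-- difference cochain of a function -/
def dC {R : Type*} [CommRing R] {Y : Type} (f : Y → R) (y : ℕ → Y) : R := f (y 1) - f (y 0)

section general

variable (R : Type*) [CommRing R]

/-- indicator of `HH > h` -/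
noncomputable def hi (h : ℝ) (v : E6) : R := if h < HH v then 1 else 0

/-- indicator of `HH < h` -/
noncomputable def lo (h : ℝ) (v : E6) : R := if HH v < h then 1 else 0

/-- indicator of `v 5 > 0` -/
noncomputable def s5 (v : E6) : R := if 0 < v 5 then 1 else 0

/-- indicator of `v 6 > 0` -/
noncomputable def s6 (v : E6) : R := if 0 < v 6 then 1 else 0

end general

/-- small sequences of unit vectors -/
def Sm (δ : ℝ) (v : ℕ → E6) : Prop := (∀ i, ‖v i‖ = 1) ∧ ∀ i j, ‖v i - v j‖ < δ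

/-! ## letters with coefficients in `ZMod 2` -/

/-- a top vector with non-negative coordinate `0` -/
noncomputable def top0 (v : E6) : R3 := Classical.epsilon fun a => IsTop v a ∧ 0 ≤ a 0

/-- a bottom vector with non-negative coordinate `0` -/
noncomputable def bot0 (v : E6) : R3 := Classical.epsilon fun a => IsBot v a ∧ 0 ≤ a 0

/-- a bottom vector with non-negative coordinate `1` -/
noncomputable def bot1 (v : E6) : R3 := Classical.epsilon fun a => IsBot v a ∧ 0 ≤ a 1

/-- the sign cochain of a choice of vectors -/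
noncomputable def xi (f : E6 → R3) (v : ℕ → E6) : ZMod 2 := if ⟪f (v 0), f (v 1)⟫ < 0 then 1 else 0

/-- letter of degree 3 at the level `h` -/
noncomputable def A2 (h : ℝ) : (ℕ → E6) → ZMod 2 :=
  cup 1 (dC (hi (ZMod 2) h)) (cup 1 (dC (s5 (ZMod 2))) (xi top0))

/-- letter of degree 4 at the level `h` -/
noncomputable def B2 (h : ℝ) : (ℕ → E6) → ZMod 2 :=
  cup 1 (dC (lo (ZMod 2) h)) (cup 1 (xi bot0) (cup 1 (xi bot1) (dC (s6 (ZMod 2)))))

/-- letter of degree 6 at the level `h` -/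
noncomputable def w2 (h : ℝ) : (ℕ → E6) → ZMod 2 :=
  cup 1 (dC (s5 (ZMod 2))) (cup 1 (xi top0) (B2 h))

/-- a cochain of degree 2 with coboundary `A2 h` -/
noncomputable def al2 (h : ℝ) (v : ℕ → E6) : ZMod 2 :=
  hi (ZMod 2) h (v 0) * cup 1 (dC (s5 (ZMod 2))) (xi top0) v

/-! ## letters with rational coefficients -/

/-- some top vector -/
noncomputable def topv (v : E6) : R3 := Classical.epsilon fun a => IsTop v a

/-- some bottom vector -/
noncomputable def botv (v : E6) : R3 := Classical.epsilon fun a => IsBot v a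

noncomputable def g1 (v : E6) : ℚ := if 0 < botv v 0 * botv v 2 then 1 else 0
noncomputable def g2 (v : E6) : ℚ := if 0 < botv v 1 * botv v 2 then 1 else 0
noncomputable def g3 (v : E6) : ℚ := if 0 < topv v 0 * topv v 1 then 1 else 0

/-- indicator of the region `N` -/
noncomputable def indN (v : E6) : ℚ := if 1 / 2 < botv v 2 ^ 2 ∧ 1 / 2 < topv v 1 ^ 2 then 1 else 0

/-- letter of degree 6 at the level `h` -/
noncomputable def wQ (h : ℝ) (v : ℕ → E6) : ℚ :=
  indN (v 0) * cup 1 (dC (hi ℚ h)) (cup 1 (dC (s5 ℚ)) (cup 1 (dC (s6 ℚ))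
    (cup 1 (dC g1) (cup 1 (dC g2) (dC g3))))) v

/-! ## paths -/

/-- the path with `V` edges and vertices `P 0, …, P V`, with time parameter in `[0,1]` -/
noncomputable def pathPt {n : ℕ} (V : ℕ) (P : ℕ → E n) (t : ℝ) : E n :=
  nrm (seg (P (min ⌊V * t⌋₊ (V - 1))) (P (min ⌊V * t⌋₊ (V - 1) + 1))
    (V * t - (min ⌊V * t⌋₊ (V - 1) : ℕ)))

/-- the edges avoid the origin -/
def ValidPath {n : ℕ} (V : ℕ) (P : ℕ → E n) : Prop :=
  0 < V ∧ ∀ i < V, ∀ x ∈ Set.Icc (0 : ℝ) 1, seg (P i) (P (i + 1)) x ≠ 0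

/-! ## frames -/

/-- the first vector of the frame (spherical coordinates) -/
noncomputable def fB (r φ : ℝ) : R3 := !₂[Real.cos r, Real.sin r * Real.sin φ, -(Real.sin r * Real.cos φ)]

/-- the second vector of the frame -/
noncomputable def fA (r φ δ : ℝ) : R3 :=
  !₂[Real.sin r * Real.sin δ, Real.cos φ * Real.cos δ - Real.cos r * Real.sin φ * Real.sin δ,
    Real.sin φ * Real.cos δ + Real.cos r * Real.cos φ * Real.sin δ]

/-! ## the cube for `ZMod 2` -/

/-- the chart -/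
noncomputable def Ph (y : ℕ → ℝ) (σ : ℝ) : E6 :=
  pt (1 / 2 - y 1 / 4) (fA (Real.pi / 2 + y 2 / 10) (y 3 / 10) (y 0 / 10)) (1 / 2 + y 1 / 4)
    (fB (Real.pi / 2 + y 2 / 10) (y 3 / 10)) (σ / 10) (y 4 / 10)

/-- the centre of the chart -/
noncomputable def q0 : E6 := Ph (fun _ => 0) 0

/-- clamped coordinates: `[1/3, 2/3] → [-1, 1]` -/
noncomputable def cl (x : Q) (i : ℕ) : ℝ := max (-1) (min 1 (6 * (x i : ℝ) - 3))

/-- scaling function: `1` on the inner cube, `0` on the boundary (first 5 coordinates) -/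
noncomputable def rho (x : Q) : ℝ :=
  min 1 (3 * (range 5).inf' (by simp) fun i => min (x i : ℝ) (1 - x i))

/-- vertices of the triangle -/
noncomputable def uV (x : Q) : ℕ → E6
  | 1 => rho x • Ph (cl x) (-1) - (1 - rho x) • q0
  | 2 => rho x • Ph (cl x) 1 - (1 - rho x) • q0
  | _ => - q0

/-! ## the cubes for `ℚ` -/

/-- parameters of the rational blocks -/
abbrev PQ : Type := {p : R3 × R3 × ℝ × ℝ // Ok p.1 p.2.1 p.2.2.1 p.2.2.2}

/-- vertices of the descending path -/
noncomputable def polD (p : PQ) : ℕ → E6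
  | 0 => v5
  | 1 => pt 1 p.1.1 0 p.1.1 0 0
  | 2 => vX p.1.1 p.1.2.2.1
  | 3 => vY p.1.2.1 p.1.2.2.2
  | 4 => pt 0 p.1.2.1 1 p.1.2.1 0 0
  | _ => v6

/-- the three kinds of blocks: `0` = descending, `1` = ascending, `2` = last one (descending
followed by the return edge) -/
noncomputable def polQ (κ : ℕ) (p : PQ) (i : ℕ) : E6 :=
  if κ = 0 then polD p i else if κ = 1 then polD p (6 - i) else if i = 6 then v5 else polD p i

/-- parametrisation of the boundary of the square -/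
noncomputable def sq (x : ℝ) : ℝ × ℝ :=
  (Real.cos (2 * Real.pi * x) / max |Real.cos (2 * Real.pi * x)| |Real.sin (2 * Real.pi * x)|,
    Real.sin (2 * Real.pi * x) / max |Real.cos (2 * Real.pi * x)| |Real.sin (2 * Real.pi * x)|)

/-- the main cube: `x 0 = λ`, `x 1 = ϑ`, `x 2 = r`, `x 3 = θ₁`, `x 4 = θ₂` -/
noncomputable def mCf (x : Q) : R3 × R3 × ℝ × ℝ :=
  (Real.cos (Real.pi / 2 * min 1 (2 - 2 * (x 0 : ℝ))) •
      fB (Real.pi * x 2) (2 * Real.pi * (x 3 + x 4)) +
    Real.sin (Real.pi / 2 * min 1 (2 - 2 * (x 0 : ℝ))) •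
      fA (Real.pi * x 2) (2 * Real.pi * (x 3 + x 4)) (2 * Real.pi * (x 3 - x 4)),
    fB (Real.pi * x 2) (2 * Real.pi * (x 3 + x 4)),
    min 1 (2 * (x 0 : ℝ)) * (sq (x 1)).1, min 1 (2 * (x 0 : ℝ)) * (sq (x 1)).2)

/-- the filler: `x 0 = u`, `x 1 = ϑ`, `x 2 = r`, `x 3 = θ₁`, `x 4 = θ₂` -/
noncomputable def kCf (x : Q) : R3 × R3 × ℝ × ℝ :=
  (fB (Real.pi * x 2) (2 * Real.pi * x 0 * (x 3 + x 4)),
    fB (Real.pi * x 2) (2 * Real.pi * x 0 * (x 3 + x 4)), (sq (x 1)).1, (sq (x 1)).2)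

end Pool.Agent.Helper76.Freq
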