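import Pool.Agent.Helper76.Freq.Ev
import Pool.Agent.Helper76.Freq.Letters

/-!
# Peeling of coordinates, insertion lemma
-/

set_option autoImplicit false

namespace Pool.Agent.Helper76.Freq

open Finset

variable {R : Type*} [CommRing R] {Y : Type}

theorem dep_dC (f : Y → R) : Dep 1 (dC f) := by
  intro y y' h
  simp only [dC]
  rw [h 0 (by omega), h 1 (by omega)]

theorem nrm_dC (f : Y → R) : Nrm 1 (dC f) := by
  rintro y ⟨j, hj, h⟩
  have : j = 0 := by omega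
  subst this
  simp only [dC]
  rw [h, sub_self]

theorem cobd_one (Φ : (ℕ → Y) → R) (y : ℕ → Y) : cobd 1 Φ y =
    Φ (fun j => y (sk 0 j)) - Φ (fun j => y (sk 1 j)) + Φ (fun j => y (sk 2 j)) := by
  simp only [cobd, sum_range_succ, sum_range_zero]
  ring

theorem cobd_dC (f : Y → R) (y : ℕ → Y) : cobd 1 (dC f) y = 0 := by
  rw [cobd_one]
  show (f (y 2) - f (y 1)) - (f (y 2) - f (y 0)) + (f (y 1) - f (y 0)) = 0
  ring

theorem mix_zero_one (z : ℕ → Y × Y) : mix 0 z 0 = (z 0).1 ∧ mix 0 z 1 = (z 0).2 := by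
  simp [mix]

theorem pr_dC (f : Y → R) (z : ℕ → Y × Y) : Pr 1 (dC f) z = f (z 0).2 - f (z 0).1 := by
  simp [Pr, dC, mix]

/-- prism operator on `dC f ∪ Ψ` -/
theorem pr_dC_cup (f : Y → R) (Ψ : (ℕ → Y) → R) (d : ℕ) (z : ℕ → Y × Y) :
    Pr (d + 1) (cup 1 (dC f) Ψ) z =
      (f (z 0).2 - f (z 0).1) * Ψ (fun j => (z j).2) -
        (f (z 1).1 - f (z 0).1) * Pr d Ψ (fun j => z (j + 1)) := by
  rw [add_comm d 1, pr_cup (dep_dC f), pr_dC]
  simp only [dC, pow_one]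
  ring

/-- Peel the first coordinate when `f` only depends on it. -/
theorem peel_own {d : ℕ} {Ms : ℕ → ℕ} (f : Y → R) (Ψ : (ℕ → Y) → R) (c : Q → Y)
    (g : unitInterval → R) (hg : ∀ x, f (c x) = g (x 0)) :
    ev (d + 1) Ms (cup 1 (dC f) Ψ) c =
      ∑ j ∈ range (Ms 0), (g (gr (Ms 0) (j + 1)) - g (gr (Ms 0) j)) *
        ev d (fun i => Ms (i + 1)) Ψ (fun x => c (ins 0 (gr (Ms 0) (j + 1)) x)) := by
  rw [ev]
  refine sum_congr rfl fun j _ => ?_
  rw [← ev_mul]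
  have h2 := ev_pull (d := d) (Ms := fun i => Ms (i + 1)) (fun w : Y × Y => w.2)
    (fun y => (g (gr (Ms 0) (j + 1)) - g (gr (Ms 0) j)) * Ψ y)
    (fun x => (c (ins 0 (gr (Ms 0) j) x), c (ins 0 (gr (Ms 0) (j + 1)) x)))
  rw [← h2]
  refine ev_congr_image fun x => ?_
  rw [pr_dC_cup]
  have e0 : ∀ (e : unitInterval) (x : Q), (ins 0 e x) 0 = e := fun e x => by simp [ins]
  simp only [hg, e0]
  ring

/-- Peel the first coordinate when `Ψ` does not depend on it and `f` is constant at both ends. -/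
theorem peel_free {S : Type} {d : ℕ} {Ms : ℕ → ℕ} (hM : 0 < Ms 0) (f : Y → R) (s : Y → S)
    (Ψ : (ℕ → S) → R) (hΨ : Nrm d Ψ) (c : Q → Y) (c' : Q → S)
    (hs : ∀ e x, s (c (ins 0 e x)) = c' x)
    (u₀ u₁ : R) (h0 : ∀ x, f (c (ins 0 0 x)) = u₀) (h1 : ∀ x, f (c (ins 0 1 x)) = u₁) :
    ev (d + 1) Ms (cup 1 (dC f) (fun y => Ψ (fun j => s (y j)))) c =
      (u₁ - u₀) * ev d (fun i => Ms (i + 1)) Ψ c' := by
  rw [ev]
  have h2 : ∀ j, ev d (fun i => Ms (i + 1))
      (Pr (d + 1) (cup 1 (dC f) (fun y : ℕ → Y => Ψ (fun j => s (y j)))))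
      (fun x => (c (ins 0 (gr (Ms 0) j) x), c (ins 0 (gr (Ms 0) (j + 1)) x))) =
      ev d (fun i => Ms (i + 1)) (fun y : ℕ → Q =>
        f (c (ins 0 (gr (Ms 0) (j + 1)) (y 0))) * Ψ (fun j => c' (y j))) (fun x => x) -
      ev d (fun i => Ms (i + 1)) (fun y : ℕ → Q =>
        f (c (ins 0 (gr (Ms 0) j) (y 0))) * Ψ (fun j => c' (y j))) (fun x => x) := by
    intro j
    rw [← ev_sub, ev_id]
    refine ev_congr_image fun x => ?_
    rw [pr_dC_cup]
    have e1 : Pr d (fun y : ℕ → Y => Ψ (fun j => s (y j)))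
        (fun j' => (c (ins 0 (gr (Ms 0) j) (x (j' + 1))), c (ins 0 (gr (Ms 0) (j + 1)) (x (j' + 1)))))
          = 0 := by
      simp only [Pr]
      refine sum_eq_zero fun i hi => ?_
      have hi' := mem_range.1 hi
      rw [hΨ _ ⟨i, hi', ?_⟩, mul_zero]
      simp [mix, hs]
    rw [e1]
    simp only [hs]
    ring
  rw [sum_congr rfl fun j _ => h2 j,
    sum_range_sub (fun j => ev d (fun i => Ms (i + 1)) (fun y : ℕ → Q =>
        f (c (ins 0 (gr (Ms 0) j) (y 0))) * Ψ (fun j => c' (y j))) (fun x => x)), gr_zero, gr_self hM]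
  simp only [h0, h1]
  rw [ev_mul, ev_mul, ← ev_id]
  ring

/-- insertion lemma -/
theorem ev_insert {Y₁ Y₂ : Type} {p q r : ℕ} {Ms : ℕ → ℕ} (ΦL ΦR : (ℕ → Y₂) → R)
    (Ψ : (ℕ → Y₁) → R) (hL : Dep p ΦL) (hL' : Nrm p ΦL) (hΨ : Dep q Ψ) (hR : Nrm r ΦR)
    (c₁ : Q → Y₁) (c₂ : Q → Y₂) :
    ev (q + (p + r)) Ms (cup p (fun y : ℕ → Y₁ × Y₂ => ΦL (fun j => (y j).2))
      (cup q (fun y => Ψ (fun j => (y j).1)) (fun y => ΦR (fun j => (y j).2))))
      (fun x => (c₁ (tr q x), c₂ (sh q x))) =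
    (-1) ^ (p * q) * (ev q Ms Ψ c₁ * ev (p + r) (fun i => Ms (i + q)) (cup p ΦL ΦR) c₂) := by
  induction q generalizing Y₁ Ms with
  | zero =>
    have e1 := ev_pull (d := p + r) (Ms := Ms) (fun y₂ : Y₂ => (c₁ (fun _ => 0), y₂))
      (cup p (fun y : ℕ → Y₁ × Y₂ => ΦL (fun j => (y j).2))
      (cup 0 (fun y => Ψ (fun j => (y j).1)) (fun y => ΦR (fun j => (y j).2)))) c₂
    have e2 : (fun x => (c₁ (tr 0 x), c₂ (sh 0 x))) = fun x => (c₁ (fun _ => 0), c₂ x) := by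
      funext x
      have t1 : tr 0 x = fun _ => 0 := by funext l; simp [tr]
      have t2 : sh 0 x = x := by funext l; simp [sh]
      rw [t1, t2]
    have e3 : (fun y : ℕ → Y₂ => cup p (fun y : ℕ → Y₁ × Y₂ => ΦL (fun j => (y j).2))
      (cup 0 (fun y => Ψ (fun j => (y j).1)) (fun y => ΦR (fun j => (y j).2)))
        (fun j => (c₁ (fun _ => 0), y j))) = fun y => Ψ (fun _ => c₁ (fun _ => 0)) * cup p ΦL ΦR y := by
      funext y
      simp only [cup, add_zero]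
      ring
    rw [zero_add, e2]
    rw [e3, ev_mul] at e1
    rw [← e1]
    simp [ev]
  | succ q ih =>
    rw [show q + 1 + (p + r) = (q + (p + r)) + 1 by ring, ev, ev]
    have key : ∀ j, ev (q + (p + r)) (fun i => Ms (i + 1))
        (Pr (q + (p + r) + 1) (cup p (fun y : ℕ → Y₁ × Y₂ => ΦL (fun j => (y j).2))
          (cup (q + 1) (fun y => Ψ (fun j => (y j).1)) (fun y => ΦR (fun j => (y j).2)))))
        (fun x => ((c₁ (tr (q + 1) (ins 0 (gr (Ms 0) j) x)), c₂ (sh (q + 1) (ins 0 (gr (Ms 0) j) x))),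
          (c₁ (tr (q + 1) (ins 0 (gr (Ms 0) (j + 1)) x)),
            c₂ (sh (q + 1) (ins 0 (gr (Ms 0) (j + 1)) x))))) =
        (-1) ^ (p * (q + 1)) * (ev q (fun i => Ms (i + 1)) (Pr (q + 1) Ψ)
          (fun x => (c₁ (ins 0 (gr (Ms 0) j) x), c₁ (ins 0 (gr (Ms 0) (j + 1)) x))) *
          ev (p + r) (fun i => Ms (i + (q + 1))) (cup p ΦL ΦR) c₂) := by
      intro j
      have f1 : (fun x => ((c₁ (tr (q + 1) (ins 0 (gr (Ms 0) j) x)),
            c₂ (sh (q + 1) (ins 0 (gr (Ms 0) j) x))),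
          (c₁ (tr (q + 1) (ins 0 (gr (Ms 0) (j + 1)) x)),
            c₂ (sh (q + 1) (ins 0 (gr (Ms 0) (j + 1)) x))))) =
          fun x => (fun w : (Y₁ × Y₁) × Y₂ => ((w.1.1, w.2), (w.1.2, w.2)))
            ((fun x => (c₁ (ins 0 (gr (Ms 0) j) x), c₁ (ins 0 (gr (Ms 0) (j + 1)) x))) (tr q x),
              c₂ (sh q x)) := by
        funext x
        have t1 : ∀ e, tr (q + 1) (ins 0 e x) = ins 0 e (tr q x) := by
          intro e
          funext l
          rcases l with _ | l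
          · simp [tr, ins]
          · simp [tr, ins]
        have t2 : ∀ e, sh (q + 1) (ins 0 e x) = sh q x := by
          intro e
          funext l
          simp [sh, ins, ← add_assoc]
        simp only [t1, t2]
      rw [f1, ← ev_pull (fun w : (Y₁ × Y₁) × Y₂ => ((w.1.1, w.2), (w.1.2, w.2)))]
      have f2 : (fun y : ℕ → (Y₁ × Y₁) × Y₂ =>
          Pr (q + (p + r) + 1) (cup p (fun y : ℕ → Y₁ × Y₂ => ΦL (fun j => (y j).2))
          (cup (q + 1) (fun y => Ψ (fun j => (y j).1)) (fun y => ΦR (fun j => (y j).2))))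
            (fun j => (((y j).1.1, (y j).2), ((y j).1.2, (y j).2)))) =
          fun y => (-1) ^ p * cup p (fun y : ℕ → (Y₁ × Y₁) × Y₂ => ΦL (fun j => (y j).2))
            (cup q (fun y => Pr (q + 1) Ψ (fun j => (y j).1)) (fun y => ΦR (fun j => (y j).2))) y := by
        funext y
        rw [show q + (p + r) + 1 = p + ((q + 1) + r) by ring,
          pr_cup (p := p) (q := (q + 1) + r) (Φ := fun y : ℕ → Y₁ × Y₂ => ΦL (fun j => (y j).2))
            (fun y y' h => hL _ _ fun j hj => by rw [h j hj]),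
          pr_cup (p := q + 1) (q := r) (Φ := fun y : ℕ → Y₁ × Y₂ => Ψ (fun j => (y j).1))
            (fun y y' h => hΨ _ _ fun j hj => by rw [h j hj])]
        have g1 : Pr p (fun y : ℕ → Y₁ × Y₂ => ΦL (fun j => (y j).2))
            (fun j => (((y j).1.1, (y j).2), ((y j).1.2, (y j).2))) = 0 := by
          simp only [Pr]
          refine sum_eq_zero fun i hi => ?_
          rw [hL' _ ⟨i, mem_range.1 hi, by simp [mix]⟩, mul_zero]
        have g2 : ∀ z : ℕ → (Y₁ × Y₁) × Y₂, Pr r (fun y : ℕ → Y₁ × Y₂ => ΦR (fun j => (y j).2))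
            (fun j => (((z j).1.1, (z j).2), ((z j).1.2, (z j).2))) = 0 := by
          intro z
          simp only [Pr]
          refine sum_eq_zero fun i hi => ?_
          rw [hR _ ⟨i, mem_range.1 hi, by simp [mix]⟩, mul_zero]
        rw [g1, g2 (fun j => y (j + (q + 1) + p))]
        have g3 := pr_pull (fun w : Y₁ × Y₂ => w.1) (q + 1) Ψ
          (fun j => (((y (j + p)).1.1, (y (j + p)).2), ((y (j + p)).1.2, (y (j + p)).2)))
        rw [g3]
        simp only [cup, Nat.add_sub_cancel]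
        ring
      rw [f2, ev_mul, ih (Ms := fun i => Ms (i + 1)) (Pr (q + 1) Ψ) hΨ.pr
        (fun x => (c₁ (ins 0 (gr (Ms 0) j) x), c₁ (ins 0 (gr (Ms 0) (j + 1)) x)))]
      have g4 : (fun i => Ms (i + q + 1)) = fun i => Ms (i + (q + 1)) := by
        funext i; congr 1
      rw [g4]
      ring
    rw [sum_congr rfl fun j _ => key j, ← mul_sum, ← sum_mul]

end Pool.Agent.Helper76.Freq
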