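import Pool.Agent.Helper76.Freq.Defs

/-! # Piece VER of MP_5f815a_gt

Spectral decomposition of traceless symmetric `3 × 3` matrices in Veronese coordinates. -/

set_option autoImplicit false

namespace Pool.Agent.Helper76.Freq

open scoped RealInnerProductSpace ContDiff

/-! ## coordinates -/

theorem inner3 (a b : R3) : ⟪a, b⟫ = a 0 * b 0 + a 1 * b 1 + a 2 * b 2 := by
  rw [PiLp.inner_apply, Fin.sum_univ_three]
  simp [mul_comm]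

theorem norm3 (a : R3) : ‖a‖ ^ 2 = a 0 ^ 2 + a 1 ^ 2 + a 2 ^ 2 := by
  rw [EuclideanSpace.real_norm_sq_eq, Fin.sum_univ_three]

theorem norm7 (v : E6) : ‖v‖ ^ 2 = v 0 ^ 2 + v 1 ^ 2 + v 2 ^ 2 + v 3 ^ 2 + v 4 ^ 2 + v 5 ^ 2
    + v 6 ^ 2 := by
  rw [EuclideanSpace.real_norm_sq_eq, Fin.sum_univ_seven]

theorem ver_0 (a : R3) : ver a 0 = √3 * a 0 * a 1 := rfl
theorem ver_1 (a : R3) : ver a 1 = √3 * a 0 * a 2 := rfl
theorem ver_2 (a : R3) : ver a 2 = √3 * a 1 * a 2 := rfl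
theorem ver_3 (a : R3) : ver a 3 = √3 / 2 * (a 0 ^ 2 - a 2 ^ 2) := rfl
theorem ver_4 (a : R3) : ver a 4 = (a 0 ^ 2 + a 2 ^ 2 - 2 * a 1 ^ 2) / 2 := rfl

theorem pt_0 (α β σ t : ℝ) (a b : R3) : pt α a β b σ t 0 = α * ver a 0 - β * ver b 0 := rfl
theorem pt_1 (α β σ t : ℝ) (a b : R3) : pt α a β b σ t 1 = α * ver a 1 - β * ver b 1 := rfl
theorem pt_2 (α β σ t : ℝ) (a b : R3) : pt α a β b σ t 2 = α * ver a 2 - β * ver b 2 := rfl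
theorem pt_3 (α β σ t : ℝ) (a b : R3) : pt α a β b σ t 3 = α * ver a 3 - β * ver b 3 := rfl
theorem pt_4 (α β σ t : ℝ) (a b : R3) : pt α a β b σ t 4 = α * ver a 4 - β * ver b 4 := rfl
theorem pt_5 (α β σ t : ℝ) (a b : R3) : pt α a β b σ t 5 = σ := rfl
theorem pt_6 (α β σ t : ℝ) (a b : R3) : pt α a β b σ t 6 = t := rfl

theorem sqrt3_sq : (√3 : ℝ) ^ 2 = 3 := Real.sq_sqrt (by norm_num)

theorem ver_inner (a b : R3) :
    ver a 0 * ver b 0 + ver a 1 * ver b 1 + ver a 2 * ver b 2 + ver a 3 * ver b 3 + ver a 4 * ver b 4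
      = (3 * ⟪a, b⟫ ^ 2 - ‖a‖ ^ 2 * ‖b‖ ^ 2) / 2 := by
  rw [inner3, norm3, norm3, ver_0, ver_1, ver_2, ver_3, ver_4, ver_0, ver_1, ver_2, ver_3, ver_4]
  linear_combination (a 0 * a 1 * b 0 * b 1 + a 0 * a 2 * b 0 * b 2 + a 1 * a 2 * b 1 * b 2 +
    (a 0 ^ 2 - a 2 ^ 2) * (b 0 ^ 2 - b 2 ^ 2) / 4) * sqrt3_sq

theorem qf_pt (α β σ t : ℝ) (a b x : R3) :
    qf (pt α a β b σ t) x = α * ((3 * ⟪a, x⟫ ^ 2 - ‖a‖ ^ 2 * ‖x‖ ^ 2) / 2)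
      - β * ((3 * ⟪b, x⟫ ^ 2 - ‖b‖ ^ 2 * ‖x‖ ^ 2) / 2) := by
  rw [← ver_inner, ← ver_inner, qf, pt_0, pt_1, pt_2, pt_3, pt_4]
  ring

theorem H4_gen (α β σ t : ℝ) (a b : R3) :
    H4 (pt α a β b σ t) = (α * ‖a‖ ^ 2 - β * ‖b‖ ^ 2) ^ 3 +
      9 / 2 * α * β * (‖a‖ ^ 2 * ‖b‖ ^ 2 - ⟪a, b⟫ ^ 2) * (α * ‖a‖ ^ 2 - β * ‖b‖ ^ 2) := by
  rw [inner3, norm3, norm3, H4, pt_0, pt_1, pt_2, pt_3, pt_4, ver_0, ver_1, ver_2, ver_3, ver_4,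
    ver_0, ver_1, ver_2, ver_3, ver_4]
  have h3 := sqrt3_sq
  have h4 : (√3 : ℝ) ^ 4 = 9 := by
    rw [show (4 : ℕ) = 2 * 2 from rfl, pow_mul, h3]; norm_num
  generalize (√3 : ℝ) = r at *
  generalize a 0 = a0
  generalize a 1 = a1
  generalize a 2 = a2
  generalize b 0 = b0
  generalize b 1 = b1
  generalize b 2 = b2
  set w0 := α * a0 * a1 - β * b0 * b1 with hw0
  set w1 := α * a0 * a2 - β * b0 * b2 with hw1
  set w2 := α * a1 * a2 - β * b1 * b2 with hw2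
  set w3 := α * (a0 ^ 2 - a2 ^ 2) - β * (b0 ^ 2 - b2 ^ 2) with hw3
  set w4 := α * (a0 ^ 2 + a2 ^ 2 - 2 * a1 ^ 2) - β * (b0 ^ 2 + b2 ^ 2 - 2 * b1 ^ 2) with hw4
  have e0 : α * (r * a0 * a1) - β * (r * b0 * b1) = r * w0 := by rw [hw0]; ring
  have e1 : α * (r * a0 * a2) - β * (r * b0 * b2) = r * w1 := by rw [hw1]; ring
  have e2 : α * (r * a1 * a2) - β * (r * b1 * b2) = r * w2 := by rw [hw2]; ring
  have e3 : α * (r / 2 * (a0 ^ 2 - a2 ^ 2)) - β * (r / 2 * (b0 ^ 2 - b2 ^ 2)) = r / 2 * w3 := by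
    rw [hw3]; ring
  have e4 : α * ((a0 ^ 2 + a2 ^ 2 - 2 * a1 ^ 2) / 2) - β * ((b0 ^ 2 + b2 ^ 2 - 2 * b1 ^ 2) / 2)
      = w4 / 2 := by
    rw [hw4]; ring
  rw [e0, e1, e2, e3, e4]
  have e5 : -(w4 / 2) ^ 3 + 3 * (w4 / 2) * (r / 2 * w3) ^ 2 + 3 * r * (r * w0) * (r * w1) * (r * w2)
      + 3 * r / 2 * (r / 2 * w3) * ((r * w0) ^ 2 - (r * w2) ^ 2)
      + 3 * (w4 / 2) * (r * w1) ^ 2 - 3 / 2 * (w4 / 2) * ((r * w0) ^ 2 + (r * w2) ^ 2)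
      = -(w4 / 2) ^ 3 + 9 / 8 * w4 * w3 ^ 2 + 27 * w0 * w1 * w2
      + 27 / 4 * w3 * (w0 ^ 2 - w2 ^ 2)
      + 9 / 2 * w4 * w1 ^ 2 - 9 / 4 * w4 * (w0 ^ 2 + w2 ^ 2) := by
    linear_combination (3 / 8 * w4 * w3 ^ 2 + 3 / 2 * w4 * w1 ^ 2 - 3 / 4 * w4 * (w0 ^ 2 + w2 ^ 2))
      * h3 + (3 * w0 * w1 * w2 + 3 / 4 * w3 * (w0 ^ 2 - w2 ^ 2)) * h4
  rw [e5, hw0, hw1, hw2, hw3, hw4]
  ring

theorem H4_pt {α β σ t : ℝ} {a b : R3} (ha : ‖a‖ = 1) (hb : ‖b‖ = 1) (hab : ⟪a, b⟫ = 0) :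
    H4 (pt α a β b σ t) = α ^ 3 + 3 / 2 * α ^ 2 * β - 3 / 2 * α * β ^ 2 - β ^ 3 := by
  rw [H4_gen, ha, hb, hab]; ring

theorem H4_pt_left {α σ t : ℝ} {a b : R3} (ha : ‖a‖ = 1) :
    H4 (pt α a 0 b σ t) = α ^ 3 := by
  rw [H4_gen, ha]; ring

theorem H4_pt_right {β σ t : ℝ} {a b : R3} (hb : ‖b‖ = 1) :
    H4 (pt 0 a β b σ t) = - β ^ 3 := by
  rw [H4_gen, hb]; ring

/-- general formula -/
theorem norm_sq_pt' (α β σ t : ℝ) {a b : R3} (ha : ‖a‖ = 1) (hb : ‖b‖ = 1) :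
    ‖pt α a β b σ t‖ ^ 2 = α ^ 2 + β ^ 2 - α * β * (3 * ⟪a, b⟫ ^ 2 - 1) + σ ^ 2 + t ^ 2 := by
  have h1 := ver_inner a a
  have h2 := ver_inner b b
  have h3 := ver_inner a b
  rw [real_inner_self_eq_norm_sq] at h1 h2
  rw [ha] at h1 h3
  rw [hb] at h2 h3
  rw [norm7, pt_0, pt_1, pt_2, pt_3, pt_4, pt_5, pt_6]
  linear_combination α ^ 2 * h1 + β ^ 2 * h2 - 2 * α * β * h3

theorem norm_sq_pt (α β σ t : ℝ) {a b : R3} (ha : ‖a‖ = 1) (hb : ‖b‖ = 1) (hab : ⟪a, b⟫ = 0) :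
    ‖pt α a β b σ t‖ ^ 2 = α ^ 2 + α * β + β ^ 2 + σ ^ 2 + t ^ 2 := by
  rw [norm_sq_pt' α β σ t ha hb, hab]; ring

/-- the quadratic form in coordinates -/
theorem qf_coord (v : E6) (x : R3) : qf v x = v 0 * (√3 * x 0 * x 1) + v 1 * (√3 * x 0 * x 2) +
    v 2 * (√3 * x 1 * x 2) + v 3 * (√3 / 2 * (x 0 ^ 2 - x 2 ^ 2)) +
    v 4 * ((x 0 ^ 2 + x 2 ^ 2 - 2 * x 1 ^ 2) / 2) := rfl

/-- the symmetric matrix of the quadratic form -/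
noncomputable def qmat (v : E6) : Matrix (Fin 3) (Fin 3) ℝ :=
  !![√3 / 2 * v 3 + v 4 / 2, √3 / 2 * v 0, √3 / 2 * v 1;
     √3 / 2 * v 0, - v 4, √3 / 2 * v 2;
     √3 / 2 * v 1, √3 / 2 * v 2, -(√3 / 2) * v 3 + v 4 / 2]

theorem inner_qmat (v : E6) (x y : R3) : ⟪Matrix.toEuclideanLin (qmat v) x, y⟫ =
    ((√3 / 2 * v 3 + v 4 / 2) * x 0 + √3 / 2 * v 0 * x 1 + √3 / 2 * v 1 * x 2) * y 0 +
    (√3 / 2 * v 0 * x 0 - v 4 * x 1 + √3 / 2 * v 2 * x 2) * y 1 +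
    (√3 / 2 * v 1 * x 0 + √3 / 2 * v 2 * x 1 + (-(√3 / 2) * v 3 + v 4 / 2) * x 2) * y 2 := by
  have h : ∀ i, (Matrix.toEuclideanLin (qmat v) x) i =
      qmat v i 0 * x 0 + qmat v i 1 * x 1 + qmat v i 2 * x 2 := by
    intro i
    show ((qmat v).mulVec x.ofLp) i = _
    simp [Matrix.mulVec, dotProduct, Fin.sum_univ_three]
  rw [inner3, h, h, h]
  have m00 : qmat v 0 0 = √3 / 2 * v 3 + v 4 / 2 := rfl
  have m01 : qmat v 0 1 = √3 / 2 * v 0 := rfl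
  have m02 : qmat v 0 2 = √3 / 2 * v 1 := rfl
  have m10 : qmat v 1 0 = √3 / 2 * v 0 := rfl
  have m11 : qmat v 1 1 = - v 4 := rfl
  have m12 : qmat v 1 2 = √3 / 2 * v 2 := rfl
  have m20 : qmat v 2 0 = √3 / 2 * v 1 := rfl
  have m21 : qmat v 2 1 = √3 / 2 * v 2 := rfl
  have m22 : qmat v 2 2 = -(√3 / 2) * v 3 + v 4 / 2 := rfl
  rw [m00, m01, m02, m10, m11, m12, m20, m21, m22]
  ring

theorem qmat_symm (v : E6) : (Matrix.toEuclideanLin (qmat v)).IsSymmetric := by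
  intro x y
  rw [inner_qmat, real_inner_comm, inner_qmat]
  ring

theorem qf_eq_inner (v : E6) (x : R3) : qf v x = ⟪Matrix.toEuclideanLin (qmat v) x, x⟫ := by
  rw [inner_qmat, qf_coord]
  ring

theorem qf_vec (v : E6) (p q r : ℝ) : qf v !₂[p, q, r] = v 0 * (√3 * p * q) + v 1 * (√3 * p * r) +
    v 2 * (√3 * q * r) + v 3 * (√3 / 2 * (p ^ 2 - r ^ 2)) +
    v 4 * ((p ^ 2 + r ^ 2 - 2 * q ^ 2) / 2) := rfl

theorem qf_ext {v w : E6} (h : ∀ x, qf v x = qf w x) (h5 : v 5 = w 5) (h6 : v 6 = w 6) :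
    v = w := by
  have r0 : (√3 : ℝ) ≠ 0 := by positivity
  have k0 := h !₂[1, 0, 0]
  have k1 := h !₂[0, 1, 0]
  have k01 := h !₂[1, 1, 0]
  have k02 := h !₂[1, 0, 1]
  have k12 := h !₂[0, 1, 1]
  rw [qf_vec, qf_vec] at k0 k1 k01 k02 k12
  have h4 : v 4 = w 4 := by linarith
  have h3 : v 3 = w 3 := by
    have : √3 * (v 3 - w 3) = 0 := by rw [h4] at k0; linarith
    rcases mul_eq_zero.1 this with h | h
    · exact absurd h r0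
    · linarith
  have h0 : v 0 = w 0 := by
    have : √3 * (v 0 - w 0) = 0 := by rw [h4, h3] at k01; linarith
    rcases mul_eq_zero.1 this with h | h
    · exact absurd h r0
    · linarith
  have h1 : v 1 = w 1 := by
    have : √3 * (v 1 - w 1) = 0 := by rw [h4] at k02; linarith
    rcases mul_eq_zero.1 this with h | h
    · exact absurd h r0
    · linarith
  have h2 : v 2 = w 2 := by
    have : √3 * (v 2 - w 2) = 0 := by rw [h4, h3] at k12; linarith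
    rcases mul_eq_zero.1 this with h | h
    · exact absurd h r0
    · linarith
  ext i
  fin_cases i
  · exact h0
  · exact h1
  · exact h2
  · exact h3
  · exact h4
  · exact h5
  · exact h6

theorem exists_dec (v : E6) : ∃ (α β : ℝ) (a b : R3), 0 ≤ α ∧ 0 ≤ β ∧ ‖a‖ = 1 ∧ ‖b‖ = 1 ∧
    ⟪a, b⟫ = 0 ∧ v = pt α a β b (v 5) (v 6) := by
  have hT := qmat_symm v
  have hn : Module.finrank ℝ R3 = 3 := by simp
  set e := hT.eigenvectorBasis hn with he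
  set l := hT.eigenvalues hn with hl
  have hel : ∀ i, Matrix.toEuclideanLin (qmat v) (e i) = l i • e i := fun i =>
    hT.apply_eigenvectorBasis hn i
  have hanti : Antitone l := hT.eigenvalues_antitone hn
  have hq : ∀ x : R3, qf v x = l 0 * ⟪e 0, x⟫ ^ 2 + l 1 * ⟪e 1, x⟫ ^ 2 + l 2 * ⟪e 2, x⟫ ^ 2 := by
    intro x
    rw [qf_eq_inner, ← e.sum_inner_mul_inner, Fin.sum_univ_three]
    have : ∀ i, ⟪Matrix.toEuclideanLin (qmat v) x, e i⟫ = l i * ⟪e i, x⟫ := by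
      intro i
      rw [hT x (e i), hel i, inner_smul_right, real_inner_comm]
    rw [this, this, this]
    ring
  have hx2 : ∀ x : R3, ‖x‖ ^ 2 = ⟪e 0, x⟫ ^ 2 + ⟪e 1, x⟫ ^ 2 + ⟪e 2, x⟫ ^ 2 := by
    intro x
    rw [← real_inner_self_eq_norm_sq, ← e.sum_inner_mul_inner, Fin.sum_univ_three]
    rw [real_inner_comm (e 0) x, real_inner_comm (e 1) x, real_inner_comm (e 2) x]
    ring
  have hn0 : ∀ i, ‖e i‖ = 1 := fun i => e.orthonormal.1 i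
  -- the trace vanishes
  have htr : l 0 + l 1 + l 2 = 0 := by
    have k0 := hq !₂[1, 0, 0]
    have k1 := hq !₂[0, 1, 0]
    have k2 := hq !₂[0, 0, 1]
    have m0 : ∀ i, ⟪e i, !₂[(1 : ℝ), 0, 0]⟫ = e i 0 := by
      intro i; rw [inner3]; simp
    have m1 : ∀ i, ⟪e i, !₂[(0 : ℝ), 1, 0]⟫ = e i 1 := by
      intro i; rw [inner3]; simp
    have m2 : ∀ i, ⟪e i, !₂[(0 : ℝ), 0, 1]⟫ = e i 2 := by
      intro i; rw [inner3]; simp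
    rw [m0, m0, m0] at k0
    rw [m1, m1, m1] at k1
    rw [m2, m2, m2] at k2
    have n0 := norm3 (e 0)
    have n1 := norm3 (e 1)
    have n2 := norm3 (e 2)
    rw [hn0] at n0 n1 n2
    have z : qf v !₂[1, 0, 0] + qf v !₂[0, 1, 0] + qf v !₂[0, 0, 1] = 0 := by
      rw [qf_vec, qf_vec, qf_vec]
      ring
    rw [k0, k1, k2] at z
    linear_combination z + l 0 * n0 + l 1 * n1 + l 2 * n2
  have h01 : l 1 ≤ l 0 := hanti (by decide)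
  have h12 : l 2 ≤ l 1 := hanti (by decide)
  have horth : ⟪e 0, e 2⟫ = 0 := e.orthonormal.2 (by decide)
  refine ⟨2 / 3 * (l 0 - l 1), 2 / 3 * (l 1 - l 2), e 0, e 2, by linarith, by linarith, hn0 0, hn0 2,
    horth, ?_⟩
  apply qf_ext
  · intro x
    rw [qf_pt, hq, hn0, hn0, hx2 x]
    have hl1 : l 1 = - l 0 - l 2 := by linarith
    rw [hl1]
    ring
  · rw [pt_5]
  · rw [pt_6]

theorem inner_sq_le {a x : R3} (ha : ‖a‖ = 1) (hx : ‖x‖ = 1) : ⟪a, x⟫ ^ 2 ≤ 1 := by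
  have h := abs_real_inner_le_norm a x
  rw [ha, hx, one_mul] at h
  rw [← sq_abs]
  nlinarith [abs_nonneg ⟪a, x⟫]

theorem qf_top_sub {α β σ t : ℝ} {a b x : R3} (ha : ‖a‖ = 1) (hb : ‖b‖ = 1)
    (hab : ⟪a, b⟫ = 0) (hx : ‖x‖ = 1) :
    qf (pt α a β b σ t) a - qf (pt α a β b σ t) x =
      3 / 2 * α * (1 - ⟪a, x⟫ ^ 2) + 3 / 2 * β * ⟪b, x⟫ ^ 2 := by
  rw [qf_pt, qf_pt, real_inner_self_eq_norm_sq, real_inner_comm a b, hab, ha, hb, hx]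
  ring

theorem qf_bot_sub {α β σ t : ℝ} {a b x : R3} (ha : ‖a‖ = 1) (hb : ‖b‖ = 1)
    (hab : ⟪a, b⟫ = 0) (hx : ‖x‖ = 1) :
    qf (pt α a β b σ t) x - qf (pt α a β b σ t) b =
      3 / 2 * α * ⟪a, x⟫ ^ 2 + 3 / 2 * β * (1 - ⟪b, x⟫ ^ 2) := by
  rw [qf_pt, qf_pt, real_inner_self_eq_norm_sq, hab, ha, hb, hx]
  ring

theorem isTop_pt {α β σ t : ℝ} {a b : R3} (hα : 0 ≤ α) (hβ : 0 ≤ β) (ha : ‖a‖ = 1) (hb : ‖b‖ = 1)
    (hab : ⟪a, b⟫ = 0) : IsTop (pt α a β b σ t) a := by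
  refine ⟨ha, fun x hx => ?_⟩
  have h := qf_top_sub (α := α) (β := β) (σ := σ) (t := t) ha hb hab hx
  have h1 := inner_sq_le ha hx
  have h2 : 0 ≤ 3 / 2 * α * (1 - ⟪a, x⟫ ^ 2) := mul_nonneg (by linarith) (by linarith)
  have h3 : 0 ≤ 3 / 2 * β * ⟪b, x⟫ ^ 2 := mul_nonneg (by linarith) (sq_nonneg _)
  linarith

theorem isBot_pt {α β σ t : ℝ} {a b : R3} (hα : 0 ≤ α) (hβ : 0 ≤ β) (ha : ‖a‖ = 1) (hb : ‖b‖ = 1)
    (hab : ⟪a, b⟫ = 0) : IsBot (pt α a β b σ t) b := by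
  refine ⟨hb, fun x hx => ?_⟩
  have h := qf_bot_sub (α := α) (β := β) (σ := σ) (t := t) ha hb hab hx
  have h1 := inner_sq_le hb hx
  have h2 : 0 ≤ 3 / 2 * β * (1 - ⟪b, x⟫ ^ 2) := mul_nonneg (by linarith) (by linarith)
  have h3 : 0 ≤ 3 / 2 * α * ⟪a, x⟫ ^ 2 := mul_nonneg (by linarith) (sq_nonneg _)
  linarith

theorem eq_or_neg_of_inner_sq {a x : R3} (ha : ‖a‖ = 1) (hx : ‖x‖ = 1) (h : 1 ≤ ⟪a, x⟫ ^ 2) :
    x = a ∨ x = -a := by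
  have h1 : ⟪a, x⟫ ^ 2 = 1 := le_antisymm (inner_sq_le ha hx) h
  rcases sq_eq_one_iff_of_side h1 with h2 | h2
  · left
    exact ((inner_eq_one_iff_of_norm_eq_one ha hx).1 h2).symm
  · right
    have h3 : ⟪-a, x⟫ = 1 := by rw [inner_neg_left, h2]; norm_num
    exact ((inner_eq_one_iff_of_norm_eq_one (by rw [norm_neg]; exact ha) hx).1 h3).symm
where
  sq_eq_one_iff_of_side {y : ℝ} (h : y ^ 2 = 1) : y = 1 ∨ y = -1 := by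
    have : (y - 1) * (y + 1) = 0 := by ring_nf; linarith
    rcases mul_eq_zero.1 this with h | h
    · left; linarith
    · right; linarith

theorem eq_of_isTop_pt {α β σ t : ℝ} {a b x : R3} (hα : 0 < α) (hβ : 0 ≤ β) (ha : ‖a‖ = 1)
    (hb : ‖b‖ = 1) (hab : ⟪a, b⟫ = 0) (h : IsTop (pt α a β b σ t) x) : x = a ∨ x = -a := by
  have h0 := qf_top_sub (α := α) (β := β) (σ := σ) (t := t) ha hb hab h.1
  have h1 := h.2 a ha
  have h3 : 0 ≤ 3 / 2 * β * ⟪b, x⟫ ^ 2 := mul_nonneg (by linarith) (sq_nonneg _)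
  have h4 : α * (1 - ⟪a, x⟫ ^ 2) ≤ 0 := by linarith
  have h5 : 1 - ⟪a, x⟫ ^ 2 ≤ 0 := by
    by_contra hc
    push Not at hc
    have := mul_pos hα hc
    linarith
  exact eq_or_neg_of_inner_sq ha h.1 (by linarith)

theorem eq_of_isBot_pt {α β σ t : ℝ} {a b x : R3} (hα : 0 ≤ α) (hβ : 0 < β) (ha : ‖a‖ = 1)
    (hb : ‖b‖ = 1) (hab : ⟪a, b⟫ = 0) (h : IsBot (pt α a β b σ t) x) : x = b ∨ x = -b := by
  have h0 := qf_bot_sub (α := α) (β := β) (σ := σ) (t := t) ha hb hab h.1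
  have h1 := h.2 b hb
  have h3 : 0 ≤ 3 / 2 * α * ⟪a, x⟫ ^ 2 := mul_nonneg (by linarith) (sq_nonneg _)
  have h4 : β * (1 - ⟪b, x⟫ ^ 2) ≤ 0 := by linarith
  have h5 : 1 - ⟪b, x⟫ ^ 2 ≤ 0 := by
    by_contra hc
    push Not at hc
    have := mul_pos hβ hc
    linarith
  exact eq_or_neg_of_inner_sq hb h.1 (by linarith)

theorem exists_isTop (v : E6) : ∃ a, IsTop v a := by
  obtain ⟨α, β, a, b, hα, hβ, ha, hb, hab, hv⟩ := exists_dec v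
  rw [hv]
  exact ⟨a, isTop_pt hα hβ ha hb hab⟩

theorem exists_isBot (v : E6) : ∃ a, IsBot v a := by
  obtain ⟨α, β, a, b, hα, hβ, ha, hb, hab, hv⟩ := exists_dec v
  rw [hv]
  exact ⟨b, isBot_pt hα hβ ha hb hab⟩

theorem qf_neg_right (v : E6) (a : R3) : qf v (-a) = qf v a := by
  rw [qf_coord, qf_coord]
  simp only [PiLp.neg_apply]
  ring

theorem IsTop.neg {v : E6} {a : R3} (h : IsTop v a) : IsTop v (-a) := by
  refine ⟨by rw [norm_neg]; exact h.1, fun x hx => ?_⟩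
  rw [qf_neg_right]
  exact h.2 x hx

theorem IsBot.neg {v : E6} {a : R3} (h : IsBot v a) : IsBot v (-a) := by
  refine ⟨by rw [norm_neg]; exact h.1, fun x hx => ?_⟩
  rw [qf_neg_right]
  exact h.2 x hx

theorem qf_smul (r : ℝ) (v : E6) (x : R3) : qf (r • v) x = r * qf v x := by
  rw [qf_coord, qf_coord]
  simp only [PiLp.smul_apply, smul_eq_mul]
  ring

theorem qf_sub (v w : E6) (x : R3) : qf (v - w) x = qf v x - qf w x := by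
  rw [qf_coord, qf_coord, qf_coord]
  simp only [PiLp.sub_apply]
  ring

/-- positive multiples have the same top and bottom vectors -/
theorem isTop_smul_iff {v : E6} {a : R3} {r : ℝ} (hr : 0 < r) : IsTop (r • v) a ↔ IsTop v a := by
  unfold IsTop
  simp only [qf_smul]
  constructor
  · rintro ⟨h1, h2⟩
    exact ⟨h1, fun x hx => le_of_mul_le_mul_left (h2 x hx) hr⟩
  · rintro ⟨h1, h2⟩
    exact ⟨h1, fun x hx => mul_le_mul_of_nonneg_left (h2 x hx) hr.le⟩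

theorem isBot_smul_iff {v : E6} {a : R3} {r : ℝ} (hr : 0 < r) : IsBot (r • v) a ↔ IsBot v a := by
  unfold IsBot
  simp only [qf_smul]
  constructor
  · rintro ⟨h1, h2⟩
    exact ⟨h1, fun x hx => le_of_mul_le_mul_left (h2 x hx) hr⟩
  · rintro ⟨h1, h2⟩
    exact ⟨h1, fun x hx => mul_le_mul_of_nonneg_left (h2 x hx) hr.le⟩

theorem abs_qf_le (v : E6) {x : R3} (hx : ‖x‖ = 1) : |qf v x| ≤ ‖v‖ := by
  have h1 := ver_inner x x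
  rw [real_inner_self_eq_norm_sq, hx] at h1
  have h2 := norm7 v
  refine abs_le_of_sq_le_sq ?_ (norm_nonneg v)
  rw [h2, qf]
  have key : (v 0 * ver x 0 + v 1 * ver x 1 + v 2 * ver x 2 + v 3 * ver x 3 + v 4 * ver x 4) ^ 2 ≤
      (v 0 ^ 2 + v 1 ^ 2 + v 2 ^ 2 + v 3 ^ 2 + v 4 ^ 2) *
      (ver x 0 * ver x 0 + ver x 1 * ver x 1 + ver x 2 * ver x 2 + ver x 3 * ver x 3
        + ver x 4 * ver x 4) := by
    nlinarith [sq_nonneg (v 0 * ver x 1 - v 1 * ver x 0), sq_nonneg (v 0 * ver x 2 - v 2 * ver x 0),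
      sq_nonneg (v 0 * ver x 3 - v 3 * ver x 0), sq_nonneg (v 0 * ver x 4 - v 4 * ver x 0),
      sq_nonneg (v 1 * ver x 2 - v 2 * ver x 1), sq_nonneg (v 1 * ver x 3 - v 3 * ver x 1),
      sq_nonneg (v 1 * ver x 4 - v 4 * ver x 1), sq_nonneg (v 2 * ver x 3 - v 3 * ver x 2),
      sq_nonneg (v 2 * ver x 4 - v 4 * ver x 2), sq_nonneg (v 3 * ver x 4 - v 4 * ver x 3)]
  rw [h1] at key
  nlinarith [sq_nonneg (v 5), sq_nonneg (v 6)]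

theorem alpha_ge {α β σ t : ℝ} {a b : R3} (hα : 0 ≤ α) (hβ : 0 ≤ β) (ha : ‖a‖ = 1) (hb : ‖b‖ = 1)
    (hab : ⟪a, b⟫ = 0) (hn : ‖pt α a β b σ t‖ = 1) (hs : |σ| ≤ 1 / 10)
    (hH : -1 / 2 ≤ HH (pt α a β b σ t)) : 1 / 10 ≤ α := by
  by_contra hc
  push Not at hc
  have hN := norm_sq_pt α β σ t ha hb hab
  rw [hn] at hN
  rw [HH, H4_pt ha hb hab, pt_5, pt_6] at hH
  have hs2 : σ ^ 2 ≤ 1 / 100 := by
    rw [← sq_abs]; nlinarith [abs_nonneg σ]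
  have hb1 : β ≤ 1 := by
    nlinarith [sq_nonneg σ, sq_nonneg t, mul_nonneg hα hβ, sq_nonneg α]
  have ht : t ^ 2 = 1 - σ ^ 2 - α ^ 2 - α * β - β ^ 2 := by linarith
  rw [ht] at hH
  have k1 : α * β ≤ 1 / 10 := by nlinarith
  have k2 : α ^ 2 ≤ 1 / 100 := by nlinarith
  have k3 : α ^ 3 ≤ 1 / 1000 := by
    have : α ^ 3 ≤ (1 / 10) ^ 3 := pow_le_pow_left₀ hα hc.le 3
    norm_num at this ⊢; exact this
  have k4 : α ^ 2 * β ≤ 1 / 100 := by nlinarith [sq_nonneg α]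
  have k5 : 0 ≤ α * β ^ 2 := by positivity
  have k6 : β ^ 2 - β ^ 3 ≤ 1 / 4 := by
    nlinarith [mul_nonneg hβ (sq_nonneg (β - 1 / 2)), sq_nonneg (β - 1 / 2), mul_nonneg hβ hβ]
  linarith

theorem beta_ge {α β σ t : ℝ} {a b : R3} (hα : 0 ≤ α) (hβ : 0 ≤ β) (ha : ‖a‖ = 1) (hb : ‖b‖ = 1)
    (hab : ⟪a, b⟫ = 0) (hn : ‖pt α a β b σ t‖ = 1) (ht : |t| ≤ 1 / 10)
    (hH : HH (pt α a β b σ t) ≤ 1 / 2) : 1 / 10 ≤ β := by
  by_contra hc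
  push Not at hc
  have hN := norm_sq_pt α β σ t ha hb hab
  rw [hn] at hN
  rw [HH, H4_pt ha hb hab, pt_5, pt_6] at hH
  have hs2 : t ^ 2 ≤ 1 / 100 := by
    rw [← sq_abs]; nlinarith [abs_nonneg t]
  have hb1 : α ≤ 1 := by
    nlinarith [sq_nonneg σ, sq_nonneg t, mul_nonneg hα hβ, sq_nonneg β]
  have hs : σ ^ 2 = 1 - t ^ 2 - α ^ 2 - α * β - β ^ 2 := by linarith
  rw [hs] at hH
  have k1 : α * β ≤ 1 / 10 := by nlinarith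
  have k2 : β ^ 2 ≤ 1 / 100 := by nlinarith
  have k3 : β ^ 3 ≤ 1 / 1000 := by
    have : β ^ 3 ≤ (1 / 10) ^ 3 := pow_le_pow_left₀ hβ hc.le 3
    norm_num at this ⊢; exact this
  have k4 : α * β ^ 2 ≤ 1 / 100 := by nlinarith [sq_nonneg β]
  have k5 : 0 ≤ α ^ 2 * β := by positivity
  have k6 : α ^ 2 - α ^ 3 ≤ 1 / 4 := by
    nlinarith [mul_nonneg hα (sq_nonneg (α - 1 / 2)), sq_nonneg (α - 1 / 2), mul_nonneg hα hα]
  linarith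

theorem top_close {v v' : E6} (hv : ‖v‖ = 1) (hv' : ‖v'‖ = 1) (h5 : |v 5| ≤ 1 / 10)
    (hH : -1 / 2 ≤ HH v) {a a' : R3} (ha : IsTop v a) (ha' : IsTop v' a') :
    1 - ⟪a, a'⟫ ^ 2 ≤ 14 * ‖v - v'‖ := by
  obtain ⟨α, β, a₀, b₀, hα, hβ, ha₀, hb₀, hab, hvd⟩ := exists_dec v
  have hα1 : 1 / 10 ≤ α := by
    rw [hvd] at hv hH
    exact alpha_ge hα hβ ha₀ hb₀ hab hv h5 hH
  have hcase : a = a₀ ∨ a = -a₀ := by
    rw [hvd] at ha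
    exact eq_of_isTop_pt (by linarith) hβ ha₀ hb₀ hab ha
  have hsq : ⟪a, a'⟫ ^ 2 = ⟪a₀, a'⟫ ^ 2 := by
    rcases hcase with h | h
    · rw [h]
    · rw [h, inner_neg_left]; ring
  rw [hsq]
  have h1 := qf_top_sub (α := α) (β := β) (σ := v 5) (t := v 6) ha₀ hb₀ hab ha'.1
  rw [← hvd] at h1
  have h2 := ha'.2 a₀ ha₀
  have h3 := abs_qf_le (v - v') ha₀
  have h4 := abs_qf_le (v - v') ha'.1
  rw [qf_sub] at h3 h4
  have h5' := (abs_le.1 h3).2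
  have h6' := (abs_le.1 h4).1
  have h7 : 0 ≤ 3 / 2 * β * ⟪b₀, a'⟫ ^ 2 := mul_nonneg (by linarith) (sq_nonneg _)
  have h8 := inner_sq_le ha₀ ha'.1
  have h9 : 3 / 2 * (1 / 10) * (1 - ⟪a₀, a'⟫ ^ 2) ≤ 3 / 2 * α * (1 - ⟪a₀, a'⟫ ^ 2) :=
    mul_le_mul_of_nonneg_right (by linarith) (by linarith)
  have h10 := norm_nonneg (v - v')
  linarith

theorem bot_close {v v' : E6} (hv : ‖v‖ = 1) (hv' : ‖v'‖ = 1) (h6 : |v 6| ≤ 1 / 10)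
    (hH : HH v ≤ 1 / 2) {b b' : R3} (hb : IsBot v b) (hb' : IsBot v' b') :
    1 - ⟪b, b'⟫ ^ 2 ≤ 14 * ‖v - v'‖ := by
  obtain ⟨α, β, a₀, b₀, hα, hβ, ha₀, hb₀, hab, hvd⟩ := exists_dec v
  have hβ1 : 1 / 10 ≤ β := by
    rw [hvd] at hv hH
    exact beta_ge hα hβ ha₀ hb₀ hab hv h6 hH
  have hcase : b = b₀ ∨ b = -b₀ := by
    rw [hvd] at hb
    exact eq_of_isBot_pt hα (by linarith) ha₀ hb₀ hab hb
  have hsq : ⟪b, b'⟫ ^ 2 = ⟪b₀, b'⟫ ^ 2 := by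
    rcases hcase with h | h
    · rw [h]
    · rw [h, inner_neg_left]; ring
  rw [hsq]
  have h1 := qf_bot_sub (α := α) (β := β) (σ := v 5) (t := v 6) ha₀ hb₀ hab hb'.1
  rw [← hvd] at h1
  have h2 := hb'.2 b₀ hb₀
  have h3 := abs_qf_le (v - v') hb₀
  have h4 := abs_qf_le (v - v') hb'.1
  rw [qf_sub] at h3 h4
  have h5' := (abs_le.1 h3).1
  have h6' := (abs_le.1 h4).2
  have h7 : 0 ≤ 3 / 2 * α * ⟪a₀, b'⟫ ^ 2 := mul_nonneg (by linarith) (sq_nonneg _)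
  have h8 := inner_sq_le hb₀ hb'.1
  have h9 : 3 / 2 * (1 / 10) * (1 - ⟪b₀, b'⟫ ^ 2) ≤ 3 / 2 * β * (1 - ⟪b₀, b'⟫ ^ 2) :=
    mul_le_mul_of_nonneg_right (by linarith) (by linarith)
  have h10 := norm_nonneg (v - v')
  linarith

/-- in the region `|HH| ≤ 1/2`, `|v 5|, |v 6| ≤ 1/10` both coefficients are at least `1/10` -/
theorem coeff_ge {α β σ t : ℝ} {a b : R3} (hα : 0 ≤ α) (hβ : 0 ≤ β) (ha : ‖a‖ = 1) (hb : ‖b‖ = 1)
    (hab : ⟪a, b⟫ = 0) (hn : ‖pt α a β b σ t‖ = 1) (hs : |σ| ≤ 1 / 10) (ht : |t| ≤ 1 / 10)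
    (hH : |HH (pt α a β b σ t)| ≤ 1 / 2) : 1 / 10 ≤ α ∧ 1 / 10 ≤ β := by
  have h := abs_le.1 hH
  exact ⟨alpha_ge hα hβ ha hb hab hn hs (by linarith [h.1]), beta_ge hα hβ ha hb hab hn ht h.2⟩

/-- top and bottom vectors are orthogonal in that region -/
theorem top_bot_orth {v : E6} (hv : ‖v‖ = 1) (h5 : |v 5| ≤ 1 / 10) (h6 : |v 6| ≤ 1 / 10)
    (hH : |HH v| ≤ 1 / 2) {a b : R3} (ha : IsTop v a) (hb : IsBot v b) : ⟪a, b⟫ = 0 := by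
  obtain ⟨α, β, a₀, b₀, hα, hβ, ha₀, hb₀, hab, hvd⟩ := exists_dec v
  have hc : 1 / 10 ≤ α ∧ 1 / 10 ≤ β := by
    rw [hvd] at hv hH
    exact coeff_ge hα hβ ha₀ hb₀ hab hv h5 h6 hH
  rw [hvd] at ha hb
  have h1 := eq_of_isTop_pt (by linarith [hc.1]) hβ ha₀ hb₀ hab ha
  have h2 := eq_of_isBot_pt hα (by linarith [hc.2]) ha₀ hb₀ hab hb
  rcases h1 with h1 | h1 <;> rcases h2 with h2 | h2 <;> rw [h1, h2] <;>
    simp [inner_neg_left, inner_neg_right, hab]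

theorem HH_contDiff : ContDiff ℝ ∞ HH := by
  unfold HH H4
  fun_prop

theorem HH_lip : ∃ C : ℝ, 0 < C ∧ ∀ v v' : E6, ‖v‖ = 1 → ‖v'‖ = 1 → |HH v - HH v'| ≤ C * ‖v - v'‖ := by
  have hc : ContDiffOn ℝ 1 HH (Metric.closedBall (0 : E6) 1) :=
    (HH_contDiff.of_le (by exact_mod_cast le_top)).contDiffOn
  obtain ⟨K, hK⟩ := hc.exists_lipschitzOnWith one_ne_zero (convex_closedBall 0 1)
    (isCompact_closedBall 0 1)
  refine ⟨K + 1, by positivity, fun v v' hv hv' => ?_⟩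
  have h := hK.dist_le_mul v (by simp [hv]) v' (by simp [hv'])
  rw [Real.dist_eq, dist_eq_norm] at h
  have := norm_nonneg (v - v')
  linarith

end Pool.Agent.Helper76.Freq
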