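import Pool.Agent.Helper76.Freq.Letters
import Pool.Agent.Helper76.Freq.Ver
import Pool.Agent.Helper76.Freq.Peel

/-!
# The letters with coefficients in `ZMod 2`: closedness and supports on small sequences

Piece F2-A of MP_5f815a_gt (helper8).
-/

set_option autoImplicit false

namespace Pool.Agent.Helper76.Freq

open scoped RealInnerProductSpace Classical
open Finset

theorem dep_xi (f : E6 → R3) : Dep 1 (xi f) := by
  intro y y' h
  simp only [xi]
  rw [h 0 (by norm_num), h 1 le_rfl]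

theorem nrm_xi (f : E6 → R3) : Nrm 1 (xi f) := by
  rintro y ⟨j, hj, h⟩
  obtain rfl : j = 0 := by omega
  simp only [xi]
  rw [h, if_neg]
  rw [real_inner_self_eq_norm_sq]
  exact not_lt.2 (sq_nonneg _)

theorem dep_A2 (h : ℝ) : Dep 3 (A2 h) := (dep_dC _).cup ((dep_dC _).cup (dep_xi _))

theorem dep_B2 (h : ℝ) : Dep 4 (B2 h) :=
  (dep_dC _).cup ((dep_xi _).cup ((dep_xi _).cup (dep_dC _)))

theorem dep_w2 (h : ℝ) : Dep 6 (w2 h) := (dep_dC _).cup ((dep_xi _).cup (dep_B2 h))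

theorem dep_al2 (h : ℝ) : Dep 2 (al2 h) := by
  intro y y' hy
  have h1 : Dep 2 (cup 1 (dC (s5 (ZMod 2))) (xi top0)) := (dep_dC _).cup (dep_xi _)
  simp only [al2]
  rw [h1 y y' hy, hy 0 (by norm_num)]

theorem nrm_A2 (h : ℝ) : Nrm 3 (A2 h) := (nrm_dC _).cup ((nrm_dC _).cup (nrm_xi _))

theorem nrm_B2 (h : ℝ) : Nrm 4 (B2 h) :=
  (nrm_dC _).cup ((nrm_xi _).cup ((nrm_xi _).cup (nrm_dC _)))

theorem nrm_w2 (h : ℝ) : Nrm 6 (w2 h) := (nrm_dC _).cup ((nrm_xi _).cup (nrm_B2 h))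

theorem nrm_al2 (h : ℝ) : Nrm 2 (al2 h) := by
  intro y hy
  have h1 : Nrm 2 (cup 1 (dC (s5 (ZMod 2))) (xi top0)) := (nrm_dC _).cup (nrm_xi _)
  simp only [al2]
  rw [h1 y hy, mul_zero]

/-! ### small sequences -/

theorem top0_isTop (v : E6) : IsTop v (top0 v) := by
  have h : ∃ a, IsTop v a ∧ 0 ≤ a 0 := by
    obtain ⟨a, ha⟩ := exists_isTop v
    rcases le_total 0 (a 0) with h | h
    · exact ⟨a, ha, h⟩
    · exact ⟨-a, ha.neg, by simpa using h⟩
  exact (Classical.epsilon_spec h).1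

theorem bot0_isBot (v : E6) : IsBot v (bot0 v) := by
  have h : ∃ a, IsBot v a ∧ 0 ≤ a 0 := by
    obtain ⟨a, ha⟩ := exists_isBot v
    rcases le_total 0 (a 0) with h | h
    · exact ⟨a, ha, h⟩
    · exact ⟨-a, ha.neg, by simpa using h⟩
  exact (Classical.epsilon_spec h).1

theorem bot1_isBot (v : E6) : IsBot v (bot1 v) := by
  have h : ∃ a, IsBot v a ∧ 0 ≤ a 1 := by
    obtain ⟨a, ha⟩ := exists_isBot v
    rcases le_total 0 (a 1) with h | h
    · exact ⟨a, ha, h⟩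
    · exact ⟨-a, ha.neg, by simpa using h⟩
  exact (Classical.epsilon_spec h).1

/-- three unit vectors which span almost the same line: the number of negative inner products is even -/
theorem triple_pos {x y z : R3} (hx : ‖x‖ = 1) (hy : ‖y‖ = 1) (hz : ‖z‖ = 1)
    (hxy : 81 / 100 ≤ ⟪x, y⟫ ^ 2) (hxz : 81 / 100 ≤ ⟪x, z⟫ ^ 2) :
    0 < ⟪x, y⟫ * ⟪x, z⟫ * ⟪y, z⟫ := by
  set p := ⟪x, y⟫ with hp
  set q := ⟪x, z⟫ with hq
  set r := ⟪y, z⟫ with hr
  have h1 : ⟪y - p • x, y - p • x⟫ = 1 - p ^ 2 := by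
    rw [inner_sub_left, inner_sub_right, inner_sub_right, inner_smul_left, inner_smul_right,
      inner_smul_left, inner_smul_right, real_inner_self_eq_norm_sq, real_inner_self_eq_norm_sq, hx,
      hy, real_inner_comm x y, ← hp]
    simp only [RCLike.conj_to_real]
    ring
  have h2 : ⟪z - q • x, z - q • x⟫ = 1 - q ^ 2 := by
    rw [inner_sub_left, inner_sub_right, inner_sub_right, inner_smul_left, inner_smul_right,
      inner_smul_left, inner_smul_right, real_inner_self_eq_norm_sq, real_inner_self_eq_norm_sq, hx,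
      hz, real_inner_comm x z, ← hq]
    simp only [RCLike.conj_to_real]
    ring
  have h3 : ⟪y - p • x, z - q • x⟫ = r - p * q := by
    rw [inner_sub_left, inner_sub_right, inner_sub_right, inner_smul_left, inner_smul_right,
      inner_smul_left, inner_smul_right, real_inner_self_eq_norm_sq, hx, real_inner_comm x y, ← hp,
      ← hq, ← hr]
    simp only [RCLike.conj_to_real]
    ring
  have h4 := real_inner_mul_inner_self_le (y - p • x) (z - q • x)
  rw [h1, h2, h3] at h4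
  have hp1 : p ^ 2 ≤ 1 := inner_sq_le hx hy
  have hq1 : q ^ 2 ≤ 1 := inner_sq_le hx hz
  have h5 : (r - p * q) ^ 2 ≤ (19 / 100) ^ 2 := by
    have : (1 - p ^ 2) * (1 - q ^ 2) ≤ (19 / 100) * (19 / 100) :=
      mul_le_mul (by linarith) (by linarith) (by linarith) (by norm_num)
    nlinarith
  have h6 : (81 / 100) * (81 / 100) ≤ p ^ 2 * q ^ 2 :=
    mul_le_mul hxy hxz (by norm_num) (sq_nonneg p)
  -- p q r = (pq)^2 + pq (r - pq)
  have h7 : |r - p * q| ≤ 19 / 100 := abs_le_of_sq_le_sq h5 (by norm_num)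
  have h8 : |p * q| ≤ 1 := by
    apply abs_le_of_sq_le_sq _ (by norm_num)
    rw [mul_pow]
    nlinarith
  have h9 : -(19 / 100) ≤ (p * q) * (r - p * q) := by
    have : |(p * q) * (r - p * q)| ≤ 1 * (19 / 100) := by
      rw [abs_mul]
      exact mul_le_mul h8 h7 (abs_nonneg _) (by norm_num)
    have := (abs_le.1 this).1
    linarith
  nlinarith

/-- closedness of the sign cochain on triples of close lines -/
theorem cobd_xi {f : E6 → R3} {v : ℕ → E6} (h0 : ∀ i, ‖f (v i)‖ = 1)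
    (h1 : 81 / 100 ≤ ⟪f (v 0), f (v 1)⟫ ^ 2) (h2 : 81 / 100 ≤ ⟪f (v 0), f (v 2)⟫ ^ 2) :
    cobd 1 (xi f) v = 0 := by
  have h := triple_pos (h0 0) (h0 1) (h0 2) h1 h2
  have e : cobd 1 (xi f) v = (if ⟪f (v 1), f (v 2)⟫ < 0 then (1 : ZMod 2) else 0) -
      (if ⟪f (v 0), f (v 2)⟫ < 0 then (1 : ZMod 2) else 0) +
      (if ⟪f (v 0), f (v 1)⟫ < 0 then (1 : ZMod 2) else 0) := by
    rw [cobd_one]
    rfl
  rw [e]
  have d0 : (1 : ZMod 2) - 0 + 1 = 0 := by decide
  have d1 : (1 : ZMod 2) - 1 + 0 = 0 := by decide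
  have d2 : (0 : ZMod 2) - 1 + 1 = 0 := by decide
  have d3 : (0 : ZMod 2) - 0 + 0 = 0 := by decide
  rcases lt_or_ge ⟪f (v 1), f (v 2)⟫ 0 with a | a <;> rcases lt_or_ge ⟪f (v 0), f (v 2)⟫ 0 with b | b <;>
    rcases lt_or_ge ⟪f (v 0), f (v 1)⟫ 0 with c | c
  · exfalso
    have := mul_pos_of_neg_of_neg c b
    have := mul_neg_of_pos_of_neg this a
    linarith
  · rw [if_pos a, if_pos b, if_neg (not_lt.2 c), d1]
  · rw [if_pos a, if_neg (not_lt.2 b), if_pos c, d0]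
  · exfalso
    have := mul_nonneg c b
    have := mul_nonpos_of_nonneg_of_nonpos this a.le
    linarith
  · rw [if_neg (not_lt.2 a), if_pos b, if_pos c, d2]
  · exfalso
    have := mul_nonpos_of_nonneg_of_nonpos c b.le
    have := mul_nonpos_of_nonpos_of_nonneg this a
    linarith
  · exfalso
    have := mul_nonpos_of_nonpos_of_nonneg c.le b
    have := mul_nonpos_of_nonpos_of_nonneg this a
    linarith
  · rw [if_neg (not_lt.2 a), if_neg (not_lt.2 b), if_neg (not_lt.2 c), d3]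

/-- if the indicators of the last two coordinates change, these coordinates are small -/
theorem s5_change {R : Type*} [CommRing R] {δ : ℝ} {v : ℕ → E6} (hv : Sm δ v) {i j : ℕ}
    (h : s5 R (v i) ≠ s5 R (v j)) (k : ℕ) : |v k 5| < 2 * δ := by
  have hc : ∀ a b : ℕ, |v a 5 - v b 5| < δ := by
    intro a b
    have := PiLp.norm_apply_le (v a - v b) 5
    rw [Real.norm_eq_abs] at this
    exact this.trans_lt (hv.2 a b)
  have h1 : |v i 5| < δ := by
    have h2 := abs_lt.1 (hc i j)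
    simp only [s5] at h
    rcases lt_or_ge 0 (v i 5) with a | a <;> rcases lt_or_ge 0 (v j 5) with b | b
    · exact absurd (by rw [if_pos a, if_pos b]) h
    · rw [abs_of_pos a]; linarith [h2.2]
    · rw [abs_of_nonpos a]; linarith [h2.1]
    · exact absurd (by rw [if_neg (not_lt.2 a), if_neg (not_lt.2 b)]) h
  have h2 := hc k i
  have h3 : v k 5 = (v k 5 - v i 5) + v i 5 := by ring
  rw [h3]
  calc |(v k 5 - v i 5) + v i 5| ≤ |v k 5 - v i 5| + |v i 5| := abs_add_le _ _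
    _ < 2 * δ := by linarith

theorem s6_change {R : Type*} [CommRing R] {δ : ℝ} {v : ℕ → E6} (hv : Sm δ v) {i j : ℕ}
    (h : s6 R (v i) ≠ s6 R (v j)) (k : ℕ) : |v k 6| < 2 * δ := by
  have hc : ∀ a b : ℕ, |v a 6 - v b 6| < δ := by
    intro a b
    have := PiLp.norm_apply_le (v a - v b) 6
    rw [Real.norm_eq_abs] at this
    exact this.trans_lt (hv.2 a b)
  have h1 : |v i 6| < δ := by
    have h2 := abs_lt.1 (hc i j)
    simp only [s6] at h
    rcases lt_or_ge 0 (v i 6) with a | a <;> rcases lt_or_ge 0 (v j 6) with b | b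
    · exact absurd (by rw [if_pos a, if_pos b]) h
    · rw [abs_of_pos a]; linarith [h2.2]
    · rw [abs_of_nonpos a]; linarith [h2.1]
    · exact absurd (by rw [if_neg (not_lt.2 a), if_neg (not_lt.2 b)]) h
  have h2 := hc k i
  have h3 : v k 6 = (v k 6 - v i 6) + v i 6 := by ring
  rw [h3]
  calc |(v k 6 - v i 6) + v i 6| ≤ |v k 6 - v i 6| + |v i 6| := abs_add_le _ _
    _ < 2 * δ := by linarith

theorem hi_change {R : Type*} [CommRing R] {h : ℝ} {v w : E6} (hne : hi R h v ≠ hi R h w) :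
    |HH v - h| ≤ |HH v - HH w| := by
  simp only [hi] at hne
  rcases lt_or_ge h (HH v) with a | a <;> rcases lt_or_ge h (HH w) with b | b
  · exact absurd (by rw [if_pos a, if_pos b]) hne
  · rw [abs_of_pos (by linarith), abs_of_pos (by linarith)]; linarith
  · rw [abs_of_nonpos (by linarith), abs_of_neg (by linarith)]; linarith
  · exact absurd (by rw [if_neg (not_lt.2 a), if_neg (not_lt.2 b)]) hne

theorem lo_change {R : Type*} [CommRing R] {h : ℝ} {v w : E6} (hne : lo R h v ≠ lo R h w) :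
    |HH v - h| ≤ |HH v - HH w| := by
  simp only [lo] at hne
  rcases lt_or_ge (HH v) h with a | a <;> rcases lt_or_ge (HH w) h with b | b
  · exact absurd (by rw [if_pos a, if_pos b]) hne
  · rw [abs_of_neg (by linarith), abs_of_neg (by linarith)]; linarith
  · rw [abs_of_nonneg (by linarith), abs_of_pos (by linarith)]; linarith
  · exact absurd (by rw [if_neg (not_lt.2 a), if_neg (not_lt.2 b)]) hne

theorem Sm.shift {δ : ℝ} {v : ℕ → E6} (h : Sm δ v) (p : ℕ) : Sm δ (fun j => v (j + p)) :=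
  ⟨fun _ => h.1 _, fun _ _ => h.2 _ _⟩

/-- top lines are close where `v 5` is small and `HH ≥ -2/5` -/
theorem top_near {δ : ℝ} (hδ : δ ≤ 1 / 1000) {v : ℕ → E6} (hv : Sm δ v) {i : ℕ} (h5 : |v i 5| < 2 * δ)
    (hH : -1 / 2 ≤ HH (v i)) (j : ℕ) : 81 / 100 ≤ ⟪top0 (v i), top0 (v j)⟫ ^ 2 := by
  have h := top_close (hv.1 i) (hv.1 j) (by linarith) hH (top0_isTop _) (top0_isTop _)
  have := hv.2 i j
  linarith

theorem bot_near {f : E6 → R3} (hf : ∀ v, IsBot v (f v)) {δ : ℝ} (hδ : δ ≤ 1 / 1000) {v : ℕ → E6}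
    (hv : Sm δ v) {i : ℕ} (h6 : |v i 6| < 2 * δ)
    (hH : HH (v i) ≤ 1 / 2) (j : ℕ) : 81 / 100 ≤ ⟪f (v i), f (v j)⟫ ^ 2 := by
  have h := bot_close (hv.1 i) (hv.1 j) (by linarith) hH (hf _) (hf _)
  have := hv.2 i j
  linarith

theorem neg_one_mul_mod2 (x : ZMod 2) : -x = x := by
  revert x; decide

theorem local_F2 : ∃ δ : ℝ, 0 < δ ∧ ∀ v : ℕ → E6, Sm δ v → ∀ h : ℝ, |h| ≤ 3 / 10 →
    cobd 3 (A2 h) v = 0 ∧ cobd 4 (B2 h) v = 0 ∧ cobd 6 (w2 h) v = 0 ∧
    (A2 h v ≠ 0 → |HH (v 0) - h| < 1 / 100) ∧ (B2 h v ≠ 0 → |HH (v 0) - h| < 1 / 100) ∧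
    (w2 h v ≠ 0 → |HH (v 0) - h| < 1 / 100) ∧
    cobd 2 (al2 h) v = A2 h v ∧
    ∀ l : ℝ, h + 1 / 20 ≤ l → l ≤ 3 / 10 → cup 2 (al2 h) (B2 l) v = w2 l v := by
  obtain ⟨C, hC, hlip⟩ := HH_lip
  refine ⟨1 / (1000 * (C + 1)), by positivity, ?_⟩
  set δ := 1 / (1000 * (C + 1)) with hδ
  have hδ0 : 0 < δ := by positivity
  have hδ1 : δ ≤ 1 / 1000 := by
    rw [hδ]
    apply one_div_le_one_div_of_le (by norm_num)
    nlinarith
  have hCδ : C * δ ≤ 1 / 1000 := by
    rw [hδ, mul_one_div, div_le_div_iff₀ (by positivity) (by norm_num)]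
    nlinarith
  -- variation of `HH`
  have hvar : ∀ v : ℕ → E6, Sm δ v → ∀ i j, |HH (v i) - HH (v j)| ≤ 1 / 1000 := by
    intro v hv i j
    have := hlip _ _ (hv.1 i) (hv.1 j)
    have h2 := hv.2 i j
    calc _ ≤ C * ‖v i - v j‖ := this
      _ ≤ C * δ := by gcongr
      _ ≤ _ := hCδ
  -- support
  have hhi : ∀ v : ℕ → E6, Sm δ v → ∀ h : ℝ, dC (hi (ZMod 2) h) v ≠ 0 → ∀ k, |HH (v k) - h| ≤ 2 / 1000 := by
    intro v hv h hne k
    have h1 : hi (ZMod 2) h (v 1) ≠ hi (ZMod 2) h (v 0) := fun he => hne (by simp [dC, he])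
    have h2 := (hi_change h1).trans (hvar v hv 1 0)
    have h3 := hvar v hv k 1
    have h4 : HH (v k) - h = (HH (v k) - HH (v 1)) + (HH (v 1) - h) := by ring
    rw [h4]
    exact (abs_add_le _ _).trans (by linarith)
  have hlo : ∀ v : ℕ → E6, Sm δ v → ∀ h : ℝ, dC (lo (ZMod 2) h) v ≠ 0 → ∀ k, |HH (v k) - h| ≤ 2 / 1000 := by
    intro v hv h hne k
    have h1 : lo (ZMod 2) h (v 1) ≠ lo (ZMod 2) h (v 0) := fun he => hne (by simp [dC, he])
    have h2 := (lo_change h1).trans (hvar v hv 1 0)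
    have h3 := hvar v hv k 1
    have h4 : HH (v k) - h = (HH (v k) - HH (v 1)) + (HH (v 1) - h) := by ring
    rw [h4]
    exact (abs_add_le _ _).trans (by linarith)
  have h5 : ∀ v : ℕ → E6, Sm δ v → dC (s5 (ZMod 2)) v ≠ 0 → ∀ k, |v k 5| < 2 * δ := by
    intro v hv hne k
    have h1 : s5 (ZMod 2) (v 1) ≠ s5 (ZMod 2) (v 0) := fun he => hne (by simp [dC, he])
    exact s5_change hv h1 k
  have h6 : ∀ v : ℕ → E6, Sm δ v → dC (s6 (ZMod 2)) v ≠ 0 → ∀ k, |v k 6| < 2 * δ := by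
    intro v hv hne k
    have h1 : s6 (ZMod 2) (v 1) ≠ s6 (ZMod 2) (v 0) := fun he => hne (by simp [dC, he])
    exact s6_change hv h1 k
  -- closedness of the sign cochains
  have htop : ∀ v : ℕ → E6, Sm δ v → |v 0 5| < 2 * δ → -1 / 2 ≤ HH (v 0) → cobd 1 (xi top0) v = 0 := by
    intro v hv h5 hH
    exact cobd_xi (fun i => (top0_isTop _).1) (top_near hδ1 hv h5 hH 1) (top_near hδ1 hv h5 hH 2)
  have hbot : ∀ f : E6 → R3, (∀ v, IsBot v (f v)) → ∀ v : ℕ → E6, Sm δ v → |v 0 6| < 2 * δ →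
      HH (v 0) ≤ 1 / 2 → cobd 1 (xi f) v = 0 := by
    intro f hf v hv h6 hH
    exact cobd_xi (fun i => (hf _).1) (bot_near hf hδ1 hv h6 hH 1) (bot_near hf hδ1 hv h6 hH 2)
  -- the cochain `X`
  have hX : ∀ v : ℕ → E6, Sm δ v → -2 / 5 ≤ HH (v 0) →
      cobd 2 (cup 1 (dC (s5 (ZMod 2))) (xi top0)) v = 0 := by
    intro v hv hH
    have h := cobd_cup (p := 1) (q := 1) (Ψ := xi top0) (dep_dC (s5 (ZMod 2))) v
    refine Eq.trans h ?_
    have e1 : cup (1 + 1) (cobd 1 (dC (s5 (ZMod 2)))) (xi top0) v = 0 := by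
      simp only [cup]; rw [cobd_dC, zero_mul]
    have e2 : cup 1 (dC (s5 (ZMod 2))) (cobd 1 (xi top0)) v = 0 := by
      simp only [cup]
      by_cases h0 : dC (s5 (ZMod 2)) v = 0
      · rw [h0, zero_mul]
      · rw [htop _ (hv.shift 1) (h5 v hv h0 _) ?_, mul_zero]
        have := (abs_le.1 (hvar v hv (0 + 1) 0)).1
        linarith
    rw [e1, e2, mul_zero, add_zero]
  -- `B2`
  have hBsup : ∀ v : ℕ → E6, Sm δ v → ∀ h : ℝ, B2 h v ≠ 0 → ∀ k, |HH (v k) - h| ≤ 2 / 1000 := by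
    intro v hv h hne
    refine hlo v hv h fun h0 => hne ?_
    simp only [B2, cup]
    rw [h0, zero_mul]
  have hBcl : ∀ v : ℕ → E6, Sm δ v → ∀ h : ℝ, |h| ≤ 3 / 10 → cobd 4 (B2 h) v = 0 := by
    intro v hv h hh
    have e0 := cobd_cup (p := 1) (q := 3)
      (Ψ := cup 1 (xi bot0) (cup 1 (xi bot1) (dC (s6 (ZMod 2))))) (dep_dC (lo (ZMod 2) h)) v
    refine Eq.trans e0 ?_
    have e1 : cup (1 + 1) (cobd 1 (dC (lo (ZMod 2) h)))
        (cup 1 (xi bot0) (cup 1 (xi bot1) (dC (s6 (ZMod 2))))) v = 0 := by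
      simp only [cup]; rw [cobd_dC, zero_mul]
    have e2 : cup 1 (dC (lo (ZMod 2) h))
        (cobd 3 (cup 1 (xi bot0) (cup 1 (xi bot1) (dC (s6 (ZMod 2)))))) v = 0 := by
      by_cases h0 : dC (lo (ZMod 2) h) v = 0
      · simp only [cup]; rw [h0, zero_mul]
      have hH : ∀ k, HH (v k) ≤ 1 / 2 := by
        intro k
        have h1 := (abs_le.1 (hlo v hv h h0 k)).2
        have h2 := (abs_le.1 hh).2
        linarith
      have e3 := cobd_cup (p := 1) (q := 2) (Ψ := cup 1 (xi bot1) (dC (s6 (ZMod 2)))) (dep_xi bot0)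
        (fun j => v (j + 1))
      have e4 := cobd_cup (p := 1) (q := 1) (Ψ := dC (s6 (ZMod 2))) (dep_xi bot1)
        (fun j => v (j + 1 + 1))
      show dC (lo (ZMod 2) h) v * cobd (1 + 2) (cup 1 (xi bot0) (cup 1 (xi bot1) (dC (s6 (ZMod 2)))))
        (fun j => v (j + 1)) = 0
      rw [e3]
      have e5 : cup (1 + 1) (cobd 1 (xi bot0)) (cup 1 (xi bot1) (dC (s6 (ZMod 2))))
          (fun j => v (j + 1)) = 0 := by
        simp only [cup]
        by_cases h7 : dC (s6 (ZMod 2)) (fun j => v (j + 1 + (1 + 1) + 1)) = 0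
        · rw [h7, mul_zero, mul_zero]
        · have h8 : ∀ k, |v k 6| < 2 * δ := by
            have h1 : s6 (ZMod 2) (v (1 + 1 + (1 + 1) + 1)) ≠ s6 (ZMod 2) (v (0 + 1 + (1 + 1) + 1)) :=
              fun he => h7 (by simp only [dC]; rw [he, sub_self])
            exact s6_change hv h1
          rw [hbot bot0 bot0_isBot _ (hv.shift 1) (h8 _) (hH _), zero_mul]
      have e6 : cup 1 (xi bot0) (cobd 2 (cup 1 (xi bot1) (dC (s6 (ZMod 2)))))
          (fun j => v (j + 1)) = 0 := by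
        show xi bot0 (fun j => v (j + 1)) * cobd (1 + 1) (cup 1 (xi bot1) (dC (s6 (ZMod 2))))
          (fun j => v (j + 1 + 1)) = 0
        rw [e4]
        have e7 : cup (1 + 1) (cobd 1 (xi bot1)) (dC (s6 (ZMod 2))) (fun j => v (j + 1 + 1)) = 0 := by
          simp only [cup]
          by_cases h7 : dC (s6 (ZMod 2)) (fun j => v (j + (1 + 1) + 1 + 1)) = 0
          · rw [h7, mul_zero]
          · have h8 : ∀ k, |v k 6| < 2 * δ := by
              have h1 : s6 (ZMod 2) (v (1 + (1 + 1) + 1 + 1)) ≠ s6 (ZMod 2) (v (0 + (1 + 1) + 1 + 1)) :=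
                fun he => h7 (by simp only [dC]; rw [he, sub_self])
              exact s6_change hv h1
            rw [hbot bot1 bot1_isBot _ (hv.shift 2) (h8 _) (hH _), zero_mul]
        have e8 : cup 1 (xi bot1) (cobd 1 (dC (s6 (ZMod 2)))) (fun j => v (j + 1 + 1)) = 0 := by
          simp only [cup]; rw [cobd_dC, mul_zero]
        rw [e7, e8, mul_zero, add_zero, mul_zero]
      rw [e5, e6, mul_zero, add_zero, mul_zero]
    rw [e1, e2, mul_zero, add_zero]
  intro v hv h hh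
  obtain ⟨hh1, hh2⟩ := abs_le.1 hh
  refine ⟨?_, hBcl v hv h hh, ?_, ?_, ?_, ?_, ?_, ?_⟩
  · -- `A2`
    have e0 := cobd_cup (p := 1) (q := 2) (Ψ := cup 1 (dC (s5 (ZMod 2))) (xi top0))
      (dep_dC (hi (ZMod 2) h)) v
    refine Eq.trans e0 ?_
    have e1 : cup (1 + 1) (cobd 1 (dC (hi (ZMod 2) h))) (cup 1 (dC (s5 (ZMod 2))) (xi top0)) v = 0 := by
      simp only [cup]; rw [cobd_dC, zero_mul]
    have e2 : cup 1 (dC (hi (ZMod 2) h)) (cobd 2 (cup 1 (dC (s5 (ZMod 2))) (xi top0))) v = 0 := by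
      show dC (hi (ZMod 2) h) v * cobd 2 (cup 1 (dC (s5 (ZMod 2))) (xi top0)) (fun j => v (j + 1)) = 0
      by_cases h0 : dC (hi (ZMod 2) h) v = 0
      · rw [h0, zero_mul]
      · rw [hX _ (hv.shift 1) ?_, mul_zero]
        have := (abs_le.1 (hhi v hv h h0 (0 + 1))).1
        linarith
    rw [e1, e2, mul_zero, add_zero]
  · -- `w2`
    have e0 := cobd_cup (p := 1) (q := 5) (Ψ := cup 1 (xi top0) (B2 h)) (dep_dC (s5 (ZMod 2))) v
    refine Eq.trans e0 ?_
    have e1 : cup (1 + 1) (cobd 1 (dC (s5 (ZMod 2)))) (cup 1 (xi top0) (B2 h)) v = 0 := by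
      simp only [cup]; rw [cobd_dC, zero_mul]
    have e2 : cup 1 (dC (s5 (ZMod 2))) (cobd 5 (cup 1 (xi top0) (B2 h))) v = 0 := by
      have e3 := cobd_cup (p := 1) (q := 4) (Ψ := B2 h) (dep_xi top0) (fun j => v (j + 1))
      show dC (s5 (ZMod 2)) v * cobd (1 + 4) (cup 1 (xi top0) (B2 h)) (fun j => v (j + 1)) = 0
      rw [e3]
      have e4 : cup 1 (xi top0) (cobd 4 (B2 h)) (fun j => v (j + 1)) = 0 := by
        show xi top0 (fun j => v (j + 1)) * cobd 4 (B2 h) (fun j => v (j + 1 + 1)) = 0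
        rw [hBcl _ (hv.shift 2) h hh, mul_zero]
      rw [e4, mul_zero, add_zero]
      show dC (s5 (ZMod 2)) v *
        (cobd 1 (xi top0) (fun j => v (j + 1)) * B2 h (fun j => v (j + (1 + 1) + 1))) = 0
      by_cases h0 : dC (s5 (ZMod 2)) v = 0
      · rw [h0, zero_mul]
      by_cases h1 : B2 h (fun j => v (j + (1 + 1) + 1)) = 0
      · rw [h1, mul_zero, mul_zero]
      · rw [htop _ (hv.shift 1) (h5 v hv h0 _) ?_, zero_mul, mul_zero]
        have h2 := (abs_le.1 (hBsup _ (hv.shift 3) h h1 0)).1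
        have h3 := (abs_le.1 (hvar v hv (0 + 1) (0 + 3))).1
        linarith
    rw [e1, e2, mul_zero, add_zero]
  · intro hne
    have h0 : dC (hi (ZMod 2) h) v ≠ 0 := fun h0 => hne (by simp only [A2, cup]; rw [h0, zero_mul])
    have := hhi v hv h h0 0
    linarith
  · intro hne
    have := hBsup v hv h hne 0
    linarith
  · intro hne
    have h0 : B2 h (fun j => v (j + 1 + 1)) ≠ 0 := by
      intro h0
      apply hne
      show dC (s5 (ZMod 2)) v * (xi top0 (fun j => v (j + 1)) * B2 h (fun j => v (j + 1 + 1))) = 0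
      rw [h0, mul_zero, mul_zero]
    have h1 := hBsup _ (hv.shift 2) h h0 0
    have h2 := hvar v hv 0 (0 + 2)
    have h3 : HH (v 0) - h = (HH (v 0) - HH (v (0 + 2))) + (HH (v (0 + 2)) - h) := by ring
    rw [h3]
    exact (abs_add_le _ _).trans_lt (by linarith)
  · -- `al2`
    have e0 := cobd_cup (p := 0) (q := 2) (Φ := fun y : ℕ → E6 => hi (ZMod 2) h (y 0))
      (Ψ := cup 1 (dC (s5 (ZMod 2))) (xi top0)) (fun y y' hy => by
        show hi (ZMod 2) h (y 0) = hi (ZMod 2) h (y' 0)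
        rw [hy 0 le_rfl]) v
    refine Eq.trans e0 ?_
    have e2 : cup (0 + 1) (cobd 0 fun y : ℕ → E6 => hi (ZMod 2) h (y 0))
        (cup 1 (dC (s5 (ZMod 2))) (xi top0)) v = A2 h v := by
      show cobd 0 (fun y : ℕ → E6 => hi (ZMod 2) h (y 0)) v *
        cup 1 (dC (s5 (ZMod 2))) (xi top0) (fun j => v (j + (0 + 1))) =
        dC (hi (ZMod 2) h) v * cup 1 (dC (s5 (ZMod 2))) (xi top0) (fun j => v (j + 1))
      have : cobd 0 (fun y : ℕ → E6 => hi (ZMod 2) h (y 0)) v = dC (hi (ZMod 2) h) v := by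
        simp only [cobd, sum_range_succ, sum_range_zero]
        show 0 + (-1) ^ 0 * hi (ZMod 2) h (v 1) + (-1) ^ 1 * hi (ZMod 2) h (v 0) =
          hi (ZMod 2) h (v 1) - hi (ZMod 2) h (v 0)
        ring
      rw [this]
    have e3 : cup 0 (fun y : ℕ → E6 => hi (ZMod 2) h (y 0))
        (cobd 2 (cup 1 (dC (s5 (ZMod 2))) (xi top0))) v = 0 := by
      show hi (ZMod 2) h (v 0) * cobd 2 (cup 1 (dC (s5 (ZMod 2))) (xi top0)) v = 0
      by_cases h0 : h < HH (v 0)
      · rw [hX v hv (by linarith), mul_zero]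
      · simp only [hi]; rw [if_neg h0, zero_mul]
    rw [e2, e3, mul_zero, add_zero]
  · intro l hl1 hl2
    show hi (ZMod 2) h (v 0) * (dC (s5 (ZMod 2)) v * xi top0 (fun j => v (j + 1))) *
      B2 l (fun j => v (j + 2)) =
      dC (s5 (ZMod 2)) v * (xi top0 (fun j => v (j + 1)) * B2 l (fun j => v (j + 2)))
    by_cases h0 : B2 l (fun j => v (j + 2)) = 0
    · rw [h0, mul_zero, mul_zero, mul_zero]
    · have h1 := (abs_le.1 (hBsup _ (hv.shift 2) l h0 0)).1
      have h2 := (abs_le.1 (hvar v hv 0 (0 + 2))).1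
      have h3 : hi (ZMod 2) h (v 0) = 1 := by
        simp only [hi]
        rw [if_pos (by linarith)]
      rw [h3, one_mul, mul_assoc]

end Pool.Agent.Helper76.Freq
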