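import Pool.Agent.Helper76.Freq.Cube

/-!
# Grids in the infinite cube
-/

set_option autoImplicit false

namespace Pool.Agent.Helper76.Freq

/-- the grid point `j / M` -/
noncomputable def gr (M j : ℕ) : unitInterval := Set.projIcc 0 1 zero_le_one ((j : ℝ) / M)

theorem gr_zero (M : ℕ) : gr M 0 = 0 := by
  simp [gr, Set.projIcc_left]

theorem gr_self {M : ℕ} (h : 0 < M) : gr M M = 1 := by
  have : ((M : ℝ) / M) = 1 := div_self (by positivity)
  simp [gr, this, Set.projIcc_right]

theorem coe_gr {M j : ℕ} (h : j ≤ M) : (gr M j : ℝ) = (j : ℝ) / M := by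
  rcases Nat.eq_zero_or_pos M with h0 | h0
  · subst h0
    have : j = 0 := by omega
    subst this
    simp [gr]
  · have h1 : (j : ℝ) / M ∈ Set.Icc (0 : ℝ) 1 := by
      have h2 : (j : ℝ) ≤ M := by exact_mod_cast h
      have h3 : (0 : ℝ) < M := by exact_mod_cast h0
      refine ⟨by positivity, (div_le_one h3).2 h2⟩
    rw [gr, Set.projIcc_of_mem _ h1]

end Pool.Agent.Helper76.Freq
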