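import Pool.Agent.Helper76.Freq.Word
import Pool.Agent.Helper76.Freq.Peel
import Pool.Agent.Helper76.Freq.Chain

/-!
# Evaluation of cyclic words on products of blocks
-/

set_option autoImplicit false

namespace Pool.Agent.Helper76.Freq

open Finset

variable {R : Type*} [CommRing R] {X P : Type}

/-! ### steps of paths -/

theorem Adm.exists_coord {d : ℕ} {Ms k pos : ℕ → ℕ} (h : Adm d Ms k pos) {j : ℕ} (hj : j < d) :
    ∃ l < d, pos l = j := by
  have h1 : (range d).image pos = range d := by
    apply eq_of_subset_of_card_le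
    · intro i hi
      obtain ⟨l, hl, rfl⟩ := mem_image.1 hi
      exact mem_range.2 (h.lt l (mem_range.1 hl))
    · rw [card_image_of_injOn]
      intro l hl l' hl' he
      exact h.inj l (by simpa using hl) l' (by simpa using hl') he
  have h2 : j ∈ (range d).image pos := by rw [h1]; exact mem_range.2 hj
  obtain ⟨l, hl, rfl⟩ := mem_image.1 h2
  exact ⟨l, mem_range.1 hl, rfl⟩

theorem Adm.step_same {d : ℕ} {Ms k pos : ℕ → ℕ} (h : Adm d Ms k pos) {l l' : ℕ} (hl : l < d)
    (hne : l' ≠ l) : gp d Ms k pos (pos l) l' = gp d Ms k pos (pos l + 1) l' := by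
  simp only [gp]
  by_cases h1 : l' < d
  · have : pos l' ≠ pos l := fun he => hne (h.inj l' h1 l hl he)
    have h2 : (pos l' < pos l) ↔ (pos l' < pos l + 1) := by omega
    simp only [h1, if_true, h2]
  · simp [h1]

/-- product cubes: the `b`-th component only depends on the `b`-th block of `q` coordinates -/
def ProdCube (q m : ℕ) (c : Q → ℕ → P) : Prop :=
  ∀ b < m, ∀ x x' : Q, (∀ l, q * b ≤ l → l < q * (b + 1) → x l = x' l) → c x b = c x' b

theorem ProdCube.step {q m : ℕ} {c : Q → ℕ → P} (hc : ProdCube q m c) {d : ℕ} {Ms k pos : ℕ → ℕ}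
    (h : Adm d Ms k pos) {l : ℕ} (hl : l < d) {b : ℕ} (hb : b < m)
    (hlb : ¬ (q * b ≤ l ∧ l < q * (b + 1))) :
    c (gp d Ms k pos (pos l)) b = c (gp d Ms k pos (pos l + 1)) b := by
  refine hc b hb _ _ fun l' h1 h2 => h.step_same hl ?_
  rintro rfl
  exact hlb ⟨h1, h2⟩

theorem vanish_mid {q m a pL pM pR : ℕ} (ha : a < m) (hdeg : pL + (pM + pR) = q * m)
    (hne : pM ≠ q) {ΦL Ψ ΦR : (ℕ → ℕ → P) → R}
    (hL : ∀ y : ℕ → ℕ → P, (∃ j < pL, ∀ b < m, b ≠ a → y j b = y (j + 1) b) → ΦL y = 0)
    (hM : ∀ y : ℕ → ℕ → P, (∃ j < pM, y j a = y (j + 1) a) → Ψ y = 0)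
    (hR : ∀ y : ℕ → ℕ → P, (∃ j < pR, ∀ b < m, b ≠ a → y j b = y (j + 1) b) → ΦR y = 0)
    {c : Q → ℕ → P} (hc : ProdCube q m c) (Ms : ℕ → ℕ) :
    ev (q * m) Ms (cup pL ΦL (cup pM Ψ ΦR)) c = 0 := by
  by_contra h0
  obtain ⟨k, pos, hadm, h1⟩ := exists_path h0
  apply hne
  simp only [cup] at h1
  have hL0 := left_ne_zero_of_mul h1
  have hM0 := left_ne_zero_of_mul (right_ne_zero_of_mul h1)
  have hR0 := right_ne_zero_of_mul (right_ne_zero_of_mul h1)
  have hdis : ∀ l b, q * a ≤ l → l < q * (a + 1) → b ≠ a → ¬ (q * b ≤ l ∧ l < q * (b + 1)) := by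
    rintro l b h2 h3 hba ⟨h4, h5⟩
    rcases lt_or_gt_of_ne hba with h6 | h6
    · have : q * (b + 1) ≤ q * a := Nat.mul_le_mul_left q h6
      omega
    · have : q * (a + 1) ≤ q * b := Nat.mul_le_mul_left q h6
      omega
  have hlt : q * (a + 1) ≤ q * m := Nat.mul_le_mul_left q ha
  have him : (Ico (q * a) (q * (a + 1))).image pos = Ico pL (pL + pM) := by
    ext j
    rw [mem_image, mem_Ico]
    constructor
    · rintro ⟨l, hl, rfl⟩
      obtain ⟨h2, h3⟩ := mem_Ico.1 hl
      have hld : l < q * m := by omega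
      have hpd := hadm.lt l hld
      have hsame : ∀ b < m, b ≠ a → c (gp (q * m) Ms k pos (pos l)) b =
          c (gp (q * m) Ms k pos (pos l + 1)) b :=
        fun b hb hba => hc.step hadm hld hb (hdis l b h2 h3 hba)
      constructor
      · by_contra h4
        exact hL0 (hL _ ⟨pos l, by omega, hsame⟩)
      · by_contra h4
        refine hR0 (hR _ ⟨pos l - pM - pL, by omega, fun b hb hba => ?_⟩)
        have e1 : pos l - pM - pL + pM + pL = pos l := by omega
        have e2 : pos l - pM - pL + 1 + pM + pL = pos l + 1 := by omega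
        simp only [e1, e2]
        exact hsame b hb hba
    · rintro ⟨h2, h3⟩
      obtain ⟨l, hl, rfl⟩ := hadm.exists_coord (show j < q * m by omega)
      refine ⟨l, ?_, rfl⟩
      by_contra h4
      rw [mem_Ico] at h4
      refine hM0 (hM _ ⟨pos l - pL, by omega, ?_⟩)
      have e1 : pos l - pL + pL = pos l := by omega
      have e2 : pos l - pL + 1 + pL = pos l + 1 := by omega
      simp only [e1, e2]
      exact hc.step hadm hl ha h4
  have hcard := congrArg card him
  rw [card_image_of_injOn, Nat.card_Ico, Nat.card_Ico] at hcard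
  · have : q * (a + 1) = q * a + q := by ring
    omega
  · intro l hl l' hl' he
    have h2 : l < q * m := by have := (mem_Ico.1 (by simpa using hl)).2; omega
    have h3 : l' < q * m := by have := (mem_Ico.1 (by simpa using hl')).2; omega
    exact hadm.inj l h2 l' h3 he

theorem vanish_first {q m b pL pR : ℕ} (hb : b < m) (hdeg : pL + pR = q * m) (hlt : q < pL)
    {ΦL Ξ : (ℕ → ℕ → P) → R}
    (hL : ∀ y : ℕ → ℕ → P, (∃ j < pL, y j b = y (j + 1) b) → ΦL y = 0)
    {c : Q → ℕ → P} (hc : ProdCube q m c) (Ms : ℕ → ℕ) :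
    ev (q * m) Ms (cup pL ΦL Ξ) c = 0 := by
  by_contra h0
  obtain ⟨k, pos, hadm, h1⟩ := exists_path h0
  simp only [cup] at h1
  have hL0 := left_ne_zero_of_mul h1
  have hsub : range pL ⊆ (Ico (q * b) (q * (b + 1))).image pos := by
    intro j hj
    have hj' := mem_range.1 hj
    obtain ⟨l, hl, rfl⟩ := hadm.exists_coord (show j < q * m by omega)
    refine mem_image.2 ⟨l, ?_, rfl⟩
    by_contra h4
    rw [mem_Ico] at h4
    exact hL0 (hL _ ⟨pos l, hj', hc.step hadm hl hb h4⟩)
  have := (card_le_card hsub).trans card_image_le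
  rw [card_range, Nat.card_Ico] at this
  have h5 : q * (b + 1) = q * b + q := by ring
  omega

/-! ### concatenation of discrete paths -/

/-- the concatenated periodic discrete path -/
def gl (path : ℕ → P → ℕ → X) (m n : ℕ) (p : ℕ → P) (I : ℕ) : X :=
  path ((I / n) % m) (p ((I / n) % m)) (I % n)

/-- the end points fit -/
def Joint (path : ℕ → P → ℕ → X) (m n : ℕ) : Prop :=
  ∀ b < m, ∀ p p' : P, path b p n = path ((b + 1) % m) p' 0

variable {path : ℕ → P → ℕ → X} {m n : ℕ}

theorem gl_block (hn : 0 < n) (hm : 0 < m) (hj : Joint path m n) (p : ℕ → P) {t i : ℕ} (hi : i ≤ n) :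
    gl path m n p (t * n + i) = path (t % m) (p (t % m)) i := by
  rcases hi.lt_or_eq with h | h
  · have h1 : (t * n + i) / n = t := by
      rw [add_comm, Nat.add_mul_div_right _ _ hn, Nat.div_eq_of_lt h, zero_add]
    have h2 : (t * n + i) % n = i := by
      rw [add_comm, Nat.add_mul_mod_self_right, Nat.mod_eq_of_lt h]
    rw [gl, h1, h2]
  · subst h
    have h1 : (t * i + i) / i = t + 1 := by
      rw [show t * i + i = (t + 1) * i by ring, Nat.mul_div_cancel _ hn]
    have h2 : (t * i + i) % i = 0 := by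
      rw [show t * i + i = (t + 1) * i by ring, Nat.mul_mod_left]
    rw [gl, h1, h2, hj (t % m) (Nat.mod_lt _ hm) (p (t % m)) (p ((t + 1) % m)), Nat.mod_add_mod]

/-- the glued path at times of the block `t` only depends on the parameter of this block -/
theorem gl_congr (hn : 0 < n) (hm : 0 < m) (hj : Joint path m n) {p p' : ℕ → P} {t I : ℕ}
    (h1 : t * n ≤ I) (h2 : I ≤ (t + 1) * n) (h : p (t % m) = p' (t % m)) :
    gl path m n p I = gl path m n p' I := by
  obtain ⟨i, rfl⟩ := Nat.exists_eq_add_of_le h1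
  have hi : i ≤ n := by
    have : (t + 1) * n = t * n + n := by ring
    omega
  rw [gl_block hn hm hj p hi, gl_block hn hm hj p' hi, h]

theorem hat_gl (hn : 0 < n) (hm : 0 < m) (hj : Joint path m n) (ℓ : Lt X R) (y : ℕ → ℕ → P)
    {t i : ℕ} (hi : i < n) :
    hat ℓ (t * n + i) (fun j => gl path m n (y j)) = hat ℓ i (fun j => path (t % m) (y j (t % m))) := by
  simp only [hat]
  congr 1
  funext j
  rw [gl_block hn hm hj (y j) hi.le, add_assoc, gl_block hn hm hj (y j) (show i + 1 ≤ n by omega)]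

/-- the cochain of a word in one block -/
def Wb (path : ℕ → P → ℕ → X) (n b : ℕ) (L : List (Lt X R)) (y : ℕ → ℕ → P) : R :=
  W L 0 n (fun j => path b (y j b))

theorem W_gl (hn : 0 < n) (hm : 0 < m) (hj : Joint path m n) (L : List (Lt X R)) (y : ℕ → ℕ → P)
    {t a b : ℕ} (hb : b ≤ n) :
    W L (t * n + a) (t * n + b) (fun j => gl path m n (y j)) =
      W L a b (fun j => path (t % m) (y j (t % m))) := by
  induction L generalizing a y with
  | nil => rfl
  | cons ℓ L ih =>
    rw [W_cons, W_cons]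
    have : Ico (t * n + a) (t * n + b) = Ico (a + t * n) (b + t * n) := by
      rw [add_comm, add_comm b]
    rw [this, ← sum_Ico_add' _ a b (t * n)]
    refine sum_congr rfl fun i hi => ?_
    have hi' := (mem_Ico.1 hi).2
    simp only [cup]
    rw [add_comm i (t * n), hat_gl hn hm hj ℓ y (by omega), add_assoc (t * n) i 1]
    congr 1
    exact ih _

/-- cup product of block cochains, the first one in block `s` -/
def SB (path : ℕ → P → ℕ → X) (n : ℕ) : ℕ → List (List (Lt X R)) → (ℕ → ℕ → P) → R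
  | _, [], _ => 1
  | s, G :: Gs, y => cup (wd G) (Wb path n s G) (SB path n (s + 1) Gs) y

/-- the same, in terms of times -/
def ST (path : ℕ → P → ℕ → X) (m n : ℕ) : ℕ → List (List (Lt X R)) → (ℕ → ℕ → P) → R
  | _, [], _ => 1
  | t, G :: Gs, y => cup (wd G) (fun y => W G (t * n) ((t + 1) * n) (fun j => gl path m n (y j)))
      (ST path m n (t + 1) Gs) y

theorem ST_eq_SB (hn : 0 < n) (hm : 0 < m) (hj : Joint path m n) (Gs : List (List (Lt X R)))
    {t u s : ℕ} (ht : t = u * m + s) (hs : s + Gs.length ≤ m) (y : ℕ → ℕ → P) :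
    ST path m n t Gs y = SB path n s Gs y := by
  induction Gs generalizing t s y with
  | nil => rfl
  | cons G Gs ih =>
    rw [List.length_cons] at hs
    have h1 : t % m = s := by
      rw [ht, add_comm, Nat.add_mul_mod_self_right, Nat.mod_eq_of_lt (by omega)]
    have h2 := W_gl (path := path) hn hm hj G y (t := t) (a := 0) (b := n) le_rfl
    rw [add_zero, show t * n + n = (t + 1) * n by ring, h1] at h2
    have h3 := ih (t := t + 1) (s := s + 1) (by rw [ht]; ring) (by omega) (fun j => y (j + wd G))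
    simp only [ST, SB, cup]
    rw [h2, h3]
    rfl

theorem ST_append (Gs Hs : List (List (Lt X R))) (t : ℕ) (y : ℕ → ℕ → P) :
    ST path m n t (Gs ++ Hs) y = cup (wd Gs.flatten) (ST path m n t Gs)
      (ST path m n (t + Gs.length) Hs) y := by
  induction Gs generalizing t y with
  | nil => simp [cup, ST]
  | cons G Gs ih =>
    simp only [List.cons_append, ST, List.flatten_cons, wd_append, List.length_cons]
    have e1 : cup (wd G + wd Gs.flatten) (fun y => cup (wd G)
          (fun y => W G (t * n) ((t + 1) * n) (fun j => gl path m n (y j)))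
          (ST path m n (t + 1) Gs) y) (ST path m n (t + (Gs.length + 1)) Hs) =
        cup (wd G) (fun y => W G (t * n) ((t + 1) * n) (fun j => gl path m n (y j)))
          (cup (wd Gs.flatten) (ST path m n (t + 1) Gs) (ST path m n (t + (Gs.length + 1)) Hs)) :=
      (cup_assoc _ _ _ _ _).symm
    rw [e1]
    simp only [cup]
    rw [ih]
    simp only [cup]
    rw [show t + 1 + Gs.length = t + (Gs.length + 1) by ring]

/-! ### only the matching distributions of the letters contribute -/

omit [CommRing R] in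
theorem wd_pos {L : List (Lt X R)} (h : ∀ ℓ ∈ L, 0 < ℓ.1) (hne : L ≠ []) : 0 < wd L := by
  obtain ⟨ℓ, L', rfl⟩ := List.exists_cons_of_ne_nil hne
  rw [wd_cons]
  have := h ℓ (by simp)
  omega

omit [CommRing R] in
theorem wd_take_add_drop (L : List (Lt X R)) (k : ℕ) : wd (L.take k) + wd (L.drop k) = wd L := by
  rw [← wd_append, List.take_append_drop]

omit [CommRing R] in
theorem wd_take_ne {G L' : List (Lt X R)} (h : ∀ ℓ ∈ G ++ L', 0 < ℓ.1) {k : ℕ}
    (hk : k ≤ (G ++ L').length) (hne : k ≠ G.length) : wd ((G ++ L').take k) ≠ wd G := by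
  rcases lt_or_gt_of_ne hne with h1 | h1
  · rw [List.take_append_of_le_length h1.le]
    have h2 : 0 < wd (G.drop k) := by
      apply wd_pos
      · intro ℓ hℓ
        exact h ℓ (by simp [List.mem_of_mem_drop hℓ])
      · simpa using h1
    have := wd_take_add_drop G k
    omega
  · rw [List.take_append, List.take_of_length_le h1.le, wd_append]
    have h2 : 0 < wd (L'.take (k - G.length)) := by
      apply wd_pos
      · intro ℓ hℓ
        exact h ℓ (by simp [List.mem_of_mem_take hℓ])
      · intro h3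
        rw [List.take_eq_nil_iff] at h3
        rcases h3 with h3 | h3
        · omega
        · rw [h3] at hk
          simp at hk
          omega
    omega

theorem mod_ne {m a b : ℕ} (h1 : a < b) (h2 : b < a + m) : a % m ≠ b % m := by
  intro h
  have : m ∣ b - a := (Nat.modEq_iff_dvd' h1.le).1 h
  have := Nat.le_of_dvd (by omega) this
  omega

theorem step_aux {q b I : ℕ} (hn : 0 < n) (hj : Joint path m n)
    (hI1 : b * n ≤ I) (hI2 : I < (b + 1) * n) {c : Q → ℕ → P} (hc : ProdCube q m c) (Ms : ℕ → ℕ)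
    (Gs : List (List (Lt X R))) (hpos : ∀ ℓ ∈ Gs.flatten, 0 < ℓ.1)
    (hnrm : ∀ ℓ ∈ Gs.flatten, Nrm (ℓ.1 + 1) ℓ.2) (hq : ∀ G ∈ Gs, wd G = q) {s : ℕ} (hs : 1 ≤ s)
    (hsm : s + Gs.length = m) (ΦL : (ℕ → ℕ → P) → R)
    (hL : ∀ y : ℕ → ℕ → P, (∃ j < q * s, ∀ t, b ≤ t → t < b + s → y j (t % m) = y (j + 1) (t % m)) →
      ΦL y = 0) :
    ev (q * m) Ms (cup (q * s) ΦL
      (fun y => W Gs.flatten ((b + s) * n) (I + m * n) (fun j => gl path m n (y j)))) c =
    ev (q * m) Ms (cup (q * s) ΦL (ST path m n (b + s) Gs)) c := by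
  have hm : 0 < m := by omega
  induction Gs generalizing s ΦL with
  | nil => rfl
  | cons G Gs ih =>
    rw [List.length_cons] at hsm
    set L := G ++ Gs.flatten with hLdef
    have hfl : (G :: Gs).flatten = L := by simp [hLdef]
    rw [hfl] at hpos hnrm ⊢
    have hqG : wd G = q := hq G (by simp)
    have hwdfl : wd Gs.flatten = q * Gs.length := by
      clear * - hq
      induction Gs with
      | nil => simp
      | cons G' Gs ih =>
        rw [List.flatten_cons, wd_append, ih (fun G'' h => hq G'' (by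
          rcases List.mem_cons.1 h with h | h
          · simp [h]
          · simp [h])), hq G' (by simp), List.length_cons]
        ring
    have hwdL : wd L = q + q * Gs.length := by rw [hLdef, wd_append, hqG, hwdfl]
    have hbs1 : (b + s) * n ≤ (b + s + 1) * n := Nat.mul_le_mul_right n (by omega)
    have hbs2 : (b + s + 1) * n ≤ I + m * n := by
      have h1 : (b + s + 1) * n ≤ (b + m) * n := Nat.mul_le_mul_right n (by omega)
      have h2 : (b + m) * n = b * n + m * n := by ring
      omega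
    -- normalisation of words in the block `b + s` and after it
    have hMid : ∀ L' : List (Lt X R), (∀ ℓ ∈ L', Nrm (ℓ.1 + 1) ℓ.2) → ∀ y : ℕ → ℕ → P,
        (∃ j < wd L', y j ((b + s) % m) = y (j + 1) ((b + s) % m)) →
        W L' ((b + s) * n) ((b + s + 1) * n) (fun j => gl path m n (y j)) = 0 := by
      rintro L' hL' y ⟨j, hj1, hj2⟩
      refine W_nrmOn hL' _ _ _ ⟨j, hj1, fun J h1 h2 => ?_⟩
      exact gl_congr hn hm hj h1 h2 hj2
    have hEnd : ∀ L' : List (Lt X R), (∀ ℓ ∈ L', Nrm (ℓ.1 + 1) ℓ.2) → ∀ y : ℕ → ℕ → P,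
        (∃ j < wd L', ∀ b' < m, b' ≠ (b + s) % m → y j b' = y (j + 1) b') →
        W L' ((b + s + 1) * n) (I + m * n) (fun j => gl path m n (y j)) = 0 := by
      rintro L' hL' y ⟨j, hj1, hj2⟩
      refine W_nrmOn hL' _ _ _ ⟨j, hj1, fun J h1 h2 => ?_⟩
      have h3 : J / n * n ≤ J := Nat.div_mul_le_self J n
      have h4 : J ≤ (J / n + 1) * n := by
        have := Nat.lt_div_mul_add (a := J) hn
        have h5 : (J / n + 1) * n = J / n * n + n := by ring
        omega
      have h5 : b + s + 1 ≤ J / n := (Nat.le_div_iff_mul_le hn).2 h1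
      have h6 : J / n < b + 1 + m := by
        rw [Nat.div_lt_iff_lt_mul hn]
        have : (b + 1 + m) * n = (b + 1) * n + m * n := by ring
        omega
      exact gl_congr hn hm hj h3 h4 (hj2 _ (Nat.mod_lt _ hm)
        (mod_ne (show b + s < J / n by omega) (show J / n < b + s + m by omega)).symm)
    have hLeft : ∀ y : ℕ → ℕ → P, (∃ j < q * s, ∀ b' < m, b' ≠ (b + s) % m →
        y j b' = y (j + 1) b') → ΦL y = 0 := by
      rintro y ⟨j, hj1, hj2⟩
      refine hL y ⟨j, hj1, fun t h1 h2 => hj2 _ (Nat.mod_lt _ hm)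
        (mod_ne (show t < b + s by omega) (show b + s < t + m by omega))⟩
    -- splitting
    have e1 : (fun y : ℕ → ℕ → P => W L ((b + s) * n) (I + m * n) (fun j => gl path m n (y j))) =
        fun y => ∑ k ∈ range (L.length + 1), cup (wd (L.take k))
          (fun y : ℕ → ℕ → P =>
            W (L.take k) ((b + s) * n) ((b + s + 1) * n) (fun j => gl path m n (y j)))
          (fun y : ℕ → ℕ → P =>
            W (L.drop k) ((b + s + 1) * n) (I + m * n) (fun j => gl path m n (y j))) y := by
      funext y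
      rw [W_split L hbs1 hbs2]
      rfl
    have e2 : cup (q * s) ΦL (fun y : ℕ → ℕ → P =>
          W L ((b + s) * n) (I + m * n) (fun j => gl path m n (y j))) =
        fun y => ∑ k ∈ range (L.length + 1), cup (q * s) ΦL (cup (wd (L.take k))
          (fun y : ℕ → ℕ → P =>
            W (L.take k) ((b + s) * n) ((b + s + 1) * n) (fun j => gl path m n (y j)))
          (fun y : ℕ → ℕ → P =>
            W (L.drop k) ((b + s + 1) * n) (I + m * n) (fun j => gl path m n (y j)))) y := by
      rw [e1]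
      funext y
      simp only [cup, mul_sum]
    rw [e2, ev_sum, sum_eq_single G.length]
    · have e3 : L.take G.length = G := by simp [hLdef]
      have e4 : L.drop G.length = Gs.flatten := by simp [hLdef]
      rw [e3, e4, cup_assoc, hqG]
      have e5 : q * s + q = q * (s + 1) := by ring
      have e6 := ih (fun ℓ hℓ => hpos ℓ (by simp [hLdef, hℓ])) (fun ℓ hℓ => hnrm ℓ (by simp [hLdef, hℓ]))
        (fun G' hG' => hq G' (by simp [hG'])) (s := s + 1) (by omega) (by omega)
        (cup (q * s) ΦL (fun y : ℕ → ℕ → P =>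
            W G ((b + s) * n) ((b + s + 1) * n) (fun j => gl path m n (y j)))) ?_
      · rw [e5]
        rw [show b + (s + 1) = b + s + 1 by ring] at e6
        rw [e6]
        have e7 : cup (q * (s + 1)) (cup (q * s) ΦL (fun y : ℕ → ℕ → P =>
            W G ((b + s) * n) ((b + s + 1) * n) (fun j => gl path m n (y j))))
              (ST path m n (b + s + 1) Gs) =
            cup (q * s) ΦL (ST path m n (b + s) (G :: Gs)) := by
          rw [← e5, ← cup_assoc]
          have : (ST path m n (b + s) (G :: Gs) : (ℕ → ℕ → P) → R) = cup (wd G)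
              (fun y => W G ((b + s) * n) ((b + s + 1) * n) (fun j => gl path m n (y j)))
              (ST path m n (b + s + 1) Gs) := rfl
          rw [this, hqG]
        rw [e7]
      · rintro y ⟨j, hj1, hj2⟩
        simp only [cup]
        by_cases h1 : j < q * s
        · rw [hL y ⟨j, h1, fun t h2 h3 => hj2 t h2 (by omega)⟩, zero_mul]
        · rw [hMid G (fun ℓ hℓ => hnrm ℓ (by simp [hLdef, hℓ])), mul_zero]
          have e5' : q * (s + 1) = q * s + q := by ring
          refine ⟨j - q * s, by omega, ?_⟩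
          have e8 : j - q * s + q * s = j := by omega
          have e9 : j - q * s + 1 + q * s = j + 1 := by omega
          simp only [e8, e9]
          exact hj2 (b + s) (by omega) (by omega)
    · intro k hk hne
      have hk' : k ≤ L.length := by have := mem_range.1 hk; omega
      refine vanish_mid (a := (b + s) % m) (Nat.mod_lt _ hm) (pR := wd (L.drop k)) ?_ ?_ hLeft
        (hMid _ fun ℓ hℓ => hnrm ℓ (List.mem_of_mem_take hℓ))
        (hEnd _ fun ℓ hℓ => hnrm ℓ (List.mem_of_mem_drop hℓ)) hc Ms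
      · rw [wd_take_add_drop, hwdL, ← hsm]
        ring
      · rw [← hqG]
        exact wd_take_ne hpos hk' hne
    · intro h
      exfalso
      apply h
      rw [mem_range, hLdef, List.length_append]
      omega

omit [CommRing R] in
theorem wd_flatten {q : ℕ} {Gs : List (List (Lt X R))} (hq : ∀ G ∈ Gs, wd G = q) :
    wd Gs.flatten = q * Gs.length := by
  induction Gs with
  | nil => simp
  | cons G' Gs ih =>
    rw [List.flatten_cons, wd_append, ih (fun G'' h => hq G'' (by simp [h])), hq G' (by simp),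
      List.length_cons]
    ring

theorem eval_interval {q b I : ℕ} (hn : 0 < n) (hb : b < m) (hj : Joint path m n)
    (hI1 : b * n ≤ I) (hI2 : I < (b + 1) * n) {c : Q → ℕ → P} (hc : ProdCube q m c) (Ms : ℕ → ℕ)
    (ℓ₀ : Lt X R) (h0 : Nrm (ℓ₀.1 + 1) ℓ₀.2) (h0q : ℓ₀.1 = q)
    (Gs : List (List (Lt X R))) (hpos : ∀ ℓ ∈ Gs.flatten, 0 < ℓ.1)
    (hnrm : ∀ ℓ ∈ Gs.flatten, Nrm (ℓ.1 + 1) ℓ.2) (hq : ∀ G ∈ Gs, wd G = q)
    (hsm : 1 + Gs.length = m) :
    ev (q * m) Ms (fun y => cup ℓ₀.1 (hat ℓ₀ I) (W Gs.flatten (I + 1) (I + m * n))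
      (fun j => gl path m n (y j))) c =
    ev (q * m) Ms (cup q (fun y : ℕ → ℕ → P => hat ℓ₀ I (fun j => gl path m n (y j)))
      (ST path m n (b + 1) Gs)) c := by
  have hm : 0 < m := by omega
  set L := Gs.flatten with hL
  have hwdL : wd L = q * Gs.length := wd_flatten hq
  have hb1 : (b + 1) * n ≤ I + m * n := by
    have h1 : (b + 1) * n ≤ (b + m) * n := Nat.mul_le_mul_right n (by omega)
    have h2 : (b + m) * n = b * n + m * n := by ring
    omega
  have hhat : ∀ y : ℕ → ℕ → P, (∃ j < q, y j (b % m) = y (j + 1) (b % m)) →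
      hat ℓ₀ I (fun j => gl path m n (y j)) = 0 := by
    rintro y ⟨j, hj1, hj2⟩
    refine h0.pr _ ⟨j, by omega, ?_⟩
    show (gl path m n (y j) I, gl path m n (y j) (I + 1)) =
      (gl path m n (y (j + 1)) I, gl path m n (y (j + 1)) (I + 1))
    rw [gl_congr hn hm hj hI1 hI2.le hj2, gl_congr hn hm hj (by omega) (by omega) hj2]
  have e1 : (fun y : ℕ → ℕ → P => cup ℓ₀.1 (hat ℓ₀ I) (W L (I + 1) (I + m * n))
      (fun j => gl path m n (y j))) = fun y => ∑ k ∈ range (L.length + 1),
      cup q (fun y : ℕ → ℕ → P => hat ℓ₀ I (fun j => gl path m n (y j))) (cup (wd (L.take k))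
          (fun y : ℕ → ℕ → P =>
            W (L.take k) (I + 1) ((b + 1) * n) (fun j => gl path m n (y j)))
          (fun y : ℕ → ℕ → P =>
            W (L.drop k) ((b + 1) * n) (I + m * n) (fun j => gl path m n (y j)))) y := by
    funext y
    simp only [cup, h0q]
    rw [W_split L (show I + 1 ≤ (b + 1) * n by omega) hb1, mul_sum]
    rfl
  rw [e1, ev_sum, sum_eq_single 0]
  · have := step_aux (q := q) (b := b) (I := I) hn hj hI1 hI2 hc Ms Gs hpos hnrm hq (s := 1) le_rfl
      hsm (fun y : ℕ → ℕ → P => hat ℓ₀ I (fun j => gl path m n (y j))) (by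
        rintro y ⟨j, hj1, hj2⟩
        exact hhat y ⟨j, by omega, hj2 b le_rfl (by omega)⟩)
    rw [mul_one] at this
    rw [← this]
    congr 1
    funext y
    simp only [cup, List.take_zero, List.drop_zero, wd_nil, W_nil, one_mul, add_zero]
    rfl
  · intro k hk hk0
    have hk' : k ≤ L.length := by have := mem_range.1 hk; omega
    rw [cup_assoc]
    have h2 : 0 < wd (L.take k) := by
      apply wd_pos
      · intro ℓ hℓ
        exact hpos ℓ (List.mem_of_mem_take hℓ)
      · intro h3
        rw [List.take_eq_nil_iff] at h3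
        rcases h3 with h3 | h3
        · exact hk0 h3
        · rw [h3] at hk'
          simp at hk'
          exact hk0 hk'
    refine vanish_first (b := b) hb (pR := wd (L.drop k)) ?_ (by omega) ?_ hc Ms
    · rw [add_assoc, wd_take_add_drop, hwdL, ← hsm]
      ring
    · rintro y ⟨j, hj1, hj2⟩
      have hbm : b % m = b := Nat.mod_eq_of_lt hb
      simp only [cup]
      by_cases h1 : j < q
      · rw [hhat y ⟨j, h1, by rw [hbm]; exact hj2⟩, zero_mul]
      · rw [W_nrmOn (fun ℓ hℓ => hnrm ℓ (List.mem_of_mem_take hℓ)), mul_zero]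
        refine ⟨j - q, by omega, fun J h3 h4 => ?_⟩
        have e8 : j - q + q = j := by omega
        have e9 : j - q + 1 + q = j + 1 := by omega
        simp only [e8, e9]
        exact gl_congr hn hm hj (by omega) h4 (by rw [hbm]; exact hj2)
  · intro h
    exact absurd (mem_range.2 (Nat.succ_pos _)) h

theorem sum_range_mul' {M : Type*} [AddCommMonoid M] (f : ℕ → M) (m n : ℕ) :
    ∑ I ∈ range (m * n), f I = ∑ b ∈ range m, ∑ I ∈ Ico (b * n) ((b + 1) * n), f I := by
  induction m with
  | zero => simp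
  | succ m ih =>
    rw [sum_range_succ, ← ih, range_eq_Ico, range_eq_Ico]
    exact (sum_Ico_consecutive _ (Nat.zero_le _) (Nat.mul_le_mul_right n (by omega))).symm

/-- evaluation of a cyclic word on a product cube, in terms of times -/
theorem eval_Th_cube {q : ℕ} (hn : 0 < n) (hj : Joint path m n) {c : Q → ℕ → P}
    (hc : ProdCube q m c) (Ms : ℕ → ℕ) (ℓ₀ : Lt X R) (h0 : Nrm (ℓ₀.1 + 1) ℓ₀.2) (h0q : ℓ₀.1 = q)
    (Gs : List (List (Lt X R))) (hpos : ∀ ℓ ∈ Gs.flatten, 0 < ℓ.1)
    (hnrm : ∀ ℓ ∈ Gs.flatten, Nrm (ℓ.1 + 1) ℓ.2) (hq : ∀ G ∈ Gs, wd G = q)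
    (hsm : 1 + Gs.length = m) :
    ev (q * m) Ms (fun y => Th ℓ₀ Gs.flatten (m * n) (fun j => gl path m n (y j))) c =
      ∑ b ∈ range m, ev (q * m) Ms (ST path m n b ([ℓ₀] :: Gs)) c := by
  have e0 : (fun y : ℕ → ℕ → P => Th ℓ₀ Gs.flatten (m * n) (fun j => gl path m n (y j))) =
      fun y => ∑ b ∈ range m, ∑ I ∈ Ico (b * n) ((b + 1) * n),
        cup ℓ₀.1 (hat ℓ₀ I) (W Gs.flatten (I + 1) (I + m * n)) (fun j => gl path m n (y j)) := by
    funext y
    rw [Th, sum_range_mul']
  rw [e0, ev_sum]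
  refine sum_congr rfl fun b hb => ?_
  rw [ev_sum]
  have e1 : ∀ I ∈ Ico (b * n) ((b + 1) * n),
      ev (q * m) Ms (fun y => cup ℓ₀.1 (hat ℓ₀ I) (W Gs.flatten (I + 1) (I + m * n))
        (fun j => gl path m n (y j))) c =
      ev (q * m) Ms (cup q (fun y : ℕ → ℕ → P => hat ℓ₀ I (fun j => gl path m n (y j)))
        (ST path m n (b + 1) Gs)) c := by
    intro I hI
    obtain ⟨h1, h2⟩ := mem_Ico.1 hI
    exact eval_interval hn (mem_range.1 hb) hj h1 h2 hc Ms ℓ₀ h0 h0q Gs hpos hnrm hq hsm
  rw [sum_congr rfl e1, ← ev_sum]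
  congr 1
  funext y
  have : wd [ℓ₀] = q := by simp [h0q]
  simp only [ST, this, cup, W_cons, W_nil, mul_one, sum_mul]

/-- rotation of the blocks -/
theorem ST_rotate {q : ℕ} (hn : 0 < n) (hj : Joint path m n) (Gs : List (List (Lt X R)))
    (hq : ∀ G ∈ Gs, wd G = q) (hm : Gs.length = m) {b : ℕ} (hb : b < m) :
    (ST path m n b Gs : (ℕ → ℕ → P) → R) =
      cup (q * (m - b)) (SB path n b (Gs.take (m - b))) (SB path n 0 (Gs.drop (m - b))) := by
  have hm0 : 0 < m := by omega
  funext y
  have h1 := ST_append (path := path) (m := m) (n := n) (Gs.take (m - b)) (Gs.drop (m - b)) b y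
  rw [List.take_append_drop] at h1
  have h2 : (Gs.take (m - b)).length = m - b := by rw [List.length_take]; omega
  have h3 : wd (Gs.take (m - b)).flatten = q * (m - b) := by
    rw [wd_flatten (q := q) fun G hG => hq G (List.mem_of_mem_take hG), h2]
  rw [h1, h3, h2]
  simp only [cup]
  rw [ST_eq_SB hn hm0 hj (Gs.take (m - b)) (t := b) (u := 0) (s := b) (by simp) (by omega),
    ST_eq_SB hn hm0 hj (Gs.drop (m - b)) (t := b + (m - b)) (u := 1) (s := 0) (by omega)
      (by rw [List.length_drop]; omega)]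

end Pool.Agent.Helper76.Freq
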