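import Pool.Agent.Helper76.Freq.Block

/-!
# Evaluation of cyclic words on cross powers
-/

set_option autoImplicit false

namespace Pool.Agent.Helper76.Freq

open Finset

section EvC

variable {Y Y' Y₁ Y₂ : Type} [TopologicalSpace Y] [TopologicalSpace Y'] [TopologicalSpace Y₁]
  [TopologicalSpace Y₂] {G : Type*} [Field G]

/-- evaluation of a cochain on a chain of bundled cubes -/
noncomputable def EvC (d M : ℕ) (Φ : (ℕ → Y) → G) (z : C(Q, Y) →₀ G) : G :=
  z.sum fun c r => r * ev d (fun _ => M) Φ c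

theorem EvC_zero (d M : ℕ) (Φ : (ℕ → Y) → G) : EvC d M Φ 0 = 0 := Finsupp.sum_zero_index

theorem EvC_single (d M : ℕ) (Φ : (ℕ → Y) → G) (c : C(Q, Y)) (r : G) :
    EvC d M Φ (Finsupp.single c r) = r * ev d (fun _ => M) Φ c := by
  rw [EvC, Finsupp.sum_single_index (zero_mul _)]

theorem EvC_add (d M : ℕ) (Φ : (ℕ → Y) → G) (z z' : C(Q, Y) →₀ G) :
    EvC d M Φ (z + z') = EvC d M Φ z + EvC d M Φ z' := by
  classical
  exact Finsupp.sum_add_index' (fun c => zero_mul _) (fun c r r' => add_mul _ _ _)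

theorem EvC_sub (d M : ℕ) (Φ : (ℕ → Y) → G) (z z' : C(Q, Y) →₀ G) :
    EvC d M Φ (z - z') = EvC d M Φ z - EvC d M Φ z' := by
  have := EvC_add d M Φ (z - z') z'
  rw [sub_add_cancel] at this
  rw [this]
  ring

theorem EvC_mapDomain (d M : ℕ) (h : C(Y, Y')) (Φ : (ℕ → Y') → G) (z : C(Q, Y) →₀ G) :
    EvC d M Φ (z.mapDomain fun c => h.comp c) = EvC d M (fun y => Φ (fun j => h (y j))) z := by
  induction z using Finsupp.induction_linear with
  | zero => rw [Finsupp.mapDomain_zero, EvC_zero, EvC_zero]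
  | add f g hf hg => rw [Finsupp.mapDomain_add, EvC_add, EvC_add, hf, hg]
  | single c r =>
    rw [Finsupp.mapDomain_single, EvC_single, EvC_single, ev_pull h Φ c]
    rfl

theorem EvC_congr {d M : ℕ} {Φ Ψ : (ℕ → Y) → G} {z : C(Q, Y) →₀ G}
    (h : ∀ c ∈ z.support, ev d (fun _ => M) Φ c = ev d (fun _ => M) Ψ c) :
    EvC d M Φ z = EvC d M Ψ z := by
  refine Finsupp.sum_congr fun c hc => ?_
  rw [h c hc]

theorem EvC_sum {ι : Type*} (s : Finset ι) (d M : ℕ) (Φ : ι → (ℕ → Y) → G) (z : C(Q, Y) →₀ G) :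
    ∑ i ∈ s, EvC d M (Φ i) z = z.sum fun c r => r * ∑ i ∈ s, ev d (fun _ => M) (Φ i) c := by
  simp only [EvC, Finsupp.sum, mul_sum]
  rw [sum_comm]

theorem EvC_insert {p q r M : ℕ} (ΦL ΦR : (ℕ → Y₂) → G) (Ψ : (ℕ → Y₁) → G) (hL : Dep p ΦL)
    (hL' : Nrm p ΦL) (hΨ : Dep q Ψ) (hR : Nrm r ΦR) (z₁ : C(Q, Y₁) →₀ G) (z₂ : C(Q, Y₂) →₀ G) :
    EvC (q + (p + r)) M (cup p (fun y : ℕ → Y₁ × Y₂ => ΦL (fun j => (y j).2))
      (cup q (fun y => Ψ (fun j => (y j).1)) (fun y => ΦR (fun j => (y j).2)))) (cross q z₁ z₂) =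
    (-1) ^ (p * q) * (EvC q M Ψ z₁ * EvC (p + r) M (cup p ΦL ΦR) z₂) := by
  induction z₁ using Finsupp.induction_linear with
  | zero => rw [cross_zero_left, EvC_zero, EvC_zero, zero_mul, mul_zero]
  | add f g hf hg => rw [cross_add_left, EvC_add, EvC_add, hf, hg]; ring
  | single c₁ r₁ =>
    induction z₂ using Finsupp.induction_linear with
    | zero => rw [cross_zero_right, EvC_zero, EvC_zero, mul_zero, mul_zero]
    | add f g hf hg => rw [cross_add_right, EvC_add, EvC_add, hf, hg]; ring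
    | single c₂ r₂ =>
      rw [cross_single_single, EvC_single, EvC_single, EvC_single]
      have := ev_insert (Ms := fun _ => M) ΦL ΦR Ψ hL hL' hΨ hR c₁ c₂
      have h2 : (⇑(crossC q c₁ c₂) : Q → Y₁ × Y₂) = fun x => (c₁ (tr q x), c₂ (sh q x)) := rfl
      rw [h2, this]
      ring

end EvC

section pw

set_option linter.unusedSectionVars false

variable {P : Type} [TopologicalSpace P] [Nonempty P] {G : Type*} [Field G] {X : Type}

theorem support_cross {Y₁ Y₂ : Type} [TopologicalSpace Y₁] [TopologicalSpace Y₂] (q : ℕ)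
    (z₁ : C(Q, Y₁) →₀ G) (z₂ : C(Q, Y₂) →₀ G) (c : C(Q, Y₁ × Y₂)) (hc : c ∈ (cross q z₁ z₂).support) :
    ∃ c₁ ∈ z₁.support, ∃ c₂ ∈ z₂.support, c = crossC q c₁ c₂ := by
  classical
  unfold cross at hc
  obtain ⟨c₁, hc₁, h1⟩ := Finset.mem_biUnion.1 (Finsupp.support_sum hc)
  obtain ⟨c₂, hc₂, h2⟩ := Finset.mem_biUnion.1 (Finsupp.support_sum h1)
  refine ⟨c₁, hc₁, c₂, hc₂, ?_⟩
  have := Finsupp.support_single_subset h2
  simpa using this

theorem prodCube_of_mem (q m : ℕ) (z : C(Q, P) →₀ G) (c : C(Q, ℕ → P))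
    (hc : c ∈ (pw q m z).support) : ProdCube q m c := by
  classical
  induction m generalizing c with
  | zero => intro b hb; omega
  | succ m ih =>
    obtain ⟨c', hc', rfl⟩ := Finset.mem_image.1 (Finsupp.mapDomain_support hc)
    obtain ⟨c₁, -, c₂, hc₂, rfl⟩ := support_cross q _ _ _ hc'
    have h2 := ih c₂ hc₂
    rintro (_ | b) hb x x' hx
    · show c₁ (tr q x) = c₁ (tr q x')
      congr 1
      funext l
      simp only [tr]
      split_ifs with h
      · exact hx l (by simp) (by simpa using h)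
      · rfl
    · show c₂ (sh q x) b = c₂ (sh q x') b
      refine h2 b (by omega) _ _ fun l h3 h4 => ?_
      refine hx (l + q) ?_ ?_
      · have : q * (b + 1) = q * b + q := by ring
        omega
      · have : q * (b + 1 + 1) = q * (b + 1) + q := by ring
        omega

/-- value of the word `L` on the block `b` -/
noncomputable def EB (path : ℕ → P → ℕ → X) (n q M : ℕ) (z : C(Q, P) →₀ G) (b : ℕ)
    (L : List (Lt X G)) : G := EvC q M (fun y : ℕ → P => W L 0 n (fun j => path b (y j))) z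

/-- product of the values of the words of a list on successive blocks -/
noncomputable def prE (path : ℕ → P → ℕ → X) (n q M : ℕ) (z : C(Q, P) →₀ G) :
    ℕ → List (List (Lt X G)) → G
  | _, [] => 1
  | s, L :: Ls => EB path n q M z s L * prE path n q M z (s + 1) Ls

theorem prE_succ (path : ℕ → P → ℕ → X) (n q M : ℕ) (z : C(Q, P) →₀ G) (s : ℕ)
    (Ls : List (List (Lt X G))) :
    prE (fun b => path (b + 1)) n q M z s Ls = prE path n q M z (s + 1) Ls := by
  induction Ls generalizing s with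
  | nil => rfl
  | cons L Ls ih => rw [prE, prE, ih]; rfl

theorem SB_succ (path : ℕ → P → ℕ → X) (n s : ℕ) (Ls : List (List (Lt X G))) (y : ℕ → ℕ → P) :
    SB path n (s + 1) Ls y = SB (fun b => path (b + 1)) n s Ls (fun j b => y j (b + 1)) := by
  induction Ls generalizing s y with
  | nil => rfl
  | cons L Ls ih =>
    simp only [SB, cup]
    rw [ih]
    rfl

theorem SB_dep {path : ℕ → P → ℕ → X} {n s q : ℕ} {Ls : List (List (Lt X G))}
    (h : ∀ ℓ ∈ Ls.flatten, Dep (ℓ.1 + 1) ℓ.2) (hq : ∀ L ∈ Ls, wd L = q) :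
    Dep (q * Ls.length) (SB path n s Ls) := by
  induction Ls generalizing s with
  | nil => intro y y' _; rfl
  | cons L Ls ih =>
    have e : q * (L :: Ls).length = wd L + q * Ls.length := by
      rw [hq L (by simp), List.length_cons]; ring
    rw [e]
    refine Dep.cup (Φ := Wb path n s L) (Ψ := SB path n (s + 1) Ls) ?_
      (ih (fun ℓ hℓ => h ℓ (by simp [hℓ])) (fun L' hL' => hq L' (by simp [hL'])))
    intro y y' hy
    exact W_dep (fun ℓ hℓ => h ℓ (by simp [hℓ])) 0 n _ _ fun j hj => by rw [hy j hj]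

theorem SB_nrm {path : ℕ → P → ℕ → X} {n s q : ℕ} {Ls : List (List (Lt X G))}
    (h : ∀ ℓ ∈ Ls.flatten, Nrm (ℓ.1 + 1) ℓ.2) (hq : ∀ L ∈ Ls, wd L = q) :
    Nrm (q * Ls.length) (SB path n s Ls) := by
  induction Ls generalizing s with
  | nil => rintro y ⟨j, hj, _⟩; simp at hj
  | cons L Ls ih =>
    have e : q * (L :: Ls).length = wd L + q * Ls.length := by
      rw [hq L (by simp), List.length_cons]; ring
    rw [e]
    refine Nrm.cup (Φ := Wb path n s L) (Ψ := SB path n (s + 1) Ls) ?_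
      (ih (fun ℓ hℓ => h ℓ (by simp [hℓ])) (fun L' hL' => hq L' (by simp [hL'])))
    rintro y ⟨j, hj, hjj⟩
    exact W_nrmOn (fun ℓ hℓ => h ℓ (by simp [hℓ])) 0 n _ ⟨j, hj, fun I _ _ => by rw [hjj]⟩

/-- peel the first block -/
theorem EvC_peel {path : ℕ → P → ℕ → X} {n q M m p r : ℕ} (hm : q * m = p + r)
    (z : C(Q, P) →₀ G) (L : List (Lt X G)) (hL : wd L = q) (hdep : ∀ ℓ ∈ L, Dep (ℓ.1 + 1) ℓ.2)
    (ΦL ΦR : (ℕ → ℕ → P) → G) (h1 : Dep p ΦL) (h2 : Nrm p ΦL) (h3 : Nrm r ΦR) :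
    EvC (q * (m + 1)) M (cup p (fun y : ℕ → ℕ → P => ΦL (fun j b => y j (b + 1)))
      (cup q (Wb path n 0 L) (fun y : ℕ → ℕ → P => ΦR (fun j b => y j (b + 1)))))
      (pw q (m + 1) z) =
    (-1) ^ (p * q) * (EB path n q M z 0 L * EvC (q * m) M (cup p ΦL ΦR) (pw q m z)) := by
  have e : q * (m + 1) = q + (p + r) := by rw [← hm]; ring
  rw [pw, EvC_mapDomain, e, hm]
  exact EvC_insert ΦL ΦR (fun y : ℕ → P => W L 0 n (fun j => path 0 (y j))) h1 h2
    (by
      have := W_dep hdep 0 n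
      rw [hL] at this
      intro y y' hy
      exact this _ _ fun j hj => by rw [hy j hj]) h3 z (pw q m z)

theorem EvC_SB {path : ℕ → P → ℕ → X} {n q M : ℕ} (z : C(Q, P) →₀ G)
    (Hs : List (List (Lt X G))) (hdep : ∀ ℓ ∈ Hs.flatten, Dep (ℓ.1 + 1) ℓ.2)
    (hnrm : ∀ ℓ ∈ Hs.flatten, Nrm (ℓ.1 + 1) ℓ.2) (hq : ∀ L ∈ Hs, wd L = q) :
    EvC (q * Hs.length) M (SB path n 0 Hs) (pw q Hs.length z) = prE path n q M z 0 Hs := by
  induction Hs generalizing path with
  | nil =>
    show EvC (q * 0) M (fun _ => (1 : G)) (Finsupp.single _ 1) = 1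
    rw [EvC_single, mul_zero, one_mul]
    rfl
  | cons H Hs ih =>
    have hH : wd H = q := hq H (by simp)
    have h1 := EvC_peel (path := path) (n := n) (M := M) (m := Hs.length) (p := 0)
      (r := q * Hs.length) (by ring) z H hH (fun ℓ hℓ => hdep ℓ (by simp [hℓ]))
      (fun _ => 1) (SB (fun b => path (b + 1)) n 0 Hs) (fun _ _ _ => rfl)
      (by rintro y ⟨j, hj, _⟩; omega) (SB_nrm (fun ℓ hℓ => hnrm ℓ (by simp [hℓ]))
        (fun L' hL' => hq L' (by simp [hL'])))
    have e1 : cup 0 (fun _ : ℕ → ℕ → P => (1 : G)) (cup q (Wb path n 0 H)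
        (fun y : ℕ → ℕ → P => SB (fun b => path (b + 1)) n 0 Hs (fun j b => y j (b + 1)))) =
        SB path n 0 (H :: Hs) := by
      funext y
      simp only [cup, SB, one_mul, add_zero, hH]
      rw [SB_succ]
    have e2 : cup 0 (fun _ : ℕ → ℕ → P => (1 : G)) (SB (fun b => path (b + 1)) n 0 Hs) =
        SB (fun b => path (b + 1)) n 0 Hs := by
      funext y
      simp only [cup, one_mul, add_zero]
    rw [e1, e2, ih (path := fun b => path (b + 1)) (fun ℓ hℓ => hdep ℓ (by simp [hℓ]))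
      (fun ℓ hℓ => hnrm ℓ (by simp [hℓ])) (fun L' hL' => hq L' (by simp [hL'])), prE_succ] at h1
    rw [List.length_cons, h1]
    simp [prE]

theorem EvC_rotate {path : ℕ → P → ℕ → X} {n q M : ℕ} (z : C(Q, P) →₀ G)
    (Hs Ls : List (List (Lt X G))) (hdep : ∀ ℓ ∈ (Hs ++ Ls).flatten, Dep (ℓ.1 + 1) ℓ.2)
    (hnrm : ∀ ℓ ∈ (Hs ++ Ls).flatten, Nrm (ℓ.1 + 1) ℓ.2) (hq : ∀ L ∈ Hs ++ Ls, wd L = q) :
    EvC (q * (Ls.length + Hs.length)) M (cup (q * Hs.length) (SB path n Ls.length Hs)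
      (SB path n 0 Ls)) (pw q (Ls.length + Hs.length) z) =
    (-1) ^ (q * Hs.length * q * Ls.length) * (prE path n q M z 0 Ls *
      prE path n q M z Ls.length Hs) := by
  induction Ls generalizing path with
  | nil =>
    have e1 : cup (q * Hs.length) (SB path n ([] : List (List (Lt X G))).length Hs)
        (SB path n 0 []) = SB path n 0 Hs := by
      funext y
      simp [cup, SB]
    rw [e1]
    simp only [List.length_nil, zero_add, mul_zero, pow_zero, one_mul, prE]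
    simp only [List.append_nil] at hdep hnrm hq
    exact EvC_SB z Hs hdep hnrm hq
  | cons L Ls ih =>
    have hL : wd L = q := hq L (by simp)
    have m1 : ∀ ℓ ∈ Hs.flatten, ℓ ∈ (Hs ++ L :: Ls).flatten := fun ℓ hℓ => by
      rw [List.flatten_append, List.mem_append]; exact Or.inl hℓ
    have m2 : ∀ ℓ ∈ Ls.flatten, ℓ ∈ (Hs ++ L :: Ls).flatten := fun ℓ hℓ => by
      rw [List.flatten_append, List.mem_append, List.flatten_cons, List.mem_append]
      exact Or.inr (Or.inr hℓ)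
    have m3 : ∀ ℓ ∈ (Hs ++ Ls).flatten, ℓ ∈ (Hs ++ L :: Ls).flatten := fun ℓ hℓ => by
      rw [List.flatten_append, List.mem_append] at hℓ
      exact hℓ.elim (m1 ℓ) (m2 ℓ)
    have m4 : ∀ L' ∈ Hs ++ Ls, L' ∈ Hs ++ L :: Ls := fun L' hL' => by
      rw [List.mem_append] at hL' ⊢
      exact hL'.elim Or.inl (fun h => Or.inr (List.mem_cons_of_mem _ h))
    have h1 := EvC_peel (path := path) (n := n) (M := M) (m := Ls.length + Hs.length)
      (p := q * Hs.length) (r := q * Ls.length) (by ring) z L hL (fun ℓ hℓ => hdep ℓ (by simp [hℓ]))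
      (SB (fun b => path (b + 1)) n Ls.length Hs) (SB (fun b => path (b + 1)) n 0 Ls)
      (SB_dep (fun ℓ hℓ => hdep ℓ (m1 ℓ hℓ)) (fun L' hL' => hq L' (by simp [hL'])))
      (SB_nrm (fun ℓ hℓ => hnrm ℓ (m1 ℓ hℓ)) (fun L' hL' => hq L' (by simp [hL'])))
      (SB_nrm (fun ℓ hℓ => hnrm ℓ (m2 ℓ hℓ)) (fun L' hL' => hq L' (by simp [hL'])))
    have e1 : cup (q * Hs.length)
        (fun y : ℕ → ℕ → P => SB (fun b => path (b + 1)) n Ls.length Hs (fun j b => y j (b + 1)))
        (cup q (Wb path n 0 L)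
        (fun y : ℕ → ℕ → P => SB (fun b => path (b + 1)) n 0 Ls (fun j b => y j (b + 1)))) =
        cup (q * Hs.length) (SB path n (L :: Ls).length Hs) (SB path n 0 (L :: Ls)) := by
      funext y
      simp only [cup, SB, List.length_cons, hL]
      rw [SB_succ, SB_succ]
    rw [e1, ih (path := fun b => path (b + 1)) (fun ℓ hℓ => hdep ℓ (m3 ℓ hℓ))
      (fun ℓ hℓ => hnrm ℓ (m3 ℓ hℓ)) (fun L' hL' => hq L' (m4 L' hL')),
      prE_succ, prE_succ] at h1
    rw [show (L :: Ls).length + Hs.length = Ls.length + Hs.length + 1 by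
      rw [List.length_cons]; ring, h1]
    simp only [prE, List.length_cons]
    have e2 : (-1 : G) ^ (q * Hs.length * q * (Ls.length + 1)) =
        (-1) ^ (q * Hs.length * q) * (-1) ^ (q * Hs.length * q * Ls.length) := by
      rw [← pow_add]; congr 1; ring
    rw [e2]
    ring

/-- evaluation of cyclic words on the cross power -/
theorem EvC_Th {path : ℕ → P → ℕ → X} {m n q M : ℕ} (hn : 0 < n) (hj : Joint path m n)
    (z : C(Q, P) →₀ G) (ℓ₀ : Lt X G) (h0q : ℓ₀.1 = q) (Gs : List (List (Lt X G)))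
    (hpos : ∀ ℓ ∈ Gs.flatten, 0 < ℓ.1)
    (hdep : ∀ ℓ ∈ ([ℓ₀] :: Gs).flatten, Dep (ℓ.1 + 1) ℓ.2)
    (hnrm : ∀ ℓ ∈ ([ℓ₀] :: Gs).flatten, Nrm (ℓ.1 + 1) ℓ.2) (hq : ∀ L ∈ Gs, wd L = q)
    (hsm : 1 + Gs.length = m) :
    EvC (q * m) M (fun y => Th ℓ₀ Gs.flatten (m * n) (fun j => gl path m n (y j))) (pw q m z) =
      ∑ b ∈ range m, (-1) ^ (q * (m - b) * q * b) *
        (prE path n q M z 0 (([ℓ₀] :: Gs).drop (m - b)) *
          prE path n q M z b (([ℓ₀] :: Gs).take (m - b))) := by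
  set Ks : List (List (Lt X G)) := [ℓ₀] :: Gs with hKs
  have hKq : ∀ L ∈ Ks, wd L = q := by
    intro L hL
    rcases List.mem_cons.1 hL with h | h
    · rw [h]; simp [h0q]
    · exact hq L h
  have hKlen : Ks.length = m := by rw [hKs, List.length_cons]; omega
  have e1 : EvC (q * m) M (fun y => Th ℓ₀ Gs.flatten (m * n) (fun j => gl path m n (y j)))
      (pw q m z) = ∑ b ∈ range m, EvC (q * m) M (ST path m n b Ks) (pw q m z) := by
    rw [EvC_sum, EvC]
    refine Finsupp.sum_congr fun c hc => ?_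
    congr 1
    exact eval_Th_cube hn hj (prodCube_of_mem q m z c hc) _ ℓ₀
      (hnrm ℓ₀ (by simp [hKs])) h0q Gs hpos (fun ℓ hℓ => hnrm ℓ (by
        rw [hKs, List.flatten_cons, List.mem_append]; exact Or.inr hℓ)) hq hsm
  rw [e1]
  refine sum_congr rfl fun b hb => ?_
  have hb' := mem_range.1 hb
  rw [ST_rotate hn hj Ks hKq hKlen hb']
  have hlen1 : (Ks.take (m - b)).length = m - b := by rw [List.length_take]; omega
  have hlen2 : (Ks.drop (m - b)).length = b := by rw [List.length_drop]; omega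
  have h2 := EvC_rotate (path := path) (n := n) (q := q) (M := M) z (Ks.take (m - b))
    (Ks.drop (m - b)) (by rw [List.take_append_drop]; exact hdep)
    (by rw [List.take_append_drop]; exact hnrm) (by rw [List.take_append_drop]; exact hKq)
  rw [hlen1, hlen2, show b + (m - b) = m by omega] at h2
  exact h2

end pw

end Pool.Agent.Helper76.Freq
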