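import Pool.Agent.Helper76.Freq.Defs
/-! Piece LOOP-a of MP_5f815a_gt: polygon loops, values, continuity into every natural topology,
joint uniform continuity of continuous families of loops. -/

set_option autoImplicit false

namespace Pool.Agent.Helper76.Freq

open scoped RealInnerProductSpace ContDiff Topology

/-! ### radial projection and segments -/

section basic

variable {V : Type*} [NormedAddCommGroup V] [InnerProductSpace ℝ V]

theorem norm_nrm {v : V} (hv : v ≠ 0) : ‖nrm v‖ = 1 := by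
  unfold nrm
  rw [norm_smul, norm_inv, norm_norm, inv_mul_cancel₀ (norm_ne_zero_iff.2 hv)]

theorem seg_zero (P P' : V) : seg P P' 0 = P := by simp [seg]

theorem seg_one (P P' : V) : seg P P' 1 = P' := by simp [seg]

/-- the derivative of the radially projected segment -/
noncomputable def dseg (P P' : V) (x : ℝ) : V :=
  (-(‖seg P P' x‖ ^ 2)⁻¹ * (‖seg P P' x‖⁻¹ * ⟪seg P P' x, P' - P⟫)) • seg P P' x +
    ‖seg P P' x‖⁻¹ • (P' - P)

theorem hasDerivAt_seg (P P' : V) (x : ℝ) : HasDerivAt (seg P P') (P' - P) x := by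
  have h1 : HasDerivAt (fun x : ℝ => (1 - x) • P) ((-1 : ℝ) • P) x := by
    have : HasDerivAt (fun x : ℝ => 1 - x) (-1) x := by
      simpa using (hasDerivAt_id x).const_sub 1
    exact this.smul_const P
  have h2 : HasDerivAt (fun x : ℝ => x • P') ((1 : ℝ) • P') x :=
    (hasDerivAt_id x).smul_const P'
  have h3 := h1.add h2
  have e : (-1 : ℝ) • P + (1 : ℝ) • P' = P' - P := by
    rw [neg_one_smul, one_smul]; abel
  rw [e] at h3
  exact h3

theorem hasDerivAt_nrm_seg {P P' : V} {x : ℝ} (h : seg P P' x ≠ 0) :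
    HasDerivAt (fun x => nrm (seg P P' x)) (dseg P P' x) x := by
  have h1 := hasDerivAt_seg P P' x
  have hn : ‖seg P P' x‖ ≠ 0 := norm_ne_zero_iff.2 h
  have h2 : HasDerivAt (fun x => ‖seg P P' x‖ ^ 2) (2 * ⟪seg P P' x, P' - P⟫) x := h1.norm_sq
  have h3 : HasDerivAt (fun x => Real.sqrt (‖seg P P' x‖ ^ 2))
      (2 * ⟪seg P P' x, P' - P⟫ / (2 * Real.sqrt (‖seg P P' x‖ ^ 2))) x :=
    h2.sqrt (pow_ne_zero 2 hn)
  have h4 : HasDerivAt (fun x => ‖seg P P' x‖) (‖seg P P' x‖⁻¹ * ⟪seg P P' x, P' - P⟫) x := by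
    have e1 : (fun x => Real.sqrt (‖seg P P' x‖ ^ 2)) = fun x => ‖seg P P' x‖ := by
      funext y; exact Real.sqrt_sq (norm_nonneg _)
    rw [e1] at h3
    convert h3 using 1
    rw [Real.sqrt_sq (norm_nonneg _)]
    field_simp
  have h5 : HasDerivAt (fun x => ‖seg P P' x‖⁻¹)
      (-(‖seg P P' x‖⁻¹ * ⟪seg P P' x, P' - P⟫) / ‖seg P P' x‖ ^ 2) x := h4.inv hn
  have h6 : HasDerivAt (fun x => ‖seg P P' x‖⁻¹ • seg P P' x)
    (‖seg P P' x‖⁻¹ • (P' - P) +
      (-(‖seg P P' x‖⁻¹ * ⟪seg P P' x, P' - P⟫) / ‖seg P P' x‖ ^ 2) • seg P P' x) x := h5.smul h1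
  have e : dseg P P' x = ‖seg P P' x‖⁻¹ • (P' - P) +
      (-(‖seg P P' x‖⁻¹ * ⟪seg P P' x, P' - P⟫) / ‖seg P P' x‖ ^ 2) • seg P P' x := by
    unfold dseg
    rw [add_comm]
    congr 2
    field_simp
  rw [e]
  exact h6

theorem contDiffOn_nrm_seg {P P' : V} {s : Set ℝ} (h : ∀ x ∈ s, seg P P' x ≠ 0) :
    ContDiffOn ℝ ∞ (fun x => nrm (seg P P' x)) s := by
  unfold nrm
  have h1 : ContDiff ℝ ∞ (fun x => seg P P' x) := by
    unfold seg
    fun_prop
  refine ContDiffOn.smul ?_ h1.contDiffOn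
  refine ContDiffOn.inv ?_ (fun x hx => norm_ne_zero_iff.2 (h x hx))
  exact ContDiffOn.norm ℝ h1.contDiffOn h

theorem continuousAt_nrm {v : V} (hv : v ≠ 0) : ContinuousAt (nrm : V → V) v := by
  unfold nrm
  exact (continuous_norm.continuousAt.inv₀ (norm_ne_zero_iff.2 hv)).smul continuousAt_id

theorem continuousAt_nrm_seg {Z : Type*} [TopologicalSpace Z] {P P' : Z → V}
    (hP : Continuous P) (hP' : Continuous P') {z : Z} {x : ℝ} (h : seg (P z) (P' z) x ≠ 0) :
    ContinuousAt (fun q : Z × ℝ => nrm (seg (P q.1) (P' q.1) q.2)) (z, x) := by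
  have h1 : Continuous (fun q : Z × ℝ => seg (P q.1) (P' q.1) q.2) := by
    unfold seg
    fun_prop
  exact ContinuousAt.comp (f := fun q : Z × ℝ => seg (P q.1) (P' q.1) q.2) (g := nrm)
    (x := (z, x)) (continuousAt_nrm h) h1.continuousAt

theorem continuousAt_dseg {Z : Type*} [TopologicalSpace Z] {P P' : Z → V}
    (hP : Continuous P) (hP' : Continuous P') {z : Z} {x : ℝ} (h : seg (P z) (P' z) x ≠ 0) :
    ContinuousAt (fun q : Z × ℝ => dseg (P q.1) (P' q.1) q.2) (z, x) := by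
  have h1 : Continuous (fun q : Z × ℝ => seg (P q.1) (P' q.1) q.2) := by
    unfold seg
    fun_prop
  have h2 : ContinuousAt (fun q : Z × ℝ => ‖seg (P q.1) (P' q.1) q.2‖⁻¹) (z, x) :=
    (h1.norm.continuousAt).inv₀ (norm_ne_zero_iff.2 h)
  have h3 : ContinuousAt (fun q : Z × ℝ => (‖seg (P q.1) (P' q.1) q.2‖ ^ 2)⁻¹) (z, x) :=
    ((h1.norm.pow 2).continuousAt).inv₀ (pow_ne_zero 2 (norm_ne_zero_iff.2 h))
  have h4 : Continuous (fun q : Z × ℝ => P' q.1 - P q.1) := by fun_prop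
  have h5 : Continuous (fun q : Z × ℝ => ⟪seg (P q.1) (P' q.1) q.2, P' q.1 - P q.1⟫) :=
    h1.inner h4
  unfold dseg
  exact ((h3.neg.mul (h2.mul h5.continuousAt)).smul h1.continuousAt).add
    (h2.smul h4.continuousAt)

omit [InnerProductSpace ℝ V] in
/-- tube lemma -/
theorem tube {Z : Type*} [TopologicalSpace Z] (f : Z × ℝ → V) (z : Z)
    (hf : ∀ x ∈ Set.Icc (0 : ℝ) 1, ContinuousAt f (z, x)) {ε : ℝ} (hε : 0 < ε) :
    ∀ᶠ z' in 𝓝 z, ∀ x ∈ Set.Icc (0 : ℝ) 1, ‖f (z', x) - f (z, x)‖ < ε := by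
  refine isCompact_Icc.eventually_forall_of_forall_eventually
    (P := fun z' x => ‖f (z', x) - f (z, x)‖ < ε) ?_
  intro x hx
  have h1 := hf x hx
  have h2 : ContinuousAt (fun q : Z × ℝ => f (z, q.2)) (z, x) :=
    ContinuousAt.comp (f := fun q : Z × ℝ => (z, q.2)) (g := f) (x := (z, x)) (by simpa using h1)
      (by fun_prop)
  have h3 : ContinuousAt (fun q : Z × ℝ => ‖f (q.1, q.2) - f (z, q.2)‖) (z, x) :=
    (ContinuousAt.sub h1 h2).norm
  have h4 : (fun q : Z × ℝ => ‖f (q.1, q.2) - f (z, q.2)‖) (z, x) < ε := by simpa using hε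
  exact h3.eventually (gt_mem_nhds h4)

end basic

/-! ### values of polygons -/

section poly

variable {n K : ℕ}

theorem floor_lt (hK : 0 < K) (t : ℝ) : ⌊(K : ℝ) * Int.fract t⌋₊ < K := by
  have hK' : (0 : ℝ) < K := Nat.cast_pos.2 hK
  rw [Nat.floor_lt (mul_nonneg hK'.le (Int.fract_nonneg t))]
  calc (K : ℝ) * Int.fract t < K * 1 := mul_lt_mul_of_pos_left (Int.fract_lt_one t) hK'
    _ = K := mul_one _

theorem rem_mem (hK : 0 < K) (t : ℝ) :
    (K : ℝ) * Int.fract t - ⌊(K : ℝ) * Int.fract t⌋₊ ∈ Set.Icc (0 : ℝ) 1 := by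
  have hK' : (0 : ℝ) < K := Nat.cast_pos.2 hK
  have h0 := mul_nonneg hK'.le (Int.fract_nonneg t)
  constructor
  · have := Nat.floor_le h0
    linarith
  · have := Nat.lt_floor_add_one ((K : ℝ) * Int.fract t)
    linarith

theorem polyPt_norm {P : ℕ → E n} (h : ValidPoly K P) (t : ℝ) : ‖polyPt K P t‖ = 1 :=
  norm_nrm (h.2.2 _ (floor_lt h.1 t) _ (rem_mem h.1 t))

theorem polyPt_periodic (P : ℕ → E n) (t : ℝ) : polyPt K P (t + 1) = polyPt K P t := by
  unfold polyPt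
  rw [Int.fract_add_one]

theorem polyPt_add_int (P : ℕ → E n) (t : ℝ) (m : ℤ) : polyPt K P (t + m) = polyPt K P t := by
  unfold polyPt
  rw [Int.fract_add_intCast]

/-- values at the times `(i + x) / K` -/
theorem polyPt_apply {P : ℕ → E n} (h : ValidPoly K P) {i : ℕ} (hi : i < K) {x : ℝ}
    (hx : x ∈ Set.Icc (0 : ℝ) 1) : polyPt K P ((i + x) / K) = nrm (seg (P i) (P (i + 1)) x) := by
  have hK : (0 : ℝ) < K := Nat.cast_pos.2 h.1
  have hiK : (i : ℝ) + 1 ≤ K := by exact_mod_cast hi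
  have hi0 : (0 : ℝ) ≤ i := Nat.cast_nonneg i
  rcases lt_or_eq_of_le hx.2 with hx1 | hx1
  · have hf : Int.fract (((i : ℝ) + x) / K) = ((i : ℝ) + x) / K := by
      rw [Int.fract_eq_self]
      constructor
      · exact div_nonneg (add_nonneg hi0 hx.1) hK.le
      · rw [div_lt_one hK]; linarith
    have hm : (K : ℝ) * (((i : ℝ) + x) / K) = i + x := by field_simp
    have hfl : ⌊(i : ℝ) + x⌋₊ = i := by
      rw [Nat.floor_eq_iff (add_nonneg hi0 hx.1)]
      constructor <;> linarith [hx.1]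
    unfold polyPt
    rw [hf, hm, hfl, add_sub_cancel_left]
  · subst hx1
    rcases Nat.lt_or_ge (i + 1) K with h1 | h1
    · have hf : Int.fract (((i : ℝ) + 1) / K) = ((i : ℝ) + 1) / K := by
        rw [Int.fract_eq_self]
        constructor
        · exact div_nonneg (add_nonneg hi0 zero_le_one) hK.le
        · rw [div_lt_one hK]; exact_mod_cast h1
      have hm : (K : ℝ) * (((i : ℝ) + 1) / K) = i + 1 := by field_simp
      have hfl : ⌊(i : ℝ) + 1⌋₊ = i + 1 := by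
        have := Nat.floor_natCast (R := ℝ) (i + 1)
        push_cast at this
        exact this
      unfold polyPt
      rw [hf, hm, hfl]
      push_cast
      rw [sub_self, seg_zero, seg_one]
    · have hK1 : i + 1 = K := le_antisymm hi h1
      have hK2 : ((i : ℝ) + 1) = K := by exact_mod_cast hK1
      unfold polyPt
      rw [hK2, div_self hK.ne', Int.fract_one, mul_zero, Nat.floor_zero, Nat.cast_zero, sub_zero,
        seg_zero, seg_one, hK1, h.2.1]

/-- the formula on the closed interval `[i/K, (i+1)/K]` -/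
theorem polyPt_eq {P : ℕ → E n} (h : ValidPoly K P) {i : ℕ} (hi : i < K) {t : ℝ}
    (ht : t ∈ Set.Icc ((i : ℝ) / K) (((i : ℝ) + 1) / K)) :
    polyPt K P t = nrm (seg (P i) (P (i + 1)) (K * t - i)) := by
  have hK : (0 : ℝ) < K := Nat.cast_pos.2 h.1
  have h1 : (K : ℝ) * t - i ∈ Set.Icc (0 : ℝ) 1 := by
    have a := ht.1
    have b := ht.2
    rw [div_le_iff₀ hK] at a
    rw [le_div_iff₀ hK] at b
    constructor <;> nlinarith
  have h2 := polyPt_apply h hi h1
  have e : ((i : ℝ) + (K * t - i)) / K = t := by field_simp; ring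
  rw [e] at h2
  exact h2

theorem mem_Icc_iff {i : ℕ} (hK : 0 < K) {t : ℝ} :
    t ∈ Set.Icc ((i : ℝ) / K) (((i : ℝ) + 1) / K) ↔ (K : ℝ) * t - i ∈ Set.Icc (0 : ℝ) 1 := by
  have hK : (0 : ℝ) < K := Nat.cast_pos.2 hK
  rw [Set.mem_Icc, Set.mem_Icc, div_le_iff₀ hK, le_div_iff₀ hK]
  constructor
  · rintro ⟨a, b⟩; constructor <;> nlinarith
  · rintro ⟨a, b⟩; constructor <;> nlinarith

theorem continuousOn_piece {P : ℕ → E n} (h : ValidPoly K P) {i : ℕ} (hi : i < K) :
    ContDiffOn ℝ ∞ (polyPt K P) (Set.Icc ((i : ℝ) / K) (((i : ℝ) + 1) / K)) := by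
  have h1 : ContDiffOn ℝ ∞ (fun x => nrm (seg (P i) (P (i + 1)) x)) (Set.Icc (0 : ℝ) 1) :=
    contDiffOn_nrm_seg (h.2.2 i hi)
  have h2 : ContDiffOn ℝ ∞ (fun t : ℝ => (K : ℝ) * t - i)
      (Set.Icc ((i : ℝ) / K) (((i : ℝ) + 1) / K)) := by
    fun_prop
  have h3 := h1.comp h2 (fun t ht => (mem_Icc_iff h.1).1 ht)
  exact h3.congr (fun t ht => polyPt_eq h hi ht)

theorem continuousOn_poly {P : ℕ → E n} (h : ValidPoly K P) :
    ContinuousOn (polyPt K P) (Set.Icc 0 1) := by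
  have hK : (0 : ℝ) < K := Nat.cast_pos.2 h.1
  have hcov : Set.Icc (0 : ℝ) 1 ⊆ ⋃ i : Fin K, Set.Icc ((i : ℝ) / K) (((i : ℝ) + 1) / K) := by
    intro t ht
    rcases lt_or_eq_of_le ht.2 with h1 | h1
    · have hf : Int.fract t = t := Int.fract_eq_self.2 ⟨ht.1, h1⟩
      refine Set.mem_iUnion.2 ⟨⟨⌊(K : ℝ) * Int.fract t⌋₊, floor_lt h.1 t⟩, ?_⟩
      rw [mem_Icc_iff h.1]
      have h2 := rem_mem h.1 t
      have h3 : (K : ℝ) * t - (⌊(K : ℝ) * Int.fract t⌋₊ : ℕ) =
        (K : ℝ) * Int.fract t - (⌊(K : ℝ) * Int.fract t⌋₊ : ℕ) := by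
        congr 2; exact hf.symm
      show (K : ℝ) * t - (⌊(K : ℝ) * Int.fract t⌋₊ : ℕ) ∈ Set.Icc (0 : ℝ) 1
      rw [h3]
      exact h2
    · refine Set.mem_iUnion.2 ⟨⟨K - 1, Nat.sub_lt h.1 one_pos⟩, ?_⟩
      rw [mem_Icc_iff h.1, h1, mul_one]
      have : ((K - 1 : ℕ) : ℝ) = K - 1 := by
        rw [Nat.cast_sub h.1, Nat.cast_one]
      simp only [this]
      constructor <;> linarith
  refine ContinuousOn.mono ?_ hcov
  refine LocallyFinite.continuousOn_iUnion (locallyFinite_of_finite _)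
    (fun i => isClosed_Icc) (fun i => (continuousOn_piece h i.2).continuousOn)

theorem continuous_polyPt {P : ℕ → E n} (h : ValidPoly K P) : Continuous (polyPt K P) := by
  have hfact : Fact ((0 : ℝ) < 1) := ⟨one_pos⟩
  have h1 := continuousOn_poly h
  have e : polyPt K P 0 = polyPt K P (0 + 1) := (polyPt_periodic P 0).symm
  have h2 : Continuous (AddCircle.liftIco (1 : ℝ) 0 (polyPt K P)) :=
    AddCircle.liftIco_continuous e (by simpa using h1)
  have h3 : Continuous (fun t : ℝ => AddCircle.liftIco (1 : ℝ) 0 (polyPt K P) (t : AddCircle (1 : ℝ))) :=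
    h2.comp (AddCircle.continuous_mk' (1 : ℝ))
  have h4 : (fun t : ℝ => AddCircle.liftIco (1 : ℝ) 0 (polyPt K P) (t : AddCircle (1 : ℝ))) =
      polyPt K P := by
    funext t
    have h5 : ((t : ℝ) : AddCircle (1 : ℝ)) = ((Int.fract t : ℝ) : AddCircle (1 : ℝ)) := by
      rw [QuotientAddGroup.eq]
      refine ⟨-⌊t⌋, ?_⟩
      simp only [zsmul_eq_mul, mul_one, Int.cast_neg]
      have := Int.floor_add_fract t
      linarith
    rw [h5, AddCircle.liftIco_coe_apply (by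
      rw [zero_add]; exact ⟨Int.fract_nonneg t, Int.fract_lt_one t⟩)]
    unfold polyPt
    rw [Int.fract_fract]
  rw [← h4]
  exact h3

end poly

/-! ### the loop of a polygon -/

/-- the loop defined by a polygon -/
noncomputable def polyLoop {n : ℕ} (K : ℕ) (P : ℕ → E n) (h : ValidPoly K P) : Loop n where
  toFun := polyPt K P
  norm_eq := polyPt_norm h
  periodic := polyPt_periodic P
  cont := continuous_polyPt h
  piecewise := by
    have hK : (0 : ℝ) < K := Nat.cast_pos.2 h.1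
    refine ⟨K, fun i => (i : ℝ) / K, ?_, by simp, div_self hK.ne', ?_⟩
    · intro i _
      show (i : ℝ) / K < ((i + 1 : ℕ) : ℝ) / K
      rw [div_lt_div_iff_of_pos_right hK]
      exact_mod_cast Nat.lt_succ_self i
    · intro i hi
      show ContDiffOn ℝ ∞ (polyPt K P) (Set.Icc ((i : ℝ) / K) (((i + 1 : ℕ) : ℝ) / K))
      rw [Nat.cast_add, Nat.cast_one]
      exact continuousOn_piece h hi

theorem polyLoop_toFun {n : ℕ} (K : ℕ) (P : ℕ → E n) (h : ValidPoly K P) :
    (polyLoop K P h).toFun = polyPt K P := rfl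

/-- the derivative inside the pieces -/
theorem hasDerivAt_polyPt {n K : ℕ} {P : ℕ → E n} (h : ValidPoly K P) {i : ℕ} (hi : i < K) {t : ℝ}
    (ht : t ∈ Set.Ioo ((i : ℝ) / K) (((i : ℝ) + 1) / K)) :
    HasDerivAt (polyPt K P) ((K : ℝ) • dseg (P i) (P (i + 1)) (K * t - i)) t := by
  have h1 : (K : ℝ) * t - i ∈ Set.Icc (0 : ℝ) 1 :=
    (mem_Icc_iff h.1).1 ⟨ht.1.le, ht.2.le⟩
  have h2 := hasDerivAt_nrm_seg (h.2.2 i hi _ h1)
  have h3 : HasDerivAt (fun t : ℝ => (K : ℝ) * t - i) (K : ℝ) t := by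
    simpa using ((hasDerivAt_id t).const_mul (K : ℝ)).sub_const (i : ℝ)
  have h4 : HasDerivAt (fun t => nrm (seg (P i) (P (i + 1)) ((K : ℝ) * t - i)))
      ((K : ℝ) • dseg (P i) (P (i + 1)) (K * t - i)) t := by
    have := HasDerivAt.scomp t h2 h3
    exact this
  refine h4.congr_of_eventuallyEq ?_
  filter_upwards [Ioo_mem_nhds ht.1 ht.2] with t' ht'
  exact polyPt_eq h hi ⟨ht'.1.le, ht'.2.le⟩

/-- uniform closeness of nearby polygons -/
theorem eventually_close {n K : ℕ} {Z : Type*} [TopologicalSpace Z] (P : Z → ℕ → E n)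
    (hP : ∀ z, ValidPoly K (P z)) (hc : ∀ i ≤ K, Continuous fun z => P z i) (z : Z) {ε : ℝ}
    (hε : 0 < ε) : ∀ᶠ z' in 𝓝 z, ∀ t, ‖polyPt K (P z') t - polyPt K (P z) t‖ < ε := by
  have h1 : ∀ᶠ z' in 𝓝 z, ∀ i ∈ Finset.range K, ∀ x ∈ Set.Icc (0 : ℝ) 1,
      ‖nrm (seg (P z' i) (P z' (i + 1)) x) - nrm (seg (P z i) (P z (i + 1)) x)‖ < ε := by
    rw [Finset.eventually_all]
    intro i hi
    have hi' := Finset.mem_range.1 hi
    exact tube (fun q : Z × ℝ => nrm (seg (P q.1 i) (P q.1 (i + 1)) q.2)) z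
      (fun x hx => continuousAt_nrm_seg (hc i hi'.le) (hc (i + 1) hi') ((hP z).2.2 i hi' x hx)) hε
  filter_upwards [h1] with z' hz' t
  exact hz' _ (Finset.mem_range.2 (floor_lt (hP z).1 t)) _ (rem_mem (hP z).1 t)

/-- uniform closeness of the derivatives of nearby polygons -/
theorem eventually_close_deriv {n K : ℕ} {Z : Type*} [TopologicalSpace Z] (P : Z → ℕ → E n)
    (hP : ∀ z, ValidPoly K (P z)) (hc : ∀ i ≤ K, Continuous fun z => P z i) (z : Z) {ε : ℝ}
    (hε : 0 < ε) : ∀ᶠ z' in 𝓝 z, ∀ t ∈ Set.Ioo (0 : ℝ) 1,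
      t ∉ Finset.image (fun i : ℕ => (i : ℝ) / K) (Finset.range (K + 1)) →
      ‖deriv (polyPt K (P z')) t - deriv (polyPt K (P z)) t‖ < ε := by
  have hK : (0 : ℝ) < K := Nat.cast_pos.2 (hP z).1
  have h1 : ∀ᶠ z' in 𝓝 z, ∀ i ∈ Finset.range K, ∀ x ∈ Set.Icc (0 : ℝ) 1,
      ‖dseg (P z' i) (P z' (i + 1)) x - dseg (P z i) (P z (i + 1)) x‖ < ε / K := by
    rw [Finset.eventually_all]
    intro i hi
    have hi' := Finset.mem_range.1 hi
    exact tube (fun q : Z × ℝ => dseg (P q.1 i) (P q.1 (i + 1)) q.2) z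
      (fun x hx => continuousAt_dseg (hc i hi'.le) (hc (i + 1) hi') ((hP z).2.2 i hi' x hx))
      (div_pos hε hK)
  filter_upwards [h1] with z' hz' t ht htF
  have hf : Int.fract t = t := Int.fract_eq_self.2 ⟨ht.1.le, ht.2⟩
  have hi := floor_lt (hP z).1 t
  have hx := rem_mem (hP z).1 t
  rw [hf] at hi hx
  set i := ⌊(K : ℝ) * t⌋₊ with hidef
  have hmem : t ∈ Set.Ioo ((i : ℝ) / K) (((i : ℝ) + 1) / K) := by
    have h2 := (mem_Icc_iff (hP z).1).2 hx
    refine ⟨lt_of_le_of_ne h2.1 ?_, lt_of_le_of_ne h2.2 ?_⟩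
    · intro h3
      exact htF (Finset.mem_image.2 ⟨i, Finset.mem_range.2 (by omega), h3⟩)
    · intro h3
      exact htF (Finset.mem_image.2 ⟨i + 1, Finset.mem_range.2 (by omega), by
        rw [h3]; push_cast; rfl⟩)
  rw [(hasDerivAt_polyPt (hP z') hi hmem).deriv, (hasDerivAt_polyPt (hP z) hi hmem).deriv,
    ← smul_sub, norm_smul, Real.norm_natCast]
  have h4 := hz' i (Finset.mem_range.2 hi) _ hx
  calc (K : ℝ) * _ < K * (ε / K) := mul_lt_mul_of_pos_left h4 hK
    _ = ε := by field_simp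

/-- families of polygons give continuous families of loops, for every natural topology -/
theorem continuous_polyLoop {n K : ℕ} {Z : Type*} [TopologicalSpace Z] (P : Z → ℕ → E n)
    (hP : ∀ z, ValidPoly K (P z)) (hc : ∀ i ≤ K, Continuous fun z => P z i)
    (T : TopologicalSpace (Loop n)) (hT : Natural T) :
    Continuous fun z => polyLoop K (P z) (hP z) := by
  rw [continuous_iff_continuousAt]
  intro z U hU
  obtain ⟨ε, hε, h⟩ := hT.coarse _ U hU
  rw [Filter.mem_map]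
  filter_upwards [eventually_close P hP hc z hε, eventually_close_deriv P hP hc z hε] with z' h1 h2
  exact h _ h1 ⟨_, h2⟩

/-! ### joint uniform continuity of continuous families -/

theorem Loop.toFun_sub_int {n : ℕ} (γ : Loop n) (t : ℝ) (m : ℤ) :
    γ.toFun (t - m) = γ.toFun t := by
  have h : Function.Periodic γ.toFun 1 := γ.periodic
  have := h.sub_zsmul_eq (x := t) m
  simpa using this

/-- joint uniform continuity of continuous families -/
theorem uniform_of_continuous {n d : ℕ} (T : TopologicalSpace (Loop n)) (hT : Natural T)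
    (c : Cube (Loop n) d) (hc : Continuous c) {δ : ℝ} (hδ : 0 < δ) :
    ∃ η : ℝ, 0 < η ∧ ∀ s s' : Fin d → unitInterval, (∀ i, |(s i : ℝ) - s' i| < η) →
      ∀ t t' : ℝ, |t - t'| < η → ‖(c s).toFun t - (c s').toFun t'‖ < δ := by
  have hjc : Continuous (fun q : (Fin d → unitInterval) × ℝ => (c q.1).toFun q.2) := by
    rw [continuous_iff_continuousAt]
    rintro ⟨s, t⟩
    rw [Metric.continuousAt_iff']
    intro ε hε
    have h1 : ∀ᶠ s' in 𝓝 s, ∀ t, ‖(c s').toFun t - (c s).toFun t‖ < ε / 2 :=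
      hc.continuousAt (hT.fine (c s) (ε / 2) (half_pos hε))
    have h2 : ∀ᶠ t' in 𝓝 t, ‖(c s).toFun t' - (c s).toFun t‖ < ε / 2 := by
      have := (Metric.continuousAt_iff'.1 ((c s).cont.continuousAt (x := t))) (ε / 2) (half_pos hε)
      simpa [dist_eq_norm] using this
    rw [nhds_prod_eq]
    filter_upwards [h1.prod_mk h2] with q hq
    rw [dist_eq_norm]
    calc ‖(c q.1).toFun q.2 - (c s).toFun t‖
        = ‖((c q.1).toFun q.2 - (c s).toFun q.2) + ((c s).toFun q.2 - (c s).toFun t)‖ := by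
          congr 1; abel
      _ ≤ ‖(c q.1).toFun q.2 - (c s).toFun q.2‖ + ‖(c s).toFun q.2 - (c s).toFun t‖ :=
          norm_add_le _ _
      _ < ε / 2 + ε / 2 := add_lt_add (hq.1 _) hq.2
      _ = ε := add_halves ε
  have hcomp : IsCompact ((Set.univ : Set (Fin d → unitInterval)) ×ˢ Set.Icc (-1 : ℝ) 2) :=
    isCompact_univ.prod isCompact_Icc
  have huc := hcomp.uniformContinuousOn_of_continuous hjc.continuousOn
  rw [Metric.uniformContinuousOn_iff] at huc
  obtain ⟨η, hη, h⟩ := huc δ hδ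
  refine ⟨min η 1, lt_min hη one_pos, fun s s' hs t t' ht => ?_⟩
  have h1 : dist (s, t - ⌊t⌋) (s', t' - ⌊t⌋) < η := by
    rw [Prod.dist_eq, max_lt_iff]
    constructor
    · rw [dist_pi_lt_iff hη]
      intro i
      exact lt_of_lt_of_le (hs i) (min_le_left _ _)
    · show |t - ⌊t⌋ - (t' - ⌊t⌋)| < η
      rw [sub_sub_sub_cancel_right]
      exact lt_of_lt_of_le ht (min_le_left _ _)
  have ht1 := abs_lt.1 (lt_of_lt_of_le ht (min_le_right _ _))
  have ht2 := Int.floor_le t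
  have ht3 := Int.lt_floor_add_one t
  have h2 := h (s, t - ⌊t⌋) ⟨Set.mem_univ _, by constructor <;> simp only [] <;> linarith⟩
    (s', t' - ⌊t⌋) ⟨Set.mem_univ _, by constructor <;> simp only [] <;> linarith⟩ h1
  simp only [Loop.toFun_sub_int] at h2
  rwa [dist_eq_norm] at h2

end Pool.Agent.Helper76.Freq
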