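import Pool.Agent.Helper76.Freq.Letters
import Pool.Agent.Helper76.Freq.LoopA
/-! Piece PATH of MP_5f815a_gt (file Path.lean): the paths `pathPt`, fine grids, concatenation. -/

set_option autoImplicit false

namespace Pool.Agent.Helper76.Freq

open scoped RealInnerProductSpace

theorem pathPt_apply {n V : ℕ} {P : ℕ → E n} (h : ValidPath V P) {i : ℕ} (hi : i < V) {x : ℝ}
    (hx : x ∈ Set.Icc (0 : ℝ) 1) : pathPt V P ((i + x) / V) = nrm (seg (P i) (P (i + 1)) x) := by
  have hV : (0 : ℝ) < V := Nat.cast_pos.2 h.1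
  have hi0 : (0 : ℝ) ≤ i := Nat.cast_nonneg i
  have hm : (V : ℝ) * (((i : ℝ) + x) / V) = i + x := by field_simp
  rcases lt_or_eq_of_le hx.2 with hx1 | hx1
  · have hfl : ⌊(i : ℝ) + x⌋₊ = i := by
      rw [Nat.floor_eq_iff (add_nonneg hi0 hx.1)]
      constructor <;> linarith [hx.1]
    unfold pathPt
    rw [hm, hfl, min_eq_left (by omega), add_sub_cancel_left]
  · subst hx1
    have hfl : ⌊(i : ℝ) + 1⌋₊ = i + 1 := by
      have := Nat.floor_natCast (R := ℝ) (i + 1)
      push_cast at this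
      exact this
    rcases Nat.lt_or_ge (i + 1) V with h1 | h1
    · unfold pathPt
      rw [hm, hfl, min_eq_left (by omega)]
      push_cast
      rw [sub_self, seg_zero, seg_one]
    · unfold pathPt
      have hmin : min (i + 1) (V - 1) = i := by omega
      rw [hm, hfl, hmin, add_sub_cancel_left]

theorem path_idx_lt {V : ℕ} (hV : 0 < V) (t : ℝ) : min ⌊(V : ℝ) * t⌋₊ (V - 1) < V := by
  have := min_le_right ⌊(V : ℝ) * t⌋₊ (V - 1)
  omega

theorem path_rem_mem {V : ℕ} (hV : 0 < V) {t : ℝ} (ht : t ∈ Set.Icc (0 : ℝ) 1) :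
    (V : ℝ) * t - (min ⌊(V : ℝ) * t⌋₊ (V - 1) : ℕ) ∈ Set.Icc (0 : ℝ) 1 := by
  have hV' : (0 : ℝ) < V := Nat.cast_pos.2 hV
  have h0 : 0 ≤ (V : ℝ) * t := mul_nonneg hV'.le ht.1
  constructor
  · have h1 := Nat.floor_le h0
    have h2 : ((min ⌊(V : ℝ) * t⌋₊ (V - 1) : ℕ) : ℝ) ≤ (⌊(V : ℝ) * t⌋₊ : ℝ) := by
      exact_mod_cast min_le_left _ _
    linarith
  · rcases le_total ⌊(V : ℝ) * t⌋₊ (V - 1) with h1 | h1
    · rw [min_eq_left h1]
      have := Nat.lt_floor_add_one ((V : ℝ) * t)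
      linarith
    · rw [min_eq_right h1, Nat.cast_sub (by omega : 1 ≤ V), Nat.cast_one]
      have : (V : ℝ) * t ≤ V * 1 := mul_le_mul_of_nonneg_left ht.2 hV'.le
      linarith

theorem norm_pathPt {n V : ℕ} {P : ℕ → E n} (h : ValidPath V P) {t : ℝ}
    (ht : t ∈ Set.Icc (0 : ℝ) 1) : ‖pathPt V P t‖ = 1 :=
  norm_nrm (h.2 _ (path_idx_lt h.1 t) _ (path_rem_mem h.1 ht))

/-- the formula on the closed interval `[i/V, (i+1)/V]` -/
theorem pathPt_eq {n V : ℕ} {P : ℕ → E n} (h : ValidPath V P) {i : ℕ} (hi : i < V) {t : ℝ}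
    (ht : (V : ℝ) * t - i ∈ Set.Icc (0 : ℝ) 1) :
    pathPt V P t = nrm (seg (P i) (P (i + 1)) (V * t - i)) := by
  have hV : (0 : ℝ) < V := Nat.cast_pos.2 h.1
  have h2 := pathPt_apply h hi ht
  have e : ((i : ℝ) + (V * t - i)) / V = t := by field_simp; ring
  rw [e] at h2
  exact h2

/-- joint continuity, as a function on the infinite cube (coordinate `0` is the time) -/
theorem continuous_pathPt {n V : ℕ} (P : Q → ℕ → E n) (hP : ∀ x, ValidPath V (P x))
    (hc : ∀ i ≤ V, Continuous fun x => P x i) :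
    Continuous fun x : Q => pathPt V (P (sh 1 x)) (x 0) := by
  have hV : 0 < V := (hP fun _ => 0).1
  have hx0 : Continuous (fun x : Q => ((x 0 : unitInterval) : ℝ)) :=
    continuous_subtype_val.comp (continuous_apply 0)
  have hcx : ∀ i : Fin V, Continuous (fun x : Q => (V : ℝ) * ((x 0 : unitInterval) : ℝ) - (i : ℕ)) :=
    fun i => (continuous_const.mul hx0).sub continuous_const
  refine LocallyFinite.continuous
    (f := fun i : Fin V => {x : Q | (V : ℝ) * ((x 0 : unitInterval) : ℝ) - (i : ℕ) ∈ Set.Icc (0 : ℝ) 1})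
    (locallyFinite_of_finite _) ?_ (fun i => isClosed_Icc.preimage (hcx i)) ?_
  · refine Set.eq_univ_of_forall fun x => Set.mem_iUnion.2 ?_
    exact ⟨⟨_, path_idx_lt hV _⟩, path_rem_mem hV (x 0).2⟩
  · intro i
    have h1 : ContinuousOn (fun x : Q => nrm (seg (P (sh 1 x) i) (P (sh 1 x) (i + 1))
        ((V : ℝ) * ((x 0 : unitInterval) : ℝ) - (i : ℕ))))
        {x : Q | (V : ℝ) * ((x 0 : unitInterval) : ℝ) - (i : ℕ) ∈ Set.Icc (0 : ℝ) 1} := by
      intro x hx
      have hs : Continuous (fun x : Q => seg (P (sh 1 x) i) (P (sh 1 x) (i + 1))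
        ((V : ℝ) * ((x 0 : unitInterval) : ℝ) - (i : ℕ))) := by
        have a1 : Continuous (fun x : Q => P (sh 1 x) i) :=
          (hc i i.2.le).comp (continuous_sh 1)
        have a2 : Continuous (fun x : Q => P (sh 1 x) (i + 1)) :=
          (hc (i + 1) i.2).comp (continuous_sh 1)
        unfold seg
        exact ((continuous_const.sub (hcx i)).smul a1).add ((hcx i).smul a2)
      have hne : seg (P (sh 1 x) i) (P (sh 1 x) (i + 1))
        ((V : ℝ) * ((x 0 : unitInterval) : ℝ) - (i : ℕ)) ≠ 0 := (hP (sh 1 x)).2 i i.2 _ hx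
      have hca : ContinuousAt (nrm ∘ fun x : Q => seg (P (sh 1 x) i) (P (sh 1 x) (i + 1))
          ((V : ℝ) * ((x 0 : unitInterval) : ℝ) - (i : ℕ))) x :=
        ContinuousAt.comp (g := nrm) (f := fun x : Q => seg (P (sh 1 x) i) (P (sh 1 x) (i + 1))
          ((V : ℝ) * ((x 0 : unitInterval) : ℝ) - (i : ℕ))) (x := x) (continuousAt_nrm hne)
          hs.continuousAt
      exact hca.continuousWithinAt
    refine h1.congr fun x hx => ?_
    exact pathPt_eq (hP (sh 1 x)) i.2 hx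

/-- all vertices of a simplex of a fine grid are close -/
theorem fine_grid {n d : ℕ} {c : Q → E n} (hc : Continuous c) {δ : ℝ} (hδ : 0 < δ) :
    ∃ m₀ : ℕ, 0 < m₀ ∧ ∀ Ms k pos : ℕ → ℕ, (∀ i < d, m₀ ≤ Ms i) → Adm d Ms k pos → ∀ j j' : ℕ,
      ‖c (gp d Ms k pos j) - c (gp d Ms k pos j')‖ < δ := by
  have h1 : UniformContinuous (fun s : Fin d → unitInterval => c (ext d s)) :=
    CompactSpace.uniformContinuous_of_continuous (hc.comp (continuous_ext d))
  obtain ⟨δ', hδ', h2⟩ := Metric.uniformContinuous_iff.1 h1 δ hδ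
  obtain ⟨m₀, hm₀⟩ := exists_nat_gt (1 / δ')
  have hm₀pos : (0 : ℝ) < m₀ := lt_trans (by positivity) hm₀
  refine ⟨m₀, by exact_mod_cast hm₀pos, fun Ms k pos hM hA j j' => ?_⟩
  have hgp : ∀ j, gp d Ms k pos j =
      ext d (fun l : Fin d => gr (Ms l) (k l + if pos l < j then 1 else 0)) := by
    intro j
    funext l
    unfold gp ext
    by_cases hl : l < d
    · rw [if_pos hl, dif_pos hl]
    · rw [if_neg hl, dif_neg hl]
  rw [hgp, hgp, ← dist_eq_norm]
  apply h2
  rw [dist_pi_lt_iff hδ']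
  intro l
  have hM0 : (m₀ : ℝ) ≤ Ms l := by exact_mod_cast hM l l.2
  have hMpos : (0 : ℝ) < Ms l := lt_of_lt_of_le hm₀pos hM0
  have hcell := hA.cell l l.2
  have e : ∀ j, (k l + if pos l < j then 1 else 0) ≤ Ms l := by
    intro j; split_ifs <;> omega
  rw [Subtype.dist_eq, Real.dist_eq, coe_gr (e j), coe_gr (e j'), ← sub_div, abs_div,
    abs_of_pos hMpos, div_lt_iff₀ hMpos]
  have h3 : |(((k l + if pos l < j then 1 else 0 : ℕ) : ℝ)) -
      ((k l + if pos l < j' then 1 else 0 : ℕ) : ℝ)| ≤ 1 := by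
    push_cast
    rw [add_sub_add_left_eq_sub]
    split_ifs <;> norm_num
  have h4 : 1 < δ' * m₀ := by
    rw [div_lt_iff₀ hδ'] at hm₀
    linarith
  have h5 : δ' * m₀ ≤ δ' * Ms l := mul_le_mul_of_nonneg_left hM0 hδ'.le
  linarith

/-- concatenation of `m` paths with `V` edges each -/
noncomputable def glueP {n : ℕ} (V : ℕ) (m : ℕ) (Ps : ℕ → ℕ → E n) (i : ℕ) : E n :=
  if i < m * V then Ps (i / V) (i % V) else Ps 0 0

/-- values of the vertices of the concatenation -/
theorem glueP_vertex {n V m : ℕ} (hV : 0 < V) {Ps : ℕ → ℕ → E n}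
    (hj : ∀ b, b + 1 < m → Ps b V = Ps (b + 1) 0) (hl : Ps (m - 1) V = Ps 0 0) {b r : ℕ}
    (hb : b < m) (hr : r ≤ V) : glueP V m Ps (b * V + r) = Ps b r := by
  have h1 : (b + 1) * V ≤ m * V := Nat.mul_le_mul_right V hb
  have h1' : (b + 1) * V = b * V + V := by ring
  unfold glueP
  rcases lt_or_eq_of_le hr with h2 | h2
  · have h3 : b * V + r < m * V := by omega
    rw [if_pos h3]
    have e1 : (b * V + r) / V = b := by
      rw [add_comm, Nat.add_mul_div_right _ _ hV, Nat.div_eq_of_lt h2, zero_add]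
    have e2 : (b * V + r) % V = r := by
      rw [add_comm, Nat.add_mul_mod_self_right, Nat.mod_eq_of_lt h2]
    rw [e1, e2]
  · rw [h2]
    rcases Nat.lt_or_ge (b + 1) m with h4 | h4
    · have h5 : (b + 1 + 1) * V ≤ m * V := Nat.mul_le_mul_right V h4
      have h5' : (b + 1 + 1) * V = b * V + V + V := by ring
      have h3 : b * V + V < m * V := by omega
      rw [if_pos h3]
      have e1 : (b * V + V) / V = b + 1 := by
        rw [← h1', Nat.mul_div_cancel _ hV]
      have e2 : (b * V + V) % V = 0 := by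
        rw [← h1', Nat.mul_mod_left]
      rw [e1, e2, hj b h4]
    · have h6 : m = b + 1 := by omega
      rw [if_neg (by rw [h6]; omega)]
      rw [← hl, h6, Nat.add_sub_cancel]

/-- the concatenation is a closed polygon if the end points fit -/
theorem validPoly_glueP {n V m : ℕ} (hm : 0 < m) {Ps : ℕ → ℕ → E n} (h : ∀ b < m, ValidPath V (Ps b))
    (hj : ∀ b, b + 1 < m → Ps b V = Ps (b + 1) 0) (hl : Ps (m - 1) V = Ps 0 0) :
    ValidPoly (m * V) (glueP V m Ps) := by
  have hV : 0 < V := (h 0 hm).1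
  have hmV : 0 < m * V := Nat.mul_pos hm hV
  refine ⟨hmV, ?_, fun i hi x hx => ?_⟩
  · unfold glueP
    rw [if_neg (lt_irrefl _), if_pos hmV, Nat.zero_div, Nat.zero_mod]
  · have hb : i / V < m := by
      rw [Nat.div_lt_iff_lt_mul hV]; exact hi
    have hr : i % V < V := Nat.mod_lt i hV
    have e : i = i / V * V + i % V := by
      rw [mul_comm]; exact (Nat.div_add_mod i V).symm
    have e1 : glueP V m Ps i = Ps (i / V) (i % V) := by
      conv_lhs => rw [e]
      exact glueP_vertex hV hj hl hb hr.le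
    have e2 : glueP V m Ps (i + 1) = Ps (i / V) (i % V + 1) := by
      conv_lhs => rw [e, add_assoc]
      exact glueP_vertex hV hj hl hb hr
    rw [e1, e2]
    exact (h _ hb).2 _ hr x hx

/-- values of the concatenation at the times of the grid with `N = m V k` steps -/
theorem glueP_apply {n V m k : ℕ} (hk : 0 < k) (hm : 0 < m) {Ps : ℕ → ℕ → E n}
    (h : ∀ b < m, ValidPath V (Ps b)) (hj : ∀ b, b + 1 < m → Ps b V = Ps (b + 1) 0)
    (hl : Ps (m - 1) V = Ps 0 0) {b I : ℕ} (hb : b < m) (hI : I ≤ V * k) :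
    polyPt (m * V) (glueP V m Ps) (((b * (V * k) + I : ℕ) : ℝ) / (m * (V * k) : ℕ)) =
      pathPt V (Ps b) ((I : ℝ) / (V * k : ℕ)) := by
  have hV : 0 < V := (h 0 hm).1
  have hval := validPoly_glueP hm h hj hl
  obtain ⟨r, s, hr, hs, hrs⟩ : ∃ r s : ℕ, r < V ∧ s ≤ k ∧ I = k * r + s := by
    rcases lt_or_eq_of_le hI with h1 | h1
    · refine ⟨I / k, I % k, ?_, (Nat.mod_lt I hk).le, (Nat.div_add_mod I k).symm⟩
      rw [Nat.div_lt_iff_lt_mul hk]; exact h1
    · refine ⟨V - 1, k, by omega, le_rfl, ?_⟩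
      rw [h1]
      obtain ⟨W, rfl⟩ : ∃ W, V = W + 1 := ⟨V - 1, by omega⟩
      rw [Nat.add_sub_cancel]
      ring
  have hk' : (0 : ℝ) < k := Nat.cast_pos.2 hk
  have hV' : (0 : ℝ) < V := Nat.cast_pos.2 hV
  have hm' : (0 : ℝ) < m := Nat.cast_pos.2 hm
  have hx : (s : ℝ) / k ∈ Set.Icc (0 : ℝ) 1 := by
    refine ⟨by positivity, (div_le_one hk').2 (by exact_mod_cast hs)⟩
  have e1 : (I : ℝ) / (V * k : ℕ) = ((r : ℝ) + (s : ℝ) / k) / V := by
    rw [hrs]; push_cast; field_simp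
  have hbr : b * V + r < m * V := by
    have h1 : (b + 1) * V ≤ m * V := Nat.mul_le_mul_right V hb
    have h1' : (b + 1) * V = b * V + V := by ring
    omega
  have e2 : ((b * (V * k) + I : ℕ) : ℝ) / (m * (V * k) : ℕ) =
      (((b * V + r : ℕ) : ℝ) + (s : ℝ) / k) / ((m * V : ℕ) : ℝ) := by
    rw [hrs]; push_cast; field_simp; ring
  rw [e1, e2, pathPt_apply (h b hb) hr hx, polyPt_apply hval hbr hx,
    glueP_vertex hV hj hl hb hr.le, add_assoc, glueP_vertex hV hj hl hb hr]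

end Pool.Agent.Helper76.Freq
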