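import Pool.Agent.Helper76.Freq.CycQ
import Pool.Agent.Helper76.Freq.Path
import Pool.Agent.Helper76.Freq.Ver

/-!
# The evaluation of the rational letter `wQ`

`eval_Q_filler`: the evaluation vanishes on the filler; `eval_Q_main`: it is negative on the main
cube for the descending blocks and positive for the ascending block.
-/

set_option autoImplicit false

namespace Pool.Agent.Helper76.Freq

open scoped RealInnerProductSpace Classical

theorem evq_seg_symm {V : Type*} [AddCommGroup V] [Module ℝ V] (P P' : V) (x : ℝ) :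
    seg P P' x = seg P' P (1 - x) := by
  unfold seg
  rw [sub_sub_cancel, add_comm]

/-- on the crossing edge, in the region `|HH| ≤ 1/2`, the parameter is not `0` or `1` -/
theorem evq_inner {a b : R3} {s t x : ℝ} (hok : Ok a b s t) (hx : x ∈ Set.Icc (0 : ℝ) 1)
    (hH : |HH (nrm (seg (vX a s) (vY b t) x))| ≤ 1 / 2) : 0 < x ∧ x < 1 := by
  obtain ⟨h0, h1⟩ := hx
  constructor
  · rcases h0.lt_or_eq with h | h
    · exact h
    · exfalso
      subst h
      have e : seg (vX a s) (vY b t) 0 = pt (1 - s ^ 2) a 0 a s 0 := by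
        simp [seg, vX]
      rw [e] at hH
      have hs : 0 ≤ 1 - s ^ 2 := by
        have := (sq_le_one_iff_abs_le_one s).2 hok.2.2.1
        linarith only [this]
      have h2 := HH_plus (a := a) (α := 1 - s ^ 2) (s := s) hok.1 hs (by
        by_cases h3 : s = 0
        · left; rw [h3]; norm_num
        · right; exact h3)
      have h3 := (abs_le.1 hH).2
      linarith
  · rcases h1.lt_or_eq with h | h
    · exact h
    · exfalso
      subst h
      have e : seg (vX a s) (vY b t) 1 = pt 0 b (1 - t ^ 2) b 0 t := by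
        simp [seg, vY]
      rw [e] at hH
      have ht : 0 ≤ 1 - t ^ 2 := by
        have := (sq_le_one_iff_abs_le_one t).2 hok.2.2.2.1
        linarith
      have h2 := HH_minus (b := b) (β := 1 - t ^ 2) (t := t) hok.2.1 ht (by
        by_cases h3 : t = 0
        · left; rw [h3]; norm_num
        · right; exact h3)
      have h3 := (abs_le.1 hH).1
      linarith only [h2, h3]

theorem evq_nrm_apply (v : E6) (i : Fin 7) : (nrm v) i = ‖v‖⁻¹ * v i := by
  simp [nrm]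

theorem evq_five {a b : R3} {s t x : ℝ} (hok : Ok a b s t) (h0 : 0 ≤ x) (h1 : x < 1) :
    0 < (nrm (seg (vX a s) (vY b t) x)) 5 ↔ 0 < s := by
  have hne := hok.ne_zero (x := x) ⟨h0, h1.le⟩
  have hn : 0 < ‖seg (vX a s) (vY b t) x‖⁻¹ := inv_pos.2 (norm_pos_iff.2 hne)
  rw [evq_nrm_apply]
  have e : seg (vX a s) (vY b t) x 5 = (1 - x) * s := by
    rw [seg_eq_pt]; rfl
  rw [e]
  have h2 : 0 < 1 - x := by linarith
  constructor
  · intro h
    have := (pos_iff_pos_of_mul_pos h).1 hn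
    exact (pos_iff_pos_of_mul_pos this).1 h2
  · intro h
    positivity

theorem evq_six {a b : R3} {s t x : ℝ} (hok : Ok a b s t) (h0 : 0 < x) (h1 : x ≤ 1) :
    0 < (nrm (seg (vX a s) (vY b t) x)) 6 ↔ 0 < t := by
  have hne := hok.ne_zero (x := x) ⟨h0.le, h1⟩
  have hn : 0 < ‖seg (vX a s) (vY b t) x‖⁻¹ := inv_pos.2 (norm_pos_iff.2 hne)
  rw [evq_nrm_apply]
  have e : seg (vX a s) (vY b t) x 6 = x * t := by
    rw [seg_eq_pt]; rfl
  rw [e]
  constructor
  · intro h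
    have := (pos_iff_pos_of_mul_pos h).1 hn
    exact (pos_iff_pos_of_mul_pos this).1 h0
  · intro h
    positivity

theorem evq_topv (v : E6) : IsTop v (topv v) := Classical.epsilon_spec (exists_isTop v)

theorem evq_botv (v : E6) : IsBot v (botv v) := Classical.epsilon_spec (exists_isBot v)

/-- the functions of the letter `wQ` on the crossing edge -/
theorem evq_vert {a b : R3} {s t x : ℝ} (hok : Ok a b s t) (hab : ⟪a, b⟫ = 0) (hs : |s| < 1)
    (ht : |t| < 1) (hx : x ∈ Set.Icc (0 : ℝ) 1) {v : E6}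
    (hv : v = nrm (seg (vX a s) (vY b t) x)) (hH : |HH v| ≤ 1 / 2) :
    (0 < v 5 ↔ 0 < s) ∧ (0 < v 6 ↔ 0 < t) ∧
    (g1 v = if 0 < b 0 * b 2 then 1 else 0) ∧ (g2 v = if 0 < b 1 * b 2 then 1 else 0) ∧
    (g3 v = if 0 < a 0 * a 1 then 1 else 0) ∧
    (indN v = if 1 / 2 < b 2 ^ 2 ∧ 1 / 2 < a 1 ^ 2 then 1 else 0) := by
  subst hv
  obtain ⟨h0, h1⟩ := evq_inner hok hx hH
  obtain ⟨hT, hB⟩ := seg_top hok hab hs ht hx hH
  have ha := hT _ (evq_topv _)
  have hb := hB _ (evq_botv _)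
  refine ⟨evq_five hok h0.le h1, evq_six hok h0 h1.le, ?_, ?_, ?_, ?_⟩
  · unfold g1
    rcases hb with hb | hb <;> simp [hb]
  · unfold g2
    rcases hb with hb | hb <;> simp [hb]
  · unfold g3
    rcases ha with ha | ha <;> simp [ha]
  · unfold indN
    rcases hb with hb | hb <;> rcases ha with ha | ha <;> simp [ha, hb]

/-! ### the edges -/

/-- the index of the crossing edge -/
def evq_ce (κ : ℕ) : ℕ := if κ = 1 then 3 else 2

/-- the parameter on the crossing edge -/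
noncomputable def evq_par (κ : ℕ) (x : ℝ) : ℝ := if κ = 1 then 1 - x else x

theorem evq_par_mem {κ : ℕ} {x : ℝ} (hx : x ∈ Set.Icc (0 : ℝ) 1) :
    evq_par κ x ∈ Set.Icc (0 : ℝ) 1 := by
  unfold evq_par
  split_ifs
  · exact ⟨by linarith [hx.2], by linarith [hx.1]⟩
  · exact hx

theorem evq_cross {κ : ℕ} (hκ : κ < 3) (p : PQ) (x : ℝ) :
    seg (polQ κ p (evq_ce κ)) (polQ κ p (evq_ce κ + 1)) x =
      seg (vX p.1.1 p.1.2.2.1) (vY p.1.2.1 p.1.2.2.2) (evq_par κ x) := by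
  interval_cases κ
  · rfl
  · show seg (polD p 3) (polD p 2) x = _
    rw [evq_seg_symm]
    rfl
  · rfl

theorem evq_edge_plus0 {a : R3} {x : ℝ} (ha : ‖a‖ = 1) (hx : x ∈ Set.Icc (0 : ℝ) 1) :
    4 / 5 ≤ |HH (nrm (seg v5 (pt 1 a 0 a 0 0) x))| := by
  rw [seg_e5_ver]
  refine (HH_plus (α := x) (s := 1 - x) ha hx.1 ?_).trans (le_abs_self _)
  by_cases h : x = 0
  · right; rw [h]; norm_num
  · left; exact h

theorem evq_edge_plus1 {a : R3} {s x : ℝ} (ha : ‖a‖ = 1) (hs : |s| ≤ 1)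
    (hx : x ∈ Set.Icc (0 : ℝ) 1) :
    4 / 5 ≤ |HH (nrm (seg (pt 1 a 0 a 0 0) (vX a s) x))| := by
  rw [seg_ver_vX]
  have h1 : s ^ 2 ≤ 1 := (sq_le_one_iff_abs_le_one s).2 hs
  have h2 : x * s ^ 2 ≤ 1 := by nlinarith only [h1, hx, hx.1, hx.2, sq_nonneg s]
  refine (HH_plus (α := 1 - x * s ^ 2) (s := x * s) ha (by linarith) ?_).trans (le_abs_self _)
  by_cases h : x * s = 0
  · left
    have : x * s ^ 2 = 0 := by
      rw [pow_two, ← mul_assoc, h, zero_mul]
    rw [this]; norm_num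
  · right; exact h

theorem evq_edge_minus0 {b : R3} {t x : ℝ} (hb : ‖b‖ = 1) (ht : |t| ≤ 1)
    (hx : x ∈ Set.Icc (0 : ℝ) 1) :
    4 / 5 ≤ |HH (nrm (seg (vY b t) (pt 0 b 1 b 0 0) x))| := by
  rw [seg_vY_ver]
  have h1 : t ^ 2 ≤ 1 := (sq_le_one_iff_abs_le_one t).2 ht
  have h2 : (1 - x) * t ^ 2 ≤ 1 := by nlinarith [hx.1, hx.2, sq_nonneg t]
  have := HH_minus (b := b) (β := 1 - (1 - x) * t ^ 2) (t := (1 - x) * t) hb (by linarith) (by
    by_cases h : (1 - x) * t = 0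
    · left
      have : (1 - x) * t ^ 2 = 0 := by
        rw [pow_two, ← mul_assoc, h, zero_mul]
      rw [this]; norm_num
    · right; exact h)
  rw [← abs_neg]
  refine le_trans ?_ (le_abs_self _)
  linarith only [this]

theorem evq_edge_minus1 {b : R3} {x : ℝ} (hb : ‖b‖ = 1) (hx : x ∈ Set.Icc (0 : ℝ) 1) :
    4 / 5 ≤ |HH (nrm (seg (pt 0 b 1 b 0 0) v6 x))| := by
  rw [seg_ver_e6]
  have := HH_minus (b := b) (β := 1 - x) (t := x) hb (by linarith [hx.2]) (by
    by_cases h : x = 0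
    · left; rw [h]; norm_num
    · right; exact h)
  rw [← abs_neg]
  refine le_trans ?_ (le_abs_self _)
  linarith only [this]

theorem evq_edge_v6 {x : ℝ} : 4 / 5 ≤ |HH (nrm (seg v6 v6 x))| := by
  have e : seg v6 v6 x = v6 := by
    unfold seg; rw [← add_smul]; simp
  rw [e]
  have e2 : v6 = pt 0 (fB 0 0) 0 (fB 0 0) 0 1 := by
    apply mon_E6_ext <;> simp [v6, pt]
  rw [e2]
  have hb : ‖fB 0 0‖ = 1 := by
    have := mon_norm_sq (fB 0 0)
    have h2 : ‖fB 0 0‖ ^ 2 = 1 := by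
      rw [this]; simp [fB]
    have h3 : 0 ≤ ‖fB 0 0‖ := norm_nonneg _
    nlinarith only [h2, h3]
  have := HH_minus (b := fB 0 0) (β := 0) (t := 1) hb le_rfl (Or.inr one_ne_zero)
  rw [← abs_neg]
  refine le_trans ?_ (le_abs_self _)
  linarith

/-- away from the crossing edge and the return edge `|HH|` is large -/
theorem evq_noncross {κ : ℕ} (hκ : κ < 3) (p : PQ) {e : ℕ} (he : e < 6) (he1 : e ≠ evq_ce κ)
    (he2 : ¬ (κ = 2 ∧ e = 5)) {x : ℝ} (hx : x ∈ Set.Icc (0 : ℝ) 1) :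
    4 / 5 ≤ |HH (nrm (seg (polQ κ p e) (polQ κ p (e + 1)) x))| := by
  obtain ⟨hok1, hok2, hok3, hok4, -⟩ := p.2
  have hx' : 1 - x ∈ Set.Icc (0 : ℝ) 1 := ⟨by linarith [hx.2], by linarith [hx.1]⟩
  interval_cases κ
  · interval_cases e
    · exact evq_edge_plus0 hok1 hx
    · exact evq_edge_plus1 hok1 hok3 hx
    · exact absurd rfl he1
    · exact evq_edge_minus0 hok2 hok4 hx
    · exact evq_edge_minus1 hok2 hx
    · exact evq_edge_v6
  · interval_cases e
    · exact evq_edge_v6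
    · rw [evq_seg_symm]; exact evq_edge_minus1 hok2 hx'
    · rw [evq_seg_symm]; exact evq_edge_minus0 hok2 hok4 hx'
    · exact absurd rfl he1
    · rw [evq_seg_symm]; exact evq_edge_plus1 hok1 hok3 hx'
    · rw [evq_seg_symm]; exact evq_edge_plus0 hok1 hx'
  · interval_cases e
    · exact evq_edge_plus0 hok1 hx
    · exact evq_edge_plus1 hok1 hok3 hx
    · exact absurd rfl he1
    · exact evq_edge_minus0 hok2 hok4 hx
    · exact evq_edge_minus1 hok2 hx
    · exact absurd ⟨rfl, rfl⟩ he2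

/-- the return edge does not depend on the parameters -/
theorem evq_return (p p' : PQ) (x : ℝ) :
    seg (polQ 2 p 5) (polQ 2 p (5 + 1)) x = seg (polQ 2 p' 5) (polQ 2 p' (5 + 1)) x := by
  simp [polQ, polD]

/-! ### the parameters -/

theorem evq_norm_one {a : R3} (h : a 0 ^ 2 + a 1 ^ 2 + a 2 ^ 2 = 1) : ‖a‖ = 1 := by
  have h1 := mon_norm_sq a
  rw [h] at h1
  have h3 : 0 ≤ ‖a‖ := norm_nonneg _
  nlinarith only [h1, h3]

theorem evq_fB0 (r φ : ℝ) : fB r φ 0 = Real.cos r := rfl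
theorem evq_fB1 (r φ : ℝ) : fB r φ 1 = Real.sin r * Real.sin φ := rfl
theorem evq_fB2 (r φ : ℝ) : fB r φ 2 = -(Real.sin r * Real.cos φ) := rfl
theorem evq_fA0 (r φ δ : ℝ) : fA r φ δ 0 = Real.sin r * Real.sin δ := rfl
theorem evq_fA1 (r φ δ : ℝ) : fA r φ δ 1 =
    Real.cos φ * Real.cos δ - Real.cos r * Real.sin φ * Real.sin δ := rfl
theorem evq_fA2 (r φ δ : ℝ) : fA r φ δ 2 =
    Real.sin φ * Real.cos δ + Real.cos r * Real.cos φ * Real.sin δ := rfl

theorem evq_orth (r φ δ : ℝ) : ⟪fA r φ δ, fB r φ⟫ = 0 := by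
  rw [mon_inner, evq_fB0, evq_fB1, evq_fB2, evq_fA0, evq_fA1, evq_fA2]
  have h1 := Real.sin_sq_add_cos_sq φ
  linear_combination (-(Real.sin r * Real.cos r * Real.sin δ)) * h1

/-- the square -/
theorem evq_max_pos (y : ℝ) : 0 < max |Real.cos (2 * Real.pi * y)| |Real.sin (2 * Real.pi * y)| := by
  have h := Real.sin_sq_add_cos_sq (2 * Real.pi * y)
  by_cases h1 : Real.cos (2 * Real.pi * y) = 0
  · have h2 : Real.sin (2 * Real.pi * y) ≠ 0 := by
      intro h2; rw [h1, h2] at h; norm_num at h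
    exact lt_max_of_lt_right (abs_pos.2 h2)
  · exact lt_max_of_lt_left (abs_pos.2 h1)

theorem evq_sq_one (y : ℝ) : |(sq y).1| = 1 ∨ |(sq y).2| = 1 := by
  have h := evq_max_pos y
  simp only [sq, abs_div, abs_of_pos h]
  rcases le_total |Real.sin (2 * Real.pi * y)| |Real.cos (2 * Real.pi * y)| with h1 | h1
  · left
    rw [max_eq_left h1] at h ⊢
    exact div_self h.ne'
  · right
    rw [max_eq_right h1] at h ⊢
    exact div_self h.ne'

theorem evq_sq_le (y : ℝ) : |(sq y).1| ≤ 1 ∧ |(sq y).2| ≤ 1 := by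
  have h := evq_max_pos y
  simp only [sq, abs_div, abs_of_pos h, div_le_one h]
  exact ⟨le_max_left _ _, le_max_right _ _⟩

theorem evq_sq_pos (y : ℝ) : (0 < (sq y).1 ↔ 0 < Real.cos (2 * Real.pi * y)) ∧
    (0 < (sq y).2 ↔ 0 < Real.sin (2 * Real.pi * y)) := by
  have h := evq_max_pos y
  simp only [sq]
  constructor
  · exact div_pos_iff_of_pos_right h
  · exact div_pos_iff_of_pos_right h

/-- `mCf` in the inner region -/
theorem evq_mCf {x : Q} (h : (x 0 : ℝ) < 1 / 2) :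
    (mCf x).1 = fA (Real.pi * x 2) (2 * Real.pi * (x 3 + x 4)) (2 * Real.pi * (x 3 - x 4)) ∧
    (mCf x).2.1 = fB (Real.pi * x 2) (2 * Real.pi * (x 3 + x 4)) ∧
    (mCf x).2.2.1 = 2 * x 0 * (sq (x 1)).1 ∧ (mCf x).2.2.2 = 2 * x 0 * (sq (x 1)).2 := by
  have h1 : min (1 : ℝ) (2 - 2 * (x 0 : ℝ)) = 1 := min_eq_left (by linarith)
  have h2 : min (1 : ℝ) (2 * (x 0 : ℝ)) = 2 * x 0 := min_eq_right (by linarith)
  simp only [mCf, h1, h2, mul_one, Real.cos_pi_div_two, Real.sin_pi_div_two, zero_smul, zero_add,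
    one_smul, and_self]

/-- `mCf` in the outer region -/
theorem evq_mCf' {x : Q} (h : (1 : ℝ) / 2 ≤ x 0) :
    |(mCf x).2.2.1| = 1 ∨ |(mCf x).2.2.2| = 1 := by
  have h2 : min (1 : ℝ) (2 * (x 0 : ℝ)) = 1 := min_eq_left (by linarith)
  simp only [mCf, h2, one_mul]
  exact evq_sq_one _

/-! ### the reduced functions on the cube (coordinate `0` is the time) -/

def evS5 (x : Q) : Prop := 0 < (x 1 : ℝ) ∧ 0 < Real.cos (2 * Real.pi * x 2)
def evS6 (x : Q) : Prop := 0 < (x 1 : ℝ) ∧ 0 < Real.sin (2 * Real.pi * x 2)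
noncomputable def evR (x : Q) : ℝ := Real.pi * x 3
noncomputable def evP (x : Q) : ℝ := 2 * Real.pi * (x 4 + x 5)
noncomputable def evD (x : Q) : ℝ := 2 * Real.pi * (x 4 - x 5)
def evG1 (x : Q) : Prop := 0 < Real.cos (evR x) * (-(Real.sin (evR x) * Real.cos (evP x)))
def evG2 (x : Q) : Prop :=
  0 < Real.sin (evR x) * Real.sin (evP x) * (-(Real.sin (evR x) * Real.cos (evP x)))
noncomputable def evA1 (x : Q) : ℝ :=
  Real.cos (evP x) * Real.cos (evD x) - Real.cos (evR x) * Real.sin (evP x) * Real.sin (evD x)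
def evG3 (x : Q) : Prop := 0 < Real.sin (evR x) * Real.sin (evD x) * evA1 x
def evN (x : Q) : Prop :=
  1 / 2 < (-(Real.sin (evR x) * Real.cos (evP x))) ^ 2 ∧ 1 / 2 < evA1 x ^ 2

/-- indicator -/
noncomputable def ind (P : Prop) : ℚ := if P then 1 else 0

theorem ind_congr {P P' : Prop} (h : P ↔ P') : ind P = ind P' := by
  unfold ind; simp only [h]

theorem ind_up {P P' : Prop} (h : P → P') (hne : ind P' - ind P ≠ 0) :
    ind P' - ind P = 1 ∧ P' ∧ ¬ P := by
  unfold ind at *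
  by_cases h1 : P
  · have h2 := h h1; simp [h1, h2] at hne
  · by_cases h2 : P'
    · simp [h1, h2]
    · simp [h1, h2] at hne

theorem ind_down {P P' : Prop} (h : P' → P) (hne : ind P' - ind P ≠ 0) :
    ind P' - ind P = -1 ∧ P ∧ ¬ P' := by
  unfold ind at *
  by_cases h1 : P'
  · have h2 := h h1; simp [h1, h2] at hne
  · by_cases h2 : P
    · simp [h1, h2]
    · simp [h1, h2] at hne

/-- the five parameter factors -/
noncomputable def evF (x : ℕ → Q) : ℚ :=
  (ind (evS5 (x 2)) - ind (evS5 (x 1))) * ((ind (evS6 (x 3)) - ind (evS6 (x 2))) *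
    ((ind (evG1 (x 4)) - ind (evG1 (x 3))) * ((ind (evG2 (x 5)) - ind (evG2 (x 4))) *
      (ind (evG3 (x 6)) - ind (evG3 (x 5))))))

/-- the letter on the inner region of the crossing edge -/
theorem evq_letter {h : ℝ} {x : ℕ → Q} {χ : ℕ → ℝ} {v : ℕ → E6}
    (hx : ∀ j, (x j 1 : ℝ) < 1 / 2) (hχ : ∀ j, χ j ∈ Set.Icc (0 : ℝ) 1)
    (hv : ∀ j, v j = nrm (seg (vX (mCf (sh 1 (x j))).1 (mCf (sh 1 (x j))).2.2.1)
      (vY (mCf (sh 1 (x j))).2.1 (mCf (sh 1 (x j))).2.2.2) (χ j)))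
    (hH : ∀ j, |HH (v j)| ≤ 1 / 2) :
    wQ h v = ind (evN (x 0)) * ((ind (h < HH (v 1)) - ind (h < HH (v 0))) * evF x) := by
  have key : ∀ j, (0 < (v j) 5 ↔ evS5 (x j)) ∧ (0 < (v j) 6 ↔ evS6 (x j)) ∧
      g1 (v j) = ind (evG1 (x j)) ∧ g2 (v j) = ind (evG2 (x j)) ∧ g3 (v j) = ind (evG3 (x j)) ∧
      indN (v j) = ind (evN (x j)) := by
    intro j
    have hj : ((sh 1 (x j)) 0 : ℝ) < 1 / 2 := hx j
    obtain ⟨e1, e2, e3, e4⟩ := evq_mCf hj
    have hok := ok_mCf (sh 1 (x j))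
    have h0 : (0 : ℝ) ≤ (sh 1 (x j)) 0 := (sh 1 (x j) 0).2.1
    obtain ⟨q1, q2⟩ := evq_sq_le (sh 1 (x j) 1)
    have hs : |(mCf (sh 1 (x j))).2.2.1| < 1 := by
      rw [e3, abs_mul, abs_of_nonneg (by linarith only [h0] : (0 : ℝ) ≤ 2 * (sh 1 (x j)) 0)]
      nlinarith only [hj, h0, q1, abs_nonneg (sq (sh 1 (x j) 1)).1]
    have ht : |(mCf (sh 1 (x j))).2.2.2| < 1 := by
      rw [e4, abs_mul, abs_of_nonneg (by linarith : (0 : ℝ) ≤ 2 * (sh 1 (x j)) 0)]
      nlinarith only [hj, h0, q2, abs_nonneg (sq (sh 1 (x j) 1)).2]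
    have hab : ⟪(mCf (sh 1 (x j))).1, (mCf (sh 1 (x j))).2.1⟫ = 0 := by
      rw [e1, e2]; exact evq_orth _ _ _
    obtain ⟨r1, r2, r3, r4, r5, r6⟩ := evq_vert hok hab hs ht (hχ j) (hv j) (hH j)
    obtain ⟨p1, p2⟩ := evq_sq_pos (sh 1 (x j) 1)
    refine ⟨?_, ?_, ?_, ?_, ?_, ?_⟩
    · rw [r1, e3]
      unfold evS5
      constructor
      · intro h1
        have h2 : (0 : ℝ) < (sh 1 (x j)) 0 := by
          rcases h0.lt_or_eq with h3 | h3
          · exact h3
          · rw [← h3] at h1; norm_num at h1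
        exact ⟨h2, p1.1 ((pos_iff_pos_of_mul_pos h1).1 (by linarith only [h2]))⟩
      · rintro ⟨h1, h2⟩
        have h3 := p1.2 h2
        have h4 : (0 : ℝ) < (sh 1 (x j)) 0 := h1
        positivity
    · rw [r2, e4]
      unfold evS6
      constructor
      · intro h1
        have h2 : (0 : ℝ) < (sh 1 (x j)) 0 := by
          rcases h0.lt_or_eq with h3 | h3
          · exact h3
          · rw [← h3] at h1; norm_num at h1
        exact ⟨h2, p2.1 ((pos_iff_pos_of_mul_pos h1).1 (by linarith only [h2]))⟩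
      · rintro ⟨h1, h2⟩
        have h3 := p2.2 h2
        have h4 : (0 : ℝ) < (sh 1 (x j)) 0 := h1
        positivity
    · rw [r3, e2]; rfl
    · rw [r4, e2]; rfl
    · rw [r5, e1]; rfl
    · rw [r6, e1, e2]; unfold ind; exact if_congr Iff.rfl rfl rfl
  have k5 : ∀ j, s5 ℚ (v j) = ind (evS5 (x j)) := fun j => by
    unfold s5 ind; simp only [(key j).1]
  have k6 : ∀ j, s6 ℚ (v j) = ind (evS6 (x j)) := fun j => by
    unfold s6 ind; simp only [(key j).2.1]
  unfold wQ cup dC evF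
  rw [(key 0).2.2.2.2.2]
  simp only [k5, k6, (key _).2.2.1, (key _).2.2.2.1, (key _).2.2.2.2.1, hi, ind]

theorem evq_mul_sub {a b a' b' : ℝ} (ha : |a| ≤ 1) (hb : |b'| ≤ 1) :
    |a * b - a' * b'| ≤ |a - a'| + |b - b'| := by
  have e : a * b - a' * b' = a * (b - b') + (a - a') * b' := by ring
  rw [e]
  refine (abs_add_le _ _).trans ?_
  rw [abs_mul, abs_mul]
  have h1 := abs_nonneg (b - b')
  have h2 := abs_nonneg (a - a')
  nlinarith only [ha, h1, hb, h2]

theorem evq_sgnA {s c S C : ℝ} (hs : s = 1 ∨ s = -1) (hS : 0 < S) (hC : 0 < s * C) :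
    0 < c * (-(S * C)) ↔ s * c < 0 := by
  have e : c * (-(S * C)) = (- (s * c)) * (S * (s * C)) := by
    rcases hs with rfl | rfl <;> ring
  have h1 : 0 < S * (s * C) := mul_pos hS hC
  rw [e]
  constructor
  · intro h
    have := (pos_iff_pos_of_mul_pos h).2 h1
    linarith
  · intro h
    exact mul_pos (by linarith) h1

theorem evq_sgnB {s y S C : ℝ} (hs : s = 1 ∨ s = -1) (hS : 0 < S) (hC : 0 < s * C) :
    0 < S * y * (-(S * C)) ↔ s * y < 0 := by
  have e : S * y * (-(S * C)) = (- (s * y)) * (S * S * (s * C)) := by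
    rcases hs with rfl | rfl <;> ring
  have h1 : 0 < S * S * (s * C) := by positivity
  rw [e]
  constructor
  · intro h
    have := (pos_iff_pos_of_mul_pos h).2 h1
    linarith
  · intro h
    exact mul_pos (by linarith) h1

theorem evq_sgnC {s y S A : ℝ} (hs : s = 1 ∨ s = -1) (hS : 0 < S) (hA : 0 < s * A) :
    0 < S * y * A ↔ 0 < s * y := by
  have e : S * y * A = (s * y) * (S * (s * A)) := by
    rcases hs with rfl | rfl <;> ring
  have h1 : 0 < S * (s * A) := by positivity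
  rw [e]
  constructor
  · intro h
    exact (pos_iff_pos_of_mul_pos h).2 h1
  · intro h
    exact mul_pos h h1

theorem evq_sign {c : ℝ} (h : c ≠ 0) : ∃ s : ℝ, (s = 1 ∨ s = -1) ∧ s * c = |c| := by
  rcases lt_or_gt_of_ne h with h | h
  · exact ⟨-1, Or.inr rfl, by rw [abs_of_neg h]; ring⟩
  · exact ⟨1, Or.inl rfl, by rw [abs_of_pos h]; ring⟩

/-- the closeness estimates -/
theorem evq_close {M : ℝ} (hM : 1000 ≤ M) {x : ℕ → Q}
    (hclose : ∀ l, 1 ≤ l → l < 6 → ∀ j, |(x j l : ℝ) - x 0 l| ≤ 1 / M)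
    (hN : evN (x 0)) :
    ∃ s ε : ℝ, (s = 1 ∨ s = -1) ∧ (ε = 1 ∨ ε = -1) ∧ (∀ j, 1 / 2 < s * Real.cos (evP (x j))) ∧
      (∀ j, 1 / 2 < ε * evA1 (x j)) ∧ (∀ j, 1 / 2 < Real.sin (evR (x j))) := by
  have hpi := Real.pi_pos
  have hpi2 := Real.pi_lt_d2
  have hM0 : 0 < M := by linarith only [hM]
  have hiM : 1 / M ≤ 1 / 1000 := one_div_le_one_div_of_le (by norm_num) hM
  have hiM0 : 0 < 1 / M := by positivity
  have c1 : ∀ j, |evP (x j) - evP (x 0)| ≤ 13 / 1000 := by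
    intro j
    have h4 := hclose 4 (by norm_num) (by norm_num) j
    have h5 := hclose 5 (by norm_num) (by norm_num) j
    have e : evP (x j) - evP (x 0) = 2 * Real.pi * (((x j 4 : ℝ) - x 0 4) + ((x j 5 : ℝ) - x 0 5)) := by
      unfold evP; ring
    rw [e, abs_mul, abs_of_pos (by positivity : 0 < 2 * Real.pi)]
    have h6 := abs_add_le ((x j 4 : ℝ) - x 0 4) ((x j 5 : ℝ) - x 0 5)
    have h7 : |((x j 4 : ℝ) - x 0 4) + ((x j 5 : ℝ) - x 0 5)| ≤ 2 / 1000 := by linarith only [hiM, h4, h5, h6]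
    nlinarith [abs_nonneg (((x j 4 : ℝ) - x 0 4) + ((x j 5 : ℝ) - x 0 5))]
  have c2 : ∀ j, |evD (x j) - evD (x 0)| ≤ 13 / 1000 := by
    intro j
    have h4 := hclose 4 (by norm_num) (by norm_num) j
    have h5 := hclose 5 (by norm_num) (by norm_num) j
    have e : evD (x j) - evD (x 0) = 2 * Real.pi * (((x j 4 : ℝ) - x 0 4) - ((x j 5 : ℝ) - x 0 5)) := by
      unfold evD; ring
    rw [e, abs_mul, abs_of_pos (by positivity : 0 < 2 * Real.pi)]
    have h6 := abs_sub ((x j 4 : ℝ) - x 0 4) ((x j 5 : ℝ) - x 0 5)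
    have h7 : |((x j 4 : ℝ) - x 0 4) - ((x j 5 : ℝ) - x 0 5)| ≤ 2 / 1000 := by linarith
    nlinarith only [hpi2, hiM, hiM0, hpi, h4, h5, h6, abs_nonneg (((x j 4 : ℝ) - x 0 4) - ((x j 5 : ℝ) - x 0 5))]
  have c3 : ∀ j, |evR (x j) - evR (x 0)| ≤ 4 / 1000 := by
    intro j
    have h4 := hclose 3 (by norm_num) (by norm_num) j
    have e : evR (x j) - evR (x 0) = Real.pi * ((x j 3 : ℝ) - x 0 3) := by
      unfold evR; ring
    rw [e, abs_mul, abs_of_pos hpi]
    nlinarith [abs_nonneg ((x j 3 : ℝ) - x 0 3)]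
  obtain ⟨n1, n2⟩ := hN
  have hS : ∀ j, 0 ≤ Real.sin (evR (x j)) := by
    intro j
    apply Real.sin_nonneg_of_nonneg_of_le_pi
    · have := (x j 3).2.1
      unfold evR
      positivity
    · have := (x j 3).2.2
      unfold evR
      nlinarith only [hpi, this]
  have n3 : 7 / 10 < Real.sin (evR (x 0)) * |Real.cos (evP (x 0))| := by
    have h0 : 0 ≤ Real.sin (evR (x 0)) * |Real.cos (evP (x 0))| := mul_nonneg (hS 0) (abs_nonneg _)
    have h1 : (-(Real.sin (evR (x 0)) * Real.cos (evP (x 0)))) ^ 2 =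
        (Real.sin (evR (x 0)) * |Real.cos (evP (x 0))|) ^ 2 := by
      rw [neg_sq, mul_pow, mul_pow, sq_abs]
    rw [h1] at n1
    nlinarith only [hiM, n1, hiM0, h0]
  have b1 : |Real.cos (evP (x 0))| ≤ 1 := Real.abs_cos_le_one _
  have b2 : Real.sin (evR (x 0)) ≤ 1 := Real.sin_le_one _
  have n4 : 7 / 10 < |Real.cos (evP (x 0))| := by nlinarith only [hiM, n3, hiM0, b2, hS 0, abs_nonneg (Real.cos (evP (x 0)))]
  have n5 : 7 / 10 < Real.sin (evR (x 0)) := by nlinarith only [hiM, n3, hiM0, b1, hS, hS 0, abs_nonneg (Real.cos (evP (x 0)))]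
  have n6 : 7 / 10 < |evA1 (x 0)| := by
    have h1 : evA1 (x 0) ^ 2 = |evA1 (x 0)| ^ 2 := (sq_abs _).symm
    rw [h1] at n2
    nlinarith only [n2, abs_nonneg (evA1 (x 0))]
  have hA : ∀ j, |evA1 (x j) - evA1 (x 0)| ≤ 1 / 10 := by
    intro j
    have t1 := evq_mul_sub (a := Real.cos (evP (x j))) (a' := Real.cos (evP (x 0)))
      (b := Real.cos (evD (x j))) (b' := Real.cos (evD (x 0))) (Real.abs_cos_le_one _)
      (Real.abs_cos_le_one _)
    have t2 := evq_mul_sub (a := Real.cos (evR (x j))) (a' := Real.cos (evR (x 0)))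
      (b := Real.sin (evP (x j))) (b' := Real.sin (evP (x 0))) (Real.abs_cos_le_one _)
      (Real.abs_sin_le_one _)
    have t3 := evq_mul_sub (a := Real.cos (evR (x j)) * Real.sin (evP (x j)))
      (a' := Real.cos (evR (x 0)) * Real.sin (evP (x 0)))
      (b := Real.sin (evD (x j))) (b' := Real.sin (evD (x 0))) (by
        rw [abs_mul]
        exact mul_le_one₀ (Real.abs_cos_le_one _) (abs_nonneg _) (Real.abs_sin_le_one _))
      (Real.abs_sin_le_one _)
    have u1 := Real.abs_cos_sub_cos_le (evP (x j)) (evP (x 0))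
    have u2 := Real.abs_cos_sub_cos_le (evD (x j)) (evD (x 0))
    have u3 := Real.abs_cos_sub_cos_le (evR (x j)) (evR (x 0))
    have u4 := Real.abs_sin_sub_sin_le (evP (x j)) (evP (x 0))
    have u5 := Real.abs_sin_sub_sin_le (evD (x j)) (evD (x 0))
    have e : evA1 (x j) - evA1 (x 0) =
        (Real.cos (evP (x j)) * Real.cos (evD (x j)) - Real.cos (evP (x 0)) * Real.cos (evD (x 0))) -
        (Real.cos (evR (x j)) * Real.sin (evP (x j)) * Real.sin (evD (x j)) -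
          Real.cos (evR (x 0)) * Real.sin (evP (x 0)) * Real.sin (evD (x 0))) := by
      unfold evA1; ring
    rw [e]
    refine (abs_sub _ _).trans ?_
    have := c1 j
    have := c2 j
    have := c3 j
    linarith
  obtain ⟨s, hs, hs1⟩ := evq_sign (c := Real.cos (evP (x 0))) (by
    intro h; rw [h] at n4; norm_num at n4)
  obtain ⟨ε, hε, hε1⟩ := evq_sign (c := evA1 (x 0)) (by
    intro h; rw [h] at n6; norm_num at n6)
  refine ⟨s, ε, hs, hε, ?_, ?_, ?_⟩
  · intro j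
    have u1 := Real.abs_cos_sub_cos_le (evP (x j)) (evP (x 0))
    have h1 : s * Real.cos (evP (x j)) = |Real.cos (evP (x 0))| +
        s * (Real.cos (evP (x j)) - Real.cos (evP (x 0))) := by rw [← hs1]; ring
    have h2 : |s * (Real.cos (evP (x j)) - Real.cos (evP (x 0)))| ≤ 13 / 1000 := by
      rw [abs_mul]
      have : |s| = 1 := by rcases hs with rfl | rfl <;> simp
      rw [this, one_mul]
      exact u1.trans (c1 j)
    have h3 := neg_abs_le (s * (Real.cos (evP (x j)) - Real.cos (evP (x 0))))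
    rw [h1]
    linarith only [hiM, hiM0, n4, h2, h3]
  · intro j
    have h1 : ε * evA1 (x j) = |evA1 (x 0)| + ε * (evA1 (x j) - evA1 (x 0)) := by
      rw [← hε1]; ring
    have h2 : |ε * (evA1 (x j) - evA1 (x 0))| ≤ 1 / 10 := by
      rw [abs_mul]
      have : |ε| = 1 := by rcases hε with rfl | rfl <;> simp
      rw [this, one_mul]
      exact hA j
    have h3 := neg_abs_le (ε * (evA1 (x j) - evA1 (x 0)))
    rw [h1]
    linarith only [hiM, hiM0, n6, h2, h3]
  · intro j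
    have u1 := Real.abs_sin_sub_sin_le (evR (x j)) (evR (x 0))
    have h3 := neg_abs_le (Real.sin (evR (x j)) - Real.sin (evR (x 0)))
    have := c3 j
    linarith only [hiM, hiM0, n5, u1, h3, this]

/-- the sign of a permutation of `0, …, 5` -/
theorem evq_sg_id {pos : ℕ → ℕ} (h0 : pos 0 = 0) (h1 : pos 1 = 1) (h2 : pos 2 = 2) (h3 : pos 3 = 3)
    (h4 : pos 4 = 4) (h5 : pos 5 = 5) : (sg 6 pos : ℚ) = 1 := by
  simp [sg, h0, h1, h2, h3, h4, h5]

theorem evq_sg_swap {pos : ℕ → ℕ} (h0 : pos 0 = 0) (h1 : pos 1 = 1) (h2 : pos 2 = 2)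
    (h3 : pos 3 = 3) (h4 : pos 4 = 5) (h5 : pos 5 = 4) : (sg 6 pos : ℚ) = -1 := by
  simp [sg, h0, h1, h2, h3, h4, h5]

/-- the sign of the product of the five parameter factors -/
theorem evq_core {M : ℝ} (hM : 1000 ≤ M) {x : ℕ → Q} {pos : ℕ → ℕ}
    (hlt : ∀ l < 6, pos l < 6) (hinj : ∀ l < 6, ∀ l' < 6, pos l = pos l' → l = l')
    (hstay : ∀ l, 1 ≤ l → l < 6 → ∀ j, pos l ≠ j → x (j + 1) l = x j l)
    (hmove : ∀ l, 1 ≤ l → l < 6 → ∀ j, pos l = j → (x (j + 1) l : ℝ) = x j l + 1 / M)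
    (hclose : ∀ l, 1 ≤ l → l < 6 → ∀ j, |(x j l : ℝ) - x 0 l| ≤ 1 / M)
    (hN : evN (x 0)) (hne : evF x ≠ 0) : pos 0 = 0 ∧ (sg 6 pos : ℚ) * evF x = 1 := by
  obtain ⟨s, ε, hs, hε, hc, ha, hS⟩ := evq_close hM hclose hN
  have hpi := Real.pi_pos
  have hpi2 := Real.pi_lt_d2
  have hM0 : 0 < M := by linarith only [hM]
  have hiM : 1 / M ≤ 1 / 1000 := one_div_le_one_div_of_le (by norm_num) hM
  have hiM0 : 0 < 1 / M := by positivity
  obtain ⟨η, hη⟩ : ∃ η : ℝ, η = 2 * Real.pi * (1 / M) := ⟨_, rfl⟩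
  have hη0 : 0 < η := by rw [hη]; positivity
  have hη1 : η ≤ 1 / 100 := by rw [hη]; nlinarith only [hpi2, hiM, hiM0, hpi]
  have hcη : 0 < Real.cos η := Real.cos_pos_of_mem_Ioo ⟨by linarith only [hpi, hη0], by linarith [Real.pi_gt_three]⟩
  have hsη : 0 < Real.sin η := Real.sin_pos_of_pos_of_lt_pi hη0 (by linarith only [hiM, hiM0, hη1, Real.pi_gt_three])
  have hsη' : Real.sin η ≤ η := (Real.sin_lt hη0).le
  have hne' := hne
  unfold evF at hne'
  obtain ⟨f1, hne1⟩ := mul_ne_zero_iff.1 hne'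
  obtain ⟨f2, hne2⟩ := mul_ne_zero_iff.1 hne1
  obtain ⟨f3, hne3⟩ := mul_ne_zero_iff.1 hne2
  obtain ⟨f4, f5⟩ := mul_ne_zero_iff.1 hne3
  have G1 : ∀ j, evG1 (x j) ↔ s * Real.cos (evR (x j)) < 0 := fun j =>
    evq_sgnA hs (by linarith only [hiM, hiM0, hS, hS j]) (by linarith only [hiM, hiM0, hc, hc j])
  have G2 : ∀ j, evG2 (x j) ↔ s * Real.sin (evP (x j)) < 0 := fun j =>
    evq_sgnB hs (by linarith [hS j]) (by linarith only [hiM, hiM0, hc, hc j])
  have G3 : ∀ j, evG3 (x j) ↔ 0 < ε * Real.sin (evD (x j)) := fun j =>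
    evq_sgnC hε (by linarith only [hiM, hiM0, hS, hS j]) (by linarith only [hiM, hiM0, ha, ha j])
  -- which coordinate moves in which step
  have p12 : pos 1 = 1 ∨ pos 2 = 1 := by
    by_contra hcon
    push Not at hcon
    have e1 : x 2 1 = x 1 1 := hstay 1 (by norm_num) (by norm_num) 1 hcon.1
    have e2 : x 2 2 = x 1 2 := hstay 2 (by norm_num) (by norm_num) 1 hcon.2
    apply f1
    unfold evS5
    rw [e1, e2, sub_self]
  have p12' : pos 1 = 2 ∨ pos 2 = 2 := by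
    by_contra hcon
    push Not at hcon
    have e1 : x 3 1 = x 2 1 := hstay 1 (by norm_num) (by norm_num) 2 hcon.1
    have e2 : x 3 2 = x 2 2 := hstay 2 (by norm_num) (by norm_num) 2 hcon.2
    apply f2
    unfold evS6
    rw [e1, e2, sub_self]
  have p3 : pos 3 = 3 := by
    by_contra hcon
    have e1 : x 4 3 = x 3 3 := hstay 3 (by norm_num) (by norm_num) 3 hcon
    have e2 : evR (x 4) = evR (x 3) := by unfold evR; rw [e1]
    apply f3
    rw [ind_congr (G1 4), ind_congr (G1 3), e2, sub_self]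
  have p45 : pos 4 = 4 ∨ pos 5 = 4 := by
    by_contra hcon
    push Not at hcon
    have e1 : x 5 4 = x 4 4 := hstay 4 (by norm_num) (by norm_num) 4 hcon.1
    have e2 : x 5 5 = x 4 5 := hstay 5 (by norm_num) (by norm_num) 4 hcon.2
    have e3 : evP (x 5) = evP (x 4) := by unfold evP; rw [e1, e2]
    apply f4
    rw [ind_congr (G2 5), ind_congr (G2 4), e3, sub_self]
  have p45' : pos 4 = 5 ∨ pos 5 = 5 := by
    by_contra hcon
    push Not at hcon
    have e1 : x 6 4 = x 5 4 := hstay 4 (by norm_num) (by norm_num) 5 hcon.1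
    have e2 : x 6 5 = x 5 5 := hstay 5 (by norm_num) (by norm_num) 5 hcon.2
    have e3 : evD (x 6) = evD (x 5) := by unfold evD; rw [e1, e2]
    apply f5
    rw [ind_congr (G3 6), ind_congr (G3 5), e3, sub_self]
  have l0 := hlt 0 (by norm_num)
  have i1 : pos 0 ≠ pos 1 := fun h => by simpa using hinj 0 (by norm_num) 1 (by norm_num) h
  have i2 : pos 0 ≠ pos 2 := fun h => by simpa using hinj 0 (by norm_num) 2 (by norm_num) h
  have i3 : pos 0 ≠ pos 3 := fun h => by simpa using hinj 0 (by norm_num) 3 (by norm_num) h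
  have i4 : pos 0 ≠ pos 4 := fun h => by simpa using hinj 0 (by norm_num) 4 (by norm_num) h
  have i5 : pos 0 ≠ pos 5 := fun h => by simpa using hinj 0 (by norm_num) 5 (by norm_num) h
  have p0 : pos 0 = 0 := by omega
  refine ⟨p0, ?_⟩
  -- the order of the coordinates 1 and 2
  have p1 : pos 1 = 1 := by
    rcases p12 with h | h
    · exact h
    · exfalso
      have h2 : pos 1 = 2 := by omega
      have e1 : x 2 1 = x 1 1 := hstay 1 (by norm_num) (by norm_num) 1 (by omega)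
      have e2 : (x 3 1 : ℝ) = x 2 1 + 1 / M := hmove 1 (by norm_num) (by norm_num) 2 h2
      have e3 : x 3 2 = x 2 2 := hstay 2 (by norm_num) (by norm_num) 2 (by omega)
      by_cases h3 : 0 < (x 2 1 : ℝ)
      · apply f2
        have : evS6 (x 3) ↔ evS6 (x 2) := by
          unfold evS6
          rw [e3, e2]
          constructor
          · rintro ⟨-, h⟩; exact ⟨h3, h⟩
          · rintro ⟨-, h⟩; exact ⟨by linarith only [hiM0, h3], h⟩
        rw [ind_congr this, sub_self]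
      · apply f1
        have h5 : ¬ evS5 (x 2) := fun h => h3 h.1
        have h6 : ¬ evS5 (x 1) := fun h => h3 (by rw [e1]; exact h.1)
        simp [ind, h5, h6]
  have p2 : pos 2 = 2 := by omega
  -- the factors
  have a1 : (x 2 1 : ℝ) = x 1 1 + 1 / M := hmove 1 (by norm_num) (by norm_num) 1 p1
  have a2 : x 2 2 = x 1 2 := hstay 2 (by norm_num) (by norm_num) 1 (by omega)
  obtain ⟨F1, F1a, -⟩ := ind_up (P := evS5 (x 1)) (P' := evS5 (x 2)) (by
    rintro ⟨h1, h2⟩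
    exact ⟨by rw [a1]; linarith only [hiM0, h1], by rw [a2]; exact h2⟩) f1
  have a3 : x 3 1 = x 2 1 := hstay 1 (by norm_num) (by norm_num) 2 (by omega)
  have a4 : (x 3 2 : ℝ) = x 2 2 + 1 / M := hmove 2 (by norm_num) (by norm_num) 2 p2
  obtain ⟨F2, -, -⟩ := ind_up (P := evS6 (x 2)) (P' := evS6 (x 3)) (by
    rintro ⟨h1, h2⟩
    refine ⟨by rw [a3]; exact h1, ?_⟩
    have e : 2 * Real.pi * (x 3 2 : ℝ) = 2 * Real.pi * (x 2 2 : ℝ) + η := by rw [a4, hη]; ring
    rw [e, Real.sin_add]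
    have := F1a.2
    positivity) f2
  have a5 : (x 4 3 : ℝ) = x 3 3 + 1 / M := hmove 3 (by norm_num) (by norm_num) 3 p3
  have a6 : Real.cos (evR (x 4)) ≤ Real.cos (evR (x 3)) := by
    apply Real.cos_le_cos_of_nonneg_of_le_pi
    · have := (x 3 3).2.1
      unfold evR; positivity
    · have := (x 4 3).2.2
      unfold evR; nlinarith only [hpi, this]
    · unfold evR; rw [a5]; linarith only [hη, hη0]
  have b1 : ∀ j, |Real.sin (evP (x j))| ≤ 1 := fun j => Real.abs_sin_le_one _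
  -- factor 4
  have a7 : evP (x 5) = evP (x 4) + η := by
    rcases p45 with h | h
    · have e1 : (x 5 4 : ℝ) = x 4 4 + 1 / M := hmove 4 (by norm_num) (by norm_num) 4 h
      have e2 : x 5 5 = x 4 5 := hstay 5 (by norm_num) (by norm_num) 4 (by omega)
      unfold evP; rw [e1, e2, hη]; ring
    · have e1 : (x 5 5 : ℝ) = x 4 5 + 1 / M := hmove 5 (by norm_num) (by norm_num) 4 h
      have e2 : x 5 4 = x 4 4 := hstay 4 (by norm_num) (by norm_num) 4 (by omega)
      unfold evP; rw [e1, e2, hη]; ring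
  have a8 : s * Real.sin (evP (x 5)) =
      (s * Real.sin (evP (x 4))) * Real.cos η + (s * Real.cos (evP (x 4))) * Real.sin η := by
    rw [a7, Real.sin_add]; ring
  have a9 : 0 < (s * Real.cos (evP (x 4))) * Real.sin η := mul_pos (by linarith only [hiM, hiM0, hc, hc 4]) hsη
  obtain ⟨F4, F4a, F4b⟩ := ind_down (P := evG2 (x 4)) (P' := evG2 (x 5)) (by
    rw [G2, G2]
    intro h
    by_contra hcon
    push Not at hcon
    have := mul_nonneg hcon hcη.le
    linarith only [a8, a9, h, this]) f4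
  rw [G2] at F4a F4b
  push Not at F4b
  -- `sin (evP (x 5))` is small
  have a10 : |Real.sin (evP (x 5))| ≤ 1 / 100 := by
    have h1 : |Real.sin (evP (x 5))| = s * Real.sin (evP (x 5)) := by
      have : |s * Real.sin (evP (x 5))| = |Real.sin (evP (x 5))| := by
        rw [abs_mul]
        have : |s| = 1 := by rcases hs with rfl | rfl <;> simp
        rw [this, one_mul]
      rw [← this]
      exact abs_of_nonneg F4b
    rw [h1, a8]
    have h2 : s * Real.cos (evP (x 4)) ≤ 1 := by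
      have := Real.cos_le_one (evP (x 4))
      have := Real.neg_one_le_cos (evP (x 4))
      rcases hs with rfl | rfl <;> linarith
    have h3 : s * Real.sin (evP (x 4)) * Real.cos η ≤ 0 := by nlinarith only [hcη, F4a]
    have h4 : s * Real.cos (evP (x 4)) * Real.sin η ≤ Real.sin η := by nlinarith only [hsη, h2]
    linarith only [hη1, hsη', h3, h4]
  -- the sign of `cos (evD (x 5))`
  have a11 : 0 < (ε * s) * Real.cos (evD (x 5)) := by
    have h1 := ha 5
    unfold evA1 at h1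
    have h2 : |ε * (Real.cos (evR (x 5)) * Real.sin (evP (x 5)) * Real.sin (evD (x 5)))| ≤ 1 / 100 := by
      rw [abs_mul, abs_mul, abs_mul]
      have h3 : |ε| = 1 := by rcases hε with rfl | rfl <;> simp
      have h4 := Real.abs_cos_le_one (evR (x 5))
      have h5 := Real.abs_sin_le_one (evD (x 5))
      have h6 := abs_nonneg (Real.cos (evR (x 5)))
      have h7 := abs_nonneg (Real.sin (evD (x 5)))
      have h8 := abs_nonneg (Real.sin (evP (x 5)))
      rw [h3, one_mul]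
      calc |Real.cos (evR (x 5))| * |Real.sin (evP (x 5))| * |Real.sin (evD (x 5))|
          ≤ 1 * (1 / 100) * 1 := by gcongr
        _ = 1 / 100 := by norm_num
    have h3 := neg_abs_le (ε * (Real.cos (evR (x 5)) * Real.sin (evP (x 5)) * Real.sin (evD (x 5))))
    have h4 := le_abs_self (ε * (Real.cos (evR (x 5)) * Real.sin (evP (x 5)) * Real.sin (evD (x 5))))
    have h5 : 0 < ε * (Real.cos (evP (x 5)) * Real.cos (evD (x 5))) := by linarith only [hiM, hiM0, h1, h2, h3]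
    have h6 : ε * (Real.cos (evP (x 5)) * Real.cos (evD (x 5))) =
        ((ε * s) * Real.cos (evD (x 5))) * (s * Real.cos (evP (x 5))) := by
      rcases hs with rfl | rfl <;> ring
    rw [h6] at h5
    exact (pos_iff_pos_of_mul_pos h5).2 (by linarith only [hiM, hiM0, hc, hc 5])
  have a12 : 0 < ((ε * s) * Real.cos (evD (x 5))) * Real.sin η := mul_pos a11 hsη
  unfold evF
  rw [F1, F2, F4]
  rcases p45 with h | h
  · -- order (4, 5)
    have h5 : pos 5 = 5 := by omega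
    have e1 : (x 6 5 : ℝ) = x 5 5 + 1 / M := hmove 5 (by norm_num) (by norm_num) 5 h5
    have e2 : x 6 4 = x 5 4 := hstay 4 (by norm_num) (by norm_num) 5 (by omega)
    have e3 : evD (x 6) = evD (x 5) - η := by unfold evD; rw [e1, e2, hη]; ring
    have e4 : ε * Real.sin (evD (x 6)) = (ε * Real.sin (evD (x 5))) * Real.cos η -
        (ε * Real.cos (evD (x 5))) * Real.sin η := by
      rw [e3, Real.sin_sub]; ring
    rw [evq_sg_id p0 p1 p2 p3 h h5]
    rcases hs with rfl | rfl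
    · obtain ⟨F3, -, -⟩ := ind_up (P := evG1 (x 3)) (P' := evG1 (x 4)) (by
        rw [G1, G1]; intro h; linarith only [a6, h]) f3
      obtain ⟨F5, -, -⟩ := ind_down (P := evG3 (x 5)) (P' := evG3 (x 6)) (by
        rw [G3, G3]; intro h
        by_contra hcon
        push Not at hcon
        have := mul_nonpos_of_nonpos_of_nonneg hcon hcη.le
        linarith only [e4, a12, h, this]) f5
      rw [F3, F5]; norm_num
    · obtain ⟨F3, -, -⟩ := ind_down (P := evG1 (x 3)) (P' := evG1 (x 4)) (by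
        rw [G1, G1]; intro h; linarith only [a6, h]) f3
      obtain ⟨F5, -, -⟩ := ind_up (P := evG3 (x 5)) (P' := evG3 (x 6)) (by
        rw [G3, G3]; intro h
        have := mul_pos h hcη
        linarith only [e4, a12, this]) f5
      rw [F3, F5]; norm_num
  · -- order (5, 4)
    have h5 : pos 4 = 5 := by omega
    have e1 : (x 6 4 : ℝ) = x 5 4 + 1 / M := hmove 4 (by norm_num) (by norm_num) 5 h5
    have e2 : x 6 5 = x 5 5 := hstay 5 (by norm_num) (by norm_num) 5 (by omega)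
    have e3 : evD (x 6) = evD (x 5) + η := by unfold evD; rw [e1, e2, hη]; ring
    have e4 : ε * Real.sin (evD (x 6)) = (ε * Real.sin (evD (x 5))) * Real.cos η +
        (ε * Real.cos (evD (x 5))) * Real.sin η := by
      rw [e3, Real.sin_add]; ring
    rw [evq_sg_swap p0 p1 p2 p3 h5 h]
    rcases hs with rfl | rfl
    · obtain ⟨F3, -, -⟩ := ind_up (P := evG1 (x 3)) (P' := evG1 (x 4)) (by
        rw [G1, G1]; intro h; linarith only [a6, h]) f3
      obtain ⟨F5, -, -⟩ := ind_up (P := evG3 (x 5)) (P' := evG3 (x 6)) (by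
        rw [G3, G3]; intro h
        have := mul_pos h hcη
        linarith only [e4, a12, this]) f5
      rw [F3, F5]; norm_num
    · obtain ⟨F3, -, -⟩ := ind_down (P := evG1 (x 3)) (P' := evG1 (x 4)) (by
        rw [G1, G1]; intro h; linarith only [a6, h]) f3
      obtain ⟨F5, -, -⟩ := ind_down (P := evG3 (x 5)) (P' := evG3 (x 6)) (by
        rw [G3, G3]; intro h
        by_contra hcon
        push Not at hcon
        have := mul_nonpos_of_nonpos_of_nonneg hcon hcη.le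
        linarith only [e4, a12, h, this]) f5
      rw [F3, F5]; norm_num

/-- the special simplex -/
theorem evq_special {q : ℕ} (hq : 1000 ≤ q) {x : ℕ → Q} {M : ℝ} (hM : M = 2 * q + 1)
    (h1 : ∀ j, (x j 1 : ℝ) = (0 + if 1 < j then 1 else 0) / M)
    (h2 : ∀ j, (x j 2 : ℝ) = (0 + if 2 < j then 1 else 0) / M)
    (h3 : ∀ j, (x j 3 : ℝ) = (q + if 3 < j then 1 else 0) / M)
    (h4 : ∀ j, (x j 4 : ℝ) = (q + if 4 < j then 1 else 0) / M)
    (h5 : ∀ j, (x j 5 : ℝ) = (0 + if 5 < j then 1 else 0) / M) :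
    evN (x 0) ∧ evF x ≠ 0 := by
  have hpi := Real.pi_pos
  have hpi2 := Real.pi_lt_d2
  have hpi3 := Real.pi_gt_three
  have hq' : (1000 : ℝ) ≤ q := by exact_mod_cast hq
  have hM0 : 0 < M := by rw [hM]; positivity
  obtain ⟨θ, hθ⟩ : ∃ θ : ℝ, θ = Real.pi / M := ⟨_, rfl⟩
  have hMθ : M * θ = Real.pi := by rw [hθ]; field_simp
  have hθ0 : 0 < θ := by rw [hθ]; positivity
  have hθ1 : θ ≤ 1 / 600 := by
    rw [hθ, div_le_iff₀ hM0]; linarith only [hM, hpi2, hpi3, hq']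
  have hqθ : q * θ = Real.pi / 2 - θ / 2 := by
    have : (2 * (q : ℝ) + 1) * θ = Real.pi := by rw [← hM]; exact hMθ
    linarith only [this]
  -- small angles
  have c1 : 99 / 100 < Real.cos θ := by
    have := Real.one_sub_sq_div_two_le_cos (x := θ); nlinarith only [hpi2, hq', this, hM, hpi, hθ1, hMθ, hθ0]
  have c2 : 99 / 100 < Real.cos (θ / 2) := by
    have := Real.one_sub_sq_div_two_le_cos (x := θ / 2); nlinarith only [hpi2, hq', this, hM, hpi, hθ1, hMθ, hθ0]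
  have c3 : 99 / 100 < Real.cos (3 * θ) := by
    have := Real.one_sub_sq_div_two_le_cos (x := 3 * θ); nlinarith only [hpi2, hq', this, hM, hpi, hθ1, hMθ, hθ0]
  have c4 : 0 < Real.cos (2 * θ) := Real.cos_pos_of_mem_Ioo ⟨by linarith only [hpi3, hθ0, hθ1], by linarith only [hpi3, hθ0, hθ1]⟩
  have s1 : 0 < Real.sin θ := Real.sin_pos_of_pos_of_lt_pi hθ0 (by linarith only [hpi3, hθ0, hθ1])
  have s2 : 0 < Real.sin (θ / 2) := Real.sin_pos_of_pos_of_lt_pi (by linarith only [hθ0]) (by linarith only [hpi3, hθ0, hθ1])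
  have s3 : 0 < Real.sin (3 * θ) := Real.sin_pos_of_pos_of_lt_pi (by linarith only [hθ0]) (by linarith only [hpi3, hθ0, hθ1])
  have s4 : 0 < Real.sin (2 * θ) := Real.sin_pos_of_pos_of_lt_pi (by linarith only [hθ0]) (by linarith only [hpi3, hθ0, hθ1])
  have t1 : Real.sin θ ≤ 1 / 100 := by have := (Real.sin_lt hθ0).le; linarith only [hθ0, hθ1, this]
  have t2 : Real.sin (θ / 2) ≤ 1 / 100 := by
    have := (Real.sin_lt (by linarith only [hθ0] : 0 < θ / 2)).le; linarith only [hθ1, s2, this]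
  have t3 : Real.sin (3 * θ) ≤ 1 / 100 := by
    have := (Real.sin_lt (by linarith only [hθ0] : 0 < 3 * θ)).le; linarith only [hθ0, hθ1, this]
  -- the angles
  have R0 : ∀ j, j ≤ 3 → evR (x j) = Real.pi / 2 - θ / 2 := by
    intro j hj
    have : ¬ 3 < j := by omega
    unfold evR
    rw [h3, if_neg this, ← hqθ, hθ]; ring
  have R1 : ∀ j, 3 < j → evR (x j) = Real.pi / 2 + θ / 2 := by
    intro j hj
    have e : Real.pi / 2 + θ / 2 = q * θ + θ := by rw [hqθ]; ring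
    unfold evR
    rw [h3, if_pos hj, e, hθ]; ring
  have P0 : ∀ j, j ≤ 4 → evP (x j) = Real.pi - θ := by
    intro j hj
    have a : ¬ 4 < j := by omega
    have b : ¬ 5 < j := by omega
    have e : Real.pi - θ = 2 * (q * θ) := by rw [hqθ]; ring
    unfold evP
    rw [h4, h5, if_neg a, if_neg b, e, hθ]; ring
  have P5 : evP (x 5) = θ + Real.pi := by
    have e : θ + Real.pi = 2 * (q * θ) + 2 * θ := by rw [hqθ]; ring
    unfold evP
    rw [h4, h5, if_pos (by norm_num), if_neg (by norm_num), e, hθ]; ring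
  have P6 : evP (x 6) = 3 * θ + Real.pi := by
    have e : 3 * θ + Real.pi = 2 * (q * θ) + 4 * θ := by rw [hqθ]; ring
    unfold evP
    rw [h4, h5, if_pos (by norm_num), if_pos (by norm_num), e, hθ]; ring
  have D0 : evD (x 0) = Real.pi - θ := by
    have e : Real.pi - θ = 2 * (q * θ) := by rw [hqθ]; ring
    unfold evD
    rw [h4, h5, if_neg (by norm_num), if_neg (by norm_num), e, hθ]; ring
  have D5 : evD (x 5) = θ + Real.pi := by
    have e : θ + Real.pi = 2 * (q * θ) + 2 * θ := by rw [hqθ]; ring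
    unfold evD
    rw [h4, h5, if_pos (by norm_num), if_neg (by norm_num), e, hθ]; ring
  have D6 : evD (x 6) = Real.pi - θ := by
    have e : Real.pi - θ = 2 * (q * θ) := by rw [hqθ]; ring
    unfold evD
    rw [h4, h5, if_pos (by norm_num), if_pos (by norm_num), e, hθ]; ring
  have cR0 : Real.cos (Real.pi / 2 - θ / 2) = Real.sin (θ / 2) := Real.cos_pi_div_two_sub _
  have sR0 : Real.sin (Real.pi / 2 - θ / 2) = Real.cos (θ / 2) := Real.sin_pi_div_two_sub _
  have cR1 : Real.cos (Real.pi / 2 + θ / 2) = - Real.sin (θ / 2) := by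
    rw [add_comm, Real.cos_add_pi_div_two]
  have sR1 : Real.sin (Real.pi / 2 + θ / 2) = Real.cos (θ / 2) := by
    rw [add_comm, Real.sin_add_pi_div_two]
  constructor
  · unfold evN evA1
    rw [R0 0 (by norm_num), P0 0 (by norm_num), D0, cR0, sR0, Real.cos_pi_sub, Real.sin_pi_sub]
    constructor
    · have h : 98 / 100 < Real.cos (θ / 2) * Real.cos θ := by nlinarith only [hθ0, c1, c2, hθ1]
      nlinarith only [hθ0, c1, c2, hθ1, h]
    · have h : 97 / 100 < -Real.cos θ * -Real.cos θ - Real.sin (θ / 2) * Real.sin θ * Real.sin θ := by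
        have : Real.sin (θ / 2) * Real.sin θ * Real.sin θ ≤ 1 / 100 * (1 / 100) * (1 / 100) := by
          gcongr
        nlinarith only [this, hθ0, c1, hθ1]
      nlinarith only [hθ0, h, hθ1]
  · have A5 : 0 < evA1 (x 5) := by
      unfold evA1
      rw [R1 5 (by norm_num), P5, D5, cR1, Real.cos_add_pi, Real.sin_add_pi]
      have a1 : 0 < Real.sin (θ / 2) * Real.sin θ * Real.sin θ := by positivity
      have a2 : 0 < Real.cos θ * Real.cos θ := by positivity
      have e : -Real.cos θ * -Real.cos θ - -Real.sin (θ / 2) * -Real.sin θ * -Real.sin θ =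
        Real.cos θ * Real.cos θ + Real.sin (θ / 2) * Real.sin θ * Real.sin θ := by ring
      rw [e]
      linarith only [a1, a2]
    have A6 : 0 < evA1 (x 6) := by
      unfold evA1
      rw [R1 6 (by norm_num), P6, D6, cR1, Real.cos_add_pi, Real.sin_add_pi, Real.cos_pi_sub,
        Real.sin_pi_sub]
      have a1 : Real.sin (θ / 2) * Real.sin (3 * θ) * Real.sin θ ≤ 1 / 100 * (1 / 100) * (1 / 100) := by
        gcongr
      have a2 : 99 / 100 * (99 / 100) ≤ Real.cos (3 * θ) * Real.cos θ := by gcongr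
      have e : -Real.cos (3 * θ) * -Real.cos θ - -Real.sin (θ / 2) * -Real.sin (3 * θ) * Real.sin θ =
        Real.cos (3 * θ) * Real.cos θ - Real.sin (θ / 2) * Real.sin (3 * θ) * Real.sin θ := by ring
      rw [e]
      linarith only [hθ0, hθ1, a1, a2]
    have e1 : evS5 (x 2) := by
      unfold evS5
      rw [h1, h2]
      simp only [Nat.one_lt_ofNat, if_true, lt_irrefl, if_false, add_zero, zero_div, mul_zero,
        Real.cos_zero, zero_add]
      exact ⟨by positivity, one_pos⟩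
    have e2 : ¬ evS5 (x 1) := by
      unfold evS5
      rw [h1]
      simp
    have e3 : evS6 (x 3) := by
      unfold evS6
      rw [h1, h2, if_pos (by norm_num), if_pos (by norm_num)]
      refine ⟨by positivity, ?_⟩
      have e : 2 * Real.pi * ((0 + 1) / M) = 2 * θ := by rw [hθ]; ring
      rw [e]; exact s4
    have e4 : ¬ evS6 (x 2) := by
      unfold evS6
      rw [h2]
      simp
    have e5 : ¬ evG1 (x 4) := by
      unfold evG1
      rw [R1 4 (by norm_num), P0 4 (by norm_num), cR1, sR1, Real.cos_pi_sub]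
      have : 0 < Real.sin (θ / 2) * (Real.cos (θ / 2) * Real.cos θ) := by positivity
      push Not
      linarith only [this]
    have e6 : evG1 (x 3) := by
      unfold evG1
      rw [R0 3 (by norm_num), P0 3 (by norm_num), cR0, sR0, Real.cos_pi_sub]
      have : 0 < Real.sin (θ / 2) * (Real.cos (θ / 2) * Real.cos θ) := by positivity
      linarith only [this]
    have e7 : ¬ evG2 (x 5) := by
      unfold evG2
      rw [R1 5 (by norm_num), P5, sR1, Real.cos_add_pi, Real.sin_add_pi]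
      have : 0 < Real.cos (θ / 2) * Real.sin θ * (Real.cos (θ / 2) * Real.cos θ) := by positivity
      push Not
      linarith only [this]
    have e8 : evG2 (x 4) := by
      unfold evG2
      rw [R1 4 (by norm_num), P0 4 (by norm_num), sR1, Real.cos_pi_sub, Real.sin_pi_sub]
      have : 0 < Real.cos (θ / 2) * Real.sin θ * (Real.cos (θ / 2) * Real.cos θ) := by positivity
      linarith only [this]
    have e9 : evG3 (x 6) := by
      unfold evG3
      rw [R1 6 (by norm_num), D6, sR1, Real.sin_pi_sub]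
      positivity
    have e10 : ¬ evG3 (x 5) := by
      unfold evG3
      rw [R1 5 (by norm_num), D5, sR1, Real.sin_add_pi]
      have : 0 < Real.cos (θ / 2) * Real.sin θ * evA1 (x 5) := by positivity
      push Not
      linarith only [this]
    unfold evF ind
    simp [e1, e2, e3, e4, e5, e6, e7, e8, e9, e10]

/-! ### small sequences -/

theorem evq_ind_ne {P P' : Prop} (h : ind P' - ind P ≠ 0) : (P' ∧ ¬ P) ∨ (P ∧ ¬ P') := by
  unfold ind at h
  by_cases h1 : P <;> by_cases h2 : P' <;> simp_all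

theorem evq_wQ (h : ℝ) (v : ℕ → E6) : wQ h v = indN (v 0) *
    ((hi ℚ h (v 1) - hi ℚ h (v 0)) * ((s5 ℚ (v 2) - s5 ℚ (v 1)) * ((s6 ℚ (v 3) - s6 ℚ (v 2)) *
      ((g1 (v 4) - g1 (v 3)) * ((g2 (v 5) - g2 (v 4)) * (g3 (v 6) - g3 (v 5))))))) := rfl

theorem evq_factors {h : ℝ} {v : ℕ → E6} (hw : wQ h v ≠ 0) :
    ind (h < HH (v 1)) - ind (h < HH (v 0)) ≠ 0 ∧
    ind (0 < (v 2) 5) - ind (0 < (v 1) 5) ≠ 0 ∧
    ind (0 < (v 3) 6) - ind (0 < (v 2) 6) ≠ 0 := by
  rw [evq_wQ] at hw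
  have a1 := right_ne_zero_of_mul hw
  have a2 := right_ne_zero_of_mul a1
  have a3 := right_ne_zero_of_mul a2
  exact ⟨left_ne_zero_of_mul a1, left_ne_zero_of_mul a2, left_ne_zero_of_mul a3⟩

theorem evq_apply_close (v w : E6) (i : Fin 7) : |v i - w i| ≤ ‖v - w‖ := by
  have := PiLp.norm_apply_le (v - w) i
  simpa using this

theorem evq_small {C δ h : ℝ}
    (hC : ∀ v v' : E6, ‖v‖ = 1 → ‖v'‖ = 1 → |HH v - HH v'| ≤ C * ‖v - v'‖) (hC0 : 0 < C)
    (hδ : C * δ ≤ 1 / 10) (hδ' : δ ≤ 1 / 20) {v : ℕ → E6} (h1 : ∀ j, ‖v j‖ = 1)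
    (h2 : ∀ i j, ‖v i - v j‖ < δ) (hh : |h| ≤ 1 / 20) (hw : wQ h v ≠ 0) :
    (∀ j, |HH (v j)| ≤ 1 / 2) ∧ (∀ j, |(v j) 5| ≤ 1 / 10) ∧ (∀ j, |(v j) 6| ≤ 1 / 10) := by
  obtain ⟨f1, f2, f3⟩ := evq_factors hw
  have hl : ∀ i j, |HH (v i) - HH (v j)| ≤ 1 / 10 := by
    intro i j
    refine (hC _ _ (h1 i) (h1 j)).trans (le_trans ?_ hδ)
    exact mul_le_mul_of_nonneg_left (h2 i j).le hC0.le
  have hh' := abs_le.1 hh
  refine ⟨?_, ?_, ?_⟩
  · intro j
    have l1 := abs_le.1 (hl 1 0)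
    have l2 := abs_le.1 (hl j 0)
    rw [abs_le]
    rcases evq_ind_ne f1 with ⟨a, b⟩ | ⟨a, b⟩
    · push Not at b
      constructor <;> linarith [l1.1, l1.2, l2.1, l2.2, hh'.1, hh'.2]
    · push Not at b
      constructor <;> linarith only [hh', l1, l2, a, b, l1.1, l1.2, l2.1, l2.2, hh'.1, hh'.2]
  · intro j
    have l1 := abs_le.1 ((evq_apply_close (v 2) (v 1) 5).trans (h2 2 1).le)
    have l2 := abs_le.1 ((evq_apply_close (v j) (v 1) 5).trans (h2 j 1).le)
    rw [abs_le]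
    rcases evq_ind_ne f2 with ⟨a, b⟩ | ⟨a, b⟩
    · push Not at b
      constructor <;> linarith [l1.1, l1.2, l2.1, l2.2]
    · push Not at b
      constructor <;> linarith only [hδ', l1, l2, a, b, l1.1, l1.2, l2.1, l2.2]
  · intro j
    have l1 := abs_le.1 ((evq_apply_close (v 3) (v 2) 6).trans (h2 3 2).le)
    have l2 := abs_le.1 ((evq_apply_close (v j) (v 2) 6).trans (h2 j 2).le)
    rw [abs_le]
    rcases evq_ind_ne f3 with ⟨a, b⟩ | ⟨a, b⟩
    · push Not at b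
      constructor <;> linarith only [hδ', l1, l2, a, b, l1.1, l1.2, l2.1, l2.2]
    · push Not at b
      constructor <;> linarith only [hδ', l1, l2, a, b, l1.1, l1.2, l2.1, l2.2]

/-! ### the grid -/

/-- grid sizes -/
def evq_Ms (n m : ℕ) : ℕ → ℕ := fun i => if i = 0 then 6 * n else m

theorem evq_stay {d : ℕ} {Ms k pos : ℕ → ℕ} {l j : ℕ} (h : pos l ≠ j) :
    gp d Ms k pos (j + 1) l = gp d Ms k pos j l := by
  have : (pos l < j + 1) ↔ (pos l < j) := by omega
  simp only [gp, this]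

theorem evq_coord {d : ℕ} {Ms k pos : ℕ → ℕ} (hadm : Adm d Ms k pos) {l : ℕ} (hl : l < d) (j : ℕ) :
    (gp d Ms k pos j l : ℝ) = ((k l : ℝ) + if pos l < j then 1 else 0) / Ms l := by
  have h1 := hadm.cell l hl
  simp only [gp, hl, if_true]
  rw [coe_gr (by split_ifs <;> omega)]
  push_cast
  rfl

theorem evq_grid {n m : ℕ} {k pos : ℕ → ℕ} (hadm : Adm 6 (evq_Ms n m) k pos) :
    (∀ l, 1 ≤ l → l < 6 → ∀ j, (gp 6 (evq_Ms n m) k pos j l : ℝ) =
      ((k l : ℝ) + if pos l < j then 1 else 0) / m) ∧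
    (∀ l, 1 ≤ l → l < 6 → ∀ j, pos l = j → (gp 6 (evq_Ms n m) k pos (j + 1) l : ℝ) =
      gp 6 (evq_Ms n m) k pos j l + 1 / m) ∧
    (∀ l, 1 ≤ l → l < 6 → ∀ j, |(gp 6 (evq_Ms n m) k pos j l : ℝ) -
      gp 6 (evq_Ms n m) k pos 0 l| ≤ 1 / m) := by
  have h : ∀ l, 1 ≤ l → l < 6 → ∀ j, (gp 6 (evq_Ms n m) k pos j l : ℝ) =
      ((k l : ℝ) + if pos l < j then 1 else 0) / m := by
    intro l h1 h2 j
    rw [evq_coord hadm h2]
    have : evq_Ms n m l = m := by simp [evq_Ms, show l ≠ 0 by omega]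
    rw [this]
  refine ⟨h, ?_, ?_⟩
  · intro l h1 h2 j hj
    rw [h l h1 h2, h l h1 h2, if_pos (by omega), if_neg (by omega)]
    ring
  · intro l h1 h2 j
    rw [h l h1 h2, h l h1 h2, if_neg (by omega : ¬ pos l < 0)]
    have e : ((k l : ℝ) + if pos l < j then 1 else 0) / (m : ℝ) - ((k l : ℝ) + 0) / m =
        (if pos l < j then 1 else 0) / m := by ring
    rw [e]
    split_ifs
    · rw [abs_of_nonneg (by positivity)]
    · simp

/-- the parameter on the edge -/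
noncomputable def evq_xi (n : ℕ) (k pos : ℕ → ℕ) (j : ℕ) : ℝ :=
  (((k 0 % n : ℕ) : ℝ) + if pos 0 < j then 1 else 0) / n

theorem evq_xi_mem {n : ℕ} (hn : 0 < n) (k pos : ℕ → ℕ) (j : ℕ) :
    evq_xi n k pos j ∈ Set.Icc (0 : ℝ) 1 := by
  have h1 : k 0 % n < n := Nat.mod_lt _ hn
  have h2 : ((k 0 % n : ℕ) : ℝ) + 1 ≤ n := by exact_mod_cast h1
  have h3 : (0 : ℝ) < n := by exact_mod_cast hn
  have h4 : (0 : ℝ) ≤ ((k 0 % n : ℕ) : ℝ) := by positivity
  unfold evq_xi
  constructor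
  · apply div_nonneg _ h3.le
    split_ifs <;> linarith only []
  · rw [div_le_one h3]
    split_ifs <;> linarith only [h2]

theorem evq_xi_stay {n : ℕ} {k pos : ℕ → ℕ} {j : ℕ} (h : pos 0 ≠ j) :
    evq_xi n k pos (j + 1) = evq_xi n k pos j := by
  have : (pos 0 < j + 1) ↔ (pos 0 < j) := by omega
  simp only [evq_xi, this]

theorem evq_xi_le {n : ℕ} {k pos : ℕ → ℕ} : evq_xi n k pos 0 ≤ evq_xi n k pos 1 := by
  unfold evq_xi
  gcongr
  split_ifs <;> simp_all

/-- the values of the paths on the grid -/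
theorem evq_path {n m : ℕ} (hn : 0 < n) {k pos : ℕ → ℕ} (hadm : Adm 6 (evq_Ms n m) k pos)
    (κ : ℕ) (p : PQ) (j : ℕ) :
    pathPt 6 (polQ κ p) (gp 6 (evq_Ms n m) k pos j 0) =
      nrm (seg (polQ κ p (k 0 / n)) (polQ κ p (k 0 / n + 1)) (evq_xi n k pos j)) := by
  have h0 : k 0 < 6 * n := by
    have := hadm.cell 0 (by norm_num)
    simpa [evq_Ms] using this
  have he : k 0 / n < 6 := by
    rw [Nat.div_lt_iff_lt_mul hn]; exact h0
  rw [← pathPt_apply (validPath_polQ κ p) he (evq_xi_mem hn k pos j)]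
  congr 1
  rw [evq_coord hadm (by norm_num)]
  have e1 : ((evq_Ms n m 0 : ℕ) : ℝ) = 6 * n := by simp [evq_Ms]
  have e2 : (k 0 : ℝ) = (n : ℝ) * ((k 0 / n : ℕ) : ℝ) + ((k 0 % n : ℕ) : ℝ) := by
    exact_mod_cast (Nat.div_add_mod (k 0) n).symm
  have h3 : (n : ℝ) ≠ 0 := by positivity
  rw [e1, e2]
  unfold evq_xi
  field_simp
  push_cast
  ring

/-- on a small sequence where the letter does not vanish the cell lies on the crossing edge -/
theorem evq_edge {n m : ℕ} (hn : 0 < n) {k pos : ℕ → ℕ} (hadm : Adm 6 (evq_Ms n m) k pos)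
    {κ : ℕ} (hκ : κ < 3) (c : Q → PQ) {h : ℝ} {v : ℕ → E6}
    (hv : ∀ j, v j = pathPt 6 (polQ κ (c (sh 1 (gp 6 (evq_Ms n m) k pos j))))
      (gp 6 (evq_Ms n m) k pos j 0))
    (hw : wQ h v ≠ 0) (hH : ∀ j, |HH (v j)| ≤ 1 / 2) : k 0 / n = evq_ce κ := by
  have h0 : k 0 < 6 * n := by
    have := hadm.cell 0 (by norm_num)
    simpa [evq_Ms] using this
  have he : k 0 / n < 6 := by
    rw [Nat.div_lt_iff_lt_mul hn]; exact h0
  by_contra hcon
  have hv' : ∀ j, v j = nrm (seg (polQ κ (c (sh 1 (gp 6 (evq_Ms n m) k pos j))) (k 0 / n))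
      (polQ κ (c (sh 1 (gp 6 (evq_Ms n m) k pos j))) (k 0 / n + 1)) (evq_xi n k pos j)) := by
    intro j; rw [hv j, evq_path hn hadm]
  by_cases hr : κ = 2 ∧ k 0 / n = 5
  · obtain ⟨hκ2, h5⟩ := hr
    subst hκ2
    rw [h5] at hv'
    have hst : ∀ j, pos 0 ≠ j → v (j + 1) = v j := by
      intro j hj
      rw [hv' (j + 1), hv' j, evq_xi_stay hj, evq_return _ (c (sh 1 (gp 6 (evq_Ms n m) k pos j)))]
    obtain ⟨f1, f2, f3⟩ := evq_factors hw
    by_cases hp : pos 0 = 0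
    · apply f2
      have : v 2 = v 1 := hst 1 (by omega)
      rw [this, sub_self]
    · apply f1
      have : v 1 = v 0 := hst 0 hp
      rw [this, sub_self]
  · have h1 := evq_noncross hκ (c (sh 1 (gp 6 (evq_Ms n m) k pos 0))) he hcon hr
      (evq_xi_mem hn k pos 0)
    rw [← hv' 0] at h1
    have := hH 0
    linarith only [h1, this]

/-- fine grids for the polygons over a family of parameters -/
theorem evq_fine (c : C(Q, PQ)) (κ : ℕ) {δ : ℝ} (hδ : 0 < δ) :
    ∃ m₀ : ℕ, 0 < m₀ ∧ ∀ m n : ℕ, m₀ ≤ m → m₀ ≤ n → ∀ k pos : ℕ → ℕ,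
      Adm 6 (evq_Ms n m) k pos → ∀ j j' : ℕ,
      ‖pathPt 6 (polQ κ (c (sh 1 (gp 6 (evq_Ms n m) k pos j)))) (gp 6 (evq_Ms n m) k pos j 0) -
        pathPt 6 (polQ κ (c (sh 1 (gp 6 (evq_Ms n m) k pos j')))) (gp 6 (evq_Ms n m) k pos j' 0)‖
        < δ := by
  have hcont : Continuous fun x : Q => pathPt 6 (polQ κ (c (sh 1 x))) (x 0) :=
    continuous_pathPt (fun x => polQ κ (c x)) (fun x => validPath_polQ κ (c x))
      (fun i _ => (continuous_polQ κ i).comp c.continuous)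
  obtain ⟨m₀, h0, h1⟩ := fine_grid (d := 6) hcont hδ
  refine ⟨m₀, h0, fun m n hm hn k pos hadm j j' => h1 (evq_Ms n m) k pos ?_ hadm j j'⟩
  intro i _
  unfold evq_Ms
  split_ifs
  · omega
  · exact hm

theorem evq_norm (κ : ℕ) (p : PQ) (y : unitInterval) : ‖pathPt 6 (polQ κ p) y‖ = 1 :=
  norm_pathPt (validPath_polQ κ p) y.2

/-- a constant for small sequences -/
theorem evq_const : ∃ C δ : ℝ, 0 < C ∧ 0 < δ ∧ C * δ ≤ 1 / 10 ∧ δ ≤ 1 / 20 ∧
    ∀ v v' : E6, ‖v‖ = 1 → ‖v'‖ = 1 → |HH v - HH v'| ≤ C * ‖v - v'‖ := by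
  obtain ⟨C, hC, h⟩ := HH_lip
  refine ⟨C, min (1 / 20) (1 / (10 * C)), hC, by positivity, ?_, min_le_left _ _, h⟩
  calc C * min (1 / 20) (1 / (10 * C)) ≤ C * (1 / (10 * C)) := by
        gcongr; exact min_le_right _ _
    _ = 1 / 10 := by field_simp

theorem eval_Q_filler {h : ℝ} (hh : |h| ≤ 1 / 20) (κ : ℕ) (hκ : κ < 3) : ∃ m₀ n₀ : ℕ,
    ∀ m n : ℕ, m₀ ≤ m → n₀ ≤ n →
    ev 6 (fun i => if i = 0 then 6 * n else m) (wQ h)
      (fun x => pathPt 6 (polQ κ (kC (sh 1 x))) (x 0)) = 0 := by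
  obtain ⟨C, δ, hC0, hδ0, hδ1, hδ2, hC⟩ := evq_const
  obtain ⟨m₀, hm₀, hfine⟩ := evq_fine kC κ hδ0
  refine ⟨m₀, m₀, fun m n hm hn => ev_eq_zero fun k pos hadm => ?_⟩
  have hn0 : 0 < n := by omega
  by_contra hw
  have hadm' : Adm 6 (evq_Ms n m) k pos := hadm
  obtain ⟨v, hv⟩ : ∃ v : ℕ → E6, v = fun j => pathPt 6 (polQ κ (kC (sh 1 (gp 6 (evq_Ms n m) k pos j))))
      (gp 6 (evq_Ms n m) k pos j 0) := ⟨_, rfl⟩
  have hv' : ∀ j, v j = pathPt 6 (polQ κ (kC (sh 1 (gp 6 (evq_Ms n m) k pos j))))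
      (gp 6 (evq_Ms n m) k pos j 0) := fun j => by rw [hv]
  have hw' : wQ h v ≠ 0 := by rw [hv]; exact hw
  obtain ⟨q1, q2, q3⟩ := evq_small hC hC0 hδ1 hδ2 (v := v)
    (fun j => by rw [hv' j]; exact evq_norm _ _ _)
    (fun i j => by rw [hv' i, hv' j]; exact hfine m n hm hn k pos hadm' i j) hh hw'
  have he := evq_edge hn0 hadm' hκ (fun x => kC x) hv' hw' q1
  have h0 := hv' 0
  rw [evq_path hn0 hadm', he, evq_cross hκ] at h0
  have hx := evq_par_mem (κ := κ) (evq_xi_mem hn0 k pos 0)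
  have hok := ok_kCf (sh 1 (gp 6 (evq_Ms n m) k pos 0))
  have r1 := q1 0
  have r2 := q2 0
  have r3 := q3 0
  rw [h0] at r1 r2 r3
  rcases evq_sq_one ((sh 1 (gp 6 (evq_Ms n m) k pos 0)) 1) with h1 | h1
  · have := seg_five hok h1 hx r1
    exact absurd this (not_lt.2 r2)
  · have := seg_six hok h1 hx r1
    exact absurd this (not_lt.2 r3)

/-- the sign of the block -/
def evq_sig (κ : ℕ) : ℚ := if κ = 1 then 1 else -1

/-- the coordinates other than the time agree after the time step -/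
theorem evq_sh_eq {Ms k pos : ℕ → ℕ} (hp : ∀ l, 1 ≤ l → l < 6 → pos l ≠ 0) :
    sh 1 (gp 6 Ms k pos 1) = sh 1 (gp 6 Ms k pos 0) := by
  funext l
  show gp 6 Ms k pos 1 (l + 1) = gp 6 Ms k pos 0 (l + 1)
  by_cases h : l + 1 < 6
  · exact evq_stay (hp (l + 1) (by omega) h)
  · simp [gp, h]

/-- the monotonicity of the time step -/
theorem evq_time_sign {h : ℝ} (hh : |h| ≤ 1 / 20) {κ : ℕ} {a b : R3} {s t x y : ℝ}
    (hok : Ok a b s t) (hx : x ∈ Set.Icc (0 : ℝ) 1) (hy : y ∈ Set.Icc (0 : ℝ) 1) (hxy : x ≤ y)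
    (hne : ind (h < HH (nrm (seg (vX a s) (vY b t) (evq_par κ y)))) -
      ind (h < HH (nrm (seg (vX a s) (vY b t) (evq_par κ x)))) ≠ 0) :
    ind (h < HH (nrm (seg (vX a s) (vY b t) (evq_par κ y)))) -
      ind (h < HH (nrm (seg (vX a s) (vY b t) (evq_par κ x)))) = evq_sig κ := by
  unfold evq_sig evq_par at *
  by_cases hκ : κ = 1
  · simp only [hκ, if_true] at hne ⊢
    exact (ind_up (fun h1 => HH_seg_anti hok (by linarith [hy.2]) (by linarith)
      (by linarith [hx.1]) hh h1) hne).1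
  · simp only [hκ, if_false] at hne ⊢
    exact (ind_down (fun h1 => HH_seg_anti hok hx.1 hxy hy.2 hh h1) hne).1

/-- sign of the letter on the simplices of the main cube -/
theorem evq_main_sign {C δ h : ℝ}
    (hC : ∀ v v' : E6, ‖v‖ = 1 → ‖v'‖ = 1 → |HH v - HH v'| ≤ C * ‖v - v'‖) (hC0 : 0 < C)
    (hδ : C * δ ≤ 1 / 10) (hδ' : δ ≤ 1 / 20) (hh : |h| ≤ 1 / 20) {κ : ℕ} (hκ : κ < 3)
    {n m : ℕ} (hn : 0 < n) (hm : 1000 ≤ m) {k pos : ℕ → ℕ} (hadm : Adm 6 (evq_Ms n m) k pos)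
    {v : ℕ → E6}
    (hv : ∀ j, v j = pathPt 6 (polQ κ (mC (sh 1 (gp 6 (evq_Ms n m) k pos j))))
      (gp 6 (evq_Ms n m) k pos j 0))
    (h2 : ∀ i j, ‖v i - v j‖ < δ) (hw : wQ h v ≠ 0) :
    (sg 6 pos : ℚ) * wQ h v = evq_sig κ := by
  obtain ⟨q1, q2, q3⟩ := evq_small hC hC0 hδ hδ' (v := v)
    (fun j => by rw [hv j]; exact evq_norm _ _ _) h2 hh hw
  have he := evq_edge hn hadm hκ (fun x => mC x) hv hw q1
  have hv' : ∀ j, v j = nrm (seg
      (vX (mCf (sh 1 (gp 6 (evq_Ms n m) k pos j))).1 (mCf (sh 1 (gp 6 (evq_Ms n m) k pos j))).2.2.1)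
      (vY (mCf (sh 1 (gp 6 (evq_Ms n m) k pos j))).2.1 (mCf (sh 1 (gp 6 (evq_Ms n m) k pos j))).2.2.2)
      (evq_par κ (evq_xi n k pos j))) := by
    intro j
    rw [hv j, evq_path hn hadm, he, evq_cross hκ]
    rfl
  have hpar : ∀ j, evq_par κ (evq_xi n k pos j) ∈ Set.Icc (0 : ℝ) 1 := fun j =>
    evq_par_mem (evq_xi_mem hn k pos j)
  have hx : ∀ j, (gp 6 (evq_Ms n m) k pos j 1 : ℝ) < 1 / 2 := by
    intro j
    by_contra hcon
    push Not at hcon
    have hok := ok_mCf (sh 1 (gp 6 (evq_Ms n m) k pos j))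
    have r1 := q1 j
    have r2 := q2 j
    have r3 := q3 j
    rw [hv' j] at r1 r2 r3
    rcases evq_mCf' (x := sh 1 (gp 6 (evq_Ms n m) k pos j)) hcon with h1 | h1
    · exact absurd (seg_five hok h1 (hpar j) r1) (not_lt.2 r2)
    · exact absurd (seg_six hok h1 (hpar j) r1) (not_lt.2 r3)
  have hlet := evq_letter (h := h) (x := gp 6 (evq_Ms n m) k pos) hx hpar hv' q1
  rw [hlet] at hw
  have w1 := left_ne_zero_of_mul hw
  have w2 := right_ne_zero_of_mul hw
  have w3 := left_ne_zero_of_mul w2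
  have w4 := right_ne_zero_of_mul w2
  have hN : evN (gp 6 (evq_Ms n m) k pos 0) := by
    by_contra hcon
    apply w1
    unfold ind
    rw [if_neg hcon]
  obtain ⟨g1, g2, g3⟩ := evq_grid hadm
  have hm' : (1000 : ℝ) ≤ m := by exact_mod_cast hm
  obtain ⟨p0, hcore⟩ := evq_core hm' hadm.lt hadm.inj
    (fun l _ _ j hj => evq_stay hj) g2 g3 hN w4
  have hp : ∀ l, 1 ≤ l → l < 6 → pos l ≠ 0 := by
    intro l h1 h2 h3
    have := hadm.inj l h2 0 (by norm_num) (by rw [h3, p0])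
    omega
  have hsh := evq_sh_eq (Ms := evq_Ms n m) (k := k) hp
  have w5 := w3
  rw [hv' 1, hv' 0, hsh] at w5
  have hts := evq_time_sign hh (ok_mCf (sh 1 (gp 6 (evq_Ms n m) k pos 0)))
    (evq_xi_mem hn k pos 0) (evq_xi_mem hn k pos 1) evq_xi_le w5
  have hts' : ind (h < HH (v 1)) - ind (h < HH (v 0)) = evq_sig κ := by
    rw [hv' 1, hv' 0, hsh]; exact hts
  rw [hlet, hts']
  have : ind (evN (gp 6 (evq_Ms n m) k pos 0)) = 1 := by unfold ind; rw [if_pos hN]
  rw [this]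
  calc (sg 6 pos : ℚ) * (1 * (evq_sig κ * evF (gp 6 (evq_Ms n m) k pos)))
      = evq_sig κ * ((sg 6 pos : ℚ) * evF (gp 6 (evq_Ms n m) k pos)) := by ring
    _ = evq_sig κ := by rw [hcore, mul_one]

theorem evq_chain {n : ℕ} {P : ℕ → Prop} (h0 : P 0) (hn : ¬ P n) : ∃ i < n, P i ∧ ¬ P (i + 1) := by
  by_contra hcon
  push Not at hcon
  apply hn
  have : ∀ i, i ≤ n → P i := by
    intro i
    induction i with
    | zero => intro _; exact h0
    | succ i ih => intro hi; exact hcon i (by omega) (ih (by omega))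
  exact this n le_rfl

/-- a time cell where `HH` crosses the level `h` -/
theorem evq_cell {h : ℝ} (hh : |h| ≤ 1 / 20) (κ : ℕ) {a b : R3} {s t : ℝ} (hok : Ok a b s t)
    {n : ℕ} (hn : 0 < n) : ∃ i < n,
      ind (h < HH (nrm (seg (vX a s) (vY b t) (evq_par κ (((i : ℝ) + 1) / n))))) -
      ind (h < HH (nrm (seg (vX a s) (vY b t) (evq_par κ (((i : ℝ) + 0) / n))))) ≠ 0 := by
  have hn' : (n : ℝ) ≠ 0 := by positivity
  have hh' := abs_le.1 hh
  have e0 : h < HH (nrm (seg (vX a s) (vY b t) 0)) := by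
    by_contra hcon
    push Not at hcon
    have e : seg (vX a s) (vY b t) 0 = pt (1 - s ^ 2) a 0 a s 0 := by
      simp [seg, vX]
    have hs : 0 ≤ 1 - s ^ 2 := by
      have := (sq_le_one_iff_abs_le_one s).2 hok.2.2.1
      linarith only [this]
    have h2 := HH_plus (a := a) (α := 1 - s ^ 2) (s := s) hok.1 hs (by
      by_cases h3 : s = 0
      · left; rw [h3]; norm_num
      · right; exact h3)
    rw [e] at hcon
    linarith only [hh', hcon, h2, hh'.2]
  have e1 : ¬ h < HH (nrm (seg (vX a s) (vY b t) 1)) := by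
    intro hcon
    have e : seg (vX a s) (vY b t) 1 = pt 0 b (1 - t ^ 2) b 0 t := by
      simp [seg, vY]
    have ht : 0 ≤ 1 - t ^ 2 := by
      have := (sq_le_one_iff_abs_le_one t).2 hok.2.2.2.1
      linarith only [this]
    have h2 := HH_minus (b := b) (β := 1 - t ^ 2) (t := t) hok.2.1 ht (by
      by_cases h3 : t = 0
      · left; rw [h3]; norm_num
      · right; exact h3)
    rw [e] at hcon
    linarith [hh'.1]
  by_cases hκ : κ = 1
  · obtain ⟨i, hi, h1, h2⟩ := evq_chain (n := n)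
      (P := fun i => ¬ h < HH (nrm (seg (vX a s) (vY b t) (evq_par κ ((i : ℝ) / n))))) (by
        simp only [evq_par, hκ, if_true, Nat.cast_zero, zero_div, sub_zero]; exact e1) (by
        simp only [evq_par, hκ, if_true, div_self hn', sub_self, not_not]; exact e0)
    refine ⟨i, hi, ?_⟩
    have h3 := not_not.1 h2
    push_cast at h3
    rw [add_zero]
    unfold ind
    rw [if_pos h3, if_neg h1]
    norm_num
  · obtain ⟨i, hi, h1, h2⟩ := evq_chain (n := n)
      (P := fun i => h < HH (nrm (seg (vX a s) (vY b t) (evq_par κ ((i : ℝ) / n))))) (by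
        simp only [evq_par, hκ, if_false, Nat.cast_zero, zero_div]; exact e0) (by
        simp only [evq_par, hκ, if_false, div_self hn']; exact e1)
    refine ⟨i, hi, ?_⟩
    push_cast at h2
    rw [add_zero]
    unfold ind
    rw [if_neg h2, if_pos h1]
    norm_num

/-- the cell of the special simplex -/
def evq_k (c q : ℕ) : ℕ → ℕ := fun l => if l = 0 then c else if l = 3 ∨ l = 4 then q else 0

theorem evq_special_ne {C δ h : ℝ}
    (hC : ∀ v v' : E6, ‖v‖ = 1 → ‖v'‖ = 1 → |HH v - HH v'| ≤ C * ‖v - v'‖) (hC0 : 0 < C)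
    (hδ : C * δ ≤ 1 / 10) (hh : |h| ≤ 1 / 20) {κ : ℕ} (hκ : κ < 3)
    {n q : ℕ} (hn : 0 < n) (hq : 1000 ≤ q)
    (hfine : ∀ k pos : ℕ → ℕ, Adm 6 (evq_Ms n (2 * q + 1)) k pos → ∀ j j' : ℕ,
      ‖pathPt 6 (polQ κ (mC (sh 1 (gp 6 (evq_Ms n (2 * q + 1)) k pos j))))
          (gp 6 (evq_Ms n (2 * q + 1)) k pos j 0) -
        pathPt 6 (polQ κ (mC (sh 1 (gp 6 (evq_Ms n (2 * q + 1)) k pos j'))))
          (gp 6 (evq_Ms n (2 * q + 1)) k pos j' 0)‖ < δ) :
    ∃ k : ℕ → ℕ, Adm 6 (evq_Ms n (2 * q + 1)) k id ∧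
      wQ h (fun j => pathPt 6 (polQ κ (mC (sh 1 (gp 6 (evq_Ms n (2 * q + 1)) k id j))))
          (gp 6 (evq_Ms n (2 * q + 1)) k id j 0)) ≠ 0 := by
  obtain ⟨y, hy⟩ : ∃ y : Q, y = sh 1 (gp 6 (evq_Ms n (2 * q + 1)) (evq_k 0 q) id 0) := ⟨_, rfl⟩
  obtain ⟨i, hi, hne⟩ := evq_cell hh κ (ok_mCf y) hn
  have hce : evq_ce κ < 6 := by unfold evq_ce; split_ifs <;> norm_num
  obtain ⟨k, hk⟩ : ∃ k : ℕ → ℕ, k = evq_k (evq_ce κ * n + i) q := ⟨_, rfl⟩
  have hk0 : k 0 = evq_ce κ * n + i := by rw [hk]; simp [evq_k]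
  have hlt0 : evq_ce κ * n + i < 6 * n := by
    have : evq_ce κ + 1 ≤ 6 := hce
    have h2 : (evq_ce κ + 1) * n ≤ 6 * n := Nat.mul_le_mul_right n this
    have h3 : (evq_ce κ + 1) * n = evq_ce κ * n + n := by ring
    omega
  have hadm : Adm 6 (evq_Ms n (2 * q + 1)) k id := by
    refine ⟨?_, fun l hl => hl, fun l _ l' _ h => h⟩
    intro l hl
    rw [hk]
    interval_cases l
    · simp only [evq_k, evq_Ms, if_true]; exact hlt0
    · simp [evq_k, evq_Ms]
    · simp [evq_k, evq_Ms]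
    · simp [evq_k, evq_Ms]; omega
    · simp [evq_k, evq_Ms]; omega
    · simp [evq_k, evq_Ms]
  have hdiv : k 0 / n = evq_ce κ := by
    rw [hk0, Nat.add_div_of_dvd_right (Dvd.intro_left _ rfl), Nat.mul_div_cancel _ hn,
      Nat.div_eq_of_lt hi, add_zero]
  have hmod : k 0 % n = i := by
    rw [hk0, Nat.add_mod, Nat.mul_mod_left, zero_add, Nat.mod_mod, Nat.mod_eq_of_lt hi]
  have hy0 : sh 1 (gp 6 (evq_Ms n (2 * q + 1)) k id 0) = y := by
    rw [hy, hk]
    funext l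
    show gp 6 (evq_Ms n (2 * q + 1)) _ id 0 (l + 1) = gp 6 (evq_Ms n (2 * q + 1)) _ id 0 (l + 1)
    simp only [gp, evq_k, Nat.succ_ne_zero, if_false]
  have hy1 : sh 1 (gp 6 (evq_Ms n (2 * q + 1)) k id 1) = y := by
    rw [evq_sh_eq (fun l h1 _ => by simpa using (by omega : l ≠ 0)), hy0]
  refine ⟨k, hadm, ?_⟩
  obtain ⟨v, hvd⟩ : ∃ v : ℕ → E6, v = fun j =>
      pathPt 6 (polQ κ (mC (sh 1 (gp 6 (evq_Ms n (2 * q + 1)) k id j))))
          (gp 6 (evq_Ms n (2 * q + 1)) k id j 0) := ⟨_, rfl⟩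
  rw [← hvd]
  have hv : ∀ j, v j = pathPt 6 (polQ κ (mC (sh 1 (gp 6 (evq_Ms n (2 * q + 1)) k id j))))
          (gp 6 (evq_Ms n (2 * q + 1)) k id j 0) := fun j => by rw [hvd]
  have hv' : ∀ j, v j = nrm (seg
      (vX (mCf (sh 1 (gp 6 (evq_Ms n (2 * q + 1)) k id j))).1
        (mCf (sh 1 (gp 6 (evq_Ms n (2 * q + 1)) k id j))).2.2.1)
      (vY (mCf (sh 1 (gp 6 (evq_Ms n (2 * q + 1)) k id j))).2.1
        (mCf (sh 1 (gp 6 (evq_Ms n (2 * q + 1)) k id j))).2.2.2)
      (evq_par κ (evq_xi n k id j))) := by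
    intro j
    rw [hv j, evq_path hn hadm, hdiv, evq_cross hκ]
    rfl
  have hpar : ∀ j, evq_par κ (evq_xi n k id j) ∈ Set.Icc (0 : ℝ) 1 := fun j =>
    evq_par_mem (evq_xi_mem hn k id j)
  have hxi0 : evq_xi n k id 0 = ((i : ℝ) + 0) / n := by simp [evq_xi, hmod]
  have hxi1 : evq_xi n k id 1 = ((i : ℝ) + 1) / n := by simp [evq_xi, hmod]
  have hne' : ind (h < HH (v 1)) - ind (h < HH (v 0)) ≠ 0 := by
    rw [hv' 1, hv' 0, hy0, hy1, hxi0, hxi1]; exact hne
  have q1 : ∀ j, |HH (v j)| ≤ 1 / 2 := by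
    have hl : ∀ i j, |HH (v i) - HH (v j)| ≤ 1 / 10 := by
      intro i j
      refine (hC _ _ ?_ ?_).trans (le_trans ?_ hδ)
      · rw [hv i]; exact evq_norm _ _ _
      · rw [hv j]; exact evq_norm _ _ _
      · rw [hv i, hv j]
        exact mul_le_mul_of_nonneg_left (hfine k id hadm i j).le hC0.le
    have hh' := abs_le.1 hh
    intro j
    have l1 := abs_le.1 (hl 1 0)
    have l2 := abs_le.1 (hl j 0)
    rw [abs_le]
    rcases evq_ind_ne hne' with ⟨a, b⟩ | ⟨a, b⟩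
    · push Not at b
      constructor <;> linarith only [hh', l1, l2, a, b, l1.1, l1.2, l2.1, l2.2, hh'.1, hh'.2]
    · push Not at b
      constructor <;> linarith only [hh', l1, l2, a, b, l1.1, l1.2, l2.1, l2.2, hh'.1, hh'.2]
  obtain ⟨g1, -, -⟩ := evq_grid hadm
  have hq' : (1000 : ℝ) ≤ q := by exact_mod_cast hq
  have hx : ∀ j, (gp 6 (evq_Ms n (2 * q + 1)) k id j 1 : ℝ) < 1 / 2 := by
    intro j
    have e : ((k 1 : ℕ) : ℝ) = 0 := by rw [hk]; simp [evq_k]
    rw [g1 1 le_rfl (by norm_num), e, div_lt_iff₀ (by positivity)]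
    push_cast
    split_ifs <;> linarith only [hq']
  obtain ⟨hN, hF⟩ := evq_special hq (x := gp 6 (evq_Ms n (2 * q + 1)) k id) (M := 2 * q + 1) rfl
    (fun j => by rw [g1 1 le_rfl (by norm_num), hk]; simp [evq_k])
    (fun j => by rw [g1 2 (by norm_num) (by norm_num), hk]; simp [evq_k])
    (fun j => by rw [g1 3 (by norm_num) (by norm_num), hk]; simp [evq_k])
    (fun j => by rw [g1 4 (by norm_num) (by norm_num), hk]; simp [evq_k])
    (fun j => by rw [g1 5 (by norm_num) (by norm_num), hk]; simp [evq_k])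
  rw [evq_letter (h := h) (x := gp 6 (evq_Ms n (2 * q + 1)) k id) hx hpar hv' q1]
  have : ind (evN (gp 6 (evq_Ms n (2 * q + 1)) k id 0)) = 1 := by unfold ind; rw [if_pos hN]
  rw [this, one_mul]
  exact mul_ne_zero hne' hF

theorem evq_main_pos {h : ℝ} (hh : |h| ≤ 1 / 20) {κ : ℕ} (hκ : κ < 3) : ∃ m₀ : ℕ,
    ∀ m n : ℕ, Odd m → m₀ ≤ m → m₀ ≤ n →
    0 < evq_sig κ * ev 6 (fun i => if i = 0 then 6 * n else m) (wQ h)
      (fun x => pathPt 6 (polQ κ (mC (sh 1 x))) (x 0)) := by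
  obtain ⟨C, δ, hC0, hδ0, hδ1, hδ2, hC⟩ := evq_const
  obtain ⟨m₀, hm₀, hfine⟩ := evq_fine mC κ hδ0
  refine ⟨max m₀ 2001, fun m n hodd hm hn => ?_⟩
  have hm1 : m₀ ≤ m := (le_max_left _ _).trans hm
  have hm2 : 2001 ≤ m := (le_max_right _ _).trans hm
  have hn1 : m₀ ≤ n := (le_max_left _ _).trans hn
  have hn2 : 2001 ≤ n := (le_max_right _ _).trans hn
  have hn0 : 0 < n := by omega
  have hf := hfine m n hm1 hn1
  rw [← ev_mul]
  have hsig : evq_sig κ * evq_sig κ = 1 := by unfold evq_sig; split_ifs <;> norm_num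
  have hsign : ∀ k pos, Adm 6 (evq_Ms n m) k pos →
      wQ h (fun j => pathPt 6 (polQ κ (mC (sh 1 (gp 6 (evq_Ms n m) k pos j))))
        (gp 6 (evq_Ms n m) k pos j 0)) ≠ 0 →
      (sg 6 pos : ℚ) * (evq_sig κ * wQ h (fun j =>
        pathPt 6 (polQ κ (mC (sh 1 (gp 6 (evq_Ms n m) k pos j))))
        (gp 6 (evq_Ms n m) k pos j 0))) = 1 := by
    intro k pos hadm hw
    have := evq_main_sign hC hC0 hδ1 hδ2 hh hκ hn0 (by omega) hadm
      (v := fun j => pathPt 6 (polQ κ (mC (sh 1 (gp 6 (evq_Ms n m) k pos j))))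
        (gp 6 (evq_Ms n m) k pos j 0)) (fun j => rfl)
      (fun i j => hf k pos hadm i j) hw
    calc _ = evq_sig κ * ((sg 6 pos : ℚ) * wQ h (fun j =>
        pathPt 6 (polQ κ (mC (sh 1 (gp 6 (evq_Ms n m) k pos j))))
        (gp 6 (evq_Ms n m) k pos j 0))) := by ring
      _ = 1 := by rw [this, hsig]
  obtain ⟨q, hq⟩ := hodd
  subst hq
  obtain ⟨k, hadm, hne⟩ := evq_special_ne hC hC0 hδ1 hh hκ hn0 (by omega : 1000 ≤ q) hf
  have hk := hadm.cell
  refine ev_pos (Ms := evq_Ms n (2 * q + 1)) ?_ k hk ?_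
  · intro k pos hadm
    by_cases hw : wQ h (fun j => pathPt 6 (polQ κ (mC (sh 1 (gp 6 (evq_Ms n (2 * q + 1)) k pos j))))
        (gp 6 (evq_Ms n (2 * q + 1)) k pos j 0)) = 0
    · rw [hw]; simp
    · rw [hsign k pos hadm hw]; exact zero_le_one
  · have h1 := hsign k id hadm hne
    rw [evq_sg_id rfl rfl rfl rfl rfl rfl, one_mul] at h1
    rw [h1]; exact zero_lt_one

theorem eval_Q_main {h : ℝ} (hh : |h| ≤ 1 / 20) : ∃ m₀ n₀ : ℕ, ∀ m n : ℕ, Odd m → m₀ ≤ m → n₀ ≤ n →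
    ev 6 (fun i => if i = 0 then 6 * n else m) (wQ h)
      (fun x => pathPt 6 (polQ 0 (mC (sh 1 x))) (x 0)) < 0 ∧
    0 < ev 6 (fun i => if i = 0 then 6 * n else m) (wQ h)
      (fun x => pathPt 6 (polQ 1 (mC (sh 1 x))) (x 0)) ∧
    ev 6 (fun i => if i = 0 then 6 * n else m) (wQ h)
      (fun x => pathPt 6 (polQ 2 (mC (sh 1 x))) (x 0)) < 0 := by
  obtain ⟨m0, h0⟩ := evq_main_pos hh (κ := 0) (by norm_num)
  obtain ⟨m1, h1⟩ := evq_main_pos hh (κ := 1) (by norm_num)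
  obtain ⟨m2, h2⟩ := evq_main_pos hh (κ := 2) (by norm_num)
  refine ⟨max m0 (max m1 m2), max m0 (max m1 m2), fun m n hodd hm hn => ?_⟩
  simp only [max_le_iff] at hm hn
  have r0 := h0 m n hodd hm.1 hn.1
  have r1 := h1 m n hodd hm.2.1 hn.2.1
  have r2 := h2 m n hodd hm.2.2 hn.2.2
  have s0 : evq_sig 0 = -1 := by simp [evq_sig]
  have s1 : evq_sig 1 = 1 := by simp [evq_sig]
  have s2 : evq_sig 2 = -1 := by simp [evq_sig]
  rw [s0] at r0
  rw [s1] at r1
  rw [s2] at r2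
  exact ⟨by linarith only [r0], by linarith only [r1], by linarith only [r2]⟩

end Pool.Agent.Helper76.Freq
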