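import Pool.Agent.Helper76.Freq.LoopA

set_option autoImplicit false
set_option linter.all false

namespace Pool.Agent.Helper76.Freq

open scoped RealInnerProductSpace ContDiff
open MeasureTheory Set

namespace LB

/-- coordinate functional -/
noncomputable def co (i : Fin 7) : E6 →L[ℝ] ℝ := EuclideanSpace.proj i

theorem co_apply (i : Fin 7) (v : E6) : co i v = v i := rfl

theorem contDiff_coord (i : Fin 7) : ContDiff ℝ ∞ (fun v : E6 => v i) := (co i).contDiff

/-- the inner product as a continuous bilinear form -/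
noncomputable def ip : E6 →L[ℝ] E6 →L[ℝ] ℝ := ∑ i, (co i).smulRight (co i)

theorem ip_apply (u v : E6) : ip u v = ⟪u, v⟫ := by
  simp [ip, co_apply, PiLp.inner_apply, mul_comm]

theorem contDiff_HH : ContDiff ℝ ∞ HH := by
  have h := contDiff_coord
  have h0 := h 0; have h1 := h 1; have h2 := h 2; have h3 := h 3; have h4 := h 4; have h5 := h 5; have h6 := h 6
  unfold HH H4
  fun_prop

theorem contDiff_tau : ContDiff ℝ ∞ tau := by
  have h := contDiff_HH
  unfold tau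
  exact Real.smoothTransition.contDiff.comp ((contDiff_const.mul h).add contDiff_const)

end LB

open LB

/-- the metric `⟨·,·⟩ + R² dτ²` -/
noncomputable def gR (R : ℝ) : SphereMetric 6 where
  form x := ip + (R ^ 2) • ((fderiv ℝ tau x).smulRight (fderiv ℝ tau x))
  smooth := by
    have h1 : ContDiff ℝ ∞ (fderiv ℝ tau) := contDiff_tau.fderiv_right (by simp)
    have h2 : ContDiff ℝ ∞ (fun x => (fderiv ℝ tau x).smulRight (fderiv ℝ tau x)) := h1.smulRight h1
    have h3 : ContDiff ℝ ∞ (fun x => (R ^ 2) • ((fderiv ℝ tau x).smulRight (fderiv ℝ tau x))) := h2.const_smul (R ^ 2)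
    exact contDiff_const.add h3
  symm := by
    intro x u v
    simp [ip_apply, real_inner_comm, mul_comm]
  pos := by
    intro x u _ _ hu
    have h1 : 0 < ⟪u, u⟫ := real_inner_self_pos.2 hu
    have h2 : 0 ≤ R ^ 2 * (fderiv ℝ tau x u * fderiv ℝ tau x u) := mul_nonneg (sq_nonneg _) (mul_self_nonneg _)
    simp only [add_apply, smul_apply, ip_apply, ContinuousLinearMap.smulRight_apply, smul_eq_mul]
    linarith

theorem gR_form (R : ℝ) (x u v : E6) :
    (gR R).form x u v = ⟪u, v⟫ + R ^ 2 * (fderiv ℝ tau x u * fderiv ℝ tau x v) := by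
  simp only [gR, add_apply, smul_apply, ip_apply, ContinuousLinearMap.smulRight_apply, smul_eq_mul]

namespace LB

theorem loop_shift {n : ℕ} (γ : Loop n) (k : ℤ) (x : ℝ) : γ.toFun (x + (-(k:ℝ))) = γ.toFun x := by
  have h : Function.Periodic γ.toFun 1 := γ.periodic
  have := h.sub_zsmul_eq k (x := x)
  simpa [sub_eq_add_neg] using this

/-- loops are differentiable with bounded derivative off a countable set -/
theorem loop_regular {n : ℕ} (γ : Loop n) : ∃ S : Set ℝ, S.Countable ∧ ∃ M : ℝ, 0 ≤ M ∧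
    ∀ t, t ∉ S → HasDerivAt γ.toFun (deriv γ.toFun t) t ∧ ‖deriv γ.toFun t‖ ≤ M := by
  obtain ⟨m, p, hp, h0, h1, hs⟩ := γ.piecewise
  have hb : ∀ i, i < m → ∃ M : ℝ, 0 ≤ M ∧ ∀ t ∈ Set.Ioo (p i) (p (i+1)),
      HasDerivAt γ.toFun (deriv γ.toFun t) t ∧ ‖deriv γ.toFun t‖ ≤ M := by
    intro i hi
    have hlt := hp i hi
    have hcd := hs i hi
    have hcont : ContinuousOn (derivWithin γ.toFun (Set.Icc (p i) (p (i+1)))) (Set.Icc (p i) (p (i+1))) :=
      hcd.continuousOn_derivWithin (uniqueDiffOn_Icc hlt) (by simp)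
    obtain ⟨M, hM⟩ := isCompact_Icc.exists_bound_of_continuousOn hcont
    refine ⟨max M 0, le_max_right _ _, ?_⟩
    intro t ht
    have hnhds : Set.Icc (p i) (p (i+1)) ∈ nhds t := Icc_mem_nhds ht.1 ht.2
    have hd : DifferentiableAt ℝ γ.toFun t :=
      (hcd.differentiableOn (by simp) t (Ioo_subset_Icc_self ht)).differentiableAt hnhds
    refine ⟨hd.hasDerivAt, ?_⟩
    rw [← derivWithin_of_mem_nhds hnhds]
    exact (hM t (Ioo_subset_Icc_self ht)).trans (le_max_left _ _)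
  choose! M hM0 hM using hb
  refine ⟨⋃ k : ℤ, ⋃ i : ℕ, {p i + k}, ?_, ∑ i ∈ Finset.range m, M i, ?_, ?_⟩
  · exact countable_iUnion fun k => countable_iUnion fun i => countable_singleton _
  · exact Finset.sum_nonneg fun i hi => hM0 i (Finset.mem_range.1 hi)
  · intro t ht
    have ht' : ∀ (k : ℤ) (i : ℕ), t ≠ p i + k := by
      intro k i h
      exact ht (mem_iUnion.2 ⟨k, mem_iUnion.2 ⟨i, h⟩⟩)
    have hex : ∃ j, Int.fract t < p j := ⟨m, by rw [h1]; exact Int.fract_lt_one t⟩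
    classical
    obtain ⟨j, hj, hjmin⟩ : ∃ j, Int.fract t < p j ∧ ∀ i < j, ¬ Int.fract t < p i :=
      ⟨Nat.find hex, Nat.find_spec hex, fun i hi => Nat.find_min hex hi⟩
    have hj0 : j ≠ 0 := by
      rintro rfl
      rw [h0] at hj
      exact absurd (Int.fract_nonneg t) (not_le.2 hj)
    obtain ⟨i, rfl⟩ := Nat.exists_eq_succ_of_ne_zero hj0
    have hjm : i < m := by
      by_contra hc
      push Not at hc
      have := hjmin m (by omega)
      rw [h1] at this
      exact this (Int.fract_lt_one t)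
    have h2 : p i ≤ Int.fract t := not_lt.1 (hjmin i (by omega))
    have h3 : p i ≠ Int.fract t := by
      intro h
      apply ht' ⌊t⌋ i
      rw [h]; exact (Int.fract_add_floor t).symm
    have h4 : Int.fract t ∈ Set.Ioo (p i) (p (i + 1)) := ⟨lt_of_le_of_ne h2 h3, hj⟩
    obtain ⟨h5, h6⟩ := hM i hjm _ h4
    have h7 : t + (-(⌊t⌋:ℝ)) = Int.fract t := by rw [Int.fract]; ring
    rw [← h7] at h5 h6
    have h8 := h5.comp_add_const
    have h9 : (fun x => γ.toFun (x + (-(⌊t⌋:ℝ)))) = γ.toFun := by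
      funext x; exact loop_shift γ _ x
    rw [h9] at h8
    rw [h8.deriv]
    refine ⟨h8, h6.trans ?_⟩
    exact Finset.single_le_sum (f := M) (fun i hi => hM0 i (Finset.mem_range.1 hi)) (Finset.mem_range.2 hjm)

theorem deriv_periodic {n : ℕ} (γ : Loop n) : Function.Periodic (deriv γ.toFun) 1 := by
  intro t
  have h1 : (fun x => γ.toFun (x + 1)) = γ.toFun := by funext x; exact γ.periodic x
  have h2 := deriv_comp_add_const γ.toFun 1 t
  rw [h1] at h2
  exact h2.symm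

theorem hasFDerivAt_tau (x : E6) : HasFDerivAt tau (fderiv ℝ tau x) x :=
  (contDiff_tau.differentiable (by simp) x).hasFDerivAt

/-- speed with respect to `gR R` -/
noncomputable def spd (R : ℝ) (γ : Loop 6) (t : ℝ) : ℝ :=
  Real.sqrt (‖deriv γ.toFun t‖ ^ 2 + R ^ 2 * (fderiv ℝ tau (γ.toFun t) (deriv γ.toFun t)) ^ 2)

theorem length_eq (R : ℝ) (γ : Loop 6) : length (gR R) γ = ∫ t in (0:ℝ)..1, spd R γ t := by
  unfold length spd
  simp_rw [gR_form, real_inner_self_eq_norm_sq, pow_two]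

theorem spd_periodic (R : ℝ) (γ : Loop 6) : Function.Periodic (spd R γ) 1 := by
  intro t
  unfold spd
  rw [deriv_periodic γ t, γ.periodic t]

/-- derivative of `τ ∘ γ` -/
noncomputable def dt (γ : Loop 6) (t : ℝ) : ℝ := fderiv ℝ tau (γ.toFun t) (deriv γ.toFun t)

theorem dt_periodic (γ : Loop 6) : Function.Periodic (dt γ) 1 := by
  intro t
  unfold dt
  rw [deriv_periodic γ t, γ.periodic t]

theorem tau_bound : ∃ C : ℝ, 0 ≤ C ∧ ∀ x : E6, ‖x‖ = 1 → ‖fderiv ℝ tau x‖ ≤ C := by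
  have h1 : Continuous (fderiv ℝ tau) := contDiff_tau.continuous_fderiv (by simp)
  obtain ⟨C, hC⟩ := (isCompact_sphere (0:E6) 1).exists_bound_of_continuousOn h1.continuousOn
  refine ⟨max C 0, le_max_right _ _, fun x hx => (hC x ?_).trans (le_max_left _ _)⟩
  rw [mem_sphere_zero_iff_norm]; exact hx

theorem measurable_loop {n : ℕ} (γ : Loop n) : Measurable γ.toFun := γ.cont.measurable

theorem measurable_dt (γ : Loop 6) : Measurable (dt γ) := by
  have h1 : Continuous (fun q : E6 × E6 => fderiv ℝ tau q.1 q.2) :=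
    ((contDiff_tau.continuous_fderiv (by simp)).comp continuous_fst).clm_apply continuous_snd
  exact h1.measurable.comp ((measurable_loop γ).prodMk (measurable_deriv γ.toFun))

theorem measurable_spd (R : ℝ) (γ : Loop 6) : Measurable (spd R γ) := by
  have h1 := measurable_dt γ
  have h2 : Measurable (fun t => ‖deriv γ.toFun t‖) := (measurable_deriv γ.toFun).norm
  unfold spd
  exact ((h2.pow_const 2).add ((h1.pow_const 2).const_mul _)).sqrt

theorem intervalIntegrable_of_bdd {f : ℝ → ℝ} (hf : Measurable f) {S : Set ℝ} (hS : S.Countable) {M : ℝ}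
    (hM : ∀ t, t ∉ S → |f t| ≤ M) (a b : ℝ) : IntervalIntegrable f volume a b := by
  have h1 : IntervalIntegrable (fun _ : ℝ => M) volume a b := intervalIntegrable_const
  apply h1.mono_fun hf.aestronglyMeasurable
  have : ∀ᵐ t ∂(volume : Measure ℝ), t ∉ S := measure_eq_zero_iff_ae_notMem.1 (hS.measure_zero volume)
  apply ae_restrict_of_ae
  filter_upwards [this] with t ht
  rw [Real.norm_eq_abs, Real.norm_eq_abs]
  exact (hM t ht).trans (le_abs_self M)

theorem sqrt_le_add' {a b : ℝ} (ha : 0 ≤ a) (hb : 0 ≤ b) : Real.sqrt (a ^ 2 + b ^ 2) ≤ a + b := by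
  apply Real.sqrt_le_iff.2
  exact ⟨by positivity, by nlinarith [mul_nonneg ha hb]⟩

theorem spd_le {R : ℝ} (hR : 0 ≤ R) (γ : Loop 6) (t : ℝ) : spd R γ t ≤ ‖deriv γ.toFun t‖ + R * |dt γ t| := by
  have h1 : spd R γ t = Real.sqrt (‖deriv γ.toFun t‖ ^ 2 + (R * |dt γ t|) ^ 2) := by
    unfold spd dt
    rw [mul_pow, sq_abs]
  rw [h1]
  exact sqrt_le_add' (norm_nonneg _) (by positivity)

theorem le_spd {R : ℝ} (hR : 0 ≤ R) (γ : Loop 6) (t : ℝ) : R * |dt γ t| ≤ spd R γ t := by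
  have h1 : spd R γ t = Real.sqrt (‖deriv γ.toFun t‖ ^ 2 + (R * |dt γ t|) ^ 2) := by
    unfold spd dt
    rw [mul_pow, sq_abs]
  rw [h1]
  apply Real.le_sqrt_of_sq_le
  nlinarith [sq_nonneg ‖deriv γ.toFun t‖]

/-- integrability package -/
theorem regular_dt (γ : Loop 6) : ∃ S : Set ℝ, S.Countable ∧
    (∀ t, t ∉ S → HasDerivAt (fun t => tau (γ.toFun t)) (dt γ t) t) ∧
    (∀ t, t ∉ S → HasDerivAt γ.toFun (deriv γ.toFun t) t) ∧
    (∀ a b, IntervalIntegrable (dt γ) volume a b) ∧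
    (∀ a b, IntervalIntegrable (fun t => ‖deriv γ.toFun t‖) volume a b) ∧
    ∀ R, 0 ≤ R → ∀ a b, IntervalIntegrable (spd R γ) volume a b := by
  obtain ⟨S, hS, M, hM, h⟩ := loop_regular γ
  obtain ⟨C, hC, hC2⟩ := tau_bound
  have hdt : ∀ t, t ∉ S → |dt γ t| ≤ C * M := by
    intro t ht
    calc |dt γ t| ≤ ‖fderiv ℝ tau (γ.toFun t)‖ * ‖deriv γ.toFun t‖ := by
          have := (fderiv ℝ tau (γ.toFun t)).le_opNorm (deriv γ.toFun t)
          rwa [Real.norm_eq_abs] at this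
      _ ≤ C * M := mul_le_mul (hC2 _ (γ.norm_eq t)) (h t ht).2 (norm_nonneg _) hC
  refine ⟨S, hS, ?_, fun t ht => (h t ht).1, ?_, ?_, ?_⟩
  · intro t ht
    exact (hasFDerivAt_tau (γ.toFun t)).comp_hasDerivAt t (h t ht).1
  · exact fun a b => intervalIntegrable_of_bdd (measurable_dt γ) hS hdt a b
  · intro a b
    apply intervalIntegrable_of_bdd (measurable_deriv γ.toFun).norm hS (M := M)
    intro t ht
    rw [abs_norm]; exact (h t ht).2
  · intro R hR a b
    apply intervalIntegrable_of_bdd (measurable_spd R γ) hS (M := M + R * (C * M))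
    intro t ht
    rw [abs_of_nonneg (show 0 ≤ spd R γ t from Real.sqrt_nonneg _)]
    refine (spd_le hR γ t).trans ?_
    exact add_le_add (h t ht).2 (mul_le_mul_of_nonneg_left (hdt t ht) hR)

theorem ftc_dt (γ : Loop 6) (a b : ℝ) : ∫ t in a..b, dt γ t = tau (γ.toFun b) - tau (γ.toFun a) := by
  obtain ⟨S, hS, h1, _, h2, _, _⟩ := regular_dt γ
  apply MeasureTheory.integral_eq_of_hasDerivAt_off_countable (fun t => tau (γ.toFun t)) _ hS
  · exact (contDiff_tau.continuous.comp γ.cont).continuousOn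
  · intro x hx; exact h1 x hx.2
  · exact h2 a b

end LB

/-- lower bound of the length by the variation of `tau` -/
theorem length_ge {R : ℝ} (hR : 0 ≤ R) (γ : Loop 6) (k : ℕ) (t : ℕ → ℝ)
    (ht : ∀ i < k, t i ≤ t (i + 1)) (ht' : t k ≤ t 0 + 1) :
    R * ∑ i ∈ Finset.range k, |tau (γ.toFun (t (i + 1))) - tau (γ.toFun (t i))| ≤
      length (gR R) γ := by
  obtain ⟨S, hS, h1, _, h2, _, h3⟩ := regular_dt γ
  have h4 : ∀ a b, IntervalIntegrable (fun t => |dt γ t|) volume a b := fun a b => (h2 a b).abs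
  have h5 : ∑ i ∈ Finset.range k, |tau (γ.toFun (t (i + 1))) - tau (γ.toFun (t i))| ≤ ∫ s in (t 0)..(t k), |dt γ s| := by
    rw [← intervalIntegral.sum_integral_adjacent_intervals (fun i _ => h4 _ _)]
    apply Finset.sum_le_sum
    intro i hi
    rw [← ftc_dt]
    exact intervalIntegral.abs_integral_le_integral_abs (ht i (Finset.mem_range.1 hi))
  have ht0 : t 0 ≤ t k := by
    have : ∀ j, j ≤ k → t 0 ≤ t j := by
      intro j
      induction j with
      | zero => intro _; exact le_refl _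
      | succ j ih => intro hj; exact (ih (by omega)).trans (ht j (by omega))
    exact this k le_rfl
  have h6 : ∫ s in (t 0)..(t k), |dt γ s| ≤ ∫ s in (t 0)..(t 0 + 1), |dt γ s| := by
    apply intervalIntegral.integral_mono_interval le_rfl ht0 ht'
    · exact Filter.Eventually.of_forall fun s => abs_nonneg _
    · exact h4 _ _
  have h7 : R * ∫ s in (t 0)..(t 0 + 1), |dt γ s| ≤ ∫ s in (t 0)..(t 0 + 1), spd R γ s := by
    rw [← intervalIntegral.integral_const_mul]
    apply intervalIntegral.integral_mono_on (by linarith) ((h4 _ _).const_mul R) (h3 R hR _ _)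
    intro s _
    exact le_spd hR γ s
  rw [length_eq]
  have h8 : ∫ s in (t 0)..(t 0 + 1), spd R γ s = ∫ s in (0:ℝ)..1, spd R γ s := by
    have := (spd_periodic R γ).intervalIntegral_add_eq (t 0) 0
    rw [zero_add] at this; exact this
  rw [← h8]
  calc R * ∑ i ∈ Finset.range k, |tau (γ.toFun (t (i + 1))) - tau (γ.toFun (t i))|
      ≤ R * ∫ s in (t 0)..(t 0 + 1), |dt γ s| := mul_le_mul_of_nonneg_left (h5.trans h6) hR
    _ ≤ _ := h7

/-! ### upper bound -/

namespace LB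

theorem nrm_hasDerivAt {n : ℕ} {q : ℝ → E n} {q' : E n} {x : ℝ} (hq : HasDerivAt q q' x) (h0 : q x ≠ 0) :
    ∃ d, HasDerivAt (fun s => nrm (q s)) d x ∧ ‖d‖ ≤ ‖q'‖ / ‖q x‖ := by
  have hN : 0 < ‖q x‖ := norm_pos_iff.2 h0
  have h1 : HasDerivAt (fun s => ‖q s‖ ^ 2) (2 * ⟪q x, q'⟫) x := hq.norm_sq
  have h2 : HasDerivAt (fun s => ‖q s‖) (⟪q x, q'⟫ / ‖q x‖) x := by
    have h3 := h1.sqrt (by positivity)
    have h4 : (fun s => Real.sqrt (‖q s‖ ^ 2)) = fun s => ‖q s‖ := by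
      funext s; exact Real.sqrt_sq (norm_nonneg _)
    rw [h4, Real.sqrt_sq hN.le] at h3
    convert h3 using 1
    field_simp
  have h5 : HasDerivAt (fun s => ‖q s‖⁻¹) (-(⟪q x, q'⟫ / ‖q x‖) / ‖q x‖ ^ 2) x := h2.inv hN.ne'
  have h6 : HasDerivAt (fun s => nrm (q s)) (‖q x‖⁻¹ • q' + (-(⟪q x, q'⟫ / ‖q x‖) / ‖q x‖ ^ 2) • q x) x := h5.smul hq
  refine ⟨_, h6, ?_⟩
  have h7 : ‖q x‖⁻¹ • q' + (-(⟪q x, q'⟫ / ‖q x‖) / ‖q x‖ ^ 2) • q x = ‖q x‖⁻¹ • (q' - (⟪q x, q'⟫ / ‖q x‖ ^ 2) • q x) := by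
    rw [smul_sub, smul_smul, sub_eq_add_neg, ← neg_smul]
    congr 2
    field_simp
  rw [h7, norm_smul, norm_inv, norm_norm, div_eq_inv_mul ‖q'‖]
  apply mul_le_mul_of_nonneg_left _ (by positivity)
  have h8 : ‖q' - (⟪q x, q'⟫ / ‖q x‖ ^ 2) • q x‖ ^ 2 ≤ ‖q'‖ ^ 2 := by
    rw [norm_sub_sq_real, inner_smul_right, norm_smul, real_inner_comm (q x) q', mul_pow, Real.norm_eq_abs, sq_abs]
    have h9 : (⟪q x, q'⟫ / ‖q x‖ ^ 2) ^ 2 * ‖q x‖ ^ 2 = ⟪q x, q'⟫ ^ 2 / ‖q x‖ ^ 2 := by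
      field_simp
    have h10 : ⟪q x, q'⟫ / ‖q x‖ ^ 2 * ⟪q x, q'⟫ = ⟪q x, q'⟫ ^ 2 / ‖q x‖ ^ 2 := by
      field_simp
    rw [h9, h10]
    have : 0 ≤ ⟪q x, q'⟫ ^ 2 / ‖q x‖ ^ 2 := by positivity
    linarith
  exact le_of_sq_le_sq h8 (norm_nonneg _)

theorem seg_hasDerivAt {n : ℕ} (P P' : E n) (x : ℝ) : HasDerivAt (fun x => seg P P' x) (P' - P) x := by
  have h1 : HasDerivAt (fun x : ℝ => (1 - x) • P) ((-1 : ℝ) • P) x :=
    ((hasDerivAt_id x).const_sub 1).smul_const P
  have h2 : HasDerivAt (fun x : ℝ => x • P') ((1 : ℝ) • P') x := (hasDerivAt_id x).smul_const P'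
  have h3 := h1.add h2
  have h4 : (-1 : ℝ) • P + (1 : ℝ) • P' = P' - P := by simp [sub_eq_neg_add]
  rw [h4] at h3
  exact h3

/-- values at the times `(i + x) / K`, `x < 1` -/
theorem polyPt_lt {n K : ℕ} {P : ℕ → E n} {i : ℕ} (hi : i < K) {x : ℝ} (h0 : 0 ≤ x) (h1 : x < 1) :
    polyPt K P ((i + x) / K) = nrm (seg (P i) (P (i + 1)) x) := by
  have hK : (0:ℝ) < K := by exact_mod_cast (Nat.zero_le i).trans_lt hi
  have hi' : (i:ℝ) + 1 ≤ K := by exact_mod_cast hi
  have h2 : Int.fract (((i:ℝ) + x) / K) = (i + x) / K := by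
    rw [Int.fract_eq_self]
    constructor
    · positivity
    · rw [div_lt_one hK]; linarith
  have h3 : (K:ℝ) * ((i + x) / K) = i + x := by field_simp
  have h4 : ⌊(i:ℝ) + x⌋₊ = i := by
    rw [Nat.floor_eq_iff (by positivity)]
    constructor
    · linarith
    · linarith
  rw [polyPt, h2, h3, h4]
  congr 2
  ring

theorem polyPt_apply' {n K : ℕ} {P : ℕ → E n} (h : ValidPoly K P) {i : ℕ} (hi : i < K) {x : ℝ}
    (hx : x ∈ Set.Icc (0 : ℝ) 1) : polyPt K P ((i + x) / K) = nrm (seg (P i) (P (i + 1)) x) := by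
  rcases hx.2.eq_or_lt with h1 | h1
  · subst h1
    have hK : (0:ℝ) < K := by exact_mod_cast h.1
    rcases (Nat.succ_le_of_lt hi).eq_or_lt with h2 | h2
    · have h3 : ((i:ℝ) + 1) / K = 1 := by
        rw [div_eq_one_iff_eq hK.ne']; exact_mod_cast h2
      rw [h3, polyPt, Int.fract_one, mul_zero, Nat.floor_zero, seg_one]
      have h4 : i + 1 = K := h2
      rw [h4, h.2.1]
      simp [seg]
    · have h3 := polyPt_lt (P := P) h2 (x := 0) le_rfl one_pos
      rw [seg_zero] at h3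
      rw [seg_one, ← h3]
      congr 1
      push_cast
      ring
  · exact polyPt_lt hi hx.1 h1

theorem dt_nonneg {γ : Loop 6} {a b : ℝ} (h : MonotoneOn (fun t => tau (γ.toFun t)) (Set.Icc a b)) {t : ℝ}
    (ht : t ∈ Set.Ioo a b) : 0 ≤ dt γ t := by
  by_cases hd : DifferentiableAt ℝ γ.toFun t
  · have h1 : HasDerivAt (fun t => tau (γ.toFun t)) (dt γ t) t :=
      (hasFDerivAt_tau (γ.toFun t)).comp_hasDerivAt t hd.hasDerivAt
    rw [← h1.deriv, ← derivWithin_of_mem_nhds (Icc_mem_nhds ht.1 ht.2)]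
    exact h.derivWithin_nonneg
  · rw [dt, deriv_zero_of_not_differentiableAt hd, map_zero]

theorem dt_nonpos {γ : Loop 6} {a b : ℝ} (h : AntitoneOn (fun t => tau (γ.toFun t)) (Set.Icc a b)) {t : ℝ}
    (ht : t ∈ Set.Ioo a b) : dt γ t ≤ 0 := by
  by_cases hd : DifferentiableAt ℝ γ.toFun t
  · have h1 : HasDerivAt (fun t => tau (γ.toFun t)) (dt γ t) t :=
      (hasFDerivAt_tau (γ.toFun t)).comp_hasDerivAt t hd.hasDerivAt
    rw [← h1.deriv, ← derivWithin_of_mem_nhds (Icc_mem_nhds ht.1 ht.2)]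
    exact h.derivWithin_nonpos
  · rw [dt, deriv_zero_of_not_differentiableAt hd, map_zero]

theorem int_abs_dt (γ : Loop 6) {a b : ℝ} (hab : a ≤ b)
    (h : MonotoneOn (fun t => tau (γ.toFun t)) (Set.Icc a b) ∨ AntitoneOn (fun t => tau (γ.toFun t)) (Set.Icc a b)) :
    ∫ t in a..b, |dt γ t| ≤ |tau (γ.toFun b) - tau (γ.toFun a)| := by
  obtain ⟨S, hS, _, _, h2, _, _⟩ := regular_dt γ
  rcases h with h | h
  · calc ∫ t in a..b, |dt γ t| ≤ ∫ t in a..b, dt γ t := by
          apply intervalIntegral.integral_mono_on_of_le_Ioo hab (h2 _ _).abs (h2 _ _)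
          intro t ht
          rw [abs_of_nonneg (dt_nonneg h ht)]
      _ ≤ _ := by rw [ftc_dt]; exact le_abs_self _
  · calc ∫ t in a..b, |dt γ t| ≤ ∫ t in a..b, - dt γ t := by
          apply intervalIntegral.integral_mono_on_of_le_Ioo hab (h2 _ _).abs (h2 _ _).neg
          intro t ht
          rw [abs_of_nonpos (dt_nonpos h ht)]
          exact le_refl _
      _ ≤ _ := by rw [intervalIntegral.integral_neg, ftc_dt]; exact neg_le_abs _

/-- upper bound of the length of polygons all of whose edges are `tau`-monotone -/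
theorem length_le' {R c B : ℝ} (hR : 0 ≤ R) (hc : 0 < c) (hB : 0 ≤ B) (K : ℕ) (P : ℕ → E 6)
    (h : ValidPoly K P) (γ : Loop 6) (hγ : γ.toFun = polyPt K P)
    (h1 : ∀ i < K, ∀ x ∈ Set.Icc (0 : ℝ) 1, c ≤ ‖seg (P i) (P (i + 1)) x‖)
    (h2 : ∀ i < K, ‖P (i + 1) - P i‖ ≤ B)
    (h3 : ∀ i < K, MonotoneOn (fun x => tau (nrm (seg (P i) (P (i + 1)) x))) (Set.Icc (0 : ℝ) 1) ∨
      AntitoneOn (fun x => tau (nrm (seg (P i) (P (i + 1)) x))) (Set.Icc (0 : ℝ) 1)) :
    length (gR R) γ ≤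
      K * (B / c) + R * ∑ i ∈ Finset.range K, |tau (nrm (P (i + 1))) - tau (nrm (P i))| := by
  have hK : (0:ℝ) < K := by exact_mod_cast h.1
  obtain ⟨S, hS, _, _, g2, g3, g4⟩ := regular_dt γ
  have hval : ∀ i < K, ∀ x ∈ Set.Icc (0:ℝ) 1, γ.toFun ((i + x) / K) = nrm (seg (P i) (P (i + 1)) x) := by
    intro i hi x hx
    rw [hγ]; exact polyPt_apply' h hi hx
  have hpar : ∀ i < K, ∀ t ∈ Set.Icc ((i:ℝ) / K) ((i + 1 : ℝ) / K), K * t - i ∈ Set.Icc (0:ℝ) 1 ∧ ((i:ℝ) + (K * t - i)) / K = t := by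
    intro i hi t ht
    rw [Set.mem_Icc, div_le_iff₀ hK, le_div_iff₀ hK] at ht
    refine ⟨⟨by linarith, by linarith⟩, ?_⟩
    field_simp; ring
  have hval' : ∀ i < K, ∀ t ∈ Set.Icc ((i:ℝ) / K) ((i + 1 : ℝ) / K), γ.toFun t = nrm (seg (P i) (P (i + 1)) (K * t - i)) := by
    intro i hi t ht
    obtain ⟨a1, a2⟩ := hpar i hi t ht
    rw [← hval i hi _ a1, a2]
  have hle : ∀ i : ℕ, (i:ℝ) / K ≤ (i + 1 : ℝ) / K := fun i => by gcongr; linarith
  -- one edge
  have hedge : ∀ i < K, ∫ t in ((i:ℝ) / K)..((i + 1 : ℝ) / K), spd R γ t ≤ B / c + R * |tau (nrm (P (i + 1))) - tau (nrm (P i))| := by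
    intro i hi
    have e1 : ∫ t in ((i:ℝ) / K)..((i + 1 : ℝ) / K), spd R γ t ≤
        ∫ t in ((i:ℝ) / K)..((i + 1 : ℝ) / K), (‖deriv γ.toFun t‖ + R * |dt γ t|) := by
      apply intervalIntegral.integral_mono_on (hle i) (g4 R hR _ _) ((g3 _ _).add ((g2 _ _).abs.const_mul R))
      intro t _
      exact spd_le hR γ t
    rw [intervalIntegral.integral_add (g3 _ _) ((g2 _ _).abs.const_mul R), intervalIntegral.integral_const_mul] at e1
    have e2 : ∫ t in ((i:ℝ) / K)..((i + 1 : ℝ) / K), ‖deriv γ.toFun t‖ ≤ B / c := by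
      have e3 : ∫ t in ((i:ℝ) / K)..((i + 1 : ℝ) / K), ‖deriv γ.toFun t‖ ≤ ∫ t in ((i:ℝ) / K)..((i + 1 : ℝ) / K), (K * (B / c) : ℝ) := by
        apply intervalIntegral.integral_mono_on_of_le_Ioo (hle i) (g3 _ _) intervalIntegrable_const
        intro t ht
        obtain ⟨a1, a2⟩ := hpar i hi t (Set.Ioo_subset_Icc_self ht)
        have hne : seg (P i) (P (i + 1)) (K * t - i) ≠ 0 := h.2.2 i hi _ a1
        have b1 : HasDerivAt (fun t : ℝ => seg (P i) (P (i + 1)) (K * t - i)) ((K:ℝ) • (P (i + 1) - P i)) t := by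
          have b2 : HasDerivAt (fun t : ℝ => (K:ℝ) * t - i) K t := by
            simpa using ((hasDerivAt_id t).const_mul (K:ℝ)).sub_const (i:ℝ)
          exact (seg_hasDerivAt (P i) (P (i + 1)) (K * t - i)).scomp t b2
        obtain ⟨d, hd1, hd2⟩ := nrm_hasDerivAt b1 hne
        have b3 : γ.toFun =ᶠ[nhds t] fun t => nrm (seg (P i) (P (i + 1)) (K * t - i)) := by
          filter_upwards [Icc_mem_nhds ht.1 ht.2] with s hs
          exact hval' i hi s hs
        have b4 : deriv γ.toFun t = d := by rw [b3.deriv_eq]; exact hd1.deriv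
        rw [b4]
        refine hd2.trans ?_
        rw [norm_smul, Real.norm_eq_abs, abs_of_pos hK, mul_div_assoc]
        apply mul_le_mul_of_nonneg_left _ hK.le
        exact div_le_div₀ hB (h2 i hi) hc (h1 i hi _ a1)
      rw [intervalIntegral.integral_const, smul_eq_mul] at e3
      have e4 : ((i + 1 : ℝ) / K - (i:ℝ) / K) * (K * (B / c)) = B / c := by field_simp; ring
      rw [e4] at e3
      exact e3
    have e5 : ∫ t in ((i:ℝ) / K)..((i + 1 : ℝ) / K), |dt γ t| ≤ |tau (nrm (P (i + 1))) - tau (nrm (P i))| := by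
      have f1 : γ.toFun ((i + 1 : ℝ) / K) = nrm (P (i + 1)) := by
        rw [hval i hi 1 ⟨zero_le_one, le_rfl⟩, seg_one]
      have f2 : γ.toFun ((i:ℝ) / K) = nrm (P i) := by
        have := hval i hi 0 ⟨le_rfl, zero_le_one⟩
        rw [add_zero, seg_zero] at this; exact this
      rw [← f1, ← f2]
      apply int_abs_dt γ (hle i)
      rcases h3 i hi with h3 | h3
      · left
        intro s hs t ht hst
        show tau (γ.toFun s) ≤ tau (γ.toFun t)
        rw [hval' i hi s hs, hval' i hi t ht]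
        exact h3 (hpar i hi s hs).1 (hpar i hi t ht).1 (by nlinarith)
      · right
        intro s hs t ht hst
        show tau (γ.toFun t) ≤ tau (γ.toFun s)
        rw [hval' i hi s hs, hval' i hi t ht]
        exact h3 (hpar i hi s hs).1 (hpar i hi t ht).1 (by nlinarith)
    have := mul_le_mul_of_nonneg_left e5 hR
    linarith
  have hsum : ∫ t in (0:ℝ)..1, spd R γ t = ∑ i ∈ Finset.range K, ∫ t in ((i:ℝ) / K)..((i + 1 : ℝ) / K), spd R γ t := by
    have := intervalIntegral.sum_integral_adjacent_intervals (f := spd R γ) (μ := volume) (a := fun i : ℕ => (i:ℝ) / K) (n := K)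
      (fun i _ => g4 R hR _ _)
    rw [Nat.cast_zero, zero_div, div_self hK.ne'] at this
    rw [← this]
    apply Finset.sum_congr rfl
    intro i _
    push_cast
    rfl
  rw [length_eq, hsum]
  calc ∑ i ∈ Finset.range K, ∫ t in ((i:ℝ) / K)..((i + 1 : ℝ) / K), spd R γ t
      ≤ ∑ i ∈ Finset.range K, (B / c + R * |tau (nrm (P (i + 1))) - tau (nrm (P i))|) :=
        Finset.sum_le_sum fun i hi => hedge i (Finset.mem_range.1 hi)
    _ = _ := by
        rw [Finset.sum_add_distrib, Finset.sum_const, Finset.card_range, nsmul_eq_mul, ← Finset.mul_sum]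

end LB

/-- upper bound of the length of polygons all of whose edges are `tau`-monotone -/
theorem length_le {R c B : ℝ} (hR : 0 ≤ R) (hc : 0 < c) (hB : 0 ≤ B) (K : ℕ) (P : ℕ → E 6)
    (h : ValidPoly K P)
    (h1 : ∀ i < K, ∀ x ∈ Set.Icc (0 : ℝ) 1, c ≤ ‖seg (P i) (P (i + 1)) x‖)
    (h2 : ∀ i < K, ‖P (i + 1) - P i‖ ≤ B)
    (h3 : ∀ i < K, MonotoneOn (fun x => tau (nrm (seg (P i) (P (i + 1)) x))) (Set.Icc (0 : ℝ) 1) ∨
      AntitoneOn (fun x => tau (nrm (seg (P i) (P (i + 1)) x))) (Set.Icc (0 : ℝ) 1)) :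
    length (gR R) (polyLoop K P h) ≤
      K * (B / c) + R * ∑ i ∈ Finset.range K, |tau (nrm (P (i + 1))) - tau (nrm (P i))| :=
  length_le' hR hc hB K P h (polyLoop K P h) rfl h1 h2 h3

end Pool.Agent.Helper76.Freq
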