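import Pool.Agent.Helper76.Freq.FamQ
import Pool.Agent.Helper76.Freq.LoopB

/-!
# The length of the loops of the rational family
-/

set_option autoImplicit false

namespace Pool.Agent.Helper76.Freq

/-- sums over `m * V` indices as sums over blocks -/
theorem lenq_sum_blocks (V : ℕ) (f : ℕ → ℝ) (m : ℕ) :
    ∑ i ∈ Finset.range (m * V), f i = ∑ b ∈ Finset.range m, ∑ r ∈ Finset.range V, f (b * V + r) := by
  induction m with
  | zero => simp
  | succ m ih => rw [Nat.succ_mul, Finset.sum_range_add, ih, Finset.sum_range_succ]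

/-- the length of the loops of `famQ` -/
theorem length_famQ {R : ℝ} (hR : 0 < R) (m : ℕ) (hm : Odd m) (hm3 : 3 ≤ m) (Ps : ℕ → PQ) :
    length (gR R) ((famQ m hm hm3).loop Ps) ≤ 48 * m + R * (m + 1) := by
  have hvert : ∀ b < m, ∀ r ≤ 6, glueP 6 m (fun b => (famQ m hm hm3).pol b (Ps b)) (b * 6 + r) =
      polQ (kap m b) (Ps b) r := fun b hb r hr =>
    glueP_vertex (by norm_num) ((famQ m hm hm3).hj Ps) ((famQ m hm hm3).hl Ps) hb hr
  have hdec : ∀ i < m * 6, ∃ b < m, ∃ r < 6, i = b * 6 + r := by
    intro i hi
    exact ⟨i / 6, by omega, i % 6, by omega, by omega⟩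
  have h := length_le hR.le (c := 1 / 2) (B := 4) (by norm_num) (by norm_num) (m * 6)
    (glueP 6 m fun b => (famQ m hm hm3).pol b (Ps b)) ((famQ m hm hm3).validPoly Ps) ?_ ?_ ?_
  · have e : ∑ i ∈ Finset.range (m * 6),
        |tau (nrm (glueP 6 m (fun b => (famQ m hm hm3).pol b (Ps b)) (i + 1))) -
          tau (nrm (glueP 6 m (fun b => (famQ m hm hm3).pol b (Ps b)) i))| ≤ m + 1 := by
      rw [lenq_sum_blocks]
      calc _ ≤ ∑ b ∈ Finset.range m, (1 + if b = m - 1 then 1 else 0 : ℝ) := by
            apply Finset.sum_le_sum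
            intro b hb
            have hb' := Finset.mem_range.1 hb
            have h1 : ∑ r ∈ Finset.range 6,
                |tau (nrm (glueP 6 m (fun b => (famQ m hm hm3).pol b (Ps b)) (b * 6 + r + 1))) -
                  tau (nrm (glueP 6 m (fun b => (famQ m hm hm3).pol b (Ps b)) (b * 6 + r)))| =
                ∑ r ∈ Finset.range 6, |tau (nrm (polQ (kap m b) (Ps b) (r + 1))) -
                  tau (nrm (polQ (kap m b) (Ps b) r))| := by
              apply Finset.sum_congr rfl
              intro r hr
              have hr' := Finset.mem_range.1 hr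
              rw [add_assoc, hvert b hb' r hr'.le, hvert b hb' (r + 1) hr']
            rw [h1]
            refine (polQ_var _ _).trans ?_
            unfold kap
            by_cases hbm : b = m - 1
            · simp only [hbm, if_true]
              norm_num
            · have : b % 2 = 0 ∨ b % 2 = 1 := Nat.mod_two_eq_zero_or_one b
              simp only [hbm, if_false, this, if_true]
              norm_num
        _ = m + 1 := by
            rw [Finset.sum_add_distrib, Finset.sum_ite_eq']
            rw [if_pos (Finset.mem_range.2 (by omega))]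
            simp
    refine h.trans ?_
    have e' := mul_le_mul_of_nonneg_left e hR.le
    push_cast
    linarith
  · intro i hi x hx
    obtain ⟨b, hb, r, hr, rfl⟩ := hdec i hi
    rw [add_assoc, hvert b hb r hr.le, hvert b hb (r + 1) hr]
    exact polQ_norm _ _ hr hx
  · intro i hi
    obtain ⟨b, hb, r, hr, rfl⟩ := hdec i hi
    rw [add_assoc, hvert b hb r hr.le, hvert b hb (r + 1) hr]
    exact polQ_edge _ _ _
  · intro i hi
    obtain ⟨b, hb, r, hr, rfl⟩ := hdec i hi
    rw [add_assoc, hvert b hb r hr.le, hvert b hb (r + 1) hr]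
    exact polQ_mono _ _ hr

theorem smooth_lt : Real.smoothTransition (1 / 5) < Real.smoothTransition (4 / 5) := by
  have h1 : expNegInvGlue (1 / 5) < expNegInvGlue (4 / 5) := by
    unfold expNegInvGlue
    rw [if_neg (by norm_num), if_neg (by norm_num)]
    apply Real.exp_lt_exp.2
    norm_num
  have h2 : 0 < expNegInvGlue (1 / 5) := expNegInvGlue.pos_of_pos (by norm_num)
  unfold Real.smoothTransition
  rw [show (1 : ℝ) - 1 / 5 = 4 / 5 by norm_num, show (1 : ℝ) - 4 / 5 = 1 / 5 by norm_num,
    add_comm (expNegInvGlue (4 / 5))]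
  exact div_lt_div_of_pos_right h1 (by linarith)

theorem tau_diff {u v : E6} (hu : |HH u - 1 / 20| < 1 / 50) (hv : |HH v - (-1 / 20)| < 1 / 50) :
    Real.smoothTransition (4 / 5) - Real.smoothTransition (1 / 5) ≤ |tau v - tau u| := by
  rw [abs_lt] at hu hv
  have h1 : Real.smoothTransition (4 / 5) ≤ tau u := Real.smoothTransition.monotone (by linarith)
  have h2 : tau v ≤ Real.smoothTransition (1 / 5) := Real.smoothTransition.monotone (by linarith)
  rw [abs_sub_comm]
  exact (sub_le_sub h1 h2).trans (le_abs_self _)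

end Pool.Agent.Helper76.Freq
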