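import Pool.Agent.Helper76.Freq.Letters
import Pool.Agent.Helper76.Freq.Ver
import Pool.Agent.Helper76.Freq.Peel

/-!
# Closedness and support of the rational letter
-/

set_option autoImplicit false

namespace Pool.Agent.Helper76.Freq

open scoped RealInnerProductSpace Classical

/-- the cochain `wQ` without the indicator -/
noncomputable def cQ (h : ℝ) : (ℕ → E6) → ℚ :=
  cup 1 (dC (hi ℚ h)) (cup 1 (dC (s5 ℚ)) (cup 1 (dC (s6 ℚ)) (cup 1 (dC g1) (cup 1 (dC g2) (dC g3)))))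

theorem dep_cQ (h : ℝ) : Dep 6 (cQ h) :=
  (dep_dC _).cup ((dep_dC _).cup ((dep_dC _).cup ((dep_dC _).cup ((dep_dC _).cup (dep_dC _)))))

theorem nrm_cQ (h : ℝ) : Nrm 6 (cQ h) :=
  (nrm_dC _).cup ((nrm_dC _).cup ((nrm_dC _).cup ((nrm_dC _).cup ((nrm_dC _).cup (nrm_dC _)))))

theorem wQ_eq (h : ℝ) : wQ h = cup 0 (fun v => indN (v 0)) (cQ h) := rfl

theorem dep_ind : Dep 0 (fun v : ℕ → E6 => indN (v 0)) := by
  intro y y' h
  simp only [h 0 le_rfl]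

theorem dep_wQ (h : ℝ) : Dep 6 (wQ h) := by
  have := dep_ind.cup (dep_cQ h)
  exact this

theorem nrm_wQ (h : ℝ) : Nrm 6 (wQ h) := by
  rintro y hy
  rw [wQ_eq]
  simp only [cup]
  have : cQ h (fun j => y (j + 0)) = 0 := nrm_cQ h _ hy
  rw [this, mul_zero]

theorem cobd_dC_cup {p : ℕ} {f : E6 → ℚ} {Ψ : (ℕ → E6) → ℚ} (hΨ : ∀ y, cobd p Ψ y = 0) (y : ℕ → E6) :
    cobd (1 + p) (cup 1 (dC f) Ψ) y = 0 := by
  rw [cobd_cup (dep_dC f)]
  have h1 : cup (1 + 1) (cobd 1 (dC f)) Ψ y = 0 := by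
    simp only [cup, cobd_dC, zero_mul]
  have h2 : cup 1 (dC f) (cobd p Ψ) y = 0 := by
    simp only [cup, hΨ, mul_zero]
  rw [h1, h2, mul_zero, add_zero]

theorem cobd_cQ (h : ℝ) (y : ℕ → E6) : cobd 6 (cQ h) y = 0 :=
  cobd_dC_cup (cobd_dC_cup (cobd_dC_cup (cobd_dC_cup (cobd_dC_cup (cobd_dC g3))))) y

theorem cobd_wQ (h : ℝ) (y : ℕ → E6) :
    cobd 6 (wQ h) y = (indN (y 1) - indN (y 0)) * cQ h (fun j => y (j + 1)) := by
  rw [wQ_eq]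
  have h1 := cobd_cup (q := 6) (Ψ := cQ h) dep_ind y
  rw [zero_add] at h1
  rw [h1]
  simp only [cup, cobd_cQ, mul_zero, add_zero]
  congr 1
  simp only [cobd, Finset.sum_range_succ, Finset.sum_range_zero, sk]
  norm_num
  ring

/-! ### the analytic part -/

theorem sgn_close {x y : ℝ} {a b : ℚ} (ha : a = if 0 < x then 1 else 0) (hb : b = if 0 < y then 1 else 0)
    (h : b - a ≠ 0) : |x| ≤ |x - y| := by
  subst ha
  subst hb
  by_cases h1 : 0 < x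
  · by_cases h2 : 0 < y
    · simp [h1, h2] at h
    · push Not at h2
      rw [abs_of_pos h1, abs_of_nonneg (by linarith)]
      linarith
  · by_cases h2 : 0 < y
    · push Not at h1
      rw [abs_of_nonpos h1, abs_of_nonpos (by linarith)]
      linarith
    · simp [h1, h2] at h

theorem coord_le {n : ℕ} (b : EuclideanSpace ℝ (Fin n)) (i : Fin n) : |b i| ≤ ‖b‖ := by
  have := PiLp.norm_apply_le b i
  rwa [Real.norm_eq_abs] at this

theorem line_close_aux {b b' : R3} (hb : ‖b‖ = 1) (hb' : ‖b'‖ = 1) {η : ℝ} (hη : 0 ≤ η)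
    (h : 1 - ⟪b, b'⟫ ^ 2 ≤ η ^ 2 / 8) (h0 : 0 ≤ ⟪b, b'⟫) (j k : Fin 3) :
    |b j * b k - b' j * b' k| ≤ η := by
  have h1 : ⟪b, b'⟫ ≤ 1 := by
    have := real_inner_le_norm b b'
    rwa [hb, hb', mul_one] at this
  have h2 : ‖b - b'‖ ^ 2 = 2 - 2 * ⟪b, b'⟫ := by
    rw [norm_sub_sq_real, hb, hb']; ring
  have h3 : ⟪b, b'⟫ ^ 2 ≤ ⟪b, b'⟫ := by nlinarith
  have h4 : ‖b - b'‖ ^ 2 ≤ (η / 2) ^ 2 := by
    rw [h2]; linarith
  have h5 : ‖b - b'‖ ≤ η / 2 := abs_le_of_sq_le_sq' h4 (by linarith) |>.2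
  have e1 : |b j - b' j| ≤ η / 2 := (coord_le (b - b') j).trans h5
  have e2 : |b k - b' k| ≤ η / 2 := (coord_le (b - b') k).trans h5
  have e3 : |b k| ≤ 1 := by have := coord_le b k; rwa [hb] at this
  have e4 : |b' j| ≤ 1 := by have := coord_le b' j; rwa [hb'] at this
  have e5 : b j * b k - b' j * b' k = (b j - b' j) * b k + b' j * (b k - b' k) := by ring
  rw [e5]
  refine (abs_add_le _ _).trans ?_
  rw [abs_mul, abs_mul]
  have f1 : |b j - b' j| * |b k| ≤ η / 2 * 1 := mul_le_mul e1 e3 (abs_nonneg _) (by linarith)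
  have f2 : |b' j| * |b k - b' k| ≤ 1 * (η / 2) := mul_le_mul e4 e2 (abs_nonneg _) (by norm_num)
  linarith

theorem line_close {b b' : R3} (hb : ‖b‖ = 1) (hb' : ‖b'‖ = 1) {η : ℝ} (hη : 0 ≤ η)
    (h : 1 - ⟪b, b'⟫ ^ 2 ≤ η ^ 2 / 8) (j k : Fin 3) : |b j * b k - b' j * b' k| ≤ η := by
  rcases le_total 0 ⟪b, b'⟫ with h0 | h0
  · exact line_close_aux hb hb' hη h h0 j k
  · have := line_close_aux hb (b' := -b') (by rw [norm_neg]; exact hb') hη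
      (by rw [inner_neg_right]; linarith [neg_sq ⟪b, b'⟫]) (by rw [inner_neg_right]; linarith) j k
    have e : (-b') j * (-b') k = b' j * b' k := by
      simp only [PiLp.neg_apply]; ring
    rwa [e] at this

theorem dichotomy {a b : R3} (ha : ‖a‖ = 1) (hb : ‖b‖ = 1) (hab : ⟪a, b⟫ = 0)
    (h1 : |b 0 * b 2| ≤ 1 / 50) (h2 : |b 1 * b 2| ≤ 1 / 50) (h3 : |a 0 * a 1| ≤ 1 / 50) :
    b 2 ^ 2 < 1 / 4 ∨ (3 / 4 < b 2 ^ 2 ∧ (a 1 ^ 2 < 1 / 4 ∨ 3 / 4 < a 1 ^ 2)) := by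
  have na := norm3 a
  have nb := norm3 b
  rw [ha] at na
  rw [hb] at nb
  rw [inner3] at hab
  have k1 : (b 0 * b 2) ^ 2 ≤ 1 / 2500 := by
    have := abs_le.1 h1
    nlinarith [this.1, this.2]
  have k2 : (b 1 * b 2) ^ 2 ≤ 1 / 2500 := by
    have := abs_le.1 h2
    nlinarith [this.1, this.2]
  have k3 : (a 0 * a 1) ^ 2 ≤ 1 / 2500 := by
    have := abs_le.1 h3
    nlinarith [this.1, this.2]
  have k4 : b 2 ^ 2 * (1 - b 2 ^ 2) ≤ 1 / 1250 := by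
    have : b 2 ^ 2 * (1 - b 2 ^ 2) = (b 0 * b 2) ^ 2 + (b 1 * b 2) ^ 2 := by
      have : 1 - b 2 ^ 2 = b 0 ^ 2 + b 1 ^ 2 := by linarith
      rw [this]; ring
    linarith
  by_cases c1 : b 2 ^ 2 < 1 / 4
  · exact Or.inl c1
  right
  push Not at c1
  have l1 : 0 ≤ 1 - b 2 ^ 2 := by nlinarith [sq_nonneg (b 0), sq_nonneg (b 1)]
  have l2 : 1 - b 2 ^ 2 ≤ 4 / 1250 := by
    have : 1 / 4 * (1 - b 2 ^ 2) ≤ b 2 ^ 2 * (1 - b 2 ^ 2) := mul_le_mul_of_nonneg_right c1 l1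
    linarith
  refine ⟨by linarith, ?_⟩
  have m1 : a 2 ^ 2 * b 2 ^ 2 ≤ 4 / 1250 := by
    have e1 : a 2 * b 2 = -(a 0 * b 0 + a 1 * b 1) := by linarith
    have e2 : a 2 ^ 2 * b 2 ^ 2 = (a 0 * b 0 + a 1 * b 1) ^ 2 := by
      calc a 2 ^ 2 * b 2 ^ 2 = (a 2 * b 2) ^ 2 := by ring
        _ = _ := by rw [e1]; ring
    have e3 : (a 0 * b 0 + a 1 * b 1) ^ 2 ≤ (a 0 ^ 2 + a 1 ^ 2) * (b 0 ^ 2 + b 1 ^ 2) := by
      nlinarith [sq_nonneg (a 0 * b 1 - a 1 * b 0)]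
    have e4 : (a 0 ^ 2 + a 1 ^ 2) * (b 0 ^ 2 + b 1 ^ 2) ≤ 1 * (1 - b 2 ^ 2) := by
      have : b 0 ^ 2 + b 1 ^ 2 = 1 - b 2 ^ 2 := by linarith
      rw [this]
      exact mul_le_mul_of_nonneg_right (by nlinarith [sq_nonneg (a 2)]) l1
    linarith
  have m2 : a 2 ^ 2 ≤ 16 / 3750 := by
    have : a 2 ^ 2 * (3 / 4) ≤ a 2 ^ 2 * b 2 ^ 2 := mul_le_mul_of_nonneg_left (by linarith) (sq_nonneg _)
    linarith
  have m3 : a 1 ^ 2 * (1 - a 1 ^ 2) ≤ 1 / 100 := by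
    have e1 : 1 - a 1 ^ 2 = a 0 ^ 2 + a 2 ^ 2 := by linarith
    have e2 : a 1 ^ 2 ≤ 1 := by nlinarith [sq_nonneg (a 0), sq_nonneg (a 2)]
    have e3 : a 1 ^ 2 * a 2 ^ 2 ≤ 1 * (16 / 3750) := mul_le_mul e2 m2 (sq_nonneg _) (by norm_num)
    rw [e1]
    calc a 1 ^ 2 * (a 0 ^ 2 + a 2 ^ 2) = (a 0 * a 1) ^ 2 + a 1 ^ 2 * a 2 ^ 2 := by ring
      _ ≤ 1 / 2500 + 1 * (16 / 3750) := add_le_add k3 e3
      _ ≤ 1 / 100 := by norm_num
  by_contra hc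
  push Not at hc
  nlinarith [hc.1, hc.2]

theorem isTop_topv (v : E6) : IsTop v (topv v) := Classical.epsilon_spec (exists_isTop v)

theorem isBot_botv (v : E6) : IsBot v (botv v) := Classical.epsilon_spec (exists_isBot v)

theorem hi_close {h : ℝ} {v v' : E6} (hne : hi ℚ h v' - hi ℚ h v ≠ 0) : |HH v - h| ≤ |HH v - HH v'| := by
  have := sgn_close (x := HH v - h) (y := HH v' - h) (a := hi ℚ h v) (b := hi ℚ h v')
    (by simp only [hi, sub_pos]) (by simp only [hi, sub_pos]) hne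
  rwa [show HH v - h - (HH v' - h) = HH v - HH v' by ring] at this

theorem s5_close {v v' : E6} (hne : s5 ℚ v' - s5 ℚ v ≠ 0) : |v 5| ≤ ‖v - v'‖ :=
  (sgn_close (x := v 5) (y := v' 5) (a := s5 ℚ v) (b := s5 ℚ v') rfl rfl hne).trans (coord_le (v - v') 5)

theorem s6_close {v v' : E6} (hne : s6 ℚ v' - s6 ℚ v ≠ 0) : |v 6| ≤ ‖v - v'‖ :=
  (sgn_close (x := v 6) (y := v' 6) (a := s6 ℚ v) (b := s6 ℚ v') rfl rfl hne).trans (coord_le (v - v') 6)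

theorem cQ_ne {h : ℝ} {y : ℕ → E6} (hne : cQ h y ≠ 0) :
    dC (hi ℚ h) y ≠ 0 ∧ dC (s5 ℚ) (fun j => y (j + 1)) ≠ 0 ∧ dC (s6 ℚ) (fun j => y (j + 2)) ≠ 0 ∧
      dC g1 (fun j => y (j + 3)) ≠ 0 ∧ dC g2 (fun j => y (j + 4)) ≠ 0 ∧ dC g3 (fun j => y (j + 5)) ≠ 0 := by
  simp only [cQ, cup, ne_eq, mul_eq_zero, not_or] at hne
  exact hne

theorem near_all {δ : ℝ} {v : ℕ → E6} (_ : Sm δ v) (f : E6 → ℝ) {c : ℝ}
    (hf : ∀ i j, |f (v i) - f (v j)| ≤ c) {i₀ : ℕ} (h0 : |f (v i₀)| ≤ c) (i : ℕ) : |f (v i)| ≤ 2 * c := by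
  have h1 := hf i i₀
  have h2 : f (v i) = (f (v i) - f (v i₀)) + f (v i₀) := by ring
  rw [h2]
  refine (abs_add_le _ _).trans ?_
  linarith

theorem ind_eq {C δ h : ℝ} (hC : ∀ v v' : E6, ‖v‖ = 1 → ‖v'‖ = 1 → |HH v - HH v'| ≤ C * ‖v - v'‖)
    (hC0 : 0 < C) (hδ : C * δ ≤ 1 / 200) (hδ' : δ ≤ 1 / 2000000) {v : ℕ → E6} (hv : Sm δ v)
    (hh : |h| ≤ 3 / 10) (hne : cQ h (fun j => v (j + 1)) ≠ 0) : indN (v 1) = indN (v 0) := by
  obtain ⟨n1, n2, n3, n4, n5, n6⟩ := cQ_ne hne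
  have hHH : ∀ i j, |HH (v i) - HH (v j)| ≤ 1 / 200 := fun i j =>
    ((hC _ _ (hv.1 i) (hv.1 j)).trans (mul_le_mul_of_nonneg_left (hv.2 i j).le hC0.le)).trans hδ
  have a1 : |HH (v 1) - h| ≤ 1 / 200 := (hi_close (v := v 1) (v' := v 2) n1).trans (hHH 1 2)
  have a2 : ∀ i, |HH (v i)| ≤ 1 / 2 := by
    intro i
    have k1 := abs_le.1 (hHH i 1)
    have k2 := abs_le.1 a1
    have k3 := abs_le.1 hh
    exact abs_le.2 ⟨by linarith [k1.1, k2.1, k3.1], by linarith [k1.2, k2.2, k3.2]⟩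
  have hco : ∀ (p : Fin 7) (i j : ℕ), |v i p - v j p| ≤ 1 / 2000000 := fun p i j =>
    ((coord_le (v i - v j) p).trans (hv.2 i j).le).trans hδ'
  have b5 : ∀ i, |v i 5| ≤ 1 / 10 := by
    intro i
    have := near_all hv (fun w => w 5) (hco 5)
      ((s5_close (v := v 2) (v' := v 3) n2).trans ((hv.2 2 3).le.trans hδ')) i
    linarith
  have b6 : ∀ i, |v i 6| ≤ 1 / 10 := by
    intro i
    have := near_all hv (fun w => w 6) (hco 6)
      ((s6_close (v := v 3) (v' := v 4) n3).trans ((hv.2 3 4).le.trans hδ')) i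
    linarith
  have hT : ∀ i j, 1 - ⟪topv (v i), topv (v j)⟫ ^ 2 ≤ (1 / 100) ^ 2 / 8 := fun i j =>
    (top_close (hv.1 i) (hv.1 j) (b5 i) (by linarith [(abs_le.1 (a2 i)).1]) (isTop_topv _)
      (isTop_topv _)).trans (by linarith [(hv.2 i j).le])
  have hB : ∀ i j, 1 - ⟪botv (v i), botv (v j)⟫ ^ 2 ≤ (1 / 100) ^ 2 / 8 := fun i j =>
    (bot_close (hv.1 i) (hv.1 j) (b6 i) (abs_le.1 (a2 i)).2 (isBot_botv _)
      (isBot_botv _)).trans (by linarith [(hv.2 i j).le])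
  have hT' : ∀ (p q : Fin 3) i j, |topv (v i) p * topv (v i) q - topv (v j) p * topv (v j) q| ≤ 1 / 100 :=
    fun p q i j => line_close (isTop_topv _).1 (isTop_topv _).1 (by norm_num) (hT i j) p q
  have hB' : ∀ (p q : Fin 3) i j, |botv (v i) p * botv (v i) q - botv (v j) p * botv (v j) q| ≤ 1 / 100 :=
    fun p q i j => line_close (isBot_botv _).1 (isBot_botv _).1 (by norm_num) (hB i j) p q
  have d1 : ∀ i, |botv (v i) 0 * botv (v i) 2| ≤ 1 / 50 := by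
    intro i
    have := near_all hv (fun w => botv w 0 * botv w 2) (hB' 0 2)
      ((sgn_close (x := botv (v 4) 0 * botv (v 4) 2) (y := botv (v 5) 0 * botv (v 5) 2)
        (a := g1 (v 4)) (b := g1 (v 5)) rfl rfl n4).trans (hB' 0 2 4 5)) i
    linarith
  have d2 : ∀ i, |botv (v i) 1 * botv (v i) 2| ≤ 1 / 50 := by
    intro i
    have := near_all hv (fun w => botv w 1 * botv w 2) (hB' 1 2)
      ((sgn_close (x := botv (v 5) 1 * botv (v 5) 2) (y := botv (v 6) 1 * botv (v 6) 2)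
        (a := g2 (v 5)) (b := g2 (v 6)) rfl rfl n5).trans (hB' 1 2 5 6)) i
    linarith
  have d3 : ∀ i, |topv (v i) 0 * topv (v i) 1| ≤ 1 / 50 := by
    intro i
    have := near_all hv (fun w => topv w 0 * topv w 1) (hT' 0 1)
      ((sgn_close (x := topv (v 6) 0 * topv (v 6) 1) (y := topv (v 7) 0 * topv (v 7) 1)
        (a := g3 (v 6)) (b := g3 (v 7)) rfl rfl n6).trans (hT' 0 1 6 7)) i
    linarith
  have hdi : ∀ i, botv (v i) 2 ^ 2 < 1 / 4 ∨ (3 / 4 < botv (v i) 2 ^ 2 ∧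
      (topv (v i) 1 ^ 2 < 1 / 4 ∨ 3 / 4 < topv (v i) 1 ^ 2)) := fun i =>
    dichotomy (isTop_topv _).1 (isBot_botv _).1
      (top_bot_orth (hv.1 i) (b5 i) (b6 i) (a2 i) (isTop_topv _) (isBot_botv _)) (d1 i) (d2 i) (d3 i)
  have e1 := abs_le.1 (hB' 2 2 0 1)
  have e2 := abs_le.1 (hT' 1 1 0 1)
  have e3 : botv (v 0) 2 * botv (v 0) 2 = botv (v 0) 2 ^ 2 := by ring
  have e4 : botv (v 1) 2 * botv (v 1) 2 = botv (v 1) 2 ^ 2 := by ring
  have e5 : topv (v 0) 1 * topv (v 0) 1 = topv (v 0) 1 ^ 2 := by ring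
  have e6 : topv (v 1) 1 * topv (v 1) 1 = topv (v 1) 1 ^ 2 := by ring
  rw [e3, e4] at e1
  rw [e5, e6] at e2
  have hiff : (1 / 2 < botv (v 1) 2 ^ 2 ∧ 1 / 2 < topv (v 1) 1 ^ 2) ↔
      (1 / 2 < botv (v 0) 2 ^ 2 ∧ 1 / 2 < topv (v 0) 1 ^ 2) := by
    rcases hdi 0 with c0 | ⟨c0, c0'⟩
    · constructor <;> rintro ⟨f1, f2⟩
      · exfalso; linarith [e1.1, e1.2]
      · exfalso; linarith [e1.1, e1.2]
    · rcases c0' with c0' | c0'
      · constructor <;> rintro ⟨f1, f2⟩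
        · exfalso; linarith [e2.1, e2.2]
        · exfalso; linarith [e2.1, e2.2]
      · refine ⟨fun _ => ⟨by linarith, by linarith⟩, fun _ => ⟨by linarith [e1.1, e1.2], by linarith [e2.1, e2.2]⟩⟩
  simp only [indN, hiff]

theorem local_Q : ∃ δ : ℝ, 0 < δ ∧ ∀ v : ℕ → E6, Sm δ v → ∀ h : ℝ, |h| ≤ 3 / 10 →
    cobd 6 (wQ h) v = 0 ∧ (wQ h v ≠ 0 → |HH (v 0) - h| < 1 / 100) := by
  obtain ⟨C, hC0, hC⟩ := HH_lip
  refine ⟨min (1 / 2000000) (1 / 200 / C), lt_min (by norm_num) (by positivity), ?_⟩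
  intro v hv h hh
  have hδ : C * min (1 / 2000000) (1 / 200 / C) ≤ 1 / 200 := by
    calc C * min (1 / 2000000) (1 / 200 / C) ≤ C * (1 / 200 / C) :=
          mul_le_mul_of_nonneg_left (min_le_right _ _) hC0.le
      _ = 1 / 200 := by field_simp
  constructor
  · rw [cobd_wQ]
    by_cases hne : cQ h (fun j => v (j + 1)) = 0
    · rw [hne, mul_zero]
    · rw [ind_eq hC hC0 hδ (min_le_left _ _) hv hh hne, sub_self, zero_mul]
  · intro hne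
    have h1 : cQ h v ≠ 0 := by
      intro h0
      apply hne
      rw [wQ_eq]
      show indN (v 0) * cQ h (fun j => v (j + 0)) = 0
      simp only [add_zero, h0, mul_zero]
    have h2 := (cQ_ne h1).1
    have h3 := hi_close (v := v 0) (v' := v 1) h2
    have h4 := hC _ _ (hv.1 0) (hv.1 1)
    have h5 := mul_le_mul_of_nonneg_left (hv.2 0 1).le hC0.le
    linarith

end Pool.Agent.Helper76.Freq
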