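import Pool.Agent.Helper76.Freq.DetDefs
import Pool.Agent.Helper76.Freq.LoopA

/-!
# Detection of homology classes by discrete cochains
-/

set_option autoImplicit false

namespace Pool.Agent.Helper76.Freq

/-! ### fine grids -/

theorem abs_gr_sub_le {M k a b : ℕ} (hk : k < M) (ha : a ≤ 1) (hb : b ≤ 1) :
    |((gr M (k + a) : unitInterval) : ℝ) - (gr M (k + b) : unitInterval)| ≤ 1 / M := by
  have hM : (0 : ℝ) < M := by exact_mod_cast (Nat.zero_le k).trans_lt hk
  rw [coe_gr (by omega), coe_gr (by omega), ← sub_div, abs_div, abs_of_pos hM,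
    div_le_div_iff_of_pos_right hM]
  push_cast
  have ha' : (a : ℝ) ≤ 1 := by exact_mod_cast ha
  have hb' : (b : ℝ) ≤ 1 := by exact_mod_cast hb
  have ha0 : (0 : ℝ) ≤ a := Nat.cast_nonneg a
  have hb0 : (0 : ℝ) ≤ b := Nat.cast_nonneg b
  rw [abs_le]
  constructor <;> linarith

/-- fine grids of continuous cubes give small sequences of discrete paths -/
theorem small_grid {n d : ℕ} (T : TopologicalSpace (Loop n)) (hT : Natural T)
    (c : Cube (Loop n) d) (hc : Continuous c) {δ : ℝ} (hδ : 0 < δ) :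
    ∃ m₀ : ℕ, ∀ M N : ℕ, m₀ ≤ M → m₀ ≤ N → ∀ k pos : ℕ → ℕ, Adm d (fun _ => M) k pos →
      SmT (cls δ) (fun j => dcube N c (gp d (fun _ => M) k pos j)) := by
  obtain ⟨η, hη, h⟩ := uniform_of_continuous T hT c hc hδ
  obtain ⟨m, hm⟩ := exists_nat_gt (1 / η)
  refine ⟨m + 1, fun M N hM hN k pos hk => ?_⟩
  have key : ∀ m' : ℕ, m + 1 ≤ m' → 1 / (m' : ℝ) < η := by
    intro m' hm'
    have h1 : (m : ℝ) + 1 ≤ m' := by exact_mod_cast hm'
    have h2 : 1 / η < m' := by linarith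
    have h3 : (0 : ℝ) < m' := lt_trans (by positivity) h2
    rw [div_lt_iff₀ h3]
    rwa [div_lt_iff₀ hη, mul_comm] at h2
  have hMη := key M hM
  have hNη := key N hN
  have hs : ∀ i j : ℕ, ∀ l : Fin d, |((gp d (fun _ => M) k pos i l : unitInterval) : ℝ) -
      (gp d (fun _ => M) k pos j l : unitInterval)| < η := by
    intro i j l
    refine lt_of_le_of_lt ?_ hMη
    simp only [gp, l.2, if_true]
    refine abs_gr_sub_le (hk.cell l l.2) ?_ ?_ <;> split_ifs <;> omega
  have hN0 : (0 : ℝ) < N := by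
    have : 0 < N := by omega
    exact_mod_cast this
  have ht1 : ∀ I : ℕ, |(I : ℝ) / N - (I : ℝ) / N| < η := by
    intro I
    rw [sub_self, abs_zero]
    exact hη
  have ht2 : ∀ I : ℕ, |(I : ℝ) / N - ((I + 1 : ℕ) : ℝ) / N| < η := by
    intro I
    have : (I : ℝ) / N - ((I + 1 : ℕ) : ℝ) / N = -(1 / N) := by
      push_cast
      ring
    rw [this, abs_neg, abs_of_pos (by positivity)]
    exact hNη
  have ht3 : ∀ I : ℕ, |((I + 1 : ℕ) : ℝ) / N - (I : ℝ) / N| < η := by
    intro I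
    rw [abs_sub_comm]
    exact ht2 I
  intro i j I
  exact ⟨⟨Loop.norm_eq _ _, Loop.norm_eq _ _, h _ _ (hs i j) _ _ (ht1 I)⟩,
    ⟨Loop.norm_eq _ _, Loop.norm_eq _ _, h _ _ (hs i j) _ _ (ht2 I)⟩,
    ⟨Loop.norm_eq _ _, Loop.norm_eq _ _, h _ _ (hs i j) _ _ (ht3 I)⟩⟩

theorem dcube_periodic {n d : ℕ} {N : ℕ} (hN : 0 < N) (c : Cube (Loop n) d) (x : Q) (I : ℕ) :
    dcube N c x (I + N) = dcube N c x I := by
  have hN0 : (N : ℝ) ≠ 0 := by exact_mod_cast hN.ne'
  unfold dcube
  have : ((I + N : ℕ) : ℝ) / N = (I : ℝ) / N + 1 := by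
    push_cast
    field_simp
  rw [this, Loop.periodic]

theorem insertNth_eq_ins {d : ℕ} (i : Fin (d + 1)) (e : unitInterval) (x : Q) :
    Fin.insertNth (α := fun _ => unitInterval) i e (fun j : Fin d => x j) =
      fun j : Fin (d + 1) => ins i e x j := by
  funext j
  change Fin.insertNth (α := fun _ => unitInterval) i e (fun j : Fin d => x j) j =
    if (j : ℕ) < (i : ℕ) then x j else if (j : ℕ) = (i : ℕ) then e else x ((j : ℕ) - 1)
  have hj := j.2
  have hi := i.2
  by_cases h1 : (j : ℕ) < (i : ℕ)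
  · rw [if_pos h1]
    have : j = i.succAbove ⟨j, by omega⟩ := by
      rw [Fin.succAbove_of_castSucc_lt]
      · rfl
      · exact h1
    rw [this, Fin.insertNth_apply_succAbove, ← this]
  · by_cases h2 : (j : ℕ) = (i : ℕ)
    · rw [if_neg h1, if_pos h2]
      have : j = i := Fin.ext h2
      rw [this, Fin.insertNth_apply_same]
    · rw [if_neg h1, if_neg h2]
      have : j = i.succAbove ⟨j - 1, by omega⟩ := by
        rw [Fin.succAbove_of_le_castSucc]
        · apply Fin.ext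
          change (j : ℕ) = j - 1 + 1
          omega
        · change (i : ℕ) ≤ j - 1
          omega
      rw [this, Fin.insertNth_apply_succAbove, ← this]

theorem dcube_face {n d : ℕ} (N : ℕ) (c : Cube (Loop n) (d + 1)) (i : Fin (d + 1))
    (e : unitInterval) : dcube N (fun s : Fin d → unitInterval =>
      c (Fin.insertNth (α := fun _ => unitInterval) i e s)) = fun x => dcube N c (ins i e x) := by
  funext x I
  unfold dcube
  beta_reduce
  rw [insertNth_eq_ins]

/-! ### linearity of the evaluation -/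

theorem EvF_eq {n : ℕ} {G : Type*} [Field G] (d M N : ℕ) (Φ : (ℕ → ℕ → E n) → G)
    (z : Cube (Loop n) d →₀ G) : EvF d M N Φ z =
      Finsupp.linearCombination G (fun c => ev d (fun _ => M) Φ (dcube N c)) z := by
  rw [Finsupp.linearCombination_apply]
  rfl

theorem EvF_eq_zero {n : ℕ} {G : Type*} [Field G] {d M N : ℕ} {Φ : (ℕ → ℕ → E n) → G}
    {z : Cube (Loop n) d →₀ G} (h : ∀ c ∈ z.support, ev d (fun _ => M) Φ (dcube N c) = 0) :
    EvF d M N Φ z = 0 := by
  unfold EvF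
  refine Finset.sum_eq_zero fun c hc => ?_
  change z c * _ = 0
  rw [h c hc, mul_zero]

/-- the evaluation vanishes on the boundary of a chain of small cubes -/
theorem EvF_bdry {n d : ℕ} {G : Type*} [Field G] {M N : ℕ} {Φ : (ℕ → ℕ → E n) → G} (hM : 0 < M)
    (hΦ : Dep d Φ) (b : Cube (Loop n) (d + 1) →₀ G)
    (h : ∀ c ∈ b.support, ∀ k pos : ℕ → ℕ, Adm (d + 1) (fun _ => M) k pos →
      cobd d Φ (fun j => dcube N c (gp (d + 1) (fun _ => M) k pos j)) = 0) :
    EvF d M N Φ (bdry (Loop n) G d b) = 0 := by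
  rw [EvF_eq, bdry, Finsupp.apply_linearCombination, Finsupp.linearCombination_apply]
  refine Finset.sum_eq_zero fun c hc => ?_
  have h1 : (⇑(Finsupp.linearCombination G fun c => ev d (fun _ => M) Φ (dcube N c)) ∘
      fun c : Cube (Loop n) (d + 1) => ∑ i : Fin (d + 1), (-1 : G) ^ (i : ℕ) •
        (Finsupp.single (fun s => c (Fin.insertNth i 1 s)) (1 : G) -
          Finsupp.single (fun s => c (Fin.insertNth i 0 s)) (1 : G))) c = 0 := by
    simp only [Function.comp, map_sum, map_smul, map_sub, Finsupp.linearCombination_single,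
      one_mul, dcube_face, smul_eq_mul]
    have h2 := stokes_closed hM hΦ (dcube N c) (h c hc)
    rw [Finset.sum_range] at h2
    exact h2
  beta_reduce
  rw [h1, smul_zero]

/-- the evaluation vanishes on degenerate chains -/
theorem EvF_degen {n d : ℕ} {G : Type} [Field G] [TopologicalSpace (Loop n)] {M N : ℕ}
    {Φ : (ℕ → ℕ → E n) → G} (hΦ : Nrm d Φ) {S : Set (Loop n)} (g : Cube (Loop n) d →₀ G)
    (hg : g ∈ degen (Loop n) G S d) : EvF d M N Φ g = 0 := by
  refine EvF_eq_zero fun c hc => ?_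
  obtain ⟨-, i, hi⟩ := hg (Finset.mem_coe.2 hc)
  refine ev_degenerate hΦ i.2 fun x x' hx => ?_
  unfold dcube
  rw [hi (fun j => x j) (fun j => x' j) fun j hj => hx j fun h => hj (Fin.ext h)]

theorem exists_uniform {α : Type*} (s : Finset α) (P : α → ℕ → Prop)
    (hP : ∀ a m m', m ≤ m' → P a m → P a m') (h : ∀ a ∈ s, ∃ m, P a m) : ∃ m, ∀ a ∈ s, P a m := by
  classical
  induction s using Finset.induction_on with
  | empty => exact ⟨0, by simp⟩
  | insert a s ha ih =>
    obtain ⟨m, hm⟩ := ih fun b hb => h b (Finset.mem_insert_of_mem hb)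
    obtain ⟨m', hm'⟩ := h a (Finset.mem_insert_self a s)
    refine ⟨max m m', fun b hb => ?_⟩
    rcases Finset.mem_insert.1 hb with rfl | hb
    · exact hP _ _ _ (le_max_right _ _) hm'
    · exact hP _ _ _ (le_max_left _ _) (hm b hb)

theorem cycles_le_chains {X : Type*} [TopologicalSpace X] {G : Type*} [Field G] (S : Set X)
    (d : ℕ) : cycles X G S d ≤ chains X G S d := by
  cases d with
  | zero => exact le_refl _
  | succ d => exact inf_le_left

theorem detect {n d : ℕ} {G : Type} [Field G] (T : TopologicalSpace (Loop n)) (hT : Natural T)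
    (Φ : ℕ → (ℕ → ℕ → E n) → G) {δ : ℝ} (hδ : 0 < δ)
    (hdep : ∀ N, Dep d (Φ N)) (hnrm : ∀ N, Nrm d (Φ N))
    (hclosed : ∀ N, 0 < N → ∀ y : ℕ → ℕ → E n, SmT (cls δ) y → (∀ j I, y j (I + N) = y j I) →
      cobd d (Φ N) y = 0)
    (S : Set (Loop n)) {z z' : Cube (Loop n) d →₀ G} (hz' : z' ∈ cycles (Loop n) G S d)
    (hzz : z' - z ∈ bounds (Loop n) G Set.univ d)
    (hev : ∀ m₀ : ℕ, ∃ M N : ℕ, m₀ ≤ M ∧ m₀ ≤ N ∧ EvF d M N (Φ N) z ≠ 0) {δ' : ℝ} (hδ' : 0 < δ') :
    ∃ (N : ℕ) (y : ℕ → ℕ → E n) (γ : Loop n), 0 < N ∧ γ ∈ S ∧ SmT (cls δ') y ∧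
      (∀ I, y 0 I = γ.toFun ((I : ℝ) / N)) ∧ (∀ j I, y j (I + N) = y j I) ∧ Φ N y ≠ 0 := by
  obtain ⟨b', hb', g, hg, hbg⟩ := Submodule.mem_sup.1 hzz
  obtain ⟨b, hb, rfl⟩ := (Submodule.mem_map).1 hb'
  have hz'c := cycles_le_chains S d hz'
  obtain ⟨m₁, hm₁⟩ := exists_uniform z'.support (fun c m => ∀ M N : ℕ, m ≤ M → m ≤ N →
    ∀ k pos : ℕ → ℕ, Adm d (fun _ => M) k pos →
      SmT (cls δ') (fun j => dcube N c (gp d (fun _ => M) k pos j)))
    (fun c m m' hm h M N hM hN => h M N (hm.trans hM) (hm.trans hN))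
    (fun c hc => small_grid T hT c (hz'c (Finset.mem_coe.2 hc)).1 hδ')
  obtain ⟨m₂, hm₂⟩ := exists_uniform b.support (fun c m => ∀ M N : ℕ, m ≤ M → m ≤ N →
    ∀ k pos : ℕ → ℕ, Adm (d + 1) (fun _ => M) k pos →
      SmT (cls δ) (fun j => dcube N c (gp (d + 1) (fun _ => M) k pos j)))
    (fun c m m' hm h M N hM hN => h M N (hm.trans hM) (hm.trans hN))
    (fun c hc => small_grid T hT c (hb (Finset.mem_coe.2 hc)).1 hδ)
  obtain ⟨M, N, hM, hN, hne⟩ := hev (m₁ + m₂ + 1)
  have hM0 : 0 < M := by omega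
  have hN0 : 0 < N := by omega
  have h1 : EvF d M N (Φ N) (bdry (Loop n) G d b) = 0 := by
    refine EvF_bdry hM0 (hdep N) b fun c hc k pos hk => ?_
    exact hclosed N hN0 _ (hm₂ c hc M N (by omega) (by omega) k pos hk)
      fun j I => dcube_periodic hN0 c _ I
  have h2 : EvF d M N (Φ N) g = 0 := EvF_degen (hnrm N) g hg
  have h3 : EvF d M N (Φ N) z' = EvF d M N (Φ N) z := by
    have h4 : z' = z + (bdry (Loop n) G d b + g) := by rw [hbg]; abel
    rw [EvF_eq] at h1 h2 ⊢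
    rw [EvF_eq, h4, map_add, map_add, h1, h2, add_zero, add_zero]
  rw [← h3] at hne
  obtain ⟨c, hc, hne'⟩ : ∃ c ∈ z'.support, ev d (fun _ => M) (Φ N) (dcube N c) ≠ 0 := by
    by_contra hcon
    push Not at hcon
    exact hne (EvF_eq_zero hcon)
  obtain ⟨k, pos, hk, hΦ⟩ := exists_path hne'
  exact ⟨N, fun j => dcube N c (gp d (fun _ => M) k pos j),
    c (fun i => gp d (fun _ => M) k pos 0 i), hN0, (hz'c (Finset.mem_coe.2 hc)).2 _,
    hm₁ c hc M N (by omega) (by omega) k pos hk, fun I => rfl,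
    fun j I => dcube_periodic hN0 c _ I, hΦ⟩

/-- evaluation on the restriction of a chain of bundled cubes -/
theorem EvF_res {n d : ℕ} {G : Type} [Field G] {Y : Type} [TopologicalSpace Y] (M N : ℕ)
    (Φ : (ℕ → ℕ → E n) → G) (f : Y → Loop n) (w : C(Q, Y) →₀ G) :
    EvF d M N Φ (res d f w) = EvC d M (fun y => Φ (fun j I => (f (y j)).toFun ((I : ℝ) / N))) w := by
  induction w using Finsupp.induction_linear with
  | zero =>
    rw [EvC_zero]
    unfold res
    rw [Finsupp.mapDomain_zero]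
    rfl
  | add a b ha hb => rw [res_add, EvC_add, ← ha, ← hb, EvF_eq, EvF_eq, EvF_eq, map_add]
  | single c r =>
    rw [res_single, EvC_single, EvF_eq, Finsupp.linearCombination_single, smul_eq_mul]
    congr 1
    rw [ev_pull (fun (y : Y) (I : ℕ) => (f y).toFun ((I : ℝ) / N)) Φ c]
    refine ev_congr_cube fun x hx => ?_
    have h : ext d (fun i : Fin d => x i) = x := by
      funext l
      unfold ext
      split_ifs with hl
      · rfl
      · exact (hx l (not_lt.1 hl)).symm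
    funext I
    change (f (c (ext d (fun i : Fin d => x i)))).toFun _ = (f (c x)).toFun _
    rw [h]

end Pool.Agent.Helper76.Freq
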