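import Pool.Agent.Helper76.Freq.Fam
import Pool.Agent.Helper76.Freq.Ver
import Pool.Agent.Helper76.Freq.Detect

/-!
# Letters at levels of `HH`, detection of loops which cross the levels many times
-/

set_option autoImplicit false

namespace Pool.Agent.Helper76.Freq

open Finset

/-- letters with support near the level `h` -/
structure Lev {G : Type} [Field G] (δ : ℝ) (ℓ : Lt E6 G) (h : ℝ) : Prop where
  dep : Dep (ℓ.1 + 1) ℓ.2
  nrm : Nrm (ℓ.1 + 1) ℓ.2
  pos : 0 < ℓ.1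
  closed : ClosedOn (cls δ) (ℓ.1 + 1) ℓ.2
  supp : ∀ v, Sml (cls δ) v → ℓ.2 v ≠ 0 → |HH (v 0) - h| < 1 / 100

/-- `HH` varies by less than `1 / 100` on `δ`-close vectors -/
def LipOK (δ : ℝ) : Prop := 0 < δ ∧ ∀ u v : E6, cls δ u v → |HH u - HH v| < 1 / 100

theorem exists_lipOK : ∃ δ₀ : ℝ, 0 < δ₀ ∧ ∀ δ, 0 < δ → δ ≤ δ₀ → LipOK δ := by
  obtain ⟨C, hC, h⟩ := HH_lip
  refine ⟨1 / (100 * C), by positivity, fun δ h1 h2 => ⟨h1, fun u v huv => ?_⟩⟩
  obtain ⟨hu, hv, huv'⟩ := huv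
  have h3 := h u v hu hv
  have h4 : C * ‖u - v‖ < C * δ := mul_lt_mul_of_pos_left huv' hC
  have h5 : C * δ ≤ C * (1 / (100 * C)) := mul_le_mul_of_nonneg_left h2 hC.le
  have h6 : C * (1 / (100 * C)) = 1 / 100 := by field_simp
  linarith

variable {G : Type} [Field G] {δ : ℝ}

theorem Lev.disj (hδ : LipOK δ) {ℓ ℓ' : Lt E6 G} {h h' : ℝ} (L : Lev δ ℓ h) (L' : Lev δ ℓ' h')
    (hh : 1 / 20 ≤ |h - h'|) : Disj (cls δ) ℓ.2 ℓ'.2 := by
  intro v v' hv hv' hvv' _
  by_contra hcon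
  push Not at hcon
  have h1 := L.supp v hv hcon.1
  have h2 := L'.supp v' hv' hcon.2
  have h3 := hδ.2 _ _ (hvv' 0 0)
  rw [abs_lt] at h1 h2 h3
  have h4 : |h - h'| < 1 / 20 := by
    rw [abs_lt]
    constructor <;> linarith [h1.1, h1.2, h2.1, h2.2, h3.1, h3.2]
  linarith

theorem good_rep (hδ : LipOK δ) {a b : Lt E6 G} {ha hb : ℝ} (La : Lev δ a ha) (Lb : Lev δ b hb)
    (hab : 1 / 20 ≤ |ha - hb|) (k : ℕ) :
    Good (cls δ) (List.replicate k [a, b]).flatten ∧
      Good (cls δ) (b :: (List.replicate k [a, b]).flatten) := by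
  induction k with
  | zero => exact ⟨Good.nil, Good.single b Lb.dep Lb.closed⟩
  | succ k ih =>
    have h1 : Good (cls δ) (List.replicate (k + 1) [a, b]).flatten :=
      Good.cons a b _ La.dep La.closed (La.disj hδ Lb hab) ih.2
    refine ⟨h1, ?_⟩
    exact Good.cons b a _ Lb.dep Lb.closed (Lb.disj hδ La (by rwa [abs_sub_comm])) h1

theorem rep_get (a b : Lt E6 G) (k : ℕ) {i : ℕ} (hi : i < k) :
    (List.replicate k [a, b]).flatten[2 * i]? = some a ∧
      (List.replicate k [a, b]).flatten[2 * i + 1]? = some b := by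
  induction k generalizing i with
  | zero => omega
  | succ k ih =>
    have e : (List.replicate (k + 1) [a, b]).flatten = a :: b :: (List.replicate k [a, b]).flatten := rfl
    rw [e]
    rcases i with _ | i
    · simp
    · have := ih (i := i) (by omega)
      rw [show 2 * (i + 1) = 2 * i + 1 + 1 by ring]
      simpa using this

theorem rep_len (a b : Lt E6 G) (k : ℕ) : (List.replicate k [a, b]).flatten.length = 2 * k := by
  induction k with
  | zero => rfl
  | succ k ih =>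
    have e : (List.replicate (k + 1) [a, b]).flatten = a :: b :: (List.replicate k [a, b]).flatten := rfl
    rw [e, List.length_cons, List.length_cons, ih]
    ring

theorem rep_wd (a b : Lt E6 G) (k : ℕ) :
    wd (List.replicate k [a, b]).flatten = k * (a.1 + b.1) := by
  induction k with
  | zero => simp
  | succ k ih =>
    have e : (List.replicate (k + 1) [a, b]).flatten = a :: b :: (List.replicate k [a, b]).flatten := rfl
    rw [e, wd_cons, wd_cons, ih]
    ring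

theorem rep_mem (a b : Lt E6 G) (k : ℕ) : ∀ ℓ ∈ (List.replicate k [a, b]).flatten, ℓ = a ∨ ℓ = b := by
  intro ℓ hℓ
  rw [List.mem_flatten] at hℓ
  obtain ⟨l, hl, hℓ⟩ := hℓ
  rw [List.eq_of_mem_replicate hl] at hℓ
  simpa using hℓ

/-- the value of `HH` at the time of a hit -/
theorem hit_level (hδ : LipOK δ) {ℓ : Lt E6 G} {h : ℝ} (L : Lev δ ℓ h) {y : ℕ → ℕ → E6}
    (hy : SmT (cls δ) y) {I : ℕ} (hI : Hit y ℓ I) : |HH (y 0 I) - h| < 1 / 50 := by
  obtain ⟨v, hv, hv0⟩ := hI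
  have h1 := L.supp v (fun i j => hy.from hv hv i j) hv0
  have h2 := hδ.2 _ _ (hy.from (From.left y I) hv 0 0)
  rw [abs_lt] at h1 h2 ⊢
  constructor <;> linarith [h1.1, h1.2, h2.1, h2.2]

theorem detect_fam {m V : ℕ} {P : Type} [TopologicalSpace P] [Nonempty P] (F : Fam m V P)
    (T : TopologicalSpace (Loop 6)) (hT : Natural T) {z : C(Q, P) →₀ G}
    (hδ : LipOK δ) {ℓ₀ a b : Lt E6 G} {h₀ ha hb : ℝ}
    (L0 : Lev δ ℓ₀ h₀) (La : Lev δ a ha) (Lb : Lev δ b hb)
    (h1 : 1 / 20 ≤ |h₀ - ha|) (h2 : 1 / 20 ≤ |ha - hb|) (h3 : 1 / 20 ≤ |hb - h₀|) {k : ℕ} (hk : 0 < k)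
    (hwd : ℓ₀.1 + k * (a.1 + b.1) = 5 * m)
    (hev : ∀ m₀ : ℕ, ∃ M k' : ℕ, m₀ ≤ M ∧ m₀ ≤ k' ∧ EvF (5 * m) M (m * (V * k'))
      (Th ℓ₀ (List.replicate k [a, b]).flatten (m * (V * k'))) (F.cyc z) ≠ 0)
    (S : Set (Loop 6)) {z' : Cube (Loop 6) (5 * m) →₀ G} (hz' : z' ∈ cycles (Loop 6) G S (5 * m))
    (hzz : z' - F.cyc z ∈ bounds (Loop 6) G Set.univ (5 * m)) :
    ∃ (γ : Loop 6) (t : ℕ → ℝ), γ ∈ S ∧ (∀ i < 2 * k, t i ≤ t (i + 1)) ∧ t (2 * k) ≤ t 0 + 1 ∧
      ∀ i < k, |HH (γ.toFun (t (2 * i + 1))) - ha| < 1 / 50 ∧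
        |HH (γ.toFun (t (2 * i + 2))) - hb| < 1 / 50 := by
  set L := (List.replicate k [a, b]).flatten with hL
  have hLlen : L.length = 2 * k := rep_len a b k
  have hne : L ≠ [] := by
    intro h
    rw [h, List.length_nil] at hLlen
    omega
  have hhead : L.head hne = a := by
    have := (rep_get a b k hk).1
    rw [← hL, List.getElem?_eq_getElem (by omega)] at this
    rw [List.head_eq_getElem]
    simpa using this
  have hlast : L.getLast hne = b := by
    have := (rep_get a b k (i := k - 1) (by omega)).2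
    rw [← hL, List.getElem?_eq_getElem (by omega)] at this
    rw [List.getLast_eq_getElem]
    have e : L.length - 1 = 2 * (k - 1) + 1 := by omega
    simp only [e]
    simpa using this
  have hwd' : ℓ₀.1 + wd L = 5 * m := by rw [hL, rep_wd]; exact hwd
  have hdepL : ∀ ℓ ∈ L, Dep (ℓ.1 + 1) ℓ.2 := fun ℓ hℓ => by
    rcases rep_mem a b k ℓ hℓ with rfl | rfl
    · exact La.dep
    · exact Lb.dep
  have hnrmL : ∀ ℓ ∈ L, Nrm (ℓ.1 + 1) ℓ.2 := fun ℓ hℓ => by
    rcases rep_mem a b k ℓ hℓ with rfl | rfl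
    · exact La.nrm
    · exact Lb.nrm
  obtain ⟨p⟩ := ‹Nonempty P›
  have hV : 0 < V := (F.valid 0 p).1
  have hm : 0 < m := F.hm
  obtain ⟨N, y, γ, hN, hγ, hy, hyγ, hper, hne0⟩ := detect T hT (fun N => Th ℓ₀ L N) hδ.1
    (fun N => hwd' ▸ Th_dep L0.dep hdepL N) (fun N => hwd' ▸ Th_nrm L0.nrm hnrmL N)
    (fun N hN y hy hper => by
      have := cobd_Th (good_rep hδ La Lb h2 k).1 hne L0.dep L0.closed
        (by rw [hhead]; exact L0.disj hδ La h1) (by rw [hlast]; exact Lb.disj hδ L0 h3) hN hy hper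
      rwa [hwd'] at this) S hz' hzz (fun m₀ => by
      obtain ⟨M, k', hM, hk', hne⟩ := hev m₀
      refine ⟨M, m * (V * k'), hM, hk'.trans ?_, hne⟩
      calc k' = 1 * (1 * k') := by ring
        _ ≤ m * (V * k') := Nat.mul_le_mul hm (Nat.mul_le_mul_right _ hV)) hδ.1
  obtain ⟨t, ht1, ht2, ht3⟩ := exists_times_Th hne0
  rw [List.length_cons, hLlen] at ht1 ht2
  have hNr : (0 : ℝ) < N := by exact_mod_cast hN
  refine ⟨γ, fun i => (t i : ℝ) / N, hγ, fun i hi => ?_, ?_, fun i hi => ?_⟩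
  · have := ht1 i (by omega)
    exact div_le_div_of_nonneg_right (by exact_mod_cast this.le) hNr.le
  · have h4 := ht2 (2 * k) (by omega)
    have h5 : (t (2 * k) : ℝ) ≤ t 0 + N := by exact_mod_cast h4.le
    show (t (2 * k) : ℝ) / N ≤ (t 0 : ℝ) / N + 1
    rw [div_add_one hNr.ne']
    exact div_le_div_of_nonneg_right h5 hNr.le
  · have g := rep_get a b k hi
    rw [← hL, List.getElem?_eq_getElem (by omega), List.getElem?_eq_getElem (by omega)] at g
    have g1 : (ℓ₀ :: L)[2 * i + 1]'(by rw [List.length_cons]; omega) = a := by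
      rw [List.getElem_cons_succ]
      simpa using g.1
    have g2 : (ℓ₀ :: L)[2 * i + 2]'(by rw [List.length_cons]; omega) = b := by
      rw [List.getElem_cons_succ]
      simpa using g.2
    have k1 := ht3 (2 * i + 1) (by rw [List.length_cons]; omega)
    have k2 := ht3 (2 * i + 2) (by rw [List.length_cons]; omega)
    rw [g1] at k1
    rw [g2] at k2
    refine ⟨?_, ?_⟩
    · rw [← hyγ]
      exact hit_level hδ La hy k1
    · rw [← hyγ]
      exact hit_level hδ Lb hy k2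

end Pool.Agent.Helper76.Freq
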