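import Pool.Agent.Helper76.Freq.FamQ
import Pool.Agent.Helper76.Freq.Lev
import Pool.Agent.Helper76.Freq.LetQ
import Pool.Agent.Helper76.Freq.EvQ
import Pool.Agent.Helper76.Freq.LenQ

/-!
# The rational classes
-/

set_option autoImplicit false

namespace Pool.Agent.Helper76.Freq

open Finset

/-- the sign of the evaluation on the block `b` -/
def sgQ (m b : ℕ) : ℚ := if kap m b = 1 then 1 else -1

theorem EB_famQ {h : ℝ} (hh : |h| ≤ 1 / 20) (m : ℕ) (hm : Odd m) (hm3 : 3 ≤ m) : ∃ m₀ n₀ : ℕ,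
    ∀ M k : ℕ, Odd M → m₀ ≤ M → n₀ ≤ k → ∀ b,
      0 < sgQ m b * EB ((famQ m hm hm3).dpath k) (6 * k) 5 M zQ b [(5, wQ h)] := by
  obtain ⟨m₁, n₁, hmain⟩ := eval_Q_main hh
  obtain ⟨a0, b0, f0⟩ := eval_Q_filler hh 0 (by norm_num)
  obtain ⟨a1, b1, f1⟩ := eval_Q_filler hh 1 (by norm_num)
  obtain ⟨a2, b2, f2⟩ := eval_Q_filler hh 2 (by norm_num)
  refine ⟨max m₁ (max a0 (max a1 a2)), max n₁ (max b0 (max b1 b2)), fun M k hM hM' hk b => ?_⟩
  simp only [max_le_iff] at hM' hk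
  obtain ⟨g0, g1, g2⟩ := hmain M k hM hM'.1 hk.1
  have e : EB ((famQ m hm hm3).dpath k) (6 * k) 5 M zQ b [(5, wQ h)] =
      ev 6 (fun i => if i = 0 then 6 * k else M) (wQ h)
        (fun x => pathPt 6 (polQ (kap m b) (mC (sh 1 x))) (x 0)) -
      ev 6 (fun i => if i = 0 then 6 * k else M) (wQ h)
        (fun x => pathPt 6 (polQ (kap m b) (kC (sh 1 x))) (x 0)) := by
    rw [Fam.EB_single _ _ _ ⟨mC fun _ => 0⟩, zQ, Finsupp.sum_sub_index (fun _ _ _ => by ring),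
      Finsupp.sum_single_index (by ring), Finsupp.sum_single_index (by ring), one_mul, one_mul]
    rfl
  rw [e, sgQ]
  have hk3 : kap m b = 0 ∨ kap m b = 1 ∨ kap m b = 2 := by
    unfold kap
    split_ifs
    · simp
    · omega
  rcases hk3 with h0 | h0 | h0 <;> rw [h0]
  · rw [f0 M k hM'.2.1 hk.2.1]
    simpa using g0
  · rw [f1 M k hM'.2.2.1 hk.2.2.1]
    simpa using g1
  · rw [f2 M k hM'.2.2.2 hk.2.2.2]
    simpa using g2

theorem prE_sign {m : ℕ} {path : ℕ → PQ → ℕ → E6} {n M : ℕ} (H : Set ℝ)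
    (hpos : ∀ h ∈ H, ∀ b, 0 < sgQ m b * EB path n 5 M zQ b [(5, wQ h)])
    (Ls : List (List (Lt E6 ℚ))) (hLs : ∀ L ∈ Ls, ∃ h ∈ H, L = [(5, wQ h)]) (s : ℕ) :
    0 < (∏ i ∈ range Ls.length, sgQ m (s + i)) * prE path n 5 M zQ s Ls := by
  induction Ls generalizing s with
  | nil => simp [prE]
  | cons L Ls ih =>
    obtain ⟨h, hh, rfl⟩ := hLs L (by simp)
    have h1 := hpos h hh s
    have h2 := ih (fun L' hL' => hLs L' (by simp [hL'])) (s + 1)
    have e1 : (∏ i ∈ range ([((5 : ℕ), wQ h)] :: Ls).length, sgQ m (s + i)) =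
        sgQ m s * ∏ i ∈ range Ls.length, sgQ m (s + 1 + i) := by
      rw [List.length_cons, prod_range_succ', add_zero, mul_comm]
      congr 1
      refine prod_congr rfl fun i _ => ?_
      congr 1
      ring
    rw [e1, prE]
    have := mul_pos h1 h2
    calc 0 < _ := this
      _ = _ := by ring

instance nonempty_PQ : Nonempty PQ := ⟨mC fun _ => 0⟩

/-- the levels -/
def lvQ : Set ℝ := {0, 1 / 20, -1 / 20}

theorem lvQ_abs {h : ℝ} (hh : h ∈ lvQ) : |h| ≤ 1 / 20 := by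
  rcases hh with rfl | rfl | rfl
  · norm_num
  · rw [abs_of_nonneg] <;> norm_num
  · rw [abs_of_nonpos] <;> norm_num

/-- the first letter -/
noncomputable def l0Q : Lt E6 ℚ := (5, wQ 0)

/-- the letters with odd index -/
noncomputable def laQ : Lt E6 ℚ := (5, wQ (1 / 20))

/-- the letters with even index -/
noncomputable def lbQ : Lt E6 ℚ := (5, wQ (-1 / 20))

/-- the groups of letters -/
noncomputable def gsQ (j : ℕ) : List (List (Lt E6 ℚ)) := (List.replicate j [[laQ], [lbQ]]).flatten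

theorem gsQ_succ (j : ℕ) : gsQ (j + 1) = [laQ] :: [lbQ] :: gsQ j := rfl

theorem gsQ_flatten (j : ℕ) : (gsQ j).flatten = (List.replicate j [laQ, lbQ]).flatten := by
  induction j with
  | zero => rfl
  | succ j ih =>
    rw [gsQ_succ]
    show laQ :: lbQ :: (gsQ j).flatten = laQ :: lbQ :: (List.replicate j [laQ, lbQ]).flatten
    rw [ih]

theorem gsQ_length (j : ℕ) : (gsQ j).length = 2 * j := by
  induction j with
  | zero => rfl
  | succ j ih => rw [gsQ_succ, List.length_cons, List.length_cons, ih]; ring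

theorem gsQ_mem (j : ℕ) : ∀ L ∈ gsQ j, L = [laQ] ∨ L = [lbQ] := by
  induction j with
  | zero => intro L hL; exact absurd hL (by simp [gsQ])
  | succ j ih =>
    intro L hL
    rw [gsQ_succ, List.mem_cons, List.mem_cons] at hL
    rcases hL with h | h | h
    · exact Or.inl h
    · exact Or.inr h
    · exact ih L h

theorem ksQ_mem (j : ℕ) : ∀ L ∈ [l0Q] :: gsQ j, ∃ h ∈ lvQ, L = [((5 : ℕ), wQ h)] := by
  intro L hL
  rcases List.mem_cons.1 hL with h | h
  · exact ⟨0, by simp [lvQ], h⟩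
  · rcases gsQ_mem j L h with h | h
    · exact ⟨1 / 20, by simp [lvQ], h⟩
    · exact ⟨-1 / 20, by simp [lvQ], h⟩

theorem flat_mem (j : ℕ) : ∀ ℓ ∈ ([l0Q] :: gsQ j).flatten, ∃ h ∈ lvQ, ℓ = ((5 : ℕ), wQ h) := by
  intro ℓ hℓ
  rw [List.mem_flatten] at hℓ
  obtain ⟨L, hL, hℓ⟩ := hℓ
  obtain ⟨h, hh, rfl⟩ := ksQ_mem j L hL
  exact ⟨h, hh, by simpa using hℓ⟩

theorem eval_famQ (j : ℕ) (hm : Odd (2 * j + 1)) (hm3 : 3 ≤ 2 * j + 1) (m₀ : ℕ) :
    ∃ M k' : ℕ, m₀ ≤ M ∧ m₀ ≤ k' ∧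
      EvF (5 * (2 * j + 1)) M ((2 * j + 1) * (6 * k'))
        (Th l0Q (List.replicate j [laQ, lbQ]).flatten ((2 * j + 1) * (6 * k')))
        ((famQ (2 * j + 1) hm hm3).cyc zQ) ≠ 0 := by
  set m := 2 * j + 1 with hmdef
  have hex : ∀ h : ℝ, ∃ c : ℕ, h ∈ lvQ → ∀ M k : ℕ, Odd M → c ≤ M → c ≤ k → ∀ b,
      0 < sgQ m b * EB ((famQ m hm hm3).dpath k) (6 * k) 5 M zQ b [(5, wQ h)] := by
    intro h
    by_cases hh : h ∈ lvQ
    · obtain ⟨m₁, n₁, h1⟩ := EB_famQ (lvQ_abs hh) m hm hm3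
      exact ⟨max m₁ n₁, fun _ M k hM h2 h3 => h1 M k hM (le_trans (le_max_left _ _) h2)
        (le_trans (le_max_right _ _) h3)⟩
    · exact ⟨0, fun h' => absurd h' hh⟩
  choose c hc using hex
  set c' := max m₀ (max (c 0) (max (c (1 / 20)) (c (-1 / 20)))) with hc'
  have hcc : ∀ h ∈ lvQ, c h ≤ c' := by
    intro h hh
    rcases hh with rfl | rfl | rfl
    · exact le_trans (le_max_left _ _) (le_max_right _ _)
    · exact le_trans (le_trans (le_max_left _ _) (le_max_right _ _)) (le_max_right _ _)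
    · exact le_trans (le_trans (le_max_right _ _) (le_max_right _ _)) (le_max_right _ _)
  have hm0 : m₀ ≤ c' := le_max_left _ _
  refine ⟨2 * c' + 1, c' + 1, by omega, by omega, ?_⟩
  set M := 2 * c' + 1 with hM
  set k := c' + 1 with hk
  have hev := (famQ m hm hm3).eval zQ (k := k) (M := M) (by omega) l0Q rfl (gsQ j)
    (fun ℓ hℓ => by
      obtain ⟨h, _, rfl⟩ := flat_mem j ℓ (by rw [List.flatten_cons, List.mem_append]; exact Or.inr hℓ)
      norm_num)
    (fun ℓ hℓ => by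
      obtain ⟨h, _, rfl⟩ := flat_mem j ℓ hℓ
      exact dep_wQ h)
    (fun ℓ hℓ => by
      obtain ⟨h, _, rfl⟩ := flat_mem j ℓ hℓ
      exact nrm_wQ h)
    (fun L hL => by
      rcases gsQ_mem j L hL with rfl | rfl
      · rfl
      · rfl)
    (by rw [gsQ_length]; omega)
    (fun Φ => EvF_res M (m * (6 * k)) Φ (famQ m hm hm3).loop (pw 5 m zQ))
  rw [gsQ_flatten] at hev
  rw [hev]
  have hpos : ∀ h ∈ lvQ, ∀ b, 0 < sgQ m b *
      EB ((famQ m hm hm3).dpath k) (6 * k) 5 M zQ b [(5, wQ h)] := by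
    intro h hh b
    have := hcc h hh
    exact hc h hh M k ⟨c', hM⟩ (by omega) (by omega) b
  have hterm : ∀ b ∈ range m, 0 < (∏ i ∈ range m, sgQ m i) * ((-1) ^ (5 * (m - b) * 5 * b) *
        (prE ((famQ m hm hm3).dpath k) (6 * k) 5 M zQ 0 (([l0Q] :: gsQ j).drop (m - b)) *
          prE ((famQ m hm hm3).dpath k) (6 * k) 5 M zQ b (([l0Q] :: gsQ j).take (m - b)))) := by
    intro b hb
    have hb' := mem_range.1 hb
    have h1 := prE_sign lvQ hpos (([l0Q] :: gsQ j).drop (m - b))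
      (fun L hL => ksQ_mem j L (List.mem_of_mem_drop hL)) 0
    have h2 := prE_sign lvQ hpos (([l0Q] :: gsQ j).take (m - b))
      (fun L hL => ksQ_mem j L (List.mem_of_mem_take hL)) b
    have hlen : ([l0Q] :: gsQ j).length = m := by
      rw [List.length_cons, gsQ_length]
    have l1 : (([l0Q] :: gsQ j).drop (m - b)).length = b := by
      rw [List.length_drop, hlen]; omega
    have l2 : (([l0Q] :: gsQ j).take (m - b)).length = m - b := by
      rw [List.length_take, hlen]; omega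
    rw [l1] at h1
    rw [l2] at h2
    have e1 : ∏ i ∈ range m, sgQ m i = (∏ i ∈ range b, sgQ m (0 + i)) *
        ∏ i ∈ range (m - b), sgQ m (b + i) := by
      have h3 := prod_range_add (fun i => sgQ m i) b (m - b)
      rw [Nat.add_sub_cancel' hb'.le] at h3
      simp only [zero_add]
      exact h3
    have e2 : (-1 : ℚ) ^ (5 * (m - b) * 5 * b) = 1 := by
      refine Even.neg_one_pow ?_
      rcases Nat.even_or_odd b with he | ho
      · exact he.mul_left _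
      · have : Even (m - b) := Nat.Odd.sub_odd hm ho
        exact Even.mul_right (Even.mul_right (Even.mul_left this 5) 5) b
    rw [e1, e2]
    have := mul_pos h1 h2
    calc 0 < _ := this
      _ = _ := by ring
  intro h0
  have h1 : 0 < ∑ b ∈ range m, (∏ i ∈ range m, sgQ m i) * ((-1) ^ (5 * (m - b) * 5 * b) *
        (prE ((famQ m hm hm3).dpath k) (6 * k) 5 M zQ 0 (([l0Q] :: gsQ j).drop (m - b)) *
          prE ((famQ m hm hm3).dpath k) (6 * k) 5 M zQ b (([l0Q] :: gsQ j).take (m - b)))) :=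
    sum_pos hterm ⟨0, mem_range.2 (by omega)⟩
  rw [← mul_sum, h0, mul_zero] at h1
  exact lt_irrefl _ h1

theorem lev_Q : ∃ δ : ℝ, LipOK δ ∧ ∀ h : ℝ, |h| ≤ 3 / 10 → Lev δ ((5, wQ h) : Lt E6 ℚ) h := by
  obtain ⟨δ₀, h0, hlip⟩ := exists_lipOK
  obtain ⟨δ₁, h1, hloc⟩ := local_Q
  have hmin : 0 < min δ₀ δ₁ := lt_min h0 h1
  have hsm : ∀ v : ℕ → E6, Sml (cls (min δ₀ δ₁)) v → Sm δ₁ v := fun v hv =>
    ⟨fun i => (hv i i).1, fun i j => (hv i j).2.2.trans_le (min_le_right _ _)⟩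
  refine ⟨min δ₀ δ₁, hlip _ hmin (min_le_left _ _), fun h hh => ⟨dep_wQ h, nrm_wQ h, by norm_num,
    fun v hv => (hloc v (hsm v hv) h hh).1, fun v hv => (hloc v (hsm v hv) h hh).2⟩⟩

theorem final_Q {R : ℝ} (hR : 0 < R) (T : TopologicalSpace (Loop 6)) (hT : Natural T) {m : ℕ}
    (hm : Odd m) (hm3 : 3 ≤ m) :
    ∃ x : Homology (Loop 6) ℚ (5 * m), x ≠ 0 ∧
      (∃ z' ∈ cycles (Loop 6) ℚ {γ | length (gR R) γ ≤ 48 * m + R * (m + 1)} (5 * m), Represents z' x) ∧
      ∃ c : ℝ, 0 < c ∧ ∀ (a : ℝ) (z' : Cube (Loop 6) (5 * m) →₀ ℚ),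
        z' ∈ cycles (Loop 6) ℚ {γ | length (gR R) γ ≤ a} (5 * m) → Represents z' x → c ≤ a := by
  obtain ⟨j, rfl⟩ := hm
  have hm' : Odd (2 * j + 1) := ⟨j, rfl⟩
  obtain ⟨δ, hδ, hlev⟩ := lev_Q
  have L0 : Lev δ l0Q 0 := hlev 0 (by norm_num)
  have La : Lev δ laQ (1 / 20) := hlev _ (by rw [abs_of_nonneg] <;> norm_num)
  have Lb : Lev δ lbQ (-1 / 20) := hlev _ (by rw [abs_of_nonpos] <;> norm_num)
  have k1 : (1 : ℝ) / 20 ≤ |0 - 1 / 20| := by rw [zero_sub, abs_neg, abs_of_nonneg] <;> norm_num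
  have k2 : (1 : ℝ) / 20 ≤ |1 / 20 - (-1 / 20)| := by rw [abs_of_nonneg] <;> norm_num
  have k3 : (1 : ℝ) / 20 ≤ |-1 / 20 - 0| := by rw [sub_zero, abs_of_nonpos] <;> norm_num
  have hj : 0 < j := by omega
  have hwd : l0Q.1 + j * (laQ.1 + lbQ.1) = 5 * (2 * j + 1) := by
    show 5 + j * (5 + 5) = _
    ring
  have hdet := fun S z' => detect_fam (famQ (2 * j + 1) hm' hm3) T hT (z := zQ) hδ L0 La Lb k1 k2 k3
    hj hwd (eval_famQ j hm' hm3) S (z' := z')
  have hmem := fun S hS => (famQ (2 * j + 1) hm' hm3).cyc_mem T hT bdN_zQ S hS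
  refine ⟨Submodule.Quotient.mk ⟨(famQ (2 * j + 1) hm' hm3).cyc zQ,
    hmem Set.univ fun _ => Set.mem_univ _⟩, ?_, ?_, ?_⟩
  · intro h0
    rw [Submodule.Quotient.mk_eq_zero] at h0
    obtain ⟨γ, t, hγ, -⟩ := hdet ∅ 0 (Submodule.zero_mem _) (by
      rw [zero_sub]
      exact Submodule.neg_mem _ h0)
    exact hγ
  · exact ⟨_, hmem _ fun Ps => length_famQ hR _ hm' hm3 Ps, _, rfl⟩
  · refine ⟨R * (Real.smoothTransition (4 / 5) - Real.smoothTransition (1 / 5)),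
      mul_pos hR (sub_pos.2 smooth_lt), fun a z' hz' hrep => ?_⟩
    obtain ⟨h', hrep⟩ := hrep
    rw [Submodule.Quotient.eq] at hrep
    obtain ⟨γ, t, hγ, ht1, ht2, ht3⟩ := hdet _ z' hz' hrep
    obtain ⟨h1, h2⟩ := ht3 0 hj
    have h3 := tau_diff h1 h2
    have mono : ∀ i ≤ 2 * j, t 0 ≤ t i := by
      intro i
      induction i with
      | zero => intro _; exact le_rfl
      | succ i ih => intro hi; exact (ih (by omega)).trans (ht1 i (by omega))
    have mono' : ∀ i, i ≤ 2 * j - 2 → t 2 ≤ t (2 + i) := by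
      intro i
      induction i with
      | zero => intro _; exact le_rfl
      | succ i ih => intro hi; exact (ih (by omega)).trans (ht1 (2 + i) (by omega))
    have h4 := length_ge hR.le γ 1 (fun i => t (i + 1)) (fun i hi => ht1 (i + 1) (by omega)) (by
      have h5 := mono 1 (by omega)
      have h6 := mono' (2 * j - 2) le_rfl
      rw [show 2 + (2 * j - 2) = 2 * j by omega] at h6
      show t 2 ≤ t 1 + 1
      linarith)
    rw [sum_range_one] at h4
    have h5 := mul_le_mul_of_nonneg_left h3 hR.le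
    have h6 : length (gR R) γ ≤ a := hγ
    exact (h5.trans h4).trans h6

end Pool.Agent.Helper76.Freq
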