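import Pool.Agent.Helper76.Freq.FinF2
import Pool.Agent.Helper76.Freq.FinQ

/-!
# The main theorem on mean frequencies, and natural topologies
-/

set_option autoImplicit false

namespace Pool.Agent.Helper76.Freq

/-! ### natural topologies exist -/

/-- a loop as a bounded continuous function -/
noncomputable def toBCF {n : ℕ} (γ : Loop n) : BoundedContinuousFunction ℝ (E n) :=
  BoundedContinuousFunction.ofNormedAddCommGroup γ.toFun γ.cont 1 fun t => (γ.norm_eq t).le

/-- the topology of uniform convergence is natural -/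
theorem natural_uniform (n : ℕ) :
    Natural (TopologicalSpace.induced (toBCF (n := n)) inferInstance) := by
  constructor
  · intro γ ε hε
    rw [nhds_induced, Filter.mem_comap]
    refine ⟨Metric.ball (toBCF γ) ε, Metric.ball_mem_nhds _ hε, fun γ' hγ' t => ?_⟩
    have h1 : dist (toBCF γ') (toBCF γ) < ε := hγ'
    have h2 := (BoundedContinuousFunction.dist_coe_le_dist t).trans_lt h1
    rwa [dist_eq_norm] at h2
  · intro γ U hU
    rw [nhds_induced, Filter.mem_comap] at hU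
    obtain ⟨V, hV, hVU⟩ := hU
    obtain ⟨ε, hε, hball⟩ := Metric.mem_nhds_iff.1 hV
    refine ⟨ε / 2, by positivity, fun γ' h1 _ => hVU (hball ?_)⟩
    have h2 : dist (toBCF γ') (toBCF γ) ≤ ε / 2 := by
      rw [BoundedContinuousFunction.dist_le (by positivity)]
      intro t
      rw [dist_eq_norm]
      exact (h1 t).le
    exact h2.trans_lt (by linarith)

/-! ### critical levels -/

section cr

variable {G : Type} [Field G] {n d : ℕ}

theorem le_cr [TopologicalSpace (Loop n)] (g : SphereMetric n) {x : Homology (Loop n) G d} {c : ℝ}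
    (hne : ∃ a : ℝ, ∃ z ∈ cycles (Loop n) G {γ | length g γ ≤ a} d, Represents z x)
    (h : ∀ (a : ℝ) (z : Cube (Loop n) d →₀ G), z ∈ cycles (Loop n) G {γ | length g γ ≤ a} d →
      Represents z x → c ≤ a) : c ≤ cr g x := by
  refine le_csInf ?_ ?_
  · obtain ⟨a, ha⟩ := hne
    exact ⟨a, ha⟩
  · rintro a ⟨z, hz, hzx⟩
    exact h a z hz hzx

theorem cr_le [TopologicalSpace (Loop n)] (g : SphereMetric n) {x : Homology (Loop n) G d} {c a : ℝ}
    (h : ∀ (a : ℝ) (z : Cube (Loop n) d →₀ G), z ∈ cycles (Loop n) G {γ | length g γ ≤ a} d →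
      Represents z x → c ≤ a)
    (ha : ∃ z ∈ cycles (Loop n) G {γ | length g γ ≤ a} d, Represents z x) : cr g x ≤ a := by
  refine csInf_le ⟨c, ?_⟩ ha
  rintro a ⟨z, hz, hzx⟩
  exact h a z hz hzx

end cr

/-- classes with rational coefficients -/
theorem exists_class_Q (T : TopologicalSpace (Loop 6)) (hT : Natural T) (D : ℕ) :
    ∃ d ≥ D, ∃ x : Homology (Loop 6) ℚ d, x ≠ 0 ∧ 0 < cr (gR 1000) x ∧ 4 / 1000 ≤ d / cr (gR 1000) x := by
  have hm : Odd (2 * D + 9) := ⟨D + 4, by ring⟩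
  obtain ⟨x, hx, hz, c, hc, hlow⟩ := final_Q (R := 1000) (by norm_num) T hT hm (by omega)
  have h1 : c ≤ cr (gR 1000) x := le_cr _ ⟨_, hz⟩ hlow
  have h2 : cr (gR 1000) x ≤ 48 * (2 * D + 9 : ℕ) + 1000 * ((2 * D + 9 : ℕ) + 1) := cr_le _ hlow hz
  have h3 : 0 < cr (gR 1000) x := hc.trans_le h1
  refine ⟨5 * (2 * D + 9), by omega, x, hx, h3, ?_⟩
  rw [le_div_iff₀ h3]
  push_cast at h2 ⊢
  have hD : (0 : ℝ) ≤ D := Nat.cast_nonneg D
  linarith

/-- classes with coefficients modulo 2 -/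
theorem exists_class_F2 (T : TopologicalSpace (Loop 6)) (hT : Natural T) (D : ℕ) :
    ∃ d ≥ D, ∃ x : Homology (Loop 6) (ZMod 2) d, x ≠ 0 ∧ 0 < cr (gR 1000) x ∧
      d / cr (gR 1000) x ≤ 3 / 1000 := by
  have hm : Odd (2 * D + 9) := ⟨D + 4, by ring⟩
  obtain ⟨x, hx, hz, hlow⟩ := final_F2 (R := 1000) (by norm_num) T hT hm (by omega)
  have h1 : 1000 * (2 * (2 * D + 9 : ℕ) - 3) ≤ cr (gR 1000) x := le_cr _ hz hlow
  push_cast at h1
  have hD : (0 : ℝ) ≤ D := Nat.cast_nonneg D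
  have h3 : 0 < cr (gR 1000) x := lt_of_lt_of_le (by linarith) h1
  refine ⟨5 * (2 * D + 9), by omega, x, hx, h3, ?_⟩
  rw [div_le_iff₀ h3]
  push_cast
  linarith

/-- a lower bound of the mean frequency -/
theorem IsGMF.ge {n : ℕ} [TopologicalSpace (Loop n)] {g : SphereMetric n} {G : Type} [Field G]
    {α A : ℝ} (h : IsGMF g G α)
    (hx : ∀ D : ℕ, ∃ d ≥ D, ∃ x : Homology (Loop n) G d, x ≠ 0 ∧ 0 < cr g x ∧ A ≤ d / cr g x) : A ≤ α := by
  by_contra hlt
  push Not at hlt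
  obtain ⟨D, hD⟩ := h (A - α) (by linarith)
  obtain ⟨d, hd, x, hx0, -, hxA⟩ := hx D
  have := hD d hd x hx0
  rw [abs_lt] at this
  linarith [this.2]

/-- an upper bound of the mean frequency -/
theorem IsGMF.le {n : ℕ} [TopologicalSpace (Loop n)] {g : SphereMetric n} {G : Type} [Field G]
    {α B : ℝ} (h : IsGMF g G α)
    (hx : ∀ D : ℕ, ∃ d ≥ D, ∃ x : Homology (Loop n) G d, x ≠ 0 ∧ 0 < cr g x ∧ d / cr g x ≤ B) : α ≤ B := by
  by_contra hlt
  push Not at hlt
  obtain ⟨D, hD⟩ := h (α - B) (by linarith)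
  obtain ⟨d, hd, x, hx0, -, hxA⟩ := hx D
  have := hD d hd x hx0
  rw [abs_lt] at this
  linarith [this.1]

end Pool.Agent.Helper76.Freq
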