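import Pool.Agent.Helper76.Freq.Stmt
import Pool.Agent.Helper76.Freq.Final

/-!
# From the definitions of `Defs` to those of `Stmt`
-/

set_option autoImplicit false

namespace Pool.Agent.Helper76.Freq

open scoped RealInnerProductSpace ContDiff

/-- the metric, in unbundled form -/
noncomputable def SphereMetric.toR {n : ℕ} (g : SphereMetric n) : RMetric n where
  form x u v := g.form x u v
  smooth u v := (g.smooth.clm_apply contDiff_const).clm_apply contDiff_const
  add x u v w := by rw [map_add]; rfl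
  smul x c u w := by rw [map_smul]; rfl
  symm := g.symm
  pos := g.pos

theorem len_toR {n : ℕ} (g : SphereMetric n) (γ : Loop n) : len g.toR γ = length g γ := rfl

section

variable {X : Type} [TopologicalSpace X] {G : Type} [Field G] {d : ℕ}

theorem isChain_iff (S : Set X) (c : Cube X d →₀ G) : IsChain S c ↔ c ∈ chains X G S d := by
  rw [chains, Finsupp.mem_supported]
  rfl

theorem isDegen_iff (S : Set X) (c : Cube X d →₀ G) : IsDegen S c ↔ c ∈ degen X G S d := by
  rw [degen, Finsupp.mem_supported]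
  rfl

omit [TopologicalSpace X] in
theorem bd_eq (c : Cube X (d + 1) →₀ G) : bd c = bdry X G d c := by
  rw [bd, bdry, Finsupp.linearCombination_apply]
  refine Finsupp.sum_congr fun σ _ => ?_
  rw [Finset.smul_sum]
  refine Finset.sum_congr rfl fun i _ => ?_
  rw [smul_smul, smul_sub, Finsupp.smul_single, Finsupp.smul_single, smul_eq_mul, mul_one,
    mul_comm]
  rfl

theorem isCycle_iff (S : Set X) (c : Cube X d →₀ G) : IsCycle S c ↔ c ∈ cycles X G S d := by
  cases d with
  | zero => exact isChain_iff S c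
  | succ d =>
    show IsChain S c ∧ IsDegen S (bd c) ↔ c ∈ chains X G S (d + 1) ⊓ (degen X G S d).comap (bdry X G d)
    rw [Submodule.mem_inf, Submodule.mem_comap, isChain_iff, isDegen_iff, bd_eq]

theorem isBdry_iff (c : Cube X d →₀ G) : IsBdry c ↔ c ∈ bounds X G Set.univ d := by
  rw [bounds, Submodule.mem_sup]
  constructor
  · rintro ⟨b, e, hb, he, rfl⟩
    rw [isChain_iff] at hb
    rw [isDegen_iff] at he
    exact ⟨bdry X G d b, Submodule.mem_map_of_mem hb, e, he, by rw [bd_eq]⟩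
  · rintro ⟨y, hy, e, he, rfl⟩
    obtain ⟨b, hb, rfl⟩ := Submodule.mem_map.1 hy
    exact ⟨b, e, (isChain_iff _ _).2 hb, (isDegen_iff _ _).2 he, by rw [bd_eq]⟩

theorem isChain_mono {S S' : Set X} (h : S ⊆ S') {c : Cube X d →₀ G} (hc : IsChain S c) :
    IsChain S' c := fun σ hσ => ⟨(hc σ hσ).1, fun s => h ((hc σ hσ).2 s)⟩

theorem isDegen_mono {S S' : Set X} (h : S ⊆ S') {c : Cube X d →₀ G} (hc : IsDegen S c) :
    IsDegen S' c := fun σ hσ => ⟨⟨(hc σ hσ).1.1, fun s => h ((hc σ hσ).1.2 s)⟩, (hc σ hσ).2⟩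

theorem isCycle_mono {S S' : Set X} (h : S ⊆ S') {c : Cube X d →₀ G} (hc : IsCycle S c) :
    IsCycle S' c := by
  cases d with
  | zero => exact isChain_mono h hc
  | succ d => exact ⟨isChain_mono h hc.1, isDegen_mono h hc.2⟩

/-- a nonzero class is the class of a cycle which is not a boundary -/
theorem exists_cycle {x : Homology X G d} (hx : x ≠ 0) : ∃ z : Cube X d →₀ G, IsNonzeroClass z ∧
    ∀ (S : Set X) (z' : Cube X d →₀ G), (z' ∈ cycles X G S d ∧ Represents z' x) ↔
      (IsCycle S z' ∧ IsBdry (z' - z)) := by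
  obtain ⟨⟨z, hz⟩, rfl⟩ := Submodule.Quotient.mk_surjective _ x
  refine ⟨z, ⟨(isCycle_iff _ _).2 hz, fun h => hx ?_⟩, fun S z' => ?_⟩
  · rw [Submodule.Quotient.mk_eq_zero]
    exact (isBdry_iff z).1 h
  · rw [isCycle_iff, isBdry_iff]
    constructor
    · rintro ⟨h1, h2, h3⟩
      rw [Submodule.Quotient.eq] at h3
      exact ⟨h1, h3⟩
    · rintro ⟨h1, h2⟩
      have h3 : z' ∈ cycles X G Set.univ d :=
        (isCycle_iff _ _).1 (isCycle_mono (Set.subset_univ S) ((isCycle_iff _ _).2 h1))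
      refine ⟨h1, h3, ?_⟩
      rw [Submodule.Quotient.eq]
      exact h2

end

/-- nonzero classes and critical levels in terms of cycles -/
theorem exists_crit {n d : ℕ} [TopologicalSpace (Loop n)] {G : Type} [Field G] (g : SphereMetric n)
    {x : Homology (Loop n) G d} (hx : x ≠ 0) :
    ∃ z : Cube (Loop n) d →₀ G, IsNonzeroClass z ∧ crit g.toR z = cr g x := by
  obtain ⟨z, hz, h⟩ := exists_cycle hx
  refine ⟨z, hz, ?_⟩
  have : {a : ℝ | ∃ z' : Cube (Loop n) d →₀ G, IsCycle {γ | len g.toR γ ≤ a} z' ∧ IsBdry (z' - z)} =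
      {a : ℝ | ∃ z ∈ cycles (Loop n) G {γ | length g γ ≤ a} d, Represents z x} := by
    ext a
    constructor
    · rintro ⟨z', hz'⟩
      have := (h _ z').2 hz'
      exact ⟨z', this.1, this.2⟩
    · rintro ⟨z', h1, h2⟩
      exact ⟨z', (h _ z').1 ⟨h1, h2⟩⟩
  rw [crit, this]
  rfl

/-- classes with rational coefficients -/
theorem exists_cycle_Q (T : TopologicalSpace (Loop 6)) (hT : Natural T) (D : ℕ) :
    ∃ d ≥ D, ∃ z : Cube (Loop 6) d →₀ ℚ, IsNonzeroClass z ∧ 0 < crit (gR 1000).toR z ∧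
      4 / 1000 ≤ d / crit (gR 1000).toR z := by
  obtain ⟨d, hd, x, hx, h1, h2⟩ := exists_class_Q T hT D
  obtain ⟨z, hz, he⟩ := exists_crit (gR 1000) hx
  exact ⟨d, hd, z, hz, by rwa [he], by rwa [he]⟩

/-- classes with coefficients modulo 2 -/
theorem exists_cycle_F2 (T : TopologicalSpace (Loop 6)) (hT : Natural T) (D : ℕ) :
    ∃ d ≥ D, ∃ z : Cube (Loop 6) d →₀ ZMod 2, IsNonzeroClass z ∧ 0 < crit (gR 1000).toR z ∧
      d / crit (gR 1000).toR z ≤ 3 / 1000 := by
  obtain ⟨d, hd, x, hx, h1, h2⟩ := exists_class_F2 T hT D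
  obtain ⟨z, hz, he⟩ := exists_crit (gR 1000) hx
  exact ⟨d, hd, z, hz, by rwa [he], by rwa [he]⟩

/-- a lower bound of the mean frequency -/
theorem IsMeanFrequency.ge {n : ℕ} [TopologicalSpace (Loop n)] {g : RMetric n} {G : Type} [Field G]
    {α A : ℝ} (h : IsMeanFrequency g G α)
    (hx : ∀ D : ℕ, ∃ d ≥ D, ∃ z : Cube (Loop n) d →₀ G, IsNonzeroClass z ∧ 0 < crit g z ∧
      A ≤ d / crit g z) : A ≤ α := by
  by_contra hlt
  push Not at hlt
  obtain ⟨D, hD⟩ := h (A - α) (by linarith)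
  obtain ⟨d, hd, z, hz, -, hzA⟩ := hx D
  have := hD d hd z hz
  rw [abs_lt] at this
  linarith [this.2]

/-- an upper bound of the mean frequency -/
theorem IsMeanFrequency.le {n : ℕ} [TopologicalSpace (Loop n)] {g : RMetric n} {G : Type} [Field G]
    {α B : ℝ} (h : IsMeanFrequency g G α)
    (hx : ∀ D : ℕ, ∃ d ≥ D, ∃ z : Cube (Loop n) d →₀ G, IsNonzeroClass z ∧ 0 < crit g z ∧
      d / crit g z ≤ B) : α ≤ B := by
  by_contra hlt
  push Not at hlt
  obtain ⟨D, hD⟩ := h (α - B) (by linarith)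
  obtain ⟨d, hd, z, hz, -, hzB⟩ := hx D
  have := hD d hd z hz
  rw [abs_lt] at this
  linarith [this.1]

end Pool.Agent.Helper76.Freq
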