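import Pool.Agent.Helper76.Freq.Base

/-!
# Cochains on sequences of points

A cochain of degree `d` on a type `Y` is a function of sequences `y : ℕ → Y` of which only the
first `d + 1` entries matter.  We develop coboundary, cup product, prism operator, and the
evaluation on (grids in) cubes, with the discrete Stokes formula.
-/

set_option autoImplicit false

namespace Pool.Agent.Helper76.Freq

open Finset

universe u

variable {R : Type*} [CommRing R]

/-- skip the index `i` -/
def sk (i j : ℕ) : ℕ := if j < i then j else j + 1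

theorem sk_of_lt {i j : ℕ} (h : j < i) : sk i j = j := by simp [sk, h]

theorem sk_of_le {i j : ℕ} (h : i ≤ j) : sk i j = j + 1 := by simp [sk, not_lt.2 h]

/-- coboundary of a cochain of degree `d` -/
def cobd {Y : Type u} (d : ℕ) (Φ : (ℕ → Y) → R) (y : ℕ → Y) : R :=
  ∑ i ∈ range (d + 2), (-1) ^ i * Φ (fun j => y (sk i j))

/-- cup product of a cochain of degree `p` with another cochain -/
def cup {Y : Type u} (p : ℕ) (Φ Ψ : (ℕ → Y) → R) (y : ℕ → Y) : R :=
  Φ y * Ψ (fun j => y (j + p))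

/-- the vertices of the `i`-th simplex of the prism -/
def mix {Y : Type u} (i : ℕ) (z : ℕ → Y × Y) (j : ℕ) : Y :=
  if j ≤ i then (z j).1 else (z (j - 1)).2

/-- the prism operator on a cochain of degree `n` -/
def Pr {Y : Type u} (n : ℕ) (Φ : (ℕ → Y) → R) (z : ℕ → Y × Y) : R :=
  ∑ i ∈ range n, (-1) ^ i * Φ (mix i z)

/-- `Φ` depends only on the entries with index `≤ d` -/
def Dep {Y : Type u} (d : ℕ) (Φ : (ℕ → Y) → R) : Prop :=
  ∀ y y' : ℕ → Y, (∀ j ≤ d, y j = y' j) → Φ y = Φ y'

/-- `Φ` vanishes on degenerate simplices -/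
def Nrm {Y : Type u} (d : ℕ) (Φ : (ℕ → Y) → R) : Prop :=
  ∀ y : ℕ → Y, (∃ j < d, y j = y (j + 1)) → Φ y = 0

section prism

variable {Y : Type u} {Φ Ψ : (ℕ → Y) → R} {d : ℕ}

/-- first `i` entries from below, the others from above -/
def stp (i : ℕ) (z : ℕ → Y × Y) (j : ℕ) : Y := if j < i then (z j).1 else (z j).2

theorem mix_sk_lt {i k : ℕ} (h : k < i) (z : ℕ → Y × Y) :
    (fun j => mix i z (sk k j)) = mix (i - 1) (fun j => z (sk k j)) := by
  funext j
  simp only [mix, sk]
  by_cases h1 : j < k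
  · have h2 : j ≤ i := by omega
    have h3 : j ≤ i - 1 := by omega
    simp [h1, h2, h3]
  · by_cases h4 : j + 1 ≤ i
    · have h3 : j ≤ i - 1 := by omega
      simp [h1, h4, h3]
    · have h3 : ¬ j ≤ i - 1 := by omega
      have h5 : ¬ j - 1 < k := by omega
      have h6 : j - 1 + 1 = j := by omega
      simp [h1, h4, h3, h5, h6]

theorem mix_sk_self (i : ℕ) (z : ℕ → Y × Y) :
    (fun j => mix i z (sk i j)) = stp i z := by
  funext j
  simp only [mix, sk, stp]
  by_cases h1 : j < i
  · have h2 : j ≤ i := by omega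
    simp [h1, h2]
  · have h4 : ¬ j + 1 ≤ i := by omega
    simp [h1, h4]

theorem mix_sk_succ (i : ℕ) (z : ℕ → Y × Y) :
    (fun j => mix i z (sk (i + 1) j)) = stp (i + 1) z := by
  funext j
  simp only [mix, sk, stp]
  by_cases h1 : j < i + 1
  · have h2 : j ≤ i := by omega
    simp [h1, h2]
  · have h4 : ¬ j + 1 ≤ i := by omega
    simp [h1, h4]

theorem mix_sk_gt {i k : ℕ} (h : i + 1 < k) (z : ℕ → Y × Y) :
    (fun j => mix i z (sk k j)) = mix i (fun j => z (sk (k - 1) j)) := by
  funext j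
  simp only [mix, sk]
  by_cases h1 : j < k
  · by_cases h2 : j ≤ i
    · have h3 : j < k - 1 := by omega
      simp [h1, h2, h3]
    · have h3 : j - 1 < k - 1 := by omega
      simp [h1, h2, h3]
  · have h2 : ¬ j + 1 ≤ i := by omega
    have h3 : ¬ j ≤ i := by omega
    have h4 : ¬ j - 1 < k - 1 := by omega
    have h6 : j - 1 + 1 = j := by omega
    simp [h1, h2, h3, h4, h6]

theorem stp_zero (z : ℕ → Y × Y) : stp 0 z = fun j => (z j).2 := by
  funext j; simp [stp]

omit [CommRing R] in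
theorem Dep.stp_eq (h : Dep d Φ) (z : ℕ → Y × Y) :
    Φ (stp (d + 1) z) = Φ (fun j => (z j).1) := by
  apply h
  intro j hj
  have : j < d + 1 := by omega
  simp [stp, this]

/-- the prism identity (degree `0`) -/
theorem prism_zero (h : Dep 0 Φ) (z : ℕ → Y × Y) :
    Pr 1 (cobd 0 Φ) z = Φ (fun j => (z j).2) - Φ (fun j => (z j).1) := by
  have h1 := mix_sk_self 0 z
  have h2 := mix_sk_succ 0 z
  simp only [Pr, cobd, range_one, sum_singleton, pow_zero, one_mul, sum_range_succ, zero_add,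
    pow_one, neg_mul]
  rw [h1, h2, stp_zero, h.stp_eq]
  ring

/-- the prism identity -/
theorem prism_succ (h : Dep (d + 1) Φ) (z : ℕ → Y × Y) :
    Pr (d + 2) (cobd (d + 1) Φ) z + cobd d (Pr (d + 1) Φ) z =
      Φ (fun j => (z j).2) - Φ (fun j => (z j).1) := by
  -- the terms of the second sum
  set g : ℕ → ℕ → R := fun i k => (-1) ^ (i + k) * Φ (mix i (fun j => z (sk k j))) with hg
  have h2 : cobd d (Pr (d + 1) Φ) z = ∑ i ∈ range (d + 1), ∑ k ∈ range (d + 2), g i k := by
    rw [sum_comm]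
    simp only [cobd, Pr, mul_sum]
    refine sum_congr rfl fun k _ => sum_congr rfl fun i _ => ?_
    simp only [hg]
    ring
  have h1 : Pr (d + 2) (cobd (d + 1) Φ) z =
      ∑ i ∈ range (d + 2), ((∑ k ∈ range i, - g (i - 1) k) + (Φ (stp i z) - Φ (stp (i + 1) z)) +
        ∑ k ∈ Ico (i + 1) (d + 2), - g i k) := by
    simp only [Pr, cobd, mul_sum]
    refine sum_congr rfl fun i hi => ?_
    have hi' : i < d + 2 := mem_range.1 hi
    rw [range_eq_Ico, ← sum_Ico_consecutive _ (Nat.zero_le i) (show i ≤ d + 1 + 2 by omega),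
      sum_eq_sum_Ico_succ_bot (show i < d + 1 + 2 by omega),
      sum_eq_sum_Ico_succ_bot (show i + 1 < d + 1 + 2 by omega)]
    rw [mix_sk_self, mix_sk_succ]
    have e1 : ∑ k ∈ Ico 0 i, (-1 : R) ^ i * ((-1) ^ k * Φ (fun j => mix i z (sk k j))) =
        ∑ k ∈ Ico 0 i, - g (i - 1) k := by
      refine sum_congr rfl fun k hk => ?_
      have hk' := (mem_Ico.1 hk).2
      rw [mix_sk_lt hk']
      simp only [hg]
      obtain ⟨i', rfl⟩ : ∃ i', i = i' + 1 := ⟨i - 1, by omega⟩
      simp only [Nat.add_sub_cancel]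
      ring
    have e2 : ∑ k ∈ Ico (i + 1 + 1) (d + 1 + 2),
        (-1 : R) ^ i * ((-1) ^ k * Φ (fun j => mix i z (sk k j))) =
        ∑ k ∈ Ico (i + 1) (d + 2), - g i k := by
      rw [show d + 1 + 2 = d + 2 + 1 by ring]
      rw [← sum_Ico_add' (fun k => (-1 : R) ^ i * ((-1) ^ k * Φ (fun j => mix i z (sk k j))))
        (i + 1) (d + 2) 1]
      refine sum_congr rfl fun k hk => ?_
      have hk' := (mem_Ico.1 hk).1
      rw [mix_sk_gt (show i + 1 < k + 1 by omega)]
      simp only [hg, Nat.add_sub_cancel]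
      ring
    rw [e1, e2, ← range_eq_Ico]
    have e3 : (-1 : R) ^ i * ((-1) ^ i * Φ (stp i z)) = Φ (stp i z) := by
      rw [← mul_assoc, ← pow_add, Even.neg_one_pow ⟨i, rfl⟩, one_mul]
    have e4 : (-1 : R) ^ i * ((-1) ^ (i + 1) * Φ (stp (i + 1) z)) = - Φ (stp (i + 1) z) := by
      rw [← mul_assoc, ← pow_add, Odd.neg_one_pow ⟨i, by ring⟩, neg_one_mul]
    rw [e3, e4]
    ring
  rw [h1, h2, sum_add_distrib, sum_add_distrib, sum_range_sub', stp_zero, h.stp_eq]
  have e5 : ∑ i ∈ range (d + 2), ∑ k ∈ range i, - g (i - 1) k =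
      - ∑ i ∈ range (d + 1), ∑ k ∈ range (i + 1), g i k := by
    rw [sum_range_succ' _ (d + 1)]
    simp [sum_neg_distrib]
  have e6 : ∑ i ∈ range (d + 2), ∑ k ∈ Ico (i + 1) (d + 2), - g i k =
      - ∑ i ∈ range (d + 1), ∑ k ∈ Ico (i + 1) (d + 2), g i k := by
    rw [sum_range_succ _ (d + 1)]
    simp [sum_neg_distrib]
  have e7 : ∑ i ∈ range (d + 1), ∑ k ∈ range (d + 2), g i k =
      ∑ i ∈ range (d + 1), ∑ k ∈ range (i + 1), g i k +
      ∑ i ∈ range (d + 1), ∑ k ∈ Ico (i + 1) (d + 2), g i k := by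
    rw [← sum_add_distrib]
    refine sum_congr rfl fun i hi => ?_
    have hi' : i < d + 1 := mem_range.1 hi
    rw [range_eq_Ico, range_eq_Ico, sum_Ico_consecutive _ (Nat.zero_le _) (by omega)]
  rw [e5, e6, e7]
  ring

end prism

section basics

variable {Y : Type u} {Φ Ψ : (ℕ → Y) → R} {d p q : ℕ}

theorem Dep.cobd (h : Dep d Φ) : Dep (d + 1) (cobd d Φ) := by
  intro y y' hy
  simp only [Freq.cobd]
  refine sum_congr rfl fun i hi => ?_
  congr 1
  apply h
  intro j hj
  apply hy
  simp only [sk]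
  split <;> omega

theorem Dep.cup (h : Dep p Φ) (h' : Dep q Ψ) : Dep (p + q) (cup p Φ Ψ) := by
  intro y y' hy
  simp only [Freq.cup]
  rw [h y y' fun j hj => hy j (by omega), h' _ _ fun j hj => hy _ (by omega)]

theorem Dep.pr (h : Dep (d + 1) Φ) : Dep d (Pr (d + 1) Φ) := by
  intro z z' hz
  simp only [Freq.Pr]
  refine sum_congr rfl fun i hi => ?_
  have hi' := mem_range.1 hi
  congr 1
  apply h
  intro j hj
  simp only [mix]
  split
  · rw [hz j (by omega)]
  · rw [hz (j - 1) (by omega)]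

omit [CommRing R] in
theorem Dep.mono {d' : ℕ} (h : Dep d Φ) (hd : d ≤ d') : Dep d' Φ := by
  intro y y' hy
  exact h y y' fun j hj => hy j (hj.trans hd)

theorem Nrm.cup (h : Nrm p Φ) (h' : Nrm q Ψ) : Nrm (p + q) (cup p Φ Ψ) := by
  rintro y ⟨j, hj, hjj⟩
  simp only [Freq.cup]
  by_cases h1 : j < p
  · rw [h y ⟨j, h1, hjj⟩, zero_mul]
  · have e1 : j - p + p = j := by omega
    have e2 : j - p + 1 + p = j + 1 := by omega
    rw [h' _ ⟨j - p, by omega, ?_⟩, mul_zero]
    simp only [e1, e2, hjj]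

theorem Nrm.pr (h : Nrm (d + 1) Φ) : Nrm d (Pr (d + 1) Φ) := by
  rintro z ⟨j, hj, hjj⟩
  simp only [Freq.Pr]
  refine sum_eq_zero fun i hi => ?_
  have hi' := mem_range.1 hi
  by_cases h1 : i ≤ j
  · rw [h _ ⟨j + 1, by omega, ?_⟩, mul_zero]
    simp only [mix]
    have h2 : ¬ (j + 1 ≤ i) := by omega
    have h3 : ¬ (j + 1 + 1 ≤ i) := by omega
    simp [h2, h3, hjj]
  · rw [h _ ⟨j, by omega, ?_⟩, mul_zero]
    simp only [mix]
    have h2 : j ≤ i := by omega
    have h3 : j + 1 ≤ i := by omega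
    simp [h2, h3, hjj]

/-- the prism operator on cup products -/
theorem pr_cup (h : Dep p Φ) (z : ℕ → Y × Y) :
    Pr (p + q) (cup p Φ Ψ) z =
      Pr p Φ z * Ψ (fun j => (z (j + (p - 1))).2) +
        (-1) ^ p * (Φ (fun j => (z j).1) * Pr q Ψ (fun j => z (j + p))) := by
  simp only [Pr]
  rw [sum_range_add, sum_mul]
  congr 1
  · refine sum_congr rfl fun i hi => ?_
    have hi' := mem_range.1 hi
    simp only [cup]
    have : (fun j => mix i z (j + p)) = fun j => (z (j + (p - 1))).2 := by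
      funext j
      have h1 : ¬ (j + p ≤ i) := by omega
      have h2 : j + p - 1 = j + (p - 1) := by omega
      simp [mix, h1, h2]
    rw [this]
    ring
  · rw [mul_sum, mul_sum]
    refine sum_congr rfl fun i hi => ?_
    simp only [cup]
    have e1 : Φ (mix (p + i) z) = Φ (fun j => (z j).1) := by
      apply h
      intro j hj
      have : j ≤ p + i := by omega
      simp [mix, this]
    have e2 : (fun j => mix (p + i) z (j + p)) = mix i (fun j => z (j + p)) := by
      funext j
      simp only [mix]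
      by_cases h1 : j ≤ i
      · have h2 : j + p ≤ p + i := by omega
        simp [h1, h2]
      · have h2 : ¬ (j + p ≤ p + i) := by omega
        have h3 : j + p - 1 = j - 1 + p := by omega
        simp [h1, h2, h3]
    rw [e1, e2, pow_add]
    ring

/-- the Leibniz rule -/
theorem cobd_cup (h : Dep p Φ) (y : ℕ → Y) :
    cobd (p + q) (cup p Φ Ψ) y =
      cup (p + 1) (cobd p Φ) Ψ y + (-1) ^ p * cup p Φ (cobd q Ψ) y := by
  simp only [cobd]
  have e0 : p + q + 2 = (p + 1) + (q + 1) := by ring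
  rw [e0, sum_range_add]
  have e1 : ∀ i ∈ range (p + 1), (-1 : R) ^ i * cup p Φ Ψ (fun j => y (sk i j)) =
      ((-1) ^ i * Φ (fun j => y (sk i j))) * Ψ (fun j => y (j + (p + 1))) := by
    intro i hi
    have hi' := mem_range.1 hi
    simp only [cup]
    have : (fun j => y (sk i (j + p))) = fun j => y (j + (p + 1)) := by
      funext j
      rw [sk_of_le (by omega)]
      congr 1
    rw [this]
    ring
  have e2 : ∀ i ∈ range (q + 1),
      (-1 : R) ^ (p + 1 + i) * cup p Φ Ψ (fun j => y (sk (p + 1 + i) j)) =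
      (-1) ^ p * (Φ y * ((-1) ^ (i + 1) * Ψ (fun j => y (sk (i + 1) j + p)))) := by
    intro i hi
    simp only [cup]
    have a1 : Φ (fun j => y (sk (p + 1 + i) j)) = Φ y := by
      apply h
      intro j hj
      rw [sk_of_lt (by omega)]
    have a2 : (fun j => y (sk (p + 1 + i) (j + p))) = fun j => y (sk (i + 1) j + p) := by
      funext j
      by_cases h1 : j < i + 1
      · rw [sk_of_lt (show j + p < p + 1 + i by omega), sk_of_lt h1]
      · rw [sk_of_le (show p + 1 + i ≤ j + p by omega), sk_of_le (by omega)]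
        congr 1
        omega
    rw [a1, a2, show p + 1 + i = p + (i + 1) by ring, pow_add]
    ring
  rw [sum_congr rfl e1, sum_congr rfl e2]
  simp only [cup, cobd]
  rw [sum_range_succ (fun i => (-1 : R) ^ i * Φ (fun j => y (sk i j))) (p + 1), add_mul,
    sum_range_succ' (fun i => (-1 : R) ^ i * Ψ (fun j => y (sk i j + p))) (q + 1), ← sum_mul]
  have a1 : Φ (fun j => y (sk (p + 1) j)) = Φ y := by
    apply h
    intro j hj
    rw [sk_of_lt (by omega)]
  have a3 : (fun j => y (sk 0 j + p)) = fun j => y (j + (p + 1)) := by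
    funext j
    rw [sk_of_le (Nat.zero_le _)]
    congr 1
    omega
  rw [a1, a3, mul_add, mul_add, ← mul_sum, ← mul_sum]
  ring

end basics

end Pool.Agent.Helper76.Freq
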