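import Pool.Agent.Helper76.Freq.Defs

/-!
The function `HH` along the edges of the polygons: explicit one variable inequalities.
-/

set_option autoImplicit false

namespace Pool.Agent.Helper76.Freq

open scoped RealInnerProductSpace

/-! ### coordinates -/

theorem mon_inner (a b : R3) : ⟪a, b⟫ = a 0 * b 0 + a 1 * b 1 + a 2 * b 2 := by
  rw [PiLp.inner_apply, Fin.sum_univ_three]
  simp only [RCLike.inner_apply, conj_trivial]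
  ring

theorem mon_norm_sq (a : R3) : ‖a‖ ^ 2 = a 0 ^ 2 + a 1 ^ 2 + a 2 ^ 2 := by
  rw [EuclideanSpace.norm_sq_eq, Fin.sum_univ_three]
  simp only [Real.norm_eq_abs, sq_abs]

theorem mon_norm_sq7 (v : E6) : ‖v‖ ^ 2 =
    v 0 ^ 2 + v 1 ^ 2 + v 2 ^ 2 + v 3 ^ 2 + v 4 ^ 2 + v 5 ^ 2 + v 6 ^ 2 := by
  rw [EuclideanSpace.norm_sq_eq, Fin.sum_univ_seven]
  simp only [Real.norm_eq_abs, sq_abs]

theorem mon_sqrt3 : (√3 : ℝ) ^ 2 = 3 := Real.sq_sqrt (by norm_num)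

section pt

variable (α β σ t : ℝ) (a b : R3)

theorem mon_pt_0 : pt α a β b σ t 0 = √3 * (α * (a 0 * a 1) - β * (b 0 * b 1)) := by
  change α * (√3 * a 0 * a 1) - β * (√3 * b 0 * b 1) = _
  ring

theorem mon_pt_1 : pt α a β b σ t 1 = √3 * (α * (a 0 * a 2) - β * (b 0 * b 2)) := by
  change α * (√3 * a 0 * a 2) - β * (√3 * b 0 * b 2) = _
  ring

theorem mon_pt_2 : pt α a β b σ t 2 = √3 * (α * (a 1 * a 2) - β * (b 1 * b 2)) := by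
  change α * (√3 * a 1 * a 2) - β * (√3 * b 1 * b 2) = _
  ring

theorem mon_pt_3 : pt α a β b σ t 3 =
    √3 * (α * ((a 0 ^ 2 - a 2 ^ 2) / 2) - β * ((b 0 ^ 2 - b 2 ^ 2) / 2)) := by
  change α * (√3 / 2 * (a 0 ^ 2 - a 2 ^ 2)) - β * (√3 / 2 * (b 0 ^ 2 - b 2 ^ 2)) = _
  ring

theorem mon_pt_4 : pt α a β b σ t 4 =
    α * ((a 0 ^ 2 + a 2 ^ 2 - 2 * a 1 ^ 2) / 2) - β * ((b 0 ^ 2 + b 2 ^ 2 - 2 * b 1 ^ 2) / 2) :=
  rfl

theorem mon_pt_5 : pt α a β b σ t 5 = σ := rfl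

theorem mon_pt_6 : pt α a β b σ t 6 = t := rfl

theorem mon_H4 : H4 (pt α a β b σ t) = (α * ‖a‖ ^ 2 - β * ‖b‖ ^ 2) ^ 3 +
    9 / 2 * α * β * (α * ‖a‖ ^ 2 - β * ‖b‖ ^ 2) * (‖a‖ ^ 2 * ‖b‖ ^ 2 - ⟪a, b⟫ ^ 2) := by
  have h3 := mon_sqrt3
  have h4 : (√3 : ℝ) ^ 4 = 9 := by
    rw [show (4 : ℕ) = 2 * 2 from rfl, pow_mul, h3]; norm_num
  have key : ∀ w c0 c1 c2 c3 v4 : ℝ, w ^ 2 = 3 → w ^ 4 = 9 →
      -(v4) ^ 3 + 3 * v4 * (w * c3) ^ 2 + 3 * w * (w * c0) * (w * c1) * (w * c2) +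
        3 * w / 2 * (w * c3) * ((w * c0) ^ 2 - (w * c2) ^ 2) + 3 * v4 * (w * c1) ^ 2 -
        3 / 2 * v4 * ((w * c0) ^ 2 + (w * c2) ^ 2) =
      -(v4) ^ 3 + 9 * v4 * c3 ^ 2 + 27 * c0 * c1 * c2 + 27 / 2 * c3 * (c0 ^ 2 - c2 ^ 2) +
        9 * v4 * c1 ^ 2 - 9 / 2 * v4 * (c0 ^ 2 + c2 ^ 2) := by
    intro w c0 c1 c2 c3 v4 h2 h4
    linear_combination (3 * v4 * c3 ^ 2 + 3 * v4 * c1 ^ 2 - 3 / 2 * v4 * (c0 ^ 2 + c2 ^ 2)) * h2 +
      (3 * c0 * c1 * c2 + 3 / 2 * c3 * (c0 ^ 2 - c2 ^ 2)) * h4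
  rw [H4, mon_pt_0, mon_pt_1, mon_pt_2, mon_pt_3, mon_pt_4, key _ _ _ _ _ _ h3 h4, mon_norm_sq, mon_norm_sq,
    mon_inner]
  ring

theorem mon_norm : ‖pt α a β b σ t‖ ^ 2 =
    α ^ 2 * (‖a‖ ^ 2) ^ 2 + β ^ 2 * (‖b‖ ^ 2) ^ 2 -
      α * β * (3 * ⟪a, b⟫ ^ 2 - ‖a‖ ^ 2 * ‖b‖ ^ 2) + σ ^ 2 + t ^ 2 := by
  rw [mon_norm_sq7, mon_pt_0, mon_pt_1, mon_pt_2, mon_pt_3, mon_pt_4, mon_pt_5, mon_pt_6, mon_norm_sq, mon_norm_sq,
    mon_inner]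
  simp only [mul_pow, mon_sqrt3]
  ring

theorem mon_qf (x : R3) : qf (pt α a β b σ t) x =
    α * ((3 * ⟪a, x⟫ ^ 2 - ‖a‖ ^ 2 * ‖x‖ ^ 2) / 2) -
      β * ((3 * ⟪b, x⟫ ^ 2 - ‖b‖ ^ 2 * ‖x‖ ^ 2) / 2) := by
  have h3 := mon_sqrt3
  rw [qf, mon_pt_0, mon_pt_1, mon_pt_2, mon_pt_3, mon_pt_4, mon_norm_sq, mon_norm_sq, mon_norm_sq, mon_inner,
    mon_inner]
  change _ * (√3 * x 0 * x 1) + _ * (√3 * x 0 * x 2) + _ * (√3 * x 1 * x 2) +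
    _ * (√3 / 2 * (x 0 ^ 2 - x 2 ^ 2)) + _ * ((x 0 ^ 2 + x 2 ^ 2 - 2 * x 1 ^ 2) / 2) = _
  generalize √3 = w at h3
  linear_combination ((α * (a 0 * a 1) - β * (b 0 * b 1)) * (x 0 * x 1) +
    (α * (a 0 * a 2) - β * (b 0 * b 2)) * (x 0 * x 2) +
    (α * (a 1 * a 2) - β * (b 1 * b 2)) * (x 1 * x 2) +
    (α * ((a 0 ^ 2 - a 2 ^ 2) / 2) - β * ((b 0 ^ 2 - b 2 ^ 2) / 2)) *
      ((x 0 ^ 2 - x 2 ^ 2) / 2)) * h3

end pt

/-! ### homogeneity -/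

theorem mon_H4_smul (c : ℝ) (v : E6) : H4 (c • v) = c ^ 3 * H4 v := by
  simp only [H4, PiLp.smul_apply, smul_eq_mul]
  ring

theorem mon_qf_smul (c : ℝ) (v : E6) (x : R3) : qf (c • v) x = c * qf v x := by
  simp only [qf, PiLp.smul_apply, smul_eq_mul]
  ring

theorem mon_HH_nrm {v : E6} (hv : v ≠ 0) :
    HH (nrm v) = H4 v / ‖v‖ ^ 3 + (v 5 ^ 2 - v 6 ^ 2) / ‖v‖ ^ 2 := by
  have h : ‖v‖ ≠ 0 := norm_ne_zero_iff.2 hv
  rw [HH, nrm, mon_H4_smul]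
  simp only [PiLp.smul_apply, smul_eq_mul]
  field_simp
  ring

/-! ### the function along a crossing arc -/

/-- the square of the norm -/
noncomputable def mon_mo (a b s t x : ℝ) : ℝ :=
  ((1 - x) * a) ^ 2 + ((1 - x) * a) * (x * b) + (x * b) ^ 2 + ((1 - x) * s) ^ 2 + (x * t) ^ 2

/-- the cubic part -/
noncomputable def mon_Po (a b x : ℝ) : ℝ :=
  ((1 - x) * a) ^ 3 + 3 / 2 * ((1 - x) * a) ^ 2 * (x * b) -
    3 / 2 * ((1 - x) * a) * (x * b) ^ 2 - (x * b) ^ 3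

/-- the quadratic part -/
noncomputable def mon_Uo (s t x : ℝ) : ℝ := ((1 - x) * s) ^ 2 - (x * t) ^ 2

/-- the function `HH` along the arc -/
noncomputable def mon_fo (a b s t x : ℝ) : ℝ :=
  mon_Po a b x / √(mon_mo a b s t x) ^ 3 + mon_Uo s t x / √(mon_mo a b s t x) ^ 2

theorem mon_core_final {A B n P Q V w : ℝ} (hA : 0 ≤ A) (hB : 0 ≤ B) (hn : 0 < n)
    (hQ : Q = A ^ 2 + A * B + B ^ 2) (hQn : Q ≤ n ^ 2)
    (h1 : (A ^ 2 - B ^ 2) * P ≤ 3 / 2 * (A + B) * (A - B) ^ 2 * n ^ 2)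
    (h3 : P * V ≤ n ^ 6 / 20) (h4 : -(n * w * V) ≤ n ^ 6 / 10) :
    -(3 / 2) * (A + B) * (2 * A ^ 2 - A * B + 2 * B ^ 2) * n ^ 3 + n * ((A ^ 2 - B ^ 2) * P) -
        2 * (n ^ 2 - Q) * n ^ 4 + P * V - P ^ 2 - n * w * V < 0 := by
  have hn3 : 0 < n ^ 3 := by positivity
  have hn6 : 0 < n ^ 6 := by positivity
  have h2 : n * ((A ^ 2 - B ^ 2) * P) ≤ n * (3 / 2 * (A + B) * (A - B) ^ 2 * n ^ 2) :=
    mul_le_mul_of_nonneg_left h1 hn.le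
  have hAB : 0 ≤ A + B := by positivity
  have hAB' : 0 ≤ A * B := mul_nonneg hA hB
  have hQ0 : 0 ≤ Q := by rw [hQ]; positivity
  have h5 : -(3 / 2) * (A + B) * (2 * A ^ 2 - A * B + 2 * B ^ 2) * n ^ 3 +
      n * (3 / 2 * (A + B) * (A - B) ^ 2 * n ^ 2) = -(3 / 2) * ((A + B) * Q * n ^ 3) := by
    rw [hQ]; ring
  have h0 := sq_nonneg P
  have key : 3 / 20 * n ^ 6 < 3 / 2 * ((A + B) * Q * n ^ 3) + 2 * (n ^ 2 - Q) * n ^ 4 := by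
    rcases le_or_gt Q (n ^ 2 / 2) with hc | hc
    · have h6 : n ^ 6 ≤ 2 * (n ^ 2 - Q) * n ^ 4 := by
        have : n ^ 2 ≤ 2 * (n ^ 2 - Q) := by linarith
        calc n ^ 6 = n ^ 2 * n ^ 4 := by ring
          _ ≤ _ := mul_le_mul_of_nonneg_right this (by positivity)
      have h7 : 0 ≤ (A + B) * Q * n ^ 3 := mul_nonneg (mul_nonneg hAB hQ0) hn3.le
      linarith
    · have h6 : n / 2 ≤ A + B := by
        apply le_of_sq_le_sq _ hAB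
        have : (A + B) ^ 2 = Q + A * B := by rw [hQ]; ring
        rw [this]
        have : (n / 2) ^ 2 = n ^ 2 / 4 := by ring
        have : 0 ≤ n ^ 2 := sq_nonneg n
        linarith
      have h7 : n / 2 * (n ^ 2 / 2) * n ^ 3 ≤ (A + B) * Q * n ^ 3 := by
        refine mul_le_mul_of_nonneg_right (mul_le_mul h6 hc.le (by positivity) hAB) hn3.le
      have h8 : 0 ≤ 2 * (n ^ 2 - Q) * n ^ 4 := by
        have : 0 ≤ n ^ 2 - Q := by linarith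
        positivity
      have h9 : n / 2 * (n ^ 2 / 2) * n ^ 3 = n ^ 6 / 4 := by ring
      rw [h9] at h7
      linarith
  generalize (A + B) * Q * n ^ 3 = Y at h5 key
  generalize -(3 / 2) * (A + B) * (2 * A ^ 2 - A * B + 2 * B ^ 2) * n ^ 3 = Z at h5 ⊢
  generalize n * (3 / 2 * (A + B) * (A - B) ^ 2 * n ^ 2) = W at h5 h2
  generalize n * ((A ^ 2 - B ^ 2) * P) = W' at h2 ⊢
  generalize n * w * V = V' at h4 ⊢
  linarith

theorem mon_core_ineq {A B σ ρ n : ℝ} (hA : 0 ≤ A) (hB : 0 ≤ B) (hn : 0 < n)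
    (hn2 : n ^ 2 = A ^ 2 + A * B + B ^ 2 + σ ^ 2 + ρ ^ 2)
    (hF : |(A ^ 3 + 3 / 2 * A ^ 2 * B - 3 / 2 * A * B ^ 2 - B ^ 3) + (σ ^ 2 - ρ ^ 2) * n| ≤
      n ^ 3 / 20) :
    (-3 * A ^ 3 - 3 / 2 * A ^ 2 * B - 3 / 2 * A * B ^ 2 - 3 * B ^ 3) * n ^ 2 -
      3 / 2 * (A ^ 3 + 3 / 2 * A ^ 2 * B - 3 / 2 * A * B ^ 2 - B ^ 3) *
        (2 * (B ^ 2 + ρ ^ 2 - A ^ 2 - σ ^ 2)) +
      (-2 * (σ ^ 2 + ρ ^ 2)) * n ^ 3 -
      (σ ^ 2 - ρ ^ 2) * (2 * (B ^ 2 + ρ ^ 2 - A ^ 2 - σ ^ 2)) * n < 0 := by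
  obtain ⟨P, hP⟩ : ∃ P, P = A ^ 3 + 3 / 2 * A ^ 2 * B - 3 / 2 * A * B ^ 2 - B ^ 3 := ⟨_, rfl⟩
  obtain ⟨U, hU⟩ : ∃ U, U = σ ^ 2 - ρ ^ 2 := ⟨_, rfl⟩
  obtain ⟨w, hw⟩ : ∃ w, w = 2 * (B ^ 2 + ρ ^ 2 - A ^ 2 - σ ^ 2) := ⟨_, rfl⟩
  obtain ⟨Q, hQ⟩ : ∃ Q, Q = A ^ 2 + A * B + B ^ 2 := ⟨_, rfl⟩
  rw [← hP, ← hU] at hF
  rw [← hP, ← hU, ← hw]
  have hAB : 0 ≤ A * B := mul_nonneg hA hB
  have hQ0 : 0 ≤ Q := by rw [hQ]; positivity
  have hsum : σ ^ 2 + ρ ^ 2 = n ^ 2 - Q := by rw [hn2, hQ]; ring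
  have hQn : Q ≤ n ^ 2 := by linarith [sq_nonneg σ, sq_nonneg ρ]
  have hP2 : P ^ 2 ≤ Q ^ 3 := by
    have h1 : Q ^ 3 - P ^ 2 = (A * B) ^ 2 * (27 / 4 * (A ^ 2 + B ^ 2) + 27 / 2 * (A * B)) := by
      rw [hP, hQ]; ring
    have h2 : 0 ≤ (A * B) ^ 2 * (27 / 4 * (A ^ 2 + B ^ 2) + 27 / 2 * (A * B)) := by positivity
    linarith
  have hn3 : 0 < n ^ 3 := by positivity
  have hPn : |P| ≤ n ^ 3 := by
    apply abs_le_of_sq_le_sq _ hn3.le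
    calc P ^ 2 ≤ Q ^ 3 := hP2
      _ ≤ (n ^ 2) ^ 3 := pow_le_pow_left₀ hQ0 hQn 3
      _ = (n ^ 3) ^ 2 := by ring
  have hwn : |w| ≤ 2 * n ^ 2 := by
    rw [abs_le, hw, hn2]
    constructor <;> linarith [sq_nonneg σ, sq_nonneg ρ, sq_nonneg A, sq_nonneg B]
  have e1 : (-3 * A ^ 3 - 3 / 2 * A ^ 2 * B - 3 / 2 * A * B ^ 2 - 3 * B ^ 3) * n ^ 2 -
      3 / 2 * P * w + (-2 * (σ ^ 2 + ρ ^ 2)) * n ^ 3 - U * w * n =
      (-3 * A ^ 3 - 3 / 2 * A ^ 2 * B - 3 / 2 * A * B ^ 2 - 3 * B ^ 3) * n ^ 2 +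
        (A ^ 2 - B ^ 2) * P + (-2 * (n ^ 2 - Q)) * n ^ 3 + P * U - w * (P + U * n) := by
    rw [hsum, hw, hU]; ring
  rw [e1]
  obtain ⟨V, hV⟩ : ∃ V, V = P + U * n := ⟨_, rfl⟩
  rw [← hV] at hF ⊢
  -- multiply by `n`
  suffices h : n * ((-3 * A ^ 3 - 3 / 2 * A ^ 2 * B - 3 / 2 * A * B ^ 2 - 3 * B ^ 3) * n ^ 2 +
        (A ^ 2 - B ^ 2) * P + (-2 * (n ^ 2 - Q)) * n ^ 3 + P * U - w * V) < 0 by
    by_contra hcon
    rw [not_lt] at hcon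
    exact absurd h (not_lt.2 (mul_nonneg hn.le hcon))
  have e2 : n * ((-3 * A ^ 3 - 3 / 2 * A ^ 2 * B - 3 / 2 * A * B ^ 2 - 3 * B ^ 3) * n ^ 2 +
        (A ^ 2 - B ^ 2) * P + (-2 * (n ^ 2 - Q)) * n ^ 3 + P * U - w * V) =
      -(3 / 2) * (A + B) * (2 * A ^ 2 - A * B + 2 * B ^ 2) * n ^ 3 + n * ((A ^ 2 - B ^ 2) * P) -
        2 * (n ^ 2 - Q) * n ^ 4 + P * V - P ^ 2 - n * w * V := by
    have h1 : P * V = P ^ 2 + n * (P * U) := by rw [hV]; ring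
    rw [h1]
    ring
  rw [e2]
  refine mon_core_final hA hB hn hQ hQn ?_ ?_ ?_
  · have e3 : (A ^ 2 - B ^ 2) * P = (A + B) * (A - B) ^ 2 * (A ^ 2 + 5 / 2 * (A * B) + B ^ 2) := by
      rw [hP]; ring
    have h2 : A ^ 2 + 5 / 2 * (A * B) + B ^ 2 ≤ 3 / 2 * n ^ 2 := by
      have := sq_nonneg (A - B)
      rw [hQ] at hQn
      nlinarith
    have h3 : 0 ≤ (A + B) * (A - B) ^ 2 := by positivity
    rw [e3]
    calc _ ≤ (A + B) * (A - B) ^ 2 * (3 / 2 * n ^ 2) := mul_le_mul_of_nonneg_left h2 h3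
      _ = _ := by ring
  · calc P * V ≤ |P * V| := le_abs_self _
      _ = |P| * |V| := abs_mul _ _
      _ ≤ n ^ 3 * (n ^ 3 / 20) := mul_le_mul hPn hF (abs_nonneg _) hn3.le
      _ = _ := by ring
  · calc -(n * w * V) ≤ |-(n * w * V)| := le_abs_self _
      _ = n * (|w| * |V|) := by rw [abs_neg, abs_mul, abs_mul, abs_of_pos hn, mul_assoc]
      _ ≤ n * (2 * n ^ 2 * (n ^ 3 / 20)) := by
        refine mul_le_mul_of_nonneg_left (mul_le_mul hwn hF (abs_nonneg _) (by positivity)) hn.le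
      _ = _ := by ring

theorem mon_mo_pos {a b s t x : ℝ} (ha : a = 1 - s ^ 2) (hb : b = 1 - t ^ 2) (hs : |s| ≤ 1)
    (ht : |t| ≤ 1) (hx : x ∈ Set.Icc (0 : ℝ) 1) : 3 / 8 ≤ mon_mo a b s t x := by
  have hs2 : s ^ 2 ≤ 1 := by rwa [sq_le_one_iff_abs_le_one]
  have ht2 : t ^ 2 ≤ 1 := by rwa [sq_le_one_iff_abs_le_one]
  have ha0 : 0 ≤ a := by rw [ha]; linarith
  have hb0 : 0 ≤ b := by rw [hb]; linarith
  have h1 : 3 / 4 ≤ a ^ 2 + s ^ 2 := by rw [ha]; nlinarith [sq_nonneg (s ^ 2 - 1 / 2)]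
  have h2 : 3 / 4 ≤ b ^ 2 + t ^ 2 := by rw [hb]; nlinarith [sq_nonneg (t ^ 2 - 1 / 2)]
  have h3 : 0 ≤ ((1 - x) * a) * (x * b) :=
    mul_nonneg (mul_nonneg (by linarith [hx.2]) ha0) (mul_nonneg hx.1 hb0)
  have h4 : mon_mo a b s t x = (1 - x) ^ 2 * (a ^ 2 + s ^ 2) + x ^ 2 * (b ^ 2 + t ^ 2) +
      ((1 - x) * a) * (x * b) := by rw [mon_mo]; ring
  rw [h4]
  have h5 := mul_le_mul_of_nonneg_left h1 (sq_nonneg (1 - x))
  have h6 := mul_le_mul_of_nonneg_left h2 (sq_nonneg x)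
  nlinarith [sq_nonneg (x - 1 / 2)]

theorem mon_deriv_alg {n P P' m' U U' : ℝ} (hn : n ≠ 0) :
    n ^ 5 * ((P' * n ^ 3 - P * (3 * n ^ 2 * (m' / (2 * n)))) / (n ^ 3) ^ 2 +
      (U' * n ^ 2 - U * (2 * n * (m' / (2 * n)))) / (n ^ 2) ^ 2) =
      P' * n ^ 2 - 3 / 2 * P * m' + U' * n ^ 3 - U * m' * n := by
  field_simp
  ring

theorem mon_fo_deriv {a b s t x : ℝ} (hm : 0 < mon_mo a b s t x) :
    ∃ D : ℝ, HasDerivAt (mon_fo a b s t) D x ∧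
      2 * (x * (1 - x)) * √(mon_mo a b s t x) ^ 5 * D =
      (-3 * ((1 - x) * a) ^ 3 - 3 / 2 * ((1 - x) * a) ^ 2 * (x * b) -
        3 / 2 * ((1 - x) * a) * (x * b) ^ 2 - 3 * (x * b) ^ 3) * √(mon_mo a b s t x) ^ 2 -
      3 / 2 * (((1 - x) * a) ^ 3 + 3 / 2 * ((1 - x) * a) ^ 2 * (x * b) -
        3 / 2 * ((1 - x) * a) * (x * b) ^ 2 - (x * b) ^ 3) *
        (2 * ((x * b) ^ 2 + (x * t) ^ 2 - ((1 - x) * a) ^ 2 - ((1 - x) * s) ^ 2)) +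
      (-2 * (((1 - x) * s) ^ 2 + (x * t) ^ 2)) * √(mon_mo a b s t x) ^ 3 -
      (((1 - x) * s) ^ 2 - (x * t) ^ 2) *
        (2 * ((x * b) ^ 2 + (x * t) ^ 2 - ((1 - x) * a) ^ 2 - ((1 - x) * s) ^ 2)) *
          √(mon_mo a b s t x) := by
  have h1 : ∀ c : ℝ, HasDerivAt (fun x : ℝ => (1 - x) * c) (-c) x := fun c => by
    simpa using ((hasDerivAt_id x).const_sub 1).mul_const c
  have h2 : ∀ c : ℝ, HasDerivAt (fun x : ℝ => x * c) c x := fun c => by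
    simpa using (hasDerivAt_id x).mul_const c
  have hmd : HasDerivAt (mon_mo a b s t) (2 * ((1 - x) * a) * (-a) + (-a * (x * b) + (1 - x) * a * b) +
      2 * (x * b) * b + 2 * ((1 - x) * s) * (-s) + 2 * (x * t) * t) x := by
    have := (((((h1 a).pow 2).add ((h1 a).mul (h2 b))).add ((h2 b).pow 2)).add
      ((h1 s).pow 2)).add ((h2 t).pow 2)
    exact this.congr_deriv (by norm_num)
  have hPd : HasDerivAt (mon_Po a b) (3 * ((1 - x) * a) ^ 2 * (-a) +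
      (3 / 2 * (2 * ((1 - x) * a) * (-a)) * (x * b) + 3 / 2 * ((1 - x) * a) ^ 2 * b) -
      (3 / 2 * (-a) * (x * b) ^ 2 + 3 / 2 * ((1 - x) * a) * (2 * (x * b) * b)) -
      3 * (x * b) ^ 2 * b) x := by
    have := ((((h1 a).pow 3).add ((((h1 a).pow 2).const_mul (3 / 2)).mul (h2 b))).sub
      (((h1 a).const_mul (3 / 2)).mul ((h2 b).pow 2))).sub ((h2 b).pow 3)
    exact this.congr_deriv (by norm_num)
  have hUd : HasDerivAt (mon_Uo s t) (2 * ((1 - x) * s) * (-s) - 2 * (x * t) * t) x := by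
    have := ((h1 s).pow 2).sub ((h2 t).pow 2)
    exact this.congr_deriv (by norm_num)
  have hn : √(mon_mo a b s t x) ≠ 0 := (Real.sqrt_pos.2 hm).ne'
  have hn2 : √(mon_mo a b s t x) ^ 2 = mon_mo a b s t x := Real.sq_sqrt hm.le
  have hnd := hmd.sqrt hm.ne'
  have hf := (hPd.div (hnd.pow 3) (pow_ne_zero 3 hn)).add (hUd.div (hnd.pow 2) (pow_ne_zero 2 hn))
  have hf' := hf.congr_deriv (f' := _) (g' := _) (by
    rw [show ((3 : ℕ) : ℝ) = 3 by norm_num, show ((2 : ℕ) : ℝ) = 2 by norm_num,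
      show (3 - 1 : ℕ) = 2 from rfl, show (2 - 1 : ℕ) = 1 from rfl, pow_one])
  refine ⟨_, hf', ?_⟩
  simp only [Pi.pow_apply]
  rw [mul_assoc _ (√(mon_mo a b s t x) ^ 5), mon_deriv_alg hn]
  generalize √(mon_mo a b s t x) = n at hn2
  rw [mon_Po, mon_Uo]
  rw [mon_mo] at hn2
  linear_combination (3 * (1 - 2 * x) * (((1 - x) * a) ^ 3 + 3 / 2 * ((1 - x) * a) ^ 2 * (x * b) -
        3 / 2 * ((1 - x) * a) * (x * b) ^ 2 - (x * b) ^ 3) +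
    2 * (1 - 2 * x) * (((1 - x) * s) ^ 2 - (x * t) ^ 2) * n) * hn2

/-- the derivative is negative where the value is small -/
theorem mon_fo_deriv_neg {a b s t x : ℝ} (ha : a = 1 - s ^ 2) (hb : b = 1 - t ^ 2) (hs : |s| ≤ 1)
    (ht : |t| ≤ 1) (hx : x ∈ Set.Ioo (0 : ℝ) 1) (hf : |mon_fo a b s t x| ≤ 1 / 20) :
    ∃ D : ℝ, HasDerivAt (mon_fo a b s t) D x ∧ D < 0 := by
  have hs2 : s ^ 2 ≤ 1 := by rwa [sq_le_one_iff_abs_le_one]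
  have ht2 : t ^ 2 ≤ 1 := by rwa [sq_le_one_iff_abs_le_one]
  have ha0 : 0 ≤ a := by rw [ha]; linarith
  have hb0 : 0 ≤ b := by rw [hb]; linarith
  have hm : 0 < mon_mo a b s t x :=
    lt_of_lt_of_le (by norm_num) (mon_mo_pos ha hb hs ht ⟨hx.1.le, hx.2.le⟩)
  obtain ⟨D, hD, hDe⟩ := mon_fo_deriv hm
  refine ⟨D, hD, ?_⟩
  have hn : 0 < √(mon_mo a b s t x) := Real.sqrt_pos.2 hm
  have hn2 : √(mon_mo a b s t x) ^ 2 = mon_mo a b s t x := Real.sq_sqrt hm.le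
  have h1x : 0 < 1 - x := by linarith [hx.2]
  have hA : 0 ≤ (1 - x) * a := mul_nonneg h1x.le ha0
  have hB : 0 ≤ x * b := mul_nonneg hx.1.le hb0
  have hF : |(((1 - x) * a) ^ 3 + 3 / 2 * ((1 - x) * a) ^ 2 * (x * b) -
        3 / 2 * ((1 - x) * a) * (x * b) ^ 2 - (x * b) ^ 3) +
        (((1 - x) * s) ^ 2 - (x * t) ^ 2) * √(mon_mo a b s t x)| ≤ √(mon_mo a b s t x) ^ 3 / 20 := by
    have e : (((1 - x) * a) ^ 3 + 3 / 2 * ((1 - x) * a) ^ 2 * (x * b) -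
        3 / 2 * ((1 - x) * a) * (x * b) ^ 2 - (x * b) ^ 3) +
        (((1 - x) * s) ^ 2 - (x * t) ^ 2) * √(mon_mo a b s t x) =
        √(mon_mo a b s t x) ^ 3 * mon_fo a b s t x := by
      rw [mon_fo, mon_Po, mon_Uo]
      field_simp
    rw [e, abs_mul, abs_of_pos (by positivity : 0 < √(mon_mo a b s t x) ^ 3)]
    calc _ ≤ √(mon_mo a b s t x) ^ 3 * (1 / 20) := mul_le_mul_of_nonneg_left hf (by positivity)
      _ = _ := by ring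
  have key := mon_core_ineq (A := (1 - x) * a) (B := x * b) (σ := (1 - x) * s) (ρ := x * t) hA hB hn
    (by rw [hn2, mon_mo]) hF
  rw [← hDe] at key
  have hpos : 0 < 2 * (x * (1 - x)) * √(mon_mo a b s t x) ^ 5 := by
    have := hx.1
    positivity
  by_contra hcon
  rw [not_lt] at hcon
  exact absurd key (not_lt.2 (mul_nonneg hpos.le hcon))

theorem mon_fo_continuousOn {a b s t : ℝ} (ha : a = 1 - s ^ 2) (hb : b = 1 - t ^ 2) (hs : |s| ≤ 1)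
    (ht : |t| ≤ 1) : ContinuousOn (mon_fo a b s t) (Set.Icc 0 1) := by
  intro x hx
  have hm : 0 < mon_mo a b s t x := lt_of_lt_of_le (by norm_num) (mon_mo_pos ha hb hs ht hx)
  obtain ⟨D, hD, -⟩ := mon_fo_deriv hm
  exact hD.continuousAt.continuousWithinAt

/-- one variable lemma: superlevel sets are initial segments -/
theorem mon_anti_of_deriv {f : ℝ → ℝ} {c h : ℝ} (hc : ContinuousOn f (Set.Icc 0 1)) (hh : |h| ≤ c)
    (hd : ∀ x ∈ Set.Ioo (0 : ℝ) 1, |f x| ≤ c → ∃ D : ℝ, HasDerivAt f D x ∧ D < 0)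
    (h0 : c < f 0) {x y : ℝ} (hx : 0 ≤ x) (hxy : x ≤ y) (hy : y ≤ 1) (hfy : h < f y) :
    h < f x := by
  by_contra hcon
  rw [not_lt] at hcon
  rw [abs_le] at hh
  -- the last point of `[x, y]` where `f ≤ h`
  set S := {z ∈ Set.Icc x y | f z ≤ h} with hS
  have hcl : IsCompact S := by
    have h1 : ContinuousOn f (Set.Icc x y) := hc.mono (Set.Icc_subset_Icc hx hy)
    have h2 : IsClosed (Set.Icc x y ∩ f ⁻¹' Set.Iic h) :=
      h1.preimage_isClosed_of_isClosed isClosed_Icc isClosed_Iic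
    exact isCompact_Icc.of_isClosed_subset h2 (fun z hz => hz.1)
  have hne : S.Nonempty := ⟨x, ⟨le_rfl, hxy⟩, hcon⟩
  obtain ⟨z, hz, hzmax⟩ := hcl.exists_isGreatest hne
  have hzy : z < y := by
    refine lt_of_le_of_ne hz.1.2 fun h1 => ?_
    have := hz.2
    rw [h1] at this
    exact absurd hfy (not_lt.2 this)
  have hafter : ∀ w ∈ Set.Ioc z y, h < f w := by
    intro w hw
    by_contra h1
    rw [not_lt] at h1
    exact absurd (hzmax ⟨⟨hz.1.1.trans hw.1.le, hw.2⟩, h1⟩) (not_le.2 hw.1)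
  have hz01 : z ∈ Set.Icc (0 : ℝ) 1 := ⟨hx.trans hz.1.1, hz.1.2.trans hy⟩
  have hzpos : 0 < z := by
    refine lt_of_le_of_ne hz01.1 fun h1 => ?_
    have h2 := hz.2
    rw [← h1] at h2
    linarith
  -- `f z = h`
  have hfz : f z = h := by
    refine le_antisymm hz.2 ?_
    have h1 : Filter.Tendsto f (nhdsWithin z (Set.Ioc z y)) (nhds (f z)) :=
      (hc z hz01).mono_left (nhdsWithin_mono _ fun w hw => ⟨hz01.1.trans hw.1.le, hw.2.trans hy⟩)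
    have h2 : (nhdsWithin z (Set.Ioc z y)).NeBot := by
      rw [nhdsWithin_Ioc_eq_nhdsGT hzy]
      infer_instance
    refine ge_of_tendsto h1 ?_
    filter_upwards [self_mem_nhdsWithin] with w hw
    exact (hafter w hw).le
  obtain ⟨D, hD, hneg⟩ := hd z ⟨hzpos, lt_of_lt_of_le hzy hy⟩ (by
    rw [hfz, abs_le]; exact hh)
  -- contradiction with the sign of the derivative
  have h3 : ∀ᶠ w in nhdsWithin z (Set.Ioi z), f w < f z := by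
    have h4 := (hasDerivAt_iff_tendsto_slope.1 hD)
    have h5 : ∀ᶠ w in nhdsWithin z {z}ᶜ, slope f z w < 0 := h4.eventually_lt_const hneg
    have h6 : ∀ᶠ w in nhdsWithin z (Set.Ioi z), slope f z w < 0 :=
      h5.filter_mono (nhdsWithin_mono _ fun w hw => ne_of_gt hw)
    filter_upwards [h6, self_mem_nhdsWithin] with w hw hw2
    rw [slope_def_field, div_neg_iff] at hw
    rcases hw with hw | hw
    · exact absurd hw.2 (not_lt.2 (sub_nonneg.2 (le_of_lt hw2)))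
    · linarith [hw.1]
  have h7 : ∀ᶠ w in nhdsWithin z (Set.Ioi z), w ∈ Set.Ioc z y := by
    rw [← nhdsWithin_Ioc_eq_nhdsGT hzy]
    exact self_mem_nhdsWithin
  obtain ⟨w, hw1, hw2⟩ := (h3.and h7).exists
  have := hafter w hw2
  rw [hfz] at hw1
  exact lt_asymm this hw1

/-! ### the statements -/

theorem mon_E6_ext {v w : E6} (h0 : v 0 = w 0) (h1 : v 1 = w 1) (h2 : v 2 = w 2) (h3 : v 3 = w 3)
    (h4 : v 4 = w 4) (h5 : v 5 = w 5) (h6 : v 6 = w 6) : v = w := by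
  ext i
  fin_cases i
  · exact h0
  · exact h1
  · exact h2
  · exact h3
  · exact h4
  · exact h5
  · exact h6

theorem mon_seg_apply (v w : E6) (x : ℝ) (i : Fin 7) : seg v w x i = (1 - x) * v i + x * w i := rfl

theorem seg_eq_pt (a b : R3) (s t x : ℝ) :
    seg (vX a s) (vY b t) x = pt ((1 - x) * (1 - s ^ 2)) a (x * (1 - t ^ 2)) b ((1 - x) * s) (x * t) := by
  apply mon_E6_ext <;>
    simp only [mon_seg_apply, vX, vY, mon_pt_0, mon_pt_1, mon_pt_2, mon_pt_3, mon_pt_4, mon_pt_5, mon_pt_6] <;> ring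

theorem seg_e5_ver (a : R3) (x : ℝ) : seg v5 (pt 1 a 0 a 0 0) x = pt x a 0 a (1 - x) 0 := by
  apply mon_E6_ext <;>
    simp only [mon_seg_apply, v5, mon_pt_0, mon_pt_1, mon_pt_2, mon_pt_3, mon_pt_4, mon_pt_5, mon_pt_6] <;> ring

theorem seg_ver_vX (a : R3) (s x : ℝ) :
    seg (pt 1 a 0 a 0 0) (vX a s) x = pt (1 - x * s ^ 2) a 0 a (x * s) 0 := by
  apply mon_E6_ext <;>
    simp only [mon_seg_apply, vX, mon_pt_0, mon_pt_1, mon_pt_2, mon_pt_3, mon_pt_4, mon_pt_5, mon_pt_6] <;> ring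

theorem seg_vY_ver (b : R3) (t x : ℝ) :
    seg (vY b t) (pt 0 b 1 b 0 0) x = pt 0 b (1 - (1 - x) * t ^ 2) b 0 ((1 - x) * t) := by
  apply mon_E6_ext <;>
    simp only [mon_seg_apply, vY, mon_pt_0, mon_pt_1, mon_pt_2, mon_pt_3, mon_pt_4, mon_pt_5, mon_pt_6] <;> ring

theorem seg_ver_e6 (b : R3) (x : ℝ) : seg (pt 0 b 1 b 0 0) v6 x = pt 0 b (1 - x) b 0 x := by
  apply mon_E6_ext <;>
    simp only [mon_seg_apply, v6, mon_pt_0, mon_pt_1, mon_pt_2, mon_pt_3, mon_pt_4, mon_pt_5, mon_pt_6] <;> ring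

theorem mon_seg_e6_e5 (x : ℝ) : seg v6 v5 x = pt 0 0 0 0 x (1 - x) := by
  apply mon_E6_ext <;>
    simp only [mon_seg_apply, v6, v5, mon_pt_0, mon_pt_1, mon_pt_2, mon_pt_3, mon_pt_4, mon_pt_5, mon_pt_6] <;> ring

theorem Ok.cases {a b : R3} {s t : ℝ} (h : Ok a b s t) :
    ⟪a, b⟫ = 0 ∨ (1 - s ^ 2) * (1 - t ^ 2) = 0 := by
  obtain ⟨-, -, -, -, h | h | h⟩ := h
  · exact Or.inl h
  · right
    rw [← sq_abs s, h]; ring
  · right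
    rw [← sq_abs t, h]; ring

theorem Ok.norm_sq {a b : R3} {s t : ℝ} (h : Ok a b s t) (x : ℝ) :
    ‖seg (vX a s) (vY b t) x‖ ^ 2 = mon_mo (1 - s ^ 2) (1 - t ^ 2) s t x := by
  rw [seg_eq_pt, mon_norm, h.1, h.2.1, mon_mo]
  rcases h.cases with h0 | h0
  · rw [h0]; ring
  · linear_combination (-3 * ⟪a, b⟫ ^ 2 * x * (1 - x)) * h0

theorem Ok.H4 {a b : R3} {s t : ℝ} (h : Ok a b s t) (x : ℝ) :
    H4 (seg (vX a s) (vY b t) x) = mon_Po (1 - s ^ 2) (1 - t ^ 2) x := by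
  rw [seg_eq_pt, mon_H4, h.1, h.2.1, mon_Po]
  rcases h.cases with h0 | h0
  · rw [h0]; ring
  · linear_combination (-9 / 2 * ⟪a, b⟫ ^ 2 * x * (1 - x) *
      ((1 - x) * (1 - s ^ 2) - x * (1 - t ^ 2))) * h0

/-- M1 -/
theorem seg_norm {a b : R3} {s t x : ℝ} (h : Ok a b s t) (hx : x ∈ Set.Icc (0 : ℝ) 1) :
    3 / 8 ≤ ‖seg (vX a s) (vY b t) x‖ ^ 2 := by
  rw [h.norm_sq]
  exact mon_mo_pos rfl rfl h.2.2.1 h.2.2.2.1 hx

theorem Ok.norm_eq {a b : R3} {s t : ℝ} (h : Ok a b s t) (x : ℝ) :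
    ‖seg (vX a s) (vY b t) x‖ = √(mon_mo (1 - s ^ 2) (1 - t ^ 2) s t x) := by
  rw [← h.norm_sq, Real.sqrt_sq (norm_nonneg _)]

theorem Ok.ne_zero {a b : R3} {s t x : ℝ} (h : Ok a b s t) (hx : x ∈ Set.Icc (0 : ℝ) 1) :
    seg (vX a s) (vY b t) x ≠ 0 := by
  intro h0
  have := seg_norm h hx
  rw [h0, norm_zero] at this
  norm_num at this

theorem Ok.HH {a b : R3} {s t x : ℝ} (h : Ok a b s t) (hx : x ∈ Set.Icc (0 : ℝ) 1) :
    HH (nrm (seg (vX a s) (vY b t) x)) = mon_fo (1 - s ^ 2) (1 - t ^ 2) s t x := by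
  rw [mon_HH_nrm (h.ne_zero hx), h.H4, h.norm_eq, mon_fo, seg_eq_pt, mon_pt_5, mon_pt_6, mon_Uo]

theorem mon_cubic_bound {c : ℝ} (h0 : 0 ≤ c) : 4 / 5 ≤ c ^ 3 + (1 - c ^ 2) := by
  nlinarith [sq_nonneg (c - 2 / 3), mul_nonneg h0 (sq_nonneg (c - 2 / 3))]

/-- M4 : c³ + (1 - c²) ≥ 23/27 -/
theorem HH_plus {a : R3} {α s : ℝ} (ha : ‖a‖ = 1) (hα : 0 ≤ α) (h0 : α ≠ 0 ∨ s ≠ 0) :
    4 / 5 ≤ HH (nrm (pt α a 0 a s 0)) := by
  have hn : ‖pt α a 0 a s 0‖ ^ 2 = α ^ 2 + s ^ 2 := by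
    rw [mon_norm, ha]; ring
  have hpos : 0 < α ^ 2 + s ^ 2 := by
    rcases h0 with h | h
    · have := sq_pos_of_ne_zero h; positivity
    · have := sq_pos_of_ne_zero h; positivity
  have hne : pt α a 0 a s 0 ≠ 0 := by
    intro h
    rw [h, norm_zero] at hn
    linarith [hn]
  have hnp : 0 < ‖pt α a 0 a s 0‖ := norm_pos_iff.2 hne
  rw [mon_HH_nrm hne, mon_H4, ha, mon_pt_5, mon_pt_6]
  generalize ‖pt α a 0 a s 0‖ = n at hn hnp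
  have h1 := mon_cubic_bound (c := α / n) (by positivity)
  have h2 : (α / n) ^ 3 + (1 - (α / n) ^ 2) = (α * 1 ^ 2 - 0 * 1 ^ 2) ^ 3 / n ^ 3 +
      (s ^ 2 - 0 ^ 2) / n ^ 2 := by
    have h3 : s ^ 2 = n ^ 2 - α ^ 2 := by rw [hn]; ring
    rw [h3]
    field_simp
    ring
  rw [h2] at h1
  convert h1 using 2
  ring

theorem HH_minus {b : R3} {β t : ℝ} (hb : ‖b‖ = 1) (hβ : 0 ≤ β) (h0 : β ≠ 0 ∨ t ≠ 0) :
    HH (nrm (pt 0 b β b 0 t)) ≤ -(4 / 5) := by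
  have hn : ‖pt 0 b β b 0 t‖ ^ 2 = β ^ 2 + t ^ 2 := by
    rw [mon_norm, hb]; ring
  have hpos : 0 < β ^ 2 + t ^ 2 := by
    rcases h0 with h | h
    · have := sq_pos_of_ne_zero h; positivity
    · have := sq_pos_of_ne_zero h; positivity
  have hne : pt 0 b β b 0 t ≠ 0 := by
    intro h
    rw [h, norm_zero] at hn
    linarith [hn]
  have hnp : 0 < ‖pt 0 b β b 0 t‖ := norm_pos_iff.2 hne
  rw [mon_HH_nrm hne, mon_H4, hb, mon_pt_5, mon_pt_6]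
  generalize ‖pt 0 b β b 0 t‖ = n at hn hnp
  have h1 := mon_cubic_bound (c := β / n) (by positivity)
  have h2 : -((β / n) ^ 3 + (1 - (β / n) ^ 2)) = (0 * 1 ^ 2 - β * 1 ^ 2) ^ 3 / n ^ 3 +
      (0 ^ 2 - t ^ 2) / n ^ 2 := by
    have h3 : t ^ 2 = n ^ 2 - β ^ 2 := by rw [hn]; ring
    rw [h3]
    field_simp
    ring
  have h4 := neg_le_neg h1
  rw [h2] at h4
  refine le_of_eq_of_le ?_ h4
  ring

/-- M2 : super-level sets at levels in `[-1/20, 1/20]` are initial segments -/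
theorem HH_seg_anti {a b : R3} {s t x y h : ℝ} (hok : Ok a b s t) (hx : 0 ≤ x) (hxy : x ≤ y)
    (hy : y ≤ 1) (hh : |h| ≤ 1 / 20) (hfy : h < HH (nrm (seg (vX a s) (vY b t) y))) :
    h < HH (nrm (seg (vX a s) (vY b t) x)) := by
  rw [hok.HH ⟨hx.trans hxy, hy⟩] at hfy
  rw [hok.HH ⟨hx, hxy.trans hy⟩]
  refine mon_anti_of_deriv (mon_fo_continuousOn rfl rfl hok.2.2.1 hok.2.2.2.1) hh
    (fun z hz hfz => mon_fo_deriv_neg rfl rfl hok.2.2.1 hok.2.2.2.1 hz hfz) ?_ hx hxy hy hfy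
  have h0 : seg (vX a s) (vY b t) 0 = pt (1 - s ^ 2) a 0 a s 0 := by
    rw [seg, sub_zero, one_smul, zero_smul, add_zero, vX]
  rw [← hok.HH (by simp), h0]
  have hs2 : s ^ 2 ≤ 1 := by
    have := hok.2.2.1
    rwa [sq_le_one_iff_abs_le_one]
  refine lt_of_lt_of_le (by norm_num) (HH_plus hok.1 (by linarith) ?_)
  by_cases hs : s = 0
  · left; rw [hs]; norm_num
  · exact Or.inr hs

/-- M3 -/
theorem tau_seg_anti {a b : R3} {s t : ℝ} (hok : Ok a b s t) :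
    AntitoneOn (fun x => tau (nrm (seg (vX a s) (vY b t) x))) (Set.Icc (0 : ℝ) 1) := by
  intro x hx y hy hxy
  change tau _ ≤ tau _
  rw [tau, tau]
  rcases le_or_gt (HH (nrm (seg (vX a s) (vY b t) y))) (HH (nrm (seg (vX a s) (vY b t) x)))
    with h1 | h1
  · exact Real.smoothTransition.monotone (by linarith)
  · rcases le_or_gt (HH (nrm (seg (vX a s) (vY b t) y))) (-(1 / 20)) with h2 | h2
    · rw [Real.smoothTransition.zero_of_nonpos (by linarith)]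
      exact Real.smoothTransition.nonneg _
    · rcases le_or_gt (1 / 20) (HH (nrm (seg (vX a s) (vY b t) x))) with h3 | h3
      · rw [Real.smoothTransition.one_of_one_le
          (x := 10 * HH (nrm (seg (vX a s) (vY b t) x)) + 1 / 2) (by linarith)]
        exact Real.smoothTransition.le_one _
      · exfalso
        obtain ⟨h, hh1, hh2⟩ : ∃ h, |h| ≤ 1 / 20 ∧ HH (nrm (seg (vX a s) (vY b t) x)) ≤ h ∧
            h < HH (nrm (seg (vX a s) (vY b t) y)) := by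
          refine ⟨max (-(1 / 20)) (HH (nrm (seg (vX a s) (vY b t) x))), ?_, le_max_right _ _,
            max_lt h2 h1⟩
          rw [abs_le]
          exact ⟨le_max_left _ _, max_le (by norm_num) h3.le⟩
        have := HH_seg_anti hok hx.1 hxy hy.2 hh1 hh2.2
        linarith [hh2.1]

theorem mon_end_bound {B σ ρ n F : ℝ} (hB : 0 ≤ B) (hn : 0 < n) (hn2 : n ^ 2 = B ^ 2 + σ ^ 2 + ρ ^ 2)
    (hF : F = -(B ^ 3) / n ^ 3 + (σ ^ 2 - ρ ^ 2) / n ^ 2) (hF2 : -(1 / 2) ≤ F) :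
    1 / 10 < |σ / n| := by
  by_contra hcon
  rw [not_lt] at hcon
  have h1 : (σ / n) ^ 2 ≤ 1 / 100 := by
    rw [← sq_abs]
    have := abs_nonneg (σ / n)
    nlinarith
  have h2 : (ρ / n) ^ 2 = 1 - (B / n) ^ 2 - (σ / n) ^ 2 := by
    have : ρ ^ 2 = n ^ 2 - B ^ 2 - σ ^ 2 := by rw [hn2]; ring
    rw [div_pow, this]
    field_simp
  have h3 : F = -(B / n) ^ 3 + (σ / n) ^ 2 - (ρ / n) ^ 2 := by
    rw [hF]
    field_simp
    ring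
  have h4 := mon_cubic_bound (c := B / n) (by positivity)
  rw [h2] at h3
  linarith

/-- M5 -/
theorem seg_five {a b : R3} {s t x : ℝ} (hok : Ok a b s t) (hs : |s| = 1) (hx : x ∈ Set.Icc (0 : ℝ) 1)
    (hH : |HH (nrm (seg (vX a s) (vY b t) x))| ≤ 1 / 2) :
    1 / 10 < |(nrm (seg (vX a s) (vY b t) x)) 5| := by
  have hs2 : s ^ 2 = 1 := by rw [← sq_abs, hs]; norm_num
  have ht2 : t ^ 2 ≤ 1 := by
    have := hok.2.2.2.1
    rwa [sq_le_one_iff_abs_le_one]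
  have hne := hok.ne_zero hx
  have hm := hok.norm_sq x
  have hH4 := hok.H4 x
  rw [mon_HH_nrm hne, hH4, mon_Po, seg_eq_pt, mon_pt_5, mon_pt_6, ← seg_eq_pt] at hH
  have e : (nrm (seg (vX a s) (vY b t) x)) 5 = ((1 - x) * s) / ‖seg (vX a s) (vY b t) x‖ := by
    rw [nrm, PiLp.smul_apply, smul_eq_mul]
    nth_rewrite 2 [seg_eq_pt]
    rw [mon_pt_5]
    ring
  rw [e]
  refine mon_end_bound (B := x * (1 - t ^ 2)) (ρ := x * t) (mul_nonneg hx.1 (by linarith))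
    (norm_pos_iff.2 hne) ?_ rfl ?_
  · rw [hm, mon_mo, hs2]; ring
  · refine (abs_le.1 hH).1.trans (le_of_eq ?_)
    rw [hs2]
    ring

/-- M6 -/
theorem seg_six {a b : R3} {s t x : ℝ} (hok : Ok a b s t) (ht : |t| = 1) (hx : x ∈ Set.Icc (0 : ℝ) 1)
    (hH : |HH (nrm (seg (vX a s) (vY b t) x))| ≤ 1 / 2) :
    1 / 10 < |(nrm (seg (vX a s) (vY b t) x)) 6| := by
  have ht2 : t ^ 2 = 1 := by rw [← sq_abs, ht]; norm_num
  have hs2 : s ^ 2 ≤ 1 := by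
    have := hok.2.2.1
    rwa [sq_le_one_iff_abs_le_one]
  have hne := hok.ne_zero hx
  have hm := hok.norm_sq x
  have hH4 := hok.H4 x
  rw [mon_HH_nrm hne, hH4, mon_Po, seg_eq_pt, mon_pt_5, mon_pt_6, ← seg_eq_pt] at hH
  have e : (nrm (seg (vX a s) (vY b t) x)) 6 = (x * t) / ‖seg (vX a s) (vY b t) x‖ := by
    rw [nrm, PiLp.smul_apply, smul_eq_mul]
    nth_rewrite 2 [seg_eq_pt]
    rw [mon_pt_6]
    ring
  rw [e]
  refine mon_end_bound (B := (1 - x) * (1 - s ^ 2)) (ρ := (1 - x) * s)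
    (mul_nonneg (by linarith [hx.2]) (by linarith)) (norm_pos_iff.2 hne) ?_ rfl ?_
  · rw [hm, mon_mo, ht2]; ring
  · have := neg_le_neg (abs_le.1 hH).2
    refine this.trans (le_of_eq ?_)
    rw [ht2]
    ring

/-! ### top and bottom vectors -/

theorem mon_top_smul {v : E6} {a : R3} {r : ℝ} (hr : 0 < r) (h : IsTop (r • v) a) : IsTop v a := by
  refine ⟨h.1, fun x hx => ?_⟩
  have := h.2 x hx
  rw [mon_qf_smul, mon_qf_smul] at this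
  exact le_of_mul_le_mul_left this hr

theorem mon_bot_smul {v : E6} {a : R3} {r : ℝ} (hr : 0 < r) (h : IsBot (r • v) a) : IsBot v a := by
  refine ⟨h.1, fun x hx => ?_⟩
  have := h.2 x hx
  rw [mon_qf_smul, mon_qf_smul] at this
  exact le_of_mul_le_mul_left this hr

theorem mon_inner_sq_le {a x : R3} (ha : ‖a‖ = 1) (hx : ‖x‖ = 1) : ⟪a, x⟫ ^ 2 ≤ 1 := by
  have := abs_real_inner_le_norm a x
  rw [ha, hx, one_mul] at this
  rwa [sq_le_one_iff_abs_le_one]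

theorem mon_eq_of_inner_sq {a x : R3} (ha : ‖a‖ = 1) (hx : ‖x‖ = 1) (h : ⟪a, x⟫ ^ 2 = 1) :
    x = a ∨ x = -a := by
  rw [sq] at h
  rcases mul_self_eq_one_iff.1 h with h1 | h1
  · left
    exact ((inner_eq_one_iff_of_norm_eq_one ha hx).1 h1).symm
  · right
    have h2 : ⟪-a, x⟫ = 1 := by rw [inner_neg_left, h1, neg_neg]
    exact ((inner_eq_one_iff_of_norm_eq_one (by rw [norm_neg, ha]) hx).1 h2).symm

theorem mon_eq_top {α β σ t : ℝ} {a b x : R3} (hα : 0 < α) (hβ : 0 ≤ β) (ha : ‖a‖ = 1)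
    (hb : ‖b‖ = 1) (hab : ⟪a, b⟫ = 0) (h : IsTop (pt α a β b σ t) x) : x = a ∨ x = -a := by
  have h1 := h.2 a ha
  rw [mon_qf, mon_qf, ha, hb, h.1, real_inner_self_eq_norm_sq, ha, real_inner_comm, hab] at h1
  have h2 := mon_inner_sq_le ha h.1
  have h3 := sq_nonneg ⟪b, x⟫
  refine mon_eq_of_inner_sq ha h.1 (le_antisymm h2 ?_)
  by_contra hcon
  rw [not_le] at hcon
  have h4 : 0 < α * (1 - ⟪a, x⟫ ^ 2) := mul_pos hα (by linarith)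
  have h5 : 0 ≤ β * ⟪b, x⟫ ^ 2 := mul_nonneg hβ h3
  linarith

theorem mon_eq_bot {α β σ t : ℝ} {a b x : R3} (hα : 0 ≤ α) (hβ : 0 < β) (ha : ‖a‖ = 1)
    (hb : ‖b‖ = 1) (hab : ⟪a, b⟫ = 0) (h : IsBot (pt α a β b σ t) x) : x = b ∨ x = -b := by
  have h1 := h.2 b hb
  rw [mon_qf, mon_qf, ha, hb, h.1, real_inner_self_eq_norm_sq, hb, hab] at h1
  have h2 := mon_inner_sq_le hb h.1
  have h3 := sq_nonneg ⟪a, x⟫
  refine mon_eq_of_inner_sq hb h.1 (le_antisymm h2 ?_)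
  by_contra hcon
  rw [not_le] at hcon
  have h4 : 0 < β * (1 - ⟪b, x⟫ ^ 2) := mul_pos hβ (by linarith)
  have h5 : 0 ≤ α * ⟪a, x⟫ ^ 2 := mul_nonneg hα h3
  linarith

/-- M7 -/
theorem seg_top {a b : R3} {s t x : ℝ} (hok : Ok a b s t) (hab : ⟪a, b⟫ = 0) (hs : |s| < 1)
    (ht : |t| < 1) (hx : x ∈ Set.Icc (0 : ℝ) 1)
    (hH : |HH (nrm (seg (vX a s) (vY b t) x))| ≤ 1 / 2) :
    (∀ a', IsTop (nrm (seg (vX a s) (vY b t) x)) a' → a' = a ∨ a' = -a) ∧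
    (∀ b', IsBot (nrm (seg (vX a s) (vY b t) x)) b' → b' = b ∨ b' = -b) := by
  have hs2 : s ^ 2 < 1 := by rwa [sq_lt_one_iff_abs_lt_one]
  have ht2 : t ^ 2 < 1 := by rwa [sq_lt_one_iff_abs_lt_one]
  have hx0 : 0 < x := by
    refine lt_of_le_of_ne hx.1 fun h0 => ?_
    have e : seg (vX a s) (vY b t) x = pt (1 - s ^ 2) a 0 a s 0 := by
      rw [← h0, seg, sub_zero, one_smul, zero_smul, add_zero, vX]
    rw [e] at hH
    have h1 := HH_plus (s := s) hok.1 (by linarith : 0 ≤ 1 - s ^ 2) (Or.inl (by linarith))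
    linarith [(abs_le.1 hH).2]
  have hx1 : x < 1 := by
    refine lt_of_le_of_ne hx.2 fun h0 => ?_
    have e : seg (vX a s) (vY b t) x = pt 0 b (1 - t ^ 2) b 0 t := by
      rw [h0, seg, sub_self, one_smul, zero_smul, zero_add, vY]
    rw [e] at hH
    have h1 := HH_minus (t := t) hok.2.1 (by linarith : 0 ≤ 1 - t ^ 2) (Or.inl (by linarith))
    linarith [(abs_le.1 hH).1]
  have hne := hok.ne_zero hx
  have hA : 0 < (1 - x) * (1 - s ^ 2) := mul_pos (by linarith) (by linarith)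
  have hB : 0 < x * (1 - t ^ 2) := mul_pos hx0 (by linarith)
  have hr : 0 < ‖seg (vX a s) (vY b t) x‖⁻¹ := inv_pos.2 (norm_pos_iff.2 hne)
  constructor
  · intro a' ha'
    have := mon_top_smul hr ha'
    rw [seg_eq_pt] at this
    exact mon_eq_top hA hB.le hok.1 hok.2.1 hab this
  · intro b' hb'
    have := mon_bot_smul hr hb'
    rw [seg_eq_pt] at this
    exact mon_eq_bot hA.le hB hok.1 hok.2.1 hab this

/-! ### the other edges -/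

theorem norm_e5_ver {a : R3} {x : ℝ} (ha : ‖a‖ = 1) (hx : x ∈ Set.Icc (0 : ℝ) 1) :
    1 / 4 ≤ ‖pt x a 0 a (1 - x) 0‖ ^ 2 := by
  rw [mon_norm, ha]
  nlinarith [sq_nonneg (x - 1 / 2)]

theorem norm_ver_vX {a : R3} {s x : ℝ} (ha : ‖a‖ = 1) (hs : |s| ≤ 1) (hx : x ∈ Set.Icc (0 : ℝ) 1) :
    1 / 4 ≤ ‖pt (1 - x * s ^ 2) a 0 a (x * s) 0‖ ^ 2 := by
  have hs2 : s ^ 2 ≤ 1 := by rwa [sq_le_one_iff_abs_le_one]
  rw [mon_norm, ha]
  have h1 : 0 ≤ x ^ 2 * (s ^ 2 * (1 - s ^ 2)) :=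
    mul_nonneg (sq_nonneg x) (mul_nonneg (sq_nonneg s) (by linarith))
  nlinarith [sq_nonneg (x * s ^ 2 - 1 / 2)]

theorem norm_vY_ver {b : R3} {t x : ℝ} (hb : ‖b‖ = 1) (ht : |t| ≤ 1) (hx : x ∈ Set.Icc (0 : ℝ) 1) :
    1 / 4 ≤ ‖pt 0 b (1 - (1 - x) * t ^ 2) b 0 ((1 - x) * t)‖ ^ 2 := by
  have ht2 : t ^ 2 ≤ 1 := by rwa [sq_le_one_iff_abs_le_one]
  rw [mon_norm, hb]
  have h1 : 0 ≤ (1 - x) ^ 2 * (t ^ 2 * (1 - t ^ 2)) :=
    mul_nonneg (sq_nonneg _) (mul_nonneg (sq_nonneg t) (by linarith))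
  nlinarith [sq_nonneg ((1 - x) * t ^ 2 - 1 / 2)]

theorem norm_ver_e6 {b : R3} {x : ℝ} (hb : ‖b‖ = 1) (hx : x ∈ Set.Icc (0 : ℝ) 1) :
    1 / 4 ≤ ‖pt 0 b (1 - x) b 0 x‖ ^ 2 := by
  rw [mon_norm, hb]
  nlinarith [sq_nonneg (x - 1 / 2)]

/-- the return edge -/
theorem norm_e6_e5 {x : ℝ} : 1 / 4 ≤ ‖seg v6 v5 x‖ ^ 2 := by
  rw [mon_seg_e6_e5, mon_norm, norm_zero]
  nlinarith [sq_nonneg (x - 1 / 2)]

theorem mon_HH_e6_e5 (x : ℝ) :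
    HH (nrm (seg v6 v5 x)) = (x ^ 2 - (1 - x) ^ 2) / (x ^ 2 + (1 - x) ^ 2) := by
  have hn : ‖seg v6 v5 x‖ ^ 2 = x ^ 2 + (1 - x) ^ 2 := by
    rw [mon_seg_e6_e5, mon_norm, norm_zero]; ring
  have hne : seg v6 v5 x ≠ 0 := by
    intro h0
    have := norm_e6_e5 (x := x)
    rw [h0, norm_zero] at this
    norm_num at this
  rw [mon_HH_nrm hne, hn, mon_seg_e6_e5, mon_H4, mon_pt_5, mon_pt_6, norm_zero]
  ring

theorem tau_e6_e5 : MonotoneOn (fun x => tau (nrm (seg v6 v5 x))) (Set.Icc (0 : ℝ) 1) := by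
  intro x hx y hy hxy
  change tau _ ≤ tau _
  rw [tau, tau]
  refine Real.smoothTransition.monotone ?_
  rw [mon_HH_e6_e5, mon_HH_e6_e5]
  have h1 : ∀ z : ℝ, 0 < z ^ 2 + (1 - z) ^ 2 := fun z => by nlinarith [sq_nonneg (z - 1 / 2)]
  have h2 : (x ^ 2 - (1 - x) ^ 2) / (x ^ 2 + (1 - x) ^ 2) ≤
      (y ^ 2 - (1 - y) ^ 2) / (y ^ 2 + (1 - y) ^ 2) := by
    rw [div_le_div_iff₀ (h1 x) (h1 y)]
    have h3 : (y ^ 2 - (1 - y) ^ 2) * (x ^ 2 + (1 - x) ^ 2) -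
        (x ^ 2 - (1 - x) ^ 2) * (y ^ 2 + (1 - y) ^ 2) =
        2 * ((y - x) * (x * (1 - y) + y * (1 - x))) := by ring
    have h4 : 0 ≤ (y - x) * (x * (1 - y) + y * (1 - x)) := by
      refine mul_nonneg (by linarith) (add_nonneg (mul_nonneg hx.1 (by linarith [hy.2]))
        (mul_nonneg hy.1 (by linarith [hx.2])))
    linarith
  linarith

end Pool.Agent.Helper76.Freq
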