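import Pool.Agent.Helper76.Freq.Letters
import Pool.Agent.Helper76.Freq.Mon

/-!
# The rational cycle and the block polygons
-/

set_option autoImplicit false

namespace Pool.Agent.Helper76.Freq

open scoped RealInnerProductSpace Classical
open Finset

/-! ### the block polygons -/

theorem cyc_seg_symm {n : ℕ} (P P' : E n) (x : ℝ) : seg P P' x = seg P' P (1 - x) := by
  simp only [seg, sub_sub_cancel]
  rw [add_comm]

theorem cyc_seg_self {n : ℕ} (P : E n) (x : ℝ) : seg P P x = P := by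
  simp only [seg, ← add_smul, sub_add_cancel, one_smul]

theorem cyc_tau_one {v : E6} (h : 4 / 5 ≤ HH v) : tau v = 1 := by
  unfold tau
  exact Real.smoothTransition.one_of_one_le (by linarith)

theorem cyc_tau_zero {v : E6} (h : HH v ≤ -(4 / 5)) : tau v = 0 := by
  unfold tau
  exact Real.smoothTransition.zero_of_nonpos (by linarith)

theorem cyc_half_le {v : E6} (h : 1 / 4 ≤ ‖v‖ ^ 2) : 1 / 2 ≤ ‖v‖ := by
  by_contra hc
  have h0 := norm_nonneg v
  nlinarith [not_le.1 hc]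

theorem cyc_v5 (a : R3) : v5 = pt 0 a 0 a 1 0 := by
  apply mon_E6_ext <;> simp [v5, pt]

theorem cyc_v6 (b : R3) : v6 = pt 0 b 0 b 0 1 := by
  apply mon_E6_ext <;> simp [v6, pt]

theorem cyc_polD_norm (p : PQ) {j : ℕ} (hj : j < 6) {x : ℝ} (hx : x ∈ Set.Icc (0 : ℝ) 1) :
    1 / 2 ≤ ‖seg (polD p j) (polD p (j + 1)) x‖ := by
  obtain ⟨⟨a, b, s, t⟩, hok⟩ := p
  have hok' : Ok a b s t := hok
  obtain ⟨ha, hb, hs, ht, -⟩ := hok
  apply cyc_half_le
  interval_cases j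
  · change 1 / 4 ≤ ‖seg v5 (pt 1 a 0 a 0 0) x‖ ^ 2
    rw [seg_e5_ver]
    exact norm_e5_ver ha hx
  · change 1 / 4 ≤ ‖seg (pt 1 a 0 a 0 0) (vX a s) x‖ ^ 2
    rw [seg_ver_vX]
    exact norm_ver_vX ha hs hx
  · change 1 / 4 ≤ ‖seg (vX a s) (vY b t) x‖ ^ 2
    exact le_trans (by norm_num) (seg_norm hok' hx)
  · change 1 / 4 ≤ ‖seg (vY b t) (pt 0 b 1 b 0 0) x‖ ^ 2
    rw [seg_vY_ver]
    exact norm_vY_ver hb ht hx
  · change 1 / 4 ≤ ‖seg (pt 0 b 1 b 0 0) v6 x‖ ^ 2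
    rw [seg_ver_e6]
    exact norm_ver_e6 hb hx
  · change 1 / 4 ≤ ‖seg v6 v6 x‖ ^ 2
    rw [cyc_seg_self, ← cyc_seg_self v6 (0 : ℝ)]
    have := norm_e6_e5 (x := 0)
    simpa [seg] using this

/-- the value of `tau` on the edges other than the crossing edge -/
theorem cyc_polD_tau_one (p : PQ) {j : ℕ} (hj : j < 2) {x : ℝ} (hx : x ∈ Set.Icc (0 : ℝ) 1) :
    tau (nrm (seg (polD p j) (polD p (j + 1)) x)) = 1 := by
  obtain ⟨⟨a, b, s, t⟩, hok⟩ := p
  obtain ⟨ha, hb, hs, ht, -⟩ := hok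
  apply cyc_tau_one
  interval_cases j
  · change 4 / 5 ≤ HH (nrm (seg v5 (pt 1 a 0 a 0 0) x))
    rw [seg_e5_ver]
    refine HH_plus ha hx.1 ?_
    by_cases h : x = 0
    · right; subst h; norm_num
    · exact Or.inl h
  · change 4 / 5 ≤ HH (nrm (seg (pt 1 a 0 a 0 0) (vX a s) x))
    rw [seg_ver_vX]
    have hs2 : s ^ 2 ≤ 1 := by
      rw [← sq_abs]; nlinarith [abs_nonneg s]
    refine HH_plus ha (by nlinarith [hx.1, hx.2, sq_nonneg s]) ?_
    by_cases h : x * s = 0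
    · left
      rcases mul_eq_zero.1 h with h | h <;> · subst h; norm_num
    · exact Or.inr h

theorem cyc_polD_tau_zero (p : PQ) {j : ℕ} (hj : 3 ≤ j) {x : ℝ} (hx : x ∈ Set.Icc (0 : ℝ) 1) :
    tau (nrm (seg (polD p j) (polD p (j + 1)) x)) = 0 := by
  obtain ⟨⟨a, b, s, t⟩, hok⟩ := p
  obtain ⟨ha, hb, hs, ht, -⟩ := hok
  apply cyc_tau_zero
  obtain rfl | rfl | hj : j = 3 ∨ j = 4 ∨ 5 ≤ j := by omega
  · change HH (nrm (seg (vY b t) (pt 0 b 1 b 0 0) x)) ≤ _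
    rw [seg_vY_ver]
    have ht2 : t ^ 2 ≤ 1 := by
      rw [← sq_abs]; nlinarith [abs_nonneg t]
    refine HH_minus hb (by nlinarith [hx.1, hx.2, sq_nonneg t]) ?_
    by_cases h : (1 - x) * t = 0
    · left
      rcases mul_eq_zero.1 h with h | h
      · rw [h]; norm_num
      · subst h; norm_num
    · exact Or.inr h
  · change HH (nrm (seg (pt 0 b 1 b 0 0) v6 x)) ≤ _
    rw [seg_ver_e6]
    refine HH_minus hb (by linarith [hx.2]) ?_
    by_cases h : x = 0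
    · left; subst h; norm_num
    · exact Or.inr h
  · obtain ⟨k, rfl⟩ : ∃ k, j = k + 5 := ⟨j - 5, by omega⟩
    change HH (nrm (seg v6 v6 x)) ≤ _
    rw [cyc_seg_self, cyc_v6 b]
    exact HH_minus hb le_rfl (Or.inr one_ne_zero)

theorem cyc_polD_tau_anti (p : PQ) (j : ℕ) :
    AntitoneOn (fun x => tau (nrm (seg (polD p j) (polD p (j + 1)) x))) (Set.Icc (0 : ℝ) 1) := by
  obtain hj | rfl | hj : j < 2 ∨ j = 2 ∨ 3 ≤ j := by omega
  · intro x hx y hy _
    simp only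
    rw [cyc_polD_tau_one p hj hx, cyc_polD_tau_one p hj hy]
  · exact tau_seg_anti p.2
  · intro x hx y hy _
    simp only
    rw [cyc_polD_tau_zero p hj hx, cyc_polD_tau_zero p hj hy]

theorem cyc_tau_polD (p : PQ) (j : ℕ) : tau (nrm (polD p j)) = if j ≤ 2 then 1 else 0 := by
  have h0 : (0 : ℝ) ∈ Set.Icc (0 : ℝ) 1 := by simp
  have h1 : (1 : ℝ) ∈ Set.Icc (0 : ℝ) 1 := by simp
  have e0 : ∀ P P' : E6, seg P P' 0 = P := fun P P' => by simp [seg]
  have e1 : ∀ P P' : E6, seg P P' 1 = P' := fun P P' => by simp [seg]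
  obtain hj | rfl | hj : j < 2 ∨ j = 2 ∨ 3 ≤ j := by omega
  · have := cyc_polD_tau_one p hj h0
    rw [e0] at this
    rw [this, if_pos (by omega)]
  · have := cyc_polD_tau_one p (j := 1) (by norm_num) h1
    rw [e1] at this
    rw [this, if_pos le_rfl]
  · have := cyc_polD_tau_zero p hj h0
    rw [e0] at this
    rw [this, if_neg (by omega)]

theorem cyc_polQ_cases (κ : ℕ) (p : PQ) {i : ℕ} (hi : i < 6) :
    (∃ j < 6, polQ κ p i = polD p j ∧ polQ κ p (i + 1) = polD p (j + 1)) ∨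
    (∃ j < 6, polQ κ p i = polD p (j + 1) ∧ polQ κ p (i + 1) = polD p j) ∨
    (polQ κ p i = v6 ∧ polQ κ p (i + 1) = v5) := by
  unfold polQ
  by_cases h0 : κ = 0
  · left
    exact ⟨i, hi, by simp [h0], by simp [h0]⟩
  by_cases h1 : κ = 1
  · right; left
    refine ⟨5 - i, by omega, ?_, ?_⟩
    · rw [if_neg h0, if_pos h1, show 6 - i = 5 - i + 1 by omega]
    · rw [if_neg h0, if_pos h1, show 6 - (i + 1) = 5 - i by omega]
  simp only [h0, h1, if_false]
  obtain hi' | rfl : i < 5 ∨ i = 5 := by omega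
  · left
    refine ⟨i, hi, by rw [if_neg (by omega)], by rw [if_neg (by omega)]⟩
  · right; right
    constructor
    · rw [if_neg (by norm_num)]; rfl
    · rw [if_pos rfl]

theorem cyc_Icc_symm {x : ℝ} (hx : x ∈ Set.Icc (0 : ℝ) 1) : 1 - x ∈ Set.Icc (0 : ℝ) 1 :=
  ⟨by linarith [hx.2], by linarith [hx.1]⟩

theorem polQ_norm (κ : ℕ) (p : PQ) {i : ℕ} (hi : i < 6) {x : ℝ} (hx : x ∈ Set.Icc (0 : ℝ) 1) :
    1 / 2 ≤ ‖seg (polQ κ p i) (polQ κ p (i + 1)) x‖ := by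
  obtain ⟨j, hj, e1, e2⟩ | ⟨j, hj, e1, e2⟩ | ⟨e1, e2⟩ := cyc_polQ_cases κ p hi
  · rw [e1, e2]; exact cyc_polD_norm p hj hx
  · rw [e1, e2, cyc_seg_symm]; exact cyc_polD_norm p hj (cyc_Icc_symm hx)
  · rw [e1, e2]; exact cyc_half_le norm_e6_e5

theorem validPath_polQ (κ : ℕ) (p : PQ) : ValidPath 6 (polQ κ p) := by
  refine ⟨by norm_num, fun i hi x hx h => ?_⟩
  have := polQ_norm κ p hi hx
  rw [h, norm_zero] at this
  linarith

theorem polQ_mono (κ : ℕ) (p : PQ) {i : ℕ} (hi : i < 6) :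
    MonotoneOn (fun x => tau (nrm (seg (polQ κ p i) (polQ κ p (i + 1)) x))) (Set.Icc (0 : ℝ) 1) ∨
    AntitoneOn (fun x => tau (nrm (seg (polQ κ p i) (polQ κ p (i + 1)) x))) (Set.Icc (0 : ℝ) 1) := by
  obtain ⟨j, hj, e1, e2⟩ | ⟨j, hj, e1, e2⟩ | ⟨e1, e2⟩ := cyc_polQ_cases κ p hi
  · right; rw [e1, e2]; exact cyc_polD_tau_anti p j
  · left
    rw [e1, e2]
    intro x hx y hy hxy
    simp only
    rw [cyc_seg_symm, cyc_seg_symm _ _ y]
    exact cyc_polD_tau_anti p j (cyc_Icc_symm hy) (cyc_Icc_symm hx) (by linarith)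
  · left; rw [e1, e2]; exact tau_e6_e5

theorem polQ_var (κ : ℕ) (p : PQ) :
    ∑ i ∈ Finset.range 6, |tau (nrm (polQ κ p (i + 1))) - tau (nrm (polQ κ p i))| ≤
      if κ = 0 ∨ κ = 1 then 1 else 2 := by
  have h5 : tau (nrm v5) = 1 := cyc_tau_polD p 0
  simp only [Finset.sum_range_succ, Finset.sum_range_zero]
  unfold polQ
  by_cases h0 : κ = 0
  · simp [h0, cyc_tau_polD]
  by_cases h1 : κ = 1
  · simp [h1, cyc_tau_polD]
  · simp [h0, h1, cyc_tau_polD, h5]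
    norm_num

theorem polQ_ends (p : PQ) : polQ 0 p 0 = v5 ∧ polQ 0 p 6 = v6 ∧ polQ 1 p 0 = v6 ∧ polQ 1 p 6 = v5 ∧
    polQ 2 p 0 = v5 ∧ polQ 2 p 6 = v5 := ⟨rfl, rfl, rfl, rfl, rfl, rfl⟩

theorem cyc_norm_le {v : E6} (h : ‖v‖ ^ 2 ≤ 1) : ‖v‖ ≤ 2 := by
  by_contra hc
  nlinarith [not_le.1 hc, norm_nonneg v]

theorem cyc_norm_v5 : ‖v5‖ ≤ 2 := by
  apply cyc_norm_le
  rw [mon_norm_sq7]
  simp [v5, pt]

theorem cyc_norm_v6 : ‖v6‖ ≤ 2 := by
  apply cyc_norm_le
  rw [mon_norm_sq7]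
  simp [v6, pt]

theorem cyc_norm_polD (p : PQ) (j : ℕ) : ‖polD p j‖ ≤ 2 := by
  obtain ⟨⟨a, b, s, t⟩, hok⟩ := p
  obtain ⟨ha, hb, hs, ht, -⟩ := hok
  have hs2 : s ^ 2 ≤ 1 := by
    rw [← sq_abs]; nlinarith [abs_nonneg s]
  have ht2 : t ^ 2 ≤ 1 := by
    rw [← sq_abs]; nlinarith [abs_nonneg t]
  change ‖a‖ = 1 at ha
  change ‖b‖ = 1 at hb
  obtain rfl | rfl | rfl | rfl | rfl | hj : j = 0 ∨ j = 1 ∨ j = 2 ∨ j = 3 ∨ j = 4 ∨ 5 ≤ j := by omega
  · exact cyc_norm_v5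
  · apply cyc_norm_le
    change ‖pt 1 a 0 a 0 0‖ ^ 2 ≤ 1
    rw [mon_norm, ha]
    norm_num
  · apply cyc_norm_le
    change ‖vX a s‖ ^ 2 ≤ 1
    rw [vX, mon_norm, ha]
    nlinarith [sq_nonneg s]
  · apply cyc_norm_le
    change ‖vY b t‖ ^ 2 ≤ 1
    rw [vY, mon_norm, hb]
    nlinarith [sq_nonneg t]
  · apply cyc_norm_le
    change ‖pt 0 b 1 b 0 0‖ ^ 2 ≤ 1
    rw [mon_norm, hb]
    norm_num
  · obtain ⟨k, rfl⟩ : ∃ k, j = k + 5 := ⟨j - 5, by omega⟩
    exact cyc_norm_v6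

theorem cyc_norm_polQ (κ : ℕ) (p : PQ) (i : ℕ) : ‖polQ κ p i‖ ≤ 2 := by
  unfold polQ
  split_ifs
  · exact cyc_norm_polD p i
  · exact cyc_norm_polD p _
  · exact cyc_norm_v5
  · exact cyc_norm_polD p i

theorem polQ_edge (κ : ℕ) (p : PQ) (i : ℕ) : ‖polQ κ p (i + 1) - polQ κ p i‖ ≤ 4 := by
  refine (norm_sub_le _ _).trans ?_
  linarith [cyc_norm_polQ κ p i, cyc_norm_polQ κ p (i + 1)]

theorem cyc_continuous_pt {X : Type*} [TopologicalSpace X] {α β σ t : X → ℝ} {a b : X → R3}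
    (hα : Continuous α) (ha : Continuous a) (hβ : Continuous β) (hb : Continuous b)
    (hσ : Continuous σ) (ht : Continuous t) :
    Continuous fun x => pt (α x) (a x) (β x) (b x) (σ x) (t x) := by
  have hai : ∀ i, Continuous fun x => a x i := fun i =>
    (EuclideanSpace.proj (𝕜 := ℝ) i).continuous.comp ha
  have hbi : ∀ i, Continuous fun x => b x i := fun i =>
    (EuclideanSpace.proj (𝕜 := ℝ) i).continuous.comp hb
  unfold pt
  refine (PiLp.continuous_toLp 2 _).comp (continuous_pi fun i => ?_)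
  have h0 := hai 0
  have h1 := hai 1
  have h2 := hai 2
  have h3 := hbi 0
  have h4 := hbi 1
  have h5 := hbi 2
  fin_cases i <;> simp [ver] <;> fun_prop

theorem cyc_continuous_polD (i : ℕ) : Continuous fun p => polD p i := by
  have h1 : Continuous fun p : PQ => p.1.1 := continuous_fst.comp continuous_subtype_val
  have h2 : Continuous fun p : PQ => p.1.2.1 :=
    (continuous_fst.comp continuous_snd).comp continuous_subtype_val
  have h3 : Continuous fun p : PQ => p.1.2.2.1 :=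
    ((continuous_fst.comp continuous_snd).comp continuous_snd).comp continuous_subtype_val
  have h4 : Continuous fun p : PQ => p.1.2.2.2 :=
    ((continuous_snd.comp continuous_snd).comp continuous_snd).comp continuous_subtype_val
  obtain rfl | rfl | rfl | rfl | rfl | hj : i = 0 ∨ i = 1 ∨ i = 2 ∨ i = 3 ∨ i = 4 ∨ 5 ≤ i := by omega
  · exact continuous_const
  · exact cyc_continuous_pt continuous_const h1 continuous_const h1 continuous_const continuous_const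
  · exact cyc_continuous_pt (by fun_prop) h1 continuous_const h1 h3 continuous_const
  · exact cyc_continuous_pt continuous_const h2 (by fun_prop) h2 continuous_const h4
  · exact cyc_continuous_pt continuous_const h2 continuous_const h2 continuous_const continuous_const
  · obtain ⟨k, rfl⟩ : ∃ k, i = k + 5 := ⟨i - 5, by omega⟩
    exact continuous_const

theorem continuous_polQ (κ i : ℕ) : Continuous fun p => polQ κ p i := by
  unfold polQ
  split_ifs
  · exact cyc_continuous_polD i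
  · exact cyc_continuous_polD _
  · exact continuous_const
  · exact cyc_continuous_polD i

/-! ### the frames -/

theorem cyc_norm_fB (r φ : ℝ) : ‖fB r φ‖ = 1 := by
  have h : ‖fB r φ‖ ^ 2 = 1 := by
    rw [mon_norm_sq]
    simp only [fB]
    simp
    linear_combination Real.sin_sq_add_cos_sq r + Real.sin r ^ 2 * Real.sin_sq_add_cos_sq φ
  nlinarith [norm_nonneg (fB r φ)]

theorem cyc_norm_fA (r φ δ : ℝ) : ‖fA r φ δ‖ = 1 := by
  have h : ‖fA r φ δ‖ ^ 2 = 1 := by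
    rw [mon_norm_sq]
    simp only [fA]
    simp
    linear_combination Real.sin_sq_add_cos_sq δ + Real.sin δ ^ 2 * Real.sin_sq_add_cos_sq r +
      (Real.cos δ ^ 2 + Real.cos r ^ 2 * Real.sin δ ^ 2) * Real.sin_sq_add_cos_sq φ
  nlinarith [norm_nonneg (fA r φ δ)]

theorem cyc_inner_fA_fB (r φ δ : ℝ) : ⟪fA r φ δ, fB r φ⟫ = 0 := by
  rw [mon_inner]
  simp only [fA, fB]
  simp
  linear_combination (-(Real.sin r * Real.cos r * Real.sin δ)) * Real.sin_sq_add_cos_sq φ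

theorem cyc_norm_frame (c r φ δ : ℝ) : ‖Real.cos c • fB r φ + Real.sin c • fA r φ δ‖ = 1 := by
  have h : ‖Real.cos c • fB r φ + Real.sin c • fA r φ δ‖ ^ 2 = 1 := by
    rw [norm_add_sq_real, norm_smul, norm_smul, cyc_norm_fB, cyc_norm_fA, real_inner_smul_left,
      real_inner_smul_right, real_inner_comm, cyc_inner_fA_fB]
    simp only [Real.norm_eq_abs, mul_one, sq_abs, mul_zero, add_zero]
    exact Real.cos_sq_add_sin_sq c
  nlinarith [norm_nonneg (Real.cos c • fB r φ + Real.sin c • fA r φ δ)]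

theorem cyc_fB_zero (φ φ' : ℝ) : fB 0 φ = fB 0 φ' := by simp [fB]

theorem cyc_fB_pi (φ φ' : ℝ) : fB Real.pi φ = fB Real.pi φ' := by simp [fB]

theorem cyc_fA_zero (φ δ : ℝ) : fA 0 φ δ = !₂[0, Real.cos (φ + δ), Real.sin (φ + δ)] := by
  rw [Real.cos_add, Real.sin_add]
  simp [fA]

theorem cyc_fA_pi (φ δ : ℝ) : fA Real.pi φ δ = !₂[0, Real.cos (φ - δ), Real.sin (φ - δ)] := by
  rw [Real.cos_sub, Real.sin_sub]
  simp [fA, sub_eq_add_neg]

theorem cyc_fB_add (r φ : ℝ) : fB r (φ + 2 * Real.pi) = fB r φ := by simp [fB]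

theorem cyc_fA_add (r φ δ : ℝ) : fA r (φ + 2 * Real.pi) (δ + 2 * Real.pi) = fA r φ δ := by simp [fA]

theorem cyc_fA_add' (r φ δ : ℝ) : fA r (φ + 2 * Real.pi) (δ - 2 * Real.pi) = fA r φ δ := by simp [fA]

/-! ### the square -/

theorem cyc_sq_max_pos (x : ℝ) :
    0 < max |Real.cos (2 * Real.pi * x)| |Real.sin (2 * Real.pi * x)| := by
  rw [lt_max_iff]
  by_contra hc
  push Not at hc
  have h1 : Real.cos (2 * Real.pi * x) = 0 := abs_nonpos_iff.1 hc.1
  have h2 : Real.sin (2 * Real.pi * x) = 0 := abs_nonpos_iff.1 hc.2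
  have := Real.sin_sq_add_cos_sq (2 * Real.pi * x)
  rw [h1, h2] at this
  norm_num at this

theorem cyc_abs_sq_fst_le (x : ℝ) : |(sq x).1| ≤ 1 := by
  rw [sq, abs_div, abs_of_pos (cyc_sq_max_pos x), div_le_one (cyc_sq_max_pos x)]
  exact le_max_left _ _

theorem cyc_abs_sq_snd_le (x : ℝ) : |(sq x).2| ≤ 1 := by
  rw [sq, abs_div, abs_of_pos (cyc_sq_max_pos x), div_le_one (cyc_sq_max_pos x)]
  exact le_max_right _ _

theorem cyc_abs_sq_eq (x : ℝ) : |(sq x).1| = 1 ∨ |(sq x).2| = 1 := by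
  have h := cyc_sq_max_pos x
  rw [sq, abs_div, abs_div, abs_of_pos h]
  rcases le_total |Real.cos (2 * Real.pi * x)| |Real.sin (2 * Real.pi * x)| with h1 | h1
  · right
    rw [max_eq_right h1] at h ⊢
    exact div_self h.ne'
  · left
    rw [max_eq_left h1] at h ⊢
    exact div_self h.ne'

theorem cyc_sq_zero_one : sq 0 = sq 1 := by simp [sq]

theorem cyc_continuous_sq : Continuous sq := by
  have hc : Continuous fun x : ℝ => Real.cos (2 * Real.pi * x) := by fun_prop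
  have hs : Continuous fun x : ℝ => Real.sin (2 * Real.pi * x) := by fun_prop
  have hm : Continuous fun x : ℝ => max |Real.cos (2 * Real.pi * x)| |Real.sin (2 * Real.pi * x)| :=
    hc.abs.max hs.abs
  exact (hc.div hm fun x => (cyc_sq_max_pos x).ne').prodMk (hs.div hm fun x => (cyc_sq_max_pos x).ne')

/-! ### the cubes -/

theorem cyc_abs_mul_le_one {c s : ℝ} (h0 : 0 ≤ c) (h1 : c ≤ 1) (hs : |s| ≤ 1) : |c * s| ≤ 1 := by
  rw [abs_mul, abs_of_nonneg h0]
  nlinarith [abs_nonneg s]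

theorem ok_mCf (x : Q) : Ok (mCf x).1 (mCf x).2.1 (mCf x).2.2.1 (mCf x).2.2.2 := by
  have hx0 := (x 0).2.1
  have hx1 := (x 0).2.2
  have hm0 : (0 : ℝ) ≤ min 1 (2 * (x 0 : ℝ)) := le_min zero_le_one (by linarith)
  have hm1 : min 1 (2 * (x 0 : ℝ)) ≤ 1 := min_le_left _ _
  refine ⟨cyc_norm_frame _ _ _ _, cyc_norm_fB _ _, cyc_abs_mul_le_one hm0 hm1 (cyc_abs_sq_fst_le _),
    cyc_abs_mul_le_one hm0 hm1 (cyc_abs_sq_snd_le _), ?_⟩
  rcases le_total (x 0 : ℝ) (1 / 2) with h | h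
  · left
    have : min 1 (2 - 2 * (x 0 : ℝ)) = 1 := min_eq_left (by linarith)
    simp only [mCf, this, mul_one, Real.cos_pi_div_two, Real.sin_pi_div_two, zero_smul, one_smul,
      zero_add]
    exact cyc_inner_fA_fB _ _ _
  · right
    have : min 1 (2 * (x 0 : ℝ)) = 1 := min_eq_left (by linarith)
    simp only [mCf, this, one_mul]
    exact cyc_abs_sq_eq _

theorem ok_kCf (x : Q) : Ok (kCf x).1 (kCf x).2.1 (kCf x).2.2.1 (kCf x).2.2.2 :=
  ⟨cyc_norm_fB _ _, cyc_norm_fB _ _, cyc_abs_sq_fst_le _, cyc_abs_sq_snd_le _, Or.inr (cyc_abs_sq_eq _)⟩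

theorem cyc_continuous_coe (i : ℕ) : Continuous fun x : Q => (x i : ℝ) :=
  continuous_subtype_val.comp (continuous_apply i)

theorem cyc_continuous_fB {X : Type*} [TopologicalSpace X] {r φ : X → ℝ} (hr : Continuous r)
    (hφ : Continuous φ) : Continuous fun x => fB (r x) (φ x) := by
  unfold fB
  refine (PiLp.continuous_toLp 2 _).comp (continuous_pi fun i => ?_)
  fin_cases i <;> simp <;> fun_prop

theorem cyc_continuous_fA {X : Type*} [TopologicalSpace X] {r φ δ : X → ℝ} (hr : Continuous r)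
    (hφ : Continuous φ) (hδ : Continuous δ) : Continuous fun x => fA (r x) (φ x) (δ x) := by
  unfold fA
  refine (PiLp.continuous_toLp 2 _).comp (continuous_pi fun i => ?_)
  fin_cases i <;> simp <;> fun_prop

theorem continuous_mCf : Continuous mCf := by
  have h0 := cyc_continuous_coe 0
  have h1 := cyc_continuous_coe 1
  have h2 := cyc_continuous_coe 2
  have h3 := cyc_continuous_coe 3
  have h4 := cyc_continuous_coe 4
  have hsq := cyc_continuous_sq.comp h1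
  have hB : Continuous fun x : Q => fB (Real.pi * x 2) (2 * Real.pi * (x 3 + x 4)) :=
    cyc_continuous_fB (by fun_prop) (by fun_prop)
  have hA : Continuous fun x : Q => fA (Real.pi * x 2) (2 * Real.pi * (x 3 + x 4))
      (2 * Real.pi * (x 3 - x 4)) := cyc_continuous_fA (by fun_prop) (by fun_prop) (by fun_prop)
  have hm : Continuous fun x : Q => min 1 (2 * (x 0 : ℝ)) := continuous_const.min (by fun_prop)
  have hm' : Continuous fun x : Q => min 1 (2 - 2 * (x 0 : ℝ)) := continuous_const.min (by fun_prop)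
  refine Continuous.prodMk ?_ (Continuous.prodMk hB (Continuous.prodMk ?_ ?_))
  · exact ((Real.continuous_cos.comp (continuous_const.mul hm')).smul hB).add
      ((Real.continuous_sin.comp (continuous_const.mul hm')).smul hA)
  · exact hm.mul (continuous_fst.comp hsq)
  · exact hm.mul (continuous_snd.comp hsq)

theorem continuous_kCf : Continuous kCf := by
  have h0 := cyc_continuous_coe 0
  have h1 := cyc_continuous_coe 1
  have h2 := cyc_continuous_coe 2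
  have h3 := cyc_continuous_coe 3
  have h4 := cyc_continuous_coe 4
  have hsq := cyc_continuous_sq.comp h1
  have hB : Continuous fun x : Q => fB (Real.pi * x 2) (2 * Real.pi * x 0 * (x 3 + x 4)) :=
    cyc_continuous_fB (by fun_prop) (by fun_prop)
  exact hB.prodMk (hB.prodMk ((continuous_fst.comp hsq).prodMk (continuous_snd.comp hsq)))

/-- the main cube -/
noncomputable def mC : C(Q, PQ) := ⟨fun x => ⟨mCf x, ok_mCf x⟩, continuous_mCf.subtype_mk _⟩

/-- the filler -/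
noncomputable def kC : C(Q, PQ) := ⟨fun x => ⟨kCf x, ok_kCf x⟩, continuous_kCf.subtype_mk _⟩

/-- the cycle -/
noncomputable def zQ : C(Q, PQ) →₀ ℚ := Finsupp.single mC 1 - Finsupp.single kC 1

/-! ### the faces -/

theorem cyc_faceN_apply {Y : Type*} [TopologicalSpace Y] (i : ℕ) (e : unitInterval) (c : C(Q, Y)) (x : Q) :
    faceN i e c x = c (ins i e x) := rfl

theorem cyc_ins_lt {i j : ℕ} (h : j < i) (e : unitInterval) (x : Q) : ins i e x j = x j := by
  simp [ins, h]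

theorem cyc_ins_eq (i : ℕ) (e : unitInterval) (x : Q) : ins i e x i = e := by
  simp [ins]

theorem cyc_ins_gt {i j : ℕ} (h : i < j) (e : unitInterval) (x : Q) : ins i e x j = x (j - 1) := by
  simp [ins, h.not_gt, h.ne']

/-- the parameters of the main cube -/
noncomputable def cyc_mF (l θ r φ δ : ℝ) : R3 × R3 × ℝ × ℝ :=
  (Real.cos (Real.pi / 2 * min 1 (2 - 2 * l)) • fB (Real.pi * r) φ +
    Real.sin (Real.pi / 2 * min 1 (2 - 2 * l)) • fA (Real.pi * r) φ δ,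
    fB (Real.pi * r) φ, min 1 (2 * l) * (sq θ).1, min 1 (2 * l) * (sq θ).2)

theorem cyc_mCf_eq (x : Q) : mCf x = cyc_mF (x 0) (x 1) (x 2) (2 * Real.pi * (x 3 + x 4))
    (2 * Real.pi * (x 3 - x 4)) := rfl

theorem cyc_mC_apply (x : Q) : (mC x : R3 × R3 × ℝ × ℝ) = mCf x := rfl

theorem cyc_kC_apply (x : Q) : (kC x : R3 × R3 × ℝ × ℝ) = kCf x := rfl

/-- the faces `λ = 1` and `u = 1` agree -/
theorem cyc_face_m0_k0 : faceN 0 1 mC = faceN 0 1 kC := by
  ext1 x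
  apply Subtype.ext
  rw [cyc_faceN_apply, cyc_faceN_apply, cyc_mC_apply, cyc_kC_apply, mCf, kCf]
  simp [ins]

theorem cyc_face_m1 : faceN 1 1 mC = faceN 1 0 mC := by
  ext1 x
  apply Subtype.ext
  rw [cyc_faceN_apply, cyc_faceN_apply, cyc_mC_apply, cyc_mC_apply, mCf, mCf]
  simp [ins, cyc_sq_zero_one]

theorem cyc_face_k1 : faceN 1 1 kC = faceN 1 0 kC := by
  ext1 x
  apply Subtype.ext
  rw [cyc_faceN_apply, cyc_faceN_apply, cyc_kC_apply, cyc_kC_apply, kCf, kCf]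
  simp [ins, cyc_sq_zero_one]

theorem cyc_face_m3 : faceN 3 1 mC = faceN 3 0 mC := by
  ext1 x
  apply Subtype.ext
  rw [cyc_faceN_apply, cyc_faceN_apply, cyc_mC_apply, cyc_mC_apply, cyc_mCf_eq, cyc_mCf_eq]
  have e1 : (2 * Real.pi * (((ins 3 1 x) 3 : ℝ) + (ins 3 1 x) 4)) =
      2 * Real.pi * (((ins 3 0 x) 3 : ℝ) + (ins 3 0 x) 4) + 2 * Real.pi := by
    simp [ins]; ring
  have e2 : (2 * Real.pi * (((ins 3 1 x) 3 : ℝ) - (ins 3 1 x) 4)) =
      2 * Real.pi * (((ins 3 0 x) 3 : ℝ) - (ins 3 0 x) 4) + 2 * Real.pi := by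
    simp [ins]; ring
  rw [e1, e2, cyc_mF, cyc_mF, cyc_fB_add, cyc_fA_add]
  rfl

theorem cyc_face_m4 : faceN 4 1 mC = faceN 4 0 mC := by
  ext1 x
  apply Subtype.ext
  rw [cyc_faceN_apply, cyc_faceN_apply, cyc_mC_apply, cyc_mC_apply, cyc_mCf_eq, cyc_mCf_eq]
  have e1 : (2 * Real.pi * (((ins 4 1 x) 3 : ℝ) + (ins 4 1 x) 4)) =
      2 * Real.pi * (((ins 4 0 x) 3 : ℝ) + (ins 4 0 x) 4) + 2 * Real.pi := by
    simp [ins]; ring
  have e2 : (2 * Real.pi * (((ins 4 1 x) 3 : ℝ) - (ins 4 1 x) 4)) =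
      2 * Real.pi * (((ins 4 0 x) 3 : ℝ) - (ins 4 0 x) 4) - 2 * Real.pi := by
    simp [ins]; ring
  rw [e1, e2, cyc_mF, cyc_mF, cyc_fB_add, cyc_fA_add']
  rfl

theorem cyc_face_k3_k4 (e : unitInterval) : faceN 3 e kC = faceN 4 e kC := by
  ext1 x
  apply Subtype.ext
  rw [cyc_faceN_apply, cyc_faceN_apply, cyc_kC_apply, cyc_kC_apply, kCf, kCf]
  simp [ins, add_comm]

theorem cyc_deg_single {Y : Type*} [TopologicalSpace Y] {d : ℕ} {c : C(Q, Y)} {i : ℕ} (hi : i < d)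
    (h : ∀ x x' : Q, (∀ j, j ≠ i → x j = x' j) → c x = c x') :
    Finsupp.single c (1 : ℚ) ∈ degN ℚ d := by
  rw [degN, Finsupp.mem_supported]
  intro c' hc'
  have : c' = c := by
    by_contra hne
    have := Finsupp.mem_support_iff.1 hc'
    rw [Finsupp.single_apply, if_neg (Ne.symm hne)] at this
    exact this rfl
  subst this
  exact ⟨i, hi, h⟩

theorem cyc_deg_m0 : Finsupp.single (faceN 0 0 mC) (1 : ℚ) ∈ degN ℚ 4 := by
  refine cyc_deg_single (i := 0) (by norm_num) fun x x' h => Subtype.ext ?_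
  rw [cyc_faceN_apply, cyc_faceN_apply, cyc_mC_apply, cyc_mC_apply, mCf, mCf]
  simp [ins, h 1, h 2, h 3]

theorem cyc_mF_zero {l θ φ δ φ' δ' : ℝ} (h : φ + δ = φ' + δ') : cyc_mF l θ 0 φ δ = cyc_mF l θ 0 φ' δ' := by
  simp only [cyc_mF, mul_zero, cyc_fA_zero, h, cyc_fB_zero φ φ']

theorem cyc_mF_one {l θ φ δ φ' δ' : ℝ} (h : φ - δ = φ' - δ') : cyc_mF l θ 1 φ δ = cyc_mF l θ 1 φ' δ' := by
  simp only [cyc_mF, mul_one, cyc_fA_pi, h, cyc_fB_pi φ φ']

theorem cyc_deg_m2_zero : Finsupp.single (faceN 2 0 mC) (1 : ℚ) ∈ degN ℚ 4 := by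
  refine cyc_deg_single (i := 3) (by norm_num) fun x x' h => Subtype.ext ?_
  rw [cyc_faceN_apply, cyc_faceN_apply, cyc_mC_apply, cyc_mC_apply, cyc_mCf_eq, cyc_mCf_eq]
  rw [cyc_ins_lt (by norm_num), cyc_ins_lt (by norm_num), cyc_ins_eq, cyc_ins_gt (by norm_num), cyc_ins_gt (by norm_num),
    cyc_ins_lt (by norm_num), cyc_ins_lt (by norm_num), cyc_ins_eq, cyc_ins_gt (by norm_num), cyc_ins_gt (by norm_num),
    h 0 (by norm_num), h 1 (by norm_num), h (3 - 1) (by norm_num)]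
  exact cyc_mF_zero (by ring)

theorem cyc_deg_m2_one : Finsupp.single (faceN 2 1 mC) (1 : ℚ) ∈ degN ℚ 4 := by
  refine cyc_deg_single (i := 2) (by norm_num) fun x x' h => Subtype.ext ?_
  rw [cyc_faceN_apply, cyc_faceN_apply, cyc_mC_apply, cyc_mC_apply, cyc_mCf_eq, cyc_mCf_eq]
  rw [cyc_ins_lt (by norm_num), cyc_ins_lt (by norm_num), cyc_ins_eq, cyc_ins_gt (by norm_num), cyc_ins_gt (by norm_num),
    cyc_ins_lt (by norm_num), cyc_ins_lt (by norm_num), cyc_ins_eq, cyc_ins_gt (by norm_num), cyc_ins_gt (by norm_num),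
    h 0 (by norm_num), h 1 (by norm_num), h (4 - 1) (by norm_num)]
  exact cyc_mF_one (by ring)

theorem cyc_deg_k0 : Finsupp.single (faceN 0 0 kC) (1 : ℚ) ∈ degN ℚ 4 := by
  refine cyc_deg_single (i := 2) (by norm_num) fun x x' h => Subtype.ext ?_
  rw [cyc_faceN_apply, cyc_faceN_apply, cyc_kC_apply, cyc_kC_apply, kCf, kCf]
  simp [ins, h 0, h 1]

theorem cyc_deg_k2_zero : Finsupp.single (faceN 2 0 kC) (1 : ℚ) ∈ degN ℚ 4 := by
  refine cyc_deg_single (i := 2) (by norm_num) fun x x' h => Subtype.ext ?_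
  rw [cyc_faceN_apply, cyc_faceN_apply, cyc_kC_apply, cyc_kC_apply, kCf, kCf]
  have := h 1 (by norm_num)
  simp [ins, fB, this]

theorem cyc_deg_k2_one : Finsupp.single (faceN 2 1 kC) (1 : ℚ) ∈ degN ℚ 4 := by
  refine cyc_deg_single (i := 2) (by norm_num) fun x x' h => Subtype.ext ?_
  rw [cyc_faceN_apply, cyc_faceN_apply, cyc_kC_apply, cyc_kC_apply, kCf, kCf]
  have := h 1 (by norm_num)
  simp [ins, fB, this]

theorem cyc_bdN_single5 {Y : Type*} [TopologicalSpace Y] (c : C(Q, Y)) :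
    bdN ℚ 5 (Finsupp.single c 1) = (Finsupp.single (faceN 0 1 c) 1 - Finsupp.single (faceN 0 0 c) 1) -
      (Finsupp.single (faceN 1 1 c) 1 - Finsupp.single (faceN 1 0 c) 1) +
      (Finsupp.single (faceN 2 1 c) 1 - Finsupp.single (faceN 2 0 c) 1) -
      (Finsupp.single (faceN 3 1 c) 1 - Finsupp.single (faceN 3 0 c) 1) +
      (Finsupp.single (faceN 4 1 c) 1 - Finsupp.single (faceN 4 0 c) 1) := by
  rw [bdN, Finsupp.linearCombination_single, one_smul]
  simp only [Finset.sum_range_succ, Finset.sum_range_zero]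
  norm_num
  abel

theorem bdN_zQ : bdN ℚ 5 zQ ∈ degN ℚ 4 := by
  have h : bdN ℚ 5 zQ = - Finsupp.single (faceN 0 0 mC) 1 +
      (Finsupp.single (faceN 2 1 mC) 1 - Finsupp.single (faceN 2 0 mC) 1) +
      Finsupp.single (faceN 0 0 kC) 1 -
      (Finsupp.single (faceN 2 1 kC) 1 - Finsupp.single (faceN 2 0 kC) 1) := by
    rw [zQ, map_sub, cyc_bdN_single5, cyc_bdN_single5, cyc_face_m0_k0, cyc_face_m1, cyc_face_k1, cyc_face_m3, cyc_face_m4,
      cyc_face_k3_k4, cyc_face_k3_k4]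
    abel
  rw [h]
  exact sub_mem (add_mem (add_mem (neg_mem cyc_deg_m0) (sub_mem cyc_deg_m2_one cyc_deg_m2_zero)) cyc_deg_k0)
    (sub_mem cyc_deg_k2_one cyc_deg_k2_zero)

end Pool.Agent.Helper76.Freq
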