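import Mathlib

/-!
# Definitions for MP_5f815a_gt (dependence of the mean frequency on the coefficient field)

* Riemannian metrics on `S^n`, piecewise smooth loops, length, natural topologies;
* cubical singular homology (relative to subspaces), critical levels, global mean frequency;
* the special function on `S^6`.
-/

set_option autoImplicit false

namespace Pool.Agent.Helper76.Freq

open scoped RealInnerProductSpace ContDiff

/-! ## metrics and loops -/

/-- `ℝ^{n+1}` -/
abbrev E (n : ℕ) : Type := EuclideanSpace ℝ (Fin (n + 1))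

/-- A Riemannian metric on the unit sphere `S^n ⊂ ℝ^{n+1}`: a smooth field of symmetric bilinear
forms on `ℝ^{n+1}` which is positive definite on the tangent spaces of the sphere (every smooth
Riemannian metric on `S^n` is the restriction of such a field). -/
structure SphereMetric (n : ℕ) where
  /-- the bilinear form at a point -/
  form : E n → E n →L[ℝ] E n →L[ℝ] ℝ
  smooth : ContDiff ℝ ∞ form
  symm : ∀ x u v, form x u v = form x v u
  pos : ∀ x u, ‖x‖ = 1 → ⟪x, u⟫ = 0 → u ≠ 0 → 0 < form x u u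

/-- The free loop space: piecewise smooth loops in `S^n`, as `1`-periodic functions on `ℝ`. -/
structure Loop (n : ℕ) where
  /-- the loop -/
  toFun : ℝ → E n
  norm_eq : ∀ t, ‖toFun t‖ = 1
  periodic : ∀ t, toFun (t + 1) = toFun t
  cont : Continuous toFun
  piecewise : ∃ (m : ℕ) (p : ℕ → ℝ), (∀ i < m, p i < p (i + 1)) ∧ p 0 = 0 ∧ p m = 1 ∧
    ∀ i < m, ContDiffOn ℝ ∞ toFun (Set.Icc (p i) (p (i + 1)))

/-- length of a loop -/
noncomputable def length {n : ℕ} (g : SphereMetric n) (γ : Loop n) : ℝ :=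
  ∫ t in (0 : ℝ)..1, Real.sqrt (g.form (γ.toFun t) (deriv γ.toFun t) (deriv γ.toFun t))

/-- A topology on the set of piecewise smooth loops is natural if it is finer than the topology of
uniform convergence and coarser than the topology of uniform convergence of the loops together
with their first derivatives (away from finitely many times). -/
structure Natural {n : ℕ} (T : TopologicalSpace (Loop n)) : Prop where
  fine : ∀ (γ : Loop n) (ε : ℝ), 0 < ε → {γ' : Loop n | ∀ t, ‖γ'.toFun t - γ.toFun t‖ < ε} ∈ @nhds _ T γ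
  coarse : ∀ (γ : Loop n), ∀ U ∈ @nhds _ T γ, ∃ ε : ℝ, 0 < ε ∧ ∀ γ' : Loop n,
    (∀ t, ‖γ'.toFun t - γ.toFun t‖ < ε) →
    (∃ F : Finset ℝ, ∀ t ∈ Set.Ioo (0 : ℝ) 1, t ∉ F → ‖deriv γ'.toFun t - deriv γ.toFun t‖ < ε) →
    γ' ∈ U

/-! ## cubical singular homology -/

/-- maps from the standard `d`-cube -/
abbrev Cube (X : Type*) (d : ℕ) : Type _ := (Fin d → unitInterval) → X

section homology

variable (X : Type*) [TopologicalSpace X] (G : Type*) [Field G]

/-- singular cubical `d`-chains of the subspace `S` of `X` -/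
def chains (S : Set X) (d : ℕ) : Submodule G (Cube X d →₀ G) :=
  Finsupp.supported G G {c | Continuous c ∧ ∀ s, c s ∈ S}

/-- the chains spanned by degenerate cubes: those which do not depend on one of the coordinates -/
def degen (S : Set X) (d : ℕ) : Submodule G (Cube X d →₀ G) :=
  Finsupp.supported G G {c | (Continuous c ∧ ∀ s, c s ∈ S) ∧
    ∃ i : Fin d, ∀ s s' : Fin d → unitInterval, (∀ j, j ≠ i → s j = s' j) → c s = c s'}

/-- the boundary of a cubical chain -/
noncomputable def bdry (X : Type*) (G : Type*) [Field G] (d : ℕ) :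
    (Cube X (d + 1) →₀ G) →ₗ[G] (Cube X d →₀ G) :=
  Finsupp.linearCombination G (fun c : Cube X (d + 1) => ∑ i : Fin (d + 1),
    (-1 : G) ^ (i : ℕ) • (Finsupp.single (fun s => c (Fin.insertNth i 1 s)) (1 : G) -
      Finsupp.single (fun s => c (Fin.insertNth i 0 s)) (1 : G)))

/-- cycles (modulo degenerate chains) of the subspace `S` -/
noncomputable def cycles (S : Set X) : (d : ℕ) → Submodule G (Cube X d →₀ G)
  | 0 => chains X G S 0
  | d + 1 => chains X G S (d + 1) ⊓ (degen X G S d).comap (bdry X G d)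

/-- boundaries (modulo degenerate chains) of the subspace `S` -/
noncomputable def bounds (S : Set X) (d : ℕ) : Submodule G (Cube X d →₀ G) :=
  (chains X G S (d + 1)).map (bdry X G d) ⊔ degen X G S d

/-- the additive group structure of a subspace (stated explicitly to help elaboration) -/
noncomputable instance subspaceGroup {ι G : Type*} [Field G] (Z : Submodule G (ι →₀ G)) :
    AddCommGroup ↥Z := Submodule.addCommGroup Z

/-- (cubical) singular homology of `X` with coefficients in the field `G` -/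
abbrev Homology (d : ℕ) : Type _ :=
  ↥(cycles X G Set.univ d) ⧸
    (bounds X G Set.univ d).comap (cycles X G Set.univ d).subtype

variable {X G}

/-- the cycle `z` represents the class `x` -/
def Represents {d : ℕ} (z : Cube X d →₀ G) (x : Homology X G d) : Prop :=
  ∃ h : z ∈ cycles X G Set.univ d, Submodule.Quotient.mk ⟨z, h⟩ = x

end homology

/-- critical (minimax) level of a homology class: the infimum of all `a` such that the class is
represented by a cycle of the space of loops of length at most `a` -/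
noncomputable def cr {n : ℕ} [TopologicalSpace (Loop n)] {G : Type*} [Field G] (g : SphereMetric n)
    {d : ℕ} (x : Homology (Loop n) G d) : ℝ :=
  sInf {a : ℝ | ∃ z ∈ cycles (Loop n) G {γ | length g γ ≤ a} d, Represents z x}

/-- `α` is the global mean frequency of `(g, G)` -/
def IsGMF {n : ℕ} [TopologicalSpace (Loop n)] (g : SphereMetric n) (G : Type*) [Field G]
    (α : ℝ) : Prop :=
  ∀ ε : ℝ, 0 < ε → ∃ D : ℕ, ∀ d ≥ D, ∀ x : Homology (Loop n) G d, x ≠ 0 → |d / cr g x - α| < ε

/-! ## polygons -/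

/-- radial projection to the unit sphere -/
noncomputable def nrm {V : Type*} [NormedAddCommGroup V] [NormedSpace ℝ V] (v : V) : V :=
  ‖v‖⁻¹ • v

/-- the segment from `P` to `P'` -/
noncomputable def seg {V : Type*} [AddCommGroup V] [Module ℝ V] (P P' : V) (x : ℝ) : V :=
  (1 - x) • P + x • P'

/-- closed polygons with vertices `P 0, …, P K = P 0` whose edges avoid the origin -/
def ValidPoly {n : ℕ} (K : ℕ) (P : ℕ → E n) : Prop :=
  0 < K ∧ P K = P 0 ∧ ∀ i < K, ∀ x ∈ Set.Icc (0 : ℝ) 1, seg (P i) (P (i + 1)) x ≠ 0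

/-- the radial projection of the polygon, as a `1`-periodic function -/
noncomputable def polyPt {n : ℕ} (K : ℕ) (P : ℕ → E n) (t : ℝ) : E n :=
  nrm (seg (P ⌊K * Int.fract t⌋₊) (P (⌊K * Int.fract t⌋₊ + 1))
    (K * Int.fract t - ⌊K * Int.fract t⌋₊))

/-! ## the function on `S^6` -/

/-- `ℝ^7` -/
abbrev E6 : Type := E 6

/-- `ℝ^3` -/
abbrev R3 : Type := EuclideanSpace ℝ (Fin 3)

/-- Veronese coordinates -/
noncomputable def ver (a : R3) : Fin 5 → ℝ :=
  ![√3 * a 0 * a 1, √3 * a 0 * a 2, √3 * a 1 * a 2, √3 / 2 * (a 0 ^ 2 - a 2 ^ 2),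
    (a 0 ^ 2 + a 2 ^ 2 - 2 * a 1 ^ 2) / 2]

/-- the quadratic form on `ℝ^3` defined by the first five coordinates of `v` -/
noncomputable def qf (v : E6) (x : R3) : ℝ :=
  v 0 * ver x 0 + v 1 * ver x 1 + v 2 * ver x 2 + v 3 * ver x 3 + v 4 * ver x 4

/-- `a` is a unit vector where `qf v` is maximal -/
def IsTop (v : E6) (a : R3) : Prop := ‖a‖ = 1 ∧ ∀ x : R3, ‖x‖ = 1 → qf v x ≤ qf v a

/-- `b` is a unit vector where `qf v` is minimal -/
def IsBot (v : E6) (b : R3) : Prop := ‖b‖ = 1 ∧ ∀ x : R3, ‖x‖ = 1 → qf v b ≤ qf v x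

/-- the determinant-like cubic form -/
noncomputable def H4 (v : E6) : ℝ :=
  -(v 4) ^ 3 + 3 * v 4 * v 3 ^ 2 + 3 * √3 * v 0 * v 1 * v 2 + 3 * √3 / 2 * v 3 * (v 0 ^ 2 - v 2 ^ 2)
    + 3 * v 4 * v 1 ^ 2 - 3 / 2 * v 4 * (v 0 ^ 2 + v 2 ^ 2)

/-- the function whose level `0` separates `S^6` into two Moore spaces -/
noncomputable def HH (v : E6) : ℝ := H4 v + v 5 ^ 2 - v 6 ^ 2

/-- the point with coordinates `(α ver a - β ver b, σ, t)` -/
noncomputable def pt (α : ℝ) (a : R3) (β : ℝ) (b : R3) (σ t : ℝ) : E6 :=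
  !₂[α * ver a 0 - β * ver b 0, α * ver a 1 - β * ver b 1, α * ver a 2 - β * ver b 2,
    α * ver a 3 - β * ver b 3, α * ver a 4 - β * ver b 4, σ, t]

/-- the point `((1 - s²) ver a, s, 0)` -/
noncomputable def vX (a : R3) (s : ℝ) : E6 := pt (1 - s ^ 2) a 0 a s 0

/-- the point `(-(1 - t²) ver b, 0, t)` -/
noncomputable def vY (b : R3) (t : ℝ) : E6 := pt 0 b (1 - t ^ 2) b 0 t

/-- the unit vectors of the last two coordinates -/
noncomputable def v5 : E6 := pt 0 0 0 0 1 0

noncomputable def v6 : E6 := pt 0 0 0 0 0 1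

/-- admissible parameters of the crossing edges -/
def Ok (a b : R3) (s t : ℝ) : Prop :=
  ‖a‖ = 1 ∧ ‖b‖ = 1 ∧ |s| ≤ 1 ∧ |t| ≤ 1 ∧ (⟪a, b⟫ = 0 ∨ |s| = 1 ∨ |t| = 1)

/-- the smooth function `τ`, equal to `0` where `HH ≤ -1/20` and to `1` where `HH ≥ 1/20` -/
noncomputable def tau (v : E6) : ℝ := Real.smoothTransition (10 * HH v + 1 / 2)

end Pool.Agent.Helper76.Freq
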