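import Pool.Agent.Helper76.Freq.Ev

/-!
# Words of letters on discrete paths

A letter is a pair `(n, Φ)`, where `Φ` is a cochain of degree `n + 1` on the space `X` of points.
`hat ℓ I` is the cochain of degree `n` on discrete paths `ℕ → X` given by the prism operator on
the time interval `[I, I + 1]`.  `W L a b` is the sum over all increasing sequences of intervals
in `[a, b]` of the cup products of the letters of the word `L`.
-/

set_option autoImplicit false

namespace Pool.Agent.Helper76.Freq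

open Finset

variable {R : Type*} [CommRing R] {X : Type}

/-- letters: `(n, Φ)` with `Φ` of degree `n + 1` -/
abbrev Lt (X : Type) (R : Type*) := ℕ × ((ℕ → X) → R)

/-- the letter `ℓ` on the time interval `[I, I + 1]` -/
def hat (ℓ : Lt X R) (I : ℕ) (y : ℕ → ℕ → X) : R :=
  Pr (ℓ.1 + 1) ℓ.2 (fun j => (y j I, y j (I + 1)))

/-- total (reduced) degree of a word -/
def wd (L : List (Lt X R)) : ℕ := (L.map Prod.fst).sum

omit [CommRing R] in
@[simp] theorem wd_nil : wd ([] : List (Lt X R)) = 0 := rfl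
omit [CommRing R] in
@[simp] theorem wd_cons (ℓ : Lt X R) (L : List (Lt X R)) : wd (ℓ :: L) = ℓ.1 + wd L := by
  simp [wd]
omit [CommRing R] in
@[simp] theorem wd_append (L L' : List (Lt X R)) : wd (L ++ L') = wd L + wd L' := by
  simp [wd]

/-- the cochain of a word -/
def W : List (Lt X R) → ℕ → ℕ → (ℕ → ℕ → X) → R
  | [], _, _, _ => 1
  | ℓ :: L, a, b, y => ∑ I ∈ Ico a b, cup ℓ.1 (hat ℓ I) (W L (I + 1) b) y

@[simp] theorem W_nil (a b : ℕ) (y : ℕ → ℕ → X) : W ([] : List (Lt X R)) a b y = 1 := rfl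

theorem W_cons (ℓ : Lt X R) (L : List (Lt X R)) (a b : ℕ) (y : ℕ → ℕ → X) :
    W (ℓ :: L) a b y = ∑ I ∈ Ico a b, cup ℓ.1 (hat ℓ I) (W L (I + 1) b) y := rfl

theorem W_cons_self (ℓ : Lt X R) (L : List (Lt X R)) (a : ℕ) (y : ℕ → ℕ → X) :
    W (ℓ :: L) a a y = 0 := by
  rw [W_cons, Ico_self, sum_empty]

theorem cup_assoc {Y : Type*} (p q : ℕ) (Φ Ψ Ξ : (ℕ → Y) → R) :
    cup p Φ (cup q Ψ Ξ) = cup (p + q) (cup p Φ Ψ) Ξ := by
  funext y
  simp only [cup, mul_assoc]
  congr 3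
  funext j
  congr 1
  omega

theorem hat_dep {ℓ : Lt X R} (h : Dep (ℓ.1 + 1) ℓ.2) (I : ℕ) : Dep ℓ.1 (hat ℓ I) := by
  intro y y' hy
  exact h.pr _ _ fun j hj => by rw [hy j hj]

theorem W_dep {L : List (Lt X R)} (h : ∀ ℓ ∈ L, Dep (ℓ.1 + 1) ℓ.2) (a b : ℕ) :
    Dep (wd L) (W L a b) := by
  induction L generalizing a with
  | nil => intro y y' _; rfl
  | cons ℓ L ih =>
    intro y y' hy
    rw [W_cons, W_cons]
    refine sum_congr rfl fun I _ => ?_
    rw [wd_cons] at hy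
    exact (hat_dep (h ℓ (by simp)) I).cup (ih (fun ℓ' h' => h ℓ' (by simp [h'])) (I + 1)) y y' hy

/-- normalisation of words, local in time -/
theorem W_nrmOn {L : List (Lt X R)} (h : ∀ ℓ ∈ L, Nrm (ℓ.1 + 1) ℓ.2) (a b : ℕ) (y : ℕ → ℕ → X)
    (hy : ∃ j < wd L, ∀ I, a ≤ I → I ≤ b → y j I = y (j + 1) I) : W L a b y = 0 := by
  induction L generalizing a y with
  | nil => obtain ⟨j, hj, _⟩ := hy; simp at hj
  | cons ℓ L ih =>
    obtain ⟨j, hj, hjj⟩ := hy
    rw [wd_cons] at hj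
    rw [W_cons]
    refine sum_eq_zero fun I hI => ?_
    obtain ⟨h1, h2⟩ := mem_Ico.1 hI
    simp only [cup]
    by_cases h3 : j < ℓ.1
    · have : hat ℓ I y = 0 := (h ℓ (by simp)).pr _ ⟨j, h3, by
        rw [hjj I h1 h2.le, hjj (I + 1) (by omega) (by omega)]⟩
      rw [this, zero_mul]
    · rw [ih (fun ℓ' h' => h ℓ' (by simp [h'])), mul_zero]
      refine ⟨j - ℓ.1, by omega, fun J hJ hJ' => ?_⟩
      have e1 : j - ℓ.1 + ℓ.1 = j := by omega
      have e2 : j - ℓ.1 + 1 + ℓ.1 = j + 1 := by omega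
      simp only [e1, e2]
      exact hjj J (by omega) hJ'

/-- splitting of a word at the time `b` -/
theorem W_split (L : List (Lt X R)) {a b c : ℕ} (hab : a ≤ b) (hbc : b ≤ c) (y : ℕ → ℕ → X) :
    W L a c y = ∑ k ∈ range (L.length + 1),
      cup (wd (L.take k)) (W (L.take k) a b) (W (L.drop k) b c) y := by
  induction L generalizing a y with
  | nil => simp [cup]
  | cons ℓ L ih =>
    rw [W_cons, ← sum_Ico_consecutive _ hab hbc, List.length_cons, sum_range_succ' _ (L.length + 1)]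
    congr 1
    · simp only [List.take_succ_cons, List.drop_succ_cons, wd_cons]
      have e1 : ∀ I ∈ Ico a b, cup ℓ.1 (hat ℓ I) (W L (I + 1) c) y =
          ∑ k ∈ range (L.length + 1), cup (ℓ.1 + wd (L.take k))
            (cup ℓ.1 (hat ℓ I) (W (L.take k) (I + 1) b)) (W (L.drop k) b c) y := by
        intro I hI
        have hI' := (mem_Ico.1 hI).2
        simp only [← cup_assoc]
        simp only [cup]
        rw [ih (by omega), mul_sum]
        rfl
      rw [sum_congr rfl e1, sum_comm]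
      refine sum_congr rfl fun k _ => ?_
      simp only [cup, W_cons, sum_mul]
    · simp only [List.take_zero, List.drop_zero, wd_nil, cup, W_nil, one_mul, add_zero]
      rfl

/-- the last letter -/
theorem W_succ_last (L : List (Lt X R)) (ℓ : Lt X R) {a b : ℕ} (hab : a ≤ b) (y : ℕ → ℕ → X) :
    W (L ++ [ℓ]) a (b + 1) y = W (L ++ [ℓ]) a b y + cup (wd L) (W L a b) (hat ℓ b) y := by
  induction L generalizing a y with
  | nil =>
    simp only [List.nil_append, W_cons, sum_Ico_succ_top hab]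
    simp [cup]
  | cons ℓ' L ih =>
    simp only [List.cons_append, W_cons, wd_cons]
    rw [sum_Ico_succ_top hab]
    have e1 : cup ℓ'.1 (hat ℓ' b) (W (L ++ [ℓ]) (b + 1) (b + 1)) y = 0 := by
      have : W (L ++ [ℓ]) (b + 1) (b + 1) (fun j => y (j + ℓ'.1)) = 0 := by
        rcases L with _ | ⟨ℓ'', L⟩
        · exact W_cons_self _ _ _ _
        · exact W_cons_self _ _ _ _
      simp only [cup, this, mul_zero]
    rw [e1, add_zero]
    have e2 : ∀ I ∈ Ico a b, cup ℓ'.1 (hat ℓ' I) (W (L ++ [ℓ]) (I + 1) (b + 1)) y =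
        cup ℓ'.1 (hat ℓ' I) (W (L ++ [ℓ]) (I + 1) b) y +
        cup (ℓ'.1 + wd L) (cup ℓ'.1 (hat ℓ' I) (W L (I + 1) b)) (hat ℓ b) y := by
      intro I hI
      have hI' := (mem_Ico.1 hI).2
      rw [← cup_assoc]
      simp only [cup]
      rw [ih (by omega)]
      simp only [cup]
      ring
    rw [sum_congr rfl e2, sum_add_distrib]
    congr 1
    simp only [cup, W_cons, sum_mul]

/-- words are invariant under time shifts -/
theorem W_shift (L : List (Lt X R)) (a b N : ℕ) (y : ℕ → ℕ → X) :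
    W L (a + N) (b + N) y = W L a b (fun j I => y j (I + N)) := by
  induction L generalizing a y with
  | nil => rfl
  | cons ℓ L ih =>
    rw [W_cons, W_cons, ← sum_Ico_add' _ a b N]
    refine sum_congr rfl fun I _ => ?_
    simp only [cup]
    congr 1
    · simp only [hat]
      congr 1
      funext j
      have : I + N + 1 = I + 1 + N := by ring
      rw [this]
    · have : I + N + 1 = I + 1 + N := by ring
      rw [this, ih]

/-! ### closedness -/

variable (r : X → X → Prop)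

/-- all entries are close -/
def Sml (v : ℕ → X) : Prop := ∀ i j, r (v i) (v j)

/-- small sequences of paths -/
def SmT (y : ℕ → ℕ → X) : Prop :=
  ∀ i j I, r (y i I) (y j I) ∧ r (y i I) (y j (I + 1)) ∧ r (y i (I + 1)) (y j I)

/-- closedness of a cochain of degree `n` on small sequences -/
def ClosedOn (n : ℕ) (Φ : (ℕ → X) → R) : Prop := ∀ v, Sml r v → cobd n Φ v = 0

/-- cochains with disjoint supports -/
def Disj (Φ Ψ : (ℕ → X) → R) : Prop :=
  ∀ v v' : ℕ → X, Sml r v → Sml r v' → (∀ i j, r (v i) (v' j)) → (∀ i j, r (v' i) (v j)) →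
    Φ v = 0 ∨ Ψ v' = 0

variable {r}

/-- entries taken from the times `I`, `I + 1` -/
def From (y : ℕ → ℕ → X) (I : ℕ) (v : ℕ → X) : Prop := ∀ j, ∃ j', v j = y j' I ∨ v j = y j' (I + 1)

theorem SmT.from {y : ℕ → ℕ → X} (hy : SmT r y) {I : ℕ} {v v' : ℕ → X} (hv : From y I v)
    (hv' : From y I v') (i j : ℕ) : r (v i) (v' j) := by
  obtain ⟨i', h | h⟩ := hv i <;> obtain ⟨j', h' | h'⟩ := hv' j <;> rw [h, h']
  · exact (hy i' j' I).1
  · exact (hy i' j' I).2.1
  · exact (hy i' j' I).2.2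
  · exact (hy i' j' (I + 1)).1

theorem SmT.comp {y : ℕ → ℕ → X} (hy : SmT r y) (σ : ℕ → ℕ) : SmT r (fun j => y (σ j)) :=
  fun i j I => hy (σ i) (σ j) I

theorem From.mix (y : ℕ → ℕ → X) (I i : ℕ) : From y I (mix i fun j => (y j I, y j (I + 1))) := by
  intro j
  simp only [Freq.mix]
  split
  · exact ⟨j, Or.inl rfl⟩
  · exact ⟨j - 1, Or.inr rfl⟩

theorem From.left (y : ℕ → ℕ → X) (I : ℕ) : From y I (fun j => y j I) := fun j => ⟨j, Or.inl rfl⟩

theorem From.right (y : ℕ → ℕ → X) (I : ℕ) : From y I (fun j => y j (I + 1)) :=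
  fun j => ⟨j, Or.inr rfl⟩

theorem From.comp {y : ℕ → ℕ → X} {I : ℕ} {v : ℕ → X} {σ : ℕ → ℕ}
    (h : From (fun j => y (σ j)) I v) : From y I v := by
  intro j
  obtain ⟨j', h'⟩ := h j
  exact ⟨σ j', h'⟩

/-- if a letter does not vanish on an interval then it does not vanish on a small sequence -/
theorem exists_of_hat_ne_zero {ℓ : Lt X R} {I : ℕ} {y : ℕ → ℕ → X} (h : hat ℓ I y ≠ 0) :
    ∃ v, From y I v ∧ ℓ.2 v ≠ 0 := by
  simp only [hat, Pr] at h
  obtain ⟨i, _, hi⟩ := exists_ne_zero_of_sum_ne_zero h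
  exact ⟨_, From.mix y I i, right_ne_zero_of_mul hi⟩

theorem cobd_hat {ℓ : Lt X R} (hd : Dep (ℓ.1 + 1) ℓ.2) (hc : ClosedOn r (ℓ.1 + 1) ℓ.2)
    {y : ℕ → ℕ → X} (hy : SmT r y) (I : ℕ) :
    cobd ℓ.1 (hat ℓ I) y = ℓ.2 (fun j => y j (I + 1)) - ℓ.2 (fun j => y j I) := by
  have h1 := prism_succ hd (fun j => (y j I, y j (I + 1)))
  have h2 : Pr (ℓ.1 + 2) (cobd (ℓ.1 + 1) ℓ.2) (fun j => (y j I, y j (I + 1))) = 0 := by
    simp only [Pr]
    refine sum_eq_zero fun i _ => ?_
    rw [hc _ (fun a b => hy.from (From.mix y I i) (From.mix y I i) a b), mul_zero]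
  rw [h2, zero_add] at h1
  exact h1

/-- conditions on words: every letter depends on finitely many entries, is closed on small
sequences; consecutive letters have disjoint supports -/
inductive Good (r : X → X → Prop) : List (Lt X R) → Prop
  | nil : Good r []
  | single (ℓ : Lt X R) (hd : Dep (ℓ.1 + 1) ℓ.2) (hc : ClosedOn r (ℓ.1 + 1) ℓ.2) : Good r [ℓ]
  | cons (ℓ ℓ' : Lt X R) (L : List (Lt X R)) (hd : Dep (ℓ.1 + 1) ℓ.2)
      (hc : ClosedOn r (ℓ.1 + 1) ℓ.2) (hj : Disj r ℓ.2 ℓ'.2) (h : Good r (ℓ' :: L)) :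
      Good r (ℓ :: ℓ' :: L)

theorem cup_cobd_zero {Y : Type*} {n : ℕ} {Φ Ψ : (ℕ → Y) → R} {y : ℕ → Y}
    (h : Φ y ≠ 0 → Ψ (fun j => y (j + n)) = 0) : cup n Φ Ψ y = 0 := by
  simp only [cup]
  by_cases h1 : Φ y = 0
  · rw [h1, zero_mul]
  · rw [h h1, mul_zero]

theorem cobd_sum {Y : Type*} {ι : Type*} (s : Finset ι) (d : ℕ) (Φ : ι → (ℕ → Y) → R) (y : ℕ → Y) :
    cobd d (fun y => ∑ i ∈ s, Φ i y) y = ∑ i ∈ s, cobd d (Φ i) y := by
  simp only [cobd, mul_sum]
  rw [sum_comm]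

/-- closedness of words, if the first letter vanishes at the time `a` and the last one at the
time `b` -/
theorem cobd_W {L : List (Lt X R)} (hL : Good r L) (hne : L ≠ []) {a b : ℕ} (hab : a ≤ b)
    {y : ℕ → ℕ → X} (hy : SmT r y)
    (h1 : ∀ σ : ℕ → ℕ, (L.head hne).2 (fun j => y (σ j) a) = 0)
    (h2 : ∀ σ : ℕ → ℕ, (L.getLast hne).2 (fun j => y (σ j) b) = 0) :
    cobd (wd L) (W L a b) y = 0 := by
  induction hL generalizing a y with
  | nil => exact absurd rfl hne
  | single ℓ hd hc =>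
    have e0 : W [ℓ] a b = fun y => ∑ I ∈ Ico a b, hat ℓ I y := by
      funext y
      simp [W_cons, cup]
    rw [e0, cobd_sum]
    have e1 : ∀ I ∈ Ico a b, cobd (wd [ℓ]) (hat ℓ I) y =
        ℓ.2 (fun j => y j (I + 1)) - ℓ.2 (fun j => y j I) := by
      intro I _
      have := cobd_hat hd hc hy I
      simpa using this
    rw [sum_congr rfl e1, sum_Ico_sub (fun I => ℓ.2 (fun j => y j I)) hab]
    have := h1 id
    have h3 := h2 id
    simp only [List.head_cons, List.getLast_singleton, id] at this h3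
    rw [this, h3, sub_zero]
  | cons ℓ ℓ' L hd hc hj hgood ih =>
    have hdW : ∀ I, cobd (ℓ.1 + wd (ℓ' :: L)) (cup ℓ.1 (hat ℓ I) (W (ℓ' :: L) (I + 1) b)) y =
        cup (ℓ.1 + 1) (cobd ℓ.1 (hat ℓ I)) (W (ℓ' :: L) (I + 1) b) y +
        (-1) ^ ℓ.1 * cup ℓ.1 (hat ℓ I) (cobd (wd (ℓ' :: L)) (W (ℓ' :: L) (I + 1) b)) y :=
      fun I => cobd_cup (hat_dep hd I) y
    have e0 : W (ℓ :: ℓ' :: L) a b = fun y =>
        ∑ I ∈ Ico a b, cup ℓ.1 (hat ℓ I) (W (ℓ' :: L) (I + 1) b) y := rfl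
    rw [e0, cobd_sum, wd_cons, sum_congr rfl fun I _ => hdW I, sum_add_distrib]
    have e2 : ∑ I ∈ Ico a b, (-1 : R) ^ ℓ.1 *
        cup ℓ.1 (hat ℓ I) (cobd (wd (ℓ' :: L)) (W (ℓ' :: L) (I + 1) b)) y = 0 := by
      refine sum_eq_zero fun I hI => ?_
      obtain ⟨hI1, hI2⟩ := mem_Ico.1 hI
      rw [cup_cobd_zero, mul_zero]
      intro hne'
      obtain ⟨v, hv, hv0⟩ := exists_of_hat_ne_zero hne'
      refine ih (by simp) (by omega) (hy.comp _) ?_ ?_
      · intro σ
        have hfr : From y I (fun j => y (σ j + ℓ.1) (I + 1)) := fun j => ⟨_, Or.inr rfl⟩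
        rcases hj v (fun j => y (σ j + ℓ.1) (I + 1)) (hy.from hv hv) (hy.from hfr hfr)
          (hy.from hv hfr) (hy.from hfr hv) with h | h
        · exact absurd h hv0
        · simpa using h
      · intro σ
        have := h2 (fun j => σ j + ℓ.1)
        rw [List.getLast_cons (by simp)] at this
        exact this
    rw [e2, add_zero]
    -- the telescoping part
    have e3 : ∀ I ∈ Ico a b, cup (ℓ.1 + 1) (cobd ℓ.1 (hat ℓ I)) (W (ℓ' :: L) (I + 1) b) y =
        ℓ.2 (fun j => y j (I + 1)) * W (ℓ' :: L) (I + 1) b (fun j => y (j + (ℓ.1 + 1))) -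
        ℓ.2 (fun j => y j I) * W (ℓ' :: L) I b (fun j => y (j + (ℓ.1 + 1))) := by
      intro I hI
      obtain ⟨hI1, hI2⟩ := mem_Ico.1 hI
      simp only [cup]
      rw [cobd_hat hd hc hy I, sub_mul]
      congr 1
      rw [W_cons ℓ' L I b, sum_eq_sum_Ico_succ_bot hI2, mul_add]
      have e4 : ℓ.2 (fun j => y j I) *
          cup ℓ'.1 (hat ℓ' I) (W L (I + 1) b) (fun j => y (j + (ℓ.1 + 1))) = 0 := by
        by_cases h0 : ℓ.2 (fun j => y j I) = 0
        · rw [h0, zero_mul]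
        · have : hat ℓ' I (fun j => y (j + (ℓ.1 + 1))) = 0 := by
            by_contra h5
            obtain ⟨v, hv, hv0⟩ := exists_of_hat_ne_zero h5
            have hv' := hv.comp (σ := fun j => j + (ℓ.1 + 1))
            rcases hj (fun j => y j I) v (hy.from (From.left y I) (From.left y I))
              (hy.from hv' hv') (hy.from (From.left y I) hv') (hy.from hv' (From.left y I)) with h | h
            · exact h0 h
            · exact hv0 h
          simp only [cup, this, zero_mul, mul_zero]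
      rw [e4, zero_add]
      rfl
    rw [sum_congr rfl e3, sum_Ico_sub (fun I => ℓ.2 (fun j => y j I) *
      W (ℓ' :: L) I b (fun j => y (j + (ℓ.1 + 1)))) hab, W_cons_self]
    have := h1 id
    simp only [List.head_cons, id] at this
    rw [this]
    ring

/-! ### cyclic words -/

/-- the cyclic word: the letter `ℓ₀` on all intervals, followed by the word `L` during the
rest of one period `N` -/
def Th (ℓ₀ : Lt X R) (L : List (Lt X R)) (N : ℕ) (y : ℕ → ℕ → X) : R :=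
  ∑ I ∈ range N, cup ℓ₀.1 (hat ℓ₀ I) (W L (I + 1) (I + N)) y

theorem Th_dep {ℓ₀ : Lt X R} {L : List (Lt X R)} (h0 : Dep (ℓ₀.1 + 1) ℓ₀.2)
    (h : ∀ ℓ ∈ L, Dep (ℓ.1 + 1) ℓ.2) (N : ℕ) : Dep (ℓ₀.1 + wd L) (Th ℓ₀ L N) := by
  intro y y' hy
  refine sum_congr rfl fun I _ => ?_
  exact (hat_dep h0 I).cup (W_dep h _ _) y y' hy

theorem Th_nrm {ℓ₀ : Lt X R} {L : List (Lt X R)} (h0 : Nrm (ℓ₀.1 + 1) ℓ₀.2)
    (h : ∀ ℓ ∈ L, Nrm (ℓ.1 + 1) ℓ.2) (N : ℕ) : Nrm (ℓ₀.1 + wd L) (Th ℓ₀ L N) := by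
  rintro y ⟨j, hj, hjj⟩
  refine sum_eq_zero fun I hI => ?_
  have := W_nrmOn (L := ℓ₀ :: L) (by
    intro ℓ hℓ
    rcases List.mem_cons.1 hℓ with h1 | h1
    · rw [h1]; exact h0
    · exact h ℓ h1) I (I + 1) y
  simp only [cup]
  by_cases h1 : j < ℓ₀.1
  · have : hat ℓ₀ I y = 0 := h0.pr _ ⟨j, h1, by rw [hjj]⟩
    rw [this, zero_mul]
  · rw [W_nrmOn h, mul_zero]
    refine ⟨j - ℓ₀.1, by omega, fun J _ _ => ?_⟩
    have e1 : j - ℓ₀.1 + ℓ₀.1 = j := by omega
    have e2 : j - ℓ₀.1 + 1 + ℓ₀.1 = j + 1 := by omega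
    simp only [e1, e2, hjj]

/-- closedness of cyclic words on small periodic sequences -/
theorem cobd_Th {ℓ₀ : Lt X R} {L : List (Lt X R)} (hL : Good r L) (hne : L ≠ [])
    (hd : Dep (ℓ₀.1 + 1) ℓ₀.2) (hc : ClosedOn r (ℓ₀.1 + 1) ℓ₀.2)
    (hj1 : Disj r ℓ₀.2 (L.head hne).2) (hj2 : Disj r (L.getLast hne).2 ℓ₀.2) {N : ℕ} (hN : 0 < N)
    {y : ℕ → ℕ → X} (hy : SmT r y) (hper : ∀ j I, y j (I + N) = y j I) :
    cobd (ℓ₀.1 + wd L) (Th ℓ₀ L N) y = 0 := by
  have e0 : Th ℓ₀ L N = fun y => ∑ I ∈ range N, cup ℓ₀.1 (hat ℓ₀ I) (W L (I + 1) (I + N)) y := rfl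
  have hdW : ∀ I, cobd (ℓ₀.1 + wd L) (cup ℓ₀.1 (hat ℓ₀ I) (W L (I + 1) (I + N))) y =
        cup (ℓ₀.1 + 1) (cobd ℓ₀.1 (hat ℓ₀ I)) (W L (I + 1) (I + N)) y +
        (-1) ^ ℓ₀.1 * cup ℓ₀.1 (hat ℓ₀ I) (cobd (wd L) (W L (I + 1) (I + N))) y :=
      fun I => cobd_cup (hat_dep hd I) y
  rw [e0, cobd_sum, sum_congr rfl fun I _ => hdW I, sum_add_distrib]
  have e2 : ∑ I ∈ range N, (-1 : R) ^ ℓ₀.1 *
      cup ℓ₀.1 (hat ℓ₀ I) (cobd (wd L) (W L (I + 1) (I + N))) y = 0 := by
    refine sum_eq_zero fun I hI => ?_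
    rw [cup_cobd_zero, mul_zero]
    intro hne'
    obtain ⟨v, hv, hv0⟩ := exists_of_hat_ne_zero hne'
    refine cobd_W hL hne (by omega) (hy.comp _) ?_ ?_
    · intro σ
      have hfr : From y I (fun j => y (σ j + ℓ₀.1) (I + 1)) := fun j => ⟨_, Or.inr rfl⟩
      rcases hj1 v (fun j => y (σ j + ℓ₀.1) (I + 1)) (hy.from hv hv) (hy.from hfr hfr)
        (hy.from hv hfr) (hy.from hfr hv) with h | h
      · exact absurd h hv0
      · exact h
    · intro σ
      have hfr : From y I (fun j => y (σ j + ℓ₀.1) (I + N)) := fun j => ⟨_, Or.inl (hper _ _)⟩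
      rcases hj2 (fun j => y (σ j + ℓ₀.1) (I + N)) v (hy.from hfr hfr) (hy.from hv hv)
        (hy.from hfr hv) (hy.from hv hfr) with h | h
      · exact h
      · exact absurd h hv0
  rw [e2, add_zero]
  set y' : ℕ → ℕ → X := fun j => y (j + (ℓ₀.1 + 1)) with hy'
  have hSy' : SmT r y' := hy.comp _
  -- the first letter
  have k1 : ∀ I J, I < J → ℓ₀.2 (fun j => y j I) * W L (I + 1) J y' =
      ℓ₀.2 (fun j => y j I) * W L I J y' := by
    intro I J hIJ
    obtain ⟨ℓ, L', rfl⟩ := List.exists_cons_of_ne_nil hne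
    rw [W_cons ℓ L' I J, sum_eq_sum_Ico_succ_bot hIJ, mul_add]
    have e4 : ℓ₀.2 (fun j => y j I) * cup ℓ.1 (hat ℓ I) (W L' (I + 1) J) y' = 0 := by
      by_cases h0 : ℓ₀.2 (fun j => y j I) = 0
      · rw [h0, zero_mul]
      · have : hat ℓ I y' = 0 := by
          by_contra h5
          obtain ⟨v, hv, hv0⟩ := exists_of_hat_ne_zero h5
          have hv' := hv.comp (σ := fun j => j + (ℓ₀.1 + 1))
          rcases hj1 (fun j => y j I) v (hy.from (From.left y I) (From.left y I))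
            (hy.from hv' hv') (hy.from (From.left y I) hv') (hy.from hv' (From.left y I)) with h | h
          · exact h0 h
          · exact hv0 h
        simp only [cup, this, zero_mul, mul_zero]
    rw [e4, zero_add]
    rfl
  -- the last letter
  have k2 : ∀ I, ℓ₀.2 (fun j => y j (I + 1)) * W L (I + 1) (I + N) y' =
      ℓ₀.2 (fun j => y j (I + 1)) * W L (I + 1) (I + N + 1) y' := by
    intro I
    obtain ⟨L', ℓ, rfl⟩ : ∃ L' ℓ, L = L' ++ [ℓ] := ⟨L.dropLast, L.getLast hne,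
      (List.dropLast_append_getLast hne).symm⟩
    rw [W_succ_last L' ℓ (by omega : I + 1 ≤ I + N), mul_add]
    have e4 : ℓ₀.2 (fun j => y j (I + 1)) *
        cup (wd L') (W L' (I + 1) (I + N)) (hat ℓ (I + N)) y' = 0 := by
      by_cases h0 : ℓ₀.2 (fun j => y j (I + 1)) = 0
      · rw [h0, zero_mul]
      · have : hat ℓ (I + N) (fun j => y' (j + wd L')) = 0 := by
          by_contra h5
          obtain ⟨v, hv, hv0⟩ := exists_of_hat_ne_zero h5
          have hv' : From y I v := by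
            intro j
            obtain ⟨j', h' | h'⟩ := hv j
            · exact ⟨j' + wd L' + (ℓ₀.1 + 1), Or.inl (by rw [h', hy']; exact hper _ _)⟩
            · refine ⟨j' + wd L' + (ℓ₀.1 + 1), Or.inr ?_⟩
              rw [h', hy', show I + N + 1 = (I + 1) + N by ring]
              exact hper _ _
          simp only [List.getLast_append_singleton] at hj2
          rcases hj2 v (fun j => y j (I + 1)) (hy.from hv' hv')
            (hy.from (From.right y I) (From.right y I))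
            (hy.from hv' (From.right y I)) (hy.from (From.right y I) hv') with h | h
          · exact hv0 h
          · exact h0 h
        simp only [cup, this, mul_zero]
    rw [e4, add_zero]
  have e3 : ∀ I ∈ range N, cup (ℓ₀.1 + 1) (cobd ℓ₀.1 (hat ℓ₀ I)) (W L (I + 1) (I + N)) y =
      ℓ₀.2 (fun j => y j (I + 1)) * W L (I + 1) (I + 1 + N) y' -
      ℓ₀.2 (fun j => y j I) * W L I (I + N) y' := by
    intro I hI
    have : cup (ℓ₀.1 + 1) (cobd ℓ₀.1 (hat ℓ₀ I)) (W L (I + 1) (I + N)) y =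
        (ℓ₀.2 (fun j => y j (I + 1)) - ℓ₀.2 (fun j => y j I)) * W L (I + 1) (I + N) y' := by
      simp only [cup]
      rw [cobd_hat hd hc hy I]
    rw [this, sub_mul, k2, k1 I (I + N) (by omega), show I + 1 + N = I + N + 1 by ring]
  rw [sum_congr rfl e3, sum_range_sub (fun I => ℓ₀.2 (fun j => y j I) * W L I (I + N) y')]
  have e5 : W L N (N + N) y' = W L 0 N y' := by
    have := W_shift L 0 N N y'
    rw [zero_add] at this
    rw [this]
    congr 1
    funext j I
    exact hper _ _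
  have e6 : (fun j => y j N) = fun j => y j 0 := by
    funext j
    have := hper j 0
    rwa [zero_add] at this
  rw [e5, e6, zero_add, sub_self]

/-! ### occurrences -/

/-- the letter `ℓ` does not vanish on some sequence from the times `I`, `I + 1` -/
def Hit (y : ℕ → ℕ → X) (ℓ : Lt X R) (I : ℕ) : Prop := ∃ v, From y I v ∧ ℓ.2 v ≠ 0

theorem exists_times {L : List (Lt X R)} {a b : ℕ} {y : ℕ → ℕ → X} (h : W L a b y ≠ 0) :
    ∃ t : ℕ → ℕ, (∀ i < L.length, a ≤ t i ∧ t i < b) ∧ (∀ i, i + 1 < L.length → t i < t (i + 1)) ∧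
      ∀ i (hi : i < L.length), Hit y (L[i]) (t i) := by
  induction L generalizing a y with
  | nil => exact ⟨fun _ => 0, by simp, by simp, by simp⟩
  | cons ℓ L ih =>
    rw [W_cons] at h
    obtain ⟨I, hI, h1⟩ := exists_ne_zero_of_sum_ne_zero h
    obtain ⟨hI1, hI2⟩ := mem_Ico.1 hI
    simp only [cup] at h1
    obtain ⟨v, hv, hv0⟩ := exists_of_hat_ne_zero (left_ne_zero_of_mul h1)
    obtain ⟨t, ht1, ht2, ht3⟩ := ih (right_ne_zero_of_mul h1)
    refine ⟨fun i => if i = 0 then I else t (i - 1), ?_, ?_, ?_⟩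
    · rintro (_ | i) hi
      · exact ⟨hI1, hI2⟩
      · have := ht1 i (by simpa using hi)
        simp only [Nat.succ_ne_zero, if_false, Nat.add_sub_cancel]
        exact ⟨by omega, this.2⟩
    · rintro (_ | i) hi
      · have := ht1 0 (by simpa using hi)
        simpa using (show I < t 0 by omega)
      · have := ht2 i (by simpa using hi)
        simpa using this
    · rintro (_ | i) hi
      · exact ⟨v, hv, hv0⟩
      · have hi' : i < L.length := by simpa using hi
        obtain ⟨v', hv', hv0'⟩ := ht3 i hi'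
        refine ⟨v', ?_, ?_⟩
        · intro j
          obtain ⟨j', h'⟩ := hv' j
          refine ⟨j' + ℓ.1, ?_⟩
          simpa using h'
        · simpa using hv0'

/-- occurrences of a cyclic word -/
theorem exists_times_Th {ℓ₀ : Lt X R} {L : List (Lt X R)} {N : ℕ} {y : ℕ → ℕ → X}
    (h : Th ℓ₀ L N y ≠ 0) :
    ∃ t : ℕ → ℕ, (∀ i, i + 1 < (ℓ₀ :: L).length → t i < t (i + 1)) ∧
      (∀ i < (ℓ₀ :: L).length, t i < t 0 + N) ∧
      ∀ i (hi : i < (ℓ₀ :: L).length), Hit y ((ℓ₀ :: L)[i]) (t i) := by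
  obtain ⟨I, hI, h1⟩ := exists_ne_zero_of_sum_ne_zero h
  have hN := mem_range.1 hI
  have h2 : W (ℓ₀ :: L) I (I + N) y ≠ 0 ∨ True := Or.inr trivial
  simp only [cup] at h1
  obtain ⟨v, hv, hv0⟩ := exists_of_hat_ne_zero (left_ne_zero_of_mul h1)
  obtain ⟨t, ht1, ht2, ht3⟩ := exists_times (right_ne_zero_of_mul h1)
  refine ⟨fun i => if i = 0 then I else t (i - 1), ?_, ?_, ?_⟩
  · rintro (_ | i) hi
    · have := ht1 0 (by simpa using hi)
      simpa using (show I < t 0 by omega)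
    · have := ht2 i (by simpa using hi)
      simpa using this
  · rintro (_ | i) hi
    · simp only [if_true]; omega
    · have := ht1 i (by simpa using hi)
      simpa using this.2
  · rintro (_ | i) hi
    · exact ⟨v, hv, hv0⟩
    · have hi' : i < L.length := by simpa using hi
      obtain ⟨v', hv', hv0'⟩ := ht3 i hi'
      refine ⟨v', ?_, ?_⟩
      · intro j
        obtain ⟨j', h'⟩ := hv' j
        refine ⟨j' + ℓ₀.1, ?_⟩
        simpa using h'
      · simpa using hv0'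

end Pool.Agent.Helper76.Freq
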