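import Pool.Agent.Helper76.Freq.Defs
import Pool.Agent.Helper76.Freq.Word
import Pool.Agent.Helper76.Freq.BlockCh

/-!
# Discretised cubes of loops
-/

set_option autoImplicit false

namespace Pool.Agent.Helper76.Freq

/-- the discretisation (in time) of a cube of loops -/
noncomputable def dcube {n d : ℕ} (N : ℕ) (c : Cube (Loop n) d) (x : Q) (I : ℕ) : E n :=
  (c (fun i => x i)).toFun ((I : ℝ) / N)

/-- evaluation of a cochain (on discrete paths) on a cubical chain -/
noncomputable def EvF {n : ℕ} {G : Type*} [Field G] (d M N : ℕ) (Φ : (ℕ → ℕ → E n) → G)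
    (z : Cube (Loop n) d →₀ G) : G :=
  z.sum fun c r => r * ev d (fun _ => M) Φ (dcube N c)

/-- close unit vectors -/
def cls {n : ℕ} (δ : ℝ) (u v : E n) : Prop := ‖u‖ = 1 ∧ ‖v‖ = 1 ∧ ‖u - v‖ < δ

end Pool.Agent.Helper76.Freq
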