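import Pool.Agent.Helper76.Freq.EvF2c

/-!
# Piece F2-B of MP_5f815a_gt: evaluation of the letter `w2` on the cube of triangles (helper77)
-/

set_option autoImplicit false

namespace Pool.Agent.Helper76.Freq

open scoped RealInnerProductSpace Classical
open Finset

namespace EvF2

theorem eval_aux {l : ℝ} (hl : |l| ≤ 3 / 10) : ∃ m₀ : ℕ, ∀ m n : ℕ, Odd m → m₀ ≤ m → m₀ ≤ n →
    ev 6 (MM n m) (w2 l) cc = 1 := by
  obtain ⟨η, hη, hgap⟩ := gap hl
  obtain ⟨δ, hδ, hsmall⟩ := small_w2 hl hη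
  obtain ⟨m₀, hm₀, hfine⟩ := fine_grid (d := 6) continuous_cc hδ
  refine ⟨m₀, fun m n hodd hm hn => ?_⟩
  have hMM : ∀ i, m₀ ≤ MM n m i := by
    intro i
    unfold MM
    split_ifs <;> omega
  rw [ev_id]
  have key : ev 6 (MM n m) (fun y : ℕ → Q => w2 l (fun j => cc (y j))) (fun x => x) =
      ev 6 (MM n m) (ww l) (fun x => x) := by
    refine ev_congr fun k pos hadm => ?_
    by_cases hmid : ∀ i < 6, Mid n m k i
    · exact w2_inner hodd hadm hmid l
    · push Not at hmid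
      refine Eq.trans ?_ (ww_eq_zero hadm hmid).symm
      by_contra hne
      have hSm : Sm δ (fun j => cc (gp 6 (MM n m) k pos j)) :=
        ⟨fun i => norm_cc _, fun i j => hfine (MM n m) k pos (fun i _ => hMM i) hadm i j⟩
      obtain ⟨a, b, ha, hb, hlt⟩ := hsmall _ hSm hne
      have hK : gp 6 (MM n m) k pos 0 ∈ KK := by
        obtain ⟨i, hi, hni⟩ := hmid
        refine ⟨i, hi, ?_⟩
        rcases not_mid hadm hi hni with h | h
        · exact Or.inl (h 0)
        · exact Or.inr (h 0)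
      have := hgap _ hK a b ha hb
      exact absurd hlt (not_lt.2 this)
  rw [key]
  exact ev_ww (fun i => lt_of_lt_of_le hm₀ (hMM i)) hl

end EvF2

theorem eval_F2 {l : ℝ} (hl : |l| ≤ 3 / 10) : ∃ m₀ n₀ : ℕ, ∀ m n : ℕ, Odd m → m₀ ≤ m → n₀ ≤ n →
    ev 6 (fun i => if i = 0 then 3 * n else 3 * m) (w2 l)
      (fun x => pathPt 3 (uV (sh 1 x)) (x 0)) = 1 := by
  obtain ⟨m₀, h⟩ := EvF2.eval_aux hl
  exact ⟨m₀, m₀, h⟩

end Pool.Agent.Helper76.Freq
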