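import Pool.Agent.Helper76.Freq.Letters
import Pool.Agent.Helper76.Freq.Ver

/-! # Piece F2-C of MP_5f815a_gt: the family of triangles -/

set_option autoImplicit false

namespace Pool.Agent.Helper76.Freq

open scoped RealInnerProductSpace Classical
open Finset

namespace TriF2

/-! ## the frames -/

theorem fB_0 (r φ : ℝ) : fB r φ 0 = Real.cos r := rfl
theorem fB_1 (r φ : ℝ) : fB r φ 1 = Real.sin r * Real.sin φ := rfl
theorem fB_2 (r φ : ℝ) : fB r φ 2 = -(Real.sin r * Real.cos φ) := rfl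
theorem fA_0 (r φ δ : ℝ) : fA r φ δ 0 = Real.sin r * Real.sin δ := rfl
theorem fA_1 (r φ δ : ℝ) : fA r φ δ 1 =
    Real.cos φ * Real.cos δ - Real.cos r * Real.sin φ * Real.sin δ := rfl
theorem fA_2 (r φ δ : ℝ) : fA r φ δ 2 =
    Real.sin φ * Real.cos δ + Real.cos r * Real.cos φ * Real.sin δ := rfl

theorem norm_eq_one_of_sq {a : R3} (h : ‖a‖ ^ 2 = 1) : ‖a‖ = 1 := by
  have h0 : 0 ≤ ‖a‖ := norm_nonneg a
  nlinarith

theorem norm_fB (r φ : ℝ) : ‖fB r φ‖ = 1 := by
  apply norm_eq_one_of_sq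
  rw [norm3, fB_0, fB_1, fB_2]
  linear_combination Real.sin_sq_add_cos_sq r + Real.sin r ^ 2 * Real.sin_sq_add_cos_sq φ

theorem norm_fA (r φ δ : ℝ) : ‖fA r φ δ‖ = 1 := by
  apply norm_eq_one_of_sq
  rw [norm3, fA_0, fA_1, fA_2]
  linear_combination Real.sin_sq_add_cos_sq δ + Real.sin δ ^ 2 * Real.sin_sq_add_cos_sq r +
    (Real.cos δ ^ 2 + Real.cos r ^ 2 * Real.sin δ ^ 2) * Real.sin_sq_add_cos_sq φ

theorem inner_frame (r φ δ : ℝ) : ⟪fA r φ δ, fB r φ⟫ = 0 := by
  rw [inner3, fA_0, fA_1, fA_2, fB_0, fB_1, fB_2]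
  linear_combination -(Real.cos r * Real.sin r * Real.sin δ) * Real.sin_sq_add_cos_sq φ

/-! ## the chart -/

theorem Ph_5 (y : ℕ → ℝ) (σ : ℝ) : Ph y σ 5 = σ / 10 := rfl
theorem Ph_6 (y : ℕ → ℝ) (σ : ℝ) : Ph y σ 6 = y 4 / 10 := rfl

theorem Ph_affine (y : ℕ → ℝ) (t : ℝ) :
    (1 - t) • Ph y (-1) + t • Ph y 1 = Ph y (2 * t - 1) := by
  have e : ∀ i, ((1 - t) • Ph y (-1) + t • Ph y 1) i = (1 - t) * Ph y (-1) i + t * Ph y 1 i :=
    fun i => rfl
  ext i
  rw [e]
  fin_cases i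
  · change (1 - t) * (pt _ _ _ _ _ _ 0) + t * (pt _ _ _ _ _ _ 0) = pt _ _ _ _ _ _ 0
    rw [pt_0, pt_0, pt_0]; ring
  · change (1 - t) * (pt _ _ _ _ _ _ 1) + t * (pt _ _ _ _ _ _ 1) = pt _ _ _ _ _ _ 1
    rw [pt_1, pt_1, pt_1]; ring
  · change (1 - t) * (pt _ _ _ _ _ _ 2) + t * (pt _ _ _ _ _ _ 2) = pt _ _ _ _ _ _ 2
    rw [pt_2, pt_2, pt_2]; ring
  · change (1 - t) * (pt _ _ _ _ _ _ 3) + t * (pt _ _ _ _ _ _ 3) = pt _ _ _ _ _ _ 3
    rw [pt_3, pt_3, pt_3]; ring
  · change (1 - t) * (pt _ _ _ _ _ _ 4) + t * (pt _ _ _ _ _ _ 4) = pt _ _ _ _ _ _ 4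
    rw [pt_4, pt_4, pt_4]; ring
  · change (1 - t) * (pt _ _ _ _ _ _ 5) + t * (pt _ _ _ _ _ _ 5) = pt _ _ _ _ _ _ 5
    rw [pt_5, pt_5, pt_5]; ring
  · change (1 - t) * (pt _ _ _ _ _ _ 6) + t * (pt _ _ _ _ _ _ 6) = pt _ _ _ _ _ _ 6
    rw [pt_6, pt_6, pt_6]; ring

theorem Ph_ne_zero {y : ℕ → ℝ} (hy : ∀ i, |y i| ≤ 1) (σ : ℝ) : Ph y σ ≠ 0 := by
  intro h
  have h1 := norm_sq_pt (1 / 2 - y 1 / 4) (1 / 2 + y 1 / 4) (σ / 10) (y 4 / 10)
    (norm_fA (Real.pi / 2 + y 2 / 10) (y 3 / 10) (y 0 / 10))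
    (norm_fB (Real.pi / 2 + y 2 / 10) (y 3 / 10))
    (inner_frame (Real.pi / 2 + y 2 / 10) (y 3 / 10) (y 0 / 10))
  have h2 : ‖Ph y σ‖ = 0 := by rw [h]; simp
  unfold Ph at h2
  rw [h2] at h1
  have h3 := abs_le.1 (hy 1)
  have h4 : 0 ≤ (1 / 2 - y 1 / 4) * (1 / 2 + y 1 / 4) :=
    mul_nonneg (by linarith) (by linarith)
  have h5 : 0 < (1 / 2 - y 1 / 4) ^ 2 := by
    have : 0 < 1 / 2 - y 1 / 4 := by linarith
    positivity
  have h6 : 0 ≤ (1 / 2 + y 1 / 4) ^ 2 := sq_nonneg _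
  have h7 : 0 ≤ (σ / 10) ^ 2 := sq_nonneg _
  have h8 : 0 ≤ (y 4 / 10) ^ 2 := sq_nonneg _
  linarith

theorem q0_ne_zero : q0 ≠ 0 := Ph_ne_zero (fun i => by simp) 0

theorem fA_c : fA (Real.pi / 2 + (0 : ℝ) / 10) ((0 : ℝ) / 10) ((0 : ℝ) / 10) = !₂[0, 1, 0] := by
  ext i
  fin_cases i
  · change fA _ _ _ 0 = (0 : ℝ); rw [fA_0]; simp
  · change fA _ _ _ 1 = (1 : ℝ); rw [fA_1]; simp
  · change fA _ _ _ 2 = (0 : ℝ); rw [fA_2]; simp

theorem fB_c : fB (Real.pi / 2 + (0 : ℝ) / 10) ((0 : ℝ) / 10) = !₂[0, 0, -1] := by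
  ext i
  fin_cases i
  · change fB _ _ 0 = (0 : ℝ); rw [fB_0]; simp
  · change fB _ _ 1 = (0 : ℝ); rw [fB_1]; simp
  · change fB _ _ 2 = (-1 : ℝ); rw [fB_2]; simp

theorem isTop_smul_q0 {μ : ℝ} (hμ : 0 < μ) : IsTop (μ • q0) !₂[0, 1, 0] := by
  rw [isTop_smul_iff hμ, ← fA_c]
  exact isTop_pt (by norm_num) (by norm_num) (norm_fA _ _ _) (norm_fB _ _) (inner_frame _ _ _)

theorem isBot_smul_q0 {μ : ℝ} (hμ : 0 < μ) : IsBot (μ • q0) !₂[0, 0, -1] := by
  rw [isBot_smul_iff hμ, ← fB_c]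
  exact isBot_pt (by norm_num) (by norm_num) (norm_fA _ _ _) (norm_fB _ _) (inner_frame _ _ _)

theorem sin_zero_of_small {u : ℝ} (hu : |u| ≤ 1) (h : Real.sin (u / 10) = 0) : u = 0 := by
  have h1 := abs_le.1 hu
  have h3 := Real.pi_gt_three
  have h2 := (Real.sin_eq_zero_iff_of_lt_of_lt (by linarith) (by linarith)).1 h
  linarith

theorem cos_pos_of_small {u : ℝ} (hu : |u| ≤ 1) : 0 < Real.cos (u / 10) := by
  have h1 := abs_le.1 hu
  have h3 := Real.pi_gt_three
  exact Real.cos_pos_of_mem_Ioo ⟨by linarith, by linarith⟩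

/-- the only point of the chart (with `σ = 0`) on the ray of the centre is the centre -/
theorem eq_zero_of_ray {y : ℕ → ℝ} (hy : ∀ i, |y i| ≤ 1) {μ : ℝ} (hμ : 0 < μ)
    (h : Ph y 0 = μ • q0) : ∀ i < 5, y i = 0 := by
  have hα : 0 < 1 / 2 - y 1 / 4 := by have := abs_le.1 (hy 1); linarith
  have hβ : 0 < 1 / 2 + y 1 / 4 := by have := abs_le.1 (hy 1); linarith
  have hT : IsTop (Ph y 0) !₂[0, 1, 0] := by rw [h]; exact isTop_smul_q0 hμ
  have hB : IsBot (Ph y 0) !₂[0, 0, -1] := by rw [h]; exact isBot_smul_q0 hμ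
  have hT' := eq_of_isTop_pt hα hβ.le (norm_fA _ _ _) (norm_fB _ _) (inner_frame _ _ _) hT
  have hB' := eq_of_isBot_pt hα.le hβ (norm_fA _ _ _) (norm_fB _ _) (inner_frame _ _ _) hB
  -- coordinates
  have hb0 : Real.sin (y 2 / 10) = 0 := by
    have key : (0 : ℝ) = fB (Real.pi / 2 + y 2 / 10) (y 3 / 10) 0 := by
      rcases hB' with e | e
      · exact congrArg (fun z : R3 => z 0) e
      · have e1 := congrArg (fun z : R3 => z 0) e
        change (0 : ℝ) = -(fB (Real.pi / 2 + y 2 / 10) (y 3 / 10) 0) at e1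
        linarith
    rw [fB_0, add_comm, Real.cos_add_pi_div_two] at key
    linarith
  have y2 : y 2 = 0 := sin_zero_of_small (hy 2) hb0
  have hb1 : Real.sin (y 3 / 10) = 0 := by
    have key : (0 : ℝ) = fB (Real.pi / 2 + y 2 / 10) (y 3 / 10) 1 := by
      rcases hB' with e | e
      · exact congrArg (fun z : R3 => z 1) e
      · have e1 := congrArg (fun z : R3 => z 1) e
        change (0 : ℝ) = -(fB (Real.pi / 2 + y 2 / 10) (y 3 / 10) 1) at e1
        linarith
    rw [fB_1, y2] at key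
    simpa using key.symm
  have y3 : y 3 = 0 := sin_zero_of_small (hy 3) hb1
  have ha0 : Real.sin (y 0 / 10) = 0 := by
    have key : (0 : ℝ) = fA (Real.pi / 2 + y 2 / 10) (y 3 / 10) (y 0 / 10) 0 := by
      rcases hT' with e | e
      · exact congrArg (fun z : R3 => z 0) e
      · have e1 := congrArg (fun z : R3 => z 0) e
        change (0 : ℝ) = -(fA (Real.pi / 2 + y 2 / 10) (y 3 / 10) (y 0 / 10) 0) at e1
        linarith
    rw [fA_0, y2] at key
    simpa using key.symm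
  have y0 : y 0 = 0 := sin_zero_of_small (hy 0) ha0
  have y4 : y 4 = 0 := by
    have e1 : Ph y 0 6 = (μ • q0) 6 := by rw [h]
    have e2 : (μ • q0) 6 = μ * (q0 6) := rfl
    have e3 : q0 6 = 0 / 10 := rfl
    rw [e2, Ph_6, e3] at e1
    linarith
  have y1 : y 1 = 0 := by
    have ea : fA (Real.pi / 2 + y 2 / 10) (y 3 / 10) (y 0 / 10) = !₂[0, 1, 0] := by
      rw [y2, y3, y0]; exact fA_c
    have eb : fB (Real.pi / 2 + y 2 / 10) (y 3 / 10) = !₂[0, 0, -1] := by
      rw [y2, y3]; exact fB_c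
    have e3 : Ph y 0 3 = μ * (q0 3) := by rw [h]; rfl
    have e4 : Ph y 0 4 = μ * (q0 4) := by rw [h]; rfl
    have h3 : (0 : ℝ) < √3 := by positivity
    unfold Ph at e3 e4
    unfold q0 Ph at e3 e4
    rw [pt_3, pt_3, ea, eb, fA_c, fB_c, ver_3, ver_3] at e3
    rw [pt_4, pt_4, ea, eb, fA_c, fB_c, ver_4, ver_4] at e4
    have c0 : (!₂[(0 : ℝ), 1, 0] : R3) 0 = 0 := rfl
    have c1 : (!₂[(0 : ℝ), 1, 0] : R3) 1 = 1 := rfl
    have c2 : (!₂[(0 : ℝ), 1, 0] : R3) 2 = 0 := rfl
    have d0 : (!₂[(0 : ℝ), 0, -1] : R3) 0 = 0 := rfl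
    have d1 : (!₂[(0 : ℝ), 0, -1] : R3) 1 = 0 := rfl
    have d2 : (!₂[(0 : ℝ), 0, -1] : R3) 2 = -1 := rfl
    rw [c0, c2, d0, d2] at e3
    rw [c0, c1, c2, d0, d1, d2] at e4
    have e3' : √3 * (1 / 2 + y 1 / 4 - μ / 2) = 0 := by linear_combination 2 * e3
    have e3'' : 1 / 2 + y 1 / 4 - μ / 2 = 0 := by
      rcases mul_eq_zero.1 e3' with e | e
      · exact absurd e h3.ne'
      · exact e
    linarith
  intro i hi
  interval_cases i
  · exact y0
  · exact y1
  · exact y2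
  · exact y3
  · exact y4

/-! ## the scaling function -/

theorem abs_cl_le (x : Q) (i : ℕ) : |cl x i| ≤ 1 := by
  unfold cl
  rw [abs_le]
  refine ⟨le_max_left _ _, max_le (by norm_num) (min_le_left _ _)⟩

theorem rho_nonneg (x : Q) : 0 ≤ rho x := by
  unfold rho
  refine le_min zero_le_one (mul_nonneg (by norm_num) ?_)
  refine (Finset.le_inf'_iff _ _).2 fun i _ => ?_
  have h1 := (x i).2.1
  have h2 := (x i).2.2
  exact le_min h1 (by linarith)

theorem rho_le_one (x : Q) : rho x ≤ 1 := min_le_left _ _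

theorem half_of_cl {x : Q} {i : ℕ} (h : cl x i = 0) : (x i : ℝ) = 1 / 2 := by
  unfold cl at h
  rcases le_total (min 1 (6 * (x i : ℝ) - 3)) (-1) with h1 | h1
  · rw [max_eq_left h1] at h; norm_num at h
  · rw [max_eq_right h1] at h
    rcases le_total (1 : ℝ) (6 * (x i : ℝ) - 3) with h2 | h2
    · rw [min_eq_left h2] at h; norm_num at h
    · rw [min_eq_right h2] at h; linarith

theorem rho_eq_one_of_half {x : Q} (h : ∀ i < 5, (x i : ℝ) = 1 / 2) : rho x = 1 := by
  unfold rho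
  refine min_eq_left ?_
  have h1 : (1 / 2 : ℝ) ≤ (range 5).inf' (by simp) fun i => min (x i : ℝ) (1 - x i) := by
    refine (Finset.le_inf'_iff _ _).2 fun i hi => ?_
    rw [h i (Finset.mem_range.1 hi)]
    norm_num
  linarith

theorem rho_eq_zero {x : Q} {i : ℕ} (hi : i < 5) (hx : x i = 0 ∨ x i = 1) : rho x = 0 := by
  refine le_antisymm ?_ (rho_nonneg x)
  unfold rho
  refine (min_le_right _ _).trans ?_
  have h1 : ((range 5).inf' (by simp) fun i => min (x i : ℝ) (1 - x i)) ≤ 0 := by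
    refine (Finset.inf'_le _ (Finset.mem_range.2 hi)).trans ?_
    rcases hx with h | h
    · rw [h]; simp
    · rw [h]; simp
  linarith

theorem rho_dep {x x' : Q} (h : ∀ i < 5, x i = x' i) : rho x = rho x' := by
  unfold rho
  congr 2
  refine Finset.inf'_congr _ rfl fun i hi => ?_
  rw [h i (Finset.mem_range.1 hi)]

theorem continuous_rho : Continuous rho := by
  unfold rho
  refine continuous_const.min (continuous_const.mul ?_)
  refine Continuous.finset_inf'_apply _ fun i _ => ?_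
  have h : Continuous fun x : Q => (x i : ℝ) := continuous_subtype_val.comp (continuous_apply i)
  exact h.min (continuous_const.sub h)

theorem continuous_cl (i : ℕ) : Continuous fun x : Q => cl x i := by
  unfold cl
  have h : Continuous fun x : Q => (x i : ℝ) := continuous_subtype_val.comp (continuous_apply i)
  exact continuous_const.max (continuous_const.min ((continuous_const.mul h).sub continuous_const))

theorem continuous_vec {X : Type*} [TopologicalSpace X] {n : ℕ} {f : X → EuclideanSpace ℝ (Fin n)}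
    (h : ∀ i, Continuous fun x => f x i) : Continuous f := by
  have h1 : Continuous fun x => (WithLp.toLp 2 (fun i => f x i) : EuclideanSpace ℝ (Fin n)) :=
    (PiLp.continuous_toLp 2 _).comp (continuous_pi h)
  exact h1

theorem continuous_Ph {X : Type*} [TopologicalSpace X] {y : X → ℕ → ℝ}
    (hy : ∀ i, Continuous fun x => y x i) (σ : ℝ) : Continuous fun x => Ph (y x) σ := by
  have h0 := hy 0
  have h1 := hy 1
  have h2 := hy 2
  have h3 := hy 3
  have h4 := hy 4
  have hA : ∀ i, Continuous fun x =>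
      (fA (Real.pi / 2 + y x 2 / 10) (y x 3 / 10) (y x 0 / 10)) i := by
    intro i
    fin_cases i
    · change Continuous fun x => fA _ _ _ 0
      simp only [fA_0]; fun_prop
    · change Continuous fun x => fA _ _ _ 1
      simp only [fA_1]; fun_prop
    · change Continuous fun x => fA _ _ _ 2
      simp only [fA_2]; fun_prop
  have hB : ∀ i, Continuous fun x => (fB (Real.pi / 2 + y x 2 / 10) (y x 3 / 10)) i := by
    intro i
    fin_cases i
    · change Continuous fun x => fB _ _ 0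
      simp only [fB_0]; fun_prop
    · change Continuous fun x => fB _ _ 1
      simp only [fB_1]; fun_prop
    · change Continuous fun x => fB _ _ 2
      simp only [fB_2]; fun_prop
  have a0 := hA 0
  have a1 := hA 1
  have a2 := hA 2
  have b0 := hB 0
  have b1 := hB 1
  have b2 := hB 2
  refine continuous_vec fun i => ?_
  unfold Ph
  fin_cases i
  · change Continuous fun x => pt _ _ _ _ _ _ 0
    simp only [pt_0, ver_0]; fun_prop
  · change Continuous fun x => pt _ _ _ _ _ _ 1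
    simp only [pt_1, ver_1]; fun_prop
  · change Continuous fun x => pt _ _ _ _ _ _ 2
    simp only [pt_2, ver_2]; fun_prop
  · change Continuous fun x => pt _ _ _ _ _ _ 3
    simp only [pt_3, ver_3]; fun_prop
  · change Continuous fun x => pt _ _ _ _ _ _ 4
    simp only [pt_4, ver_4]; fun_prop
  · change Continuous fun x => pt _ _ _ _ _ _ 5
    simp only [pt_5]; fun_prop
  · change Continuous fun x => pt _ _ _ _ _ _ 6
    simp only [pt_6]; fun_prop

theorem Ph_congr {y y' : ℕ → ℝ} (h : ∀ i < 5, y i = y' i) (σ : ℝ) : Ph y σ = Ph y' σ := by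
  unfold Ph
  rw [h 0 (by norm_num), h 1 (by norm_num), h 2 (by norm_num), h 3 (by norm_num), h 4 (by norm_num)]

end TriF2

open TriF2

theorem validPath_uV (x : Q) : ValidPath 3 (uV x) := by
  have hr0 := rho_nonneg x
  have hr1 := rho_le_one x
  have hq := q0_ne_zero
  have hnq : -q0 ≠ 0 := neg_ne_zero.2 hq
  have q05 : q0 5 = 0 / 10 := rfl
  refine ⟨by norm_num, fun i hi t ht => ?_⟩
  interval_cases i
  · -- edge 0
    change seg (-q0) (rho x • Ph (cl x) (-1) - (1 - rho x) • q0) t ≠ 0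
    intro h
    have e : (seg (-q0) (rho x • Ph (cl x) (-1) - (1 - rho x) • q0) t) 5
        = (1 - t) * (-(q0 5)) + t * (rho x * (Ph (cl x) (-1) 5) - (1 - rho x) * (q0 5)) := rfl
    rw [h, q05, Ph_5] at e
    have e0 : ((0 : E6) 5) = 0 := rfl
    rw [e0] at e
    have e1 : t * rho x = 0 := by linarith
    rcases mul_eq_zero.1 e1 with h1 | h1
    · subst h1
      apply hnq
      rw [← h]; unfold seg; module
    · apply hnq
      rw [← h, h1]; unfold seg; module
  · -- edge 1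
    change seg (rho x • Ph (cl x) (-1) - (1 - rho x) • q0) (rho x • Ph (cl x) 1 - (1 - rho x) • q0) t
      ≠ 0
    have e : seg (rho x • Ph (cl x) (-1) - (1 - rho x) • q0)
        (rho x • Ph (cl x) 1 - (1 - rho x) • q0) t
        = rho x • Ph (cl x) (2 * t - 1) - (1 - rho x) • q0 := by
      rw [← Ph_affine]; unfold seg; module
    rw [e]
    intro h
    have e5 : (rho x • Ph (cl x) (2 * t - 1) - (1 - rho x) • q0) 5
        = rho x * (Ph (cl x) (2 * t - 1) 5) - (1 - rho x) * (q0 5) := rfl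
    rw [h, q05, Ph_5] at e5
    have e0 : ((0 : E6) 5) = 0 := rfl
    rw [e0] at e5
    have e1 : rho x * (2 * t - 1) = 0 := by linarith
    rcases mul_eq_zero.1 e1 with h1 | h1
    · apply hnq
      rw [← h, h1]; module
    · rw [h1] at h
      rcases eq_or_lt_of_le hr1 with h2 | h2
      · rw [h2] at h
        exact Ph_ne_zero (abs_cl_le x) 0 (by rw [← h]; module)
      · rcases eq_or_lt_of_le hr0 with h3 | h3
        · apply hnq
          rw [← h, ← h3]; module
        · have hμ : 0 < (1 - rho x) / rho x := div_pos (by linarith) h3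
          have h4 : Ph (cl x) 0 = ((1 - rho x) / rho x) • q0 := by
            have h5 : rho x • Ph (cl x) 0 = (1 - rho x) • q0 := sub_eq_zero.1 h
            have h6 : (rho x)⁻¹ • (rho x • Ph (cl x) 0) = (rho x)⁻¹ • ((1 - rho x) • q0) := by
              rw [h5]
            rw [smul_smul, smul_smul, inv_mul_cancel₀ h3.ne', one_smul] at h6
            rw [h6, div_eq_inv_mul]
          have h7 := eq_zero_of_ray (abs_cl_le x) hμ h4
          have h8 := rho_eq_one_of_half (x := x) fun i hi => half_of_cl (h7 i hi)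
          linarith
  · -- edge 2
    change seg (rho x • Ph (cl x) 1 - (1 - rho x) • q0) (-q0) t ≠ 0
    intro h
    have e : (seg (rho x • Ph (cl x) 1 - (1 - rho x) • q0) (-q0) t) 5
        = (1 - t) * (rho x * (Ph (cl x) 1 5) - (1 - rho x) * (q0 5)) + t * (-(q0 5)) := rfl
    rw [h, q05, Ph_5] at e
    have e0 : ((0 : E6) 5) = 0 := rfl
    rw [e0] at e
    have e1 : (1 - t) * rho x = 0 := by linarith
    rcases mul_eq_zero.1 e1 with h1 | h1
    · have h2 : t = 1 := by linarith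
      subst h2
      apply hnq
      rw [← h]; unfold seg; module
    · apply hnq
      rw [← h, h1]; unfold seg; module

theorem continuous_uV (i : ℕ) : Continuous fun x => uV x i := by
  have h1 : Continuous fun x : Q => rho x := continuous_rho
  have h2 : Continuous fun x : Q => Ph (cl x) (-1) := continuous_Ph continuous_cl _
  have h3 : Continuous fun x : Q => Ph (cl x) 1 := continuous_Ph continuous_cl _
  match i with
  | 0 => exact continuous_const
  | 1 => exact (h1.smul h2).sub ((continuous_const.sub h1).smul continuous_const)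
  | 2 => exact (h1.smul h3).sub ((continuous_const.sub h1).smul continuous_const)
  | (n + 3) => exact continuous_const

/-- on the faces of the 5-dimensional cube the triangle is constant -/
theorem uV_face {x : Q} {i : ℕ} (hi : i < 5) (hx : x i = 0 ∨ x i = 1) (j : ℕ) : uV x j = - q0 := by
  have h := rho_eq_zero hi hx
  match j with
  | 0 => rfl
  | 1 =>
    change rho x • Ph (cl x) (-1) - (1 - rho x) • q0 = -q0
    rw [h]; module
  | 2 =>
    change rho x • Ph (cl x) 1 - (1 - rho x) • q0 = -q0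
    rw [h]; module
  | (n + 3) => rfl

theorem uV_zero (x : Q) : uV x 0 = - q0 := rfl

theorem uV_one (x : Q) : uV x 1 = rho x • Ph (cl x) (-1) - (1 - rho x) • q0 := rfl

theorem uV_two (x : Q) : uV x 2 = rho x • Ph (cl x) 1 - (1 - rho x) • q0 := rfl

theorem uV_ge (x : Q) (n : ℕ) : uV x (n + 3) = - q0 := rfl

/-- `uV` only depends on the first five coordinates -/
theorem uV_dep {x x' : Q} (h : ∀ i < 5, x i = x' i) : uV x = uV x' := by
  have h1 := rho_dep h
  have h2 : ∀ i < 5, cl x i = cl x' i := fun i hi => by unfold cl; rw [h i hi]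
  have h3 := Ph_congr h2
  funext j
  match j with
  | 0 => rw [uV_zero, uV_zero]
  | 1 => rw [uV_one, uV_one, h1, h3]
  | 2 => rw [uV_two, uV_two, h1, h3]
  | (n + 3) => rw [uV_ge, uV_ge]

end Pool.Agent.Helper76.Freq
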