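import Pool.Agent.Helper76.Freq.Peel
import Pool.Agent.Helper76.Freq.Path
import Pool.Agent.Helper76.Freq.TriF2
import Pool.Agent.Helper76.Freq.Mon

/-!
# Piece F2-B of MP_5f815a_gt: evaluation of the letter `w2` on the cube of triangles (helper77)
-/

set_option autoImplicit false

namespace Pool.Agent.Helper76.Freq

open scoped RealInnerProductSpace Classical
open Finset

namespace EvF2

/-! ### the cochain on the cube and its evaluation -/

/-- positivity of a clamped coordinate -/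
noncomputable def ps (i : ℕ) (x : Q) : ZMod 2 := if 0 < cl x i then 1 else 0

/-- the chart on the cube -/
noncomputable def PP (x : Q) : E6 := Ph (cl (sh 1 x)) (cl x 0)

/-- the level indicator on the chart -/
noncomputable def hh (l : ℝ) (x : Q) : ZMod 2 := lo (ZMod 2) l (nrm (PP x))

/-- the last three letters -/
noncomputable def ww3 : (ℕ → Q) → ZMod 2 := cup 1 (dC (ps 0)) (cup 1 (dC (ps 1)) (dC (ps 2)))

/-- the product of the six letters on the cube -/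
noncomputable def ww (l : ℝ) : (ℕ → Q) → ZMod 2 :=
  cup 1 (dC (ps 0)) (cup 1 (dC (ps 1)) (cup 1 (dC (hh l))
    (cup 1 (dC (ps 3)) (cup 1 (dC (ps 4)) (dC (ps 5))))))

/-- positivity of the clamped coordinate, as a function on the interval -/
noncomputable def gg (e : unitInterval) : ZMod 2 :=
  if 0 < max (-1) (min 1 (6 * (e : ℝ) - 3)) then 1 else 0

theorem gg_zero : gg 0 = 0 := by
  unfold gg
  rw [if_neg]
  simp only [Set.Icc.coe_zero]
  norm_num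

theorem gg_one : gg 1 = 1 := by
  unfold gg
  rw [if_pos]
  simp only [Set.Icc.coe_one]
  norm_num

theorem peel_one {d : ℕ} {Ms : ℕ → ℕ} (hM : 0 < Ms 0) (f : Q → ZMod 2) (Ψ : (ℕ → Q) → ZMod 2)
    (c : Q → Q) (hf : ∀ x, f (c x) = gg (x 0)) (A : ZMod 2)
    (hA : ∀ e, ev d (fun i => Ms (i + 1)) Ψ (fun x => c (ins 0 e x)) = A) :
    ev (d + 1) Ms (cup 1 (dC f) Ψ) c = A := by
  rw [peel_own f Ψ c gg hf]
  simp only [hA]
  rw [← Finset.sum_mul, Finset.sum_range_sub (fun j => gg (gr (Ms 0) j)), gr_zero, gr_self hM,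
    gg_zero, gg_one]
  ring

theorem ps_zero (x : Q) : ps 0 x = gg (x 0) := rfl

theorem ps_succ_ins (i : ℕ) (e : unitInterval) (x : Q) : ps (i + 1) (ins 0 e x) = ps i x := by
  have : (ins 0 e x) (i + 1) = x i := by simp [ins]
  unfold ps cl
  rw [this]

theorem sh3_ins (e0 e1 e2 : unitInterval) (x : Q) :
    sh 3 (ins 0 e0 (ins 0 e1 (ins 0 e2 x))) = x := by
  funext l
  simp [sh, ins]

theorem ev_ww3 {Ms : ℕ → ℕ} (hM : ∀ i, 0 < Ms i) : ev 3 Ms ww3 (fun x => x) = 1 := by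
  unfold ww3
  refine peel_one (hM 0) _ _ _ (fun x => ps_zero x) 1 fun e0 => ?_
  refine peel_one (hM 1) _ _ _ (fun x => by rw [ps_succ_ins, ps_zero]) 1 fun e1 => ?_
  have e : dC (ps 2) = cup 1 (dC (ps 2)) (fun _ => (1 : ZMod 2)) := by
    funext y; simp [cup]
  rw [e]
  exact peel_one (hM 2) _ _ _ (fun x => by rw [ps_succ_ins, ps_succ_ins, ps_zero]) 1
    fun e1 => rfl

/-! ### the level function at the ends of the second coordinate -/

theorem norm_sq_PP (x : Q) : ‖PP x‖ ^ 2 = (1 / 2 - cl x 2 / 4) ^ 2 +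
    (1 / 2 - cl x 2 / 4) * (1 / 2 + cl x 2 / 4) + (1 / 2 + cl x 2 / 4) ^ 2 + (cl x 0 / 10) ^ 2 +
    (cl x 5 / 10) ^ 2 :=
  norm_sq_pt _ _ _ _ (TriF2.norm_fA _ _ _) (TriF2.norm_fB _ _) (TriF2.inner_frame _ _ _)

theorem PP_ne_zero (x : Q) : PP x ≠ 0 := TriF2.Ph_ne_zero (fun _ => TriF2.abs_cl_le _ _) _

theorem HH_PP (x : Q) : HH (nrm (PP x)) = H4 (PP x) / ‖PP x‖ ^ 3 +
    ((cl x 0 / 10) ^ 2 - (cl x 5 / 10) ^ 2) / ‖PP x‖ ^ 2 := mon_HH_nrm (PP_ne_zero x)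

theorem H4_PP (x : Q) : H4 (PP x) = (1 / 2 - cl x 2 / 4) ^ 3 +
    3 / 2 * (1 / 2 - cl x 2 / 4) ^ 2 * (1 / 2 + cl x 2 / 4) -
    3 / 2 * (1 / 2 - cl x 2 / 4) * (1 / 2 + cl x 2 / 4) ^ 2 - (1 / 2 + cl x 2 / 4) ^ 3 :=
  H4_pt (TriF2.norm_fA _ _ _) (TriF2.norm_fB _ _) (TriF2.inner_frame _ _ _)

theorem cl_sq_le (x : Q) (i : ℕ) : (cl x i) ^ 2 ≤ 1 := by
  have h := TriF2.abs_cl_le x i
  rw [← sq_abs]
  nlinarith [abs_nonneg (cl x i)]

/-- the arithmetic of the two ends -/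
theorem end_bound {N h q : ℝ} (hN : 0 < N) (hN2 : N ^ 2 ≤ 1) (hN3 : 4 / 5 ≤ N ^ 2)
    (hh : 1 / 2 ≤ h) (hq : |q| ≤ 1 / 100) : 3 / 10 < h / N ^ 3 + q / N ^ 2 := by
  have hN1 : N ≤ 1 := by nlinarith
  have h1 : h ≤ h / N ^ 3 := by
    rw [le_div_iff₀ (by positivity)]
    have : N ^ 3 ≤ 1 := pow_le_one₀ hN.le hN1
    nlinarith
  have h2 : -(1 / 50) ≤ q / N ^ 2 := by
    rw [le_div_iff₀ (by positivity)]
    have := (abs_le.1 hq).1
    nlinarith
  linarith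

theorem hh_neg {l : ℝ} (hl : |l| ≤ 3 / 10) {x : Q} (hx : cl x 2 = -1) : hh l x = 0 := by
  have h1 := norm_sq_PP x
  have h2 := HH_PP x
  have h3 := H4_PP x
  rw [hx] at h1 h3
  have h4 := cl_sq_le x 0
  have h5 := cl_sq_le x 5
  have h6 : 0 < ‖PP x‖ := norm_pos_iff.2 (PP_ne_zero x)
  unfold hh lo
  rw [if_neg]
  rw [not_lt, h2]
  have h7 := end_bound (q := (cl x 0 / 10) ^ 2 - (cl x 5 / 10) ^ 2) h6 (by rw [h1]; nlinarith)
    (by rw [h1]; nlinarith) (h := H4 (PP x)) (by rw [h3]; norm_num)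
    (abs_le.2 ⟨by nlinarith [sq_nonneg (cl x 0)], by nlinarith [sq_nonneg (cl x 5)]⟩)
  have := (abs_le.1 hl).2
  linarith

theorem hh_pos {l : ℝ} (hl : |l| ≤ 3 / 10) {x : Q} (hx : cl x 2 = 1) : hh l x = 1 := by
  have h1 := norm_sq_PP x
  have h2 := HH_PP x
  have h3 := H4_PP x
  rw [hx] at h1 h3
  have h4 := cl_sq_le x 0
  have h5 := cl_sq_le x 5
  have h6 : 0 < ‖PP x‖ := norm_pos_iff.2 (PP_ne_zero x)
  unfold hh lo
  rw [if_pos]
  rw [h2]
  have h7 := end_bound (q := -((cl x 0 / 10) ^ 2 - (cl x 5 / 10) ^ 2)) h6 (by rw [h1]; nlinarith)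
    (by rw [h1]; nlinarith) (h := -H4 (PP x)) (by rw [h3]; norm_num)
    (abs_le.2 ⟨by nlinarith [sq_nonneg (cl x 5)], by nlinarith [sq_nonneg (cl x 0)]⟩)
  have := (abs_le.1 hl).1
  rw [neg_div, neg_div] at h7
  linarith

theorem ev_ww {Ms : ℕ → ℕ} (hM : ∀ i, 0 < Ms i) {l : ℝ} (hl : |l| ≤ 3 / 10) :
    ev 6 Ms (ww l) (fun x => x) = 1 := by
  unfold ww
  refine peel_one (hM 0) _ _ _ (fun x => ps_zero x) 1 fun e0 => ?_
  refine peel_one (hM 1) _ _ _ (fun x => by rw [ps_succ_ins, ps_zero]) 1 fun e1 => ?_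
  have hN : Nrm 3 ww3 := (nrm_dC _).cup ((nrm_dC _).cup (nrm_dC _))
  have h := peel_free (d := 3) (Ms := fun i => Ms (i + 1 + 1)) (hM 2) (hh l) (sh 3) ww3 hN
    (fun x => ins 0 e0 (ins 0 e1 x)) (fun x => x) (fun e x => sh3_ins _ _ _ _) 0 1
    (fun x => hh_neg hl (by simp [cl, ins])) (fun x => hh_pos hl (by simp [cl, ins]; norm_num))
  refine Eq.trans h ?_
  rw [ev_ww3 (fun i => hM _)]
  ring

end EvF2

end Pool.Agent.Helper76.Freq
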