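import Pool.Agent.Helper76.Freq.EvF2a

/-!
# Piece F2-B of MP_5f815a_gt: the inner cells (helper77)
-/

set_option autoImplicit false

namespace Pool.Agent.Helper76.Freq

open scoped RealInnerProductSpace Classical
open Finset

namespace EvF2

/-! ### the grid -/

/-- the numbers of steps -/
def MM (n m : ℕ) (i : ℕ) : ℕ := if i = 0 then 3 * n else 3 * m

/-- a third of the numbers of steps -/
def NN (n m : ℕ) (i : ℕ) : ℕ := if i = 0 then n else m

theorem MM_eq (n m i : ℕ) : MM n m i = 3 * NN n m i := by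
  unfold MM NN; split_ifs <;> rfl

variable {n m : ℕ} {k pos : ℕ → ℕ}

theorem gp_coe (h : Adm 6 (MM n m) k pos) {l : ℕ} (hl : l < 6) (j : ℕ) :
    ((gp 6 (MM n m) k pos j l : unitInterval) : ℝ) =
      ((k l + if pos l < j then 1 else 0 : ℕ) : ℝ) / (3 * NN n m l) := by
  have h1 := h.cell l hl
  unfold gp
  rw [if_pos hl, coe_gr (by split_ifs <;> omega), MM_eq]
  push_cast
  rfl

theorem NN_pos (h : Adm 6 (MM n m) k pos) {l : ℕ} (hl : l < 6) : 0 < NN n m l := by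
  have h1 := h.cell l hl
  rw [MM_eq] at h1
  omega

/-- middle cells -/
def Mid (n m : ℕ) (k : ℕ → ℕ) (l : ℕ) : Prop := NN n m l ≤ k l ∧ k l < 2 * NN n m l

theorem mid_mem (h : Adm 6 (MM n m) k pos) {l : ℕ} (hl : l < 6) (hm : Mid n m k l) (j : ℕ) :
    1 / 3 ≤ ((gp 6 (MM n m) k pos j l : unitInterval) : ℝ) ∧
      ((gp 6 (MM n m) k pos j l : unitInterval) : ℝ) ≤ 2 / 3 := by
  have h1 : (0 : ℝ) < NN n m l := by exact_mod_cast NN_pos h hl
  have h2 : NN n m l ≤ (k l + if pos l < j then 1 else 0) := by have := hm.1; omega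
  have h3 : (k l + if pos l < j then 1 else 0) ≤ 2 * NN n m l := by
    have := hm.2; split_ifs <;> omega
  have h2' : (NN n m l : ℝ) ≤ ((k l + if pos l < j then 1 else 0 : ℕ) : ℝ) := by exact_mod_cast h2
  have h3' : ((k l + if pos l < j then 1 else 0 : ℕ) : ℝ) ≤ 2 * NN n m l := by exact_mod_cast h3
  rw [gp_coe h hl]
  constructor
  · rw [le_div_iff₀ (by positivity)]; linarith
  · rw [div_le_iff₀ (by positivity)]; linarith

theorem not_mid (h : Adm 6 (MM n m) k pos) {l : ℕ} (hl : l < 6) (hm : ¬ Mid n m k l) :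
    (∀ j, ((gp 6 (MM n m) k pos j l : unitInterval) : ℝ) ≤ 1 / 3) ∨
      ∀ j, 2 / 3 ≤ ((gp 6 (MM n m) k pos j l : unitInterval) : ℝ) := by
  have h1 : (0 : ℝ) < NN n m l := by exact_mod_cast NN_pos h hl
  by_cases h4 : NN n m l ≤ k l
  · right
    intro j
    have h5 : 2 * NN n m l ≤ k l := by
      by_contra h6
      exact hm ⟨h4, by omega⟩
    have h2 : 2 * NN n m l ≤ (k l + if pos l < j then 1 else 0) := by omega
    have h2' : 2 * (NN n m l : ℝ) ≤ ((k l + if pos l < j then 1 else 0 : ℕ) : ℝ) := by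
      exact_mod_cast h2
    rw [gp_coe h hl, le_div_iff₀ (by positivity)]
    linarith
  · left
    intro j
    have h3 : (k l + if pos l < j then 1 else 0) ≤ NN n m l := by split_ifs <;> omega
    have h3' : ((k l + if pos l < j then 1 else 0 : ℕ) : ℝ) ≤ NN n m l := by exact_mod_cast h3
    rw [gp_coe h hl, div_le_iff₀ (by positivity)]
    linarith

theorem cl_of_le {x : Q} {l : ℕ} (h : (x l : ℝ) ≤ 1 / 3) : cl x l = -1 := by
  unfold cl
  rw [max_eq_left]
  exact (min_le_right _ _).trans (by linarith)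

theorem cl_of_ge {x : Q} {l : ℕ} (h : 2 / 3 ≤ (x l : ℝ)) : cl x l = 1 := by
  unfold cl
  rw [min_eq_left (by linarith)]
  norm_num

theorem cl_of_mid {x : Q} {l : ℕ} (h : 1 / 3 ≤ (x l : ℝ)) (h' : (x l : ℝ) ≤ 2 / 3) :
    cl x l = 6 * (x l : ℝ) - 3 := by
  unfold cl
  rw [min_eq_right (by linarith), max_eq_right (by linarith)]

theorem cl_const (h : Adm 6 (MM n m) k pos) {l : ℕ} (hl : l < 6) (hm : ¬ Mid n m k l) (j j' : ℕ) :
    cl (gp 6 (MM n m) k pos j) l = cl (gp 6 (MM n m) k pos j') l := by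
  rcases not_mid h hl hm with h1 | h1
  · rw [cl_of_le (h1 j), cl_of_le (h1 j')]
  · rw [cl_of_ge (h1 j), cl_of_ge (h1 j')]

theorem gp_eq_of_pos {l j : ℕ} (hp : pos l ≠ j) :
    gp 6 (MM n m) k pos j l = gp 6 (MM n m) k pos (j + 1) l := by
  unfold gp
  have : (pos l < j) ↔ (pos l < j + 1) := by omega
  simp only [this]

theorem cl_eq_of_pos {l j : ℕ} (hp : pos l ≠ j) :
    cl (gp 6 (MM n m) k pos j) l = cl (gp 6 (MM n m) k pos (j + 1)) l := by
  unfold cl
  rw [gp_eq_of_pos hp]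

/-- the grid avoids the hyperplanes `y i = 0` -/
theorem cl_ne_zero (hodd : Odd m) (h : Adm 6 (MM n m) k pos) {l : ℕ} (hl : l < 6) (hl0 : l ≠ 0)
    (j : ℕ) : cl (gp 6 (MM n m) k pos j) l ≠ 0 := by
  intro h0
  have h1 := TriF2.half_of_cl h0
  have hp : (0 : ℝ) < NN n m l := by exact_mod_cast NN_pos h hl
  rw [gp_coe h hl, div_eq_iff (by positivity)] at h1
  have h2 : NN n m l = m := by unfold NN; rw [if_neg hl0]
  rw [h2] at h1
  have h3 : 2 * (k l + if pos l < j then 1 else 0) = 3 * m := by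
    have : (2 : ℝ) * ((k l + if pos l < j then 1 else 0 : ℕ) : ℝ) = 3 * m := by linarith
    exact_mod_cast this
  have h4 : Odd (3 * m) := (by decide : Odd 3).mul hodd
  rw [← h3] at h4
  exact (Nat.not_odd_iff_even.2 ⟨_, two_mul _⟩) h4

/-! ### the cochain `ww` vanishes outside the inner cells -/

theorem mid_of_ps {l j : ℕ} (h : Adm 6 (MM n m) k pos) (hl : l < 6)
    (hne : ps l (gp 6 (MM n m) k pos (j + 1)) - ps l (gp 6 (MM n m) k pos j) ≠ 0) :
    pos l = j ∧ Mid n m k l := by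
  have h1 : cl (gp 6 (MM n m) k pos j) l ≠ cl (gp 6 (MM n m) k pos (j + 1)) l := by
    intro he
    apply hne
    unfold ps
    rw [he, sub_self]
  refine ⟨?_, ?_⟩
  · by_contra hp
    exact h1 (cl_eq_of_pos hp)
  · by_contra hm
    exact h1 (cl_const h hl hm _ _)

theorem hh_congr {l : ℝ} {x x' : Q} (h : ∀ i < 6, cl x i = cl x' i) : hh l x = hh l x' := by
  have h1 : PP x = PP x' := by
    unfold PP
    rw [h 0 (by norm_num)]
    exact TriF2.Ph_congr (fun i hi => h (i + 1) (by omega)) _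
  unfold hh
  rw [h1]

theorem ww_eq_zero {l : ℝ} (h : Adm 6 (MM n m) k pos) (hm : ∃ i < 6, ¬ Mid n m k i) :
    ww l (fun j => gp 6 (MM n m) k pos j) = 0 := by
  by_contra hne
  have e : ww l (fun j => gp 6 (MM n m) k pos j) =
      (ps 0 (gp 6 (MM n m) k pos (0 + 1)) - ps 0 (gp 6 (MM n m) k pos 0)) *
      ((ps 1 (gp 6 (MM n m) k pos (1 + 1)) - ps 1 (gp 6 (MM n m) k pos 1)) *
      ((hh l (gp 6 (MM n m) k pos (2 + 1)) - hh l (gp 6 (MM n m) k pos 2)) *
      ((ps 3 (gp 6 (MM n m) k pos (3 + 1)) - ps 3 (gp 6 (MM n m) k pos 3)) *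
      ((ps 4 (gp 6 (MM n m) k pos (4 + 1)) - ps 4 (gp 6 (MM n m) k pos 4)) *
      (ps 5 (gp 6 (MM n m) k pos (5 + 1)) - ps 5 (gp 6 (MM n m) k pos 5)))))) := rfl
  rw [e] at hne
  have n0 := left_ne_zero_of_mul hne
  have hne1 := right_ne_zero_of_mul hne
  have n1 := left_ne_zero_of_mul hne1
  have hne2 := right_ne_zero_of_mul hne1
  have n2 := left_ne_zero_of_mul hne2
  have hne3 := right_ne_zero_of_mul hne2
  have n3 := left_ne_zero_of_mul hne3
  have hne4 := right_ne_zero_of_mul hne3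
  have n4 := left_ne_zero_of_mul hne4
  have n5 := right_ne_zero_of_mul hne4
  have m0 := mid_of_ps h (by norm_num) n0
  have m1 := mid_of_ps h (by norm_num) n1
  have m3 := mid_of_ps h (by norm_num) n3
  have m4 := mid_of_ps h (by norm_num) n4
  have m5 := mid_of_ps h (by norm_num) n5
  have p2 : pos 2 = 2 := by
    have a := h.lt 2 (by norm_num)
    have b : ∀ i < 6, i ≠ 2 → pos 2 ≠ pos i := fun i hi hi2 he =>
      hi2 (h.inj 2 (by norm_num) i hi he).symm
    have b0 := b 0 (by norm_num) (by norm_num)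
    have b1 := b 1 (by norm_num) (by norm_num)
    have b3 := b 3 (by norm_num) (by norm_num)
    have b4 := b 4 (by norm_num) (by norm_num)
    have b5 := b 5 (by norm_num) (by norm_num)
    rw [m0.1] at b0
    rw [m1.1] at b1
    rw [m3.1] at b3
    rw [m4.1] at b4
    rw [m5.1] at b5
    omega
  have m2 : Mid n m k 2 := by
    by_contra hm2
    apply n2
    rw [sub_eq_zero]
    apply hh_congr
    intro i hi
    by_cases hi2 : i = 2
    · subst hi2
      exact cl_const h hi hm2 _ _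
    · refine (cl_eq_of_pos fun he => hi2 ?_).symm
      exact h.inj i hi 2 (by norm_num) (by rw [he, p2])
  obtain ⟨i, hi, hmi⟩ := hm
  interval_cases i
  · exact hmi m0.2
  · exact hmi m1.2
  · exact hmi m2
  · exact hmi m3.2
  · exact hmi m4.2
  · exact hmi m5.2

/-! ### the inner cells -/

/-- the map -/
noncomputable def cc (x : Q) : E6 := pathPt 3 (uV (sh 1 x)) (x 0)

theorem rho_inner {x : Q} (h : ∀ i < 5, 1 / 3 ≤ (x i : ℝ) ∧ (x i : ℝ) ≤ 2 / 3) : rho x = 1 := by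
  unfold rho
  refine min_eq_left ?_
  have h1 : (1 / 3 : ℝ) ≤ (range 5).inf' (by simp) fun i => min (x i : ℝ) (1 - x i) := by
    refine (Finset.le_inf'_iff _ _).2 fun i hi => ?_
    have := h i (Finset.mem_range.1 hi)
    exact le_min this.1 (by linarith)
  linarith

theorem seg_mid (x : Q) (t : ℝ) : seg (uV x 1) (uV x 2) t =
    rho x • Ph (cl x) (2 * t - 1) - (1 - rho x) • q0 := by
  rw [← TriF2.Ph_affine, uV_one, uV_two]
  unfold seg
  module

theorem cc_inner {x : Q} (h : ∀ i < 6, 1 / 3 ≤ (x i : ℝ) ∧ (x i : ℝ) ≤ 2 / 3) :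
    cc x = nrm (PP x) := by
  have h0 := h 0 (by norm_num)
  have hr : rho (sh 1 x) = 1 := rho_inner fun i hi => h (i + 1) (by omega)
  have e : (x 0 : ℝ) = ((1 : ℕ) + (3 * (x 0 : ℝ) - 1)) / (3 : ℕ) := by
    push_cast; ring
  unfold cc
  rw [e, pathPt_apply (validPath_uV _) (by norm_num) ⟨by linarith, by linarith⟩, seg_mid, hr,
    sub_self, zero_smul, sub_zero, one_smul]
  unfold PP
  rw [cl_of_mid h0.1 h0.2]
  congr 2
  ring

/-! ### signs -/

theorem ite_sub (p q : Prop) [Decidable p] [Decidable q] :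
    (if q then (1 : ZMod 2) else 0) - (if p then 1 else 0) = if (p ↔ q) then 0 else 1 := by
  by_cases hp : p <;> by_cases hq : q <;> simp [hp, hq]

/-- the sign cochain for vectors `± a` with positive inner products -/
theorem xi_sign {f : E6 → R3} {v : ℕ → E6} {a a' : R3} {y y' : ℝ} (haa : 0 < ⟪a, a'⟫)
    (h0 : f (v 0) = if 0 < y then a else -a) (h1 : f (v 1) = if 0 < y' then a' else -a') :
    xi f v = (if 0 < y' then 1 else 0) - (if 0 < y then 1 else 0) := by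
  rw [ite_sub]
  unfold xi
  rw [h0, h1]
  by_cases hy : 0 < y <;> by_cases hy' : 0 < y'
  · simp [hy, hy', haa.le]
  · simp [hy, hy', inner_neg_right, haa]
  · simp [hy, hy', inner_neg_left, haa]
  · simp [hy, hy', inner_neg_left, inner_neg_right, haa.le]

theorem isTop_nrm {v : E6} (hv : v ≠ 0) {a : R3} : IsTop (nrm v) a ↔ IsTop v a :=
  isTop_smul_iff (inv_pos.2 (norm_pos_iff.2 hv))

theorem isBot_nrm {v : E6} (hv : v ≠ 0) {a : R3} : IsBot (nrm v) a ↔ IsBot v a :=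
  isBot_smul_iff (inv_pos.2 (norm_pos_iff.2 hv))

/-- the top vector of the chart -/
noncomputable def TA (x : Q) : R3 :=
  fA (Real.pi / 2 + cl x 3 / 10) (cl x 4 / 10) (cl x 1 / 10)

/-- the bottom vector of the chart -/
noncomputable def TB (x : Q) : R3 := fB (Real.pi / 2 + cl x 3 / 10) (cl x 4 / 10)

theorem PP_eq (x : Q) : PP x = pt (1 / 2 - cl x 2 / 4) (TA x) (1 / 2 + cl x 2 / 4) (TB x)
    (cl x 0 / 10) (cl x 5 / 10) := rfl

theorem alpha_pos (x : Q) : 0 < 1 / 2 - cl x 2 / 4 := by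
  have := abs_le.1 (TriF2.abs_cl_le x 2); linarith

theorem beta_pos (x : Q) : 0 < 1 / 2 + cl x 2 / 4 := by
  have := abs_le.1 (TriF2.abs_cl_le x 2); linarith

theorem top_PP {x : Q} {a : R3} (h : IsTop (nrm (PP x)) a) : a = TA x ∨ a = - TA x := by
  rw [isTop_nrm (PP_ne_zero x), PP_eq] at h
  exact eq_of_isTop_pt (alpha_pos x) (beta_pos x).le (TriF2.norm_fA _ _ _) (TriF2.norm_fB _ _)
    (TriF2.inner_frame _ _ _) h

theorem isTop_PP (x : Q) : IsTop (nrm (PP x)) (TA x) := by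
  rw [isTop_nrm (PP_ne_zero x), PP_eq]
  exact isTop_pt (alpha_pos x).le (beta_pos x).le (TriF2.norm_fA _ _ _) (TriF2.norm_fB _ _)
    (TriF2.inner_frame _ _ _)

theorem bot_PP {x : Q} {a : R3} (h : IsBot (nrm (PP x)) a) : a = TB x ∨ a = - TB x := by
  rw [isBot_nrm (PP_ne_zero x), PP_eq] at h
  exact eq_of_isBot_pt (alpha_pos x).le (beta_pos x) (TriF2.norm_fA _ _ _) (TriF2.norm_fB _ _)
    (TriF2.inner_frame _ _ _) h

theorem isBot_PP (x : Q) : IsBot (nrm (PP x)) (TB x) := by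
  rw [isBot_nrm (PP_ne_zero x), PP_eq]
  exact isBot_pt (alpha_pos x).le (beta_pos x).le (TriF2.norm_fA _ _ _) (TriF2.norm_fB _ _)
    (TriF2.inner_frame _ _ _)

/-- choice of the sign, in general -/
theorem choose_sign {p : R3 → Prop} {a : R3} {i : Fin 3} (ha : p a) (hna : p (-a))
    (hp : ∀ b, p b → b = a ∨ b = -a) (h0 : a i ≠ 0) :
    (Classical.epsilon fun b => p b ∧ 0 ≤ b i) = if 0 < a i then a else -a := by
  have hex : ∃ b, p b ∧ 0 ≤ b i := by
    rcases le_total 0 (a i) with h | h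
    · exact ⟨a, ha, h⟩
    · exact ⟨-a, hna, by simpa using h⟩
  have h := Classical.epsilon_spec hex
  rcases hp _ h.1 with e | e
  · rw [e] at h ⊢
    rw [if_pos (lt_of_le_of_ne h.2 (Ne.symm h0))]
  · rw [e] at h ⊢
    rw [if_neg]
    have : 0 ≤ -(a i) := by simpa using h.2
    linarith

theorem sin_pos_iff {u : ℝ} (hu : |u| ≤ 1) : 0 < Real.sin (u / 10) ↔ 0 < u := by
  have h1 := abs_le.1 hu
  have h3 := Real.pi_gt_three
  constructor
  · intro h
    by_contra hc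
    have : Real.sin (u / 10) ≤ 0 :=
      Real.sin_nonpos_of_nonpos_of_neg_pi_le (by linarith) (by linarith)
    linarith
  · intro h
    exact Real.sin_pos_of_pos_of_lt_pi (by linarith) (by linarith)

theorem TA_0 (x : Q) : TA x 0 = Real.cos (cl x 3 / 10) * Real.sin (cl x 1 / 10) := by
  unfold TA
  rw [TriF2.fA_0, add_comm, Real.sin_add_pi_div_two]

theorem TB_0 (x : Q) : TB x 0 = - Real.sin (cl x 3 / 10) := by
  unfold TB
  rw [TriF2.fB_0, add_comm, Real.cos_add_pi_div_two]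

theorem TB_1 (x : Q) : TB x 1 = Real.cos (cl x 3 / 10) * Real.sin (cl x 4 / 10) := by
  unfold TB
  rw [TriF2.fB_1, add_comm, Real.sin_add_pi_div_two]

theorem TB_2 (x : Q) : TB x 2 = - (Real.cos (cl x 3 / 10) * Real.cos (cl x 4 / 10)) := by
  unfold TB
  rw [TriF2.fB_2, add_comm, Real.sin_add_pi_div_two]

theorem TA_1 (x : Q) : TA x 1 = Real.cos (cl x 4 / 10) * Real.cos (cl x 1 / 10) +
    Real.sin (cl x 3 / 10) * Real.sin (cl x 4 / 10) * Real.sin (cl x 1 / 10) := by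
  unfold TA
  rw [TriF2.fA_1, add_comm (Real.pi / 2), Real.cos_add_pi_div_two]
  ring

theorem cos_small {u : ℝ} (hu : |u| ≤ 1) : 199 / 200 ≤ Real.cos (u / 10) := by
  have h := Real.one_sub_sq_div_two_le_cos (x := u / 10)
  have h1 : u ^ 2 ≤ 1 := by
    rw [← sq_abs]
    nlinarith [abs_nonneg u]
  have h2 : (u / 10) ^ 2 = u ^ 2 / 100 := by ring
  rw [h2] at h
  linarith

theorem sin_small {u : ℝ} (hu : |u| ≤ 1) : |Real.sin (u / 10)| ≤ 1 / 10 := by
  apply abs_le_of_sq_le_sq _ (by norm_num)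
  have h := cos_small hu
  have h1 := Real.sin_sq_add_cos_sq (u / 10)
  nlinarith

theorem TA_1_ge (x : Q) : 9 / 10 ≤ TA x 1 := by
  rw [TA_1]
  have c4 := cos_small (TriF2.abs_cl_le x 4)
  have c1 := cos_small (TriF2.abs_cl_le x 1)
  have s3 := sin_small (TriF2.abs_cl_le x 3)
  have s4 := sin_small (TriF2.abs_cl_le x 4)
  have s1 := sin_small (TriF2.abs_cl_le x 1)
  have h : |Real.sin (cl x 3 / 10) * Real.sin (cl x 4 / 10) * Real.sin (cl x 1 / 10)| ≤
      1 / 10 * (1 / 10) * (1 / 10) := by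
    rw [abs_mul, abs_mul]
    gcongr
  have h1 := (abs_le.1 h).1
  nlinarith

theorem TB_2_le (x : Q) : TB x 2 ≤ -(9 / 10) := by
  rw [TB_2]
  have c4 := cos_small (TriF2.abs_cl_le x 4)
  have c3 := cos_small (TriF2.abs_cl_le x 3)
  nlinarith

theorem norm_TA (x : Q) : ‖TA x‖ = 1 := TriF2.norm_fA _ _ _

theorem norm_TB (x : Q) : ‖TB x‖ = 1 := TriF2.norm_fB _ _

theorem inner_TA (x x' : Q) : 0 < ⟪TA x, TA x'⟫ := by
  have h1 := norm3 (TA x)
  have h2 := norm3 (TA x')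
  rw [norm_TA] at h1 h2
  rw [inner3]
  have h3 := TA_1_ge x
  have h4 := TA_1_ge x'
  nlinarith [sq_nonneg (TA x 0 + TA x' 0), sq_nonneg (TA x 2 + TA x' 2),
    mul_nonneg (sub_nonneg.2 h3) (sub_nonneg.2 h4)]

theorem inner_TB (x x' : Q) : 0 < ⟪TB x, TB x'⟫ := by
  have h1 := norm3 (TB x)
  have h2 := norm3 (TB x')
  rw [norm_TB] at h1 h2
  rw [inner3]
  have h3 := TB_2_le x
  have h4 := TB_2_le x'
  nlinarith [sq_nonneg (TB x 0 + TB x' 0), sq_nonneg (TB x 1 + TB x' 1),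
    mul_nonneg (sub_nonneg.2 h3) (sub_nonneg.2 h4)]

theorem top0_PP {x : Q} (h : cl x 1 ≠ 0) :
    top0 (nrm (PP x)) = if 0 < cl x 1 then TA x else - TA x := by
  have hc : 0 < Real.cos (cl x 3 / 10) := TriF2.cos_pos_of_small (TriF2.abs_cl_le x 3)
  have h1 := sin_pos_iff (TriF2.abs_cl_le x 1)
  have h2 : TA x 0 ≠ 0 := by
    rw [TA_0]
    refine mul_ne_zero hc.ne' fun h0 => h (TriF2.sin_zero_of_small (TriF2.abs_cl_le x 1) h0)
  have h3 : 0 < TA x 0 ↔ 0 < cl x 1 := by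
    rw [TA_0, mul_pos_iff_of_pos_left hc, h1]
  unfold top0
  rw [choose_sign (p := IsTop (nrm (PP x))) (isTop_PP x) (isTop_PP x).neg (fun b hb => top_PP hb) h2]
  simp only [h3]

theorem bot0_PP {x : Q} (h : cl x 3 ≠ 0) :
    bot0 (nrm (PP x)) = if 0 < cl x 3 then - TB x else - - TB x := by
  have h1 := sin_pos_iff (TriF2.abs_cl_le x 3)
  have h2 : TB x 0 ≠ 0 := by
    rw [TB_0]
    exact neg_ne_zero.2 fun h0 => h (TriF2.sin_zero_of_small (TriF2.abs_cl_le x 3) h0)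
  have h3 : 0 < (- TB x) 0 ↔ 0 < cl x 3 := by
    have : (- TB x) 0 = Real.sin (cl x 3 / 10) := by
      rw [PiLp.neg_apply, TB_0, neg_neg]
    rw [this, h1]
  have h4 : (- TB x) 0 ≠ 0 := by rw [PiLp.neg_apply]; exact neg_ne_zero.2 h2
  unfold bot0
  rw [choose_sign (p := IsBot (nrm (PP x))) (isBot_PP x).neg (by rw [neg_neg]; exact isBot_PP x)
    (fun b hb => by rw [neg_neg]; exact (bot_PP hb).symm) h4]
  simp only [h3]

theorem bot1_PP {x : Q} (h : cl x 4 ≠ 0) :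
    bot1 (nrm (PP x)) = if 0 < cl x 4 then TB x else - TB x := by
  have hc : 0 < Real.cos (cl x 3 / 10) := TriF2.cos_pos_of_small (TriF2.abs_cl_le x 3)
  have h1 := sin_pos_iff (TriF2.abs_cl_le x 4)
  have h2 : TB x 1 ≠ 0 := by
    rw [TB_1]
    refine mul_ne_zero hc.ne' fun h0 => h (TriF2.sin_zero_of_small (TriF2.abs_cl_le x 4) h0)
  have h3 : 0 < TB x 1 ↔ 0 < cl x 4 := by
    rw [TB_1, mul_pos_iff_of_pos_left hc, h1]
  unfold bot1
  rw [choose_sign (p := IsBot (nrm (PP x))) (isBot_PP x) (isBot_PP x).neg (fun b hb => bot_PP hb) h2]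
  simp only [h3]

theorem s5_PP (x : Q) : s5 (ZMod 2) (nrm (PP x)) = ps 0 x := by
  have hn : 0 < ‖PP x‖⁻¹ := inv_pos.2 (norm_pos_iff.2 (PP_ne_zero x))
  have e : (nrm (PP x)) 5 = ‖PP x‖⁻¹ * (cl x 0 / 10) := rfl
  have h : 0 < (nrm (PP x)) 5 ↔ 0 < cl x 0 := by
    rw [e, mul_pos_iff_of_pos_left hn]
    constructor
    · intro h; linarith
    · intro h; linarith
  unfold s5 ps
  simp only [h]

theorem s6_PP (x : Q) : s6 (ZMod 2) (nrm (PP x)) = ps 5 x := by
  have hn : 0 < ‖PP x‖⁻¹ := inv_pos.2 (norm_pos_iff.2 (PP_ne_zero x))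
  have e : (nrm (PP x)) 6 = ‖PP x‖⁻¹ * (cl x 5 / 10) := rfl
  have h : 0 < (nrm (PP x)) 6 ↔ 0 < cl x 5 := by
    rw [e, mul_pos_iff_of_pos_left hn]
    constructor
    · intro h; linarith
    · intro h; linarith
  unfold s6 ps
  simp only [h]

/-- on the inner cells the letter is the product cochain -/
theorem w2_inner (hodd : Odd m) (h : Adm 6 (MM n m) k pos) (hm : ∀ i < 6, Mid n m k i) (l : ℝ) :
    w2 l (fun j => cc (gp 6 (MM n m) k pos j)) = ww l (fun j => gp 6 (MM n m) k pos j) := by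
  have hc : ∀ j, cc (gp 6 (MM n m) k pos j) = nrm (PP (gp 6 (MM n m) k pos j)) := fun j =>
    cc_inner fun i hi => mid_mem h hi (hm i hi) j
  simp only [hc]
  set x : ℕ → Q := fun j => gp 6 (MM n m) k pos j with hx
  have z1 : ∀ j, cl (x j) 1 ≠ 0 := fun j => cl_ne_zero hodd h (by norm_num) (by norm_num) j
  have z3 : ∀ j, cl (x j) 3 ≠ 0 := fun j => cl_ne_zero hodd h (by norm_num) (by norm_num) j
  have z4 : ∀ j, cl (x j) 4 ≠ 0 := fun j => cl_ne_zero hodd h (by norm_num) (by norm_num) j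
  have e0 : dC (s5 (ZMod 2)) (fun j => nrm (PP (x j))) = dC (ps 0) x := by
    simp only [dC, s5_PP]
  have e1 : xi top0 (fun j => nrm (PP (x (j + 1)))) = dC (ps 1) (fun j => x (j + 1)) :=
    xi_sign (inner_TA _ _) (top0_PP (z1 _)) (top0_PP (z1 _))
  have e2 : dC (lo (ZMod 2) l) (fun j => nrm (PP (x (j + 1 + 1)))) =
      dC (hh l) (fun j => x (j + 1 + 1)) := rfl
  have e3 : xi bot0 (fun j => nrm (PP (x (j + 1 + 1 + 1)))) =
      dC (ps 3) (fun j => x (j + 1 + 1 + 1)) :=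
    xi_sign (by rw [inner_neg_neg]; exact inner_TB _ _) (bot0_PP (z3 _)) (bot0_PP (z3 _))
  have e4 : xi bot1 (fun j => nrm (PP (x (j + 1 + 1 + 1 + 1)))) =
      dC (ps 4) (fun j => x (j + 1 + 1 + 1 + 1)) :=
    xi_sign (inner_TB _ _) (bot1_PP (z4 _)) (bot1_PP (z4 _))
  have e5 : dC (s6 (ZMod 2)) (fun j => nrm (PP (x (j + 1 + 1 + 1 + 1 + 1)))) =
      dC (ps 5) (fun j => x (j + 1 + 1 + 1 + 1 + 1)) := by
    simp only [dC, s6_PP]
  show dC (s5 (ZMod 2)) (fun j => nrm (PP (x j))) * (xi top0 (fun j => nrm (PP (x (j + 1)))) *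
    (dC (lo (ZMod 2) l) (fun j => nrm (PP (x (j + 1 + 1)))) *
    (xi bot0 (fun j => nrm (PP (x (j + 1 + 1 + 1)))) *
    (xi bot1 (fun j => nrm (PP (x (j + 1 + 1 + 1 + 1)))) *
    dC (s6 (ZMod 2)) (fun j => nrm (PP (x (j + 1 + 1 + 1 + 1 + 1)))))))) = _
  rw [e0, e1, e2, e3, e4, e5]
  rfl

end EvF2

end Pool.Agent.Helper76.Freq
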