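import Pool.Agent.Helper76.Freq.EvF2b

/-!
# Piece F2-B of MP_5f815a_gt: the boundary cells (helper77)
-/

set_option autoImplicit false

namespace Pool.Agent.Helper76.Freq

open scoped RealInnerProductSpace Classical
open Finset

namespace EvF2

/-! ### the exclusion -/

/-- the complement of the open inner cube -/
def KK : Set Q := {x | ∃ i < 6, (x i : ℝ) ≤ 1 / 3 ∨ 2 / 3 ≤ (x i : ℝ)}

/-- the top vector at the centre -/
noncomputable def E1 : R3 := !₂[0, 1, 0]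

/-- the bottom vector at the centre -/
noncomputable def E2 : R3 := !₂[0, 0, -1]

theorem E1_0 : E1 0 = 0 := rfl
theorem E1_1 : E1 1 = 1 := rfl
theorem E1_2 : E1 2 = 0 := rfl
theorem E2_0 : E2 0 = 0 := rfl
theorem E2_1 : E2 1 = 0 := rfl
theorem E2_2 : E2 2 = -1 := rfl

theorem norm_E1 : ‖E1‖ = 1 := by
  apply TriF2.norm_eq_one_of_sq
  rw [norm3, E1_0, E1_1, E1_2]; norm_num

theorem norm_E2 : ‖E2‖ = 1 := by
  apply TriF2.norm_eq_one_of_sq
  rw [norm3, E2_0, E2_1, E2_2]; norm_num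

theorem inner_E : ⟪E1, E2⟫ = 0 := by
  rw [inner3, E1_0, E1_1, E1_2, E2_0, E2_1, E2_2]; norm_num

theorem inner_E' : ⟪E2, E1⟫ = 0 := by
  rw [inner3, E1_0, E1_1, E1_2, E2_0, E2_1, E2_2]; norm_num

theorem q0_eq : q0 = pt (1 / 2) E1 (1 / 2) E2 0 0 := by
  unfold q0 Ph
  rw [TriF2.fA_c, TriF2.fB_c]
  norm_num
  rfl

theorem pt_neg (α β : ℝ) (a b : R3) : - pt α a β b 0 0 = pt β b α a 0 0 := by
  apply mon_E6_ext <;> rw [PiLp.neg_apply]
  · rw [pt_0, pt_0]; ring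
  · rw [pt_1, pt_1]; ring
  · rw [pt_2, pt_2]; ring
  · rw [pt_3, pt_3]; ring
  · rw [pt_4, pt_4]; ring
  · rw [pt_5, pt_5]; ring
  · rw [pt_6, pt_6]; ring

theorem neg_q0_ne_zero : -q0 ≠ 0 := neg_ne_zero.2 TriF2.q0_ne_zero

/-- at `-q₀` the bottom vector is `E1` -/
theorem not_bot_neg_q0 {b : R3} (hb : IsBot (nrm (-q0)) b) (b1 : b 1 = 0) : False := by
  rw [isBot_nrm neg_q0_ne_zero, q0_eq, pt_neg] at hb
  rcases eq_of_isBot_pt (by norm_num) (by norm_num) norm_E2 norm_E1 inner_E' hb with h | h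
  · rw [h, E1_1] at b1
    norm_num at b1
  · rw [h, PiLp.neg_apply, E1_1] at b1
    norm_num at b1

/-- the numerical estimate -/
theorem num {α β : ℝ} (hα : 0 ≤ α) (h : 3 * α ≤ β) (hn : α ^ 2 + α * β + β ^ 2 = 1) :
    α ^ 3 + 3 / 2 * α ^ 2 * β - 3 / 2 * α * β ^ 2 - β ^ 3 < -(3 / 10) := by
  have hβ : 0 ≤ β := by linarith
  have e : α ^ 3 + 3 / 2 * α ^ 2 * β - 3 / 2 * α * β ^ 2 - β ^ 3 =
      (α - β) * (α ^ 2 + α * β + β ^ 2) + 3 / 2 * (α * β) * (α - β) := by ring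
  rw [e, hn]
  have h1 : 3 / 4 ≤ β := by
    by_contra hc
    push Not at hc
    nlinarith only [h, hn, hc, hα]
  have h2 : 0 ≤ α * β := mul_nonneg hα hβ
  have h3 : α - β ≤ -(1 / 2) := by linarith only [h, h1]
  nlinarith only [h, h1, hα, hn, h2]

theorem num' {α β : ℝ} (hβ : 0 ≤ β) (h : 3 * β ≤ α) (hn : α ^ 2 + α * β + β ^ 2 = 1) :
    3 / 10 < α ^ 3 + 3 / 2 * α ^ 2 * β - 3 / 2 * α * β ^ 2 - β ^ 3 := by
  have := num hβ h (by linarith)
  linarith

theorem cc_cases (x : Q) : ∃ r σ : ℝ, 0 ≤ r ∧ r ≤ 1 ∧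
    cc x = nrm (r • Ph (cl (sh 1 x)) σ - (1 - r) • q0) ∧
    r • Ph (cl (sh 1 x)) σ - (1 - r) • q0 ≠ 0 ∧
    ((σ = -1 ∨ σ = 1) ∨ σ = 6 * (x 0 : ℝ) - 3) := by
  have hr0 := TriF2.rho_nonneg (sh 1 x)
  have hr1 := TriF2.rho_le_one (sh 1 x)
  have hV := validPath_uV (sh 1 x)
  have x0 := (x 0).2.1
  have x1 := (x 0).2.2
  rcases le_total (x 0 : ℝ) (1 / 3) with h | h
  · have hx : 3 * (x 0 : ℝ) ∈ Set.Icc (0 : ℝ) 1 := ⟨by linarith, by linarith⟩
    have e : (x 0 : ℝ) = ((0 : ℕ) + (3 * (x 0 : ℝ))) / (3 : ℕ) := by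
      push_cast; ring
    have e2 : cc x = nrm (seg (uV (sh 1 x) 0) (uV (sh 1 x) (0 + 1)) (3 * (x 0 : ℝ))) := by
      unfold cc
      conv_lhs => rw [e]
      exact pathPt_apply hV (by norm_num) hx
    have e3 : seg (uV (sh 1 x) 0) (uV (sh 1 x) (0 + 1)) (3 * (x 0 : ℝ)) =
        (3 * (x 0 : ℝ) * rho (sh 1 x)) • Ph (cl (sh 1 x)) (-1) -
        (1 - 3 * (x 0 : ℝ) * rho (sh 1 x)) • q0 := by
      rw [uV_zero, zero_add, uV_one]
      unfold seg
      module
    refine ⟨3 * (x 0 : ℝ) * rho (sh 1 x), -1, mul_nonneg hx.1 hr0, mul_le_one₀ hx.2 hr0 hr1, ?_, ?_,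
      Or.inl (Or.inl rfl)⟩
    · rw [e2, e3]
    · rw [← e3]
      exact hV.2 0 (by norm_num) _ hx
  · rcases le_total (x 0 : ℝ) (2 / 3) with h' | h'
    · have hx : 3 * (x 0 : ℝ) - 1 ∈ Set.Icc (0 : ℝ) 1 := ⟨by linarith, by linarith⟩
      have e : (x 0 : ℝ) = ((1 : ℕ) + (3 * (x 0 : ℝ) - 1)) / (3 : ℕ) := by
        push_cast; ring
      have e2 : cc x = nrm (seg (uV (sh 1 x) 1) (uV (sh 1 x) (1 + 1)) (3 * (x 0 : ℝ) - 1)) := by
        unfold cc
        conv_lhs => rw [e]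
        exact pathPt_apply hV (by norm_num) hx
      have e3 := seg_mid (sh 1 x) (3 * (x 0 : ℝ) - 1)
      refine ⟨rho (sh 1 x), 2 * (3 * (x 0 : ℝ) - 1) - 1, hr0, hr1, ?_, ?_, Or.inr (by ring)⟩
      · rw [e2, e3]
      · rw [← e3]
        exact hV.2 1 (by norm_num) _ hx
    · have hx : 3 * (x 0 : ℝ) - 2 ∈ Set.Icc (0 : ℝ) 1 := ⟨by linarith, by linarith⟩
      have e : (x 0 : ℝ) = ((2 : ℕ) + (3 * (x 0 : ℝ) - 2)) / (3 : ℕ) := by
        push_cast; ring
      have e2 : cc x = nrm (seg (uV (sh 1 x) 2) (uV (sh 1 x) (2 + 1)) (3 * (x 0 : ℝ) - 2)) := by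
        unfold cc
        conv_lhs => rw [e]
        exact pathPt_apply hV (by norm_num) hx
      have e3 : seg (uV (sh 1 x) 2) (uV (sh 1 x) (2 + 1)) (3 * (x 0 : ℝ) - 2) =
          ((1 - (3 * (x 0 : ℝ) - 2)) * rho (sh 1 x)) • Ph (cl (sh 1 x)) 1 -
          (1 - (1 - (3 * (x 0 : ℝ) - 2)) * rho (sh 1 x)) • q0 := by
        have e4 : uV (sh 1 x) (2 + 1) = -q0 := rfl
        rw [e4, uV_two]
        unfold seg
        module
      refine ⟨(1 - (3 * (x 0 : ℝ) - 2)) * rho (sh 1 x), 1,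
        mul_nonneg (by linarith only [x1, hx.2]) hr0, mul_le_one₀ (by linarith only [h', hx.1]) hr0 hr1, ?_, ?_,
        Or.inl (Or.inr rfl)⟩
      · rw [e2, e3]
      · rw [← e3]
        exact hV.2 2 (by norm_num) _ hx

theorem norm_cc (x : Q) : ‖cc x‖ = 1 := norm_pathPt (validPath_uV _) (x 0).2

theorem continuous_cc : Continuous cc :=
  continuous_pathPt uV validPath_uV (fun i _ => continuous_uV i)

theorem cl_of_half {x : Q} {i : ℕ} (h : 6 * (x i : ℝ) - 3 = 0) : cl x i = 0 := by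
  unfold cl
  rw [h]
  norm_num

theorem excl {l : ℝ} (hl : |l| ≤ 3 / 10) {x : Q} (hx : x ∈ KK) {a b : R3} (ha : IsTop (cc x) a)
    (hb : IsBot (cc x) b) (h5 : cc x 5 = 0) (h6 : cc x 6 = 0) (hH : HH (cc x) = l) (a0 : a 0 = 0)
    (b0 : b 0 = 0) (b1 : b 1 = 0) : False := by
  obtain ⟨r, σ, hr0, hr1, hcc, hw, hσ⟩ := cc_cases x
  set w := r • Ph (cl (sh 1 x)) σ - (1 - r) • q0 with hwdef
  have hR : 0 < ‖w‖ := norm_pos_iff.2 hw
  have hRi : 0 < ‖w‖⁻¹ := inv_pos.2 hR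
  -- coordinate 5
  have w5 : w 5 = r * (σ / 10) - (1 - r) * (0 / 10) := rfl
  have w6 : w 6 = r * (cl x 5 / 10) - (1 - r) * (0 / 10) := rfl
  have c5 : cc x 5 = ‖w‖⁻¹ * w 5 := by rw [hcc]; rfl
  have c6 : cc x 6 = ‖w‖⁻¹ * w 6 := by rw [hcc]; rfl
  have w5' : w 5 = 0 := by
    rw [h5] at c5
    exact (mul_eq_zero.1 c5.symm).resolve_left hRi.ne'
  have w6' : w 6 = 0 := by
    rw [h6] at c6
    exact (mul_eq_zero.1 c6.symm).resolve_left hRi.ne'
  have hr : r ≠ 0 := by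
    intro h0
    have e : w = -q0 := by rw [hwdef, h0]; module
    rw [hcc, e] at hb
    exact not_bot_neg_q0 hb b1
  have hrpos : 0 < r := lt_of_le_of_ne hr0 (Ne.symm hr)
  have hσ0 : σ = 0 := by
    rw [w5'] at w5
    have : r * σ = 0 := by linarith only [w5]
    exact (mul_eq_zero.1 this).resolve_left hr
  have hy4 : cl x 5 = 0 := by
    rw [w6'] at w6
    have : r * cl x 5 = 0 := by linarith
    exact (mul_eq_zero.1 this).resolve_left hr
  have hx0 : 6 * (x 0 : ℝ) - 3 = 0 := by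
    rcases hσ with (h | h) | h
    · rw [hσ0] at h; norm_num at h
    · rw [hσ0] at h; norm_num at h
    · rw [← h]; exact hσ0
  have hc0 : cl x 0 = 0 := cl_of_half hx0
  have hPP : PP x = Ph (cl (sh 1 x)) σ := by
    unfold PP
    rw [hc0, hσ0]
  -- decomposition of the point
  obtain ⟨α, β, a', b', hα, hβ, ha', hb', hab', hv⟩ := exists_dec (cc x)
  rw [h5, h6] at hv
  have hl' := abs_le.1 hl
  have hcoef : 1 / 10 ≤ α ∧ 1 / 10 ≤ β := by
    refine coeff_ge (σ := 0) (t := 0) hα hβ ha' hb' hab' ?_ (by norm_num) (by norm_num) ?_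
    · rw [← hv]; exact norm_cc x
    · rw [← hv, hH]; linarith only [hl]
  have hα' : 0 < α := by linarith only [hcoef, hcoef.1]
  have hβ' : 0 < β := by linarith only [hcoef, hcoef.2]
  rw [hv] at ha hb
  have a0' : a' 0 = 0 := by
    rcases eq_of_isTop_pt hα' hβ ha' hb' hab' ha with h | h
    · rw [← h]; exact a0
    · rw [h, PiLp.neg_apply] at a0; linarith only [a0]
  have b0' : b' 0 = 0 := by
    rcases eq_of_isBot_pt hα hβ' ha' hb' hab' hb with h | h
    · rw [← h]; exact b0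
    · rw [h, PiLp.neg_apply] at b0; linarith only [b0]
  have b1' : b' 1 = 0 := by
    rcases eq_of_isBot_pt hα hβ' ha' hb' hab' hb with h | h
    · rw [← h]; exact b1
    · rw [h, PiLp.neg_apply] at b1; linarith only [b1]
  have b2' : b' 2 ^ 2 = 1 := by
    have := norm3 b'
    rw [hb', b0', b1'] at this
    linarith only [this]
  have a2' : a' 2 = 0 := by
    rw [inner3, a0', b0', b1'] at hab'
    have : a' 2 * b' 2 = 0 := by linarith only [hab']
    rcases mul_eq_zero.1 this with h | h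
    · exact h
    · rw [h] at b2'; norm_num at b2'
  have a1' : a' 1 ^ 2 = 1 := by
    have := norm3 a'
    rw [ha', a0', a2'] at this
    linarith only [this]
  -- `cc x` in terms of `E1`, `E2`
  have hv' : cc x = pt α E1 β E2 0 0 := by
    rw [hv]
    apply mon_E6_ext
    · rw [pt_0, pt_0, ver_0, ver_0, ver_0, ver_0, a0', b0', E1_0, E2_0]; ring
    · rw [pt_1, pt_1, ver_1, ver_1, ver_1, ver_1, a0', b0', E1_0, E2_0]; ring
    · rw [pt_2, pt_2, ver_2, ver_2, ver_2, ver_2, a2', b1', E1_2, E2_1]; ring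
    · rw [pt_3, pt_3, ver_3, ver_3, ver_3, ver_3, a0', a2', b0', b2', E1_0, E1_2, E2_0, E2_2]; ring
    · rw [pt_4, pt_4, ver_4, ver_4, ver_4, ver_4, a0', a2', a1', b0', b1', b2', E1_0, E1_1, E1_2, E2_0,
        E2_1, E2_2]; ring
    · rfl
    · rfl
  have hwv : w = ‖w‖ • cc x := by
    rw [hcc]
    unfold nrm
    rw [smul_smul, mul_inv_cancel₀ hR.ne', one_smul]
  -- the chart point
  have hPr : r • PP x = pt (‖w‖ * α + (1 - r) / 2) E1 (‖w‖ * β + (1 - r) / 2) E2 0 0 := by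
    have e1 : r • PP x = ‖w‖ • cc x + (1 - r) • q0 := by
      rw [← hwv, hPP]
      exact (sub_add_cancel _ _).symm
    rw [e1, hv', q0_eq]
    apply mon_E6_ext <;>
      rw [PiLp.add_apply, PiLp.smul_apply, PiLp.smul_apply, smul_eq_mul, smul_eq_mul]
    · rw [pt_0, pt_0, pt_0]; ring
    · rw [pt_1, pt_1, pt_1]; ring
    · rw [pt_2, pt_2, pt_2]; ring
    · rw [pt_3, pt_3, pt_3]; ring
    · rw [pt_4, pt_4, pt_4]; ring
    · rw [pt_5, pt_5, pt_5]; ring
    · rw [pt_6, pt_6, pt_6]; ring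
  have hA : 0 ≤ ‖w‖ * α + (1 - r) / 2 := by
    have := mul_pos hR hα'
    linarith only [hr1, this]
  have hB : 0 ≤ ‖w‖ * β + (1 - r) / 2 := by
    have := mul_pos hR hβ'
    linarith only [hr1, this]
  have hTop : IsTop (nrm (PP x)) E1 := by
    rw [isTop_nrm (PP_ne_zero x), ← isTop_smul_iff hrpos, hPr]
    exact isTop_pt hA hB norm_E1 norm_E2 inner_E
  have hBot : IsBot (nrm (PP x)) E2 := by
    rw [isBot_nrm (PP_ne_zero x), ← isBot_smul_iff hrpos, hPr]
    exact isBot_pt hA hB norm_E1 norm_E2 inner_E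
  have hc3 := TriF2.cos_pos_of_small (TriF2.abs_cl_le x 3)
  have t0 : TA x 0 = 0 := by
    rcases top_PP hTop with h | h
    · rw [← h]; rfl
    · have := congrArg (fun z : R3 => z 0) h
      simp only [PiLp.neg_apply, E1_0] at this
      linarith only [this]
  have u0 : TB x 0 = 0 := by
    rcases bot_PP hBot with h | h
    · rw [← h]; rfl
    · have := congrArg (fun z : R3 => z 0) h
      simp only [PiLp.neg_apply, E2_0] at this
      linarith only [this]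
  have u1 : TB x 1 = 0 := by
    rcases bot_PP hBot with h | h
    · rw [← h]; rfl
    · have := congrArg (fun z : R3 => z 1) h
      simp only [PiLp.neg_apply, E2_1] at this
      linarith only [this]
  have k1 : cl x 1 = 0 := by
    rw [TA_0] at t0
    exact TriF2.sin_zero_of_small (TriF2.abs_cl_le x 1) ((mul_eq_zero.1 t0).resolve_left hc3.ne')
  have k3 : cl x 3 = 0 := by
    rw [TB_0] at u0
    exact TriF2.sin_zero_of_small (TriF2.abs_cl_le x 3) (neg_eq_zero.1 u0)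
  have k4 : cl x 4 = 0 := by
    rw [TB_1] at u1
    exact TriF2.sin_zero_of_small (TriF2.abs_cl_le x 4) ((mul_eq_zero.1 u1).resolve_left hc3.ne')
  -- the second coordinate is at an end
  have k2 : cl x 2 = -1 ∨ cl x 2 = 1 := by
    obtain ⟨i, hi, hxi⟩ := hx
    have hci : cl x i = -1 ∨ cl x i = 1 := by
      rcases hxi with h | h
      · exact Or.inl (cl_of_le h)
      · exact Or.inr (cl_of_ge h)
    have hne : cl x i ≠ 0 := by
      rcases hci with h | h <;> rw [h] <;> norm_num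
    interval_cases i
    · exact absurd hc0 hne
    · exact absurd k1 hne
    · exact hci
    · exact absurd k3 hne
    · exact absurd k4 hne
    · exact absurd hy4 hne
  have eA : TA x = E1 := by
    unfold TA
    rw [k3, k4, k1]; exact TriF2.fA_c
  have eB : TB x = E2 := by
    unfold TB
    rw [k3, k4]; exact TriF2.fB_c
  have s3 : (0 : ℝ) < √3 := by positivity
  -- compare the coordinates 3 and 4
  have p3 : r * PP x 3 = (pt (‖w‖ * α + (1 - r) / 2) E1 (‖w‖ * β + (1 - r) / 2) E2 0 0) 3 := by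
    rw [← hPr]; rfl
  have p4 : r * PP x 4 = (pt (‖w‖ * α + (1 - r) / 2) E1 (‖w‖ * β + (1 - r) / 2) E2 0 0) 4 := by
    rw [← hPr]; rfl
  rw [PP_eq, eA, eB, pt_3, pt_3, ver_3, ver_3, E1_0, E1_2, E2_0, E2_2] at p3
  rw [PP_eq, eA, eB, pt_4, pt_4, ver_4, ver_4, E1_0, E1_1, E1_2, E2_0, E2_1, E2_2] at p4
  have hRβ : ‖w‖ * β = r - 1 / 2 + r * cl x 2 / 4 := by
    have : √3 * (‖w‖ * β - (r - 1 / 2 + r * cl x 2 / 4)) = 0 := by linear_combination -2 * p3
    have := (mul_eq_zero.1 this).resolve_left s3.ne'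
    linarith only [this]
  have hRα : ‖w‖ * α = r - 1 / 2 - r * cl x 2 / 4 := by
    linear_combination (-1 / 2) * hRβ + p4
  -- norm and level
  have hn : α ^ 2 + α * β + β ^ 2 = 1 := by
    have h1 := norm_sq_pt α β 0 0 norm_E1 norm_E2 inner_E
    rw [← hv', norm_cc] at h1
    linarith only [h1]
  have hHv : HH (cc x) = α ^ 3 + 3 / 2 * α ^ 2 * β - 3 / 2 * α * β ^ 2 - β ^ 3 := by
    unfold HH
    rw [h5, h6, hv', H4_pt norm_E1 norm_E2 inner_E]
    ring
  rw [hHv] at hH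
  rcases k2 with h | h
  · rw [h] at hRα hRβ
    have h3 : 3 * β ≤ α := by
      have : ‖w‖ * (3 * β) ≤ ‖w‖ * α := by linarith only [hr1, hRβ, hRα]
      exact le_of_mul_le_mul_left this hR
    have := num' hβ h3 hn
    linarith only [hH, hl', this, hl'.2]
  · rw [h] at hRα hRβ
    have h3 : 3 * α ≤ β := by
      have : ‖w‖ * (3 * α) ≤ ‖w‖ * β := by linarith only [hr1, hRβ, hRα]
      exact le_of_mul_le_mul_left this hR
    have := num hα h3 hn
    linarith only [hH, hl', this, hl'.1]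

/-! ### compactness -/

theorem isClosed_KK : IsClosed KK := by
  have e : KK = ⋃ i ∈ Finset.range 6, ({x : Q | (x i : ℝ) ≤ 1 / 3} ∪ {x : Q | 2 / 3 ≤ (x i : ℝ)}) := by
    ext x
    simp [KK]
  rw [e]
  refine isClosed_biUnion_finset fun i _ => ?_
  have h : Continuous fun x : Q => (x i : ℝ) := continuous_subtype_val.comp (continuous_apply i)
  exact (isClosed_le h continuous_const).union (isClosed_le continuous_const h)

theorem continuous_qf {X : Type*} [TopologicalSpace X] {v : X → E6} {a : X → R3}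
    (hv : Continuous v) (ha : Continuous a) : Continuous fun x => qf (v x) (a x) := by
  have hv' : ∀ i, Continuous fun x => v x i := fun i =>
    (EuclideanSpace.proj (𝕜 := ℝ) i).continuous.comp hv
  have ha' : ∀ i, Continuous fun x => a x i := fun i =>
    (EuclideanSpace.proj (𝕜 := ℝ) i).continuous.comp ha
  have v0 := hv' 0
  have v1 := hv' 1
  have v2 := hv' 2
  have v3 := hv' 3
  have v4 := hv' 4
  have a0 := ha' 0
  have a1 := ha' 1
  have a2 := ha' 2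
  simp only [qf_coord]
  fun_prop

theorem isClosed_isTop {X : Type*} [TopologicalSpace X] {v : X → E6} {a : X → R3}
    (hv : Continuous v) (ha : Continuous a) : IsClosed {x | IsTop (v x) (a x)} := by
  have e : {x | IsTop (v x) (a x)} = {x | ‖a x‖ = 1} ∩
      ⋂ z : {z : R3 // ‖z‖ = 1}, {x | qf (v x) z ≤ qf (v x) (a x)} := by
    ext x
    simp [IsTop]
  rw [e]
  refine (isClosed_eq ha.norm continuous_const).inter (isClosed_iInter fun z => ?_)
  exact isClosed_le (continuous_qf hv continuous_const) (continuous_qf hv ha)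

theorem isClosed_isBot {X : Type*} [TopologicalSpace X] {v : X → E6} {a : X → R3}
    (hv : Continuous v) (ha : Continuous a) : IsClosed {x | IsBot (v x) (a x)} := by
  have e : {x | IsBot (v x) (a x)} = {x | ‖a x‖ = 1} ∩
      ⋂ z : {z : R3 // ‖z‖ = 1}, {x | qf (v x) (a x) ≤ qf (v x) z} := by
    ext x
    simp [IsBot]
  rw [e]
  refine (isClosed_eq ha.norm continuous_const).inter (isClosed_iInter fun z => ?_)
  exact isClosed_le (continuous_qf hv ha) (continuous_qf hv continuous_const)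

/-- the quantity which is positive outside the inner cube -/
noncomputable def psi (l : ℝ) (v : E6) (a b : R3) : ℝ :=
  (v 5) ^ 2 + (v 6) ^ 2 + (HH v - l) ^ 2 + (a 0) ^ 2 + (b 0) ^ 2 + (b 1) ^ 2

theorem gap {l : ℝ} (hl : |l| ≤ 3 / 10) : ∃ η : ℝ, 0 < η ∧ ∀ x ∈ KK, ∀ a b : R3,
    IsTop (cc x) a → IsBot (cc x) b → η ≤ psi l (cc x) a b := by
  set Z : Set (Q × R3 × R3) := {p | p.1 ∈ KK ∧ IsTop (cc p.1) p.2.1 ∧ IsBot (cc p.1) p.2.2} with hZ
  have hcc : Continuous fun p : Q × R3 × R3 => cc p.1 := continuous_cc.comp continuous_fst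
  have ha : Continuous fun p : Q × R3 × R3 => p.2.1 := continuous_fst.comp continuous_snd
  have hb : Continuous fun p : Q × R3 × R3 => p.2.2 := continuous_snd.comp continuous_snd
  have hclosed : IsClosed Z :=
    (isClosed_KK.preimage continuous_fst).inter
      ((isClosed_isTop hcc ha).inter (isClosed_isBot hcc hb))
  have hcomp : IsCompact Z := by
    refine IsCompact.of_isClosed_subset ((isCompact_univ (X := Q)).prod
      ((isCompact_closedBall (0 : R3) 1).prod (isCompact_closedBall (0 : R3) 1))) hclosed ?_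
    rintro ⟨x, a, b⟩ ⟨_, h2, h3⟩
    refine ⟨Set.mem_univ _, ?_, ?_⟩
    · simpa using h2.1.le
    · simpa using h3.1.le
  have hpsi : Continuous fun p : Q × R3 × R3 => psi l (cc p.1) p.2.1 p.2.2 := by
    have v5 : Continuous fun p : Q × R3 × R3 => cc p.1 5 :=
      (EuclideanSpace.proj (𝕜 := ℝ) (5 : Fin 7)).continuous.comp hcc
    have v6 : Continuous fun p : Q × R3 × R3 => cc p.1 6 :=
      (EuclideanSpace.proj (𝕜 := ℝ) (6 : Fin 7)).continuous.comp hcc
    have a0 : Continuous fun p : Q × R3 × R3 => p.2.1 0 :=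
      (EuclideanSpace.proj (𝕜 := ℝ) (0 : Fin 3)).continuous.comp ha
    have b0 : Continuous fun p : Q × R3 × R3 => p.2.2 0 :=
      (EuclideanSpace.proj (𝕜 := ℝ) (0 : Fin 3)).continuous.comp hb
    have b1 : Continuous fun p : Q × R3 × R3 => p.2.2 1 :=
      (EuclideanSpace.proj (𝕜 := ℝ) (1 : Fin 3)).continuous.comp hb
    have hH : Continuous fun p : Q × R3 × R3 => HH (cc p.1) := HH_contDiff.continuous.comp hcc
    unfold psi
    exact (((((v5.pow 2).add (v6.pow 2)).add ((hH.sub continuous_const).pow 2)).add (a0.pow 2)).add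
      (b0.pow 2)).add (b1.pow 2)
  rcases Z.eq_empty_or_nonempty with hZe | hZn
  · refine ⟨1, one_pos, fun x hx a b h1 h2 => ?_⟩
    have : (x, a, b) ∈ Z := ⟨hx, h1, h2⟩
    rw [hZe] at this
    exact absurd this (Set.notMem_empty _)
  · obtain ⟨⟨x₀, a₀, b₀⟩, ⟨hx₀, ha₀, hb₀⟩, hmin⟩ := hcomp.exists_isMinOn hZn hpsi.continuousOn
    refine ⟨psi l (cc x₀) a₀ b₀, ?_, fun x hx a b h1 h2 => ?_⟩
    · by_contra hc
      push Not at hc
      unfold psi at hc
      have q1 := sq_nonneg (cc x₀ 5)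
      have q2 := sq_nonneg (cc x₀ 6)
      have q3 := sq_nonneg (HH (cc x₀) - l)
      have q4 := sq_nonneg (a₀ 0)
      have q5 := sq_nonneg (b₀ 0)
      have q6 := sq_nonneg (b₀ 1)
      refine excl hl hx₀ ha₀ hb₀ ?_ ?_ ?_ ?_ ?_ ?_
      · exact pow_eq_zero_iff (two_ne_zero) |>.1 (by linarith only [q1, hc, q2, q3, q4, q5, q6])
      · exact pow_eq_zero_iff (two_ne_zero) |>.1 (by linarith only [q2, hc, q1, q3, q4, q5, q6])
      · exact sub_eq_zero.1 (pow_eq_zero_iff (two_ne_zero) |>.1 (by linarith))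
      · exact pow_eq_zero_iff (two_ne_zero) |>.1 (by linarith)
      · exact pow_eq_zero_iff (two_ne_zero) |>.1 (by linarith)
      · exact pow_eq_zero_iff (two_ne_zero) |>.1 (by linarith)
    · have h3 : (x, a, b) ∈ Z := ⟨hx, h1, h2⟩
      have h4 := isMinOn_iff.1 hmin (x, a, b) h3
      dsimp only at h4
      exact h4

/-! ### small sequences on which the letter does not vanish -/

theorem exists_top_nonneg (v : E6) (i : Fin 3) : ∃ a, IsTop v a ∧ 0 ≤ a i := by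
  obtain ⟨a, ha⟩ := exists_isTop v
  rcases le_total 0 (a i) with h | h
  · exact ⟨a, ha, h⟩
  · exact ⟨-a, ha.neg, by simpa using h⟩

theorem exists_bot_nonneg (v : E6) (i : Fin 3) : ∃ a, IsBot v a ∧ 0 ≤ a i := by
  obtain ⟨a, ha⟩ := exists_isBot v
  rcases le_total 0 (a i) with h | h
  · exact ⟨a, ha, h⟩
  · exact ⟨-a, ha.neg, by simpa using h⟩

theorem top0_spec (v : E6) : IsTop v (top0 v) ∧ 0 ≤ top0 v 0 :=
  Classical.epsilon_spec (exists_top_nonneg v 0)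

theorem bot0_spec (v : E6) : IsBot v (bot0 v) ∧ 0 ≤ bot0 v 0 :=
  Classical.epsilon_spec (exists_bot_nonneg v 0)

theorem bot1_spec (v : E6) : IsBot v (bot1 v) ∧ 0 ≤ bot1 v 1 :=
  Classical.epsilon_spec (exists_bot_nonneg v 1)

theorem coord_close {n : ℕ} (v w : EuclideanSpace ℝ (Fin n)) (i : Fin n) : |v i - w i| ≤ ‖v - w‖ := by
  have := PiLp.norm_apply_le (v - w) i
  rw [Real.norm_eq_abs] at this
  exact this

/-- a coordinate which changes its sign is small -/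
theorem ind_change {δ p q : ℝ} (h : |p - q| < δ)
    (hne : (if 0 < p then (1 : ZMod 2) else 0) ≠ if 0 < q then 1 else 0) : |p| < δ := by
  have h2 := abs_lt.1 h
  rcases lt_or_ge 0 p with a | a <;> rcases lt_or_ge 0 q with b | b
  · exact absurd (by rw [if_pos a, if_pos b]) hne
  · rw [abs_of_pos a]; linarith [h2.2]
  · rw [abs_of_nonpos a]; linarith [h2.1]
  · exact absurd (by rw [if_neg (not_lt.2 a), if_neg (not_lt.2 b)]) hne

theorem ind_change' {δ p q l : ℝ} (h : |p - q| ≤ δ)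
    (hne : (if p < l then (1 : ZMod 2) else 0) ≠ if q < l then 1 else 0) : |p - l| ≤ δ := by
  have h2 := abs_le.1 h
  rcases lt_or_ge p l with a | a <;> rcases lt_or_ge q l with b | b
  · exact absurd (by rw [if_pos a, if_pos b]) hne
  · rw [abs_of_neg (by linarith)]; linarith [h2.1]
  · rw [abs_of_nonneg (by linarith)]; linarith [h2.2]
  · exact absurd (by rw [if_neg (not_lt.2 a), if_neg (not_lt.2 b)]) hne

theorem norm_add_sq' {p q : R3} (hp : ‖p‖ = 1) (hq : ‖q‖ = 1) : ‖p + q‖ ^ 2 = 2 + 2 * ⟪p, q⟫ := by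
  rw [norm_add_sq_real, hp, hq]; ring

theorem norm_sub_sq' {p q : R3} (hp : ‖p‖ = 1) (hq : ‖q‖ = 1) : ‖p - q‖ ^ 2 = 2 - 2 * ⟪p, q⟫ := by
  rw [norm_sub_sq_real, hp, hq]; ring

theorem sq_diff {p q : R3} (hp : ‖p‖ = 1) (hq : ‖q‖ = 1) {ε : ℝ} (hε : 0 ≤ ε)
    (h : 1 - ⟪p, q⟫ ^ 2 ≤ ε ^ 2) (i : Fin 3) : (p i) ^ 2 ≤ (q i) ^ 2 + 2 * ε := by
  have h1 := coord_close p q i
  have h2 : |p i + q i| ≤ ‖p + q‖ := by
    have := coord_close p (-q) i
    simpa using this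
  have h3 : ‖p - q‖ * ‖p + q‖ ≤ 2 * ε := by
    apply le_of_sq_le_sq _ (by linarith)
    rw [mul_pow, norm_add_sq' hp hq, norm_sub_sq' hp hq]
    linarith
  have h4 : |(p i - q i) * (p i + q i)| ≤ ‖p - q‖ * ‖p + q‖ := by
    rw [abs_mul]
    exact mul_le_mul h1 h2 (abs_nonneg _) (norm_nonneg _)
  have h5 := (abs_le.1 (h4.trans h3)).2
  linarith
where
  le_of_sq_le_sq {a b : ℝ} (h : a ^ 2 ≤ b ^ 2) (hb : 0 ≤ b) : a ≤ b := by
    have := abs_le_of_sq_le_sq h hb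
    exact (abs_le.1 this).2

theorem same_sign {p q : R3} (hp : ‖p‖ = 1) (hq : ‖q‖ = 1) {ε : ℝ}
    (h : 1 - ⟪p, q⟫ ^ 2 ≤ ε ^ 2) (hneg : ⟪p, q⟫ < 0) (i : Fin 3) (hpi : 0 ≤ p i) (hqi : 0 ≤ q i) :
    (p i) ^ 2 ≤ 2 * ε ^ 2 := by
  have h2 : |p i + q i| ≤ ‖p + q‖ := by
    have := coord_close p (-q) i
    simpa using this
  rw [abs_of_nonneg (by linarith)] at h2
  have h3 : (p i) ^ 2 ≤ ‖p + q‖ ^ 2 := by
    apply pow_le_pow_left₀ hpi
    linarith
  rw [norm_add_sq' hp hq] at h3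
  have h4 : -1 ≤ ⟪p, q⟫ := by
    have := abs_real_inner_le_norm p q
    rw [hp, hq, one_mul] at this
    exact (abs_le.1 this).1
  nlinarith only [h, h3, hneg]

theorem small_w2 {l : ℝ} (hl : |l| ≤ 3 / 10) {η : ℝ} (hη : 0 < η) : ∃ δ : ℝ, 0 < δ ∧
    ∀ v : ℕ → E6, Sm δ v → w2 l v ≠ 0 → ∃ a b, IsTop (v 0) a ∧ IsBot (v 0) b ∧
      psi l (v 0) a b < η := by
  obtain ⟨C, hC, hlip⟩ := HH_lip
  set ε : ℝ := min (1 / (100 * (C + 1))) (η / 100) with hεdef
  have hε : 0 < ε := lt_min (by positivity) (by positivity)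
  have hε1 : ε * (C + 1) ≤ 1 / 100 := by
    have h1 : ε ≤ 1 / (100 * (C + 1)) := min_le_left _ _
    rw [le_div_iff₀ (by positivity)] at h1
    linarith only [h1]
  have hε2 : ε ≤ η / 100 := min_le_right _ _
  have hε3 : ε ≤ 1 / 100 := by nlinarith only [hε1, hC, hε]
  have hCε : C * ε ≤ 1 / 100 := by linarith only [hε, hε1]
  refine ⟨ε ^ 2 / 14, by positivity, fun v hv hne => ?_⟩
  set δ := ε ^ 2 / 14 with hδ
  have hδε : 14 * δ = ε ^ 2 := by rw [hδ]; ring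
  have hδ0 : 0 < δ := by positivity
  have hδ1 : δ ≤ ε / 1400 := by nlinarith only [hδ, hC, hδ0, hε, hε1]
  have hl' := abs_le.1 hl
  -- the factors
  have hne' : (s5 (ZMod 2) (v 1) - s5 (ZMod 2) (v 0)) * (xi top0 (fun j => v (j + 1)) *
      ((lo (ZMod 2) l (v 3) - lo (ZMod 2) l (v 2)) * (xi bot0 (fun j => v (j + 1 + 1 + 1)) *
      (xi bot1 (fun j => v (j + 1 + 1 + 1 + 1)) * (s6 (ZMod 2) (v 6) - s6 (ZMod 2) (v 5)))))) ≠ 0 :=
    hne
  have n0 := left_ne_zero_of_mul hne'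
  have r1 := right_ne_zero_of_mul hne'
  have n1 := left_ne_zero_of_mul r1
  have r2 := right_ne_zero_of_mul r1
  have n2 := left_ne_zero_of_mul r2
  have r3 := right_ne_zero_of_mul r2
  have n3 := left_ne_zero_of_mul r3
  have r4 := right_ne_zero_of_mul r3
  have n4 := left_ne_zero_of_mul r4
  have n5 := right_ne_zero_of_mul r4
  -- coordinates 5, 6 and the level
  have hc : ∀ i j k, |v i k - v j k| < δ := fun i j k => (coord_close _ _ _).trans_lt (hv.2 i j)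
  have hHvar : ∀ i j, |HH (v i) - HH (v j)| ≤ C * δ := fun i j =>
    (hlip _ _ (hv.1 i) (hv.1 j)).trans (mul_le_mul_of_nonneg_left (hv.2 i j).le hC.le)
  have s5k : ∀ k, |v k 5| ≤ 2 * δ := by
    intro k
    have h1 : |v 1 5| < δ := ind_change (hc 1 0 5) fun he => n0 (sub_eq_zero.2 he)
    have h2 := hc k 1 5
    have h3 : v k 5 = (v k 5 - v 1 5) + v 1 5 := by ring
    rw [h3]
    exact (abs_add_le _ _).trans (by linarith)
  have s6k : ∀ k, |v k 6| ≤ 2 * δ := by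
    intro k
    have h1 : |v 6 6| < δ := ind_change (hc 6 5 6) fun he => n5 (sub_eq_zero.2 he)
    have h2 := hc k 6 6
    have h3 : v k 6 = (v k 6 - v 6 6) + v 6 6 := by ring
    rw [h3]
    exact (abs_add_le _ _).trans (by linarith)
  have hHk : ∀ k, |HH (v k) - l| ≤ 2 * (C * δ) := by
    intro k
    have h1 : |HH (v 3) - l| ≤ C * δ := ind_change' (hHvar 3 2) fun he => n2 (sub_eq_zero.2 he)
    have h2 := hHvar k 3
    have h3 : HH (v k) - l = (HH (v k) - HH (v 3)) + (HH (v 3) - l) := by ring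
    rw [h3]
    exact (abs_add_le _ _).trans (by linarith)
  have hCδ : C * δ ≤ ε / 100 := by
    have : C * δ ≤ C * (ε / 1400) := mul_le_mul_of_nonneg_left hδ1 hC.le
    nlinarith only [hδ0, hδ1, hC, hδ, hε, hε1]
  have h5 : ∀ k, |v k 5| ≤ 1 / 10 := fun k => (s5k k).trans (by linarith only [hε3, hδ0, hδ1])
  have h6 : ∀ k, |v k 6| ≤ 1 / 10 := fun k => (s6k k).trans (by linarith)
  have hH1 : ∀ k, -1 / 2 ≤ HH (v k) := fun k => by
    have := (abs_le.1 (hHk k)).1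
    linarith
  have hH2 : ∀ k, HH (v k) ≤ 1 / 2 := fun k => by
    have := (abs_le.1 (hHk k)).2
    linarith only [hε3, hδ0, hδ1, hl', hCδ, this]
  -- lines
  have htop : ∀ i j, ∀ a a', IsTop (v i) a → IsTop (v j) a' → 1 - ⟪a, a'⟫ ^ 2 ≤ ε ^ 2 := by
    intro i j a a' h1 h2
    have h3 := top_close (hv.1 i) (hv.1 j) (h5 i) (hH1 i) h1 h2
    have h4 := hv.2 i j
    linarith
  have hbot : ∀ i j, ∀ a a', IsBot (v i) a → IsBot (v j) a' → 1 - ⟪a, a'⟫ ^ 2 ≤ ε ^ 2 := by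
    intro i j a a' h1 h2
    have h3 := bot_close (hv.1 i) (hv.1 j) (h6 i) (hH2 i) h1 h2
    have h4 := hv.2 i j
    linarith
  have neg_of_xi : ∀ (f : E6 → R3) (u : ℕ → E6), xi f u ≠ 0 → ⟪f (u 0), f (u 1)⟫ < 0 := by
    intro f u h
    by_contra hc
    exact h (by unfold xi; rw [if_neg hc])
  have i1 := neg_of_xi _ _ n1
  have i3 := neg_of_xi _ _ n3
  have i4 := neg_of_xi _ _ n4
  have t1 := top0_spec (v 1)
  have t2 := top0_spec (v 2)
  have t3 := bot0_spec (v 3)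
  have t4 := bot0_spec (v 4)
  have t5 := bot1_spec (v 4)
  have t6 := bot1_spec (v 5)
  have q1 := same_sign t1.1.1 t2.1.1 (htop 1 2 _ _ t1.1 t2.1) i1 0 t1.2 t2.2
  have q3 := same_sign t3.1.1 t4.1.1 (hbot 3 4 _ _ t3.1 t4.1) i3 0 t3.2 t4.2
  have q4 := same_sign t5.1.1 t6.1.1 (hbot 4 5 _ _ t5.1 t6.1) i4 1 t5.2 t6.2
  obtain ⟨a, ha⟩ := exists_isTop (v 0)
  obtain ⟨b, hb⟩ := exists_isBot (v 0)
  refine ⟨a, b, ha, hb, ?_⟩
  have w1 := sq_diff ha.1 t1.1.1 hε.le (htop 0 1 _ _ ha t1.1) 0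
  have w3 := sq_diff hb.1 t3.1.1 hε.le (hbot 0 3 _ _ hb t3.1) 0
  have w4 := sq_diff hb.1 t5.1.1 hε.le (hbot 0 4 _ _ hb t5.1) 1
  have hε22 : ε ^ 2 ≤ ε / 100 := by linarith only [hδ, hδ1]
  have z5 : (v 0 5) ^ 2 ≤ ε := by
    have h1 := s5k 0
    rw [← sq_abs]
    have h2 : |v 0 5| ≤ ε := h1.trans (by linarith only [hδ0, hδ1])
    have h3 := abs_nonneg (v 0 5)
    nlinarith only [hδ1, hδ, h1, hC, hδ0, hε, hε1, hε3, h3]
  have z6 : (v 0 6) ^ 2 ≤ ε := by
    have h1 := s6k 0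
    rw [← sq_abs]
    have h2 : |v 0 6| ≤ ε := h1.trans (by linarith)
    have h3 := abs_nonneg (v 0 6)
    nlinarith only [hδ1, hδ, h1, hC, hδ0, hε, hε1, hε3, h3]
  have zH : (HH (v 0) - l) ^ 2 ≤ ε := by
    have h1 := hHk 0
    rw [← sq_abs]
    have h2 : |HH (v 0) - l| ≤ ε := h1.trans (by linarith)
    have h3 := abs_nonneg (HH (v 0) - l)
    nlinarith only [hδ, hε1, hδ1, hε, h1, hε3, hδ0, hCδ, h3]
  unfold psi
  linarith only [hε2, hδ, hδ0, hδ1, q1, q3, q4, w1, w3, w4, z5, z6, zH]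

end EvF2

end Pool.Agent.Helper76.Freq
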