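import Pool.Agent.Helper76.Freq.Word
import Pool.Agent.Helper76.Freq.Peel

/-!
# The word `[A | B]` with `A = δα`, and words with one letter
-/

set_option autoImplicit false

namespace Pool.Agent.Helper76.Freq

open Finset

variable {R : Type*} [CommRing R] {X : Type} {r : X → X → Prop}

theorem W_nrm {L : List (Lt X R)} (h : ∀ ℓ ∈ L, Nrm (ℓ.1 + 1) ℓ.2) (a b : ℕ) :
    Nrm (wd L) (W L a b) := by
  rintro y ⟨j, hj, hjj⟩
  exact W_nrmOn h a b y ⟨j, hj, fun I _ _ => by rw [hjj]⟩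

theorem W_AB {α A B : (ℕ → X) → R} (hα : Dep 2 α) (hα' : Nrm 2 α) (hB : Dep 4 B) (hB' : Nrm 4 B)
    (hA : ∀ v, Sml r v → cobd 2 α v = A v) (hcB : ClosedOn r 4 B) {n : ℕ}
    {y : ℕ → ℕ → X} (hy : SmT r y) (h0 : ∀ j, y j 0 = y 0 0) (hn : ∀ j, y j n = y 0 n) :
    W [(2, A), (3, B)] 0 n y = W [(5, cup 2 α B)] 0 n y - cobd 4 (W [(1, α), (3, B)] 0 n) y := by
  have hdα : Dep (((1 : ℕ), α).1 + 1) ((1 : ℕ), α).2 := hα
  have e0 : W [(1, α), (3, B)] 0 n = fun y =>
      ∑ I ∈ Ico 0 n, cup 1 (hat (1, α) I) (W [(3, B)] (I + 1) n) y := rfl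
  rw [e0, cobd_sum]
  have hatA : ∀ I, Pr 3 (cobd 2 α) (fun j => (y j I, y j (I + 1))) = hat (2, A) I y := by
    intro I
    simp only [hat, Pr]
    refine sum_congr rfl fun i _ => ?_
    rw [hA _ (fun a b => hy.from (From.mix y I i) (From.mix y I i) a b)]
  have cobα : ∀ I, cobd 1 (hat (1, α) I) y =
      α (fun j => y j (I + 1)) - α (fun j => y j I) - hat (2, A) I y := by
    intro I
    have h1 := prism_succ (d := 1) hα (fun j => (y j I, y j (I + 1)))
    rw [hatA I] at h1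
    rw [← h1]
    show cobd 1 (hat (1, α) I) y = _
    have : cobd 1 (hat (1, α) I) y = cobd 1 (Pr 2 α) (fun j => (y j I, y j (I + 1))) := rfl
    rw [this]
    ring
  set y' : ℕ → ℕ → X := fun j => y (j + 2) with hy'
  have term : ∀ I ∈ Ico 0 n, cobd (1 + 3) (cup 1 (hat (1, α) I) (W [(3, B)] (I + 1) n)) y =
      (α (fun j => y j (I + 1)) * W [(3, B)] (I + 1) n y' - α (fun j => y j I) * W [(3, B)] I n y') +
      (hat (5, cup 2 α B) I y - cup 2 (hat (2, A) I) (W [(3, B)] (I + 1) n) y) -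
      hat (1, α) I y * B (fun j => y (j + 1) n) := by
    intro I hI
    obtain ⟨-, hI2⟩ := mem_Ico.1 hI
    rw [cobd_cup (hat_dep hdα I)]
    have c1 : cup (1 + 1) (cobd 1 (hat (1, α) I)) (W [(3, B)] (I + 1) n) y =
        (α (fun j => y j (I + 1)) - α (fun j => y j I) - hat (2, A) I y) *
          W [(3, B)] (I + 1) n y' := by
      simp only [cup]
      rw [cobα I]
    have c2 : cobd 3 (W [(3, B)] (I + 1) n) (fun j => y (j + 1)) =
        B (fun j => y (j + 1) n) - B (fun j => y (j + 1) (I + 1)) := by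
      have e1 : W [(3, B)] (I + 1) n = fun y => ∑ J ∈ Ico (I + 1) n, hat (3, B) J y := by
        funext y
        simp [W_cons, cup]
      rw [e1, cobd_sum]
      have e2 : ∀ J ∈ Ico (I + 1) n, cobd 3 (hat (3, B) J) (fun j => y (j + 1)) =
          B (fun j => y (j + 1) (J + 1)) - B (fun j => y (j + 1) J) := fun J _ =>
        cobd_hat (ℓ := (3, B)) hB hcB (hy.comp (fun j => j + 1)) J
      rw [sum_congr rfl e2, sum_Ico_sub (fun J => B (fun j => y (j + 1) J)) hI2]
    have c3 : cup 1 (hat (1, α) I) (cobd 3 (W [(3, B)] (I + 1) n)) y =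
        hat (1, α) I y * (B (fun j => y (j + 1) n) - B (fun j => y (j + 1) (I + 1))) := by
      simp only [cup]
      rw [c2]
    have c4 : hat (5, cup 2 α B) I y = hat (1, α) I y * B (fun j => y (j + 1) (I + 1)) +
        α (fun j => y j I) * hat (3, B) I y' := by
      have := pr_cup (p := 2) (q := 4) (Ψ := B) hα (fun j => (y j I, y j (I + 1)))
      simp only [hat]
      rw [this]
      simp only [hy']
      ring
    have c5 : W [(3, B)] I n y' = hat (3, B) I y' + W [(3, B)] (I + 1) n y' := by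
      simp only [W_cons, W_nil, cup, mul_one]
      rw [sum_eq_sum_Ico_succ_bot hI2]
    have c6 : cup 2 (hat (2, A) I) (W [(3, B)] (I + 1) n) y =
        hat (2, A) I y * W [(3, B)] (I + 1) n y' := rfl
    rw [c1, c3, c4, c5, c6]
    ring
  show W [(2, A), (3, B)] 0 n y = W [(5, cup 2 α B)] 0 n y -
    ∑ I ∈ Ico 0 n, cobd (1 + 3) (cup 1 (hat (1, α) I) (W [(3, B)] (I + 1) n)) y
  rw [sum_congr rfl term, sum_sub_distrib, sum_add_distrib,
    sum_Ico_sub (fun I => α (fun j => y j I) * W [(3, B)] I n y') (Nat.zero_le n), sum_sub_distrib]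
  have z1 : α (fun j => y j 0) = 0 := hα' _ ⟨0, by norm_num, by rw [h0 0, h0 (0 + 1)]⟩
  have z2 : B (fun j => y (j + 1) n) = 0 := hB' _ ⟨0, by norm_num, by
    show y (0 + 1) n = y (0 + 1 + 1) n
    rw [hn (0 + 1), hn (0 + 1 + 1)]⟩
  have z3 : W [(3, B)] n n y' = 0 := W_cons_self _ _ _ _
  rw [z1, z2, z3]
  have z4 : W [(5, cup 2 α B)] 0 n y = ∑ I ∈ Ico 0 n, hat (5, cup 2 α B) I y := by
    simp [W_cons, cup]
  have z5 : W [(2, A), (3, B)] 0 n y =
      ∑ I ∈ Ico 0 n, cup 2 (hat (2, A) I) (W [(3, B)] (I + 1) n) y := rfl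
  rw [z4, z5]
  simp

/-- values of `[A | B]` and of `[α ∪ B]` on cubes with constant faces agree -/
theorem ev_AB {α A B : (ℕ → X) → R} (hα : Dep 2 α) (hα' : Nrm 2 α) (hB : Dep 4 B) (hB' : Nrm 4 B)
    (hA : ∀ v, Sml r v → cobd 2 α v = A v) (hcB : ClosedOn r 4 B) {n M : ℕ} (hM : 0 < M)
    (c : Q → ℕ → X) (h0 : ∀ x x', c x 0 = c x' 0) (hn : ∀ x x', c x n = c x' n)
    (hf : ∀ i < 5, ∀ e : unitInterval, e = 0 ∨ e = 1 → ∀ x x', c (ins i e x) = c (ins i e x'))
    (hs : ∀ k pos, Adm 5 (fun _ => M) k pos → SmT r (fun j => c (gp 5 (fun _ => M) k pos j))) :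
    ev 5 (fun _ => M) (W [(2, A), (3, B)] 0 n) c =
      ev 5 (fun _ => M) (W [(5, cup 2 α B)] 0 n) c := by
  have h1 : ev 5 (fun _ => M) (W [(2, A), (3, B)] 0 n) c =
      ev 5 (fun _ => M) (fun y => W [(5, cup 2 α B)] 0 n y - cobd 4 (W [(1, α), (3, B)] 0 n) y) c := by
    refine ev_congr fun k pos hk => ?_
    exact W_AB hα hα' hB hB' hA hcB (hs k pos hk) (fun j => h0 _ _) (fun j => hn _ _)
  have hd : Dep 4 (W [(1, α), (3, B)] 0 n) := by
    have := W_dep (L := [((1 : ℕ), α), ((3 : ℕ), B)]) (by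
      intro ℓ hℓ
      simp only [List.mem_cons, List.not_mem_nil, or_false] at hℓ
      rcases hℓ with rfl | rfl
      · exact hα
      · exact hB) 0 n
    exact this
  have hnr : Nrm 4 (W [(1, α), (3, B)] 0 n) := by
    have := W_nrm (L := [((1 : ℕ), α), ((3 : ℕ), B)]) (by
      intro ℓ hℓ
      simp only [List.mem_cons, List.not_mem_nil, or_false] at hℓ
      rcases hℓ with rfl | rfl
      · exact hα'
      · exact hB') 0 n
    exact this
  rw [h1, ev_sub, stokes (Ms := fun _ => M) (fun _ => hM) hd c, sum_eq_zero, sub_zero]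
  intro i hi
  have hi' := mem_range.1 hi
  rw [ev_degenerate hnr (i := 0) (by norm_num) (fun x x' _ => hf i hi' 1 (Or.inr rfl) x x'),
    ev_degenerate hnr (i := 0) (by norm_num) (fun x x' _ => hf i hi' 0 (Or.inl rfl) x x'), sub_zero,
    mul_zero]

/-- words with one letter: evaluation as a cochain on the cube with the time as first coordinate -/
theorem ev_single_letter {P : Type} {d n M : ℕ} (Φ : (ℕ → X) → R) (path : P → ℕ → X)
    (γ : P → unitInterval → X) (hγ : ∀ p, ∀ I ≤ n, path p I = γ p (gr n I)) (c : Q → P) :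
    ev d (fun _ => M) (fun y : ℕ → P => W [(d, Φ)] 0 n (fun j => path (y j))) c =
      ev (d + 1) (fun i => if i = 0 then n else M) Φ (fun x => γ (c (sh 1 x)) (x 0)) := by
  rw [ev]
  simp only [if_true, Nat.succ_ne_zero, if_false]
  have e1 : (fun y : ℕ → P => W [(d, Φ)] 0 n (fun j => path (y j))) = fun y =>
      ∑ I ∈ range n, Pr (d + 1) Φ (fun j => (fun p => (γ p (gr n I), γ p (gr n (I + 1)))) (y j)) := by
    funext y
    simp only [W_cons, W_nil, cup, mul_one, hat, range_eq_Ico]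
    refine sum_congr rfl fun I hI => ?_
    have hI' := (mem_Ico.1 hI).2
    congr 1
    funext j
    rw [hγ _ I hI'.le, hγ _ (I + 1) (by omega)]
  rw [e1, ev_sum]
  refine sum_congr rfl fun I _ => ?_
  rw [ev_pull (fun p => (γ p (gr n I), γ p (gr n (I + 1))))]
  congr 1

end Pool.Agent.Helper76.Freq
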