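import Pool.Agent.Helper76.Freq.Path
import Pool.Agent.Helper76.Freq.LoopB
import Pool.Agent.Helper76.Freq.WordAB
import Pool.Agent.Helper76.Freq.DetDefs

/-!
# Families of loops consisting of blocks
-/

set_option autoImplicit false

namespace Pool.Agent.Helper76.Freq

open Finset

/-- `m` blocks with `V` edges each, with parameters in `P` -/
structure Fam (m V : ℕ) (P : Type) [TopologicalSpace P] where
  /-- vertices -/
  pol : ℕ → P → ℕ → E6
  hm : 0 < m
  valid : ∀ b p, ValidPath V (pol b p)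
  cont : ∀ b i, Continuous fun p => pol b p i
  joint : ∀ b < m, ∀ p p', pol b p V = pol ((b + 1) % m) p' 0

variable {m V : ℕ} {P : Type} [TopologicalSpace P] (F : Fam m V P)

namespace Fam

theorem hj (Ps : ℕ → P) (b : ℕ) (hb : b + 1 < m) : F.pol b (Ps b) V = F.pol (b + 1) (Ps (b + 1)) 0 := by
  have := F.joint b (by omega) (Ps b) (Ps (b + 1))
  rwa [Nat.mod_eq_of_lt hb] at this

theorem hl (Ps : ℕ → P) : F.pol (m - 1) (Ps (m - 1)) V = F.pol 0 (Ps 0) 0 := by
  have hm := F.hm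
  have := F.joint (m - 1) (by omega) (Ps (m - 1)) (Ps 0)
  rwa [Nat.sub_add_cancel hm, Nat.mod_self] at this

theorem validPoly (Ps : ℕ → P) : ValidPoly (m * V) (glueP V m fun b => F.pol b (Ps b)) :=
  validPoly_glueP F.hm (fun b _ => F.valid b (Ps b)) (F.hj Ps) (F.hl Ps)

/-- the loop -/
noncomputable def loop (Ps : ℕ → P) : Loop 6 :=
  polyLoop (m * V) (glueP V m fun b => F.pol b (Ps b)) (F.validPoly Ps)

theorem continuous_loop (T : TopologicalSpace (Loop 6)) (hT : Natural T) : Continuous F.loop := by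
  refine continuous_polyLoop (fun Ps : ℕ → P => glueP V m fun b => F.pol b (Ps b)) F.validPoly
    (fun i _ => ?_) T hT
  unfold glueP
  split_ifs
  · exact (F.cont (i / V) (i % V)).comp (continuous_apply (i / V))
  · exact (F.cont 0 0).comp (continuous_apply 0)

/-- the discrete paths of the blocks -/
noncomputable def dpath (k : ℕ) (b : ℕ) (p : P) (I : ℕ) : E6 :=
  pathPt V (F.pol b p) ((I : ℝ) / (V * k : ℕ))

theorem joint_dpath {k : ℕ} (hk : 0 < k) : Joint (F.dpath k) m (V * k) := by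
  intro b hb p p'
  have hV : 0 < V := (F.valid b p).1
  have hVr : (0 : ℝ) < V := by exact_mod_cast hV
  have hN : ((V * k : ℕ) : ℝ) ≠ 0 := by
    have : 0 < V * k := Nat.mul_pos hV hk
    exact_mod_cast this.ne'
  have e1 : F.dpath k b p (V * k) = nrm (F.pol b p V) := by
    have := pathPt_apply (F.valid b p) (i := V - 1) (by omega) (x := 1) (by simp)
    rw [seg_one, Nat.sub_add_cancel hV] at this
    rw [dpath, div_self hN, ← this]
    congr 1
    have : ((V - 1 : ℕ) : ℝ) = V - 1 := by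
      rw [Nat.cast_sub hV, Nat.cast_one]
    rw [this, sub_add_cancel, div_self hVr.ne']
  have e2 : F.dpath k ((b + 1) % m) p' 0 = nrm (F.pol ((b + 1) % m) p' 0) := by
    have := pathPt_apply (F.valid ((b + 1) % m) p') (i := 0) hV (x := 0) (by simp)
    rw [seg_zero] at this
    rw [dpath, ← this]
    simp
  rw [e1, e2, F.joint b hb p p']

theorem loop_toFun {k : ℕ} (hk : 0 < k) (Ps : ℕ → P) (I : ℕ) :
    (F.loop Ps).toFun ((I : ℝ) / (m * (V * k) : ℕ)) = gl (F.dpath k) m (V * k) Ps I := by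
  have hm := F.hm
  have hV : 0 < V := (F.valid 0 (Ps 0)).1
  have hn : 0 < V * k := Nat.mul_pos hV hk
  set n := V * k with hndef
  have hN : (0 : ℝ) < (m * n : ℕ) := by exact_mod_cast Nat.mul_pos hm hn
  have hb : (I / n) % m < m := Nat.mod_lt _ hm
  have hi : I % n ≤ n := (Nat.mod_lt _ hn).le
  have h1 := glueP_apply (n := 6) hk hm (Ps := fun b => F.pol b (Ps b)) (fun b _ => F.valid b (Ps b))
    (F.hj Ps) (F.hl Ps) hb hi
  have h2 : I = ((I / n / m) * m + (I / n) % m) * n + I % n := by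
    have e1 : (I / n / m) * m + (I / n) % m = I / n := by
      rw [mul_comm]; exact Nat.div_add_mod _ _
    rw [e1, mul_comm]
    exact (Nat.div_add_mod _ _).symm
  have h3 : ((I : ℝ) / (m * n : ℕ)) =
      (((I / n) % m * n + I % n : ℕ) : ℝ) / (m * n : ℕ) + ((I / n / m : ℕ) : ℤ) := by
    have h4 : (I : ℝ) = (((I / n) % m * n + I % n : ℕ) : ℝ) + ((I / n / m : ℕ) : ℝ) * (m * n : ℕ) := by
      have : (I : ℝ) = ((((I / n / m) * m + (I / n) % m) * n + I % n : ℕ) : ℝ) := by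
        exact_mod_cast h2
      rw [this]
      push_cast
      ring
    rw [div_eq_iff hN.ne', add_mul, div_mul_cancel₀ _ hN.ne']
    push_cast at h4 ⊢
    exact h4
  show polyPt (m * V) (glueP V m fun b => F.pol b (Ps b)) _ = _
  rw [h3, polyPt_add_int, h1]
  rfl

/-- the cycle -/
noncomputable def cyc [Nonempty P] {G : Type} [Field G] (z : C(Q, P) →₀ G) :
    Cube (Loop 6) (5 * m) →₀ G := res (5 * m) F.loop (pw 5 m z)

theorem cyc_mem [Nonempty P] {G : Type} [Field G] (T : TopologicalSpace (Loop 6)) (hT : Natural T)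
    {z : C(Q, P) →₀ G} (hz : bdN G 5 z ∈ degN G 4) (S : Set (Loop 6)) (hS : ∀ Ps, F.loop Ps ∈ S) :
    F.cyc z ∈ cycles (Loop 6) G S (5 * m) :=
  res_pw_mem_cycles 5 m (by norm_num) F.loop (F.continuous_loop T hT) S hS z hz

/-- the value of a cyclic word on the cycle -/
theorem eval [Nonempty P] {G : Type} [Field G] (z : C(Q, P) →₀ G) {k M : ℕ} (hk : 0 < k)
    (ℓ₀ : Lt E6 G) (h0q : ℓ₀.1 = 5) (Gs : List (List (Lt E6 G)))
    (hpos : ∀ ℓ ∈ Gs.flatten, 0 < ℓ.1)
    (hdep : ∀ ℓ ∈ ([ℓ₀] :: Gs).flatten, Dep (ℓ.1 + 1) ℓ.2)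
    (hnrm : ∀ ℓ ∈ ([ℓ₀] :: Gs).flatten, Nrm (ℓ.1 + 1) ℓ.2) (hq : ∀ L ∈ Gs, wd L = 5)
    (hsm : 1 + Gs.length = m)
    (hres : ∀ (Φ : (ℕ → ℕ → E6) → G), EvF (5 * m) M (m * (V * k)) Φ (F.cyc z) =
      EvC (5 * m) M (fun y => Φ (fun j I => (F.loop (y j)).toFun ((I : ℝ) / (m * (V * k) : ℕ))))
        (pw 5 m z)) :
    EvF (5 * m) M (m * (V * k)) (Th ℓ₀ Gs.flatten (m * (V * k))) (F.cyc z) =
      ∑ b ∈ range m, (-1) ^ (5 * (m - b) * 5 * b) *
        (prE (F.dpath k) (V * k) 5 M z 0 (([ℓ₀] :: Gs).drop (m - b)) *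
          prE (F.dpath k) (V * k) 5 M z b (([ℓ₀] :: Gs).take (m - b))) := by
  obtain ⟨p⟩ := ‹Nonempty P›
  have hV : 0 < V := (F.valid 0 p).1
  rw [hres, ← EvC_Th (Nat.mul_pos hV hk) (F.joint_dpath hk) z ℓ₀ h0q Gs hpos hdep hnrm hq hsm]
  congr 1
  funext y
  congr 1
  funext j I
  exact F.loop_toFun hk (y j) I

/-- the value of a word with one letter on a block -/
theorem EB_single {G : Type} [Field G] (z : C(Q, P) →₀ G) {k M : ℕ} (b : ℕ)
    (hP : Nonempty P) (Φ : (ℕ → E6) → G) :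
    EB (F.dpath k) (V * k) 5 M z b [(5, Φ)] =
      z.sum fun c r => r * ev 6 (fun i => if i = 0 then V * k else M) Φ
        (fun x => pathPt V (F.pol b (c (sh 1 x))) (x 0)) := by
  rw [EB, EvC]
  refine Finsupp.sum_congr fun c _ => ?_
  congr 1
  refine ev_single_letter Φ (F.dpath k b) (fun p e => pathPt V (F.pol b p) (e : ℝ)) ?_ c
  intro p I hI
  rw [dpath, coe_gr hI]

end Fam

end Pool.Agent.Helper76.Freq
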