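import Pool.Agent.Helper76.Freq.Fam
import Pool.Agent.Helper76.Freq.TriF2

/-!
# The family of loops for the classes modulo 2
-/

set_option autoImplicit false

namespace Pool.Agent.Helper76.Freq

/-- the parameter space: vertices of triangles -/
abbrev P2 : Type := {P : ℕ → E6 // ∃ x : Q, P = uV x}

instance nonempty_P2 : Nonempty P2 := ⟨⟨uV fun _ => 0, _, rfl⟩⟩

/-- the family of loops with `m` triangles -/
noncomputable def famF (m : ℕ) (hm : 0 < m) : Fam m 3 P2 where
  pol _ p := p.1
  hm := hm
  valid _ p := by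
    obtain ⟨x, hx⟩ := p.2
    rw [hx]
    exact validPath_uV x
  cont _ i := (continuous_apply i).comp continuous_subtype_val
  joint b _ p p' := by
    obtain ⟨x, hx⟩ := p.2
    obtain ⟨x', hx'⟩ := p'.2
    rw [hx, hx']
    rfl

/-- the cube of triangles -/
noncomputable def uC : C(Q, P2) :=
  ⟨fun x => ⟨uV x, x, rfl⟩, Continuous.subtype_mk (continuous_pi fun i => continuous_uV i) _⟩

theorem famF_pol (m : ℕ) (hm : 0 < m) (b : ℕ) (p : P2) : (famF m hm).pol b p = p.1 := rfl

theorem uC_coe (x : Q) : (uC x).1 = uV x := rfl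

end Pool.Agent.Helper76.Freq
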