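import Pool.Agent.Helper76.Freq.Fam
import Pool.Agent.Helper76.Freq.CycQ

/-!
# The family of loops for the rational classes
-/

set_option autoImplicit false

namespace Pool.Agent.Helper76.Freq

/-- the kind of the block `b` -/
def kap (m b : ℕ) : ℕ := if b = m - 1 then 2 else b % 2

/-- the family of loops with `m` blocks -/
noncomputable def famQ (m : ℕ) (hm : Odd m) (hm3 : 3 ≤ m) : Fam m 6 PQ where
  pol b p := polQ (kap m b) p
  hm := by omega
  valid b p := validPath_polQ _ p
  cont b i := continuous_polQ _ i
  joint b hb p p' := by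
    obtain ⟨j, hj⟩ := hm
    obtain ⟨h1, h2, h3, h4, h5, h6⟩ := polQ_ends p
    obtain ⟨h1', h2', h3', h4', h5', h6'⟩ := polQ_ends p'
    by_cases hb1 : b = m - 1
    · have e1 : kap m b = 2 := by simp [kap, hb1]
      have e2 : (b + 1) % m = 0 := by
        rw [hb1, Nat.sub_add_cancel (by omega), Nat.mod_self]
      have e3 : kap m 0 = 0 := by
        have : ¬ (0 = m - 1) := by omega
        simp [kap, this]
      rw [e2, e1, e3, h6, h1']
    · have e2 : (b + 1) % m = b + 1 := Nat.mod_eq_of_lt (by omega)
      rw [e2]
      have e1 : kap m b = b % 2 := by simp [kap, hb1]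
      rcases Nat.mod_two_eq_zero_or_one b with hpar | hpar
      · have e3 : kap m (b + 1) = 1 := by
          have : ¬ (b + 1 = m - 1) := by omega
          simp only [kap, this, if_false]
          omega
        rw [e1, hpar, e3, h2, h3']
      · rw [e1, hpar, h4]
        by_cases hb2 : b + 1 = m - 1
        · have e3 : kap m (b + 1) = 2 := by simp [kap, hb2]
          rw [e3, h5']
        · have e3 : kap m (b + 1) = 0 := by
            simp only [kap, hb2, if_false]
            omega
          rw [e3, h1']

theorem famQ_pol (m : ℕ) (hm : Odd m) (hm3 : 3 ≤ m) (b : ℕ) (p : PQ) :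
    (famQ m hm hm3).pol b p = polQ (kap m b) p := rfl

end Pool.Agent.Helper76.Freq
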