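import Pool.Agent.Helper76.Freq.FamF
import Pool.Agent.Helper76.Freq.LoopB

/-!
# The lengths of the loops of the family `famF` are bounded
-/

set_option autoImplicit false

namespace Pool.Agent.Helper76.Freq

open LB MeasureTheory

/-- crude bound of the length of polygons -/
theorem length_crude {R : ℝ} (hR : 0 ≤ R) : ∃ C₀ : ℝ, 0 ≤ C₀ ∧ ∀ (K : ℕ) (P : ℕ → E 6)
    (h : ValidPoly K P) (c B : ℝ), 0 < c → 0 ≤ B →
    (∀ i < K, ∀ x ∈ Set.Icc (0 : ℝ) 1, c ≤ ‖seg (P i) (P (i + 1)) x‖) →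
    (∀ i < K, ‖P (i + 1) - P i‖ ≤ B) →
    length (gR R) (polyLoop K P h) ≤ K * (C₀ * (B / c)) := by
  obtain ⟨C, hC, hC2⟩ := tau_bound
  refine ⟨1 + R * C, by positivity, fun K P h c B hc hB h1 h2 => ?_⟩
  set γ : Loop 6 := polyLoop K P h with hγdef
  have hγ : γ.toFun = polyPt K P := rfl
  have hK : (0:ℝ) < K := by exact_mod_cast h.1
  obtain ⟨S, hS, _, _, g2, g3, g4⟩ := regular_dt γ
  have hval : ∀ i < K, ∀ x ∈ Set.Icc (0:ℝ) 1, γ.toFun ((i + x) / K) = nrm (seg (P i) (P (i + 1)) x) := by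
    intro i hi x hx
    rw [hγ]; exact polyPt_apply h hi hx
  have hpar : ∀ i < K, ∀ t ∈ Set.Icc ((i:ℝ) / K) ((i + 1 : ℝ) / K), K * t - i ∈ Set.Icc (0:ℝ) 1 ∧ ((i:ℝ) + (K * t - i)) / K = t := by
    intro i hi t ht
    rw [Set.mem_Icc, div_le_iff₀ hK, le_div_iff₀ hK] at ht
    refine ⟨⟨by linarith, by linarith⟩, ?_⟩
    field_simp; ring
  have hval' : ∀ i < K, ∀ t ∈ Set.Icc ((i:ℝ) / K) ((i + 1 : ℝ) / K), γ.toFun t = nrm (seg (P i) (P (i + 1)) (K * t - i)) := by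
    intro i hi t ht
    obtain ⟨a1, a2⟩ := hpar i hi t ht
    rw [← hval i hi _ a1, a2]
  have hle : ∀ i : ℕ, (i:ℝ) / K ≤ (i + 1 : ℝ) / K := fun i => by gcongr; linarith
  -- one edge
  have hedge : ∀ i < K, ∫ t in ((i:ℝ) / K)..((i + 1 : ℝ) / K), spd R γ t ≤ (1 + R * C) * (B / c) := by
    intro i hi
    have e3 : ∫ t in ((i:ℝ) / K)..((i + 1 : ℝ) / K), spd R γ t ≤
        ∫ t in ((i:ℝ) / K)..((i + 1 : ℝ) / K), ((1 + R * C) * (K * (B / c)) : ℝ) := by
      apply intervalIntegral.integral_mono_on_of_le_Ioo (hle i) (g4 R hR _ _) intervalIntegrable_const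
      intro t ht
      obtain ⟨a1, a2⟩ := hpar i hi t (Set.Ioo_subset_Icc_self ht)
      have hne : seg (P i) (P (i + 1)) (K * t - i) ≠ 0 := h.2.2 i hi _ a1
      have b1 : HasDerivAt (fun t : ℝ => seg (P i) (P (i + 1)) (K * t - i)) ((K:ℝ) • (P (i + 1) - P i)) t := by
        have b2 : HasDerivAt (fun t : ℝ => (K:ℝ) * t - i) K t := by
          simpa using ((hasDerivAt_id t).const_mul (K:ℝ)).sub_const (i:ℝ)
        exact (seg_hasDerivAt (P i) (P (i + 1)) (K * t - i)).scomp t b2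
      obtain ⟨d, hd1, hd2⟩ := nrm_hasDerivAt b1 hne
      have b3 : γ.toFun =ᶠ[nhds t] fun t => nrm (seg (P i) (P (i + 1)) (K * t - i)) := by
        filter_upwards [Icc_mem_nhds ht.1 ht.2] with s hs
        exact hval' i hi s hs
      have b4 : deriv γ.toFun t = d := by rw [b3.deriv_eq]; exact hd1.deriv
      have b5 : ‖deriv γ.toFun t‖ ≤ K * (B / c) := by
        rw [b4]
        refine hd2.trans ?_
        rw [norm_smul, Real.norm_eq_abs, abs_of_pos hK, mul_div_assoc]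
        apply mul_le_mul_of_nonneg_left _ hK.le
        exact div_le_div₀ hB (h2 i hi) hc (h1 i hi _ a1)
      have b6 : |dt γ t| ≤ C * ‖deriv γ.toFun t‖ := by
        calc |dt γ t| ≤ ‖fderiv ℝ tau (γ.toFun t)‖ * ‖deriv γ.toFun t‖ := by
              have := (fderiv ℝ tau (γ.toFun t)).le_opNorm (deriv γ.toFun t)
              rwa [Real.norm_eq_abs] at this
          _ ≤ C * ‖deriv γ.toFun t‖ := mul_le_mul_of_nonneg_right (hC2 _ (γ.norm_eq t)) (norm_nonneg _)
      calc spd R γ t ≤ ‖deriv γ.toFun t‖ + R * |dt γ t| := spd_le hR γ t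
        _ ≤ ‖deriv γ.toFun t‖ + R * (C * ‖deriv γ.toFun t‖) := by
            have := mul_le_mul_of_nonneg_left b6 hR
            linarith
        _ = (1 + R * C) * ‖deriv γ.toFun t‖ := by ring
        _ ≤ (1 + R * C) * (K * (B / c)) := mul_le_mul_of_nonneg_left b5 (by positivity)
    rw [intervalIntegral.integral_const, smul_eq_mul] at e3
    have e4 : ((i + 1 : ℝ) / K - (i:ℝ) / K) * ((1 + R * C) * (K * (B / c))) = (1 + R * C) * (B / c) := by
      field_simp; ring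
    rw [e4] at e3
    exact e3
  have hsum : ∫ t in (0:ℝ)..1, spd R γ t = ∑ i ∈ Finset.range K, ∫ t in ((i:ℝ) / K)..((i + 1 : ℝ) / K), spd R γ t := by
    have := intervalIntegral.sum_integral_adjacent_intervals (f := spd R γ) (μ := volume) (a := fun i : ℕ => (i:ℝ) / K) (n := K)
      (fun i _ => g4 R hR _ _)
    rw [Nat.cast_zero, zero_div, div_self hK.ne'] at this
    rw [← this]
    apply Finset.sum_congr rfl
    intro i _
    push_cast
    rfl
  rw [length_eq, hsum]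
  calc ∑ i ∈ Finset.range K, ∫ t in ((i:ℝ) / K)..((i + 1 : ℝ) / K), spd R γ t
      ≤ ∑ i ∈ Finset.range K, (1 + R * C) * (B / c) :=
        Finset.sum_le_sum fun i hi => hedge i (Finset.mem_range.1 hi)
    _ = _ := by
        rw [Finset.sum_const, Finset.card_range, nsmul_eq_mul]

theorem exists_min_cpt {Y : Type*} [TopologicalSpace Y] [CompactSpace Y] [Nonempty Y] {f : Y → ℝ}
    (hf : Continuous f) : ∃ p, ∀ q, f p ≤ f q := by
  obtain ⟨p, -, hp⟩ := isCompact_univ.exists_isMinOn (Set.univ_nonempty) hf.continuousOn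
  exact ⟨p, fun q => isMinOn_iff.1 hp q (Set.mem_univ _)⟩

theorem exists_max_cpt {Y : Type*} [TopologicalSpace Y] [CompactSpace Y] [Nonempty Y] {f : Y → ℝ}
    (hf : Continuous f) : ∃ p, ∀ q, f q ≤ f p := by
  obtain ⟨p, -, hp⟩ := isCompact_univ.exists_isMaxOn (Set.univ_nonempty) hf.continuousOn
  exact ⟨p, fun q => isMaxOn_iff.1 hp q (Set.mem_univ _)⟩

/-- uniform bounds for the triangles -/
theorem uV_bounds : ∃ c B : ℝ, 0 < c ∧ 0 ≤ B ∧ ∀ x : Q, ∀ i < 3,
    (∀ t ∈ Set.Icc (0 : ℝ) 1, c ≤ ‖seg (uV x i) (uV x (i + 1)) t‖) ∧ ‖uV x (i + 1) - uV x i‖ ≤ B := by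
  have h1 : ∀ i : ℕ, ∃ c : ℝ, 0 < c ∧ (i < 3 → ∀ x : Q, ∀ t ∈ Set.Icc (0 : ℝ) 1,
      c ≤ ‖seg (uV x i) (uV x (i + 1)) t‖) := by
    intro i
    by_cases hi : i < 3
    · have hcont : Continuous fun p : Q × unitInterval => ‖seg (uV p.1 i) (uV p.1 (i + 1)) (p.2 : ℝ)‖ := by
        unfold seg
        have a1 : Continuous fun p : Q × unitInterval => uV p.1 i := (continuous_uV i).comp continuous_fst
        have a2 : Continuous fun p : Q × unitInterval => uV p.1 (i + 1) :=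
          (continuous_uV (i + 1)).comp continuous_fst
        have a3 : Continuous fun p : Q × unitInterval => ((p.2 : unitInterval) : ℝ) :=
          continuous_subtype_val.comp continuous_snd
        exact (((continuous_const.sub a3).smul a1).add (a3.smul a2)).norm
      obtain ⟨p, hp⟩ := exists_min_cpt hcont
      refine ⟨‖seg (uV p.1 i) (uV p.1 (i + 1)) (p.2 : ℝ)‖, ?_, fun _ x t ht => ?_⟩
      · exact norm_pos_iff.2 ((validPath_uV p.1).2 i hi _ p.2.2)
      · exact hp (x, ⟨t, ht⟩)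
    · exact ⟨1, one_pos, fun h => absurd h hi⟩
  have h2 : ∀ i : ℕ, ∃ B : ℝ, 0 ≤ B ∧ ∀ x : Q, ‖uV x (i + 1) - uV x i‖ ≤ B := by
    intro i
    have hcont : Continuous fun x : Q => ‖uV x (i + 1) - uV x i‖ :=
      ((continuous_uV (i + 1)).sub (continuous_uV i)).norm
    obtain ⟨p, hp⟩ := exists_max_cpt hcont
    exact ⟨‖uV p (i + 1) - uV p i‖, norm_nonneg _, hp⟩
  choose c hc hc' using h1
  choose B hB hB' using h2
  refine ⟨min (c 0) (min (c 1) (c 2)), B 0 + B 1 + B 2,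
    lt_min (hc 0) (lt_min (hc 1) (hc 2)), by linarith [hB 0, hB 1, hB 2], fun x i hi => ?_⟩
  have e : i = 0 ∨ i = 1 ∨ i = 2 := by omega
  rcases e with rfl | rfl | rfl
  · exact ⟨fun t ht => (min_le_left _ _).trans (hc' 0 hi x t ht),
      (hB' 0 x).trans (by linarith [hB 1, hB 2])⟩
  · exact ⟨fun t ht => ((min_le_right _ _).trans (min_le_left _ _)).trans (hc' 1 hi x t ht),
      (hB' 1 x).trans (by linarith [hB 0, hB 2])⟩
  · exact ⟨fun t ht => ((min_le_right _ _).trans (min_le_right _ _)).trans (hc' 2 hi x t ht),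
      (hB' 2 x).trans (by linarith [hB 0, hB 1])⟩

theorem length_famF {R : ℝ} (hR : 0 < R) (m : ℕ) (hm : 0 < m) :
    ∃ C : ℝ, ∀ Ps : ℕ → P2, length (gR R) ((famF m hm).loop Ps) ≤ C := by
  obtain ⟨C₀, hC₀, h⟩ := length_crude hR.le
  obtain ⟨c, B, hc, hB, hcB⟩ := uV_bounds
  refine ⟨((m * 3 : ℕ) : ℝ) * (C₀ * (B / c)), fun Ps => ?_⟩
  have hv : ∀ i < m * 3, ∃ x : Q, ∃ r < 3, glueP 3 m (fun b => (famF m hm).pol b (Ps b)) i = uV x r ∧
      glueP 3 m (fun b => (famF m hm).pol b (Ps b)) (i + 1) = uV x (r + 1) := by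
    intro i hi
    obtain ⟨x, hx⟩ := (Ps (i / 3)).2
    have hb : i / 3 < m := by omega
    have hr : i % 3 < 3 := Nat.mod_lt _ (by norm_num)
    have e : i = i / 3 * 3 + i % 3 := by omega
    have e1 := glueP_vertex (n := 6) (V := 3) (by norm_num) ((famF m hm).hj Ps) ((famF m hm).hl Ps) hb hr.le
    have e2 := glueP_vertex (n := 6) (V := 3) (by norm_num) ((famF m hm).hj Ps) ((famF m hm).hl Ps) hb
      (show i % 3 + 1 ≤ 3 by omega)
    rw [← add_assoc] at e2
    rw [← e] at e1 e2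
    refine ⟨x, i % 3, hr, ?_, ?_⟩
    · rw [e1, famF_pol, hx]
    · rw [e2, famF_pol, hx]
  refine h (m * 3) _ ((famF m hm).validPoly Ps) c B hc hB (fun i hi t ht => ?_) (fun i hi => ?_)
  · obtain ⟨x, r, hr, e1, e2⟩ := hv i hi
    rw [e1, e2]
    exact (hcB x r hr).1 t ht
  · obtain ⟨x, r, hr, e1, e2⟩ := hv i hi
    rw [e1, e2]
    exact (hcB x r hr).2

end Pool.Agent.Helper76.Freq
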