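import Pool.Agent.Helper76.Freq.FamF
import Pool.Agent.Helper76.Freq.Lev
import Pool.Agent.Helper76.Freq.LetF2
import Pool.Agent.Helper76.Freq.EvF2
import Pool.Agent.Helper76.Freq.LenF

/-!
# The classes modulo 2
-/

set_option autoImplicit false

namespace Pool.Agent.Helper76.Freq

open Finset

/-- the cycle -/
noncomputable def zF : C(Q, P2) →₀ ZMod 2 := Finsupp.single uC 1

theorem uC_face {i : ℕ} (hi : i < 5) {e : unitInterval} (he : e = 0 ∨ e = 1) (x x' : Q) :
    uC (ins i e x) = uC (ins i e x') := by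
  have h : ∀ x : Q, (ins i e x) i = 0 ∨ (ins i e x) i = 1 := by
    intro x
    have : ins i e x i = e := by simp [ins]
    rw [this]
    exact he
  refine Subtype.ext ?_
  show uV _ = uV _
  funext j
  rw [uV_face hi (h x) j, uV_face hi (h x') j]

theorem bdN_zF : bdN (ZMod 2) 5 zF ∈ degN (ZMod 2) 4 := by
  rw [zF, bdN, Finsupp.linearCombination_single, one_smul]
  refine Submodule.sum_mem _ fun i hi => Submodule.smul_mem _ _ (Submodule.sub_mem _ ?_ ?_)
  · refine Finsupp.single_mem_supported _ _ ⟨0, by norm_num, fun x x' _ => ?_⟩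
    exact uC_face (mem_range.1 hi) (Or.inr rfl) x x'
  · refine Finsupp.single_mem_supported _ _ ⟨0, by norm_num, fun x x' _ => ?_⟩
    exact uC_face (mem_range.1 hi) (Or.inl rfl) x x'

theorem W_congr {R : Type*} [CommRing R] {X : Type} {L : List (Lt X R)} {a b : ℕ}
    {y y' : ℕ → ℕ → X} (h : ∀ j I, a ≤ I → I ≤ b → y j I = y' j I) : W L a b y = W L a b y' := by
  induction L generalizing a y y' with
  | nil => rfl
  | cons ℓ L ih =>
    rw [W_cons, W_cons]
    refine sum_congr rfl fun I hI => ?_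
    obtain ⟨h1, h2⟩ := mem_Ico.1 hI
    simp only [cup]
    congr 1
    · simp only [hat]
      congr 1
      funext j
      rw [h j I h1 h2.le, h j (I + 1) (by omega) (by omega)]
    · exact ih fun j J hJ hJ' => h _ J (by omega) hJ'

theorem W_single_congr {R : Type*} [CommRing R] {X : Type} {r : X → X → Prop} {q : ℕ}
    {Φ Ψ : (ℕ → X) → R} (h : ∀ v, Sml r v → Φ v = Ψ v) {a b : ℕ} {y : ℕ → ℕ → X}
    (hy : SmT r y) : W [(q, Φ)] a b y = W [(q, Ψ)] a b y := by
  rw [W_cons, W_cons]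
  refine sum_congr rfl fun I _ => ?_
  simp only [cup, W_nil, mul_one, hat, Pr]
  refine sum_congr rfl fun i _ => ?_
  rw [h _ fun a b => hy.from (From.mix y I i) (From.mix y I i) a b]

theorem lev_F2 : ∃ δ : ℝ, LipOK δ ∧
    (∀ h : ℝ, |h| ≤ 3 / 10 → Lev δ ((2, A2 h) : Lt E6 (ZMod 2)) h ∧
      Lev δ ((3, B2 h) : Lt E6 (ZMod 2)) h ∧ Lev δ ((5, w2 h) : Lt E6 (ZMod 2)) h) ∧
    ∀ v : ℕ → E6, Sml (cls δ) v → cobd 2 (al2 (-1 / 5)) v = A2 (-1 / 5) v ∧
      cup 2 (al2 (-1 / 5)) (B2 (1 / 5)) v = w2 (1 / 5) v := by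
  obtain ⟨δ₀, h0, hlip⟩ := exists_lipOK
  obtain ⟨δ₁, h1, hloc⟩ := local_F2
  have hmin : 0 < min δ₀ δ₁ := lt_min h0 h1
  have hsm : ∀ v : ℕ → E6, Sml (cls (min δ₀ δ₁)) v → Sm δ₁ v := fun v hv =>
    ⟨fun i => (hv i i).1, fun i j => (hv i j).2.2.trans_le (min_le_right _ _)⟩
  refine ⟨min δ₀ δ₁, hlip _ hmin (min_le_left _ _), fun h hh => ⟨?_, ?_, ?_⟩, fun v hv => ?_⟩
  · exact ⟨dep_A2 h, nrm_A2 h, by norm_num, fun v hv => (hloc v (hsm v hv) h hh).1,
      fun v hv => (hloc v (hsm v hv) h hh).2.2.2.1⟩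
  · exact ⟨dep_B2 h, nrm_B2 h, by norm_num, fun v hv => (hloc v (hsm v hv) h hh).2.1,
      fun v hv => (hloc v (hsm v hv) h hh).2.2.2.2.1⟩
  · exact ⟨dep_w2 h, nrm_w2 h, by norm_num, fun v hv => (hloc v (hsm v hv) h hh).2.2.1,
      fun v hv => (hloc v (hsm v hv) h hh).2.2.2.2.2.1⟩
  · have h2 := (hloc v (hsm v hv) (-1 / 5) (by rw [abs_of_nonpos] <;> norm_num)).2.2.2.2.2.2
    exact ⟨h2.1, h2.2 (1 / 5) (by norm_num) (by norm_num)⟩

/-- the value of the word `[A | B]` on a block is that of the letter `w2` -/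
theorem EB_AB (T : TopologicalSpace (Loop 6)) (hT : Natural T) : ∃ m₀ : ℕ, ∀ M k : ℕ,
    m₀ ≤ M → m₀ ≤ k → 0 < M → 0 < k → ∀ (m : ℕ) (hm : 0 < m) (b : ℕ),
      EB ((famF m hm).dpath k) (3 * k) 5 M zF b [(2, A2 (-1 / 5)), (3, B2 (1 / 5))] =
        EB ((famF m hm).dpath k) (3 * k) 5 M zF b [(5, w2 (1 / 5))] := by
  obtain ⟨δ, hδ, hlev, hab⟩ := lev_F2
  have LB := (hlev (1 / 5) (by rw [abs_of_nonneg] <;> norm_num)).2.1
  set F1 := famF 1 one_pos with hF1
  set c : Cube (Loop 6) 5 := fun s => F1.loop (fun _ => uC (ext 5 s)) with hc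
  have hcc : Continuous c := (F1.continuous_loop T hT).comp
    (continuous_pi fun _ => uC.continuous.comp (continuous_ext 5))
  obtain ⟨m₀, hm₀⟩ := small_grid T hT c hcc hδ.1
  refine ⟨m₀, fun M k hM hk hM0 hk0 m hm b => ?_⟩
  have hsm := hm₀ M (3 * k) hM (by omega)
  set n := 3 * k with hn
  -- the values of the loops
  have hval : ∀ (x : Q) (I : ℕ), I ≤ n → dcube n c x I = F1.dpath k 0 (uC (ext 5 fun i => x i)) I := by
    intro x I hI
    have h1 := F1.loop_toFun hk0 (fun _ => uC (ext 5 fun i => x i)) I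
    rw [one_mul, ← hn] at h1
    have h2 := gl_block (path := F1.dpath k) (m := 1) (n := n) (by omega) one_pos
      (F1.joint_dpath hk0) (fun _ => uC (ext 5 fun i => x i)) (t := 0) hI
    rw [zero_mul, zero_add] at h2
    rw [h2] at h1
    exact h1
  have hext : ∀ x : Q, uC (ext 5 fun i => x i) = uC x := by
    intro x
    refine Subtype.ext (uV_dep fun i hi => ?_)
    simp [ext, hi]
  have hjd : ∀ p p' : P2, F1.dpath k 0 p n = F1.dpath k 0 p' 0 := fun p p' =>
    F1.joint_dpath hk0 0 one_pos p p'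
  have key : ∀ L : List (Lt E6 (ZMod 2)), EB ((famF m hm).dpath k) n 5 M zF b L =
      ev 5 (fun _ => M) (W L 0 n) (dcube n c) := by
    intro L
    rw [EB, zF, EvC_single, one_mul, ev_id 5 (fun _ => M) (W L 0 n) (dcube n c), ev_id 5 (fun _ => M) _ uC]
    refine ev_congr fun kk pos _ => ?_
    refine W_congr fun j I _ hI => ?_
    rw [hval _ I hI, hext]
    rfl
  rw [key, key]
  have hW := ev_AB (r := cls δ) (dep_al2 (-1 / 5)) (nrm_al2 (-1 / 5)) (dep_B2 (1 / 5)) (nrm_B2 (1 / 5))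
    (fun v hv => (hab v hv).1) LB.closed (n := n) hM0 (dcube n c)
    (fun x x' => by
      rw [hval x 0 (Nat.zero_le _), hval x' 0 (Nat.zero_le _),
        ← hjd (uC x) (uC (ext 5 fun i => x i)), ← hjd (uC x) (uC (ext 5 fun i => x' i))])
    (fun x x' => by
      rw [hval x n le_rfl, hval x' n le_rfl, hjd _ (uC x), hjd _ (uC x)])
    (fun i hi e he x x' => by
      have : c (fun l => ins i e x l) = c (fun l => ins i e x' l) := by
        simp only [hc]
        rw [hext, hext, uC_face hi he x x']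
      funext I
      simp only [dcube, this])
    hsm
  rw [hW]
  refine ev_congr fun kk pos hadm => ?_
  exact W_single_congr (fun v hv => (hab v hv).2) (hsm kk pos hadm)

/-- the first letter -/
noncomputable def l0F : Lt E6 (ZMod 2) := (5, w2 0)

/-- the first letter of a pair -/
noncomputable def laF : Lt E6 (ZMod 2) := (2, A2 (-1 / 5))

/-- the second letter of a pair -/
noncomputable def lbF : Lt E6 (ZMod 2) := (3, B2 (1 / 5))

theorem EB_w2 {l : ℝ} (hl : |l| ≤ 3 / 10) : ∃ m₀ : ℕ, ∀ M k : ℕ, Odd M → m₀ ≤ M → m₀ ≤ k →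
    ∀ (m : ℕ) (hm : 0 < m) (b : ℕ),
      EB ((famF m hm).dpath k) (3 * k) 5 (3 * M) zF b [(5, w2 l)] = 1 := by
  obtain ⟨m₁, n₁, h⟩ := eval_F2 hl
  refine ⟨max m₁ n₁, fun M k hM h1 h2 m hm b => ?_⟩
  rw [Fam.EB_single _ _ _ nonempty_P2, zF, Finsupp.sum_single_index (by ring), one_mul]
  exact h M k hM (le_trans (le_max_left _ _) h1) (le_trans (le_max_right _ _) h2)

theorem prE_one {path : ℕ → P2 → ℕ → E6} {n M : ℕ} (Ls : List (List (Lt E6 (ZMod 2))))
    (hLs : ∀ L ∈ Ls, ∀ b, EB path n 5 M zF b L = 1) (s : ℕ) : prE path n 5 M zF s Ls = 1 := by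
  induction Ls generalizing s with
  | nil => rfl
  | cons L Ls ih =>
    rw [prE, hLs L (by simp) s, ih (fun L' hL' => hLs L' (by simp [hL'])), one_mul]

theorem eval_famF (T : TopologicalSpace (Loop 6)) (hT : Natural T) {m : ℕ} (hm : Odd m)
    (hm0 : 0 < m) (m₀ : ℕ) :
    ∃ M k' : ℕ, m₀ ≤ M ∧ m₀ ≤ k' ∧ EvF (5 * m) M (m * (3 * k'))
      (Th l0F (List.replicate (m - 1) [laF, lbF]).flatten (m * (3 * k'))) ((famF m hm0).cyc zF) ≠ 0 := by
  obtain ⟨c₁, h₁⟩ := EB_w2 (l := 0) (by norm_num)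
  obtain ⟨c₂, h₂⟩ := EB_w2 (l := 1 / 5) (by rw [abs_of_nonneg] <;> norm_num)
  obtain ⟨c₃, h₃⟩ := EB_AB T hT
  set c := m₀ + c₁ + c₂ + c₃ with hc
  refine ⟨3 * (2 * c + 1), c + 1, by omega, by omega, ?_⟩
  set k := c + 1 with hk
  have hodd : Odd (2 * c + 1) := ⟨c, rfl⟩
  have hmem : ∀ L ∈ [l0F] :: List.replicate (m - 1) [laF, lbF], L = [l0F] ∨ L = [laF, lbF] := by
    intro L hL
    rcases List.mem_cons.1 hL with h | h
    · exact Or.inl h
    · exact Or.inr (List.eq_of_mem_replicate h)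
  have hfl : ∀ ℓ ∈ ([l0F] :: List.replicate (m - 1) [laF, lbF]).flatten,
      ℓ = l0F ∨ ℓ = laF ∨ ℓ = lbF := by
    intro ℓ hℓ
    rw [List.mem_flatten] at hℓ
    obtain ⟨L, hL, hℓ⟩ := hℓ
    rcases hmem L hL with rfl | rfl
    · exact Or.inl (by simpa using hℓ)
    · exact Or.inr (by simpa using hℓ)
  have hev := (famF m hm0).eval zF (k := k) (M := 3 * (2 * c + 1)) (by omega) l0F rfl
    (List.replicate (m - 1) [laF, lbF])
    (fun ℓ hℓ => by
      rcases hfl ℓ (by rw [List.flatten_cons, List.mem_append]; exact Or.inr hℓ) with rfl | rfl | rfl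
      · exact Nat.succ_pos 4
      · exact Nat.succ_pos 1
      · exact Nat.succ_pos 2)
    (fun ℓ hℓ => by
      rcases hfl ℓ hℓ with rfl | rfl | rfl
      · exact dep_w2 0
      · exact dep_A2 (-1 / 5)
      · exact dep_B2 (1 / 5))
    (fun ℓ hℓ => by
      rcases hfl ℓ hℓ with rfl | rfl | rfl
      · exact nrm_w2 0
      · exact nrm_A2 (-1 / 5)
      · exact nrm_B2 (1 / 5))
    (fun L hL => by
      rw [List.eq_of_mem_replicate hL]
      rfl)
    (by rw [List.length_replicate]; omega)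
    (fun Φ => EvF_res (3 * (2 * c + 1)) (m * (3 * k)) Φ (famF m hm0).loop (pw 5 m zF))
  rw [hev]
  have hone : ∀ L ∈ [l0F] :: List.replicate (m - 1) [laF, lbF], ∀ b,
      EB ((famF m hm0).dpath k) (3 * k) 5 (3 * (2 * c + 1)) zF b L = 1 := by
    intro L hL b
    rcases hmem L hL with rfl | rfl
    · exact h₁ (2 * c + 1) k hodd (by omega) (by omega) m hm0 b
    · have e := h₃ (3 * (2 * c + 1)) k (by omega) (by omega) (by omega) (by omega) m hm0 b
      exact e.trans (h₂ (2 * c + 1) k hodd (by omega) (by omega) m hm0 b)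
  have hsum : ∀ b ∈ range m, (-1 : ZMod 2) ^ (5 * (m - b) * 5 * b) *
        (prE ((famF m hm0).dpath k) (3 * k) 5 (3 * (2 * c + 1)) zF 0
            (([l0F] :: List.replicate (m - 1) [laF, lbF]).drop (m - b)) *
          prE ((famF m hm0).dpath k) (3 * k) 5 (3 * (2 * c + 1)) zF b
            (([l0F] :: List.replicate (m - 1) [laF, lbF]).take (m - b))) = 1 := by
    intro b _
    rw [prE_one _ (fun L hL => hone L (List.mem_of_mem_drop hL)),
      prE_one _ (fun L hL => hone L (List.mem_of_mem_take hL)), mul_one, mul_one]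
    have : (-1 : ZMod 2) = 1 := rfl
    rw [this, one_pow]
  rw [sum_congr rfl hsum, sum_const, card_range, nsmul_eq_mul, mul_one]
  rw [Ne, ZMod.natCast_eq_zero_iff]
  intro h
  obtain ⟨j, hj⟩ := hm
  omega

theorem final_F2 {R : ℝ} (hR : 0 < R) (T : TopologicalSpace (Loop 6)) (hT : Natural T) {m : ℕ}
    (hm : Odd m) (hm3 : 3 ≤ m) :
    ∃ x : Homology (Loop 6) (ZMod 2) (5 * m), x ≠ 0 ∧
      (∃ a : ℝ, ∃ z' ∈ cycles (Loop 6) (ZMod 2) {γ | length (gR R) γ ≤ a} (5 * m), Represents z' x) ∧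
      ∀ (a : ℝ) (z' : Cube (Loop 6) (5 * m) →₀ ZMod 2),
        z' ∈ cycles (Loop 6) (ZMod 2) {γ | length (gR R) γ ≤ a} (5 * m) → Represents z' x →
          R * (2 * m - 3) ≤ a := by
  have hm0 : 0 < m := by omega
  obtain ⟨δ, hδ, hlev, -⟩ := lev_F2
  have L0 : Lev δ l0F 0 := (hlev 0 (by norm_num)).2.2
  have La : Lev δ laF (-1 / 5) := (hlev _ (by rw [abs_of_nonpos] <;> norm_num)).1
  have Lb : Lev δ lbF (1 / 5) := (hlev _ (by rw [abs_of_nonneg] <;> norm_num)).2.1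
  have k1 : (1 : ℝ) / 20 ≤ |0 - -1 / 5| := by rw [abs_of_nonneg] <;> norm_num
  have k2 : (1 : ℝ) / 20 ≤ |-1 / 5 - 1 / 5| := by rw [abs_of_nonpos] <;> norm_num
  have k3 : (1 : ℝ) / 20 ≤ |1 / 5 - 0| := by rw [abs_of_nonneg] <;> norm_num
  have hj : 0 < m - 1 := by omega
  have hwd : l0F.1 + (m - 1) * (laF.1 + lbF.1) = 5 * m := by
    show 5 + (m - 1) * (2 + 3) = _
    omega
  have hdet := fun S z' => detect_fam (famF m hm0) T hT (z := zF) hδ L0 La Lb k1 k2 k3
    hj hwd (eval_famF T hT hm hm0) S (z' := z')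
  have hmem := fun S hS => (famF m hm0).cyc_mem T hT bdN_zF S hS
  refine ⟨Submodule.Quotient.mk ⟨(famF m hm0).cyc zF,
    hmem Set.univ fun _ => Set.mem_univ _⟩, ?_, ?_, ?_⟩
  · intro h0
    rw [Submodule.Quotient.mk_eq_zero] at h0
    obtain ⟨γ, t, hγ, -⟩ := hdet ∅ 0 (Submodule.zero_mem _) (by
      rw [zero_sub]
      exact Submodule.neg_mem _ h0)
    exact hγ
  · obtain ⟨C, hC⟩ := length_famF hR m hm0
    exact ⟨C, _, hmem _ fun Ps => hC Ps, _, rfl⟩
  · intro a z' hz' hrep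
    obtain ⟨h', hrep⟩ := hrep
    rw [Submodule.Quotient.eq] at hrep
    obtain ⟨γ, t, hγ, ht1, ht2, ht3⟩ := hdet _ z' hz' hrep
    have tau0 : ∀ v : E6, |HH v - -1 / 5| < 1 / 50 → tau v = 0 := by
      intro v hv
      rw [abs_lt] at hv
      exact Real.smoothTransition.zero_of_nonpos (by linarith [hv.2])
    have tau1 : ∀ v : E6, |HH v - 1 / 5| < 1 / 50 → tau v = 1 := by
      intro v hv
      rw [abs_lt] at hv
      exact Real.smoothTransition.one_of_one_le (by linarith [hv.1])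
    have h4 := length_ge hR.le γ (2 * (m - 1) - 1) (fun i => t (i + 1))
      (fun i hi => ht1 (i + 1) (by omega)) (by
        have h5 := ht1 0 (by omega)
        show t (2 * (m - 1) - 1 + 1) ≤ t (0 + 1) + 1
        rw [Nat.sub_add_cancel (by omega)]
        linarith)
    have h5 : ∀ i ∈ range (2 * (m - 1) - 1),
        |tau (γ.toFun (t (i + 1 + 1))) - tau (γ.toFun (t (i + 1)))| = 1 := by
      intro i hi
      have hi' := mem_range.1 hi
      rcases Nat.even_or_odd' i with ⟨l, rfl | rfl⟩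
      · rw [tau0 _ (ht3 l (by omega)).1, tau1 _ (ht3 l (by omega)).2, sub_zero, abs_one]
      · have e1 := tau1 _ (ht3 l (by omega)).2
        have e2 := tau0 _ (ht3 (l + 1) (by omega)).1
        rw [show 2 * l + 1 + 1 = 2 * l + 2 by ring, show 2 * l + 2 + 1 = 2 * (l + 1) + 1 by ring,
          e1, e2, zero_sub, abs_neg, abs_one]
    rw [sum_congr rfl h5, sum_const, card_range, nsmul_eq_mul, mul_one] at h4
    have h6 : length (gR R) γ ≤ a := hγ
    have h7 : ((2 * (m - 1) - 1 : ℕ) : ℝ) = 2 * m - 3 := by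
      rw [Nat.cast_sub (by omega), Nat.cast_mul, Nat.cast_sub (by omega)]
      push_cast
      ring
    rw [h7] at h4
    exact h4.trans h6

end Pool.Agent.Helper76.Freq
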