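import Pool.Agent.Helper76.Freq.Defs

/-!
# Metrics, lengths, cubical homology, critical levels and mean frequency

The definitions used in the statement of the main theorem (besides `E`, `Loop`, `Natural` and
`Cube` from `Defs`).
-/

set_option autoImplicit false

namespace Pool.Agent.Helper76.Freq

open scoped RealInnerProductSpace ContDiff

/-- A Riemannian metric on the unit sphere `S^n ⊂ ℝ^{n+1}`: a smooth field of symmetric bilinear
forms on `ℝ^{n+1}` which is positive definite on the tangent spaces of the sphere (every smooth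
Riemannian metric on `S^n` is the restriction of such a field). -/
structure RMetric (n : ℕ) where
  /-- the bilinear form at a point -/
  form : E n → E n → E n → ℝ
  smooth : ∀ u v, ContDiff ℝ ∞ fun x => form x u v
  add : ∀ x u v w, form x (u + v) w = form x u w + form x v w
  smul : ∀ x (c : ℝ) u w, form x (c • u) w = c * form x u w
  symm : ∀ x u v, form x u v = form x v u
  pos : ∀ x u, ‖x‖ = 1 → ⟪x, u⟫ = 0 → u ≠ 0 → 0 < form x u u

/-- length of a loop -/
noncomputable def len {n : ℕ} (g : RMetric n) (γ : Loop n) : ℝ :=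
  ∫ t in (0 : ℝ)..1, Real.sqrt (g.form (γ.toFun t) (deriv γ.toFun t) (deriv γ.toFun t))

section homology

variable {X : Type} [TopologicalSpace X] {G : Type} [Field G] {d : ℕ}

/-- `c` is a singular cubical chain of the subspace `S` of `X`, with coefficients in `G` -/
def IsChain (S : Set X) (c : Cube X d →₀ G) : Prop :=
  ∀ σ ∈ c.support, Continuous σ ∧ ∀ s, σ s ∈ S

/-- `c` is a chain of `S` spanned by degenerate cubes: those which do not depend on one of the
coordinates -/
def IsDegen (S : Set X) (c : Cube X d →₀ G) : Prop :=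
  ∀ σ ∈ c.support, (Continuous σ ∧ ∀ s, σ s ∈ S) ∧
    ∃ i : Fin d, ∀ s s' : Fin d → unitInterval, (∀ j, j ≠ i → s j = s' j) → σ s = σ s'

/-- faces of a cube -/
def face {X : Type} {d : ℕ} (σ : Cube X (d + 1)) (i : Fin (d + 1)) (e : unitInterval) : Cube X d :=
  fun s => σ (Fin.insertNth i e s)

/-- the boundary of a cubical chain -/
noncomputable def bd {X G : Type} [Field G] {d : ℕ} (c : Cube X (d + 1) →₀ G) : Cube X d →₀ G :=
  c.sum fun σ r => ∑ i : Fin (d + 1),
    (Finsupp.single (face σ i 1) ((-1) ^ (i : ℕ) * r) -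
      Finsupp.single (face σ i 0) ((-1) ^ (i : ℕ) * r))

/-- `c` is a cycle (modulo degenerate chains) of the subspace `S` -/
def IsCycle (S : Set X) : {d : ℕ} → (Cube X d →₀ G) → Prop
  | 0, c => IsChain S c
  | _ + 1, c => IsChain S c ∧ IsDegen S (bd c)

/-- `c` is a boundary (modulo degenerate chains) in `X` -/
def IsBdry (c : Cube X d →₀ G) : Prop :=
  ∃ (b : Cube X (d + 1) →₀ G) (e : Cube X d →₀ G),
    IsChain Set.univ b ∧ IsDegen Set.univ e ∧ c = bd b + e

end homology

/-- The critical (minimax) level of the homology class of the cycle `z`: the infimum of all `a`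
such that `z` is homologous to a cycle of the space of loops of length at most `a`. -/
noncomputable def crit {n : ℕ} [TopologicalSpace (Loop n)] {G : Type} [Field G] (g : RMetric n)
    {d : ℕ} (z : Cube (Loop n) d →₀ G) : ℝ :=
  sInf {a : ℝ | ∃ z' : Cube (Loop n) d →₀ G, IsCycle {γ | len g γ ≤ a} z' ∧ IsBdry (z' - z)}

/-- the cycle `z` represents a nonzero homology class -/
def IsNonzeroClass {X : Type} [TopologicalSpace X] {G : Type} [Field G] {d : ℕ}
    (z : Cube X d →₀ G) : Prop := IsCycle Set.univ z ∧ ¬ IsBdry z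

/-- `α` is the global mean frequency of `(g, G)`: the limit of `deg x / cr x` over all nonzero
homology classes `x`, as `deg x` tends to infinity -/
def IsMeanFrequency {n : ℕ} [TopologicalSpace (Loop n)] (g : RMetric n) (G : Type) [Field G]
    (α : ℝ) : Prop :=
  ∀ ε : ℝ, 0 < ε → ∃ D : ℕ, ∀ d ≥ D, ∀ z : Cube (Loop n) d →₀ G, IsNonzeroClass z →
    |d / crit g z - α| < ε

end Pool.Agent.Helper76.Freq
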